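import Pool.Agent.FKP.Defs

/-!
# Project FKP: elementary lemmas on `Ex` and `ind`
-/

set_option autoImplicit false

namespace Pool.Agent.FKP

open Filter MeasureTheory Pool.Agent.FKT

theorem ind_true {P : Prop} (h : P) : ind P = 1 := by simp [ind, h]

theorem ind_false {P : Prop} (h : ¬ P) : ind P = 0 := by simp [ind, h]

theorem ind_nonneg (P : Prop) : 0 ≤ ind P := by
  unfold ind; split_ifs <;> norm_num

theorem ind_le_one (P : Prop) : ind P ≤ 1 := by
  unfold ind; split_ifs <;> norm_num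

theorem ind_mono {P Q : Prop} (h : P → Q) : ind P ≤ ind Q := by
  by_cases hP : P
  · rw [ind_true hP, ind_true (h hP)]
  · rw [ind_false hP]; exact ind_nonneg Q

theorem ind_not (P : Prop) : ind (¬ P) = 1 - ind P := by
  by_cases hP : P
  · rw [ind_true hP, ind_false (not_not.mpr hP)]; norm_num
  · rw [ind_false hP, ind_true hP]; norm_num

theorem ind_and (P Q : Prop) : ind (P ∧ Q) = ind P * ind Q := by
  by_cases hP : P <;> by_cases hQ : Q <;> simp [ind, hP, hQ]

theorem ind_congr {P Q : Prop} (h : P ↔ Q) : ind P = ind Q := by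
  rw [propext h]

theorem ind_sq (P : Prop) : ind P * ind P = ind P := by
  by_cases hP : P <;> simp [ind, hP]

section

variable {V E : Type} {s t : E → V} {R : V → V → Prop} {U : Finset V} {G : Finset E} {p q : ℝ}

theorem bw_pos (hp : 0 < p) (hp1 : p < 1) (ω : Finset E) : 0 < bw p G ω :=
  mul_pos (pow_pos hp _) (pow_pos (by linarith) _)

theorem wt_pos (hp : 0 < p) (hp1 : p < 1) (hq : 0 < q) (ω : Finset E) :
    0 < wt s t R U G p q ω :=
  mul_pos (bw_pos hp hp1 ω) (pow_pos hq _)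

theorem Z_pos (hp : 0 < p) (hp1 : p < 1) (hq : 0 < q) :
    0 < ∑ ω ∈ G.powerset, wt s t R U G p q ω :=
  Finset.sum_pos (fun ω _ => wt_pos hp hp1 hq ω) ⟨∅, Finset.empty_mem_powerset _⟩

theorem Ex_congr {f g : Finset E → ℝ} (h : ∀ ω, ω ⊆ G → f ω = g ω) :
    Ex s t R U G p q f = Ex s t R U G p q g := by
  unfold Ex
  congr 1
  exact Finset.sum_congr rfl fun ω hω => by rw [h ω (Finset.mem_powerset.mp hω)]

theorem Ex_mono (hp : 0 < p) (hp1 : p < 1) (hq : 0 < q) {f g : Finset E → ℝ}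
    (h : ∀ ω, ω ⊆ G → f ω ≤ g ω) : Ex s t R U G p q f ≤ Ex s t R U G p q g := by
  unfold Ex
  apply div_le_div_of_nonneg_right _ (Z_pos hp hp1 hq).le
  exact Finset.sum_le_sum fun ω hω =>
    mul_le_mul_of_nonneg_left (h ω (Finset.mem_powerset.mp hω)) (wt_pos hp hp1 hq ω).le

theorem Ex_add (f g : Finset E → ℝ) :
    Ex s t R U G p q (fun ω => f ω + g ω) = Ex s t R U G p q f + Ex s t R U G p q g := by
  unfold Ex
  rw [← add_div, ← Finset.sum_add_distrib]
  congr 1
  exact Finset.sum_congr rfl fun ω _ => by ring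

theorem Ex_sub (f g : Finset E → ℝ) :
    Ex s t R U G p q (fun ω => f ω - g ω) = Ex s t R U G p q f - Ex s t R U G p q g := by
  unfold Ex
  rw [← sub_div, ← Finset.sum_sub_distrib]
  congr 1
  exact Finset.sum_congr rfl fun ω _ => by ring

theorem Ex_mul_left (c : ℝ) (f : Finset E → ℝ) :
    Ex s t R U G p q (fun ω => c * f ω) = c * Ex s t R U G p q f := by
  unfold Ex
  rw [← mul_div_assoc, Finset.mul_sum]
  congr 1
  exact Finset.sum_congr rfl fun ω _ => by ring

theorem Ex_sum {ι : Type} (A : Finset ι) (f : ι → Finset E → ℝ) :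
    Ex s t R U G p q (fun ω => ∑ i ∈ A, f i ω) = ∑ i ∈ A, Ex s t R U G p q (f i) := by
  unfold Ex
  rw [← Finset.sum_div]
  congr 1
  rw [Finset.sum_comm]
  exact Finset.sum_congr rfl fun ω _ => Finset.mul_sum _ _ _

theorem Ex_const (hp : 0 < p) (hp1 : p < 1) (hq : 0 < q) (c : ℝ) :
    Ex s t R U G p q (fun _ => c) = c := by
  unfold Ex
  rw [← Finset.sum_mul, mul_comm, mul_div_assoc, div_self (Z_pos hp hp1 hq).ne', mul_one]

theorem Ex_nonneg (hp : 0 < p) (hp1 : p < 1) (hq : 0 < q) {f : Finset E → ℝ}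
    (h : ∀ ω, ω ⊆ G → 0 ≤ f ω) : 0 ≤ Ex s t R U G p q f := by
  have := Ex_mono (s := s) (t := t) (R := R) (U := U) (G := G) hp hp1 hq
    (f := fun _ => 0) (g := f) h
  rwa [Ex_const hp hp1 hq] at this

theorem Ex_pos (hp : 0 < p) (hp1 : p < 1) (hq : 0 < q) {f : Finset E → ℝ}
    (h : ∀ ω, ω ⊆ G → 0 ≤ f ω) {ω0 : Finset E} (h0 : ω0 ⊆ G) (h1 : 0 < f ω0) :
    0 < Ex s t R U G p q f := by
  unfold Ex
  apply div_pos _ (Z_pos hp hp1 hq)
  exact Finset.sum_pos' (fun ω hω => mul_nonneg (wt_pos hp hp1 hq ω).le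
    (h ω (Finset.mem_powerset.mp hω)))
    ⟨ω0, Finset.mem_powerset.mpr h0, mul_pos (wt_pos hp hp1 hq ω0) h1⟩

theorem Ex_le_one (hp : 0 < p) (hp1 : p < 1) (hq : 0 < q) {f : Finset E → ℝ}
    (h : ∀ ω, ω ⊆ G → f ω ≤ 1) : Ex s t R U G p q f ≤ 1 := by
  have := Ex_mono (s := s) (t := t) (R := R) (U := U) (G := G) hp hp1 hq
    (f := f) (g := fun _ => 1) h
  rwa [Ex_const hp hp1 hq] at this

/-- Connection is monotone in the wiring and in the open edges. -/
theorem Con_mono {R R' : V → V → Prop} {O O' : Set E} (hR : ∀ a b, R a b → R' a b)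
    (hO : O ⊆ O') {a b : V} (h : Con s t R O a b) : Con s t R' O' a b := by
  unfold FKT.Con at h ⊢
  induction h with
  | rel x y hxy =>
    apply Relation.EqvGen.rel
    rcases hxy with h | ⟨e, he, h1, h2⟩
    · exact Or.inl (hR _ _ h)
    · exact Or.inr ⟨e, hO he, h1, h2⟩
  | refl x => exact Relation.EqvGen.refl x
  | symm x y _ ih => exact Relation.EqvGen.symm _ _ ih
  | trans x y z _ _ ih1 ih2 => exact Relation.EqvGen.trans _ _ _ ih1 ih2

theorem Con_refl (O : Set E) (a : V) : Con s t R O a a := Relation.EqvGen.refl a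

theorem Con_symm {O : Set E} {a b : V} (h : Con s t R O a b) : Con s t R O b a :=
  Relation.EqvGen.symm _ _ h

theorem Con_trans {O : Set E} {a b c : V} (h : Con s t R O a b) (h' : Con s t R O b c) :
    Con s t R O a c := Relation.EqvGen.trans _ _ _ h h'

theorem Con_edge {O : Set E} {e : E} (he : e ∈ O) : Con s t R O (s e) (t e) :=
  Relation.EqvGen.rel _ _ (Or.inr ⟨e, he, rfl, rfl⟩)

theorem Con_wired {O : Set E} {a b : V} (h : R a b) : Con s t R O a b :=
  Relation.EqvGen.rel _ _ (Or.inl h)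

end

theorem mem_es {d : ℕ} {S : Finset (Vx d)} {e : Ed d} : e ∈ es S ↔ e.1 ∈ S ∧ tgt e ∈ S := by
  unfold es
  simp

theorem es_mono {d : ℕ} {S S' : Finset (Vx d)} (h : S ⊆ S') : es S ⊆ es S' := fun e he => by
  rw [mem_es] at he ⊢
  exact ⟨h he.1, h he.2⟩

theorem es_bx {d : ℕ} (x : Vx d) (n : ℕ) : es (bx x n) = eb x n := rfl

end Pool.Agent.FKP
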