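import Pool.Agent.FKP.PartC2
import Pool.Agent.FKP.Lem

/-!
# Project FKP: the touched blocks form a finite connected set (T_ACN)
-/

set_option autoImplicit false

namespace Pool.Agent.FKP

open Filter MeasureTheory Pool.Agent.FKT

namespace ACN_

variable {d : ℕ}

/-- The block which contains `x`. -/
def cell (b : ℕ) (x : Vx d) : Vx d := fun i => (x i + b) / (2 * (b : ℤ) + 1)

theorem div_iff (b : ℕ) (t q : ℤ) :
    ((2 * (b : ℤ) + 1) * q - b ≤ t ∧ t ≤ (2 * (b : ℤ) + 1) * q + b) ↔
      q = (t + b) / (2 * (b : ℤ) + 1) := by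
  have hm : (0 : ℤ) < 2 * (b : ℤ) + 1 := by positivity
  constructor
  · rintro ⟨h1, h2⟩
    apply le_antisymm
    · rw [Int.le_ediv_iff_mul_le hm]; linarith
    · have : (t + b) / (2 * (b : ℤ) + 1) < q + 1 := by
        rw [Int.ediv_lt_iff_lt_mul hm]; linarith
      linarith
  · intro h
    have h1 : q ≤ (t + b) / (2 * (b : ℤ) + 1) := h.le
    have h2 : (t + b) / (2 * (b : ℤ) + 1) < q + 1 := by linarith
    rw [Int.le_ediv_iff_mul_le hm] at h1
    rw [Int.ediv_lt_iff_lt_mul hm] at h2
    constructor <;> linarith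

theorem mem_iff (b : ℕ) (x z : Vx d) : x ∈ bx (cc b z) b ↔ z = cell b x := by
  simp only [bx, Finset.mem_Icc, Pi.le_def, cc]
  constructor
  · rintro ⟨h1, h2⟩
    funext i
    exact (div_iff b (x i) (z i)).mp ⟨h1 i, h2 i⟩
  · intro h
    have h' : ∀ i, z i = (x i + b) / (2 * (b : ℤ) + 1) := fun i => congrFun h i
    exact ⟨fun i => ((div_iff b (x i) (z i)).mpr (h' i)).1,
      fun i => ((div_iff b (x i) (z i)).mpr (h' i)).2⟩

theorem cell_zero (b : ℕ) : cell b (0 : Vx d) = 0 := by
  symm
  rw [← mem_iff]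
  simp [bx, Finset.mem_Icc, Pi.le_def, cc]

theorem div_succ {m : ℤ} (hm : 0 < m) (t : ℤ) : (t + 1) / m = t / m ∨ (t + 1) / m = t / m + 1 := by
  have h1 : t / m ≤ (t + 1) / m := Int.ediv_le_ediv hm (by linarith)
  have h2 : (t + 1) / m < t / m + 2 := by
    rw [Int.ediv_lt_iff_lt_mul hm]
    have h3 : t < (t / m + 1) * m := by
      rw [← Int.ediv_lt_iff_lt_mul hm]; linarith
    nlinarith
  omega

theorem cell_tgt (b : ℕ) (e : Ed d) :
    cell b (tgt e) = cell b e.1 ∨ cell b (tgt e) = tgt (cell b e.1, e.2) := by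
  have hm : (0 : ℤ) < 2 * (b : ℤ) + 1 := by positivity
  have hne : ∀ j, j ≠ e.2 → cell b (tgt e) j = cell b e.1 j := by
    intro j hj
    simp [cell, tgt, Pi.single_eq_of_ne hj]
  have heq : cell b (tgt e) e.2 = ((e.1 e.2 + b) + 1) / (2 * (b : ℤ) + 1) := by
    simp only [cell, tgt, Pi.add_apply, Pi.single_eq_same]
    congr 1
    ring
  rcases div_succ hm (e.1 e.2 + b) with h | h
  · left
    funext j
    by_cases hj : j = e.2
    · subst hj; rw [heq, h]; rfl
    · exact hne j hj
  · right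
    funext j
    by_cases hj : j = e.2
    · subst hj
      rw [heq, h]
      simp [tgt, cell]
    · rw [hne j hj]
      simp [tgt, Pi.single_eq_of_ne hj]

theorem card_bx (x : Vx d) (n : ℕ) : (bx x n).card = (2 * n + 1) ^ d := by
  unfold bx
  rw [Pi.card_Icc]
  have : ∀ i : Fin d, (Finset.Icc (x i - (n : ℤ)) (x i + n)).card = 2 * n + 1 := by
    intro i
    rw [Int.card_Icc]
    omega
  simp [this]

end ACN_

open ACN_ in
theorem p_ACN : T_ACN := by
  intro d b ω hfin
  have hmem : ∀ z : Vx d, z ∈ hfin.toFinset.image (cell b) ↔ ∃ v ∈ C0 ω, cell b v = z := by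
    intro z
    simp [Finset.mem_image]
  have h0 : (0 : Vx d) ∈ C0 ω := Con_refl _ _
  refine ⟨hfin.toFinset.image (cell b), ?_, ?_, ?_, ?_, ?_⟩
  · ext z
    rw [Finset.mem_coe, hmem]
    simp only [Tch, Set.mem_setOf_eq, mem_iff]
    constructor
    · rintro ⟨v, hv, rfl⟩; exact ⟨v, hv, rfl⟩
    · rintro ⟨v, hv, hz⟩; exact ⟨v, hv, hz.symm⟩
  · rw [hmem]
    exact ⟨0, h0, cell_zero b⟩
  · set A := hfin.toFinset.image (cell b) with hA
    have key : ∀ a c : Vx d, FKT.Con Prod.fst tgt (no (Vx d)) (cfg ω) a c → a ∈ C0 ω →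
        Cf (es A) (cell b a) (cell b c) := by
      intro a c h
      unfold FKT.Con at h
      induction h with
      | rel x y hxy =>
        intro hx
        rcases hxy with h | ⟨e, he, h1, h2⟩
        · exact h.elim
        · have hy : y ∈ C0 ω := Con_trans hx (by rw [← h1, ← h2]; exact Con_edge he)
          subst h1 h2
          rcases cell_tgt b e with h | h
          · rw [h]; exact Con_refl _ _
          · have hm : ((cell b e.1, e.2) : Ed d) ∈ ((es A : Finset (Ed d)) : Set (Ed d)) := by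
              rw [Finset.mem_coe, mem_es]
              refine ⟨(hmem _).mpr ⟨_, hx, rfl⟩, ?_⟩
              rw [← h]
              exact (hmem _).mpr ⟨_, hy, rfl⟩
            have := Con_edge (s := Prod.fst) (t := tgt) (R := no (Vx d)) hm
            rw [h]
            exact this
      | refl x => intro _; exact Con_refl _ _
      | symm x y hxy ih =>
        intro hy
        have hx : x ∈ C0 ω := Con_trans hy (Con_symm hxy)
        exact Con_symm (ih hx)
      | trans x y z hxy _ ih1 ih2 =>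
        intro hx
        have hy : y ∈ C0 ω := Con_trans hx hxy
        exact Con_trans (ih1 hx) (ih2 hy)
    intro x hx y hy
    obtain ⟨v, hv, rfl⟩ := (hmem x).mp hx
    obtain ⟨w, hw, rfl⟩ := (hmem y).mp hy
    exact key v w (Con_trans (Con_symm hv) hw) hv
  · rw [Set.ncard_eq_toFinset_card _ hfin]
    apply Finset.card_le_mul_card_image
    intro z _
    rw [← card_bx (cc b z) b]
    apply Finset.card_le_card
    intro x hx
    rw [mem_iff]
    exact (Finset.mem_filter.mp hx).2.symm
  · intro v hv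
    exact ⟨cell b v, (hmem _).mpr ⟨v, hv, rfl⟩, (mem_iff b v _).mpr rfl⟩

end Pool.Agent.FKP
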