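import Pool.Agent.FKP.Basic
import Pool.Agent.FKP.Lem

/-!
# Project FKP, target ANI

The number of connected sets of `k` points which contain a given point.
-/

set_option autoImplicit false

namespace Pool.Agent.FKP

open Pool.Agent.FKT

namespace ANI_

variable {A : Type} [DecidableEq A]

/-- The vertex sets of the walks of length `m` which start at `v`. -/
def Wk (N : A → Finset A) : ℕ → A → Finset (Finset A)
  | 0, v => {{v}}
  | m + 1, v => (N v).biUnion fun u => (Wk N m u).image fun T => insert v T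

lemma mem_self (N : A → Finset A) (m : ℕ) (v : A) (T : Finset A) (hT : T ∈ Wk N m v) : v ∈ T := by
  cases m with
  | zero =>
    simp only [Wk, Finset.mem_singleton] at hT
    rw [hT]
    exact Finset.mem_singleton_self v
  | succ m =>
    simp only [Wk, Finset.mem_biUnion, Finset.mem_image] at hT
    obtain ⟨u, -, T', -, rfl⟩ := hT
    exact Finset.mem_insert_self v T'

lemma step (N : A → Finset A) (m : ℕ) (v u : A) (T : Finset A) (hu : u ∈ N v)
    (hT : T ∈ Wk N m u) : insert v T ∈ Wk N (m + 1) v := by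
  simp only [Wk, Finset.mem_biUnion, Finset.mem_image]
  exact ⟨u, hu, T, hT, rfl⟩

lemma card_le (N : A → Finset A) (Δ : ℕ) (h : ∀ x, (N x).card ≤ Δ) (m : ℕ) (v : A) :
    (Wk N m v).card ≤ Δ ^ m := by
  induction m generalizing v with
  | zero => simp [Wk]
  | succ m ih =>
    calc (Wk N (m + 1) v).card ≤ ∑ u ∈ N v, ((Wk N m u).image fun T => insert v T).card :=
          Finset.card_biUnion_le
      _ ≤ ∑ _u ∈ N v, Δ ^ m := Finset.sum_le_sum fun u _ => Finset.card_image_le.trans (ih u)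
      _ = (N v).card * Δ ^ m := by rw [Finset.sum_const, smul_eq_mul]
      _ ≤ Δ * Δ ^ m := Nat.mul_le_mul_right _ (h v)
      _ = Δ ^ (m + 1) := by ring

/-- A detour at the first vertex. -/
lemma detour0 (N : A → Finset A) (hs : ∀ x y, y ∈ N x → x ∈ N y) (m : ℕ) (v y : A)
    (T : Finset A) (hT : T ∈ Wk N m v) (hy : y ∈ N v) : insert y T ∈ Wk N (m + 2) v := by
  have h1 : insert y T ∈ Wk N (m + 1) y := step N m y v T (hs v y hy) hT
  have h2 : insert v (insert y T) ∈ Wk N (m + 2) v := step N (m + 1) v y _ hy h1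
  have h3 : insert v (insert y T) = insert y T :=
    Finset.insert_eq_of_mem (Finset.mem_insert_of_mem (mem_self N m v T hT))
  rwa [h3] at h2

/-- A detour. -/
lemma detour (N : A → Finset A) (hs : ∀ x y, y ∈ N x → x ∈ N y) (m : ℕ) (v x y : A)
    (T : Finset A) (hT : T ∈ Wk N m v) (hx : x ∈ T) (hy : y ∈ N x) :
    insert y T ∈ Wk N (m + 2) v := by
  induction m generalizing v T with
  | zero =>
    have h0 := hT
    simp only [Wk, Finset.mem_singleton] at h0
    rw [h0, Finset.mem_singleton] at hx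
    rw [hx] at hy
    exact detour0 N hs 0 v y T hT hy
  | succ m ih =>
    by_cases hxv : x = v
    · rw [hxv] at hy
      exact detour0 N hs (m + 1) v y T hT hy
    · simp only [Wk, Finset.mem_biUnion, Finset.mem_image] at hT
      obtain ⟨u, hu, T', hT', rfl⟩ := hT
      rcases Finset.mem_insert.1 hx with h1 | h1
      · exact absurd h1 hxv
      · have h2 := step N (m + 2) v u _ hu (ih u T' hT' h1)
        rw [Finset.insert_comm] at h2
        exact h2

/-- The exit edge. -/
lemma exit_edge (N : A → Finset A) (S T : Finset A) (v w : A) (hv : v ∈ T) (hw : w ∉ T)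
    (h : Relation.ReflTransGen (fun x y => x ∈ S ∧ y ∈ S ∧ y ∈ N x) v w) :
    ∃ x ∈ T, ∃ y ∈ S, y ∉ T ∧ y ∈ N x := by
  induction h with
  | refl => exact absurd hv hw
  | tail h1 h2 ih =>
    rename_i b c
    by_cases hb : b ∈ T
    · exact ⟨b, hb, c, h2.2.1, hw, h2.2.2⟩
    · exact ih hb

lemma grow (N : A → Finset A) (hs : ∀ x y, y ∈ N x → x ∈ N y) (S : Finset A) (v : A)
    (hv : v ∈ S) (h : ∀ w ∈ S, Relation.ReflTransGen (fun x y => x ∈ S ∧ y ∈ S ∧ y ∈ N x) v w)
    (j : ℕ) (hj : j + 1 ≤ S.card) :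
    ∃ T : Finset A, T ⊆ S ∧ T.card = j + 1 ∧ T ∈ Wk N (2 * j) v := by
  induction j with
  | zero =>
    refine ⟨{v}, Finset.singleton_subset_iff.2 hv, Finset.card_singleton v, ?_⟩
    simp [Wk]
  | succ j ih =>
    obtain ⟨T, hTS, hTc, hTW⟩ := ih (by omega)
    have hne : ∃ w ∈ S, w ∉ T := by
      by_contra hcon
      push Not at hcon
      have := Finset.card_le_card (show S ⊆ T from hcon)
      omega
    obtain ⟨w, hwS, hwT⟩ := hne
    obtain ⟨x, hx, y, hyS, hyT, hy⟩ :=
      exit_edge N S T v w (mem_self N _ v T hTW) hwT (h w hwS)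
    refine ⟨insert y T, Finset.insert_subset hyS hTS, ?_, ?_⟩
    · rw [Finset.card_insert_of_notMem hyT, hTc]
    · exact detour N hs (2 * j) v x y T hTW hx hy

end ANI_

/-- The target ANI. -/
theorem p_ANI : T_ANI := by
  intro A _ N Δ hΔ hc hs v k
  have hsub : {S : Finset A | v ∈ S ∧ S.card = k ∧
      ∀ w ∈ S, Relation.ReflTransGen (fun x y => x ∈ S ∧ y ∈ S ∧ y ∈ N x) v w} ⊆
      (ANI_.Wk N (2 * (k - 1)) v : Set (Finset A)) := by
    rintro S ⟨hv, hk, h⟩
    have hpos : 0 < S.card := Finset.card_pos.2 ⟨v, hv⟩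
    obtain ⟨T, hTS, hTc, hTW⟩ := ANI_.grow N hs S v hv h (k - 1) (by omega)
    have : T = S := Finset.eq_of_subset_of_card_le hTS (by omega)
    rw [← this]
    exact hTW
  refine ⟨Set.Finite.subset (Finset.finite_toSet _) hsub, ?_⟩
  calc _ ≤ (ANI_.Wk N (2 * (k - 1)) v : Set (Finset A)).ncard :=
        Set.ncard_le_ncard hsub (Finset.finite_toSet _)
    _ = (ANI_.Wk N (2 * (k - 1)) v).card := Set.ncard_coe_finset _
    _ ≤ Δ ^ (2 * (k - 1)) := ANI_.card_le N Δ hc _ v
    _ ≤ Δ ^ (2 * k) := Nat.pow_le_pow_right hΔ (by omega)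

end Pool.Agent.FKP
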