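import Pool.Agent.FKP.PartC
import Pool.Agent.FKP.Lem

/-!
# Project FKP: target ARC (one arm)
-/

set_option autoImplicit false

namespace Pool.Agent.FKP

open Pool.Agent.FKT

theorem ARC_mem_bx {d : ℕ} (x v : Vx d) (b : ℕ) :
    v ∈ bx x b ↔ ∀ i, x i - b ≤ v i ∧ v i ≤ x i + b := by
  unfold bx
  rw [Finset.mem_Icc, Pi.le_def, Pi.le_def]
  exact ⟨fun h i => ⟨h.1 i, h.2 i⟩, fun h => ⟨fun i => (h i).1, fun i => (h i).2⟩⟩

/-- A point of the box which is not on the boundary. -/
theorem ARC_int {d : ℕ} (x v : Vx d) (b : ℕ) (h : v ∈ bx x b) (h' : v ∉ bd x b) :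
    ∀ i, x i - b < v i ∧ v i < x i + b := by
  intro i
  have h1 := (ARC_mem_bx x v b).mp h i
  have h2 : ¬ ∃ i, v i = x i - b ∨ v i = x i + b := fun hc =>
    h' (by unfold bd; exact Finset.mem_filter.mpr ⟨h, hc⟩)
  have h3 : v i ≠ x i - b := fun hc => h2 ⟨i, Or.inl hc⟩
  have h4 : v i ≠ x i + b := fun hc => h2 ⟨i, Or.inr hc⟩
  omega

theorem ARC_tgt {d : ℕ} (e : Ed d) (i : Fin d) :
    tgt e i = e.1 i ∨ tgt e i = e.1 i + 1 := by
  unfold tgt
  by_cases h : i = e.2
  · right
    subst h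
    simp
  · left
    simp [h]

theorem p_ARC : T_ARC := by
  intro d O x z b hz hi
  by_contra hA
  unfold Arm at hA
  have hno : ∀ w, Cn (O ∩ (eb x b : Set (Ed d))) x w → w ∉ bd x b := fun w hw hb =>
    hA ⟨w, hb, hw⟩
  let P : Vx d → Prop := fun v => Cn (O ∩ (eb x b : Set (Ed d))) x v ∧ v ∈ bx x b
  have hstep : ∀ a c : Vx d, Step Prod.fst tgt (no (Vx d)) O a c → (P a ↔ P c) := by
    intro a c h
    rcases h with h | ⟨e, he, rfl, rfl⟩
    · exact absurd h (by simp [no])
    · constructor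
      · rintro ⟨h1, h2⟩
        have h3 := ARC_int x e.1 b h2 (hno _ h1)
        have h4 : tgt e ∈ bx x b := by
          rw [ARC_mem_bx]
          intro i
          have := h3 i
          rcases ARC_tgt e i with h5 | h5 <;> rw [h5] <;> omega
        have h6 : e ∈ eb x b := by
          rw [← es_bx, mem_es]
          exact ⟨h2, h4⟩
        exact ⟨Con_trans h1 (Con_edge ⟨he, h6⟩), h4⟩
      · rintro ⟨h1, h2⟩
        have h3 := ARC_int x (tgt e) b h2 (hno _ h1)
        have h4 : e.1 ∈ bx x b := by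
          rw [ARC_mem_bx]
          intro i
          have := h3 i
          rcases ARC_tgt e i with h5 | h5 <;> rw [h5] at this <;> omega
        have h6 : e ∈ eb x b := by
          rw [← es_bx, mem_es]
          exact ⟨h4, h2⟩
        exact ⟨Con_trans h1 (Con_symm (Con_edge (s := Prod.fst) (t := tgt)
          (R := no (Vx d)) ⟨he, h6⟩)), h4⟩
  have hall : ∀ a c : Vx d, Cn O a c → (P a ↔ P c) := by
    intro a c h
    unfold Cn FKT.Con at h
    induction h with
    | rel x y hxy => exact hstep x y hxy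
    | refl x => exact Iff.rfl
    | symm x y _ ih => exact ih.symm
    | trans x y z _ _ ih1 ih2 => exact ih1.trans ih2
  have hx : P x := by
    refine ⟨Con_refl _ _, ?_⟩
    rw [ARC_mem_bx]
    intro i
    omega
  obtain ⟨h1, h2⟩ := (hall x z hz).mp hx
  have h3 := ARC_int x z b h2 (hno _ h1)
  obtain ⟨i, h4⟩ := hi
  have h5 := h3 i
  rcases abs_cases (z i - x i) with h6 | h6 <;> omega

end Pool.Agent.FKP
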