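import Pool.Agent.FKP.Basic
import Pool.Agent.FKP.Lem
import Pool.Agent.FKT.P_NCM

/-!
# Project FKP, AUT: invariance under automorphisms of the lattice
-/

set_option autoImplicit false

namespace Pool.Agent.FKP

open Filter MeasureTheory Pool.Agent.FKT

namespace AUT_

variable {d : ℕ}

/-- The compatibility of `c` and `σ`. -/
def Cmp (c : Vx d ≃ Vx d) (σ : Equiv.Perm (Fin d)) : Prop :=
  ∀ (x : Vx d) (i : Fin d), c (x + Pi.single i 1) = c x + Pi.single (σ i) 1

theorem Cmp.symm {c : Vx d ≃ Vx d} {σ : Equiv.Perm (Fin d)} (h : Cmp c σ) :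
    Cmp c.symm σ.symm := by
  intro x i
  apply c.injective
  rw [Equiv.apply_symm_apply, h, Equiv.apply_symm_apply, Equiv.apply_symm_apply]

theorem tgt_map {c : Vx d ≃ Vx d} {σ : Equiv.Perm (Fin d)} (h : Cmp c σ) (e : Ed d) :
    tgt (c.prodCongr σ e) = c (tgt e) := (h e.1 e.2).symm

theorem tgt_symm {c : Vx d ≃ Vx d} {σ : Equiv.Perm (Fin d)} (h : Cmp c σ) (e : Ed d) :
    tgt ((c.prodCongr σ).symm e) = c.symm (tgt e) := by
  rw [Equiv.prodCongr_symm]
  exact tgt_map h.symm e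

theorem es_map {c : Vx d ≃ Vx d} {σ : Equiv.Perm (Fin d)} (h : Cmp c σ)
    (S : Finset (Vx d)) :
    es (S.map c.toEmbedding) = (es S).map (c.prodCongr σ).toEmbedding := by
  ext e
  rw [Finset.mem_map_equiv, mem_es, mem_es, Finset.mem_map_equiv, Finset.mem_map_equiv,
    tgt_symm h]
  rfl

theorem con_map {c : Vx d ≃ Vx d} {σ : Equiv.Perm (Fin d)} (h : Cmp c σ)
    {O : Set (Ed d)} {a b : Vx d} (hab : FKT.Con Prod.fst tgt (no (Vx d)) O a b) :
    FKT.Con Prod.fst tgt (no (Vx d)) (c.prodCongr σ '' O) (c a) (c b) := by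
  unfold FKT.Con at hab
  induction hab with
  | rel a b h1 =>
    refine Relation.EqvGen.rel _ _ ?_
    rcases h1 with h1 | ⟨e, he, h1, h2⟩
    · exact absurd h1 (fun h => h)
    · right
      refine ⟨c.prodCongr σ e, ⟨e, he, rfl⟩, ?_, ?_⟩
      · rw [← h1]
        rfl
      · rw [tgt_map h, h2]
  | refl a => exact Relation.EqvGen.refl _
  | symm a b _ ih => exact Relation.EqvGen.symm _ _ ih
  | trans a b c _ _ ih1 ih2 => exact Relation.EqvGen.trans _ _ _ ih1 ih2

theorem con_iff {c : Vx d ≃ Vx d} {σ : Equiv.Perm (Fin d)} (h : Cmp c σ)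
    (O : Set (Ed d)) (a b : Vx d) :
    FKT.Con Prod.fst tgt (no (Vx d)) O a b ↔
      FKT.Con Prod.fst tgt (no (Vx d)) (c.prodCongr σ '' O) (c a) (c b) := by
  refine ⟨con_map h, fun h1 => ?_⟩
  have h2 := con_map h.symm h1
  rw [← Equiv.prodCongr_symm, Equiv.symm_image_image, Equiv.symm_apply_apply,
    Equiv.symm_apply_apply] at h2
  exact h2

theorem coe_map (c : Vx d ≃ Vx d) (σ : Equiv.Perm (Fin d)) (ω : Finset (Ed d)) :
    ((ω.map (c.prodCongr σ).toEmbedding : Finset (Ed d)) : Set (Ed d)) =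
      c.prodCongr σ '' (ω : Set (Ed d)) := by
  rw [Finset.coe_map]
  rfl

theorem ncl_map {c : Vx d ≃ Vx d} {σ : Equiv.Perm (Fin d)} (h : Cmp c σ)
    (S : Finset (Vx d)) (ω : Finset (Ed d)) :
    ncl Prod.fst tgt (no (Vx d)) (S.map c.toEmbedding)
      ((ω.map (c.prodCongr σ).toEmbedding : Finset (Ed d)) : Set (Ed d)) =
      ncl Prod.fst tgt (no (Vx d)) S (ω : Set (Ed d)) := by
  rw [coe_map]
  refine (FKT.p_NCM (Vx d) (Vx d) (Ed d) (Ed d) Prod.fst tgt Prod.fst tgt (no (Vx d)) (no (Vx d))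
    S (S.map c.toEmbedding) _ _ c ?_ ?_ ?_).symm
  · intro v hv
    exact Finset.mem_map_of_mem _ hv
  · intro v' hv'
    obtain ⟨v, hv, rfl⟩ := Finset.mem_map.1 hv'
    exact ⟨v, hv, Relation.EqvGen.refl _⟩
  · intro u _ v _
    exact con_iff h _ u v

theorem sum_map {E : Type} (G : Finset E) (g : E ≃ E) (F : Finset E → ℝ) :
    ∑ ω ∈ (G.map g.toEmbedding).powerset, F ω = ∑ ω ∈ G.powerset, F (ω.map g.toEmbedding) := by
  symm
  refine Finset.sum_bij (fun ω _ => ω.map g.toEmbedding) ?_ ?_ ?_ ?_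
  · intro ω hω
    rw [Finset.mem_powerset] at hω ⊢
    exact Finset.map_subset_map.mpr hω
  · intro ω _ ω' _ h
    exact Finset.map_injective _ h
  · intro ω' hω'
    rw [Finset.mem_powerset] at hω'
    refine ⟨ω'.map g.symm.toEmbedding, ?_, ?_⟩
    · rw [Finset.mem_powerset]
      intro e he
      rw [Finset.mem_map_equiv, Equiv.symm_symm] at he
      have h1 := hω' he
      rw [Finset.mem_map_equiv, Equiv.symm_apply_apply] at h1
      exact h1
    · ext e
      rw [Finset.mem_map_equiv, Finset.mem_map_equiv, Equiv.symm_symm, Equiv.apply_symm_apply]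
  · intro ω _
    rfl

theorem fr_map {c : Vx d ≃ Vx d} {σ : Equiv.Perm (Fin d)} (h : Cmp c σ)
    (S : Finset (Vx d)) (p q : ℝ) (f : Finset (Ed d) → ℝ) :
    fr (S.map c.toEmbedding) p q f =
      fr S p q fun ω => f (ω.map (c.prodCongr σ).toEmbedding) := by
  have hw : ∀ ω : Finset (Ed d),
      wt Prod.fst tgt (no (Vx d)) (S.map c.toEmbedding)
        ((es S).map (c.prodCongr σ).toEmbedding) p q (ω.map (c.prodCongr σ).toEmbedding) =
        wt Prod.fst tgt (no (Vx d)) S (es S) p q ω := by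
    intro ω
    unfold wt bw
    rw [ncl_map h, Finset.card_map, Finset.card_map]
  unfold fr fw Ex
  rw [es_map h, sum_map, sum_map]
  simp only [hw]

end AUT_

theorem p_AUT : T_AUT := by
  intro d c σ h S p q
  refine ⟨AUT_.fr_map h S p q, fun x y => ?_⟩
  unfold tp
  rw [AUT_.fr_map h]
  congr 1
  funext ω
  refine ind_congr ?_
  unfold Cf Cn
  rw [AUT_.coe_map]
  exact (AUT_.con_iff h _ x y).symm

end Pool.Agent.FKP
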