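import Pool.Agent.FKP.PartA
import Pool.Agent.FKP.Lem

/-!
# Project FKP, AVY: a good translate
-/

set_option autoImplicit false

namespace Pool.Agent.FKP

open Pool.Agent.FKT

namespace AVY_

variable {d : ℕ}

theorem mem_bx {x y : Vx d} {n : ℕ} : y ∈ bx x n ↔ ∀ i, x i - n ≤ y i ∧ y i ≤ x i + n := by
  unfold bx
  rw [Finset.mem_Icc, Pi.le_def, Pi.le_def]
  exact ⟨fun h i => ⟨h.1 i, h.2 i⟩, fun h => ⟨fun i => (h i).1, fun i => (h i).2⟩⟩

theorem card_bx (x : Vx d) (n : ℕ) : ((bx x n).card : ℝ) = (2 * (n : ℝ) + 1) ^ d := by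
  unfold bx
  rw [Pi.card_Icc]
  have h1 : ∀ i : Fin d, (Finset.Icc (x i - (n : ℤ)) (x i + n)).card = 2 * n + 1 := by
    intro i
    rw [Int.card_Icc]
    omega
  have h2 : ∏ i : Fin d, (Finset.Icc (x i - (n : ℤ)) (x i + n)).card = (2 * n + 1) ^ d := by
    rw [Finset.prod_congr rfl fun i _ => h1 i]
    simp
  rw [h2]
  push_cast
  rfl

theorem bx_sub {y : Vx d} {m n : ℕ} (hmn : m ≤ n) (hy : y ∈ bx (0 : Vx d) (n - m)) :
    bx y m ⊆ bx (0 : Vx d) n := by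
  intro x hx
  rw [mem_bx] at *
  intro i
  have h1 := hx i
  have h2 := hy i
  rw [Nat.cast_sub hmn] at h2
  simp only [Pi.zero_apply] at *
  omega

theorem mem_eb {x : Vx d} {n : ℕ} {e : Ed d} : e ∈ eb x n ↔ e.1 ∈ bx x n ∧ tgt e ∈ bx x n := by
  unfold eb
  simp

theorem mem_swap {x y : Vx d} {m : ℕ} (h : x ∈ bx y m) : y ∈ bx x m := by
  rw [mem_bx] at *
  intro i
  have h1 := h i
  omega

end AVY_

open Classical AVY_ in
/-- AVY. A good translate. -/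
theorem p_AVY : T_AVY := by
  intro d m n g T hmn hg hT
  by_contra hcon
  push Not at hcon
  have hpos : (0 : ℝ) < (2 * ((n - m : ℕ) : ℝ) + 1) ^ d := by positivity
  have hne : (bx (0 : Vx d) (n - m)).Nonempty := by
    refine ⟨0, mem_bx.mpr fun i => ?_⟩
    simp
  have h1 : ∑ _y ∈ bx (0 : Vx d) (n - m),
      (2 * m + 1 : ℝ) ^ d * T / (2 * ((n - m : ℕ) : ℝ) + 1) ^ d <
      ∑ y ∈ bx (0 : Vx d) (n - m), ∑ e ∈ eb y m, g e :=
    Finset.sum_lt_sum_of_nonempty hne hcon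
  rw [Finset.sum_const, nsmul_eq_mul, card_bx, mul_div_cancel₀ _ hpos.ne'] at h1
  have h2 : ∀ y ∈ bx (0 : Vx d) (n - m), ∑ e ∈ eb y m, g e ≤
      ∑ e ∈ eb (0 : Vx d) n, if e.1 ∈ bx y m then g e else 0 := by
    intro y hy
    rw [← Finset.sum_filter]
    refine Finset.sum_le_sum_of_subset_of_nonneg ?_ fun e _ _ => hg e
    intro e he
    have he1 := mem_eb.mp he
    exact Finset.mem_filter.mpr
      ⟨mem_eb.mpr ⟨bx_sub hmn hy he1.1, bx_sub hmn hy he1.2⟩, he1.1⟩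
  have h3 : ∑ y ∈ bx (0 : Vx d) (n - m), ∑ e ∈ eb y m, g e ≤
      ∑ e ∈ eb (0 : Vx d) n, (2 * m + 1 : ℝ) ^ d * g e := by
    refine (Finset.sum_le_sum h2).trans ?_
    rw [Finset.sum_comm]
    refine Finset.sum_le_sum fun e _ => ?_
    rw [← Finset.sum_filter, Finset.sum_const, nsmul_eq_mul]
    refine mul_le_mul_of_nonneg_right ?_ (hg e)
    have h4 : (bx (0 : Vx d) (n - m)).filter (fun y => e.1 ∈ bx y m) ⊆ bx e.1 m := by
      intro y hy
      exact mem_swap (Finset.mem_filter.mp hy).2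
    have h5 : (((bx (0 : Vx d) (n - m)).filter (fun y => e.1 ∈ bx y m)).card : ℝ) ≤
        ((bx e.1 m).card : ℝ) := by
      exact_mod_cast Finset.card_le_card h4
    rw [card_bx] at h5
    exact h5
  rw [← Finset.mul_sum] at h3
  have h6 : (2 * m + 1 : ℝ) ^ d * ∑ e ∈ eb (0 : Vx d) n, g e ≤ (2 * m + 1 : ℝ) ^ d * T :=
    mul_le_mul_of_nonneg_left hT (by positivity)
  linarith

end Pool.Agent.FKP
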