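import Pool.Agent.FKP.PartB
import Pool.Agent.FKP.Lem

/-!
# Project FKP: target BAD
-/

set_option autoImplicit false

namespace Pool.Agent.FKP

open Filter MeasureTheory Pool.Agent.FKT

namespace BAD_

theorem enum {α : Type} [Inhabited α] (C : Finset α) : ∃ φ : ℕ → α,
    (∀ j < C.card, φ j ∈ C) ∧ (∀ i < C.card, ∀ j < C.card, φ i = φ j → i = j) ∧
    ∀ c ∈ C, ∃ j < C.card, φ j = c := by
  classical
  let e := C.equivFin
  refine ⟨fun j => if h : j < C.card then (e.symm ⟨j, h⟩ : α) else default, ?_, ?_, ?_⟩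
  · intro j hj
    simp only [hj, dif_pos]
    exact (e.symm ⟨j, hj⟩).2
  · intro i hi j hj h
    simp only [hi, hj, dif_pos] at h
    have := e.symm.injective (Subtype.ext h)
    exact congrArg Fin.val this
  · intro c hc
    refine ⟨(e ⟨c, hc⟩).val, (e ⟨c, hc⟩).2, ?_⟩
    simp

theorem prod_ind {ι : Type} (A : Finset ι) (P : ι → Prop) :
    ∏ j ∈ A, ind (P j) = ind (∀ j ∈ A, P j) := by
  classical
  induction A using Finset.induction_on with
  | empty =>
    rw [Finset.prod_empty, ind_true]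
    intro j hj
    simp at hj
  | insert a A ha ih =>
    rw [Finset.prod_insert ha, ih, ← ind_and]
    apply ind_congr
    simp

theorem pos0 (k : ℕ) (x y : ℤ) : pos k x y 0 = x := by simp [pos]

theorem pos1 (k : ℕ) (x y : ℤ) : pos k x y 1 = y := by simp [pos]

theorem mem_bx {d : ℕ} {x y : Vx d} {n : ℕ} :
    y ∈ bx x n ↔ ∀ i, x i - n ≤ y i ∧ y i ≤ x i + n := by
  unfold bx
  rw [Finset.mem_Icc, Pi.le_def, Pi.le_def]
  exact forall_and.symm

theorem cu_sub {k s r : ℕ} (h : s ≤ r) (w : Vx (k + 3)) : cu s w ⊆ bx w r := by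
  intro y hy
  unfold cu at hy
  rw [Finset.mem_Icc, Pi.le_def, Pi.le_def] at hy
  rw [mem_bx]
  intro i
  have h1 := hy.1 i
  have h2 := hy.2 i
  have h3 : (s : ℤ) ≤ r := by exact_mod_cast h
  have h4 : (0 : ℤ) ≤ s := by positivity
  split_ifs at h2
  · constructor <;> linarith
  · constructor <;> linarith

theorem mul_sep {ρ r : ℕ} (hρ : ρ = 2 * r + 1) {x y : ℤ} (h : x ≠ y) :
    2 * (r : ℤ) + 1 ≤ |(ρ : ℤ) * x - ρ * y| := by
  have h1 : (1 : ℤ) ≤ |x - y| := Int.one_le_abs (sub_ne_zero.2 h)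
  have h2 : (ρ : ℤ) = 2 * r + 1 := by rw [hρ]; push_cast; ring
  rw [← mul_sub, abs_mul, abs_of_nonneg (by positivity), h2]
  have h3 : (0 : ℤ) ≤ 2 * r + 1 := by positivity
  nlinarith

theorem bx_disj {k r ρ : ℕ} (hρ : ρ = 2 * r + 1) {c c' : ℤ × ℤ} (h : c ≠ c') :
    Disjoint (bx (pos k (ρ * c.1) (ρ * c.2)) r) (bx (pos k (ρ * c'.1) (ρ * c'.2)) r) := by
  rw [Finset.disjoint_left]
  intro y hy hy'
  rw [mem_bx] at hy hy'
  by_cases h1 : c.1 = c'.1
  · have h2 : c.2 ≠ c'.2 := fun h2 => h (Prod.ext h1 h2)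
    have a1 := hy 1
    have a2 := hy' 1
    rw [pos1] at a1 a2
    have := mul_sep hρ h2
    rcases le_abs.1 this with h3 | h3 <;> linarith [a1.1, a1.2, a2.1, a2.2]
  · have a1 := hy 0
    have a2 := hy' 0
    rw [pos0] at a1 a2
    have := mul_sep hρ h1
    rcases le_abs.1 this with h3 | h3 <;> linarith [a1.1, a1.2, a2.1, a2.2]

theorem es_disj {d : ℕ} {S S' : Finset (Vx d)} (h : Disjoint S S') :
    Disjoint (es S) (es S') := by
  rw [Finset.disjoint_left] at h ⊢
  intro e he he'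
  exact h (mem_es.1 he).1 (mem_es.1 he').1

theorem es_map {d : ℕ} (w : Vx d) (S : Finset (Vx d)) :
    es (S.map (Equiv.addRight w).toEmbedding) =
      (es S).map ((Equiv.addRight w).prodCongr (Equiv.refl (Fin d))).toEmbedding := by
  ext e
  rw [mem_es, Finset.mem_map_equiv, Finset.mem_map_equiv, Finset.mem_map_equiv, mem_es]
  have h1 : (((Equiv.addRight w).prodCongr (Equiv.refl (Fin d))).symm e).1 =
      (Equiv.addRight w).symm e.1 := rfl
  have h2 : tgt (((Equiv.addRight w).prodCongr (Equiv.refl (Fin d))).symm e) =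
      (Equiv.addRight w).symm (tgt e) := by
    unfold tgt
    simp
    abel
  rw [h1, h2]

theorem bx_map {d : ℕ} (w : Vx d) (r : ℕ) :
    (bx (0 : Vx d) r).map (Equiv.addRight w).toEmbedding = bx w r := by
  ext y
  rw [Finset.mem_map_equiv, mem_bx, mem_bx]
  apply forall_congr'
  intro i
  have : (Equiv.addRight w).symm y i = y i - w i := by
    simp [sub_eq_add_neg]
  rw [this]
  simp only [Pi.zero_apply]
  constructor <;> rintro ⟨h1, h2⟩ <;> constructor <;> linarith

theorem cu_map {k : ℕ} (s : ℕ) (w : Vx (k + 3)) :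
    (cu s (0 : Vx (k + 3))).map (Equiv.addRight w).toEmbedding = cu s w := by
  ext y
  rw [Finset.mem_map_equiv]
  unfold cu
  rw [Finset.mem_Icc, Finset.mem_Icc, Pi.le_def, Pi.le_def, Pi.le_def, Pi.le_def, ← forall_and,
    ← forall_and]
  apply forall_congr'
  intro i
  have : (Equiv.addRight w).symm y i = y i - w i := by
    simp [sub_eq_add_neg]
  rw [this]
  simp only [Pi.zero_apply]
  split_ifs
  · constructor <;> rintro ⟨h1, h2⟩ <;> constructor <;> linarith
  · constructor <;> rintro ⟨h1, h2⟩ <;> constructor <;> linarith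

/-- the positions -/
noncomputable def C (a : ℕ) (Z : Finset (Vx 2)) : Finset (ℤ × ℤ) :=
  (Z ×ˢ (Finset.range a ×ˢ Finset.range a)).image fun t =>
    ((a : ℤ) * t.1 0 + (t.2.1 : ℤ), (a : ℤ) * t.1 1 + (t.2.2 : ℤ))

theorem div_inj {a i i' : ℕ} {x x' : ℤ} (hi : i < a) (hi' : i' < a)
    (h : (a : ℤ) * x + i = a * x' + i') : x = x' ∧ i = i' := by
  have ha : (0 : ℤ) < a := by exact_mod_cast lt_of_le_of_lt (Nat.zero_le _) hi
  have h1 : ((a : ℤ) * x + i) / a = x := by
    rw [add_comm, Int.add_mul_ediv_left _ _ ha.ne',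
      Int.ediv_eq_zero_of_lt (by positivity) (by exact_mod_cast hi), zero_add]
  have h2 : ((a : ℤ) * x' + i') / a = x' := by
    rw [add_comm, Int.add_mul_ediv_left _ _ ha.ne',
      Int.ediv_eq_zero_of_lt (by positivity) (by exact_mod_cast hi'), zero_add]
  have h3 : x = x' := by rw [← h1, h, h2]
  refine ⟨h3, ?_⟩
  rw [h3] at h
  exact_mod_cast add_left_cancel h

theorem card_C (a : ℕ) (Z : Finset (Vx 2)) : (C a Z).card = a ^ 2 * Z.card := by
  unfold C
  rw [Finset.card_image_of_injOn, Finset.card_product, Finset.card_product, Finset.card_range]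
  · ring
  · intro t ht t' ht' h
    rw [Finset.mem_coe, Finset.mem_product, Finset.mem_product, Finset.mem_range,
      Finset.mem_range] at ht ht'
    have h1 := div_inj ht.2.1 ht'.2.1 (congrArg Prod.fst h)
    have h2 := div_inj ht.2.2 ht'.2.2 (congrArg Prod.snd h)
    refine Prod.ext ?_ (Prod.ext h1.2 h2.2)
    funext i
    fin_cases i
    · exact h1.1
    · exact h2.1

/-- the seed position -/
def W (k ρ : ℕ) (c : ℤ × ℤ) : Vx (k + 3) := pos k (ρ * c.1) (ρ * c.2)

theorem cand_iff {k ρ a : ℕ} {Z : Finset (Vx 2)} {Q : Vx (k + 3) → Prop} :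
    (∀ z ∈ Z, ∀ v ∈ cand k ρ a z, Q v) ↔ ∀ c ∈ C a Z, Q (W k ρ c) := by
  constructor
  · intro h c hc
    unfold C at hc
    rw [Finset.mem_image] at hc
    obtain ⟨t, ht, rfl⟩ := hc
    rw [Finset.mem_product] at ht
    apply h t.1 ht.1
    unfold cand
    exact Finset.mem_image.2 ⟨t.2, ht.2, rfl⟩
  · intro h z hz v hv
    unfold cand at hv
    rw [Finset.mem_image] at hv
    obtain ⟨ij, hij, rfl⟩ := hv
    apply h ((a : ℤ) * z 0 + (ij.1 : ℤ), (a : ℤ) * z 1 + (ij.2 : ℤ))
    unfold C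
    exact Finset.mem_image.2 ⟨(z, ij), Finset.mem_product.2 ⟨hz, hij⟩, rfl⟩

end BAD_

open BAD_ in
theorem p_BAD (h_SEQ : T_SEQ) (h_AUT : T_AUT) : T_BAD := by
  intro k q p hq hp hp1 s r ρ a hs hρ S Z x0 hS hx0
  have hq0 : 0 < q := lt_of_lt_of_le one_pos hq
  have hx1 : x0 ≤ 1 := by
    refine hx0.trans ?_
    unfold fr fw
    exact Ex_le_one hp hp1 hq0 fun ω _ => ind_le_one _
  obtain ⟨φ, hφ1, hφ2, hφ3⟩ := enum (C a Z)
  have hM := card_C a Z
  rw [hM] at hφ1 hφ2 hφ3
  set M := a ^ 2 * Z.card with hMd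
  have hS' := cand_iff.1 hS
  -- free probability of a seed
  have hfr : ∀ w : Vx (k + 3), x0 ≤ Ex Prod.fst tgt (no (Vx (k + 3))) (bx w r) (es (bx w r)) p q
      fun β => ind (es (cu s w) ⊆ β) := by
    intro w
    have h1 := (h_AUT (k + 3) (Equiv.addRight w) (Equiv.refl _) (by
      intro x i
      simp
      abel) (bx 0 r) p q).1 (fun β => ind (es (cu s w) ⊆ β))
    rw [bx_map] at h1
    have h2 : ∀ ω : Finset (Ed (k + 3)),
        (es (cu s w) ⊆ ω.map ((Equiv.addRight w).prodCongr (Equiv.refl _)).toEmbedding ↔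
          es (cu s 0) ⊆ ω) := by
      intro ω
      rw [← cu_map, es_map, Finset.map_subset_map]
    have h3 : (fun ω : Finset (Ed (k + 3)) => ind (es (cu s w) ⊆
        ω.map ((Equiv.addRight w).prodCongr (Equiv.refl _)).toEmbedding)) =
        fun ω => ind (es (cu s (0 : Vx (k + 3))) ⊆ ω) := by
      funext ω
      exact ind_congr (h2 ω)
    have h4 : fr (bx w r) p q (fun β => ind (es (cu s w) ⊆ β)) =
        fr (bx (0 : Vx (k + 3)) r) p q fun ω => ind (es (cu s (0 : Vx (k + 3))) ⊆ ω) := by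
      rw [h1, h3]
    have h5 : x0 ≤ fr (bx w r) p q (fun β => ind (es (cu s w) ⊆ β)) := by
      rw [h4]
      exact hx0
    exact h5
  let Uj : ℕ → Finset (Vx (k + 3)) := fun j => bx (W k ρ (φ j)) r
  let Sj : ℕ → Finset (Ed (k + 3)) := fun j => es (Uj j)
  let L : ℕ → Finset (Ed (k + 3)) := fun j => (Finset.range j).biUnion Sj
  let F : ℕ → Finset (Ed (k + 3)) → Finset (Ed (k + 3)) → Prop :=
    fun j _ β => es (cu s (W k ρ (φ j))) ⊆ β
  have key := h_SEQ (Vx (k + 3)) (Ed (k + 3)) Prod.fst tgt (no (Vx (k + 3))) S (es S) p q hp hp1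
    hq M Uj Sj L F x0 hx1 (by
      intro j hj
      have hU : Uj j ⊆ S := hS' (φ j) (hφ1 j hj)
      refine ⟨es_mono hU, hU, fun e he => mem_es.1 he, ?_, ?_, ?_⟩
      · rw [Finset.disjoint_biUnion_right]
        intro i hi
        rw [Finset.mem_range] at hi
        apply es_disj
        apply bx_disj hρ
        intro h
        exact absurd (hφ2 j hj i (hi.trans hj) h) (ne_of_gt hi)
      · exact Finset.subset_biUnion_of_mem Sj (Finset.mem_range.2 (Nat.lt_succ_self j))
      · exact Finset.biUnion_subset_biUnion_of_subset_left _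
          (Finset.range_subset_range.2 (Nat.le_succ j))) (by
      intro j _ ξ x y hxy h
      exact h.trans hxy) (by
      intro j _ ξ
      exact hfr _)
  have hcong : fr S p q (fun ω => ind (∀ z ∈ Z, ¬ Gd k ρ a s ω z)) =
      Ex Prod.fst tgt (no (Vx (k + 3))) S (es S) p q (fun ω => ∏ j ∈ Finset.range M,
        ind (¬ F j (ω ∩ L j) (ω ∩ Sj j))) := by
    unfold fr fw
    apply Ex_congr
    intro ω _
    rw [prod_ind]
    apply ind_congr
    have e1 : (∀ z ∈ Z, ¬ Gd k ρ a s ω z) ↔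
        ∀ z ∈ Z, ∀ v ∈ cand k ρ a z, ¬ es (cu s v) ⊆ ω := by
      unfold Gd
      constructor
      · intro h z hz v hv hvo
        exact h z hz ⟨v, hv, hvo⟩
      · rintro h z hz ⟨v, hv, hvo⟩
        exact h z hz v hv hvo
    rw [e1, cand_iff]
    constructor
    · intro h j hj hF
      rw [Finset.mem_range] at hj
      exact h (φ j) (hφ1 j hj) (hF.trans Finset.inter_subset_left)
    · intro h c hc hco
      obtain ⟨j, hj, rfl⟩ := hφ3 c hc
      apply h j (Finset.mem_range.2 hj)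
      exact Finset.subset_inter hco (es_mono (cu_sub hs _))
  rw [hcong]
  exact key

end Pool.Agent.FKP
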