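import Pool.Agent.FKP.PartB
import Pool.Agent.FKP.Lem

/-!
# Project FKP (MP_552f07_pr): target BCN, boxes are connected
-/

set_option autoImplicit false

namespace Pool.Agent.FKP

open Filter MeasureTheory Pool.Agent.FKT

namespace BCN_

/-- A step in the positive direction `i`. -/
theorem step {n : ℕ} {a b x : Vx n} {i : Fin n} (hx : x ∈ Finset.Icc a b)
    (hy : x + Pi.single i 1 ∈ Finset.Icc a b) :
    Cf (es (Finset.Icc a b)) x (x + Pi.single i 1) := by
  have he : ((x, i) : Ed n) ∈ ((es (Finset.Icc a b) : Finset (Ed n)) : Set (Ed n)) := by
    rw [Finset.mem_coe, mem_es]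
    exact ⟨hx, hy⟩
  exact Con_edge (s := Prod.fst) (t := tgt) (R := no (Vx n)) he

/-- The distance. -/
def dist {n : ℕ} (x y : Vx n) : ℕ := ∑ i, (x i - y i).natAbs

theorem dist_lt {n : ℕ} {x y z : Vx n} {i : Fin n} (h : ∀ j, j ≠ i → z j = x j)
    (hi : (z i - y i).natAbs < (x i - y i).natAbs) : dist z y < dist x y := by
  unfold dist
  apply Finset.sum_lt_sum
  · intro j _
    by_cases hj : j = i
    · rw [hj]; exact hi.le
    · rw [h j hj]
  · exact ⟨i, Finset.mem_univ i, hi⟩

theorem main {n : ℕ} (a b : Vx n) (N : ℕ) : ∀ x ∈ Finset.Icc a b, ∀ y ∈ Finset.Icc a b,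
    dist x y ≤ N → Cf (es (Finset.Icc a b)) x y := by
  induction N with
  | zero =>
    intro x hx y hy h
    have hxy : x = y := by
      funext i
      have h1 : (x i - y i).natAbs ≤ dist x y :=
        Finset.single_le_sum (f := fun j => (x j - y j).natAbs) (fun j _ => Nat.zero_le _)
          (Finset.mem_univ i)
      omega
    rw [hxy]
    exact Con_refl _ _
  | succ N ih =>
    intro x hx y hy h
    by_cases hxy : x = y
    · rw [hxy]
      exact Con_refl _ _
    obtain ⟨i, hi⟩ := Function.ne_iff.mp hxy
    have hx' := Finset.mem_Icc.mp hx
    have hy' := Finset.mem_Icc.mp hy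
    rcases lt_or_gt_of_ne hi with hlt | hgt
    · -- step up
      have hz : x + Pi.single i 1 ∈ Finset.Icc a b := by
        rw [Finset.mem_Icc]
        refine ⟨fun j => ?_, fun j => ?_⟩
        · by_cases hj : j = i
          · subst hj
            have h1 : a j ≤ x j := hx'.1 j
            simp only [Pi.add_apply, Pi.single_eq_same]
            omega
          · simpa [Pi.single_eq_of_ne hj] using hx'.1 j
        · by_cases hj : j = i
          · subst hj
            have h1 : y j ≤ b j := hy'.2 j
            simp only [Pi.add_apply, Pi.single_eq_same]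
            omega
          · simpa [Pi.single_eq_of_ne hj] using hx'.2 j
      have hd : dist (x + Pi.single i 1) y < dist x y := by
        apply dist_lt (i := i)
        · intro j hj
          simp [Pi.single_eq_of_ne hj]
        · simp only [Pi.add_apply, Pi.single_eq_same]
          omega
      exact Con_trans (step hx hz) (ih _ hz y hy (by omega))
    · -- step down
      have hzx : (x - Pi.single i 1) + Pi.single i 1 = x := sub_add_cancel _ _
      have hz : x - Pi.single i 1 ∈ Finset.Icc a b := by
        rw [Finset.mem_Icc]
        refine ⟨fun j => ?_, fun j => ?_⟩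
        · by_cases hj : j = i
          · subst hj
            have h1 : a j ≤ y j := hy'.1 j
            simp only [Pi.sub_apply, Pi.single_eq_same]
            omega
          · simpa [Pi.single_eq_of_ne hj] using hx'.1 j
        · by_cases hj : j = i
          · subst hj
            have h1 : x j ≤ b j := hx'.2 j
            simp only [Pi.sub_apply, Pi.single_eq_same]
            omega
          · simpa [Pi.single_eq_of_ne hj] using hx'.2 j
      have hd : dist (x - Pi.single i 1) y < dist x y := by
        apply dist_lt (i := i)
        · intro j hj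
          simp [Pi.single_eq_of_ne hj]
        · simp only [Pi.sub_apply, Pi.single_eq_same]
          omega
      have hst := step (i := i) hz (by rw [hzx]; exact hx)
      rw [hzx] at hst
      exact Con_trans (Con_symm hst) (ih _ hz y hy (by omega))

end BCN_

theorem p_BCN : T_BCN := by
  intro n a b x hx y hy
  exact BCN_.main a b _ x hx y hy le_rfl

end Pool.Agent.FKP

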