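import Pool.Agent.FKP.PartC2
import Pool.Agent.FKP.Lem

/-!
# Project FKP: a touched block with an untouched neighbour is bad (T_BDB)
-/

set_option autoImplicit false

namespace Pool.Agent.FKP

open Filter MeasureTheory Pool.Agent.FKT

namespace BDB_

theorem mem_bx {d : ℕ} (x v : Vx d) (b : ℕ) :
    v ∈ bx x b ↔ ∀ i, x i - b ≤ v i ∧ v i ≤ x i + b := by
  unfold bx
  rw [Finset.mem_Icc, Pi.le_def, Pi.le_def]
  exact ⟨fun h i => ⟨h.1 i, h.2 i⟩, fun h => ⟨fun i => (h i).1, fun i => (h i).2⟩⟩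

theorem cc_add {d : ℕ} (b : ℕ) (z z' : Vx d) : cc b z + cc b (z' - z) = cc b z' := by
  funext i
  simp only [Pi.add_apply, Pi.sub_apply, cc]
  ring

end BDB_

theorem p_BDB (h_ARC : T_ARC) : T_BDB := by
  intro d b ω hlarge z hz z' hz' hzz hGB
  obtain ⟨x, hx, hxb⟩ := hz
  obtain ⟨u, hu, hi⟩ := hlarge x hx
  have hx' : Cn (cfg ω) 0 x := hx
  have hu' : Cn (cfg ω) 0 u := hu
  have hxu : Cn (cfg ω) x u := Con_trans (Con_symm hx') hu'
  have hax : Arm (cfg ω) x b := h_ARC d (cfg ω) x u b hxu hi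
  obtain ⟨y, hy, hay⟩ := hGB.1 (z' - z) hzz
  rw [BDB_.cc_add] at hy
  have h1 : x ∈ bx (cc b z) (3 * b + 1) := by
    rw [BDB_.mem_bx] at hxb ⊢
    intro i
    have := hxb i
    push_cast
    omega
  have h2 : y ∈ bx (cc b z) (3 * b + 1) := by
    rw [BDB_.mem_bx] at hy hzz ⊢
    intro i
    have h3 := hy i
    have h4 := hzz i
    simp only [cc] at h3 ⊢
    simp only [Pi.zero_apply, Pi.sub_apply] at h4
    have h5 : (2 * (b : ℤ) + 1) * z' i =
        (2 * (b : ℤ) + 1) * z i + (2 * (b : ℤ) + 1) * (z' i - z i) := by ring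
    rw [h5] at h3
    have h6 : z' i - z i = -1 ∨ z' i - z i = 0 ∨ z' i - z i = 1 := by omega
    push_cast
    rcases h6 with h6 | h6 | h6 <;> rw [h6] at h3 <;>
      generalize (2 * (b : ℤ) + 1) * z i = t at h3 ⊢ <;> constructor <;> omega
  have h3 := hGB.2 x h1 y h2 hax hay
  have h4 : Cn (cfg ω) x y := Con_mono (fun _ _ h => h) Set.inter_subset_left h3
  exact hz' ⟨y, Con_trans hx' h4, hy⟩

end Pool.Agent.FKP
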