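import Pool.Agent.FKP.PartC
import Pool.Agent.FKP.Lem

/-!
# FKP: BLM, the blocks of a separated family are all bad with small probability (MP_552f07_pr)
-/

set_option autoImplicit false

namespace Pool.Agent.FKP

open Filter MeasureTheory Pool.Agent.FKT

namespace BLM_

variable {d : ℕ}

theorem mem_rs (F : Finset (Ed d)) (O : Set (Ed d)) (e : Ed d) : e ∈ rs F O ↔ e ∈ F ∧ e ∈ O := by
  classical
  unfold rs
  rw [Finset.mem_filter]

theorem mem_bx (x v : Vx d) (n : ℕ) : v ∈ bx x n ↔ ∀ i, x i - n ≤ v i ∧ v i ≤ x i + n := by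
  unfold bx
  rw [Finset.mem_Icc, Pi.le_def, Pi.le_def]
  constructor
  · rintro ⟨h1, h2⟩ i
    exact ⟨h1 i, h2 i⟩
  · intro h
    exact ⟨fun i => (h i).1, fun i => (h i).2⟩

/-- The restriction to a smaller set. -/
theorem rs_inter (F K : Finset (Ed d)) (hK : K ⊆ F) (O : Set (Ed d)) :
    rs F O ∩ K = rs K O := by
  ext e
  rw [Finset.mem_inter, mem_rs, mem_rs]
  constructor
  · rintro ⟨⟨_, h2⟩, h3⟩
    exact ⟨h3, h2⟩
  · rintro ⟨h1, h2⟩
    exact ⟨⟨hK h1, h2⟩, h1⟩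

/-- Large boxes contain all the blocks. -/
theorem sub_big (b : ℕ) (D : Finset (Vx d)) : ∃ N0 : ℕ, ∀ n, N0 ≤ n → ∀ z ∈ D,
    bx (cc b z) (4 * b + 2) ⊆ bx (0 : Vx d) n := by
  refine ⟨(D.sup fun z => Finset.univ.sup fun i => (cc b z i).natAbs) + (4 * b + 2), ?_⟩
  intro n hn z hz v hv
  rw [mem_bx] at hv ⊢
  intro i
  have h1 : (cc b z i).natAbs ≤ D.sup fun z => Finset.univ.sup fun i => (cc b z i).natAbs :=
    le_trans (Finset.le_sup (f := fun i => (cc b z i).natAbs) (Finset.mem_univ i))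
      (Finset.le_sup (f := fun z => Finset.univ.sup fun i => (cc b z i).natAbs) hz)
  have h2 : |cc b z i| = ((cc b z i).natAbs : ℤ) := Int.abs_eq_natAbs _
  have h3 : |cc b z i| + (4 * b + 2) ≤ n := by
    rw [h2]
    exact_mod_cast le_trans (Nat.add_le_add_right h1 _) hn
  have h4 := hv i
  have h5 := neg_abs_le (cc b z i)
  have h6 := le_abs_self (cc b z i)
  have h7 : (0 : Vx d) i = 0 := rfl
  rw [h7]
  push_cast at h4
  constructor
  · linarith [h4.1]
  · linarith [h4.2]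

/-- The big boxes of separated blocks have no common edge. -/
theorem disj (b : ℕ) (z z' : Vx d) (h : ∃ i, 5 ≤ |z i - z' i|) :
    Disjoint (eb (cc b z) (4 * b + 2)) (eb (cc b z') (4 * b + 2)) := by
  rw [Finset.disjoint_left]
  intro e he he'
  rw [← es_bx, mem_es] at he he'
  obtain ⟨i, hi⟩ := h
  have h1 := (mem_bx _ _ _).mp he.1 i
  have h2 := (mem_bx _ _ _).mp he'.1 i
  unfold cc at h1 h2
  push_cast at h1 h2
  have hb : (0 : ℤ) ≤ b := Int.natCast_nonneg b
  rcases abs_cases (z i - z' i) with ⟨h3, _⟩ | ⟨h3, _⟩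
  · rw [h3] at hi
    nlinarith [h1.1, h2.2]
  · rw [h3] at hi
    nlinarith [h1.2, h2.1]

/-- The indicator of a conjunction over a finite set. -/
theorem ind_forall {ι : Type} (D : Finset ι) (P : ι → Prop) :
    ind (∀ z ∈ D, P z) = ∏ z ∈ D, ind (P z) := by
  classical
  by_cases h : ∀ z ∈ D, P z
  · rw [ind_true h, Finset.prod_eq_one fun z hz => ind_true (h z hz)]
  · rw [ind_false h]
    push Not at h
    obtain ⟨z, hz, hPz⟩ := h
    exact (Finset.prod_eq_zero hz (ind_false hPz)).symm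

end BLM_

theorem p_BLM (h_LOC : FKT.T_LOC) (h_PRM : T_PRM) (h_GBL : T_GBL) : T_BLM := by
  intro d p q ε hd hp hp1 hq hε b hb μ hμ D hD
  have hq0 : 0 < q := by linarith
  let K : Vx d → Finset (Ed d) := fun z => eb (cc b z) (4 * b + 2)
  let F : Finset (Ed d) := D.biUnion K
  let Q : Vx d → Finset (Ed d) → Prop := fun z A => ¬ GB (A : Set (Ed d)) (cc b z) b
  let P : Finset (Ed d) → Prop := fun A => ∀ z ∈ D, Q z (A ∩ K z)
  have hKF : ∀ z ∈ D, K z ⊆ F := fun z hz => Finset.subset_biUnion_of_mem K hz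
  have hev : {ω : Ed d → Bool | ∀ z ∈ D, ¬ GB (cfg ω) (cc b z) b} =
      {ω | P (rs F (cfg ω))} := by
    ext ω
    show (∀ z ∈ D, ¬ GB (cfg ω) (cc b z) b) ↔
      ∀ z ∈ D, ¬ GB ((rs F (cfg ω) ∩ K z : Finset (Ed d)) : Set (Ed d)) (cc b z) b
    refine forall_congr' fun z => forall_congr' fun hz => not_congr ?_
    rw [BLM_.rs_inter F (K z) (hKF z hz) (cfg ω)]
    exact h_GBL d (cfg ω) (cc b z) b
  have hmeas : MeasurableSet {ω : Ed d → Bool | P (rs F (cfg ω))} := (h_LOC d p q F).2 P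
  have hint : ∫ ω, ind (P (rs F (cfg ω))) ∂μ = μ.real {ω : Ed d → Bool | P (rs F (cfg ω))} := by
    have h1 : (fun ω : Ed d → Bool => ind (P (rs F (cfg ω)))) =
        Set.indicator {ω : Ed d → Bool | P (rs F (cfg ω))} (fun _ => (1 : ℝ)) := by
      funext ω
      by_cases h : P (rs F (cfg ω))
      · rw [ind_true h, Set.indicator_of_mem (show ω ∈ {ω : Ed d → Bool |
          P (rs F (cfg ω))} from h)]
      · rw [ind_false h, Set.indicator_of_notMem (show ω ∉ {ω : Ed d → Bool |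
          P (rs F (cfg ω))} from h)]
    rw [h1, integral_indicator_const _ hmeas, smul_eq_mul, mul_one]
  have hlim := ((h_LOC d p q F).1 μ hμ fun A => ind (P A)).1
  rw [hint] at hlim
  rw [hev]
  obtain ⟨N0, hN0⟩ := BLM_.sub_big b D
  refine le_of_tendsto hlim (eventually_atTop.2 ⟨N0, fun n hn => ?_⟩)
  have hsub : ∀ z ∈ D, bx (cc b z) (4 * b + 2) ⊆ bx (0 : Vx d) n := hN0 n hn
  have hfun : (fun ω : Finset (Ed d) => ind (P (ω ∩ F))) =
      fun ω => ∏ z ∈ D, ind (Q z (ω ∩ K z)) := by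
    funext ω
    rw [← BLM_.ind_forall]
    refine ind_congr (forall_congr' fun z => forall_congr' fun hz => ?_)
    have h1 : ω ∩ F ∩ K z = ω ∩ K z := by
      rw [Finset.inter_assoc, Finset.inter_eq_right.2 (hKF z hz)]
    rw [h1]
  show FKT.phi (0 : Vx d) n p q (fun ω => ind (P (ω ∩ F))) ≤ ε ^ D.card
  rw [hfun]
  unfold FKT.phi
  refine h_PRM (Vx d) (Ed d) (Vx d) Prod.fst tgt (Wir 0 n) (bx 0 n) (eb 0 n) p q ε hp hp1 hq0
    hε D K Q ?_ ?_ ?_
  · intro z hz
    show eb (cc b z) (4 * b + 2) ⊆ eb (0 : Vx d) n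
    rw [← es_bx, ← es_bx]
    exact es_mono (hsub z hz)
  · intro z hz z' hz' hne
    exact BLM_.disj b z z' (hD z hz z' hz' hne)
  · intro z hz R'
    exact hb R' (bx 0 n) (cc b z) (hsub z hz)

end Pool.Agent.FKP
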