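import Pool.Agent.FKP.PartB
import Pool.Agent.FKP.Lem
import Pool.Agent.FKT.TargetsA

/-!
# Project FKP: slabs with two long directions
-/

set_option autoImplicit false

namespace Pool.Agent.FKP

open Filter MeasureTheory Pool.Agent.FKT

namespace BX2_

/-- The coordinate of the closest cell. -/
def cc (l m : ℕ) (t : ℤ) : ℤ := max (-(m : ℤ)) (min (m : ℤ) (t / l))

theorem cc_mem (l m : ℕ) (t : ℤ) : -(m : ℤ) ≤ cc l m t ∧ cc l m t ≤ m := by
  unfold cc
  have hm : (0 : ℤ) ≤ m := Int.natCast_nonneg m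
  constructor
  · exact le_max_left _ _
  · exact max_le (by omega) (min_le_left _ _)

theorem cc_bound (A N l m : ℕ) (hl : 1 ≤ l) (h2 : A < l * (m + 2) + N)
    (t : ℤ) (ht : -(A : ℤ) ≤ t) (ht' : t ≤ A) :
    t - (N + 2 * l) ≤ (l : ℤ) * cc l m t ∧ (l : ℤ) * cc l m t ≤ t + (N + 2 * l) := by
  have hl' : (0 : ℤ) < l := by exact_mod_cast hl
  have hN : (0 : ℤ) ≤ N := Int.natCast_nonneg N
  have h2' : (A : ℤ) < l * (m + 2) + N := by exact_mod_cast h2
  have hm : (0 : ℤ) ≤ m := Int.natCast_nonneg m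
  have hd1 : (l : ℤ) * (t / l) ≤ t := Int.mul_ediv_self_le hl'.ne'
  have hd2 : t < (l : ℤ) * (t / l) + l := Int.lt_mul_ediv_self_add hl'
  unfold cc
  rcases le_total (t / (l : ℤ)) m with h | h
  · rw [min_eq_right h]
    rcases le_total (-(m : ℤ)) (t / l) with h' | h'
    · rw [max_eq_right h']
      constructor <;> linarith
    · rw [max_eq_left h']
      have h3 : (l : ℤ) * (t / l) ≤ l * (-m) := mul_le_mul_of_nonneg_left h' hl'.le
      constructor
      · linarith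
      · nlinarith
  · rw [min_eq_left h, max_eq_right (by omega)]
    have h3 : (l : ℤ) * m ≤ l * (t / l) := mul_le_mul_of_nonneg_left h hl'.le
    constructor
    · nlinarith
    · linarith

/-- The cell of the point `x`. -/
def cell {k : ℕ} (l m : ℕ) (x : Vx (k + 3)) : Vx 2 := ![cc l m (x 0), cc l m (x 1)]

theorem cell_mem {k : ℕ} (l m : ℕ) (x : Vx (k + 3)) : cell l m x ∈ cbx m := by
  unfold cbx
  rw [Finset.mem_Icc]
  constructor
  · intro i
    fin_cases i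
    · exact (cc_mem l m (x 0)).1
    · exact (cc_mem l m (x 1)).1
  · intro i
    fin_cases i
    · exact (cc_mem l m (x 0)).2
    · exact (cc_mem l m (x 1)).2

theorem mem_cand {k ρ a : ℕ} {z : Vx 2} {v : Vx (k + 3)} (h : v ∈ cand k ρ a z) :
    ∃ i j : ℕ, i < a ∧ j < a ∧
      v = pos k ((ρ : ℤ) * (a * z 0 + (i : ℤ))) ((ρ : ℤ) * (a * z 1 + (j : ℤ))) := by
  unfold cand at h
  rw [Finset.mem_image] at h
  obtain ⟨ij, hij, rfl⟩ := h
  rw [Finset.mem_product, Finset.mem_range, Finset.mem_range] at hij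
  exact ⟨ij.1, ij.2, hij.1, hij.2, rfl⟩

/-- the offset of a candidate in its cell -/
theorem off (ρ a l : ℕ) (hl : l = a * ρ) (c : ℤ) (i : ℕ) (hi : i < a) :
    (l : ℤ) * c ≤ (ρ : ℤ) * (a * c + (i : ℤ)) ∧ (ρ : ℤ) * (a * c + (i : ℤ)) ≤ l * c + l := by
  have hρ : (0 : ℤ) ≤ ρ := Int.natCast_nonneg ρ
  have hi0 : (0 : ℤ) ≤ i := Int.natCast_nonneg i
  have hi' : (i : ℤ) < a := by exact_mod_cast hi
  have hl' : (l : ℤ) = a * ρ := by exact_mod_cast hl
  rw [hl']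
  constructor
  · nlinarith [mul_nonneg hρ hi0]
  · nlinarith [mul_nonneg hρ (sub_nonneg.mpr hi'.le)]

theorem cand_near {k ρ a l A N m : ℕ} (hl : l = a * ρ) (hl1 : 1 ≤ l)
    (h2 : A < l * (m + 2) + N) {x : Vx (k + 3)} (hx : x ∈ bx2 (0 : Fin (k + 3)) 1 A N)
    {v : Vx (k + 3)} (hv : v ∈ cand k ρ a (cell l m x)) (i : Fin (k + 3)) :
    x i - ((N : ℤ) + 4 * l) ≤ v i ∧ v i ≤ x i + ((N : ℤ) + 4 * l) := by
  have hl' : (0 : ℤ) < l := by exact_mod_cast hl1
  have hN : (0 : ℤ) ≤ N := Int.natCast_nonneg N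
  unfold bx2 at hx
  rw [Finset.mem_Icc] at hx
  obtain ⟨hx1, hx2⟩ := hx
  have hx1i := hx1 i
  have hx2i := hx2 i
  obtain ⟨a1, a2, ha1, ha2, rfl⟩ := mem_cand hv
  unfold pos
  by_cases hi0 : i.val = 0
  · have hi : i = 0 := Fin.ext hi0
    subst hi
    simp only [true_or, if_true] at hx1i hx2i
    simp only [Fin.val_zero, if_true]
    have hb := cc_bound A N l m hl1 h2 (x 0) hx1i hx2i
    have ho := off ρ a l hl (cc l m (x 0)) a1 ha1
    have hc : cell l m x 0 = cc l m (x 0) := rfl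
    rw [hc]
    constructor <;> linarith [hb.1, hb.2, ho.1, ho.2]
  · by_cases hi1 : i.val = 1
    · have hi : i = 1 := Fin.ext (by simpa using hi1)
      subst hi
      simp only [or_true, if_true] at hx1i hx2i
      rw [if_neg hi0, if_pos hi1]
      have hb := cc_bound A N l m hl1 h2 (x 1) hx1i hx2i
      have ho := off ρ a l hl (cc l m (x 1)) a2 ha2
      have hc : cell l m x 1 = cc l m (x 1) := rfl
      rw [hc]
      constructor <;> linarith [hb.1, hb.2, ho.1, ho.2]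
    · rw [if_neg hi0, if_neg hi1]
      have hne0 : i ≠ 0 := fun h => hi0 (by rw [h]; rfl)
      have hne1 : i ≠ 1 := fun h => hi1 (by rw [h]; simp)
      simp only [hne0, hne1, or_self, if_false] at hx1i hx2i
      constructor <;> linarith

/-- The box of the point `x` in the slab. -/
noncomputable def Qb {k : ℕ} (A N R : ℕ) (x : Vx (k + 3)) : Finset (Vx (k + 3)) :=
  Finset.Icc (fun i => max (x i - R) (if i = 0 ∨ i = 1 then -(A : ℤ) else -(N : ℤ)))
    (fun i => min (x i + R) (if i = 0 ∨ i = 1 then (A : ℤ) else (N : ℤ)))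

theorem mem_Qb {k : ℕ} {A N R : ℕ} {x v : Vx (k + 3)}
    (hv : v ∈ bx2 (0 : Fin (k + 3)) 1 A N) (h : ∀ i, x i - R ≤ v i ∧ v i ≤ x i + R) :
    v ∈ Qb A N R x := by
  unfold bx2 at hv
  rw [Finset.mem_Icc] at hv
  unfold Qb
  rw [Finset.mem_Icc]
  exact ⟨fun i => max_le (h i).1 (hv.1 i), fun i => le_min (h i).2 (hv.2 i)⟩

theorem Qb_sub {k : ℕ} (A N R : ℕ) (x : Vx (k + 3)) :
    Qb A N R x ⊆ bx2 (0 : Fin (k + 3)) 1 A N := by
  intro v hv
  unfold Qb at hv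
  rw [Finset.mem_Icc] at hv
  unfold bx2
  rw [Finset.mem_Icc]
  exact ⟨fun i => (le_max_right _ _).trans (hv.1 i), fun i => (hv.2 i).trans (min_le_right _ _)⟩

theorem Qb_sub' {k : ℕ} (A N R : ℕ) (x : Vx (k + 3)) : Qb A N R x ⊆ bx x R := by
  intro v hv
  unfold Qb at hv
  rw [Finset.mem_Icc] at hv
  unfold bx
  rw [Finset.mem_Icc]
  exact ⟨fun i => (le_max_left _ _).trans (hv.1 i), fun i => (hv.2 i).trans (min_le_left _ _)⟩

theorem card_bx {d : ℕ} (x : Vx d) (R : ℕ) : (bx x R).card = (2 * R + 1) ^ d := by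
  unfold bx
  rw [Pi.card_Icc]
  have h : ∀ i : Fin d, (Finset.Icc (x i - (R : ℤ)) (x i + R)).card = 2 * R + 1 := by
    intro i
    rw [Int.card_Icc]
    omega
  rw [Finset.prod_congr rfl fun i _ => h i]
  simp

theorem card_es {d : ℕ} (S : Finset (Vx d)) : (es S).card ≤ S.card * d := by
  unfold es
  refine (Finset.card_filter_le _ _).trans ?_
  rw [Finset.card_product]
  simp

theorem card_Qb {k : ℕ} (A N R : ℕ) (x : Vx (k + 3)) :
    (es (Qb A N R x)).card ≤ (2 * R + 1) ^ (k + 3) * (k + 3) := by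
  refine (card_es _).trans ?_
  apply Nat.mul_le_mul_right
  rw [← card_bx x R]
  exact Finset.card_le_card (Qb_sub' A N R x)

theorem con_of {k : ℕ} (h_BCN : T_BCN) {A N R : ℕ} {x u v : Vx (k + 3)}
    {ω : Finset (Ed (k + 3))} (h : es (Qb A N R x) ⊆ ω) (hu : u ∈ Qb A N R x)
    (hv : v ∈ Qb A N R x) : Cf ω u v :=
  Con_mono (fun _ _ h => h) (Finset.coe_subset.mpr h) (h_BCN _ _ _ u hu v hv)

theorem fr_mono {d : ℕ} {S : Finset (Vx d)} {p q : ℝ} (hp : 0 < p) (hp1 : p < 1) (hq : 0 < q)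
    {P Q : Finset (Ed d) → Prop} (h : ∀ ω, P ω → Q ω) :
    fr S p q (fun ω => ind (P ω)) ≤ fr S p q fun ω => ind (Q ω) :=
  Ex_mono hp hp1 hq fun ω _ => ind_mono (h ω)

theorem main {k : ℕ} (h_HOL : T_HOL) (h_FEN : T_FEN) (h_BCN : T_BCN) (h_FKG : FKT.T_FKG)
    {p2 p q : ℝ} (hq : 1 ≤ q) (hp2 : 0 < p2) (hp : p2 ≤ p) (hp1 : p < 1) {A N R : ℕ}
    {x y : Vx (k + 3)} (hx : x ∈ bx2 (0 : Fin (k + 3)) 1 A N)
    (hy : y ∈ bx2 (0 : Fin (k + 3)) 1 A N) {X Y : Finset (Vx (k + 3))}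
    (hX : X ⊆ Qb A N R x) (hY : Y ⊆ Qb A N R y)
    (hXY : 1 / 2 ≤ fr (bx2 (0 : Fin (k + 3)) 1 A N) p2 q
      fun ω => ind (∃ v ∈ X, ∃ v' ∈ Y, Cf ω v v')) :
    (p / (p + q * (1 - p))) ^ (2 * ((2 * R + 1) ^ (k + 3) * (k + 3))) / 2 ≤
      tp (bx2 (0 : Fin (k + 3)) 1 A N) p q x y := by
  classical
  have hp0 : 0 < p := hp2.trans_le hp
  have hq0 : 0 < q := by linarith
  set S := bx2 (0 : Fin (k + 3)) 1 A N with hS
  have hG : ∀ e ∈ es S, Prod.fst e ∈ S ∧ tgt e ∈ S := fun e he => mem_es.mp he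
  set D := fun ω : Finset (Ed (k + 3)) => ∃ v ∈ X, ∃ v' ∈ Y, Cf ω v v' with hD
  have hDm : ∀ a b : Finset (Ed (k + 3)), a ⊆ b → ind (D a) ≤ ind (D b) := by
    intro a b hab
    apply ind_mono
    rintro ⟨v, hv, v', hv', h⟩
    exact ⟨v, hv, v', hv', Con_mono (fun _ _ h => h) (Finset.coe_subset.mpr hab) h⟩
  have h1 : 1 / 2 ≤ fr S p q fun ω => ind (D ω) := by
    refine hXY.trans ?_
    exact h_HOL _ _ Prod.fst tgt (no _) (no _) S (es S) p2 p q hp2 hp hp1 hq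
      (fun _ _ h => h) hG _ (fun a b hab _ => hDm a b hab)
  set F := es (Qb A N R x) ∪ es (Qb A N R y) with hF
  have hFm : ∀ a b : Finset (Ed (k + 3)), a ⊆ b → ind (F ⊆ a) ≤ ind (F ⊆ b) :=
    fun a b hab => ind_mono fun h => h.trans hab
  have hFS : F ⊆ es S := Finset.union_subset (es_mono (Qb_sub A N R x)) (es_mono (Qb_sub A N R y))
  have hFc : F.card ≤ 2 * ((2 * R + 1) ^ (k + 3) * (k + 3)) := by
    refine (Finset.card_union_le _ _).trans ?_
    have h1 := card_Qb A N R x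
    have h2 := card_Qb A N R y
    omega
  have hπ0 : 0 < p / (p + q * (1 - p)) := by
    apply div_pos hp0
    have : 0 < q * (1 - p) := mul_pos hq0 (by linarith)
    linarith
  have hπ1 : p / (p + q * (1 - p)) ≤ 1 := by
    have h3 : 0 < q * (1 - p) := mul_pos hq0 (by linarith)
    rw [div_le_one (by linarith)]
    linarith
  have h2 : (p / (p + q * (1 - p))) ^ (2 * ((2 * R + 1) ^ (k + 3) * (k + 3))) ≤
      fr S p q fun ω => ind (F ⊆ ω) :=
    (pow_le_pow_of_le_one hπ0.le hπ1 hFc).trans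
      (h_FEN _ _ Prod.fst tgt (no _) S (es S) p q hp0 hp1 hq hG F hFS)
  have h3 := (h_FKG _ _ Prod.fst tgt (no _) S (es S) p q hp0 hp1 hq hG).1
    (fun ω => ind (F ⊆ ω)) (fun ω => ind (D ω)) hFm hDm
  have h4 : Ex Prod.fst tgt (no _) S (es S) p q (fun ω => ind (F ⊆ ω) * ind (D ω)) ≤
      tp S p q x y := by
    unfold tp fr fw
    apply Ex_mono hp0 hp1 hq0
    intro ω _
    rw [← ind_and]
    apply ind_mono
    rintro ⟨hFω, v, hv, v', hv', hc⟩
    have hxQ : x ∈ Qb A N R x := mem_Qb hx fun i => by constructor <;> omega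
    have hyQ : y ∈ Qb A N R y := mem_Qb hy fun i => by constructor <;> omega
    have c1 : Cf ω x v := con_of h_BCN (Finset.subset_union_left.trans hFω) hxQ (hX hv)
    have c2 : Cf ω v' y := con_of h_BCN (Finset.subset_union_right.trans hFω) (hY hv') hyQ
    exact Con_trans (Con_trans c1 hc) c2
  refine le_trans ?_ h4
  refine le_trans ?_ h3
  have hnn : 0 ≤ (p / (p + q * (1 - p))) ^ (2 * ((2 * R + 1) ^ (k + 3) * (k + 3))) :=
    pow_nonneg hπ0.le _
  calc (p / (p + q * (1 - p))) ^ (2 * ((2 * R + 1) ^ (k + 3) * (k + 3))) / 2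
      = (p / (p + q * (1 - p))) ^ (2 * ((2 * R + 1) ^ (k + 3) * (k + 3))) * (1 / 2) := by ring
    _ ≤ _ := mul_le_mul h2 h1 (by norm_num) (hnn.trans h2)

theorem exists_m (A N l : ℕ) (hl : 1 ≤ l) (hA : N + 2 * l ≤ A) :
    ∃ m : ℕ, l * (m + 1) + N ≤ A ∧ A < l * (m + 2) + N := by
  refine ⟨(A - N) / l - 1, ?_, ?_⟩
  · have h1 : l * ((A - N) / l) ≤ A - N := Nat.mul_div_le _ _
    have h2 : 1 ≤ (A - N) / l := by
      rw [Nat.le_div_iff_mul_le (by omega)]
      omega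
    rw [Nat.sub_add_cancel h2]
    omega
  · have h1 : A - N < l * ((A - N) / l) + l := by
      have := Nat.lt_mul_div_succ (A - N) (show 0 < l by omega)
      rw [Nat.mul_add, Nat.mul_one] at this
      exact this
    have h2 : 1 ≤ (A - N) / l := by
      rw [Nat.le_div_iff_mul_le (by omega)]
      omega
    obtain ⟨t, ht⟩ : ∃ t, (A - N) / l = t + 1 := ⟨(A - N) / l - 1, by omega⟩
    rw [ht] at h1 ⊢
    have h3 : t + 1 - 1 = t := by omega
    rw [h3]
    have h4 : l * (t + 1) + l = l * (t + 2) := by ring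
    omega

end BX2_

theorem p_BX2 (h_CPA : T_CPA) (h_PEI : T_PEI) (h_HOL : T_HOL) (h_FEN : T_FEN) (h_BCN : T_BCN)
    (h_FKG : FKT.T_FKG) : T_BX2 := by
  intro k q hq hQ p0 p h0 h01 h1 hμ
  obtain ⟨s, r, ρ, a, l, H, N, b, x0, x1, p2, hp2, hp2', hl, hC⟩ :=
    h_CPA k q hq hQ p0 p h0 h01 h1 hμ
  have hp : 0 < p := h0.trans h01
  have hq0 : 0 < q := by linarith
  have hπ0 : 0 < p / (p + q * (1 - p)) := by
    apply div_pos hp
    have : 0 < q * (1 - p) := mul_pos hq0 (by linarith)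
    linarith
  refine ⟨N, N + 2 * l, (p / (p + q * (1 - p))) ^
    (2 * ((2 * (N + 4 * l) + 1) ^ (k + 3) * (k + 3))) / 2, by positivity, ?_⟩
  intro A hA x hx y hy
  obtain ⟨m, hm1, hm2⟩ := BX2_.exists_m A N l hl hA
  have hc := hC A m hm1
  have hfit : ∀ z ∈ cbx m, ∀ v ∈ cand k ρ a z, v ∈ bx2 (0 : Fin (k + 3)) 1 A N := by
    intro z hz v hv
    apply hc.fit z hz v hv
    unfold bx
    rw [Finset.mem_Icc]
    constructor <;> intro i <;> simp
  have hsub : ∀ w ∈ bx2 (0 : Fin (k + 3)) 1 A N, cand k ρ a (BX2_.cell l m w) ⊆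
      BX2_.Qb A N (N + 4 * l) w := by
    intro w hw v hv
    apply BX2_.mem_Qb (hfit _ (BX2_.cell_mem l m w) v hv)
    intro i
    have := BX2_.cand_near hc.hl hl hm2 hw hv i
    push_cast
    exact this
  exact BX2_.main h_HOL h_FEN h_BCN h_FKG hq hp2 hp2' h1 hx hy (hsub x hx) (hsub y hy)
    (h_PEI k p2 q _ s r ρ a l H N m b x0 x1 hc _ (BX2_.cell_mem l m x) _ (BX2_.cell_mem l m y))

end Pool.Agent.FKP
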