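import Pool.Agent.FKP.PartB
import Pool.Agent.FKP.Lem

/-!
# Project FKP: the deterministic part of the Peierls argument (T_CON)
-/

set_option autoImplicit false

namespace Pool.Agent.FKP

open Filter MeasureTheory Pool.Agent.FKT

namespace CON_

theorem cf_refl {d : ℕ} (ω : Finset (Ed d)) (x : Vx d) : Cf ω x x := Relation.EqvGen.refl x

theorem cf_symm {d : ℕ} {ω : Finset (Ed d)} {x y : Vx d} (h : Cf ω x y) : Cf ω y x :=
  Relation.EqvGen.symm _ _ h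

theorem cf_trans {d : ℕ} {ω : Finset (Ed d)} {x y z : Vx d} (h : Cf ω x y) (h' : Cf ω y z) :
    Cf ω x z := Relation.EqvGen.trans _ _ _ h h'

theorem cf_edge {d : ℕ} {ω : Finset (Ed d)} {e : Ed d} (he : e ∈ ω) : Cf ω e.1 (tgt e) :=
  Relation.EqvGen.rel _ _ (Or.inr ⟨e, he, rfl, rfl⟩)

theorem mem_bdy {n : ℕ} {J W : Finset (Vx n)} {e : Ed n} :
    e ∈ bdy J W ↔ e ∈ es J ∧ ¬ (e.1 ∈ W ↔ tgt e ∈ W) := by
  unfold bdy
  rw [Finset.mem_filter]

/-- The chosen seed is a candidate. -/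
theorem sd_mem {k ρ a s : ℕ} {ω : Finset (Ed (k + 3))} {z : Vx 2} (h : Gd k ρ a s ω z) :
    Sd k ρ a s ω z ∈ cand k ρ a z := by
  unfold Sd
  rw [dif_pos h]
  exact h.choose_spec.1

/-- One coarse step. -/
def Bs (k ρ a s : ℕ) (ω : Finset (Ed (k + 3))) (J : Finset (Vx 2)) (x y : Vx 2) : Prop :=
  x ∈ J ∧ y ∈ J ∧ Gd k ρ a s ω y ∧ Cf ω (Sd k ρ a s ω x) (Sd k ρ a s ω y) ∧
    ∃ e ∈ es J, (e.1 = x ∧ tgt e = y) ∨ (e.1 = y ∧ tgt e = x)

theorem good {k ρ a s : ℕ} {ω : Finset (Ed (k + 3))} {J : Finset (Vx 2)} {z0 z : Vx 2}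
    (h0 : Gd k ρ a s ω z0) (h : Relation.ReflTransGen (Bs k ρ a s ω J) z0 z) :
    Gd k ρ a s ω z ∧ Cf ω (Sd k ρ a s ω z0) (Sd k ρ a s ω z) := by
  induction h with
  | refl => exact ⟨h0, cf_refl _ _⟩
  | tail _ hbc ih => exact ⟨hbc.2.2.1, cf_trans ih.2 hbc.2.2.2.1⟩

end CON_

theorem p_CON (h_SEP : T_SEP) (h_CUT : T_CUT) (h_NEA : T_NEA) : T_CON := by
  classical
  intro k ρ a s m ω z0 z1 hz0 hz1 hG0 hno
  set J : Finset (Vx 2) := cbx m with hJ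
  set W' : Finset (Vx 2) := J.filter fun z =>
    Relation.ReflTransGen (CON_.Bs k ρ a s ω J) z0 z with hW'
  have memW' : ∀ z, z ∈ W' ↔ z ∈ J ∧ Relation.ReflTransGen (CON_.Bs k ρ a s ω J) z0 z := by
    intro z
    rw [hW', Finset.mem_filter]
  have h0 : z0 ∈ W' := (memW' z0).2 ⟨hz0, Relation.ReflTransGen.refl⟩
  have h1 : z1 ∉ W' := by
    intro h
    obtain ⟨h2, h3⟩ := CON_.good hG0 ((memW' z1).1 h).2
    exact hno ⟨_, CON_.sd_mem hG0, _, CON_.sd_mem h2, h3⟩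
  have hcon0 : ∀ z, Relation.ReflTransGen (CON_.Bs k ρ a s ω J) z0 z → Cf (es W') z0 z := by
    intro z hz
    induction hz with
    | refl => exact CON_.cf_refl _ _
    | tail hab hbc ih =>
      refine CON_.cf_trans ih ?_
      have hb := (memW' _).2 ⟨hbc.1, hab⟩
      have hc := (memW' _).2 ⟨hbc.2.1, Relation.ReflTransGen.tail hab hbc⟩
      obtain ⟨e, -, he⟩ := hbc.2.2.2.2
      rcases he with ⟨rfl, rfl⟩ | ⟨rfl, rfl⟩
      · exact CON_.cf_edge (mem_es.2 ⟨hb, hc⟩)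
      · exact CON_.cf_symm (CON_.cf_edge (mem_es.2 ⟨hc, hb⟩))
  have hcon : CnS W' := by
    intro x hx y hy
    exact CON_.cf_trans (CON_.cf_symm (hcon0 x ((memW' x).1 hx).2)) (hcon0 y ((memW' y).1 hy).2)
  obtain ⟨W, hsub, hWJ, hz1W, hWc, hJWc, hbd⟩ := h_SEP 2 (fun _ => -(m : ℤ)) (fun _ => (m : ℤ))
    W' z0 z1 (Finset.filter_subset _ _) hcon h0 (Finset.mem_sdiff.2 ⟨hz1, h1⟩)
  have hbd' : ∀ e ∈ bdy J W, (e.1 ∈ W → e.1 ∈ W') ∧ (tgt e ∈ W → tgt e ∈ W') := hbd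
  set P : Finset (Ed 2) := bdy J W with hP
  set O : Finset (Ed 2) := P.filter fun e => e.1 ∈ W with hO
  have memO : ∀ e, e ∈ O ↔ e ∈ P ∧ e.1 ∈ W := by
    intro e
    rw [hO, Finset.mem_filter]
  -- inner and outer cells
  have hinn : ∀ e ∈ P, inn O e ∈ W' := by
    intro e he
    unfold inn
    by_cases h : e ∈ O
    · rw [if_pos h]
      exact (hbd' e he).1 ((memO e).1 h).2
    · rw [if_neg h]
      have h2 : e.1 ∉ W := fun h3 => h ((memO e).2 ⟨he, h3⟩)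
      have h3 := (CON_.mem_bdy.1 he).2
      apply (hbd' e he).2
      by_contra h4
      exact h3 ⟨fun h5 => absurd h5 h2, fun h5 => absurd h5 h4⟩
  have hout : ∀ e ∈ P, out O e ∉ W := by
    intro e he
    unfold out
    have h3 := (CON_.mem_bdy.1 he).2
    by_cases h : e ∈ O
    · rw [if_pos h]
      have h2 : e.1 ∈ W := ((memO e).1 h).2
      intro h4
      exact h3 ⟨fun _ => h4, fun _ => h2⟩
    · rw [if_neg h]
      exact fun h4 => h ((memO e).2 ⟨he, h4⟩)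
  have hedge : ∀ e ∈ P, (out O e ∈ J) ∧ ∃ e' ∈ es J,
      (e'.1 = inn O e ∧ tgt e' = out O e) ∨ (e'.1 = out O e ∧ tgt e' = inn O e) := by
    intro e he
    have h2 := (CON_.mem_bdy.1 he).1
    have h3 := mem_es.1 h2
    unfold inn out
    by_cases h : e ∈ O
    · rw [if_pos h, if_pos h]
      exact ⟨h3.2, e, h2, Or.inl ⟨rfl, rfl⟩⟩
    · rw [if_neg h, if_neg h]
      exact ⟨h3.1, e, h2, Or.inr ⟨rfl, rfl⟩⟩
  refine ⟨P, O, Finset.filter_subset _ _, ?_, ?_, ?_, ?_⟩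
  · intro e he
    exact (CON_.mem_bdy.1 he).1
  · intro e he
    have hi := (memW' _).1 (hinn e he)
    obtain ⟨g1, g2⟩ := CON_.good hG0 hi.2
    refine ⟨g1, fun e' he' hGo hcf => ?_⟩
    have hi' := (memW' _).1 (hinn e' he')
    obtain ⟨g1', g2'⟩ := CON_.good hG0 hi'.2
    obtain ⟨q1, q2⟩ := hedge e' he'
    have hstep : CON_.Bs k ρ a s ω J (inn O e') (out O e') := by
      refine ⟨hi'.1, q1, hGo, ?_, q2⟩
      exact CON_.cf_trans (CON_.cf_symm g2') (CON_.cf_trans g2 hcf)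
    apply hout e' he'
    apply hsub
    exact (memW' _).2 ⟨q1, Relation.ReflTransGen.tail hi'.2 hstep⟩
  · exact h_NEA m W z0 z1 hWJ (hsub h0) (Finset.mem_sdiff.2 ⟨hz1, hz1W⟩)
  · intro e he e' he'
    exact h_CUT 2 (fun _ => -(m : ℤ)) (fun _ => (m : ℤ)) W hWJ hWc hJWc e he e' he'

end Pool.Agent.FKP
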