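import Pool.Agent.FKP.PartB
import Pool.Agent.FKP.Lem

/-!
# Project FKP: proof of the target T_CPA (choice of the parameters)
-/

set_option autoImplicit false

namespace Pool.Agent.FKP

open Filter MeasureTheory Pool.Agent.FKT

namespace CPA_

/-! ## Geometry -/

theorem mem_bx {d : ℕ} {x y : Vx d} {n : ℕ} :
    y ∈ bx x n ↔ ∀ i, x i - n ≤ y i ∧ y i ≤ x i + n := by
  unfold bx
  rw [Finset.mem_Icc, Pi.le_def, Pi.le_def]
  exact ⟨fun h i => ⟨h.1 i, h.2 i⟩, fun h => ⟨fun i => (h i).1, fun i => (h i).2⟩⟩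

theorem bx_map {d : ℕ} (w : Vx d) (N : ℕ) :
    (bx (0 : Vx d) N).map (Equiv.addRight w).toEmbedding = bx w N := by
  ext y
  rw [Finset.mem_map, mem_bx]
  constructor
  · rintro ⟨x, hx, rfl⟩ i
    rw [mem_bx] at hx
    have h := hx i
    simp only [Pi.zero_apply] at h
    simp only [Equiv.coe_toEmbedding, Equiv.coe_addRight, Pi.add_apply]
    constructor <;> omega
  · intro h
    refine ⟨y - w, ?_, ?_⟩
    · rw [mem_bx]
      intro i
      have h1 := h i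
      simp only [Pi.zero_apply, Pi.sub_apply]
      constructor <;> omega
    · simp

theorem rg_sub {k : ℕ} (H : ℕ) (w x : Vx (k + 3)) (hx : x ∈ rg H w) :
    x - w ∈ bx (0 : Vx (k + 3)) H := by
  unfold rg at hx
  rw [Finset.mem_Icc, Pi.le_def, Pi.le_def] at hx
  rw [mem_bx]
  intro i
  have h1 := hx.1 i
  have h2 := hx.2 i
  simp only [Pi.zero_apply, Pi.sub_apply]
  split_ifs at h1 h2 <;> constructor <;> omega

theorem cand_bound {k ρ a l m : ℕ} (hl : l = a * ρ) {z : Vx 2} (hz : z ∈ cbx m)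
    {v : Vx (k + 3)} (hv : v ∈ cand k ρ a z) (i : Fin (k + 3)) :
    (2 ≤ i.val → v i = 0) ∧ (-((l * (m + 1) : ℕ) : ℤ) ≤ v i ∧ v i ≤ ((l * (m + 1) : ℕ) : ℤ)) := by
  unfold cand at hv
  rw [Finset.mem_image] at hv
  obtain ⟨ij, hij, rfl⟩ := hv
  rw [Finset.mem_product, Finset.mem_range, Finset.mem_range] at hij
  unfold cbx at hz
  rw [Finset.mem_Icc, Pi.le_def, Pi.le_def] at hz
  have key : ∀ (t : Fin 2) (c : ℕ), c < a →
      -((l * (m + 1) : ℕ) : ℤ) ≤ (ρ : ℤ) * (a * z t + (c : ℤ)) ∧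
      (ρ : ℤ) * (a * z t + (c : ℤ)) ≤ ((l * (m + 1) : ℕ) : ℤ) := by
    intro t c hc
    have h1 : -(m : ℤ) ≤ z t := hz.1 t
    have h2 : z t ≤ (m : ℤ) := hz.2 t
    have hc' : (c : ℤ) ≤ a := by exact_mod_cast hc.le
    have hc0 : (0 : ℤ) ≤ c := Int.natCast_nonneg c
    have ha0 : (0 : ℤ) ≤ a := Int.natCast_nonneg a
    have hρ0 : (0 : ℤ) ≤ ρ := Int.natCast_nonneg ρ
    have e : ((l * (m + 1) : ℕ) : ℤ) = (ρ : ℤ) * ((a : ℤ) * (m + 1)) := by
      rw [hl]; push_cast; ring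
    rw [e]
    constructor
    · rw [← mul_neg]
      apply mul_le_mul_of_nonneg_left _ hρ0
      nlinarith [mul_nonneg ha0 (by linarith : (0 : ℤ) ≤ z t + m)]
    · apply mul_le_mul_of_nonneg_left _ hρ0
      nlinarith [mul_nonneg ha0 (by linarith : (0 : ℤ) ≤ m - z t)]
  have hL : (0 : ℤ) ≤ ((l * (m + 1) : ℕ) : ℤ) := Int.natCast_nonneg _
  unfold pos
  constructor
  · intro h
    rw [if_neg (by omega), if_neg (by omega)]
  · split_ifs
    · exact key 0 ij.1 hij.1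
    · exact key 1 ij.2 hij.2
    · constructor
      · linarith
      · exact hL

theorem fit {k ρ a l m A N : ℕ} (hl : l = a * ρ) (hA : l * (m + 1) + N ≤ A) :
    ∀ z ∈ cbx m, ∀ v ∈ cand k ρ a z, bx v N ⊆ bx2 (0 : Fin (k + 3)) 1 A N := by
  intro z hz v hv y hy
  rw [mem_bx] at hy
  unfold bx2
  rw [Finset.mem_Icc, Pi.le_def, Pi.le_def]
  have hA' : ((l * (m + 1) : ℕ) : ℤ) + N ≤ A := by exact_mod_cast hA
  have hval : ∀ i : Fin (k + 3), ¬ (i = 0 ∨ i = 1) → 2 ≤ i.val := by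
    intro i hi
    by_contra hcon
    apply hi
    have h3 : i.val = 0 ∨ i.val = 1 := by omega
    rcases h3 with h3 | h3
    · left; exact Fin.ext (by simpa using h3)
    · right; exact Fin.ext (by simpa using h3)
  constructor
  · intro i
    have h1 := hy i
    have h2 := cand_bound hl hz hv i
    split_ifs with hi
    · linarith [h1.1, h2.2.1]
    · have h3 := h2.1 (hval i hi)
      rw [h3] at h1
      linarith [h1.1]
  · intro i
    have h1 := hy i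
    have h2 := cand_bound hl hz hv i
    split_ifs with hi
    · linarith [h1.2, h2.2.2]
    · have h3 := h2.1 (hval i hi)
      rw [h3] at h1
      linarith [h1.2]

/-! ## The two-point function -/

theorem tp_symm {d : ℕ} (S : Finset (Vx d)) (p q : ℝ) (x y : Vx d) :
    tp S p q x y = tp S p q y x := by
  unfold tp fr fw
  apply Ex_congr
  intro ω _
  exact ind_congr ⟨fun h => Con_symm h, fun h => Con_symm h⟩

theorem tp_low (h_DMC : T_DMC) (h_AUT : T_AUT) {k : ℕ} {q p1 θ : ℝ} (hq : 1 ≤ q) (hp : 0 < p1)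
    (hp1 : p1 < 1) {H N : ℕ} (hT : ∀ y ∈ bx (0 : Vx (k + 3)) H, θ ≤ tp (bx 0 N) p1 q 0 y)
    {S : Finset (Vx (k + 3))} {w : Vx (k + 3)} (hS : bx w N ⊆ S) :
    ∀ x ∈ rg H w, θ ≤ tp S p1 q x w := by
  intro x hx
  have h1 := hT (x - w) (rg_sub H w x hx)
  have h2 := (h_AUT (k + 3) (Equiv.addRight w) (Equiv.refl _) (by
    intro y i
    simp only [Equiv.coe_addRight, Equiv.refl_apply]
    abel) (bx 0 N) p1 q).2 (x - w) 0
  rw [bx_map] at h2
  simp only [Equiv.coe_addRight, sub_add_cancel, zero_add] at h2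
  have h3 : tp (bx w N) p1 q x w ≤ tp S p1 q x w := by
    have h4 := h_DMC (Vx (k + 3)) (Ed (k + 3)) Prod.fst tgt (no (Vx (k + 3))) S (bx w N) (es S)
      (es (bx w N)) p1 q hp hp1 hq (es_mono hS) hS (fun e he => mem_es.mp he)
      (fun ω => ind (Cf ω x w)) (by
        intro a b hab _
        apply ind_mono
        intro h
        exact Con_mono (fun _ _ h => h) (by exact_mod_cast hab) h)
    refine le_trans h4 ?_
    unfold tp fr fw
    apply Ex_mono hp hp1 (by linarith)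
    intro ω _
    apply ind_mono
    intro h
    exact Con_mono (fun _ _ h => h) (by exact_mod_cast Finset.inter_subset_left) h
  rw [tp_symm] at h1
  rw [h2] at h3
  linarith

/-! ## Numbers -/

theorem ex_side {c1 q : ℝ} (hc : 0 < c1) (hq : 1 ≤ q) {ε : ℝ} (hε : 0 < ε) :
    ∃ s : ℕ, 1 ≤ s ∧ 1600 ^ 2 * (q ^ 2 * Real.exp (-(c1 * s))) ≤ ε := by
  obtain ⟨s, hs⟩ := exists_nat_ge (max 1 (-Real.log (ε / (1600 ^ 2 * q ^ 2)) / c1))
  have hs1 : (1 : ℝ) ≤ s := le_trans (le_max_left _ _) hs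
  have hs2 : -Real.log (ε / (1600 ^ 2 * q ^ 2)) / c1 ≤ s := le_trans (le_max_right _ _) hs
  refine ⟨s, by exact_mod_cast hs1, ?_⟩
  have hD : (0 : ℝ) < 1600 ^ 2 * q ^ 2 := by positivity
  rw [div_le_iff₀ hc] at hs2
  have h1 : Real.exp (-(c1 * s)) ≤ ε / (1600 ^ 2 * q ^ 2) := by
    rw [← Real.le_log_iff_exp_le (by positivity)]
    linarith
  calc (1600 : ℝ) ^ 2 * (q ^ 2 * Real.exp (-(c1 * s)))
      = (1600 ^ 2 * q ^ 2) * Real.exp (-(c1 * s)) := by ring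
    _ ≤ (1600 ^ 2 * q ^ 2) * (ε / (1600 ^ 2 * q ^ 2)) := mul_le_mul_of_nonneg_left h1 hD.le
    _ = ε := by field_simp

theorem ex_num {x0 : ℝ} (h0 : 0 < x0) (h1 : x0 ≤ 1) :
    ∃ a : ℕ, 1 ≤ a ∧ 200 ≤ (a : ℝ) ^ 2 * x0 ∧ (a : ℝ) ^ 2 * x0 ≤ 800 := by
  have hd : (1 : ℝ) ≤ 200 / x0 := by
    rw [le_div_iff₀ h0]; linarith
  have hs1 : (1 : ℝ) ≤ Real.sqrt (200 / x0) := by
    rw [Real.one_le_sqrt]; exact hd
  have hsq : Real.sqrt (200 / x0) ^ 2 = 200 / x0 := Real.sq_sqrt (by linarith)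
  refine ⟨⌈Real.sqrt (200 / x0)⌉₊, ?_, ?_, ?_⟩
  · have := Nat.le_ceil (Real.sqrt (200 / x0))
    have h2 : (1 : ℝ) ≤ (⌈Real.sqrt (200 / x0)⌉₊ : ℝ) := le_trans hs1 this
    exact_mod_cast h2
  · have h2 := Nat.le_ceil (Real.sqrt (200 / x0))
    have h3 : Real.sqrt (200 / x0) ^ 2 ≤ (⌈Real.sqrt (200 / x0)⌉₊ : ℝ) ^ 2 :=
      pow_le_pow_left₀ (by linarith) h2 2
    rw [hsq, div_le_iff₀ h0] at h3
    exact h3
  · have h2 := (Nat.ceil_lt_add_one (by linarith : (0 : ℝ) ≤ Real.sqrt (200 / x0))).le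
    have h3 : (⌈Real.sqrt (200 / x0)⌉₊ : ℝ) ≤ 2 * Real.sqrt (200 / x0) := by linarith
    have h4 : (⌈Real.sqrt (200 / x0)⌉₊ : ℝ) ^ 2 ≤ (2 * Real.sqrt (200 / x0)) ^ 2 :=
      pow_le_pow_left₀ (Nat.cast_nonneg _) h3 2
    rw [mul_pow, hsq] at h4
    calc (⌈Real.sqrt (200 / x0)⌉₊ : ℝ) ^ 2 * x0 ≤ (2 ^ 2 * (200 / x0)) * x0 :=
          mul_le_mul_of_nonneg_right h4 h0.le
      _ = 800 := by field_simp; norm_num

theorem odds {x y : ℝ} (h0 : 0 < x) (hxy : x ≤ y) (hy : y < 1) :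
    Real.log (x / (1 - x)) ≤ Real.log (y / (1 - y)) := by
  apply Real.log_le_log (div_pos h0 (by linarith))
  rw [div_le_div_iff₀ (by linarith) (by linarith)]
  nlinarith

theorem odds_lt {x y : ℝ} (h0 : 0 < x) (hxy : x < y) (hy : y < 1) :
    Real.log (x / (1 - x)) < Real.log (y / (1 - y)) := by
  apply Real.log_lt_log (div_pos h0 (by linarith))
  rw [div_lt_div_iff₀ (by linarith) (by linarith)]
  nlinarith

end CPA_

open CPA_ in
theorem p_CPA (h_TPF : T_TPF) (h_SEE : T_SEE) (h_KEY : T_KEY) (h_DMC : T_DMC) (h_AUT : T_AUT) :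
    T_CPA := by
  intro k q hq hQ p0 p h0 h01 hp1 hμ
  obtain ⟨κ, u, hκ, hu, hQc⟩ := hQ
  -- the intermediate parameters
  obtain ⟨p1, hp1d⟩ : ∃ p1 : ℝ, p1 = (2 * p0 + p) / 3 := ⟨_, rfl⟩
  obtain ⟨pa, hpad⟩ : ∃ pa : ℝ, pa = (p0 + 2 * p) / 3 := ⟨_, rfl⟩
  have e1 : p0 < p1 := by rw [hp1d]; linarith
  have e2 : p1 < pa := by rw [hp1d, hpad]; linarith
  have e3 : pa < p := by rw [hpad]; linarith
  have e0 : 0 < p1 := lt_trans h0 e1
  have ea0 : 0 < pa := lt_trans e0 e2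
  obtain ⟨θ, hθ, hT⟩ := h_TPF (k + 3) (by omega) p0 p1 q h0 e1 (by linarith) hq hμ
  choose N0 hN0 using hT
  -- the side of the seeds
  obtain ⟨D, hD⟩ : ∃ D : ℝ, D = Real.log (pa / (1 - pa)) - Real.log (p1 / (1 - p1)) := ⟨_, rfl⟩
  have hDpos : 0 < D := by
    rw [hD]; linarith [odds_lt e0 e2 (by linarith)]
  have hc1 : 0 < κ * p1 * θ ^ 4 * D / 12 := by positivity
  obtain ⟨s, hs, hsb⟩ := ex_side hc1 hq (by positivity : (0 : ℝ) < (1 / 2 ^ 21 : ℝ) ^ 2500)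
  -- the radius
  obtain ⟨r, hr, hF, p2, hpa2, hp2, hphi⟩ := h_SEE (k + 3) (by omega) pa p q ea0 e3 hp1 hq
    (es (cu s (0 : Vx (k + 3)))) s
  have hp20 : 0 < p2 := lt_of_lt_of_le ea0 hpa2
  have hp21 : p2 < 1 := lt_of_le_of_lt hp2 hp1
  obtain ⟨x0, hx0d⟩ : ∃ x0 : ℝ, x0 = fr (bx (0 : Vx (k + 3)) r) p2 q
    (fun ω => ind (es (cu s 0) ⊆ ω)) := ⟨_, rfl⟩
  obtain ⟨x1, hx1d⟩ : ∃ x1 : ℝ, x1 = phi (0 : Vx (k + 3)) r p2 q
    (fun ω => ind (es (cu s 0) ⊆ ω)) := ⟨_, rfl⟩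
  have hx0 : 0 < x0 := by
    rw [hx0d]
    unfold fr fw
    apply Ex_pos hp20 hp21 (by linarith) (fun ω _ => ind_nonneg _) hF
    rw [ind_true (Finset.Subset.refl _)]
    exact one_pos
  have hx01 : x0 ≤ 1 := by
    rw [hx0d]
    unfold fr fw
    exact Ex_le_one hp20 hp21 (by linarith) (fun ω _ => ind_le_one _)
  have hx10 : x1 ≤ 2 * x0 := by
    rw [hx1d, hx0d]; exact hphi
  obtain ⟨a, ha, ha0, ha1⟩ := ex_num hx0 hx01
  obtain ⟨ρ, hρ⟩ : ∃ ρ : ℕ, ρ = 2 * r + 1 := ⟨_, rfl⟩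
  obtain ⟨l, hl⟩ : ∃ l : ℕ, l = a * ρ := ⟨_, rfl⟩
  obtain ⟨H, hH⟩ : ∃ H : ℕ, H = s + 2 * l := ⟨_, rfl⟩
  have hlρ : ρ ≤ l := by
    rw [hl]; exact Nat.le_mul_of_pos_left ρ ha
  refine ⟨s, r, ρ, a, l, H, max (N0 H) H, q ^ 2 * Real.exp (-(κ * p1 * θ ^ 4 * D / 12 * s)),
    x0, x1, p2, hp20, hp2, by omega, ?_⟩
  intro A m hAm
  have hHN : H ≤ max (N0 H) H := le_max_right _ _
  refine ⟨hp20, hp21, hq, hs, hr, hρ, ha, hl, hH, hHN, ?_, by positivity, hx0, fit hl hAm, ?_,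
    hx1d.ge, hx0d.le, ha0, ?_, hsb⟩
  · exact le_trans (by omega) hHN
  · intro n v v' hgeo hbox
    have hTT : ∀ y ∈ bx (0 : Vx (k + 3)) H, θ ≤ tp (bx 0 (max (N0 H) H)) p1 q 0 y :=
      hN0 H (max (N0 H) H) (le_max_left _ _)
    have hk := h_KEY k q κ u p1 p2 θ hq hκ hu hQc e0 (by linarith) hp21 hθ
      (bx2 (0 : Fin (k + 3)) 1 A (max (N0 H) H)) s H n v v' hgeo
      (fun i => tp_low h_DMC h_AUT hq e0 (by linarith) hTT (hbox i).1)
      (fun i => tp_low h_DMC h_AUT hq e0 (by linarith) hTT (hbox i).2)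
    refine le_trans hk ?_
    apply mul_le_mul_of_nonneg_right
    · apply pow_le_pow_left₀ (by positivity)
      apply mul_le_mul_of_nonneg_left _ (by positivity)
      apply Real.exp_le_exp.mpr
      have h5 := odds ea0 hpa2 hp21
      have h6 : D ≤ Real.log (p2 / (1 - p2)) - Real.log (p1 / (1 - p1)) := by
        rw [hD]; linarith
      have h7 : 0 ≤ κ * p1 * θ ^ 4 * s / 12 := by positivity
      have h8 := mul_le_mul_of_nonneg_left h6 h7
      have h9 : κ * p1 * θ ^ 4 * s / 12 * D = κ * p1 * θ ^ 4 * D / 12 * s := by ring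
      rw [h9] at h8
      linarith
    · unfold fr fw
      exact Ex_nonneg hp20 hp21 (by linarith) (fun ω _ => ind_nonneg _)
  · have ha2 : (0 : ℝ) ≤ (a : ℝ) ^ 2 := by positivity
    nlinarith [mul_le_mul_of_nonneg_left hx10 ha2]

end Pool.Agent.FKP
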