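import Pool.Agent.FKP.Basic
import Pool.Agent.FKP.Lem

/-!
# FKP: p_CUT, the edge boundary of a connected set with connected complement in a box
-/

set_option autoImplicit false

namespace Pool.Agent.FKP

open Pool.Agent.FKT

namespace CUT_

lemma mes {n : ℕ} (J : Finset (Vx n)) (e : Ed n) : e ∈ es J ↔ e.1 ∈ J ∧ tgt e ∈ J := by
  unfold es
  simp only [Finset.mem_filter, Finset.mem_product, Finset.mem_univ, and_true]

lemma mem_bdy {n : ℕ} (J W : Finset (Vx n)) (e : Ed n) :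
    e ∈ bdy J W ↔ (e.1 ∈ J ∧ tgt e ∈ J) ∧ ¬ (e.1 ∈ W ↔ tgt e ∈ W) := by
  unfold bdy
  rw [Finset.mem_filter, mes]

lemma const_of_con {n : ℕ} (S : Finset (Vx n)) (f : Vx n → ZMod 2)
    (hf : ∀ e ∈ es S, f e.1 = f (tgt e)) {x y : Vx n} (h : Cf (es S) x y) : f x = f y := by
  unfold Cf Cn FKT.Con at h
  induction h with
  | rel a b hab =>
    rcases hab with hab | ⟨e, he, rfl, rfl⟩
    · exact hab.elim
    · exact hf e he
  | refl a => rfl
  | symm a b _ ih => exact ih.symm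
  | trans a b c _ _ h1 h2 => exact h1.trans h2

/-- The number of boundary edges of a square is even. -/
lemma parity (p00 p10 p01 p11 : Prop) [Decidable p00] [Decidable p10] [Decidable p01]
    [Decidable p11] :
    (if ¬ (p00 ↔ p10) then (1 : ZMod 2) else 0) + (if ¬ (p10 ↔ p11) then 1 else 0) +
      (if ¬ (p01 ↔ p11) then 1 else 0) + (if ¬ (p00 ↔ p01) then 1 else 0) = 0 := by
  by_cases h1 : p00 <;> by_cases h2 : p10 <;> by_cases h3 : p01 <;> by_cases h4 : p11 <;>
    simp [h1, h2, h3, h4] <;> decide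

lemma icc {n : ℕ} {a b x : Vx n} {i j : Fin n} (hx : x ∈ Finset.Icc a b)
    (hx' : x + Pi.single i 1 + Pi.single j 1 ∈ Finset.Icc a b) :
    x + Pi.single i 1 ∈ Finset.Icc a b ∧ x + Pi.single j 1 ∈ Finset.Icc a b := by
  simp only [Finset.mem_Icc] at *
  have hs : ∀ k : Fin n, (0 : Vx n) ≤ Pi.single k 1 := fun k => Pi.single_nonneg.2 zero_le_one
  refine ⟨⟨?_, ?_⟩, ⟨?_, ?_⟩⟩
  · exact hx.1.trans (le_add_of_nonneg_right (hs i))
  · exact (le_add_of_nonneg_right (hs j)).trans hx'.2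
  · exact hx.1.trans (le_add_of_nonneg_right (hs j))
  · refine le_trans ?_ hx'.2
    rw [add_right_comm]
    exact le_add_of_nonneg_right (hs i)

end CUT_

open CUT_ in
theorem p_CUT (h_PON : T_PON) : T_CUT := by
  classical
  intro n a b W hW hcW hcJ e he e' he'
  set J := Finset.Icc a b with hJ
  set Rel : Ed n → Ed n → Prop := fun e1 e2 => e1 ∈ bdy J W ∧ e2 ∈ bdy J W ∧ Sq e1 e2
  by_contra hcon
  have hP : ∀ y, Relation.ReflTransGen Rel e y → y ∈ bdy J W := by
    intro y hy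
    induction hy with
    | refl => exact he
    | tail _ h _ => exact h.2.1
  set g : Ed n → ZMod 2 := fun y => if Relation.ReflTransGen Rel e y then 1 else 0 with hg
  obtain ⟨f, hf⟩ := h_PON n a b g (by
    intro x i j hij hx hx'
    obtain ⟨hxi, hxj⟩ := icc hx hx'
    have hx'' : x + Pi.single j 1 + Pi.single i 1 ∈ J := by
      rw [add_right_comm]
      exact hx'
    by_cases hex : ∃ z, InSq x i j z ∧ Relation.ReflTransGen Rel e z
    · obtain ⟨z, hz1, hz2⟩ := hex
      have key : ∀ y, InSq x i j y → g y = if y ∈ bdy J W then 1 else 0 := by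
        intro y hy
        by_cases hyb : y ∈ bdy J W
        · rw [if_pos hyb, hg]
          simp only
          rw [if_pos (hz2.tail ⟨hP z hz2, hyb, x, i, j, hij, hz1, hy⟩)]
        · rw [if_neg hyb, hg]
          simp only
          rw [if_neg fun h => hyb (hP y h)]
      rw [key _ (Or.inl rfl), key _ (Or.inr (Or.inr (Or.inr rfl))),
        key _ (Or.inr (Or.inr (Or.inl rfl))), key _ (Or.inr (Or.inl rfl))]
      have e1 : (x, i) ∈ bdy J W ↔ ¬ (x ∈ W ↔ x + Pi.single i 1 ∈ W) := by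
        rw [mem_bdy]
        exact and_iff_right ⟨hx, hxi⟩
      have e2 : (x + Pi.single i 1, j) ∈ bdy J W ↔
          ¬ (x + Pi.single i 1 ∈ W ↔ x + Pi.single i 1 + Pi.single j 1 ∈ W) := by
        rw [mem_bdy]
        exact and_iff_right ⟨hxi, hx'⟩
      have e3 : (x + Pi.single j 1, i) ∈ bdy J W ↔
          ¬ (x + Pi.single j 1 ∈ W ↔ x + Pi.single i 1 + Pi.single j 1 ∈ W) := by
        rw [mem_bdy, add_right_comm x (Pi.single i 1) (Pi.single j 1)]
        exact and_iff_right ⟨hxj, hx''⟩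
      have e4 : (x, j) ∈ bdy J W ↔ ¬ (x ∈ W ↔ x + Pi.single j 1 ∈ W) := by
        rw [mem_bdy]
        exact and_iff_right ⟨hx, hxj⟩
      simp only [e1, e2, e3, e4]
      exact parity (x ∈ W) (x + Pi.single i 1 ∈ W) (x + Pi.single j 1 ∈ W)
        (x + Pi.single i 1 + Pi.single j 1 ∈ W)
    · have key : ∀ y, InSq x i j y → g y = 0 := by
        intro y hy
        rw [hg]
        simp only
        rw [if_neg fun h => hex ⟨y, hy, h⟩]
      rw [key _ (Or.inl rfl), key _ (Or.inr (Or.inr (Or.inr rfl))),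
        key _ (Or.inr (Or.inr (Or.inl rfl))), key _ (Or.inr (Or.inl rfl))]
      simp)
  have hin : ∀ S : Finset (Vx n), S ⊆ J → (∀ x ∈ S, ∀ y ∈ S, (x ∈ W ↔ y ∈ W)) →
      ∀ y ∈ es S, f y.1 = f (tgt y) := by
    intro S hS hSW y hy
    rw [mes] at hy
    have h1 := hf y ((mes J y).2 ⟨hS hy.1, hS hy.2⟩)
    have h2 : g y = 0 := by
      rw [hg]
      simp only
      rw [if_neg fun h => ((mem_bdy J W y).1 (hP y h)).2 (hSW _ hy.1 _ hy.2)]
    rw [h2] at h1
    have h3 : f y.1 + f (tgt y) + f (tgt y) = f (tgt y) := by rw [← h1, zero_add]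
    rwa [add_assoc, CharTwo.add_self_eq_zero, add_zero] at h3
  have hfW : ∀ x ∈ W, ∀ y ∈ W, f x = f y := fun x hx y hy =>
    const_of_con W f (hin W hW fun x hx y hy => ⟨fun _ => hy, fun _ => hx⟩) (hcW x hx y hy)
  have hfJ : ∀ x ∈ J \ W, ∀ y ∈ J \ W, f x = f y := fun x hx y hy =>
    const_of_con (J \ W) f (hin (J \ W) Finset.sdiff_subset fun x hx y hy =>
      ⟨fun h => absurd h (Finset.mem_sdiff.1 hx).2, fun h => absurd h (Finset.mem_sdiff.1 hy).2⟩)
      (hcJ x hx y hy)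
  have hends : ∀ y ∈ bdy J W, ∃ u ∈ W, ∃ v ∈ J \ W, f u + f v = g y := by
    intro y hy
    obtain ⟨⟨h1, h2⟩, h3⟩ := (mem_bdy J W y).1 hy
    have h4 := hf y ((mes J y).2 ⟨h1, h2⟩)
    by_cases h5 : y.1 ∈ W
    · have h6 : tgt y ∉ W := fun h => h3 ⟨fun _ => h, fun _ => h5⟩
      exact ⟨_, h5, _, Finset.mem_sdiff.2 ⟨h2, h6⟩, h4.symm⟩
    · have h6 : tgt y ∈ W := by
        by_contra h
        exact h3 ⟨fun h' => absurd h' h5, fun h' => absurd h' h⟩
      exact ⟨_, h6, _, Finset.mem_sdiff.2 ⟨h1, h5⟩, by rw [add_comm]; exact h4.symm⟩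
  obtain ⟨u, hu, v, hv, huv⟩ := hends e he
  obtain ⟨u', hu', v', hv', huv'⟩ := hends e' he'
  have h1 : g e = 1 := by
    rw [hg]
    simp only
    rw [if_pos Relation.ReflTransGen.refl]
  have h2 : g e' = 0 := by
    rw [hg]
    simp only
    rw [if_neg hcon]
  rw [h1, hfW u hu u' hu', hfJ v hv v' hv', huv', h2] at huv
  exact zero_ne_one huv

end Pool.Agent.FKP
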