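import Pool.Agent.FKP.Basic
import Pool.Agent.FKP.Lem

/-!
# Project FKP, DER: the derivative in the log-odds
-/

set_option autoImplicit false

namespace Pool.Agent.FKP

open Filter MeasureTheory Pool.Agent.FKT

namespace DER_

section

variable {V E : Type} (s t : E → V) (R : V → V → Prop) (U : Finset V) (G : Finset E) (q : ℝ)

/-- The sum with the weights `exp (l |ω|) q^ncl`. -/
noncomputable def A (g : Finset E → ℝ) (l : ℝ) : ℝ :=
  ∑ ω ∈ G.powerset, Real.exp (l * (ω.card : ℝ)) * (q ^ ncl s t R U (ω : Set E) * g ω)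

theorem bw_lg (l : ℝ) {ω : Finset E} (h : ω ⊆ G) :
    bw (lg l) G ω = Real.exp (l * (ω.card : ℝ)) / (1 + Real.exp l) ^ G.card := by
  have h1 : (0 : ℝ) < 1 + Real.exp l := by positivity
  have h2 : 1 - lg l = 1 / (1 + Real.exp l) := by
    unfold lg
    field_simp
    ring
  have h3 : ω.card ≤ G.card := Finset.card_le_card h
  have h4 : Real.exp (l * (ω.card : ℝ)) = Real.exp l ^ ω.card := by
    rw [← Real.exp_nat_mul, mul_comm]
  have h5 : (1 + Real.exp l) ^ G.card =
      (1 + Real.exp l) ^ ω.card * (1 + Real.exp l) ^ (G.card - ω.card) := by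
    rw [← pow_add]
    congr 1
    omega
  unfold bw
  rw [h2, h4, h5]
  unfold lg
  rw [div_pow, div_pow, one_pow]
  field_simp

theorem Ex_lg (g : Finset E → ℝ) (l : ℝ) :
    Ex s t R U G (lg l) q g = A s t R U G q g l / A s t R U G q (fun _ => 1) l := by
  have h1 : (0 : ℝ) < (1 + Real.exp l) ^ G.card := by positivity
  have h2 : ∀ g : Finset E → ℝ, ∑ ω ∈ G.powerset, wt s t R U G (lg l) q ω * g ω =
      A s t R U G q g l / (1 + Real.exp l) ^ G.card := by
    intro g
    unfold A
    rw [Finset.sum_div]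
    refine Finset.sum_congr rfl fun ω hω => ?_
    unfold wt
    rw [bw_lg G l (Finset.mem_powerset.1 hω)]
    ring
  have h3 : ∑ ω ∈ G.powerset, wt s t R U G (lg l) q ω =
      A s t R U G q (fun _ => 1) l / (1 + Real.exp l) ^ G.card := by
    rw [← h2 (fun _ => 1)]
    exact Finset.sum_congr rfl fun ω _ => (mul_one _).symm
  unfold Ex
  rw [h2, h3, div_div_div_cancel_right₀ h1.ne']

theorem A_pos (hq : 0 < q) (l : ℝ) : 0 < A s t R U G q (fun _ => 1) l := by
  unfold A
  refine Finset.sum_pos (fun ω _ => ?_) ⟨∅, Finset.empty_mem_powerset _⟩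
  positivity

theorem A_deriv (g : Finset E → ℝ) (l : ℝ) :
    HasDerivAt (A s t R U G q g) (A s t R U G q (fun ω => g ω * (ω.card : ℝ)) l) l := by
  unfold A
  refine HasDerivAt.fun_sum fun ω _ => ?_
  have h1 : HasDerivAt (fun l : ℝ => l * (ω.card : ℝ)) (ω.card : ℝ) l := by
    simpa using (hasDerivAt_id l).mul_const (ω.card : ℝ)
  have h2 := (h1.exp).mul_const (q ^ ncl s t R U (ω : Set E) * g ω)
  have h3 : Real.exp (l * (ω.card : ℝ)) * (q ^ ncl s t R U (ω : Set E) * (g ω * (ω.card : ℝ))) =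
      Real.exp (l * (ω.card : ℝ)) * (ω.card : ℝ) * (q ^ ncl s t R U (ω : Set E) * g ω) := by
    ring
  rw [h3]
  exact h2

end

end DER_

open DER_ in
theorem p_DER : T_DER := by
  intro V E s t R U G q hq f l
  have h1 := A_deriv s t R U G q f l
  have h2 := A_deriv s t R U G q (fun _ => 1) l
  have h3 := A_pos s t R U G q hq l
  have h4 := h1.div h2 h3.ne'
  have h5 : (fun l : ℝ => Ex s t R U G (lg l) q f) =
      fun l : ℝ => A s t R U G q f l / A s t R U G q (fun _ => 1) l := by
    funext l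
    exact Ex_lg s t R U G q f l
  have h6 : A s t R U G q (fun ω => 1 * (ω.card : ℝ)) l =
      A s t R U G q (fun ω => (ω.card : ℝ)) l := by
    simp only [one_mul]
  rw [h5, Ex_lg, Ex_lg, Ex_lg]
  rw [h6] at h4
  refine h4.congr_deriv ?_
  field_simp

end Pool.Agent.FKP
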