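import Pool.Agent.FKP.Basic
import Pool.Agent.FKP.Lem

set_option autoImplicit false

/-!
# FKP-DMC: monotonicity in the domain
-/

namespace Pool.Agent.FKP

open Pool.Agent.FKT

theorem p_DMC (h_DMF : T_DMF) : T_DMC := by
  intro V E _ s t R U U1 G G1 p q hp hp1 hq hG hU hE f hf
  have h1 := h_DMF V E s t R U U1 G G1 p q hp hp1 hq hG hU hE (fun _ => f)
    (fun _ a b hab hb => hf a b hab hb)
  have h2 : Ex s t R U G p q (fun _ => Ex s t (no V) U1 G1 p q f) =
      Ex s t (no V) U1 G1 p q f := Ex_const hp hp1 (lt_of_lt_of_le one_pos hq) _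
  rw [h2] at h1
  exact h1

end Pool.Agent.FKP
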