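import Pool.Agent.FKP.Basic
import Pool.Agent.FKP.Lem

/-!
# Project FKP: the law inside an edge set dominates the free law
-/

set_option autoImplicit false

namespace Pool.Agent.FKP

open Pool.Agent.FKT

theorem p_DMF (h_MAR : T_MAR) (h_HOL : T_HOL) (h_VTX : T_VTX) : T_DMF := by
  intro V E _ s t R U U1 G G1 p q hp hp1 hq hG hU hG1 F hF
  have hq0 : 0 < q := by linarith
  rw [h_MAR V E s t R U G G1 p q hp hp1 hq0 hG F]
  refine Ex_mono hp hp1 hq0 fun ω _ => ?_
  rw [← h_VTX V E s t (no V) U1 U G1 p q hq0 hU (fun a b h => h.elim) hG1]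
  exact h_HOL V E s t (no V) (wir s t R ((ω \ G1 : Finset E) : Set E)) U G1 p p q hp le_rfl hp1
    hq (fun a b h => h.elim) (fun e he => ⟨hU (hG1 e he).1, hU (hG1 e he).2⟩)
    (F (ω \ G1)) (fun a b hab hb => hF _ a b hab hb)

end Pool.Agent.FKP
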