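import Pool.Agent.FKP.Basic
import Pool.Agent.FKP.Lem

/-!
# Project FKP, DMW: domination by the wired box
-/

set_option autoImplicit false

namespace Pool.Agent.FKP

open Pool.Agent.FKT

namespace DMW_

section general

variable {V E : Type} {s t : E → V}

/-- A function which is constant along the steps is constant on the clusters. -/
theorem con_inv {R : V → V → Prop} {O : Set E} {γ : Type} (P : V → γ)
    (h : ∀ a b, Step s t R O a b → P a = P b) {a b : V} (hab : Con s t R O a b) : P a = P b := by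
  unfold FKT.Con at hab
  induction hab with
  | rel x y hxy => exact h x y hxy
  | refl x => rfl
  | symm x y _ ih => exact ih.symm
  | trans x y z _ _ ih1 ih2 => exact ih1.trans ih2

theorem clus_eq {R : V → V → Prop} {O : Set E} {a b : V} (h : Con s t R O a b) :
    clus s t R O a = clus s t R O b := by
  ext z
  exact ⟨fun hz => Con_trans (Con_symm h) hz, fun hz => Con_trans h hz⟩

/-- The wiring by the edges `α` and by the wired set `W`. -/
def R2 (s t : E → V) (α : Set E) (W : Set V) : V → V → Prop := fun a b =>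
  wir s t (no V) α a b ∨ (a ∈ W ∧ b ∈ W)

/-- The wiring by the wired set `W`. -/
def WW (W : Set V) : V → V → Prop := fun a b => a ∈ W ∧ b ∈ W

variable {S W : Set V} {α : Set E}

/-- Inside `S` the connections are those of the wired graph. -/
theorem con_iff (hWS : W ⊆ S) (hα : ∀ e ∈ α, (s e ∈ S → s e ∈ W) ∧ (t e ∈ S → t e ∈ W))
    {β : Set E} (hβ : ∀ e ∈ β, s e ∈ S ∧ t e ∈ S) {x y : V} (hx : x ∈ S) (hy : y ∈ S) :
    Con s t (R2 s t α W) β x y ↔ Con s t (WW W) β x y := by
  constructor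
  · intro h
    have key := con_inv (s := s) (t := t) (R := R2 s t α W) (O := β)
      (fun x : V => {z : V | (x ∈ S ∧ Con s t (WW W) β x z) ∨
        (x ∉ S ∧ ∃ w ∈ W, Con s t (R2 s t α W) ∅ x w ∧ Con s t (WW W) β w z)}) ?_ h
    · have hy' : y ∈ {z : V | (y ∈ S ∧ Con s t (WW W) β y z) ∨
          (y ∉ S ∧ ∃ w ∈ W, Con s t (R2 s t α W) ∅ y w ∧ Con s t (WW W) β w z)} :=
        Or.inl ⟨hy, Con_refl _ _⟩
      have hy2 : y ∈ {z : V | (x ∈ S ∧ Con s t (WW W) β x z) ∨
          (x ∉ S ∧ ∃ w ∈ W, Con s t (R2 s t α W) ∅ x w ∧ Con s t (WW W) β w z)} := by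
        rw [key]
        exact hy'
      rcases hy2 with h2 | h2
      · exact h2.2
      · exact absurd hx h2.1
    · intro a b hab
      have hWW : ∀ w w' : V, w ∈ W → w' ∈ W → Con s t (WW W) β w w' := fun w w' h h' =>
        Con_wired (R := WW W) ⟨h, h'⟩
      have both : ∀ a b : V, a ∈ S → b ∈ S → Con s t (WW W) β a b →
          {z : V | (a ∈ S ∧ Con s t (WW W) β a z) ∨
            (a ∉ S ∧ ∃ w ∈ W, Con s t (R2 s t α W) ∅ a w ∧ Con s t (WW W) β w z)} =
          {z : V | (b ∈ S ∧ Con s t (WW W) β b z) ∨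
            (b ∉ S ∧ ∃ w ∈ W, Con s t (R2 s t α W) ∅ b w ∧ Con s t (WW W) β w z)} := by
        intro a b ha hb hab
        ext z
        constructor
        · rintro (h | h)
          · exact Or.inl ⟨hb, Con_trans (Con_symm hab) h.2⟩
          · exact absurd ha h.1
        · rintro (h | h)
          · exact Or.inl ⟨ha, Con_trans hab h.2⟩
          · exact absurd hb h.1
      have mixed : ∀ a b : V, a ∈ W → b ∉ S → Con s t (R2 s t α W) ∅ b a →
          {z : V | (a ∈ S ∧ Con s t (WW W) β a z) ∨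
            (a ∉ S ∧ ∃ w ∈ W, Con s t (R2 s t α W) ∅ a w ∧ Con s t (WW W) β w z)} =
          {z : V | (b ∈ S ∧ Con s t (WW W) β b z) ∨
            (b ∉ S ∧ ∃ w ∈ W, Con s t (R2 s t α W) ∅ b w ∧ Con s t (WW W) β w z)} := by
        intro a b ha hb hab
        ext z
        constructor
        · rintro (h | h)
          · exact Or.inr ⟨hb, a, ha, hab, h.2⟩
          · exact absurd (hWS ha) h.1
        · rintro (h | ⟨_, w, hw, _, h2⟩)
          · exact absurd h.1 hb
          · exact Or.inl ⟨hWS ha, Con_trans (hWW a w ha hw) h2⟩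
      rcases hab with h1 | ⟨e, he, rfl, rfl⟩
      · rcases h1 with h1 | h1
        · rcases h1 with h1 | ⟨e, he, rfl, rfl⟩
          · exact h1.elim
          · have hst : Con s t (R2 s t α W) ∅ (s e) (t e) :=
              Con_wired (R := R2 s t α W) (Or.inl (Or.inr ⟨e, he, rfl, rfl⟩))
            by_cases h1 : s e ∈ S
            · by_cases h2 : t e ∈ S
              · exact both _ _ h1 h2 (hWW _ _ ((hα e he).1 h1) ((hα e he).2 h2))
              · exact mixed _ _ ((hα e he).1 h1) h2 (Con_symm hst)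
            · by_cases h2 : t e ∈ S
              · exact (mixed _ _ ((hα e he).2 h2) h1 hst).symm
              · ext z
                constructor
                · rintro (h | ⟨_, w, hw, hw1, hw2⟩)
                  · exact absurd h.1 h1
                  · exact Or.inr ⟨h2, w, hw, Con_trans (Con_symm hst) hw1, hw2⟩
                · rintro (h | ⟨_, w, hw, hw1, hw2⟩)
                  · exact absurd h.1 h2
                  · exact Or.inr ⟨h1, w, hw, Con_trans hst hw1, hw2⟩
        · exact both _ _ (hWS h1.1) (hWS h1.2) (hWW _ _ h1.1 h1.2)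
      · exact both _ _ (hβ e he).1 (hβ e he).2 (Con_edge he)
  · intro h
    exact Con_mono (fun a b hab => Or.inr hab) (le_refl _) h

/-- Clusters which avoid `S` do not depend on the edges inside `S`. -/
theorem clus_out {R : V → V → Prop} {β : Set E} (hβ : ∀ e ∈ β, s e ∈ S ∧ t e ∈ S) {x : V}
    (hx : ∀ y ∈ S, ¬ Con s t R ∅ x y) : clus s t R β x = clus s t R ∅ x := by
  ext z
  constructor
  · intro hz
    have key := con_inv (s := s) (t := t) (R := R) (O := β)
      (fun y : V => (Con s t R ∅ x y : Prop)) ?_ hz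
    · have h1 : (Con s t R ∅ x x) = Con s t R ∅ x z := key
      show Con s t R ∅ x z
      rw [← h1]
      exact Con_refl _ _
    · intro a b hab
      rcases hab with h1 | ⟨e, he, rfl, rfl⟩
      · have h2 : Con s t R ∅ a b := Con_wired h1
        exact propext ⟨fun h => Con_trans h h2, fun h => Con_trans h (Con_symm h2)⟩
      · exact propext ⟨fun h => absurd h (hx _ (hβ e he).1), fun h => absurd h (hx _ (hβ e he).2)⟩
  · intro hz
    exact Con_mono (fun _ _ h => h) (Set.empty_subset _) hz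

/-- The number of clusters: wired box and the rest. -/
theorem ncl_eq {U U1 : Finset V} (hU : U1 ⊆ U) (hWS : W ⊆ (U1 : Set V))
    (hα : ∀ e ∈ α, (s e ∈ (U1 : Set V) → s e ∈ W) ∧ (t e ∈ (U1 : Set V) → t e ∈ W)) :
    ∃ N : ℕ, ∀ β : Set E, (∀ e ∈ β, s e ∈ (U1 : Set V) ∧ t e ∈ (U1 : Set V)) →
      ncl s t (R2 s t α W) U β = ncl s t (WW W) U1 β + N := by
  refine ⟨({A : Set V | ∃ x ∈ U, clus s t (R2 s t α W) ∅ x = A ∧
    ∀ y ∈ (U1 : Set V), ¬ Con s t (R2 s t α W) ∅ x y}).ncard, fun β hβ => ?_⟩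
  have h1 : clus s t (R2 s t α W) β '' (U : Set V) =
      clus s t (R2 s t α W) β '' (U1 : Set V) ∪
      {A : Set V | ∃ x ∈ U, clus s t (R2 s t α W) ∅ x = A ∧
        ∀ y ∈ (U1 : Set V), ¬ Con s t (R2 s t α W) ∅ x y} := by
    apply Set.Subset.antisymm
    · rintro A ⟨x, hx, rfl⟩
      by_cases h : ∃ y ∈ (U1 : Set V), Con s t (R2 s t α W) β x y
      · obtain ⟨y, hy, hxy⟩ := h
        exact Or.inl ⟨y, hy, (clus_eq hxy).symm⟩
      · refine Or.inr ⟨x, hx, ?_, ?_⟩
        · have h2 : ∀ y ∈ (U1 : Set V), ¬ Con s t (R2 s t α W) ∅ x y := fun y hy h3 =>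
            h ⟨y, hy, Con_mono (fun _ _ h => h) (Set.empty_subset _) h3⟩
          exact (clus_out hβ h2).symm
        · exact fun y hy h3 =>
            h ⟨y, hy, Con_mono (fun _ _ h => h) (Set.empty_subset _) h3⟩
    · rintro A (⟨x, hx, rfl⟩ | ⟨x, hx, rfl, hx2⟩)
      · exact ⟨x, hU hx, rfl⟩
      · exact ⟨x, hx, clus_out hβ hx2⟩
  have hdisj : Disjoint (clus s t (R2 s t α W) β '' (U1 : Set V))
      {A : Set V | ∃ x ∈ U, clus s t (R2 s t α W) ∅ x = A ∧
        ∀ y ∈ (U1 : Set V), ¬ Con s t (R2 s t α W) ∅ x y} := by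
    rw [Set.disjoint_left]
    rintro A ⟨y, hy, rfl⟩ ⟨x, _, hx, hx2⟩
    refine hx2 y hy ?_
    have h2 : y ∈ clus s t (R2 s t α W) ∅ x := by
      rw [hx]
      exact Con_refl _ _
    exact h2
  have hfin : (clus s t (R2 s t α W) β '' (U : Set V)).Finite := U.finite_toSet.image _
  have hfin2 := hfin
  rw [h1] at hfin2
  unfold ncl
  rw [h1, Set.ncard_union_eq hdisj (hfin2.subset Set.subset_union_left)
    (hfin2.subset Set.subset_union_right)]
  congr 1
  have h3 : (fun A : Set V => A ∩ (U1 : Set V)) '' (clus s t (R2 s t α W) β '' (U1 : Set V)) =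
      (fun A : Set V => A ∩ (U1 : Set V)) '' (clus s t (WW W) β '' (U1 : Set V)) := by
    rw [Set.image_image, Set.image_image]
    apply Set.image_congr
    intro y hy
    ext z
    constructor
    · rintro ⟨hz, hzU⟩
      exact ⟨(con_iff hWS hα hβ hy hzU).mp hz, hzU⟩
    · rintro ⟨hz, hzU⟩
      exact ⟨(con_iff hWS hα hβ hy hzU).mpr hz, hzU⟩
  have hinj : ∀ R : V → V → Prop, Set.InjOn (fun A : Set V => A ∩ (U1 : Set V))
      (clus s t R β '' (U1 : Set V)) := by
    rintro R _ ⟨y, hy, rfl⟩ _ ⟨z, hz, rfl⟩ hyz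
    have h4 : y ∈ clus s t R β z ∩ (U1 : Set V) := by
      have h5 : y ∈ clus s t R β y ∩ (U1 : Set V) := ⟨Con_refl _ _, hy⟩
      have h6 : clus s t R β y ∩ (U1 : Set V) = clus s t R β z ∩ (U1 : Set V) := hyz
      rw [h6] at h5
      exact h5
    exact clus_eq (Con_symm h4.1)
  rw [← (hinj (R2 s t α W)).ncard_image, h3, (hinj (WW W)).ncard_image]

/-- A common factor of the weights cancels. -/
theorem Ex_eq_of_ncl {R R' : V → V → Prop} {U U' : Finset V} {G : Finset E} {p q : ℝ} {N : ℕ}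
    (hq : 0 < q)
    (h : ∀ β : Finset E, β ⊆ G → ncl s t R U (β : Set E) = ncl s t R' U' (β : Set E) + N)
    (f : Finset E → ℝ) : Ex s t R U G p q f = Ex s t R' U' G p q f := by
  have hw : ∀ β ∈ G.powerset, wt s t R U G p q β = q ^ N * wt s t R' U' G p q β := by
    intro β hβ
    unfold wt
    rw [h β (Finset.mem_powerset.mp hβ), pow_add]
    ring
  unfold Ex
  rw [Finset.sum_congr rfl hw, ← Finset.mul_sum]
  have h2 : ∑ ω ∈ G.powerset, wt s t R U G p q ω * f ω =
      q ^ N * ∑ ω ∈ G.powerset, wt s t R' U' G p q ω * f ω := by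
    rw [Finset.mul_sum]
    refine Finset.sum_congr rfl fun β hβ => ?_
    rw [hw β hβ]
    ring
  rw [h2]
  exact mul_div_mul_left _ _ (pow_pos hq N).ne'

end general

/-- An edge leaving the box starts at the boundary. -/
theorem src_bd {d : ℕ} {v : Vx d} {r : ℕ} {e : Ed d} (he : e ∉ es (bx v r)) (h : e.1 ∈ bx v r) :
    e.1 ∈ bd v r := by
  have h1 : tgt e ∉ bx v r := fun h2 => he (mem_es.mpr ⟨h, h2⟩)
  unfold bd
  rw [Finset.mem_filter]
  refine ⟨h, ?_⟩
  unfold bx at h h1
  rw [Finset.mem_Icc] at h h1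
  by_contra hcon
  push Not at hcon
  apply h1
  constructor
  · intro i
    have h2 := h.1 i
    by_cases hi : i = e.2
    · subst hi
      simp only [tgt, Pi.add_apply, Pi.single_eq_same]
      simp only at h2
      omega
    · simp only [tgt, Pi.add_apply, Pi.single_eq_of_ne hi]
      simp only at h2
      omega
  · intro i
    have h2 := h.2 i
    by_cases hi : i = e.2
    · subst hi
      have h3 := (hcon e.2).2
      simp only [tgt, Pi.add_apply, Pi.single_eq_same]
      simp only at h2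
      omega
    · simp only [tgt, Pi.add_apply, Pi.single_eq_of_ne hi]
      simp only at h2
      omega

/-- An edge entering the box ends at the boundary. -/
theorem tgt_bd {d : ℕ} {v : Vx d} {r : ℕ} {e : Ed d} (he : e ∉ es (bx v r))
    (h : tgt e ∈ bx v r) : tgt e ∈ bd v r := by
  have h1 : e.1 ∉ bx v r := fun h2 => he (mem_es.mpr ⟨h2, h⟩)
  unfold bd
  rw [Finset.mem_filter]
  refine ⟨h, ?_⟩
  unfold bx at h h1
  rw [Finset.mem_Icc] at h h1
  by_contra hcon
  push Not at hcon
  apply h1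
  constructor
  · intro i
    have h2 := h.1 i
    have h3 := (hcon i).1
    by_cases hi : i = e.2
    · subst hi
      simp only [tgt, Pi.add_apply, Pi.single_eq_same] at h2 h3
      simp only
      omega
    · simp only [tgt, Pi.add_apply, Pi.single_eq_of_ne hi] at h2 h3
      simp only
      omega
  · intro i
    have h2 := h.2 i
    by_cases hi : i = e.2
    · subst hi
      simp only [tgt, Pi.add_apply, Pi.single_eq_same] at h2
      simp only
      omega
    · simp only [tgt, Pi.add_apply, Pi.single_eq_of_ne hi] at h2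
      simp only
      omega

end DMW_

open DMW_ in
theorem p_DMW (h_MAR : T_MAR) (h_HOL : T_HOL) : T_DMW := by
  intro d Λ v r p q hp hp1 hq hΛ F hF
  have hq0 : 0 < q := by linarith
  unfold fr fw
  rw [h_MAR (Vx d) (Ed d) Prod.fst tgt (no (Vx d)) Λ (es Λ) (es (bx v r)) p q hp hp1 hq0
    (es_mono hΛ) F]
  refine Ex_mono hp hp1 hq0 fun ω hω => ?_
  have hends : ∀ e ∈ es (bx v r), e.1 ∈ Λ ∧ tgt e ∈ Λ := fun e he => by
    rw [mem_es] at he
    exact ⟨hΛ he.1, hΛ he.2⟩
  have h1 := h_HOL (Vx d) (Ed d) Prod.fst tgt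
    (wir Prod.fst tgt (no (Vx d)) ((ω \ es (bx v r) : Finset (Ed d)) : Set (Ed d)))
    (R2 Prod.fst tgt ((ω \ es (bx v r) : Finset (Ed d)) : Set (Ed d)) (bd v r : Set (Vx d)))
    Λ (es (bx v r)) p p q hp (le_refl _) hp1 hq (fun a b h => Or.inl h) hends
    (F (ω \ es (bx v r))) (fun a b hab hb => hF _ a b hab hb)
  refine h1.trans (le_of_eq ?_)
  obtain ⟨N, hN⟩ := ncl_eq (s := (Prod.fst : Ed d → Vx d)) (t := tgt)
    (W := (bd v r : Set (Vx d))) (α := ((ω \ es (bx v r) : Finset (Ed d)) : Set (Ed d)))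
    hΛ (by
      intro w hw
      have hw' : w ∈ bd v r := hw
      unfold bd at hw'
      exact (Finset.mem_filter.mp hw').1)
    (by
      intro e he
      have he' : e ∉ es (bx v r) := (Finset.mem_sdiff.mp (Finset.mem_coe.mp he)).2
      exact ⟨fun h => src_bd he' h, fun h => tgt_bd he' h⟩)
  show _ = Ex Prod.fst tgt (WW (bd v r : Set (Vx d))) (bx v r) (es (bx v r)) p q _
  refine Ex_eq_of_ncl hq0 (N := N) (fun β hβ => hN _ fun e he => ?_) _
  have h2 := hβ (Finset.mem_coe.mp he)
  rw [mem_es] at h2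
  exact h2

end Pool.Agent.FKP
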