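import Pool.Agent.FKP.PartC
import Pool.Agent.FKP.Lem

/-!
# Project FKP: target ENT
-/

set_option autoImplicit false

namespace Pool.Agent.FKP

open Filter MeasureTheory Pool.Agent.FKT

namespace ENT_

/-- A set closed under open steps in both directions contains the cluster. -/
theorem closed {d : ℕ} {ω : Finset (Ed d)} (D : Set (Vx d))
    (h : ∀ e ∈ ω, (e.1 ∈ D ↔ tgt e ∈ D)) {a b : Vx d} (hab : Cf ω a b) : a ∈ D ↔ b ∈ D := by
  unfold Cf Cn FKT.Con at hab
  induction hab with
  | rel x y hxy =>
    rcases hxy with h' | ⟨e, he, h1, h2⟩
    · exact absurd h' (by simp [no])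
    · rw [← h1, ← h2]
      exact h e he
  | refl x => exact Iff.rfl
  | symm x y _ ih => exact ih.symm
  | trans x y z _ _ ih1 ih2 => exact ih1.trans ih2

theorem tgt_i {d : ℕ} (e : Ed d) (i : Fin d) : e.1 i ≤ tgt e i ∧ tgt e i ≤ e.1 i + 1 := by
  unfold tgt
  rw [Pi.add_apply]
  by_cases h : i = e.2
  · rw [h, Pi.single_eq_same]
    constructor <;> linarith
  · rw [Pi.single_eq_of_ne h]
    constructor <;> linarith

end ENT_

open ENT_ in
theorem p_ENT : T_ENT := by
  intro d v n i c ω hω a b ha hb hab
  by_contra hcon
  push Not at hcon
  -- all points of the cluster have height `< c`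
  have hlow : ∀ x, Cf (ω ∩ elo v n i c) a x → x i < c := by
    intro x hx
    by_contra hxc
    have hxc' : c ≤ x i := not_lt.1 hxc
    -- the set of the points which are in the cluster and low, or not in the cluster
    have key : ∀ y, Cf (ω ∩ elo v n i c) a y → (a i < c ↔ y i < c) := by
      intro y hy
      have hind : ∀ x y : Vx d, Cn ((ω ∩ elo v n i c : Finset (Ed d)) : Set (Ed d)) x y →
          Cf (ω ∩ elo v n i c) a x → (x i < c ↔ y i < c) := by
        intro x y hxy
        unfold Cn FKT.Con at hxy
        induction hxy with
        | rel x y hxy =>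
          intro hax
          rcases hxy with h' | ⟨e, he, h1, h2⟩
          · exact absurd h' (by simp [no])
          · subst h1 h2
            have hay : Cf (ω ∩ elo v n i c) a (tgt e) :=
              Con_trans hax (Con_edge (s := Prod.fst) (t := tgt) he)
            have n2 : tgt e i ≠ c := fun h0 => hcon _ h0 hay
            have hi := tgt_i e i
            constructor
            · intro h
              omega
            · intro h
              omega
        | refl x => exact fun _ => Iff.rfl
        | symm x y hxy ih =>
          intro hay
          exact (ih (Con_trans hay (Con_symm hxy))).symm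
        | trans x y z hxy hyz ih1 ih2 =>
          intro hax
          exact (ih1 hax).trans (ih2 (Con_trans hax hxy))
      exact hind a y hy (Con_refl _ _)
    have := (key x hx).1 ha
    omega
  have hb' := (closed {x | Cf (ω ∩ elo v n i c) a x} (by
    intro e he
    have hmem : ∀ x : Vx d, Cf (ω ∩ elo v n i c) a x → (x = e.1 ∨ x = tgt e) →
        e ∈ ω ∩ elo v n i c := by
      intro x hx hxe
      have h1 := hlow x hx
      have h2 := tgt_i e i
      have h3 : e.1 i < c := by
        rcases hxe with rfl | rfl
        · exact h1
        · omega
      rw [Finset.mem_inter]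
      refine ⟨he, ?_⟩
      unfold elo
      rw [Finset.mem_filter]
      exact ⟨hω he, h3⟩
    constructor
    · intro h
      exact Con_trans h (Con_edge (s := Prod.fst) (t := tgt) (hmem _ h (Or.inl rfl)))
    · intro h
      exact Con_trans h (Con_symm (Con_edge (s := Prod.fst) (t := tgt)
        (hmem _ h (Or.inr rfl))))) hab).1 (Con_refl _ _)
  have := hlow b hb'
  omega

end Pool.Agent.FKP
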