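import Pool.Agent.FKP.PartD
import Pool.Agent.FKP.Lem

/-!
# Project FKP: sums over the colourings of the clusters (T_ESC)
-/

set_option autoImplicit false

namespace Pool.Agent.FKP

open Filter MeasureTheory Pool.Agent.FKT

namespace ESC_

section

variable {V E : Type}

/-- Connection as an equivalence relation. -/
def sd (s t : E → V) (R : V → V → Prop) (O : Set E) : Setoid V :=
  ⟨Con s t R O, Relation.EqvGen.is_equivalence _⟩

theorem clus_eq_iff (s t : E → V) (R : V → V → Prop) (O : Set E) (a b : V) :
    clus s t R O a = clus s t R O b ↔ Con s t R O a b := by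
  constructor
  · intro h
    have h1 : b ∈ clus s t R O a := by
      rw [h]
      exact Con_refl O b
    exact h1
  · intro h
    ext v
    exact ⟨fun h' => Con_trans (Con_symm h) h', fun h' => Con_trans h h'⟩

theorem ncl_eq [DecidableEq V] [Fintype V] (s t : E → V) (R : V → V → Prop) (O : Set E) :
    ncl s t R Finset.univ O = Nat.card (Quotient (sd s t R O)) := by
  unfold ncl
  rw [Finset.coe_univ, Set.image_univ]
  let f : Quotient (sd s t R O) → Set V :=
    Quotient.lift (clus s t R O) fun a b h => (clus_eq_iff s t R O a b).2 h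
  have hf : Function.Injective f := by
    intro q r
    induction q using Quotient.inductionOn with | _ a =>
    induction r using Quotient.inductionOn with | _ b =>
    intro h
    exact Quotient.sound ((clus_eq_iff s t R O a b).1 h)
  have hr : Set.range (clus s t R O) = Set.range f := by
    ext S
    constructor
    · rintro ⟨a, rfl⟩
      exact ⟨Quotient.mk _ a, rfl⟩
    · rintro ⟨q, rfl⟩
      induction q using Quotient.inductionOn with | _ a =>
      exact ⟨a, rfl⟩
  rw [hr, ← Nat.card_range_of_injective hf, Nat.card_coe_set_eq]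

theorem mem_col [DecidableEq V] [Fintype V] {n : ℕ} [NeZero n] {s t : E → V}
    {R : V → V → Prop} {O : Set E} {T : V} {σ : V → ZMod n} :
    σ ∈ col n s t R O T ↔ (∀ a b, Con s t R O a b → σ a = σ b) ∧ σ T = 0 := by
  unfold col
  simp only [Finset.mem_filter, Finset.mem_univ, true_and]

theorem card_col [DecidableEq V] [Fintype V] (n : ℕ) [NeZero n] (s t : E → V)
    (R : V → V → Prop) (O : Set E) (T : V) :
    (col n s t R O T).card = n ^ (Nat.card (Quotient (sd s t R O)) - 1) := by
  classical
  have : Fintype (Quotient (sd s t R O)) := Fintype.ofFinite _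
  set q0 : Quotient (sd s t R O) := Quotient.mk _ T with hq0
  let S : Quotient (sd s t R O) → Finset (ZMod n) := fun q => if q = q0 then {0} else Finset.univ
  let g : (Quotient (sd s t R O) → ZMod n) → V → ZMod n := fun τ v => τ (Quotient.mk _ v)
  have hg : Function.Injective g := by
    intro τ τ' h
    funext q
    induction q using Quotient.inductionOn with | _ a =>
    exact congrFun h a
  have himg : col n s t R O T = (Fintype.piFinset S).image g := by
    ext σ
    rw [mem_col, Finset.mem_image]
    constructor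
    · rintro ⟨h1, h2⟩
      refine ⟨Quotient.lift σ fun a b h => h1 a b h, ?_, rfl⟩
      rw [Fintype.mem_piFinset]
      intro q
      by_cases hq : q = q0
      · subst hq
        simp only [S, if_true, Finset.mem_singleton]
        exact h2
      · simp only [S, hq, if_false, Finset.mem_univ]
    · rintro ⟨τ, hτ, rfl⟩
      refine ⟨fun a b h => congrArg τ (Quotient.sound h), ?_⟩
      have h1 := Fintype.mem_piFinset.1 hτ q0
      simp only [S, if_true, Finset.mem_singleton] at h1
      exact h1
  rw [himg, Finset.card_image_of_injective _ hg, Fintype.card_piFinset,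
    ← Finset.mul_prod_erase Finset.univ _ (Finset.mem_univ q0)]
  have h1 : (S q0).card = 1 := by simp [S]
  have h2 : ∀ q ∈ Finset.univ.erase q0, (S q).card = n := by
    intro q hq
    have hq' : q ≠ q0 := (Finset.mem_erase.1 hq).1
    simp only [S, hq', if_false, Finset.card_univ, ZMod.card]
  rw [h1, one_mul, Finset.prod_congr rfl h2, Finset.prod_const,
    Finset.card_erase_of_mem (Finset.mem_univ q0), Finset.card_univ, Nat.card_eq_fintype_card]

/-- The sum of the cosines of the angles. -/
theorem sum_cos (n : ℕ) [NeZero n] (hn : 2 ≤ n) :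
    ∑ a : ZMod n, Real.cos (agl n a) = 0 := by
  have h1 : ∑ a : ZMod n, (ZMod.stdAddChar a : ℂ) = 0 := by
    apply AddChar.sum_eq_zero_of_ne_one
    intro h
    have h2 : (ZMod.stdAddChar (1 : ZMod n) : ℂ) = ZMod.stdAddChar (0 : ZMod n) := by
      rw [h]
      simp
    have h3 := ZMod.injective_stdAddChar h2
    have : Fact (1 < n) := ⟨by omega⟩
    exact one_ne_zero h3
  have h2 := congrArg Complex.re h1
  rw [Complex.re_sum, Complex.zero_re] at h2
  rw [← h2]
  refine Finset.sum_congr rfl fun a _ => ?_
  rw [ZMod.stdAddChar_apply, ZMod.toCircle_apply]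
  have h3 : (2 * (Real.pi : ℂ) * Complex.I * (a.val : ℂ) / (n : ℂ)) =
      ((agl n a : ℝ) : ℂ) * Complex.I := by
    unfold agl
    push_cast
    ring
  rw [h3, Complex.exp_ofReal_mul_I_re]

/-- Uniform distribution of a linear functional on a set of colourings. -/
theorem unif [Fintype V] {n : ℕ} [NeZero n] (A : Finset (V → ZMod n)) (u : ZMod n → V → ZMod n)
    (hu : ∀ k σ, σ + u k ∈ A ↔ σ ∈ A) (l : (V → ZMod n) → ZMod n)
    (hl : ∀ k σ, l (σ + u k) = l σ + k) (g : ZMod n → ℝ) :
    (n : ℝ) * ∑ σ ∈ A, g (l σ) = A.card * ∑ a, g a := by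
  have h1 : ∀ k : ZMod n, ∑ σ ∈ A, g (l σ) = ∑ σ ∈ A, g (l σ + k) := by
    intro k
    refine (Finset.sum_equiv (Equiv.addRight (u k)) (fun σ => (hu k σ).symm)
      (fun σ _ => ?_)).symm
    rw [Equiv.coe_addRight, hl]
  have h2 : ∑ _k : ZMod n, ∑ σ ∈ A, g (l σ) = ∑ k : ZMod n, ∑ σ ∈ A, g (l σ + k) :=
    Finset.sum_congr rfl fun k _ => h1 k
  rw [Finset.sum_const, Finset.card_univ, ZMod.card, nsmul_eq_mul, Finset.sum_comm] at h2
  rw [h2]
  have h3 : ∀ σ ∈ A, ∑ k : ZMod n, g (l σ + k) = ∑ a, g a := fun σ _ =>
    Equiv.sum_comp (Equiv.addLeft (l σ)) g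
  rw [Finset.sum_congr rfl h3, Finset.sum_const, nsmul_eq_mul]

open Classical in
/-- The function with the value `k` on the cluster of `x`. -/
noncomputable def bump (n : ℕ) (s t : E → V) (R : V → V → Prop) (O : Set E) (x : V)
    (k : ZMod n) (v : V) : ZMod n := if Con s t R O x v then k else 0

theorem bump_mem [DecidableEq V] [Fintype V] {n : ℕ} [NeZero n] {s t : E → V}
    {R : V → V → Prop} {O : Set E} {T x : V} (hx : ¬ Con s t R O x T) (k : ZMod n)
    (σ : V → ZMod n) :
    σ + bump n s t R O x k ∈ col n s t R O T ↔ σ ∈ col n s t R O T := by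
  have h1 : ∀ a b, Con s t R O a b → bump n s t R O x k a = bump n s t R O x k b := by
    intro a b hab
    have h2 : Con s t R O x a ↔ Con s t R O x b :=
      ⟨fun h => Con_trans h hab, fun h => Con_trans h (Con_symm hab)⟩
    unfold bump
    by_cases h3 : Con s t R O x a
    · rw [if_pos h3, if_pos (h2.1 h3)]
    · rw [if_neg h3, if_neg fun h4 => h3 (h2.2 h4)]
  have h0 : bump n s t R O x k T = 0 := by
    unfold bump
    rw [if_neg hx]
  rw [mem_col, mem_col, Pi.add_apply, h0, add_zero]
  constructor
  · rintro ⟨h3, h4⟩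
    refine ⟨fun a b hab => ?_, h4⟩
    have h5 := h3 a b hab
    rw [Pi.add_apply, Pi.add_apply, h1 a b hab] at h5
    exact add_right_cancel h5
  · rintro ⟨h3, h4⟩
    refine ⟨fun a b hab => ?_, h4⟩
    rw [Pi.add_apply, Pi.add_apply, h1 a b hab, h3 a b hab]

theorem unif_one [DecidableEq V] [Fintype V] {n : ℕ} [NeZero n] {s t : E → V}
    {R : V → V → Prop} {O : Set E} {T x : V} (hx : ¬ Con s t R O x T) (g : ZMod n → ℝ) :
    (n : ℝ) * ∑ σ ∈ col n s t R O T, g (σ x) = (col n s t R O T).card * ∑ a, g a := by
  refine unif (col n s t R O T) (bump n s t R O x) (fun k σ => bump_mem hx k σ)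
    (fun σ => σ x) (fun k σ => ?_) g
  change σ x + bump n s t R O x k x = σ x + k
  unfold bump
  rw [if_pos (Con_refl O x)]

theorem unif_two [DecidableEq V] [Fintype V] {n : ℕ} [NeZero n] {s t : E → V}
    {R : V → V → Prop} {O : Set E} {T x y : V} (hxy : ¬ Con s t R O x y) (g : ZMod n → ℝ) :
    (n : ℝ) * ∑ σ ∈ col n s t R O T, g (σ x - σ y) =
      (col n s t R O T).card * ∑ a, g a := by
  by_cases hx : Con s t R O x T
  · have hy : ¬ Con s t R O y T := fun h => hxy (Con_trans hx (Con_symm h))
    refine unif (col n s t R O T) (fun k => bump n s t R O y (-k))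
      (fun k σ => bump_mem hy (-k) σ) (fun σ => σ x - σ y) (fun k σ => ?_) g
    change σ x + bump n s t R O y (-k) x - (σ y + bump n s t R O y (-k) y) = σ x - σ y + k
    unfold bump
    rw [if_pos (Con_refl O y), if_neg fun h => hxy (Con_symm h)]
    ring
  · refine unif (col n s t R O T) (bump n s t R O x) (fun k σ => bump_mem hx k σ)
      (fun σ => σ x - σ y) (fun k σ => ?_) g
    change σ x + bump n s t R O x k x - (σ y + bump n s t R O x k y) = σ x - σ y + k
    unfold bump
    rw [if_pos (Con_refl O x), if_neg hxy]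
    ring

theorem cos_zero (n : ℕ) : Real.cos (agl n (0 : ZMod n)) = 1 := by
  unfold agl
  rw [ZMod.val_zero]
  simp

end

end ESC_

theorem p_ESC : T_ESC := by
  intro V E _ _ n _ hn s t R O T
  have hN := ESC_.ncl_eq s t R O
  have hcard : ((col n s t R O T).card : ℝ) = (n : ℝ) ^ (ncl s t R Finset.univ O - 1) := by
    rw [ESC_.card_col, hN, Nat.cast_pow]
  have hn0 : (n : ℝ) ≠ 0 := by
    have : (0 : ℝ) < n := by
      have : 0 < n := by omega
      exact_mod_cast this
    exact this.ne'
  refine ⟨?_, hcard, ?_, ?_⟩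
  · rw [hN]
    have : Nonempty (Quotient (ESC_.sd s t R O)) := ⟨Quotient.mk _ T⟩
    exact Nat.card_pos
  · intro x
    by_cases hx : Con s t R O x T
    · rw [ind_true hx, mul_one, ← hcard]
      have h1 : ∀ σ ∈ col n s t R O T, Real.cos (agl n (σ x)) = 1 := by
        intro σ hσ
        obtain ⟨h2, h3⟩ := ESC_.mem_col.1 hσ
        rw [h2 x T hx, h3, ESC_.cos_zero]
      rw [Finset.sum_congr rfl h1]
      simp
    · rw [ind_false hx, mul_zero]
      have h1 := ESC_.unif_one (n := n) hx (fun a => Real.cos (agl n a))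
      rw [ESC_.sum_cos n hn, mul_zero] at h1
      exact (mul_eq_zero.1 h1).resolve_left hn0
  · intro x y
    by_cases hxy : Con s t R O x y
    · rw [ind_true hxy, mul_one, ← hcard]
      constructor
      · have h1 : ∀ σ ∈ col n s t R O T, Real.cos (agl n (σ x - σ y)) = 1 := by
          intro σ hσ
          obtain ⟨h2, h3⟩ := ESC_.mem_col.1 hσ
          rw [h2 x y hxy, sub_self, ESC_.cos_zero]
        rw [Finset.sum_congr rfl h1]
        simp
      · have h1 : ∀ σ ∈ col n s t R O T, ind (σ x = σ y) = 1 := by
          intro σ hσ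
          exact ind_true ((ESC_.mem_col.1 hσ).1 x y hxy)
        rw [Finset.sum_congr rfl h1]
        simp
    · rw [ind_false hxy, mul_zero]
      constructor
      · have h1 := ESC_.unif_two (n := n) (T := T) hxy (fun a => Real.cos (agl n a))
        rw [ESC_.sum_cos n hn, mul_zero] at h1
        exact (mul_eq_zero.1 h1).resolve_left hn0
      · have h1 := ESC_.unif_two (n := n) (T := T) hxy (fun a => ind (a = 0))
        have h2 : ∑ a : ZMod n, ind (a = 0) = 1 := by
          rw [Finset.sum_eq_single (0 : ZMod n)]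
          · exact ind_true rfl
          · intro b _ hb
            exact ind_false hb
          · intro h
            exact absurd (Finset.mem_univ _) h
        rw [h2, mul_one, hcard] at h1
        have h3 : ∀ σ ∈ col n s t R O T, ind (σ x = σ y) = ind (σ x - σ y = 0) := by
          intro σ _
          exact ind_congr sub_eq_zero.symm
        rw [Finset.sum_congr rfl h3, zero_add, sub_zero, ← h1]
        field_simp

end Pool.Agent.FKP
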