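import Pool.Agent.FKP.PartC
import Pool.Agent.FKP.Lem

/-!
# Project FKP, EXA: existence of a large cluster in a box
-/

set_option autoImplicit false

namespace Pool.Agent.FKP

open Pool.Agent.FKT

namespace EXA_

variable {d : ℕ}

theorem mem_slc {v x : Vx d} {i : Fin d} {L : ℕ} {c : ℤ} {n : ℕ} :
    x ∈ slc v i L c n ↔ (c ≤ x i ∧ x i ≤ c + L) ∧ ∀ k, k ≠ i → v k - n ≤ x k ∧ x k ≤ v k + n := by
  unfold slc
  rw [Finset.mem_Icc, Pi.le_def, Pi.le_def]
  constructor
  · rintro ⟨h1, h2⟩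
    refine ⟨⟨?_, ?_⟩, fun k hk => ⟨?_, ?_⟩⟩
    · simpa using h1 i
    · simpa using h2 i
    · simpa [hk] using h1 k
    · simpa [hk] using h2 k
  · rintro ⟨h1, h2⟩
    refine ⟨fun k => ?_, fun k => ?_⟩
    · by_cases hk : k = i
      · subst hk
        simpa using h1.1
      · simpa [hk] using (h2 k hk).1
    · by_cases hk : k = i
      · subst hk
        simpa using h1.2
      · simpa [hk] using (h2 k hk).2

theorem mem_bx {x y : Vx d} {n : ℕ} : y ∈ bx x n ↔ ∀ i, x i - n ≤ y i ∧ y i ≤ x i + n := by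
  unfold bx
  rw [Finset.mem_Icc, Pi.le_def, Pi.le_def]
  exact ⟨fun h i => ⟨h.1 i, h.2 i⟩, fun h => ⟨fun i => (h i).1, fun i => (h i).2⟩⟩

/-- The starting point in the slab. -/
def xs (v : Vx d) (i : Fin d) (h : ℤ) : Vx d := fun k => if k = i then h else v k

/-- The end point in the slab. -/
def zs (v : Vx d) (i i1 : Fin d) (h : ℤ) (b : ℕ) : Vx d :=
  fun k => if k = i then h else if k = i1 then v k + b else v k

theorem xs_self (v : Vx d) (i : Fin d) (h : ℤ) : xs v i h i = h := by simp [xs]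

theorem xs_ne {v : Vx d} {i k : Fin d} {h : ℤ} (hk : k ≠ i) : xs v i h k = v k := by
  simp [xs, hk]

theorem zs_self (v : Vx d) (i i1 : Fin d) (h : ℤ) (b : ℕ) : zs v i i1 h b i = h := by
  simp [zs]

theorem zs_one {v : Vx d} {i i1 : Fin d} {h : ℤ} {b : ℕ} (hk : i1 ≠ i) :
    zs v i i1 h b i1 = v i1 + b := by
  simp [zs, hk]

theorem zs_ne {v : Vx d} {i i1 k : Fin d} {h : ℤ} {b : ℕ} (hk : k ≠ i) (hk1 : k ≠ i1) :
    zs v i i1 h b k = v k := by
  simp [zs, hk, hk1]

end EXA_

open EXA_ in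
/-- EXA. Existence of a large cluster in a box. -/
theorem p_EXA (h_SEQ : T_SEQ) (h_ARC : T_ARC) : T_EXA := by
  intro d p q hd hp hp1 hq L α hS R U v v' n b hU hv m hm
  have hq0 : 0 < q := by linarith
  set i0 : Fin d := ⟨0, by omega⟩ with hi0
  set i1 : Fin d := ⟨1, by omega⟩ with hi1
  have h10 : i1 ≠ i0 := by
    rw [hi0, hi1]
    intro h
    have := congrArg Fin.val h
    simp at this
  have hlay : ∀ j, j < m → ((j : ℤ) + 1) * ((L : ℤ) + 1) ≤ 2 * b + 1 := by
    intro j hj
    have h1 : (j + 1) * (L + 1) ≤ m * (L + 1) := Nat.mul_le_mul_right _ hj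
    have h2 : (j + 1) * (L + 1) ≤ 2 * b + 1 := h1.trans hm
    exact_mod_cast h2
  have hj0 : ∀ j : ℕ, 0 ≤ (j : ℤ) * ((L : ℤ) + 1) := fun j => by positivity
  have hexp : ∀ j : ℕ, ((j : ℤ) + 1) * ((L : ℤ) + 1) = (j : ℤ) * ((L : ℤ) + 1) + L + 1 := by
    intro j
    ring
  have hv0 := hv i0
  have hv0a := abs_le.mp (show |v' i0 - v i0| ≤ (n : ℤ) - 2 * b by linarith)
  have hSsub : ∀ j, j < m →
      slc v i0 L (v' i0 - b + j * ((L : ℤ) + 1)) n ⊆ bx v n := by
    intro j hj x hx
    rw [mem_slc] at hx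
    rw [mem_bx]
    intro k
    by_cases hk : k = i0
    · rw [hk]
      have h1 := hlay j hj
      rw [hexp] at h1
      have h2 := hj0 j
      have h3 := hx.1
      constructor <;> linarith [hv0a.1, hv0a.2]
    · exact hx.2 k hk
  have hxS : ∀ j, j < m → xs v' i0 (v' i0 - b + j * ((L : ℤ) + 1)) ∈
      slc v i0 L (v' i0 - b + j * ((L : ℤ) + 1)) n := by
    intro j _
    rw [mem_slc, xs_self]
    refine ⟨⟨le_refl _, by linarith [Int.natCast_nonneg L]⟩, fun k hk => ?_⟩
    rw [xs_ne hk]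
    have h1 := hv k
    have h2 := abs_le.mp (show |v' k - v k| ≤ (n : ℤ) by linarith [Int.natCast_nonneg b])
    constructor <;> linarith [h2.1, h2.2]
  have hzS : ∀ j, j < m → zs v' i0 i1 (v' i0 - b + j * ((L : ℤ) + 1)) b ∈
      slc v i0 L (v' i0 - b + j * ((L : ℤ) + 1)) n := by
    intro j _
    rw [mem_slc, zs_self]
    refine ⟨⟨le_refl _, by linarith [Int.natCast_nonneg L]⟩, fun k hk => ?_⟩
    have h1 := hv k
    have h2 := abs_le.mp (show |v' k - v k| ≤ (n : ℤ) - 2 * b by linarith)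
    have h3 : (0 : ℤ) ≤ b := Int.natCast_nonneg b
    by_cases hk1 : k = i1
    · rw [hk1] at h2 ⊢
      rw [zs_one h10]
      constructor <;> linarith [h2.1, h2.2]
    · rw [zs_ne hk hk1]
      constructor <;> linarith [h2.1, h2.2]
  have hmain := h_SEQ (Vx d) (Ed d) Prod.fst tgt R U (eb v n) p q hp hp1 hq m
    (fun j => slc v i0 L (v' i0 - b + j * ((L : ℤ) + 1)) n)
    (fun j => es (slc v i0 L (v' i0 - b + j * ((L : ℤ) + 1)) n))
    (fun j => elo v n i0 (v' i0 - b + j * ((L : ℤ) + 1)))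
    (fun j _ β => Cf β (xs v' i0 (v' i0 - b + j * ((L : ℤ) + 1)))
      (zs v' i0 i1 (v' i0 - b + j * ((L : ℤ) + 1)) b)) α
    (by linarith [hS.2.1]) ?_ ?_ ?_
  · refine le_trans (Ex_mono hp hp1 hq0 fun ω hω => ?_) hmain
    by_cases hP : ∀ y ∈ bx v' b, ¬ Arm (ω : Set (Ed d)) y b
    · rw [ind_true hP]
      refine le_of_eq (Eq.symm (Finset.prod_eq_one fun j hj => ?_))
      have hj' := Finset.mem_range.mp hj
      refine ind_true fun hC => ?_
      have h1 : Cn (ω : Set (Ed d)) (xs v' i0 (v' i0 - b + j * ((L : ℤ) + 1)))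
          (zs v' i0 i1 (v' i0 - b + j * ((L : ℤ) + 1)) b) :=
        Con_mono (fun _ _ h => h) (Finset.coe_subset.mpr Finset.inter_subset_left) hC
      refine hP (xs v' i0 (v' i0 - b + j * ((L : ℤ) + 1))) ?_
        (h_ARC d (ω : Set (Ed d)) _ _ b h1 ⟨i1, ?_⟩)
      · rw [mem_bx]
        intro k
        by_cases hk : k = i0
        · rw [hk, xs_self]
          have h2 := hlay j hj'
          rw [hexp] at h2
          have h3 := hj0 j
          have h4 : (0 : ℤ) ≤ L := Int.natCast_nonneg L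
          constructor <;> linarith
        · rw [xs_ne hk]
          have h3 : (0 : ℤ) ≤ b := Int.natCast_nonneg b
          constructor <;> linarith
      · rw [zs_one h10, xs_ne h10]
        have h3 : v' i1 + (b : ℤ) - v' i1 = b := by ring
        rw [h3]
        exact le_abs_self _
    · rw [ind_false hP]
      exact Finset.prod_nonneg fun j _ => ind_nonneg _
  · intro j hj
    refine ⟨?_, (hSsub j hj).trans hU, ?_, ?_, ?_, ?_⟩
    · have h1 := es_mono (hSsub j hj)
      rw [es_bx] at h1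
      exact h1
    · intro e he
      exact mem_es.mp he
    · rw [Finset.disjoint_left]
      intro e he he'
      have h1 := (mem_slc.mp (mem_es.mp he).1).1.1
      have h2 := (Finset.mem_filter.mp he').2
      linarith
    · intro e he
      have h1 := es_mono (hSsub j hj) he
      rw [es_bx] at h1
      have h2 := (mem_slc.mp (mem_es.mp he).1).1.2
      refine Finset.mem_filter.mpr ⟨h1, ?_⟩
      push_cast
      rw [hexp]
      linarith
    · intro e he
      have h1 := Finset.mem_filter.mp he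
      refine Finset.mem_filter.mpr ⟨h1.1, ?_⟩
      have h2 := h1.2
      push_cast
      rw [hexp]
      have h4 : (0 : ℤ) ≤ L := Int.natCast_nonneg L
      linarith
  · intro j _ ξ a a' haa h
    exact Con_mono (fun _ _ h => h) (Finset.coe_subset.mpr haa) h
  · intro j hj ξ
    exact hS.2.2 v i0 (v' i0 - b + j * ((L : ℤ) + 1)) n _ (hxS j hj) _ (hzS j hj)

end Pool.Agent.FKP
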