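import Pool.Agent.FKP.Basic
import Pool.Agent.FKP.Lem
import Pool.Agent.FKT.TargetsA

/-!
# Project FKP: T_FEN, finite energy
-/

set_option autoImplicit false

namespace Pool.Agent.FKP

open Pool.Agent.FKT

namespace FEN_

variable {V E : Type} [DecidableEq E]

/-- The expectation of one edge in the graph with a single edge. -/
lemma single (h_ADD : FKT.T_ADD) (s t : E → V) (R : V → V → Prop) (U : Finset V) (e : E)
    (p q : ℝ) (hp : 0 < p) (hp1 : p < 1) (hq : 1 ≤ q) (hs : s e ∈ U) (ht : t e ∈ U) :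
    p / (p + q * (1 - p)) ≤ Ex s t R U {e} p q fun ω => ind (e ∈ ω) := by
  have hq0 : 0 < q := by linarith
  obtain ⟨h1, h2⟩ := (h_ADD V E s t R U).1 ∅ e hs ht
  have hcoe : (({e} : Finset E) : Set E) = insert e (∅ : Set E) := by simp
  have hcoe0 : ((∅ : Finset E) : Set E) = ∅ := by simp
  have hle : q ^ ncl s t R U (∅ : Set E) ≤ q * q ^ ncl s t R U (insert e (∅ : Set E)) := by
    by_cases hc : FKT.Con s t R (∅ : Set E) (s e) (t e)
    · rw [h1 hc]
      have h3 : 0 < q ^ ncl s t R U (∅ : Set E) := pow_pos hq0 _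
      nlinarith
    · rw [← h2 hc, pow_succ]
      exact le_of_eq (mul_comm _ _)
  have hne : (∅ : Finset E) ≠ {e} := (Finset.singleton_ne_empty e).symm
  have hps : ({e} : Finset E).powerset = {∅, {e}} := by
    ext a
    simp [Finset.subset_singleton_iff]
  have w0 : wt s t R U {e} p q ∅ = (1 - p) * q ^ ncl s t R U (∅ : Set E) := by
    unfold wt bw
    simp
  have w1 : wt s t R U {e} p q {e} = p * q ^ ncl s t R U (insert e (∅ : Set E)) := by
    unfold wt bw
    rw [hcoe]
    simp
  unfold Ex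
  rw [hps, Finset.sum_pair hne, Finset.sum_pair hne, w0, w1]
  beta_reduce
  rw [ind_false (Finset.notMem_empty e), ind_true (Finset.mem_singleton_self e)]
  have hQ : 0 < q ^ ncl s t R U (insert e (∅ : Set E)) := pow_pos hq0 _
  have hQ0 : 0 < q ^ ncl s t R U (∅ : Set E) := pow_pos hq0 _
  have hp2 : 0 < 1 - p := by linarith
  generalize q ^ ncl s t R U (insert e (∅ : Set E)) = A at hle hQ ⊢
  generalize q ^ ncl s t R U (∅ : Set E) = B at hle hQ0 ⊢
  rw [div_le_div_iff₀ (by positivity) (by positivity)]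
  have h3 : 0 ≤ p * (1 - p) * (q * A - B) :=
    mul_nonneg (mul_nonneg hp.le hp2.le) (by linarith)
  nlinarith

/-- The expectation of one edge. -/
lemma edge (h_MAR : T_MAR) (h_ADD : FKT.T_ADD) (s t : E → V) (R : V → V → Prop) (U : Finset V)
    (G : Finset E) (p q : ℝ) (hp : 0 < p) (hp1 : p < 1) (hq : 1 ≤ q)
    (hG : ∀ e ∈ G, s e ∈ U ∧ t e ∈ U) (e : E) (he : e ∈ G) :
    p / (p + q * (1 - p)) ≤ Ex s t R U G p q fun ω => ind (e ∈ ω) := by
  have hq0 : 0 < q := by linarith
  have h1 := h_MAR V E s t R U G {e} p q hp hp1 hq0 (Finset.singleton_subset_iff.2 he)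
    (fun _ b => ind (e ∈ b))
  have h2 : (Ex s t R U G p q fun ω => ind (e ∈ ω ∩ {e})) =
      Ex s t R U G p q fun ω => ind (e ∈ ω) := by
    apply Ex_congr
    intro ω _
    apply ind_congr
    simp
  rw [h2] at h1
  rw [h1]
  calc p / (p + q * (1 - p)) = Ex s t R U G p q fun _ => p / (p + q * (1 - p)) :=
        (Ex_const hp hp1 hq0 _).symm
    _ ≤ _ := by
        apply Ex_mono hp hp1 hq0
        intro ω _
        exact single h_ADD s t _ U e p q hp hp1 hq (hG e he).1 (hG e he).2

end FEN_

open FEN_ in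
/-- FEN. Finite energy. -/
theorem p_FEN (h_MAR : T_MAR) (h_ADD : FKT.T_ADD) (h_FKG : FKT.T_FKG) : T_FEN := by
  intro V E _ s t R U G p q hp hp1 hq hG F
  have hq0 : 0 < q := by linarith
  have hc : 0 ≤ p / (p + q * (1 - p)) := by
    have h1 : 0 < 1 - p := by linarith
    positivity
  induction F using Finset.induction_on with
  | empty =>
    intro _
    have h1 : (Ex s t R U G p q fun ω => ind ((∅ : Finset E) ⊆ ω)) = 1 := by
      rw [← Ex_const (s := s) (t := t) (R := R) (U := U) (G := G) hp hp1 hq0 1]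
      apply Ex_congr
      intro ω _
      exact ind_true (Finset.empty_subset ω)
    rw [h1]
    simp
  | insert e F he ih =>
    intro hF
    have heG : e ∈ G := hF (Finset.mem_insert_self e F)
    have hFG : F ⊆ G := fun x hx => hF (Finset.mem_insert_of_mem hx)
    have h1 := edge h_MAR h_ADD s t R U G p q hp hp1 hq hG e heG
    have h2 := ih hFG
    have h3 := (h_FKG V E s t R U G p q hp hp1 hq hG).1 (fun ω => ind (e ∈ ω))
      (fun ω => ind (F ⊆ ω)) (fun a b hab => ind_mono fun h => hab h)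
      (fun a b hab => ind_mono fun h => h.trans hab)
    have h4 : (Ex s t R U G p q fun ω => ind (insert e F ⊆ ω)) =
        Ex s t R U G p q fun ω => ind (e ∈ ω) * ind (F ⊆ ω) := by
      apply Ex_congr
      intro ω _
      rw [← ind_and]
      exact ind_congr Finset.insert_subset_iff
    rw [h4, Finset.card_insert_of_notMem he, pow_succ, mul_comm]
    exact le_trans (mul_le_mul h1 h2 (pow_nonneg hc _) (le_trans hc h1)) h3

end Pool.Agent.FKP
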