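import Pool.Agent.FKP.PartC2
import Pool.Agent.FKP.Lem

/-!
# Project FKP: FIN, the bounds for all n
-/

set_option autoImplicit false

namespace Pool.Agent.FKP

open Filter MeasureTheory Pool.Agent.FKT

namespace FIN_

theorem half_lt_log : (1 : ℝ) / 2 ≤ Real.log 2 := by
  have := Real.log_two_gt_d9
  linarith

theorem half_pow (m : ℕ) : ((1 : ℝ) / 2) ^ m = Real.exp (-(m * Real.log 2)) := by
  rw [Real.exp_neg, Real.exp_nat_mul, Real.exp_log two_pos, one_div, inv_pow]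

/-- From `m ≥ y - 1`, `y ≥ 4`. -/
theorem pow_le_exp {m : ℕ} {y a : ℝ} (hy : 4 ≤ y) (hm : y - 1 ≤ m) (ha : a ≤ y / 8) :
    ((1 : ℝ) / 2) ^ m ≤ Real.exp (-a) := by
  rw [half_pow]
  apply Real.exp_le_exp.2
  have h1 := half_lt_log
  have h2 : (3 / 4 * y) * (1 / 2) ≤ m * Real.log 2 :=
    mul_le_mul (by linarith) h1 (by norm_num) (by linarith)
  linarith

theorem one_sub_le_exp (a : ℝ) : 1 - a ≤ Real.exp (-a) := by
  have := Real.add_one_le_exp (-a)
  linarith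

variable {d b : ℕ} {μ : Measure (Ed d → Bool)} [IsProbabilityMeasure μ] {α : ℝ}

theorem inf_ge (h5 : ∀ n : ℕ, α ≤ μ.real {ω : Ed d → Bool | ∃ v ∈ C0 ω, ∃ i, (n : ℤ) ≤ |v i|})
    (h3 : ∀ n m : ℕ, 2 * b ≤ n → (2 * b + 1) * m ≤ n → μ.real (Rad d n) ≤ (1 / 2) ^ m) :
    α ≤ μ.real (Inf0 d) := by
  refine le_of_forall_pos_le_add fun ε hε => ?_
  obtain ⟨m, hm⟩ := exists_pow_lt_of_lt_one hε (by norm_num : (1 : ℝ) / 2 < 1)
  have h1 := h5 ((2 * b + 1) * m + 2 * b)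
  have h2 := h3 ((2 * b + 1) * m + 2 * b) m (Nat.le_add_left _ _) (Nat.le_add_right _ _)
  have hsub : {ω : Ed d → Bool | ∃ v ∈ C0 ω, ∃ i,
      (((2 * b + 1) * m + 2 * b : ℕ) : ℤ) ≤ |v i|} ⊆
      Rad d ((2 * b + 1) * m + 2 * b) ∪ Inf0 d := by
    intro ω hω
    by_cases hf : (C0 ω).Finite
    · exact Or.inl ⟨hf, hω⟩
    · exact Or.inr hf
  have h4 := (measureReal_mono hsub (μ := μ)).trans (measureReal_union_le (μ := μ) _ _)
  linarith

theorem fin_le (h : T_MEA) (hI : α ≤ μ.real (Inf0 d)) {S : Set (Ed d → Bool)}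
    (hS : ∀ ω ∈ S, (C0 ω).Finite) : μ.real S ≤ Real.exp (-α) := by
  have hsub : S ⊆ (Inf0 d)ᶜ := fun ω hω hi => hi (hS ω hω)
  have h1 := measureReal_mono hsub (μ := μ)
  have h2 : μ.real (Inf0 d)ᶜ = 1 - μ.real (Inf0 d) := probReal_compl_eq_one_sub (h d)
  have h3 := one_sub_le_exp α
  linarith

end FIN_

open FIN_ in
theorem p_FIN (h_MEA : T_MEA) : T_FIN := by
  intro d b hd μ hμ α hα hα2 h5 h3 h4
  have hI := inf_ge h5 h3
  have hRad : ∀ n, μ.real (Rad d n) ≤ Real.exp (-α) := fun n =>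
    fin_le h_MEA hI fun ω hω => hω.1
  have hVol : ∀ n, μ.real (Vol d n) ≤ Real.exp (-α) := fun n =>
    fin_le h_MEA hI fun ω hω => hω.1
  have hB : (1 : ℝ) ≤ 2 * b + 1 := by
    have : (0 : ℝ) ≤ b := Nat.cast_nonneg b
    linarith
  have hBp : (0 : ℝ) < 2 * b + 1 := by linarith
  have hK : (1 : ℝ) ≤ (2 * b + 1) ^ (d - 1) := one_le_pow₀ hB
  obtain ⟨X0, hX1, hX2⟩ : ∃ X0 : ℝ, (4 * (b : ℝ) + 1) ^ (d - 1) ≤ X0 ∧
      4 * (2 * (b : ℝ) + 1) ^ (d - 1) ≤ X0 := ⟨_, le_max_left _ _, le_max_right _ _⟩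
  have hX0 : 0 < X0 := by linarith
  refine ⟨α / (4 * (2 * b + 1)), α / X0, by positivity, by positivity, fun n hn => ⟨?_, ?_⟩⟩
  · rcases lt_or_ge n (4 * (2 * b + 1)) with hlt | hge
    · refine (hRad n).trans (Real.exp_le_exp.2 (neg_le_neg ?_))
      have h6 : (n : ℝ) ≤ 4 * (2 * b + 1) := by exact_mod_cast hlt.le
      rw [mul_div_assoc', div_le_iff₀ (by positivity)]
      nlinarith
    · have hmul := Nat.mul_div_le n (2 * b + 1)
      refine (h3 n (n / (2 * b + 1)) (by omega) hmul).trans ?_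
      have h7 : (4 : ℝ) * (2 * b + 1) ≤ n := by exact_mod_cast hge
      refine pow_le_exp (y := n / (2 * b + 1)) ?_ ?_ ?_
      · rw [le_div_iff₀ hBp]
        exact h7
      · have h8 : n < (2 * b + 1) * (n / (2 * b + 1) + 1) :=
          Nat.lt_mul_div_succ n (by omega)
        have h9 : (n : ℝ) < (2 * b + 1) * (((n / (2 * b + 1) : ℕ) : ℝ) + 1) := by
          exact_mod_cast h8
        rw [sub_le_iff_le_add, div_le_iff₀ hBp, mul_comm]
        exact h9.le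
      · rw [mul_div_assoc', div_div, div_le_div_iff₀ (by positivity) (by positivity)]
        have h10 : (0 : ℝ) ≤ n := Nat.cast_nonneg n
        nlinarith [mul_nonneg h10 hBp.le, mul_le_mul_of_nonneg_left hα2 (mul_nonneg h10 hBp.le)]
  · obtain ⟨x, hx⟩ : ∃ x : ℝ, x = (n : ℝ) ^ (((d : ℝ) - 1) / d) := ⟨_, rfl⟩
    rw [← hx]
    have hn0 : (0 : ℝ) ≤ n := Nat.cast_nonneg n
    have hx0 : 0 ≤ x := hx ▸ Real.rpow_nonneg hn0 _
    have hd0 : (d : ℝ) ≠ 0 := by
      have : 0 < d := by omega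
      exact_mod_cast this.ne'
    have hxd : x ^ d = (n : ℝ) ^ (d - 1) := by
      rw [hx, ← Real.rpow_natCast, ← Real.rpow_mul hn0, div_mul_cancel₀ _ hd0,
        ← Real.rpow_natCast, Nat.cast_sub (by omega), Nat.cast_one]
    have hsmall : x ≤ X0 → μ.real (Vol d n) ≤ Real.exp (-(α / X0 * x)) := by
      intro hle
      refine (hVol n).trans (Real.exp_le_exp.2 (neg_le_neg ?_))
      rw [div_mul_eq_mul_div, div_le_iff₀ hX0]
      exact mul_le_mul_of_nonneg_left hle hα.le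
    by_cases h6 : (4 * b + 1) ^ d < n
    · rcases lt_or_ge x (4 * (2 * (b : ℝ) + 1) ^ (d - 1)) with h7 | h7
      · exact hsmall (h7.le.trans hX2)
      · have hKp : (0 : ℝ) < (2 * (b : ℝ) + 1) ^ (d - 1) := by linarith
        have hy4 : 4 ≤ x / (2 * (b : ℝ) + 1) ^ (d - 1) := by
          rw [le_div_iff₀ hKp]
          exact h7
        have hc1 := Nat.ceil_lt_add_one (a := x / (2 * (b : ℝ) + 1) ^ (d - 1)) (by linarith)
        have hc2 := Nat.le_ceil (x / (2 * (b : ℝ) + 1) ^ (d - 1))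
        obtain ⟨m, hm⟩ : ∃ m, ⌈x / (2 * (b : ℝ) + 1) ^ (d - 1)⌉₊ = m + 1 := by
          refine ⟨⌈x / (2 * (b : ℝ) + 1) ^ (d - 1)⌉₊ - 1, ?_⟩
          have : 0 < ⌈x / (2 * (b : ℝ) + 1) ^ (d - 1)⌉₊ := Nat.ceil_pos.2 (by linarith)
          omega
        rw [hm] at hc1 hc2
        push_cast at hc1 hc2
        have hm1 : (m : ℝ) < x / (2 * (b : ℝ) + 1) ^ (d - 1) := by linarith
        have hm2 : x / (2 * (b : ℝ) + 1) ^ (d - 1) - 1 ≤ m := by linarith
        have hKm : (2 * (b : ℝ) + 1) ^ (d - 1) * m < x := by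
          rw [lt_div_iff₀ hKp] at hm1
          linarith
        have hlt : ((2 * b + 1) ^ d) ^ (d - 1) * m ^ d < n ^ (d - 1) := by
          have h8 : ((2 * (b : ℝ) + 1) ^ (d - 1) * m) ^ d < x ^ d :=
            pow_lt_pow_left₀ hKm (by positivity) (by omega)
          rw [hxd, mul_pow, ← pow_mul, mul_comm (d - 1) d, pow_mul] at h8
          exact_mod_cast h8
        refine (h4 n m h6 hlt).trans (pow_le_exp hy4 hm2 ?_)
        rw [div_mul_eq_mul_div, div_div, div_le_div_iff₀ hX0 (by positivity)]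
        have h9 : α * x * ((2 * (b : ℝ) + 1) ^ (d - 1) * 8) ≤
            1 / 2 * x * ((2 * (b : ℝ) + 1) ^ (d - 1) * 8) :=
          mul_le_mul_of_nonneg_right (mul_le_mul_of_nonneg_right hα2 hx0) (by positivity)
        have h10 : 1 / 2 * x * ((2 * (b : ℝ) + 1) ^ (d - 1) * 8) =
            x * (4 * (2 * (b : ℝ) + 1) ^ (d - 1)) := by ring
        rw [h10] at h9
        exact h9.trans (mul_le_mul_of_nonneg_left hX2 hx0)
    · refine hsmall (le_trans ?_ hX1)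
      have h7 : (n : ℝ) ≤ (4 * (b : ℝ) + 1) ^ d := by
        rw [not_lt] at h6
        exact_mod_cast h6
      have h8 : x ^ d ≤ ((4 * (b : ℝ) + 1) ^ (d - 1)) ^ d := by
        rw [hxd, ← pow_mul, mul_comm (d - 1) d, pow_mul]
        exact pow_le_pow_left₀ hn0 h7 _
      exact le_of_pow_le_pow_left₀ (by omega) (by positivity) h8

end Pool.Agent.FKP
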