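import Pool.Agent.FKP.PartC2
import Pool.Agent.FKP.Lem

/-!
# Project FKP: FIP, the cluster of the origin reaches any distance
-/

set_option autoImplicit false

namespace Pool.Agent.FKP

open Filter MeasureTheory Pool.Agent.FKT

namespace FIP_

variable {d : ℕ}

/-- The integral of an indicator. -/
theorem int_ind (μ : Measure (Ed d → Bool)) [IsProbabilityMeasure μ]
    (P : (Ed d → Bool) → Prop) (hP : MeasurableSet {ω | P ω}) :
    ∫ ω, ind (P ω) ∂μ = μ.real {ω | P ω} := by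
  have h : (fun ω => ind (P ω)) = Set.indicator {ω | P ω} (fun _ => (1 : ℝ)) := by
    funext ω
    by_cases hω : P ω
    · rw [ind_true hω, Set.indicator_of_mem (show ω ∈ {ω | P ω} from hω)]
    · rw [ind_false hω, Set.indicator_of_notMem (show ω ∉ {ω | P ω} from hω)]
  rw [h, integral_indicator hP, setIntegral_const, smul_eq_mul, mul_one]

theorem rs_sub (F : Finset (Ed d)) (O : Set (Ed d)) :
    ((rs F O : Finset (Ed d)) : Set (Ed d)) ⊆ O := by
  intro e he
  unfold rs at he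
  simp only [Finset.coe_filter, Set.mem_ofPred_eq] at he
  exact he.2

end FIP_

theorem p_FIP (h_DMC : T_DMC) (h_LOC : FKT.T_LOC) : T_FIP := by
  intro d p q hd hp hp1 hq L α hS μ hμ n
  obtain ⟨i0, hi0⟩ : ∃ i0 : Fin d, i0.val = 0 := ⟨⟨0, by omega⟩, rfl⟩
  obtain ⟨i1, hi1⟩ : ∃ i1 : Fin d, i1.val = 1 := ⟨⟨1, by omega⟩, rfl⟩
  have h01 : i0 ≠ i1 := by
    intro h
    rw [h] at hi0
    omega
  obtain ⟨S, hSdef⟩ : ∃ S : Finset (Vx d), S = slc (0 : Vx d) i0 L 0 n := ⟨_, rfl⟩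
  obtain ⟨y, hy⟩ : ∃ y : Vx d, y = fun l => if l = i1 then (n : ℤ) else 0 := ⟨_, rfl⟩
  have h0S : (0 : Vx d) ∈ S := by
    rw [hSdef]
    unfold slc
    rw [Finset.mem_Icc]
    constructor
    · intro l
      show (if l = i0 then (0 : ℤ) else 0 - n) ≤ 0
      split_ifs <;> omega
    · intro l
      show (0 : ℤ) ≤ if l = i0 then 0 + (L : ℤ) else 0 + n
      split_ifs <;> omega
  have hyS : y ∈ S := by
    rw [hSdef, hy]
    unfold slc
    rw [Finset.mem_Icc]
    constructor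
    · intro l
      show (if l = i0 then (0 : ℤ) else 0 - n) ≤ if l = i1 then (n : ℤ) else 0
      split_ifs <;> omega
    · intro l
      show (if l = i1 then (n : ℤ) else 0) ≤ if l = i0 then 0 + (L : ℤ) else 0 + n
      split_ifs with h1 h2 h2
      · exact absurd (h2.symm.trans h1) h01
      · omega
      · omega
      · omega
  have hα : α ≤ tp S p q 0 y := by
    rw [hSdef] at h0S hyS ⊢
    exact hS.2.2 0 i0 0 n 0 h0S y hyS
  obtain ⟨f, hf⟩ : ∃ f : Finset (Ed d) → ℝ, f = fun ω => ind (Cf ω 0 y) := ⟨_, rfl⟩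
  have hfm : ∀ a b : Finset (Ed d), a ⊆ b → b ⊆ es S → f a ≤ f b := by
    intro a b hab _
    rw [hf]
    apply ind_mono
    intro h
    exact Con_mono (fun _ _ h => h) (by exact_mod_cast hab) h
  obtain ⟨⟨hloc, -⟩, hmeas⟩ := And.intro ((h_LOC d p q (es S)).1 μ hμ f) (h_LOC d p q (es S)).2
  have hev : ∀ᶠ N : ℕ in atTop, α ≤ phi (0 : Vx d) N p q fun ω => f (ω ∩ es S) := by
    filter_upwards [eventually_ge_atTop (n + L)] with N hN
    have hSN : S ⊆ bx (0 : Vx d) N := by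
      rw [hSdef]
      unfold slc bx
      apply Finset.Icc_subset_Icc
      · intro l
        show (0 : ℤ) - N ≤ if l = i0 then (0 : ℤ) else 0 - n
        split_ifs <;> omega
      · intro l
        show (if l = i0 then (0 : ℤ) + L else 0 + n) ≤ 0 + (N : ℤ)
        split_ifs <;> omega
    have hes : es S ⊆ eb (0 : Vx d) N := by
      rw [← es_bx]
      exact es_mono hSN
    have h1 := h_DMC (Vx d) (Ed d) Prod.fst tgt (Wir 0 N) (bx 0 N) S (eb 0 N) (es S) p q hp hp1 hq
      hes hSN (fun e he => mem_es.mp he) f hfm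
    have h2 : tp S p q 0 y = Ex Prod.fst tgt (no (Vx d)) S (es S) p q f := by
      rw [hf]; rfl
    rw [h2] at hα
    exact hα.trans h1
  have hprob : IsProbabilityMeasure μ := hμ.prob
  have h3 : α ≤ ∫ ω, f (rs (es S) (cfg ω)) ∂μ := ge_of_tendsto hloc hev
  have h4 : ∫ ω, f (rs (es S) (cfg ω)) ∂μ =
      μ.real {ω | Cf (rs (es S) (cfg ω)) 0 y} := by
    rw [hf]
    exact FIP_.int_ind μ (fun ω => Cf (rs (es S) (cfg ω)) 0 y) (hmeas fun ω' => Cf ω' 0 y)
  rw [h4] at h3
  refine h3.trans (measureReal_mono ?_ (measure_ne_top μ _))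
  intro ω hω
  refine ⟨y, ?_, i1, ?_⟩
  · show Cn (cfg ω) 0 y
    exact Con_mono (fun _ _ h => h) (FIP_.rs_sub (es S) (cfg ω)) hω
  · rw [hy]
    simp

end Pool.Agent.FKP
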