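import Pool.Agent.FKP.PartB
import Pool.Agent.FKP.Lem

set_option autoImplicit false

/-!
# FKP-FL1: averages over consecutive integers
-/

namespace Pool.Agent.FKP

open Filter MeasureTheory Pool.Agent.FKT

namespace FL1_

/-- Sums over integer intervals as sums over natural numbers. -/
theorem sum_Icc (f : ℤ → ℝ) (a : ℤ) (n : ℕ) :
    ∑ j ∈ Finset.Icc a (a + n), f j = ∑ i ∈ Finset.range (n + 1), f (a + i) := by
  symm
  refine Finset.sum_nbij (fun i : ℕ => a + (i : ℤ)) ?_ ?_ ?_ ?_
  · intro i hi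
    rw [Finset.mem_range] at hi
    rw [Finset.mem_Icc]
    constructor
    · omega
    · omega
  · intro i _ j _ hij
    have h : a + (i : ℤ) = a + (j : ℤ) := hij
    omega
  · intro j hj
    rw [Finset.mem_coe, Finset.mem_Icc] at hj
    refine ⟨(j - a).toNat, ?_, ?_⟩
    · rw [Finset.mem_coe, Finset.mem_range]
      omega
    · change a + (((j - a).toNat : ℕ) : ℤ) = j
      omega
  · intro i _
    rfl

theorem abel_one (ρ : ℕ → ℝ) (N : ℕ) :
    ∑ i ∈ Finset.range N, ((i : ℝ) + 1) * (ρ i - ρ (i + 1)) =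
      ∑ i ∈ Finset.range N, ρ i - N * ρ N := by
  induction N with
  | zero => simp
  | succ N ih =>
    rw [Finset.sum_range_succ, Finset.sum_range_succ, ih]
    push_cast
    ring

theorem abel_two (ρ : ℕ → ℝ) (M N : ℕ) :
    ∑ i ∈ Finset.range N, ((M : ℝ) - i) * (ρ i - ρ (i + 1)) =
      M * ρ 0 - ((M : ℝ) - N) * ρ N - ∑ i ∈ Finset.range N, ρ (i + 1) := by
  induction N with
  | zero => simp
  | succ N ih =>
    rw [Finset.sum_range_succ, Finset.sum_range_succ, ih]
    push_cast
    ring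

end FL1_

open FL1_ in
theorem p_FL1 : T_FL1 := by
  intro h a a' haa
  have h1 : (0 : ℝ) < (h : ℝ) + 1 := by positivity
  have h2 : (0 : ℝ) < (h : ℝ) + 2 := by positivity
  have e1 : ∀ x : ℤ, x + (h : ℤ) + 1 = x + ((h + 1 : ℕ) : ℤ) := by
    intro x
    push_cast
    ring
  rcases haa with haa | haa
  · subst haa
    refine ⟨fun j => if 0 ≤ j - a' ∧ j - a' ≤ h then (((j - a' : ℤ) : ℝ) + 1) /
      (((h : ℝ) + 1) * ((h : ℝ) + 2)) else 0, ?_, ?_⟩
    · intro j
      dsimp only
      split_ifs with hj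
      · have h3 : (0 : ℝ) ≤ ((j - a' : ℤ) : ℝ) := by exact_mod_cast hj.1
        have h4 : ((j - a' : ℤ) : ℝ) ≤ (h : ℝ) := by exact_mod_cast hj.2
        rw [abs_of_nonneg (by positivity), div_le_div_iff₀ (by positivity) h2, one_mul]
        exact mul_le_mul_of_nonneg_right (by linarith) h2.le
      · rw [abs_zero]
        positivity
    · intro r
      rw [e1, sum_Icc, sum_Icc, sum_Icc]
      have h3 : ∑ i ∈ Finset.range (h + 1),
          (if 0 ≤ a' + (i : ℤ) - a' ∧ a' + (i : ℤ) - a' ≤ h then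
            (((a' + (i : ℤ) - a' : ℤ) : ℝ) + 1) / (((h : ℝ) + 1) * ((h : ℝ) + 2)) else 0) *
            (r (a' + i) - r (a' + i + 1)) =
          (1 / (((h : ℝ) + 1) * ((h : ℝ) + 2))) * ∑ i ∈ Finset.range (h + 1),
            ((i : ℝ) + 1) * (r (a' + (i : ℕ)) - r (a' + ((i + 1 : ℕ) : ℤ))) := by
        rw [Finset.mul_sum]
        refine Finset.sum_congr rfl fun i hi => ?_
        rw [Finset.mem_range] at hi
        rw [if_pos ⟨by omega, by omega⟩]
        have h4 : ((a' + (i : ℤ) - a' : ℤ) : ℝ) = (i : ℝ) := by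
          push_cast
          ring
        have h5 : a' + (i : ℤ) + 1 = a' + ((i + 1 : ℕ) : ℤ) := by
          push_cast
          ring
        rw [h4, h5]
        ring
      have h4 := abel_one (fun i : ℕ => r (a' + (i : ℤ))) (h + 1)
      rw [h3, h4, Finset.sum_range_succ (fun i : ℕ => r (a' + (i : ℤ))) (h + 1)]
      push_cast
      field_simp
      ring
  · have haa' : a = a' + 1 := by omega
    subst haa'
    refine ⟨fun j => if 0 ≤ j - a' ∧ j - a' ≤ h then -((((h : ℝ) + 1) - ((j - a' : ℤ) : ℝ)) /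
      (((h : ℝ) + 1) * ((h : ℝ) + 2))) else 0, ?_, ?_⟩
    · intro j
      dsimp only
      split_ifs with hj
      · have h3 : (0 : ℝ) ≤ ((j - a' : ℤ) : ℝ) := by exact_mod_cast hj.1
        have h4 : ((j - a' : ℤ) : ℝ) ≤ (h : ℝ) := by exact_mod_cast hj.2
        rw [abs_neg, abs_of_nonneg (div_nonneg (by linarith) (by positivity)),
          div_le_div_iff₀ (by positivity) h2, one_mul]
        exact mul_le_mul_of_nonneg_right (by linarith) h2.le
      · rw [abs_zero]
        positivity
    · intro r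
      rw [e1, sum_Icc, sum_Icc, sum_Icc]
      have h3 : ∑ i ∈ Finset.range (h + 1),
          (if 0 ≤ a' + (i : ℤ) - a' ∧ a' + (i : ℤ) - a' ≤ h then
            -((((h : ℝ) + 1) - ((a' + (i : ℤ) - a' : ℤ) : ℝ)) /
              (((h : ℝ) + 1) * ((h : ℝ) + 2))) else 0) *
            (r (a' + i) - r (a' + i + 1)) =
          -(1 / (((h : ℝ) + 1) * ((h : ℝ) + 2))) * ∑ i ∈ Finset.range (h + 1),
            (((h + 1 : ℕ) : ℝ) - i) * (r (a' + (i : ℕ)) - r (a' + ((i + 1 : ℕ) : ℤ))) := by
        rw [Finset.mul_sum]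
        refine Finset.sum_congr rfl fun i hi => ?_
        rw [Finset.mem_range] at hi
        rw [if_pos ⟨by omega, by omega⟩]
        have h4 : ((a' + (i : ℤ) - a' : ℤ) : ℝ) = (i : ℝ) := by
          push_cast
          ring
        have h5 : a' + (i : ℤ) + 1 = a' + ((i + 1 : ℕ) : ℤ) := by
          push_cast
          ring
        rw [h4, h5]
        push_cast
        ring
      have h4 := abel_two (fun i : ℕ => r (a' + (i : ℤ))) (h + 1) (h + 1)
      have h5 : ∑ i ∈ Finset.range (h + 1), r (a' + 1 + (i : ℤ)) =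
          ∑ i ∈ Finset.range (h + 1), r (a' + ((i + 1 : ℕ) : ℤ)) := by
        refine Finset.sum_congr rfl fun i _ => ?_
        congr 1
        push_cast
        ring
      rw [h3, h4, h5, Finset.sum_range_succ' (fun i : ℕ => r (a' + (i : ℤ))) (h + 1)]
      push_cast
      field_simp
      ring

end Pool.Agent.FKP
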