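import Pool.Agent.FKP.PartB
import Pool.Agent.FKP.Lem

/-!
# FKP: the flow between two cubes
-/

set_option autoImplicit false

namespace Pool.Agent.FKP

open Pool.Agent.FKT

namespace FL2_

theorem sqr_eq {k : ℕ} (h : ℕ) (c0 c1 : ℤ) (v v' : Vx (k + 3))
    (hv : ∀ l : Fin (k + 3), 2 ≤ l.val → v l = v' l) : sqr h c0 c1 v = sqr h c0 c1 v' := by
  unfold sqr
  have e1 : (fun i : Fin (k + 3) => if i.val = 0 then c0 else if i.val = 1 then c1 else
      if i.val = 2 then v i + h else v i) =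
      fun i : Fin (k + 3) => if i.val = 0 then c0 else if i.val = 1 then c1 else
      if i.val = 2 then v' i + h else v' i := by
    funext i
    by_cases h0 : i.val = 0
    · simp [h0]
    · by_cases h1 : i.val = 1
      · simp [h1]
      · rw [hv i (by omega)]
  have e2 : (fun i : Fin (k + 3) => if i.val = 0 then c0 + (h : ℤ) else
      if i.val = 1 then c1 + h else if i.val = 2 then v i + h else v i) =
      fun i : Fin (k + 3) => if i.val = 0 then c0 + (h : ℤ) else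
      if i.val = 1 then c1 + h else if i.val = 2 then v' i + h else v' i := by
    funext i
    by_cases h0 : i.val = 0
    · simp [h0]
    · by_cases h1 : i.val = 1
      · simp [h1]
      · rw [hv i (by omega)]
  rw [e1, e2]

theorem sum_ext {ι : Type*} [DecidableEq ι] (A B : Finset ι) (F : ι → ℝ)
    (hF : ∀ e, e ∉ A → F e = 0) : ∑ e ∈ A ∪ B, F e = ∑ e ∈ A, F e :=
  (Finset.sum_subset Finset.subset_union_left fun e _ he => hF e he).symm

theorem sum_ext' {ι : Type*} [DecidableEq ι] (A B : Finset ι) (F : ι → ℝ)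
    (hF : ∀ e, e ∉ B → F e = 0) : ∑ e ∈ A ∪ B, F e = ∑ e ∈ B, F e :=
  (Finset.sum_subset Finset.subset_union_right fun e _ he => hF e he).symm

end FL2_

/-- FL2. -/
theorem p_FL2 (h_FLO : T_FLO) : T_FL2 := by
  intro k s H v v' hs hsH hv hd
  have h0 : |v 0 - v' 0| ≤ (H : ℤ) - s := hd 0 (by simp)
  have h1 : |v 1 - v' 1| ≤ (H : ℤ) - s := hd 1 (by simp)
  rw [abs_le] at h0 h1
  have hsH' : (s : ℤ) ≤ H := by exact_mod_cast hsH
  obtain ⟨f, hf0, hf1, hf2⟩ := h_FLO k s H v (min (v 0) (v' 0)) (min (v 1) (v' 1)) hs hsH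
    (le_min (by omega) (by omega)) (min_le_left _ _) (le_min (by omega) (by omega))
    (min_le_left _ _)
  obtain ⟨g, hg0, hg1, hg2⟩ := h_FLO k s H v' (min (v 0) (v' 0)) (min (v 1) (v' 1)) hs hsH
    (le_min (by omega) (by omega)) (min_le_right _ _) (le_min (by omega) (by omega))
    (min_le_right _ _)
  have havg : ∀ r : Vx (k + 3) → ℝ, avg H (min (v 0) (v' 0)) (min (v 1) (v' 1)) v r =
      avg H (min (v 0) (v' 0)) (min (v 1) (v' 1)) v' r := by
    intro r
    unfold avg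
    rw [FL2_.sqr_eq H _ _ v v' hv]
  refine ⟨fun e => f e - g e, ?_, ?_⟩
  · have k1 : ∑ e ∈ es (rg H v) ∪ es (rg H v'), f e ^ 2 = ∑ e ∈ es (rg H v), f e ^ 2 :=
      FL2_.sum_ext _ _ _ fun e he => by rw [hf0 e he]; ring
    have k2 : ∑ e ∈ es (rg H v) ∪ es (rg H v'), g e ^ 2 = ∑ e ∈ es (rg H v'), g e ^ 2 :=
      FL2_.sum_ext' _ _ _ fun e he => by rw [hg0 e he]; ring
    have k3 : ∑ e ∈ es (rg H v) ∪ es (rg H v'), (f e - g e) ^ 2 ≤
        ∑ e ∈ es (rg H v) ∪ es (rg H v'), (2 * f e ^ 2 + 2 * g e ^ 2) :=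
      Finset.sum_le_sum fun e _ => by nlinarith [sq_nonneg (f e + g e)]
    rw [Finset.sum_add_distrib, ← Finset.mul_sum, ← Finset.mul_sum, k1, k2] at k3
    have k4 : (12 : ℝ) / s = 2 * (3 / s) + 2 * (3 / s) := by ring
    rw [k4]
    linarith
  · intro r hr hr'
    have e1 := hf2 r hr
    have e2 := hg2 r hr'
    have k1 : ∑ e ∈ es (rg H v) ∪ es (rg H v'), f e * (r e.1 - r (tgt e)) =
        ∑ e ∈ es (rg H v), f e * (r e.1 - r (tgt e)) :=
      FL2_.sum_ext _ _ _ fun e he => by rw [hf0 e he]; ring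
    have k2 : ∑ e ∈ es (rg H v) ∪ es (rg H v'), g e * (r e.1 - r (tgt e)) =
        ∑ e ∈ es (rg H v'), g e * (r e.1 - r (tgt e)) :=
      FL2_.sum_ext' _ _ _ fun e he => by rw [hg0 e he]; ring
    have k3 : ∑ e ∈ es (rg H v) ∪ es (rg H v'), (f e - g e) * (r e.1 - r (tgt e)) =
        ∑ e ∈ es (rg H v) ∪ es (rg H v'), f e * (r e.1 - r (tgt e)) -
          ∑ e ∈ es (rg H v) ∪ es (rg H v'), g e * (r e.1 - r (tgt e)) := by
      rw [← Finset.sum_sub_distrib]
      exact Finset.sum_congr rfl fun e _ => by ring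
    rw [k3, k1, k2, e1, e2, havg r]
    ring

end Pool.Agent.FKP
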