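import Pool.Agent.FKP.PartB
import Pool.Agent.FKP.Lem

/-!
# Project FKP: FLO, the flow from a cube to a big square
-/

set_option autoImplicit false

namespace Pool.Agent.FKP

open Pool.Agent.FKT

namespace FLO_

variable {k : ℕ}

theorem v0 (i : Fin (k + 3)) (h : i.val = 0) : i = 0 := Fin.ext (by simpa using h)

theorem v1 (i : Fin (k + 3)) (h : i.val = 1) : i = 1 := Fin.ext (by simpa using h)

theorem m2 : 2 % (k + 3) = 2 := Nat.mod_eq_of_lt (by omega)

theorem v2 (i : Fin (k + 3)) (h : i.val = 2) : i = 2 := Fin.ext (by rw [h]; exact m2.symm)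

theorem n1 : (1 : Fin (k + 3)).val = 1 := rfl

theorem n2 : (2 : Fin (k + 3)).val = 2 := rfl

/-- The base square is in the cube. -/
theorem sqr_sub (s : ℕ) (v : Vx (k + 3)) : sqr s (v 0) (v 1) v ⊆ cu s v := by
  intro x hx
  unfold sqr at hx
  unfold cu
  rw [Finset.mem_Icc] at hx ⊢
  obtain ⟨h1, h2⟩ := hx
  constructor
  · intro i
    have a := h1 i
    by_cases i0 : i.val = 0
    · rw [v0 i i0] at a ⊢; simpa using a
    by_cases i1 : i.val = 1
    · rw [v1 i i1] at a ⊢; simpa using a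
    by_cases i2 : i.val = 2
    · have a' : v i + s ≤ x i := by simpa [i2] using a
      show v i ≤ x i
      omega
    · simpa [i0, i1, i2] using a
  · intro i
    have a := h2 i
    by_cases i0 : i.val = 0
    · rw [v0 i i0] at a ⊢; simpa using a
    by_cases i1 : i.val = 1
    · rw [v1 i i1] at a ⊢; simpa using a
    by_cases i2 : i.val = 2
    · have a' : x i ≤ v i + s := by simpa [i2] using a
      simp only [i2]
      norm_num
      omega
    · have i3 : ¬ i.val < 3 := by omega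
      simpa [i0, i1, i2, i3] using a

/-- The number of points of the square. -/
theorem sqr_card (s : ℕ) (c0 c1 : ℤ) (v : Vx (k + 3)) :
    ((sqr s c0 c1 v).card : ℝ) = ((s : ℝ) + 1) ^ 2 := by
  unfold sqr
  rw [Pi.card_Icc]
  rw [Fin.prod_univ_succ, Fin.prod_univ_succ, Fin.prod_univ_succ]
  simp [m2]
  have e1 : (c0 + (s : ℤ) + 1 - c0).toNat = s + 1 := by omega
  have e2 : (c1 + (s : ℤ) + 1 - c1).toNat = s + 1 := by omega
  rw [e1, e2]
  push_cast
  ring

/-- The average of a constant. -/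
theorem avg_const (s : ℕ) (v : Vx (k + 3)) (r : Vx (k + 3) → ℝ)
    (h : ∀ x ∈ cu s v, r x = r v) : avg s (v 0) (v 1) v r = r v := by
  unfold avg
  rw [Finset.sum_congr rfl fun x hx => h x (sqr_sub s v hx)]
  rw [Finset.sum_const, nsmul_eq_mul, sqr_card]
  have : ((s : ℝ) + 1) ^ 2 ≠ 0 := by positivity
  field_simp

theorem rg_sub (H : ℕ) (v : Vx (k + 3)) : rg H v ⊆ rg (H + 1) v := by
  unfold rg
  apply Finset.Icc_subset_Icc
  · intro i
    by_cases h : i.val < 2
    · simp only [h, if_true]; push_cast; omega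
    · simp only [h, if_false]; exact le_refl _
  · intro i
    by_cases h : i.val < 3
    · simp only [h, if_true]; push_cast; omega
    · simp only [h, if_false]; exact le_refl _

theorem lay_sub (H s : ℕ) (c0 c1 : ℤ) (v : Vx (k + 3))
    (h1 : v 0 - (((H + 1 : ℕ) : ℤ) - s) ≤ c0) (h2 : c0 ≤ v 0)
    (h3 : v 1 - (((H + 1 : ℕ) : ℤ) - s) ≤ c1) (h4 : c1 ≤ v 1) :
    lay H c0 c1 v ⊆ rg (H + 1) v := by
  unfold lay rg
  apply Finset.Icc_subset_Icc
  · intro i
    by_cases i0 : i.val = 0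
    · rw [v0 i i0]
      simp
      push_cast at h1
      omega
    by_cases i1 : i.val = 1
    · rw [v1 i i1]
      simp
      push_cast at h3
      omega
    by_cases i2 : i.val = 2
    · simp [i0, i1, i2]
    · have i3 : ¬ i.val < 2 := by omega
      simp [i0, i1, i2, i3]
  · intro i
    by_cases i0 : i.val = 0
    · rw [v0 i i0]
      simp
      omega
    by_cases i1 : i.val = 1
    · rw [v1 i i1]
      simp
      omega
    by_cases i2 : i.val = 2
    · simp [i2]
      try omega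
    · have i3 : ¬ i.val < 3 := by omega
      simp [i0, i1, i2, i3]

theorem two_rg {H : ℕ} {v x : Vx (k + 3)} (h : x ∈ rg H v) : x 2 ≤ v 2 + H := by
  unfold rg at h
  rw [Finset.mem_Icc] at h
  have := h.2 2
  simpa [m2] using this

theorem two_lay {H : ℕ} {c0 c1 : ℤ} {v x : Vx (k + 3)} (h : x ∈ lay H c0 c1 v) :
    v 2 + H ≤ x 2 := by
  unfold lay at h
  rw [Finset.mem_Icc] at h
  have := h.1 2
  simpa [m2] using this

/-- The induction. -/
theorem main (h_STP : T_STP) (k s : ℕ) (v : Vx (k + 3)) (hs : 1 ≤ s) (n : ℕ) :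
    ∀ c0 c1 : ℤ,
    v 0 - (((s + n : ℕ) : ℤ) - s) ≤ c0 → c0 ≤ v 0 →
    v 1 - (((s + n : ℕ) : ℤ) - s) ≤ c1 → c1 ≤ v 1 →
    ∃ f : Ed (k + 3) → ℝ, (∀ e, e ∉ es (rg (s + n) v) → f e = 0) ∧
      ∑ e ∈ es (rg (s + n) v), f e ^ 2 ≤ 3 / s - 3 / ((s + n : ℕ) : ℝ) ∧
      ∀ r : Vx (k + 3) → ℝ, (∀ x ∈ cu s v, r x = r v) →
        ∑ e ∈ es (rg (s + n) v), f e * (r e.1 - r (tgt e)) = r v - avg (s + n) c0 c1 v r := by
  induction n with
  | zero =>
    intro c0 c1 h1 h2 h3 h4
    have e0 : c0 = v 0 := by push_cast at h1; omega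
    have e1 : c1 = v 1 := by push_cast at h3; omega
    refine ⟨fun _ => 0, fun _ _ => rfl, by simp, fun r hr => ?_⟩
    have : avg (s + 0) (v 0) (v 1) v r = r v := avg_const s v r hr
    rw [e0, e1, this]
    simp
  | succ n ih =>
    intro c0' c1' h1 h2 h3 h4
    obtain ⟨c0, a1, a2, a3⟩ : ∃ c0 : ℤ, (c0' = c0 ∨ c0' = c0 - 1) ∧
        v 0 - (((s + n : ℕ) : ℤ) - s) ≤ c0 ∧ c0 ≤ v 0 := by
      by_cases hc : c0' = v 0 - (((s + (n + 1) : ℕ) : ℤ) - s)
      · refine ⟨c0' + 1, Or.inr (by ring), ?_, ?_⟩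
        · push_cast at hc ⊢; omega
        · push_cast at hc ⊢; omega
      · refine ⟨c0', Or.inl rfl, ?_, h2⟩
        push_cast at hc h1 ⊢; omega
    obtain ⟨c1, b1, b2, b3⟩ : ∃ c1 : ℤ, (c1' = c1 ∨ c1' = c1 - 1) ∧
        v 1 - (((s + n : ℕ) : ℤ) - s) ≤ c1 ∧ c1 ≤ v 1 := by
      by_cases hc : c1' = v 1 - (((s + (n + 1) : ℕ) : ℤ) - s)
      · refine ⟨c1' + 1, Or.inr (by ring), ?_, ?_⟩
        · push_cast at hc ⊢; omega
        · push_cast at hc ⊢; omega
      · refine ⟨c1', Or.inl rfl, ?_, h4⟩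
        push_cast at hc h3 ⊢; omega
    obtain ⟨f, f1, f2, f3⟩ := ih c0 c1 a2 a3 b2 b3
    obtain ⟨g, g1, g2, g3⟩ := h_STP k v (s + n) c0 c1 c0' c1' a1 b1
    have hA : es (rg (s + n) v) ⊆ es (rg (s + (n + 1)) v) := es_mono (rg_sub (s + n) v)
    have hB : es (lay (s + n) c0' c1' v) ⊆ es (rg (s + (n + 1)) v) :=
      es_mono (lay_sub (s + n) s c0' c1' v h1 h2 h3 h4)
    have hg0 : ∀ e, e ∉ es (lay (s + n) c0' c1' v) → g e = 0 := by
      intro e he
      by_contra hne
      exact he (g1 e hne).1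
    have hfg : ∀ e, f e * g e = 0 := by
      intro e
      by_contra hne
      have hf : f e ≠ 0 := left_ne_zero_of_mul hne
      have hg : g e ≠ 0 := right_ne_zero_of_mul hne
      have k1 : e ∈ es (rg (s + n) v) := by
        by_contra hh
        exact hf (f1 e hh)
      obtain ⟨k2, k3⟩ := g1 e hg
      rw [mem_es] at k1 k2
      have m1 := two_rg k1.1
      have m2 := two_rg k1.2
      have m3 := two_lay k2.1
      by_cases h22 : e.2 = 2
      · have : tgt e 2 = e.1 2 + 1 := by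
          unfold tgt
          rw [h22]
          simp
        omega
      · have := k3 h22
        push_cast at m1 this
        omega
    refine ⟨fun e => f e + g e, ?_, ?_, ?_⟩
    · intro e he
      have t1 : f e = 0 := f1 e fun h => he (hA h)
      have t2 : g e = 0 := hg0 e fun h => he (hB h)
      simp [t1, t2]
    · have t0 : ∑ e ∈ es (rg (s + (n + 1)) v), (f e + g e) ^ 2 =
          ∑ e ∈ es (rg (s + n) v), f e ^ 2 + ∑ e ∈ es (lay (s + n) c0' c1' v), g e ^ 2 := by
        rw [Finset.sum_subset hA (f := fun e => f e ^ 2) fun e _ he => by simp [f1 e he],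
          Finset.sum_subset hB (f := fun e => g e ^ 2) fun e _ he => by simp [hg0 e he],
          ← Finset.sum_add_distrib]
        refine Finset.sum_congr rfl fun e _ => ?_
        have := hfg e
        nlinarith
      rw [t0]
      have hp : (0 : ℝ) < ((s + n : ℕ) : ℝ) := by
        have : 0 < s + n := by omega
        exact_mod_cast this
      have hq : ((s + (n + 1) : ℕ) : ℝ) = ((s + n : ℕ) : ℝ) + 1 := by push_cast; ring
      have t1 : 3 / (((s + n : ℕ) : ℝ) + 1) ^ 2 ≤
          3 / ((s + n : ℕ) : ℝ) - 3 / (((s + n : ℕ) : ℝ) + 1) := by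
        rw [div_sub_div _ _ hp.ne' (by positivity), div_le_div_iff₀ (by positivity) (by positivity)]
        nlinarith
      rw [hq]
      linarith
    · intro r hr
      have t0 : ∑ e ∈ es (rg (s + (n + 1)) v), (f e + g e) * (r e.1 - r (tgt e)) =
          ∑ e ∈ es (rg (s + n) v), f e * (r e.1 - r (tgt e)) +
            ∑ e ∈ es (lay (s + n) c0' c1' v), g e * (r e.1 - r (tgt e)) := by
        rw [Finset.sum_subset hA (f := fun e => f e * (r e.1 - r (tgt e)))
            fun e _ he => by simp [f1 e he],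
          Finset.sum_subset hB (f := fun e => g e * (r e.1 - r (tgt e)))
            fun e _ he => by simp [hg0 e he],
          ← Finset.sum_add_distrib]
        exact Finset.sum_congr rfl fun e _ => by ring
      rw [t0, f3 r hr, g3 r]
      have : avg (s + (n + 1)) c0' c1' v r = avg (s + n + 1) c0' c1' v r := rfl
      rw [this]
      ring

end FLO_

theorem p_FLO (h_STP : T_STP) : T_FLO := by
  intro k s H v c0 c1 hs hH h1 h2 h3 h4
  obtain ⟨n, rfl⟩ := Nat.exists_eq_add_of_le hH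
  obtain ⟨f, f1, f2, f3⟩ := FLO_.main h_STP k s v hs n c0 c1 h1 h2 h3 h4
  refine ⟨f, f1, f2.trans ?_, f3⟩
  have : (0 : ℝ) ≤ 3 / ((s + n : ℕ) : ℝ) := by positivity
  linarith

end Pool.Agent.FKP
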