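import Pool.Agent.FKP.PartC
import Pool.Agent.FKP.Lem

set_option autoImplicit false

/-!
# FKP, target GBE: good blocks have high probability
-/

namespace Pool.Agent.FKP

open Filter MeasureTheory Pool.Agent.FKT

namespace GBE_

theorem card_bx01 (d : ℕ) : (bx (0 : Vx d) 1).card = 3 ^ d := by
  unfold bx
  rw [Pi.card_Icc]
  simp

theorem mem_bx {d : ℕ} {x y : Vx d} {n : ℕ} :
    y ∈ bx x n ↔ ∀ i, x i - n ≤ y i ∧ y i ≤ x i + n := by
  unfold bx
  rw [Finset.mem_Icc, Pi.le_def, Pi.le_def]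
  constructor
  · rintro ⟨h1, h2⟩ i
    exact ⟨h1 i, h2 i⟩
  · intro h
    exact ⟨fun i => (h i).1, fun i => (h i).2⟩

/-- The numerical part. -/
theorem lim (d L : ℕ) (α ε : ℝ) (h0 : 0 < α) (h1 : α ≤ 1 / 2) (hε : 0 < ε) :
    ∃ m : ℕ, 1 ≤ m ∧ 3 ^ d * (1 - α) ^ m +
      5 * d * (72 * ((L : ℝ) + 1) * m + 13) ^ (2 * d) * (1 - α) ^ m ≤ ε := by
  have hr : |1 - α| < 1 := by
    rw [abs_lt]
    constructor <;> linarith
  have hT := tendsto_pow_const_mul_const_pow_of_abs_lt_one (2 * d) hr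
  have hT2 := hT.const_mul (3 ^ d + 5 * d * (72 * ((L : ℝ) + 1) + 13) ^ (2 * d))
  rw [mul_zero] at hT2
  have hev := (hT2.eventually (gt_mem_nhds hε)).and (eventually_ge_atTop 1)
  obtain ⟨m, hm, hm1⟩ := hev.exists
  refine ⟨m, hm1, le_trans ?_ hm.le⟩
  have hm1' : (1 : ℝ) ≤ (m : ℝ) := by exact_mod_cast hm1
  have hr0 : 0 ≤ (1 - α) ^ m := pow_nonneg (by linarith) m
  have hmp : 1 ≤ (m : ℝ) ^ (2 * d) := one_le_pow₀ hm1'
  have hL : (0 : ℝ) ≤ (L : ℝ) := Nat.cast_nonneg L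
  have a1 : 3 ^ d * (1 - α) ^ m ≤ 3 ^ d * ((m : ℝ) ^ (2 * d) * (1 - α) ^ m) := by
    have : (1 - α) ^ m ≤ (m : ℝ) ^ (2 * d) * (1 - α) ^ m := by nlinarith
    gcongr
  have a2 : (72 * ((L : ℝ) + 1) * m + 13) ^ (2 * d) ≤
      (72 * ((L : ℝ) + 1) + 13) ^ (2 * d) * (m : ℝ) ^ (2 * d) := by
    rw [← mul_pow]
    apply pow_le_pow_left₀ (by positivity)
    nlinarith
  have a3 : 5 * (d : ℝ) * (72 * ((L : ℝ) + 1) * m + 13) ^ (2 * d) * (1 - α) ^ m ≤
      5 * d * ((72 * ((L : ℝ) + 1) + 13) ^ (2 * d) * (m : ℝ) ^ (2 * d)) * (1 - α) ^ m := by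
    gcongr
  calc 3 ^ d * (1 - α) ^ m + 5 * d * (72 * ((L : ℝ) + 1) * m + 13) ^ (2 * d) * (1 - α) ^ m
      ≤ 3 ^ d * ((m : ℝ) ^ (2 * d) * (1 - α) ^ m) +
        5 * d * ((72 * ((L : ℝ) + 1) + 13) ^ (2 * d) * (m : ℝ) ^ (2 * d)) * (1 - α) ^ m :=
        add_le_add a1 a3
    _ = (3 ^ d + 5 * d * (72 * ((L : ℝ) + 1) + 13) ^ (2 * d)) *
        ((m : ℝ) ^ (2 * d) * (1 - α) ^ m) := by ring

/-- An arm gives a crossing. -/
theorem arm_cr {d : ℕ} (ω : Finset (Ed d)) (x : Vx d) (b h : ℕ) (hb : b = h + 1)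
    (hA : Arm (ω : Set (Ed d)) x b) : ∃ (i : Fin d) (c : ℤ), Cr i c h x ω := by
  obtain ⟨w, hw, hc⟩ := hA
  have hc' : Cf ω x w := by
    unfold Cf Cn
    unfold Cn at hc
    exact Con_mono (fun _ _ h => h) Set.inter_subset_left hc
  have hr : Cf ω x x := Con_refl _ _
  unfold bd at hw
  rw [Finset.mem_filter] at hw
  obtain ⟨_, i, hi⟩ := hw
  rcases hi with hi | hi
  · refine ⟨i, w i + 1, ⟨w, hc', by omega⟩, x, hr, ?_⟩
    rw [hi, hb]
    push_cast
    omega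
  · refine ⟨i, x i + 1, ⟨x, hr, by omega⟩, w, hc', ?_⟩
    rw [hi, hb]
    push_cast
    omega

end GBE_

open GBE_

theorem p_GBE (h_EXA : T_EXA) (h_GLU : T_GLU) : T_GBE := by
  intro d p q hd hp hp1 hq L α hS ε hε
  obtain ⟨m, hm1, hm⟩ := lim d L α ε hS.1 hS.2.1 hε
  obtain ⟨b, hb⟩ : ∃ b : ℕ, b = 9 * m * (L + 1) + 1 := ⟨_, rfl⟩
  refine ⟨b, by omega, fun R U v hU => ?_⟩
  have hq0 : 0 < q := by linarith
  have h1 : ∀ ω : Finset (Ed d), ω ⊆ eb v (4 * b + 2) → ind (¬ GB (ω : Set (Ed d)) v b) ≤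
      (∑ z ∈ bx (0 : Vx d) 1, ind (∀ y ∈ bx (v + cc b z) b, ¬ Arm (ω : Set (Ed d)) y b)) +
      ind (∃ u ∈ bx v (4 * b + 2), ∃ u' ∈ bx v (4 * b + 2),
        (∃ (i : Fin d) (c : ℤ), Cr i c (9 * m * (L + 1)) u ω) ∧
        (∃ (i : Fin d) (c : ℤ), Cr i c (9 * m * (L + 1)) u' ω) ∧ ¬ Cf ω u u') := by
    intro ω hω
    by_cases hG : GB (ω : Set (Ed d)) v b
    · rw [ind_false (not_not.mpr hG)]
      exact add_nonneg (Finset.sum_nonneg fun z _ => ind_nonneg _) (ind_nonneg _)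
    · rw [ind_true hG]
      unfold GB at hG
      rw [not_and_or] at hG
      rcases hG with hG | hG
      · push Not at hG
        obtain ⟨z, hz, hz2⟩ := hG
        have h2 : (1 : ℝ) ≤ ∑ z ∈ bx (0 : Vx d) 1,
            ind (∀ y ∈ bx (v + cc b z) b, ¬ Arm (ω : Set (Ed d)) y b) := by
          have h3 := Finset.single_le_sum (f := fun z : Vx d =>
            ind (∀ y ∈ bx (v + cc b z) b, ¬ Arm (ω : Set (Ed d)) y b))
            (fun z _ => ind_nonneg _) hz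
          have h4 : ind (∀ y ∈ bx (v + cc b z) b, ¬ Arm (ω : Set (Ed d)) y b) = 1 :=
            ind_true hz2
          simp only [h4] at h3
          exact h3
        have h5 := ind_nonneg (∃ u ∈ bx v (4 * b + 2), ∃ u' ∈ bx v (4 * b + 2),
          (∃ (i : Fin d) (c : ℤ), Cr i c (9 * m * (L + 1)) u ω) ∧
          (∃ (i : Fin d) (c : ℤ), Cr i c (9 * m * (L + 1)) u' ω) ∧ ¬ Cf ω u u')
        linarith
      · push Not at hG
        obtain ⟨x, hx, y, hy, hAx, hAy, hxy⟩ := hG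
        have hsub : ∀ x ∈ bx v (3 * b + 1), x ∈ bx v (4 * b + 2) := by
          intro x hx
          rw [mem_bx] at hx ⊢
          intro i
          have := hx i
          push_cast at this ⊢
          constructor <;> omega
        have h2 : ind (∃ u ∈ bx v (4 * b + 2), ∃ u' ∈ bx v (4 * b + 2),
            (∃ (i : Fin d) (c : ℤ), Cr i c (9 * m * (L + 1)) u ω) ∧
            (∃ (i : Fin d) (c : ℤ), Cr i c (9 * m * (L + 1)) u' ω) ∧ ¬ Cf ω u u') = 1 := by
          apply ind_true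
          refine ⟨x, hsub x hx, y, hsub y hy, arm_cr ω x b _ hb hAx, arm_cr ω y b _ hb hAy, ?_⟩
          intro hc
          apply hxy
          have h3 : (ω : Set (Ed d)) ∩ (eb v (4 * b + 2) : Set (Ed d)) = (ω : Set (Ed d)) :=
            Set.inter_eq_left.mpr (Finset.coe_subset.mpr hω)
          rw [h3]
          exact hc
        rw [h2]
        have h5 : 0 ≤ ∑ z ∈ bx (0 : Vx d) 1,
            ind (∀ y ∈ bx (v + cc b z) b, ¬ Arm (ω : Set (Ed d)) y b) :=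
          Finset.sum_nonneg fun z _ => ind_nonneg _
        linarith
  refine le_trans (Ex_mono hp hp1 hq0 h1) ?_
  rw [Ex_add, Ex_sum]
  have h2 : ∑ z ∈ bx (0 : Vx d) 1, Ex Prod.fst tgt R U (eb v (4 * b + 2)) p q
      (fun ω => ind (∀ y ∈ bx (v + cc b z) b, ¬ Arm (ω : Set (Ed d)) y b)) ≤
      3 ^ d * (1 - α) ^ m := by
    refine le_trans (Finset.sum_le_sum (g := fun _ => (1 - α) ^ m) fun z hz => ?_) (le_of_eq ?_)
    · apply h_EXA d p q hd hp hp1 hq L α hS R U v (v + cc b z) (4 * b + 2) b hU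
      · intro i
        rw [mem_bx] at hz
        have hzi := hz i
        have h3 : (v + cc b z) i - v i = (2 * (b : ℤ) + 1) * z i := by
          simp [cc]
        rw [h3, abs_mul]
        have h4 : |z i| ≤ 1 := by
          rw [abs_le]
          simp only [Pi.zero_apply, zero_sub, zero_add, Nat.cast_one] at hzi
          exact hzi
        have h5 : |2 * (b : ℤ) + 1| = 2 * (b : ℤ) + 1 := abs_of_nonneg (by positivity)
        rw [h5]
        push_cast
        nlinarith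
      · rw [hb]
        nlinarith
    · rw [Finset.sum_const, card_bx01, nsmul_eq_mul]
      push_cast
      ring
  have h3 := h_GLU d p q hd hp hp1 hq L α hS R U v (4 * b + 2) hU m (by rw [hb]; omega)
  have h4 : 2 * (((4 * b + 2 : ℕ)) : ℝ) + 1 = 72 * ((L : ℝ) + 1) * m + 13 := by
    rw [hb]
    push_cast
    ring
  rw [h4] at h3
  linarith

end Pool.Agent.FKP
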