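import Pool.Agent.FKP.PartD
import Pool.Agent.FKP.Lem

set_option autoImplicit false

/-!
# Project FKP: the target T_GIN
-/

namespace Pool.Agent.FKP

open Pool.Agent.FKT

namespace GIN_

/-! ## Trigonometry in `ZMod N` -/

section trig

variable {N : ℕ} [NeZero N]

lemma toC (a : ZMod N) : ((ZMod.toCircle a : Circle) : ℂ) =
    (Real.cos (agl N a) : ℂ) + (Real.sin (agl N a) : ℂ) * Complex.I := by
  rw [ZMod.toCircle_apply]
  have h : (2 * Real.pi * Complex.I * (a.val : ℂ) / N : ℂ) =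
      ((agl N a : ℝ) : ℂ) * Complex.I := by
    unfold agl
    push_cast
    ring
  rw [h, Complex.exp_mul_I, ← Complex.ofReal_cos, ← Complex.ofReal_sin]

lemma add_aux (a b : ZMod N) :
    Real.cos (agl N (a + b)) = Real.cos (agl N a) * Real.cos (agl N b) -
      Real.sin (agl N a) * Real.sin (agl N b) ∧
    Real.sin (agl N (a + b)) = Real.cos (agl N a) * Real.sin (agl N b) +
      Real.sin (agl N a) * Real.cos (agl N b) := by
  have h : ((ZMod.toCircle (a + b) : Circle) : ℂ) =
      ((ZMod.toCircle a : Circle) : ℂ) * ((ZMod.toCircle b : Circle) : ℂ) := by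
    rw [AddChar.map_add_eq_mul]
    rfl
  rw [toC, toC, toC] at h
  have hr := congrArg Complex.re h
  have hi := congrArg Complex.im h
  simp only [Complex.add_re, Complex.mul_re, Complex.ofReal_re, Complex.ofReal_im,
    Complex.I_re, Complex.I_im, Complex.add_im, Complex.mul_im] at hr hi
  constructor
  · linarith
  · linarith

lemma zero_aux : agl N (0 : ZMod N) = 0 := by
  unfold agl
  rw [ZMod.val_zero]
  simp

lemma neg_aux (a : ZMod N) :
    Real.cos (agl N (-a)) = Real.cos (agl N a) ∧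
    Real.sin (agl N (-a)) = - Real.sin (agl N a) := by
  have h := add_aux a (-a)
  rw [add_neg_cancel, zero_aux, Real.cos_zero, Real.sin_zero] at h
  obtain ⟨h1, h2⟩ := h
  have h3 := Real.sin_sq_add_cos_sq (agl N a)
  constructor
  · linear_combination (-Real.cos (agl N (-a))) * h3 - Real.cos (agl N a) * h1 -
      Real.sin (agl N a) * h2
  · linear_combination (-Real.sin (agl N (-a))) * h3 + Real.sin (agl N a) * h1 -
      Real.cos (agl N a) * h2

lemma sub_aux (a b : ZMod N) :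
    Real.cos (agl N (a - b)) = Real.cos (agl N a) * Real.cos (agl N b) +
      Real.sin (agl N a) * Real.sin (agl N b) ∧
    Real.sin (agl N (a - b)) = Real.sin (agl N a) * Real.cos (agl N b) -
      Real.cos (agl N a) * Real.sin (agl N b) := by
  have h := add_aux a (-b)
  rw [← sub_eq_add_neg, (neg_aux b).1, (neg_aux b).2] at h
  constructor
  · linarith [h.1]
  · linarith [h.2]

lemma sin_sin (u v : ZMod N) :
    Real.sin (agl N (u + v)) * Real.sin (agl N (u - v)) =
      (Real.cos (agl N (v + v)) - Real.cos (agl N (u + u))) / 2 := by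
  rw [(add_aux u v).2, (sub_aux u v).2, (add_aux v v).1, (add_aux u u).1]
  have h1 := Real.sin_sq_add_cos_sq (agl N u)
  have h2 := Real.sin_sq_add_cos_sq (agl N v)
  have h3 : Real.cos (agl N v) ^ 2 = 1 - Real.sin (agl N v) ^ 2 := by linarith
  have h4 : Real.cos (agl N u) ^ 2 = 1 - Real.sin (agl N u) ^ 2 := by linarith
  ring_nf
  rw [h3, h4]
  ring

lemma cos_cos (u v : ZMod N) :
    Real.cos (agl N (u + v)) * Real.cos (agl N (u - v)) =
      (Real.cos (agl N (v + v)) + Real.cos (agl N (u + u))) / 2 := by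
  rw [(add_aux u v).1, (sub_aux u v).1, (add_aux v v).1, (add_aux u u).1]
  have h1 := Real.sin_sq_add_cos_sq (agl N u)
  have h2 := Real.sin_sq_add_cos_sq (agl N v)
  have h3 : Real.cos (agl N v) ^ 2 = 1 - Real.sin (agl N v) ^ 2 := by linarith
  have h4 : Real.cos (agl N u) ^ 2 = 1 - Real.sin (agl N u) ^ 2 := by linarith
  ring_nf
  rw [h3, h4]
  ring

end trig

/-! ## Reduction modulo `n` -/

section red

variable (n : ℕ) [NeZero n]

/-- Reduction from `ZMod (2 n)` to `ZMod n`. -/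
def red : ZMod (2 * n) →+* ZMod n := ZMod.castHom (dvd_mul_left n 2) (ZMod n)

lemma red_surj : Function.Surjective (red n) := ZMod.castHom_surjective _

lemma red_val (a : ZMod (2 * n)) : red n a = ((a.val : ℕ) : ZMod n) := by
  have h : red n a = red n ((a.val : ℕ) : ZMod (2 * n)) := by
    rw [ZMod.natCast_zmod_val]
  rw [h, map_natCast]

lemma red_zero (a : ZMod (2 * n)) : red n a = 0 ↔ a + a = 0 := by
  have h1 : a + a = ((2 * a.val : ℕ) : ZMod (2 * n)) := by
    rw [Nat.cast_mul, ZMod.natCast_zmod_val]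
    push_cast
    ring
  rw [red_val, h1, ZMod.natCast_eq_zero_iff, ZMod.natCast_eq_zero_iff]
  exact (Nat.mul_dvd_mul_iff_left (by norm_num)).symm

lemma cos_red (a : ZMod (2 * n)) :
    Real.cos (agl (2 * n) (a + a)) = Real.cos (agl n (red n a)) := by
  have h1 : a + a = ((2 * a.val : ℕ) : ZMod (2 * n)) := by
    rw [Nat.cast_mul, ZMod.natCast_zmod_val]
    push_cast
    ring
  have hn : (n : ℂ) ≠ 0 := by exact_mod_cast NeZero.ne n
  have h2 : ((ZMod.toCircle (a + a) : Circle) : ℂ) =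
      ((ZMod.toCircle (red n a) : Circle) : ℂ) := by
    rw [red_val, h1, ZMod.toCircle_natCast, ZMod.toCircle_natCast]
    congr 1
    push_cast
    field_simp
  rw [toC, toC] at h2
  have hr := congrArg Complex.re h2
  simp only [Complex.add_re, Complex.mul_re, Complex.ofReal_re, Complex.ofReal_im,
    Complex.I_re, Complex.I_im] at hr
  linarith

variable (V : Type) [DecidableEq V] [Fintype V]

/-- Reduction of the colourings. -/
def redV : (V → ZMod (2 * n)) →+ (V → ZMod n) where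
  toFun g := fun i => red n (g i)
  map_zero' := by
    funext i
    simp
  map_add' g h := by
    funext i
    simp

lemma redV_surj : Function.Surjective (redV n V) := by
  intro σ
  choose g hg using fun i => red_surj n (σ i)
  exact ⟨g, funext hg⟩

lemma sum_red : ∃ c0 : ℝ, 0 < c0 ∧ ∀ H : (V → ZMod n) → ℝ,
    ∑ g : V → ZMod (2 * n), H (redV n V g) = c0 * ∑ σ, H σ := by
  classical
  refine ⟨((Finset.univ.filter fun g => redV n V g = 0).card : ℝ), ?_, ?_⟩
  · have : 0 < (Finset.univ.filter fun g => redV n V g = 0).card :=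
      Finset.card_pos.mpr ⟨0, by simp⟩
    exact_mod_cast this
  · intro H
    rw [← Finset.sum_fiberwise Finset.univ (redV n V) (fun g => H (redV n V g)), Finset.mul_sum]
    refine Finset.sum_congr rfl fun σ _ => ?_
    have h1 : ∑ g ∈ Finset.univ.filter (fun g => redV n V g = σ), H (redV n V g) =
        ∑ g ∈ Finset.univ.filter (fun g => redV n V g = σ), H σ :=
      Finset.sum_congr rfl fun g hg => by rw [(Finset.mem_filter.mp hg).2]
    rw [h1, Finset.sum_const, nsmul_eq_mul]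
    congr 2
    exact AddMonoidHom.card_fiber_eq_of_mem_range (redV n V)
      (redV_surj n V σ) (redV_surj n V 0)

end red

/-! ## The positive semidefinite form -/

/-- The bilinear form with the kernel `K`. -/
noncomputable def SS {A : Type} [AddCommGroup A] [Fintype A] (K : A → A → ℝ) (A1 A2 : A → ℝ) :
    ℝ := ∑ g : A, ∑ h : A, K (g + h) (g - h) * (A1 (g + h) * A2 (g - h))

lemma SS_eq (hG : T_GPS) {A : Type} [AddCommGroup A] [Fintype A] (K : A → A → ℝ) (m : ℕ)
    (C : Fin m → A → ℝ) (hK : ∀ a b, K a b = ∑ i, C i a * C i b) (A1 A2 : A → ℝ) :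
    SS K A1 A2 = (1 / (Fintype.card A : ℝ)) * ∑ iz : Fin m × A,
      (∑ y : A, C iz.1 (iz.2 + (y + y)) * A1 (iz.2 + (y + y))) *
        ∑ y : A, C iz.1 (iz.2 + (y + y)) * A2 (iz.2 + (y + y)) := by
  unfold SS
  have h1 : ∀ i : Fin m, ∑ g : A, ∑ h : A, (C i (g + h) * A1 (g + h)) * (C i (g - h) * A2 (g - h))
      = (1 / (Fintype.card A : ℝ)) * ∑ z : A, (∑ y : A, C i (z + (y + y)) * A1 (z + (y + y))) *
        ∑ y : A, C i (z + (y + y)) * A2 (z + (y + y)) := fun i =>
    hG A (fun a => C i a * A1 a) (fun a => C i a * A2 a)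
  rw [Fintype.sum_prod_type]
  rw [Finset.mul_sum]
  have h2 : ∑ i : Fin m, ∑ g : A, ∑ h : A,
      (C i (g + h) * A1 (g + h)) * (C i (g - h) * A2 (g - h)) =
      ∑ g : A, ∑ h : A, K (g + h) (g - h) * (A1 (g + h) * A2 (g - h)) := by
    rw [Finset.sum_comm]
    refine Finset.sum_congr rfl fun g _ => ?_
    rw [Finset.sum_comm]
    refine Finset.sum_congr rfl fun h _ => ?_
    rw [hK, Finset.sum_mul]
    exact Finset.sum_congr rfl fun i _ => by ring
  rw [← h2]
  exact Finset.sum_congr rfl fun i _ => h1 i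

lemma SS_symm (hG : T_GPS) {A : Type} [AddCommGroup A] [Fintype A] (K : A → A → ℝ)
    (hK : PDk K) (A1 A2 : A → ℝ) : SS K A1 A2 = SS K A2 A1 := by
  obtain ⟨m, C, hC⟩ := hK
  rw [SS_eq hG K m C hC, SS_eq hG K m C hC]
  congr 1
  exact Finset.sum_congr rfl fun i _ => mul_comm _ _

lemma SS_nonneg (hG : T_GPS) {A : Type} [AddCommGroup A] [Fintype A] (K : A → A → ℝ)
    (hK : PDk K) (A1 : A → ℝ) : 0 ≤ SS K A1 A1 := by
  obtain ⟨m, C, hC⟩ := hK
  rw [SS_eq hG K m C hC]
  exact mul_nonneg (by positivity) (Finset.sum_nonneg fun i _ => mul_self_nonneg _)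

lemma SS_cs (hG : T_GPS) {A : Type} [AddCommGroup A] [Fintype A] (K : A → A → ℝ)
    (hK : PDk K) (A1 A2 : A → ℝ) : SS K A1 A2 ^ 2 ≤ SS K A1 A1 * SS K A2 A2 := by
  obtain ⟨m, C, hC⟩ := hK
  rw [SS_eq hG K m C hC, SS_eq hG K m C hC, SS_eq hG K m C hC, mul_pow, mul_mul_mul_comm,
    ← sq]
  refine mul_le_mul_of_nonneg_left ?_ (sq_nonneg _)
  have h := Finset.sum_mul_sq_le_sq_mul_sq (Finset.univ : Finset (Fin m × A))
    (fun iz => ∑ y : A, C iz.1 (iz.2 + (y + y)) * A1 (iz.2 + (y + y)))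
    (fun iz => ∑ y : A, C iz.1 (iz.2 + (y + y)) * A2 (iz.2 + (y + y)))
  simpa only [sq] using h

lemma SS_bil (hG : T_GPS) {A : Type} [AddCommGroup A] [Fintype A] (K : A → A → ℝ)
    (hK : PDk K) (B1 B2 : A → ℝ) :
    SS K (fun a => B1 a - B2 a) (fun a => B1 a + B2 a) = SS K B1 B1 - SS K B2 B2 := by
  have h1 : SS K (fun a => B1 a - B2 a) (fun a => B1 a + B2 a) =
      SS K B1 B1 + SS K B1 B2 - SS K B2 B1 - SS K B2 B2 := by
    unfold SS
    rw [← Finset.sum_add_distrib, ← Finset.sum_sub_distrib, ← Finset.sum_sub_distrib]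
    refine Finset.sum_congr rfl fun g _ => ?_
    rw [← Finset.sum_add_distrib, ← Finset.sum_sub_distrib, ← Finset.sum_sub_distrib]
    exact Finset.sum_congr rfl fun h _ => by ring
  rw [h1, SS_symm hG K hK B2 B1]
  ring

/-! ## Algebra of the double sums -/

lemma alg1 {A : Type} [Fintype A] (w f c : A → ℝ) :
    ∑ g, ∑ h, w g * w h * (f h - f g) * ((c h - c g) / 2) =
      (∑ g, w g * (f g * c g)) * (∑ g, w g * 1) - (∑ g, w g * f g) * ∑ g, w g * c g := by
  have h0 : ∀ u v : A → ℝ, (∑ g, u g) * (∑ h, v h) = ∑ g, ∑ h, u g * v h := fun u v => by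
    rw [Finset.sum_mul_sum]
  have h1 : (∑ g, w g * (f g * c g)) * (∑ g, w g * 1) - (∑ g, w g * f g) * ∑ g, w g * c g =
      ((∑ g, w g * 1) * (∑ g, w g * (f g * c g)) + (∑ g, w g * (f g * c g)) * (∑ g, w g * 1)
        - (∑ g, w g * f g) * (∑ g, w g * c g) - (∑ g, w g * c g) * (∑ g, w g * f g)) / 2 := by
    ring
  rw [h1, h0, h0, h0, h0, ← Finset.sum_add_distrib, ← Finset.sum_sub_distrib,
    ← Finset.sum_sub_distrib, Finset.sum_div]
  refine Finset.sum_congr rfl fun g _ => ?_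
  rw [← Finset.sum_add_distrib, ← Finset.sum_sub_distrib,
    ← Finset.sum_sub_distrib, Finset.sum_div]
  exact Finset.sum_congr rfl fun h _ => by ring

lemma alg2 {A : Type} [Fintype A] (w f a b : A → ℝ) :
    ∑ g, ∑ h, w g * w h * (f h - f g) * ((a h * b g - a g * b h) / 2) =
      (∑ g, w g * (f g * a g)) * (∑ g, w g * b g) -
        (∑ g, w g * (f g * b g)) * ∑ g, w g * a g := by
  have h0 : ∀ u v : A → ℝ, (∑ g, u g) * (∑ h, v h) = ∑ g, ∑ h, u g * v h := fun u v => by
    rw [Finset.sum_mul_sum]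
  have h1 : (∑ g, w g * (f g * a g)) * (∑ g, w g * b g) -
        (∑ g, w g * (f g * b g)) * ∑ g, w g * a g =
      ((∑ g, w g * b g) * (∑ g, w g * (f g * a g)) + (∑ g, w g * (f g * a g)) * (∑ g, w g * b g)
        - (∑ g, w g * (f g * b g)) * (∑ g, w g * a g) -
          (∑ g, w g * a g) * (∑ g, w g * (f g * b g))) / 2 := by
    ring
  rw [h1, h0, h0, h0, h0, ← Finset.sum_add_distrib, ← Finset.sum_sub_distrib,
    ← Finset.sum_sub_distrib, Finset.sum_div]
  refine Finset.sum_congr rfl fun g _ => ?_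
  rw [← Finset.sum_add_distrib, ← Finset.sum_sub_distrib,
    ← Finset.sum_sub_distrib, Finset.sum_div]
  exact Finset.sum_congr rfl fun h _ => by ring

/-! ## Kernels -/

lemma pd_one (hK : T_KER) (A : Type) : PDk (fun _ _ : A => (1 : ℝ)) := by
  have h := hK.2.2.1 A Empty ∅ (fun i _ _ => i.elim) (fun i hi => absurd hi (by simp))
  simpa using h

/-- The product `u g * u h` is a kernel in `g + h`, `g - h`. -/
def Dup {A : Type} [AddCommGroup A] (u : A → ℝ) : Prop :=
  ∃ K : A → A → ℝ, PDk K ∧ ∀ g h, u g * u h = K (g + h) (g - h)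

lemma dup_mul (hK : T_KER) {A : Type} [AddCommGroup A] {u v : A → ℝ} (hu : Dup u)
    (hv : Dup v) : Dup fun g => u g * v g := by
  obtain ⟨K, h1, h2⟩ := hu
  obtain ⟨K', h1', h2'⟩ := hv
  refine ⟨fun a b => K a b * K' a b, (hK.1 A K K' h1 h1').2, fun g h => ?_⟩
  show _ = K _ _ * K' _ _
  rw [← h2, ← h2']
  ring

lemma dup_prod (hK : T_KER) {A ι : Type} [AddCommGroup A] (S : Finset ι) (u : ι → A → ℝ)
    (hu : ∀ i ∈ S, Dup (u i)) : Dup fun g => ∏ i ∈ S, u i g := by
  choose! K h1 h2 using hu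
  refine ⟨fun a b => ∏ i ∈ S, K i a b, hK.2.2.1 A ι S K h1, fun g h => ?_⟩
  show _ = ∏ i ∈ S, K i _ _
  rw [← Finset.prod_mul_distrib]
  exact Finset.prod_congr rfl fun i hi => h2 i hi g h

section dup

variable (n : ℕ) [NeZero n] {A : Type} [AddCommGroup A] (f : A →+ ZMod (2 * n))

lemma f_add (g h : A) : f (g + h) + f (g - h) = f g + f g := by
  rw [map_add, map_sub]
  abel

lemma f_sub (g h : A) : f (g + h) - f (g - h) = f h + f h := by
  rw [map_add, map_sub]
  abel

lemma dup_ind (hK : T_KER) : Dup fun g => ind (f g + f g = 0) := by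
  have h := hK.2.2.2.1 (ZMod (2 * n)) A _ f (hK.2.2.2.2 n).2.2
  refine ⟨_, h, fun g h => ?_⟩
  show _ = ind (f (g + h) + f (g - h) = 0) * ind (f (g + h) - f (g - h) = 0)
  rw [f_add, f_sub]

lemma dup_edge (hK : T_KER) (p : ℝ) (hp : 0 < p) (hp1 : p < 1) :
    Dup fun g => 1 - p + p * ind (f g + f g = 0) := by
  have h3 := hK.2.2.2.1 (ZMod (2 * n)) A _ f (hK.2.2.2.2 n).2.2
  have h1 := hK.2.2.2.1 (ZMod (2 * n)) A _ f (hK.2.2.2.2 n).1
  have h0 := pd_one hK A
  have k3 := hK.2.1 A _ (p ^ 2) (sq_nonneg p) h3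
  have k1 := hK.2.1 A _ (p * (1 - p)) (mul_nonneg hp.le (by linarith)) h1
  have k0 := hK.2.1 A _ ((1 - p) ^ 2) (sq_nonneg _) h0
  have k := (hK.1 A _ _ (hK.1 A _ _ k0 k1).1 k3).1
  refine ⟨_, k, fun g h => ?_⟩
  show _ = (1 - p) ^ 2 * 1 + p * (1 - p) * (ind (f (g + h) + f (g - h) = 0) +
    ind (f (g + h) - f (g - h) = 0)) + p ^ 2 * (ind (f (g + h) + f (g - h) = 0) *
      ind (f (g + h) - f (g - h) = 0))
  rw [f_add, f_sub]
  ring

lemma pd_dif (hK : T_KER) : ∃ K : A → A → ℝ, PDk K ∧ ∀ g h,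
    ind (f h + f h = 0) - ind (f g + f g = 0) = K (g + h) (g - h) := by
  have h := hK.2.2.2.1 (ZMod (2 * n)) A _ f (hK.2.2.2.2 n).2.1
  refine ⟨_, h, fun g h => ?_⟩
  show _ = ind (f (g + h) - f (g - h) = 0) - ind (f (g + h) + f (g - h) = 0)
  rw [f_add, f_sub]

end dup

/-! ## The Potts weight -/

section potts

variable {V E : Type} [DecidableEq V] [Fintype V] [Fintype E]

/-- The weight of a colouring. -/
noncomputable def ww (n : ℕ) (s t : E → V) (R : V → V → Prop) (p : ℝ) (T : V)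
    (σ : V → ZMod n) : ℝ :=
  ind ((∀ a b, R a b → σ a = σ b) ∧ σ T = 0) *
    ∏ e : E, (1 - p + p * ind (σ (s e) = σ (t e)))

lemma pots_eq (n : ℕ) [NeZero n] (s t : E → V) (R : V → V → Prop) (p : ℝ) (T : V)
    (g : (V → ZMod n) → ℝ) : pots n s t R p T g = ∑ σ, ww n s t R p T σ * g σ := rfl

omit [DecidableEq V] in
open Classical in
lemma ind_all (R Q : V → V → Prop) : ind (∀ a b, R a b → Q a b) =
    ∏ ab ∈ Finset.univ.filter (fun ab : V × V => R ab.1 ab.2), ind (Q ab.1 ab.2) := by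
  by_cases h : ∀ a b, R a b → Q a b
  · rw [ind_true h, Finset.prod_eq_one]
    intro ab hab
    exact ind_true (h _ _ (Finset.mem_filter.mp hab).2)
  · rw [ind_false h]
    push Not at h
    obtain ⟨a, b, h1, h2⟩ := h
    symm
    exact Finset.prod_eq_zero (i := (a, b)) (by simp [h1]) (ind_false h2)

/-- Evaluation. -/
def ev (n : ℕ) (a : V) : (V → ZMod (2 * n)) →+ ZMod (2 * n) :=
  Pi.evalAddMonoidHom (fun _ => ZMod (2 * n)) a

omit [DecidableEq V] [Fintype V] in
lemma red_eq (n : ℕ) [NeZero n] (g : V → ZMod (2 * n)) (a b : V) :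
    (redV n V g a = redV n V g b) ↔ ((ev n a - ev n b) g + (ev n a - ev n b) g = 0) := by
  have h : redV n V g a = redV n V g b ↔ red n (g a - g b) = 0 := by
    rw [map_sub, sub_eq_zero]
    rfl
  rw [h, red_zero]
  rfl

omit [DecidableEq V] [Fintype V] in
lemma red_eq0 (n : ℕ) [NeZero n] (g : V → ZMod (2 * n)) (a : V) :
    (redV n V g a = 0) ↔ (ev n a g + ev n a g = 0) := red_zero n (g a)

open Classical in
lemma ww_dup (hK : T_KER) (n : ℕ) [NeZero n] (s t : E → V) (R : V → V → Prop) (p : ℝ)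
    (hp : 0 < p) (hp1 : p < 1) (T : V) :
    Dup fun g : V → ZMod (2 * n) => ww n s t R p T (redV n V g) := by
  have h1 : Dup fun g : V → ZMod (2 * n) =>
      ∏ ab ∈ Finset.univ.filter (fun ab : V × V => R ab.1 ab.2),
        ind ((ev n ab.1 - ev n ab.2) g + (ev n ab.1 - ev n ab.2) g = 0) :=
    dup_prod hK _ _ fun ab _ => dup_ind n (ev n ab.1 - ev n ab.2) hK
  have h2 : Dup fun g : V → ZMod (2 * n) => ind (ev n T g + ev n T g = 0) :=
    dup_ind n (ev n T) hK
  have h3 : Dup fun g : V → ZMod (2 * n) =>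
      ∏ e : E, (1 - p + p * ind ((ev n (s e) - ev n (t e)) g + (ev n (s e) - ev n (t e)) g = 0)) :=
    dup_prod hK _ _ fun e _ => dup_edge n (ev n (s e) - ev n (t e)) hK p hp hp1
  have h4 := dup_mul hK (dup_mul hK h1 h2) h3
  have h5 : (fun g : V → ZMod (2 * n) => ww n s t R p T (redV n V g)) = fun g =>
      (∏ ab ∈ Finset.univ.filter (fun ab : V × V => R ab.1 ab.2),
        ind ((ev n ab.1 - ev n ab.2) g + (ev n ab.1 - ev n ab.2) g = 0)) *
      ind (ev n T g + ev n T g = 0) *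
      ∏ e : E, (1 - p + p *
        ind ((ev n (s e) - ev n (t e)) g + (ev n (s e) - ev n (t e)) g = 0)) := by
    funext g
    unfold ww
    rw [ind_and, ind_all R (fun a b => redV n V g a = redV n V g b), ind_congr (red_eq0 n g T)]
    congr 1
    · congr 1
      exact Finset.prod_congr rfl fun ab _ => ind_congr (red_eq n g ab.1 ab.2)
    · exact Finset.prod_congr rfl fun e _ => by rw [ind_congr (red_eq n g (s e) (t e))]
  rw [h5]
  exact h4

end potts

end GIN_

open GIN_ in
theorem p_GIN (hG : T_GPS) (hK : T_KER) : T_GIN := by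
  intro V E _ _ _ _ n _ s t R p hp hp1 T B x y P f c c' cx cy
  obtain ⟨c0, hc0, hsum⟩ := sum_red n V
  obtain ⟨KW, hKW, hKW2⟩ := ww_dup hK n s t R p hp hp1 T
  obtain ⟨KF, hKF, hKF2⟩ := pd_dif n (ev n B) hK
  have hPD : PDk fun a b : V → ZMod (2 * n) => KW a b * KF a b := (hK.1 _ KW KF hKW hKF).2
  set K : (V → ZMod (2 * n)) → (V → ZMod (2 * n)) → ℝ := fun a b => KW a b * KF a b with hKdef
  set r : (V → ZMod (2 * n)) → (V → ZMod n) := fun g => redV n V g with hr
  set W : (V → ZMod (2 * n)) → ℝ := fun g => ww n s t R p T (r g) with hW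
  have hKK : ∀ g h, K (g + h) (g - h) = W g * W h * (f (r h) - f (r g)) := by
    intro g h
    have e1 := hKW2 g h
    have e2 := hKF2 g h
    show KW (g + h) (g - h) * KF (g + h) (g - h) = _
    rw [← e1, ← e2, ← ind_congr (red_eq0 n h B), ← ind_congr (red_eq0 n g B)]
  have hP : ∀ H : (V → ZMod n) → ℝ, ∑ g, W g * H (r g) = c0 * P H := fun H =>
    hsum fun σ => ww n s t R p T σ * H σ
  set A1 : (V → ZMod (2 * n)) → ℝ := fun a => Real.sin (agl (2 * n) (a x - a y)) with hA1
  set A2 : (V → ZMod (2 * n)) → ℝ := fun a => Real.sin (agl (2 * n) (a x + a y)) with hA2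
  set B1 : (V → ZMod (2 * n)) → ℝ := fun a =>
    Real.sin (agl (2 * n) (a x)) * Real.cos (agl (2 * n) (a y)) with hB1
  set B2 : (V → ZMod (2 * n)) → ℝ := fun a =>
    Real.cos (agl (2 * n) (a x)) * Real.sin (agl (2 * n) (a y)) with hB2
  have hA1B : A1 = fun a => B1 a - B2 a := funext fun a => (sub_aux (a x) (a y)).2
  have hA2B : A2 = fun a => B1 a + B2 a := funext fun a => by
    show Real.sin (agl (2 * n) (a x + a y)) = _
    rw [(add_aux (a x) (a y)).2]
    show _ = Real.sin (agl (2 * n) (a x)) * Real.cos (agl (2 * n) (a y)) +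
      Real.cos (agl (2 * n) (a x)) * Real.sin (agl (2 * n) (a y))
    ring
  have t1 : ∀ g h, A1 (g + h) * A1 (g - h) = (c (r h) - c (r g)) / 2 := by
    intro g h
    show Real.sin (agl (2 * n) ((g x + h x) - (g y + h y))) *
      Real.sin (agl (2 * n) ((g x - h x) - (g y - h y))) = _
    have e1 : (g x + h x) - (g y + h y) = (g x - g y) + (h x - h y) := by abel
    have e2 : (g x - h x) - (g y - h y) = (g x - g y) - (h x - h y) := by abel
    rw [e1, e2, sin_sin, cos_red, cos_red, map_sub, map_sub]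
    rfl
  have t2 : ∀ g h, A2 (g + h) * A2 (g - h) = (c' (r h) - c' (r g)) / 2 := by
    intro g h
    show Real.sin (agl (2 * n) ((g x + h x) + (g y + h y))) *
      Real.sin (agl (2 * n) ((g x - h x) + (g y - h y))) = _
    have e1 : (g x + h x) + (g y + h y) = (g x + g y) + (h x + h y) := by abel
    have e2 : (g x - h x) + (g y - h y) = (g x + g y) - (h x + h y) := by abel
    rw [e1, e2, sin_sin, cos_red, cos_red, map_add, map_add]
    rfl
  have t3 : ∀ g h, B1 (g + h) * B1 (g - h) - B2 (g + h) * B2 (g - h) =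
      (cx (r h) * cy (r g) - cx (r g) * cy (r h)) / 2 := by
    intro g h
    have s1 := sin_sin (g x) (h x)
    have s2 := sin_sin (g y) (h y)
    have k1 := cos_cos (g x) (h x)
    have k2 := cos_cos (g y) (h y)
    rw [cos_red, cos_red] at s1 s2 k1 k2
    show (Real.sin (agl (2 * n) (g x + h x)) * Real.cos (agl (2 * n) (g y + h y))) *
      (Real.sin (agl (2 * n) (g x - h x)) * Real.cos (agl (2 * n) (g y - h y))) -
      (Real.cos (agl (2 * n) (g x + h x)) * Real.sin (agl (2 * n) (g y + h y))) *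
      (Real.cos (agl (2 * n) (g x - h x)) * Real.sin (agl (2 * n) (g y - h y))) =
      (Real.cos (agl n (red n (h x))) * Real.cos (agl n (red n (g y))) -
        Real.cos (agl n (red n (g x))) * Real.cos (agl n (red n (h y)))) / 2
    have e1 : ∀ a b c d : ℝ, (a * b) * (c * d) = (a * c) * (b * d) := fun a b c d => by ring
    rw [e1, e1 (Real.cos (agl (2 * n) (g x + h x))), s1, s2, k1, k2]
    ring
  have S1 : SS K A1 A1 = c0 ^ 2 * (P (fun σ => f σ * c σ) * P (fun _ => 1) - P f * P c) := by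
    have e : SS K A1 A1 = ∑ g, ∑ h, W g * W h * (f (r h) - f (r g)) *
        ((c (r h) - c (r g)) / 2) := by
      unfold SS
      exact Finset.sum_congr rfl fun g _ => Finset.sum_congr rfl fun h _ => by
        rw [hKK, t1]
    rw [e, alg1 W (fun g => f (r g)) (fun g => c (r g)), hP (fun σ => f σ * c σ),
      hP (fun _ => 1), hP f, hP c]
    ring
  have S2 : SS K A2 A2 = c0 ^ 2 * (P (fun σ => f σ * c' σ) * P (fun _ => 1) - P f * P c') := by
    have e : SS K A2 A2 = ∑ g, ∑ h, W g * W h * (f (r h) - f (r g)) *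
        ((c' (r h) - c' (r g)) / 2) := by
      unfold SS
      exact Finset.sum_congr rfl fun g _ => Finset.sum_congr rfl fun h _ => by
        rw [hKK, t2]
    rw [e, alg1 W (fun g => f (r g)) (fun g => c' (r g)), hP (fun σ => f σ * c' σ),
      hP (fun _ => 1), hP f, hP c']
    ring
  have S3 : SS K A1 A2 =
      c0 ^ 2 * (P (fun σ => f σ * cx σ) * P cy - P (fun σ => f σ * cy σ) * P cx) := by
    have e : SS K A1 A2 = ∑ g, ∑ h, W g * W h * (f (r h) - f (r g)) *
        ((cx (r h) * cy (r g) - cx (r g) * cy (r h)) / 2) := by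
      rw [hA1B, hA2B, SS_bil hG K hPD B1 B2]
      unfold SS
      rw [← Finset.sum_sub_distrib]
      refine Finset.sum_congr rfl fun g _ => ?_
      rw [← Finset.sum_sub_distrib]
      refine Finset.sum_congr rfl fun h _ => ?_
      rw [hKK, ← mul_sub, t3]
    rw [e, alg2 W (fun g => f (r g)) (fun g => cx (r g)) (fun g => cy (r g)),
      hP (fun σ => f σ * cx σ), hP (fun σ => f σ * cy σ), hP cx, hP cy]
    ring
  have hc2 : 0 < c0 ^ 2 := by positivity
  have N1 := SS_nonneg hG K hPD A1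
  have N2 := SS_nonneg hG K hPD A2
  have N3 := SS_cs hG K hPD A1 A2
  rw [S1] at N1
  rw [S2] at N2
  rw [S1, S2, S3] at N3
  refine ⟨?_, ?_, ?_⟩
  · exact nonneg_of_mul_nonneg_right N1 hc2
  · exact nonneg_of_mul_nonneg_right N2 hc2
  · rw [mul_pow, mul_mul_mul_comm, ← sq] at N3
    exact le_of_mul_le_mul_left N3 (by positivity)

end Pool.Agent.FKP
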