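import Pool.Agent.FKP.PartC
import Pool.Agent.FKP.Lem

/-!
# Project FKP, target GLU: all large clusters are connected
-/

set_option autoImplicit false

namespace Pool.Agent.FKP

open Filter MeasureTheory Pool.Agent.FKT

namespace GLU_

variable {d : ℕ}

theorem mem_bx {v w : Vx d} {n : ℕ} :
    w ∈ bx v n ↔ ∀ i, v i - n ≤ w i ∧ w i ≤ v i + n := by
  unfold bx
  rw [Finset.mem_Icc, Pi.le_def, Pi.le_def]
  exact ⟨fun h i => ⟨h.1 i, h.2 i⟩, fun h => ⟨fun i => (h i).1, fun i => (h i).2⟩⟩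

theorem mem_eb {v : Vx d} {n : ℕ} {e : Ed d} (h : e ∈ eb v n) :
    e.1 ∈ bx v n ∧ tgt e ∈ bx v n := by
  unfold eb at h
  rw [Finset.mem_filter, Finset.mem_product] at h
  exact ⟨h.1.1, h.2⟩

theorem box_iff {v : Vx d} {n : ℕ} {ω : Finset (Ed d)} (hω : ω ⊆ eb v n) {a b : Vx d}
    (h : Cf ω a b) : a ∈ bx v n ↔ b ∈ bx v n := by
  unfold Cf Cn FKT.Con at h
  induction h with
  | rel x y hxy =>
    rcases hxy with h | ⟨e, he, h1, h2⟩
    · exact h.elim
    · have := mem_eb (hω he)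
      rw [← h1, ← h2]
      exact ⟨fun _ => this.2, fun _ => this.1⟩
  | refl x => exact Iff.rfl
  | symm x y _ ih => exact ih.symm
  | trans x y z _ _ ih1 ih2 => exact ih1.trans ih2

theorem Cr_mono {i : Fin d} {c c' : ℤ} {h h' : ℕ} {u : Vx d} {ω : Finset (Ed d)}
    (hc : c ≤ c') (hc' : c' + h' ≤ c + h) (H : Cr i c h u ω) : Cr i c' h' u ω := by
  obtain ⟨⟨a, ha, ha'⟩, ⟨b, hb, hb'⟩⟩ := H
  exact ⟨⟨a, ha, by omega⟩, ⟨b, hb, by omega⟩⟩

theorem Cr_box {i : Fin d} {c : ℤ} {h n : ℕ} {u v : Vx d} {ω : Finset (Ed d)}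
    (hω : ω ⊆ eb v n) (hu : u ∈ bx v n) (H : Cr i c h u ω) :
    v i - n ≤ c ∧ c + h ≤ v i + n := by
  obtain ⟨⟨a, ha, ha'⟩, ⟨b, hb, hb'⟩⟩ := H
  have h1 := mem_bx.mp ((box_iff hω ha).mp hu) i
  have h2 := mem_bx.mp ((box_iff hω hb).mp hu) i
  constructor <;> omega

/-- The bad event of the claim. -/
def Q (i0 : Fin d) (m L n : ℕ) (v : Vx d) (i : Fin d) (c : ℤ) (ω : Finset (Ed d)) : Prop :=
  ∃ u ∈ bx v n, Cr i c (9 * m * (L + 1)) u ω ∧
    ¬ Cr i0 (v i0 + 4 * m * (L + 1)) (m * (L + 1)) u ω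

theorem pow_le {α : ℝ} (h0 : 0 < α) (h1 : α ≤ 1 / 2) (m : ℕ) :
    (1 - α) ^ (3 * m) ≤ (1 - α) ^ m :=
  pow_le_pow_of_le_one (by linarith) (by linarith) (by omega)

theorem claim (h_TRN : T_TRN) (p q : ℝ) (hp : 0 < p) (hp1 : p < 1) (hq : 1 ≤ q)
    (L : ℕ) (α : ℝ) (hS : SlV d p q L α) (R : Vx d → Vx d → Prop) (U : Finset (Vx d))
    (v : Vx d) (n : ℕ) (hU : bx v n ⊆ U) (m : ℕ) (hm : 9 * m * (L + 1) ≤ n)
    (i0 i1 : Fin d) (h01 : i0 ≠ i1) (i : Fin d) (c : ℤ) (hc : v i - n ≤ c)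
    (hc' : c + 9 * m * (L + 1) ≤ v i + n) :
    Ex Prod.fst tgt R U (eb v n) p q (fun ω => ind (Q i0 m L n v i c ω)) ≤
      4 * (2 * (n : ℝ) + 1) ^ d * (1 - α) ^ m := by
  have hq0 : (0 : ℝ) < q := by linarith
  obtain ⟨K, hK⟩ : ∃ K : ℕ, K = m * (L + 1) := ⟨_, rfl⟩
  have hKz : (K : ℤ) = m * (L + 1) := by rw [hK]; push_cast; ring
  have hKn : 9 * K ≤ n := by rw [hK, ← mul_assoc]; exact hm
  have e9 : (9 : ℤ) * m * (L + 1) = 9 * K := by rw [hKz]; ring
  have e4 : (4 : ℤ) * m * (L + 1) = 4 * K := by rw [hKz]; ring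
  have n9 : 9 * m * (L + 1) = 9 * K := by rw [hK]; ring
  have hpow := pow_le hS.1 hS.2.1 m
  have hpos : (0 : ℝ) ≤ (2 * (n : ℝ) + 1) ^ d := by positivity
  have hpm : (0 : ℝ) ≤ (1 - α) ^ m := pow_nonneg (by linarith [hS.2.1]) m
  rw [e9] at hc'
  by_cases hi : i = i0
  · subst hi
    have t1 := h_TRN d p q hp hp1 hq L α hS R U v n hU i i1 c (v i1) (3 * m) h01 hc
      (by
        have : (3 : ℤ) * ((3 * m : ℕ) : ℤ) * (L + 1) = 9 * K := by rw [hKz]; push_cast; ring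
        rw [this]; omega)
      (by omega)
      (by
        have : (3 : ℤ) * ((3 * m : ℕ) : ℤ) * (L + 1) = 9 * K := by rw [hKz]; push_cast; ring
        rw [this]; omega)
    have t2 := h_TRN d p q hp hp1 hq L α hS R U v n hU i1 i (v i1 + 3 * K) (v i + 3 * K) m
      h01.symm (by omega)
      (by
        have : (3 : ℤ) * (m : ℤ) * (L + 1) = 3 * K := by rw [hKz]; ring
        rw [this]; omega)
      (by omega)
      (by
        have : (3 : ℤ) * (m : ℤ) * (L + 1) = 3 * K := by rw [hKz]; ring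
        rw [this]; omega)
    have key : Ex Prod.fst tgt R U (eb v n) p q (fun ω => ind (Q i m L n v i c ω)) ≤
        Ex Prod.fst tgt R U (eb v n) p q (fun ω => ind (∃ u ∈ bx v n,
          Cr i c (3 * (3 * m) * (L + 1)) u ω ∧
            ¬ Cr i1 (v i1 + ((3 * m : ℕ) : ℤ) * (L + 1)) (3 * m * (L + 1)) u ω) +
          ind (∃ u ∈ bx v n,
          Cr i1 (v i1 + 3 * K) (3 * m * (L + 1)) u ω ∧
            ¬ Cr i (v i + 3 * K + m * (L + 1)) (m * (L + 1)) u ω)) := by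
      apply Ex_mono hp hp1 hq0
      intro ω _
      by_cases hQ : Q i m L n v i c ω
      · rw [ind_true hQ]
        obtain ⟨u, hu, h1, h2⟩ := hQ
        by_cases h3 : Cr i1 (v i1 + ((3 * m : ℕ) : ℤ) * (L + 1)) (3 * m * (L + 1)) u ω
        · have h4 : ∃ u ∈ bx v n, Cr i1 (v i1 + 3 * K) (3 * m * (L + 1)) u ω ∧
              ¬ Cr i (v i + 3 * K + m * (L + 1)) (m * (L + 1)) u ω := by
            refine ⟨u, hu, ?_, ?_⟩
            · have : ((3 * m : ℕ) : ℤ) * (L + 1) = 3 * K := by rw [hKz]; push_cast; ring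
              rw [this] at h3
              exact h3
            · have : v i + 3 * (K : ℤ) + m * (L + 1) = v i + 4 * m * (L + 1) := by
                rw [hKz]; ring
              rw [this]
              exact h2
          rw [ind_true h4]
          linarith [ind_nonneg (∃ u ∈ bx v n, Cr i c (3 * (3 * m) * (L + 1)) u ω ∧
            ¬ Cr i1 (v i1 + ((3 * m : ℕ) : ℤ) * (L + 1)) (3 * m * (L + 1)) u ω)]
        · have h4 : ∃ u ∈ bx v n, Cr i c (3 * (3 * m) * (L + 1)) u ω ∧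
            ¬ Cr i1 (v i1 + ((3 * m : ℕ) : ℤ) * (L + 1)) (3 * m * (L + 1)) u ω := by
            refine ⟨u, hu, ?_, h3⟩
            have : 3 * (3 * m) * (L + 1) = 9 * m * (L + 1) := by ring
            rw [this]
            exact h1
          rw [ind_true h4]
          linarith [ind_nonneg (∃ u ∈ bx v n, Cr i1 (v i1 + 3 * K) (3 * m * (L + 1)) u ω ∧
            ¬ Cr i (v i + 3 * K + m * (L + 1)) (m * (L + 1)) u ω)]
      · rw [ind_false hQ]
        exact add_nonneg (ind_nonneg _) (ind_nonneg _)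
    refine key.trans ?_
    rw [Ex_add]
    have hmul : 2 * (2 * (n : ℝ) + 1) ^ d * (1 - α) ^ (3 * m) ≤
        2 * (2 * (n : ℝ) + 1) ^ d * (1 - α) ^ m :=
      mul_le_mul_of_nonneg_left hpow (by positivity)
    linarith
  · have t1 := h_TRN d p q hp hp1 hq L α hS R U v n hU i i0 c (v i0) (3 * m) hi hc
      (by
        have : (3 : ℤ) * ((3 * m : ℕ) : ℤ) * (L + 1) = 9 * K := by rw [hKz]; push_cast; ring
        rw [this]; omega)
      (by omega)
      (by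
        have : (3 : ℤ) * ((3 * m : ℕ) : ℤ) * (L + 1) = 9 * K := by rw [hKz]; push_cast; ring
        rw [this]; omega)
    have key : Ex Prod.fst tgt R U (eb v n) p q (fun ω => ind (Q i0 m L n v i c ω)) ≤
        Ex Prod.fst tgt R U (eb v n) p q (fun ω => ind (∃ u ∈ bx v n,
          Cr i c (3 * (3 * m) * (L + 1)) u ω ∧
            ¬ Cr i0 (v i0 + ((3 * m : ℕ) : ℤ) * (L + 1)) (3 * m * (L + 1)) u ω)) := by
      apply Ex_mono hp hp1 hq0
      intro ω _
      apply ind_mono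
      rintro ⟨u, hu, h1, h2⟩
      refine ⟨u, hu, ?_, fun h3 => h2 ?_⟩
      · have : 3 * (3 * m) * (L + 1) = 9 * m * (L + 1) := by ring
        rw [this]
        exact h1
      · refine Cr_mono ?_ ?_ h3
        · have e1 : ((3 * m : ℕ) : ℤ) * (L + 1) = 3 * K := by rw [hKz]; push_cast; ring
          rw [e1, e4]
          omega
        · have e1 : ((3 * m : ℕ) : ℤ) * (L + 1) = 3 * K := by rw [hKz]; push_cast; ring
          have e2 : 3 * m * (L + 1) = 3 * K := by rw [hK]; ring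
          rw [e1, e2, ← hK, e4]
          push_cast
          omega
    refine key.trans (t1.trans ?_)
    have hmul : 2 * (2 * (n : ℝ) + 1) ^ d * (1 - α) ^ (3 * m) ≤
        2 * (2 * (n : ℝ) + 1) ^ d * (1 - α) ^ m :=
      mul_le_mul_of_nonneg_left hpow (by positivity)
    have : 0 ≤ 2 * (2 * (n : ℝ) + 1) ^ d * (1 - α) ^ m := by positivity
    linarith

end GLU_

open GLU_ in
/-- The target GLU. -/
theorem p_GLU (h_TRN : T_TRN) (h_LMY : T_LMY) : T_GLU := by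
  intro d p q hd hp hp1 hq L α hS R U v n hU m hm
  have hq0 : (0 : ℝ) < q := by linarith
  obtain ⟨i0, i1, h01⟩ : ∃ i0 i1 : Fin d, i0 ≠ i1 :=
    ⟨⟨0, by omega⟩, ⟨1, by omega⟩, by simp [Fin.ext_iff]⟩
  obtain ⟨K, hK⟩ : ∃ K : ℕ, K = m * (L + 1) := ⟨_, rfl⟩
  have hKz : (K : ℤ) = m * (L + 1) := by rw [hK]; push_cast; ring
  have hKn : 9 * K ≤ n := by rw [hK, ← mul_assoc]; exact hm
  have e9 : (9 : ℤ) * m * (L + 1) = 9 * K := by rw [hKz]; ring
  have e4 : (4 : ℤ) * m * (L + 1) = 4 * K := by rw [hKz]; ring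
  have n9 : 9 * m * (L + 1) = 9 * K := by rw [hK]; ring
  have hpm : (0 : ℝ) ≤ (1 - α) ^ m := pow_nonneg (by linarith [hS.2.1]) m
  set W : Finset (Ed d) → Prop := fun ω => ∃ u ∈ bx v n, ∃ u' ∈ bx v n,
    Cr i0 (v i0 + 4 * m * (L + 1)) (m * (L + 1)) u ω ∧
      Cr i0 (v i0 + 4 * m * (L + 1)) (m * (L + 1)) u' ω ∧ ¬ Cf ω u u' with hWdef
  have hW : Ex Prod.fst tgt R U (eb v n) p q (fun ω => ind (W ω)) ≤
      (2 * (n : ℝ) + 1) ^ (2 * d) * (1 - α) ^ m := by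
    refine h_LMY d p q hp hp1 hq L α hS R U v n hU i0 (v i0 + 4 * m * (L + 1)) m ?_ ?_
    · rw [e4]; omega
    · rw [e4, ← hKz]; omega
  have key : Ex Prod.fst tgt R U (eb v n) p q (fun ω => ind (∃ u ∈ bx v n, ∃ u' ∈ bx v n,
      (∃ (i : Fin d) (c : ℤ), Cr i c (9 * m * (L + 1)) u ω) ∧
      (∃ (i : Fin d) (c : ℤ), Cr i c (9 * m * (L + 1)) u' ω) ∧ ¬ Cf ω u u')) ≤
      Ex Prod.fst tgt R U (eb v n) p q (fun ω =>
        (∑ i ∈ (Finset.univ : Finset (Fin d)), ∑ c ∈ Finset.Icc (v i - n) (v i + n),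
          ind (c + 9 * K ≤ v i + n ∧ Q i0 m L n v i c ω)) + ind (W ω)) := by
    apply Ex_mono hp hp1 hq0
    intro ω hω
    have hsn : ∀ ω : Finset (Ed d), 0 ≤ ∑ i ∈ (Finset.univ : Finset (Fin d)),
        ∑ c ∈ Finset.Icc (v i - n) (v i + n),
          ind (c + 9 * K ≤ v i + n ∧ Q i0 m L n v i c ω) := fun ω =>
      Finset.sum_nonneg fun i _ => Finset.sum_nonneg fun c _ => ind_nonneg _
    have big : ∀ u ∈ bx v n, ∀ (i : Fin d) (c : ℤ), Cr i c (9 * m * (L + 1)) u ω →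
        ¬ Cr i0 (v i0 + 4 * m * (L + 1)) (m * (L + 1)) u ω →
        1 ≤ ∑ i ∈ (Finset.univ : Finset (Fin d)), ∑ c ∈ Finset.Icc (v i - n) (v i + n),
          ind (c + 9 * K ≤ v i + n ∧ Q i0 m L n v i c ω) := by
      intro u hu i c h1 h2
      have hb := Cr_box hω hu h1
      rw [n9] at hb
      push_cast at hb
      have hQ : c + 9 * K ≤ v i + n ∧ Q i0 m L n v i c ω := ⟨hb.2, u, hu, h1, h2⟩
      calc (1 : ℝ) = ind (c + 9 * K ≤ v i + n ∧ Q i0 m L n v i c ω) := (ind_true hQ).symm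
        _ ≤ ∑ c ∈ Finset.Icc (v i - n) (v i + n),
              ind (c + 9 * K ≤ v i + n ∧ Q i0 m L n v i c ω) :=
            Finset.single_le_sum
              (f := fun c : ℤ => ind (c + 9 * K ≤ v i + n ∧ Q i0 m L n v i c ω))
              (fun c _ => ind_nonneg _) (Finset.mem_Icc.mpr ⟨hb.1, by omega⟩)
        _ ≤ _ := Finset.single_le_sum
              (f := fun i : Fin d => ∑ c ∈ Finset.Icc (v i - n) (v i + n),
                ind (c + 9 * K ≤ v i + n ∧ Q i0 m L n v i c ω))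
              (fun i _ => Finset.sum_nonneg fun c _ => ind_nonneg _) (Finset.mem_univ i)
    by_cases hE : ∃ u ∈ bx v n, ∃ u' ∈ bx v n,
      (∃ (i : Fin d) (c : ℤ), Cr i c (9 * m * (L + 1)) u ω) ∧
      (∃ (i : Fin d) (c : ℤ), Cr i c (9 * m * (L + 1)) u' ω) ∧ ¬ Cf ω u u'
    · rw [ind_true hE]
      obtain ⟨u, hu, u', hu', ⟨i, c, h1⟩, ⟨i', c', h1'⟩, h2⟩ := hE
      by_cases h3 : Cr i0 (v i0 + 4 * m * (L + 1)) (m * (L + 1)) u ω
      · by_cases h4 : Cr i0 (v i0 + 4 * m * (L + 1)) (m * (L + 1)) u' ω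
        · have : W ω := ⟨u, hu, u', hu', h3, h4, h2⟩
          rw [ind_true this]
          linarith [hsn ω]
        · linarith [big u' hu' i' c' h1' h4, ind_nonneg (W ω)]
      · linarith [big u hu i c h1 h3, ind_nonneg (W ω)]
    · rw [ind_false hE]
      exact add_nonneg (hsn ω) (ind_nonneg _)
  refine key.trans ?_
  rw [Ex_add, Ex_sum]
  have hterm : ∀ (i : Fin d) (c : ℤ), c ∈ Finset.Icc (v i - n) (v i + n) →
      Ex Prod.fst tgt R U (eb v n) p q
        (fun ω => ind (c + 9 * K ≤ v i + n ∧ Q i0 m L n v i c ω)) ≤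
      4 * (2 * (n : ℝ) + 1) ^ d * (1 - α) ^ m := by
    intro i c hc
    rw [Finset.mem_Icc] at hc
    by_cases h : c + 9 * K ≤ v i + n
    · refine le_trans ?_ (claim h_TRN p q hp hp1 hq L α hS R U v n hU m hm i0 i1 h01 i c
        hc.1 (by rw [e9]; exact h))
      exact Ex_mono hp hp1 hq0 fun ω _ => ind_mono fun h' => h'.2
    · have : Ex Prod.fst tgt R U (eb v n) p q
          (fun ω => ind (c + 9 * K ≤ v i + n ∧ Q i0 m L n v i c ω)) ≤
          Ex Prod.fst tgt R U (eb v n) p q (fun _ => 0) :=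
        Ex_mono hp hp1 hq0 fun ω _ => by rw [ind_false fun h' => h h'.1]
      rw [Ex_const hp hp1 hq0] at this
      refine this.trans ?_
      positivity
  have hsum : ∑ i ∈ (Finset.univ : Finset (Fin d)), Ex Prod.fst tgt R U (eb v n) p q
      (fun ω => ∑ c ∈ Finset.Icc (v i - n) (v i + n),
        ind (c + 9 * K ≤ v i + n ∧ Q i0 m L n v i c ω)) ≤
      d * ((2 * (n : ℝ) + 1) * (4 * (2 * (n : ℝ) + 1) ^ d * (1 - α) ^ m)) := by
    calc _ ≤ ∑ i ∈ (Finset.univ : Finset (Fin d)),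
          (2 * (n : ℝ) + 1) * (4 * (2 * (n : ℝ) + 1) ^ d * (1 - α) ^ m) := by
          apply Finset.sum_le_sum
          intro i _
          rw [Ex_sum]
          calc _ ≤ ∑ c ∈ Finset.Icc (v i - n) (v i + n),
                4 * (2 * (n : ℝ) + 1) ^ d * (1 - α) ^ m :=
                Finset.sum_le_sum fun c hc => hterm i c hc
            _ = _ := by
                rw [Finset.sum_const, nsmul_eq_mul, Int.card_Icc]
                congr 1
                have : (v i + n + 1 - (v i - n)).toNat = 2 * n + 1 := by omega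
                rw [this]
                push_cast
                ring
      _ = _ := by
          rw [Finset.sum_const, nsmul_eq_mul, Finset.card_univ, Fintype.card_fin]
  have hx1 : (1 : ℝ) ≤ 2 * (n : ℝ) + 1 := by
    have : (0 : ℝ) ≤ n := Nat.cast_nonneg n
    linarith
  have hd1 : (1 : ℝ) ≤ d := by
    have : (1 : ℕ) ≤ d := by omega
    exact_mod_cast this
  have hpw : (2 * (n : ℝ) + 1) ^ (d + 1) ≤ (2 * (n : ℝ) + 1) ^ (2 * d) :=
    pow_le_pow_right₀ hx1 (by omega)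
  have hprod : (2 * (n : ℝ) + 1) ^ (d + 1) * (1 - α) ^ m ≤
      (2 * (n : ℝ) + 1) ^ (2 * d) * (1 - α) ^ m :=
    mul_le_mul_of_nonneg_right hpw hpm
  have hX : 0 ≤ (2 * (n : ℝ) + 1) ^ (2 * d) * (1 - α) ^ m := by positivity
  calc _ ≤ d * ((2 * (n : ℝ) + 1) * (4 * (2 * (n : ℝ) + 1) ^ d * (1 - α) ^ m)) +
        (2 * (n : ℝ) + 1) ^ (2 * d) * (1 - α) ^ m := add_le_add hsum hW
    _ = 4 * d * ((2 * (n : ℝ) + 1) ^ (d + 1) * (1 - α) ^ m) +
        (2 * (n : ℝ) + 1) ^ (2 * d) * (1 - α) ^ m := by ring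
    _ ≤ 4 * d * ((2 * (n : ℝ) + 1) ^ (2 * d) * (1 - α) ^ m) +
        (2 * (n : ℝ) + 1) ^ (2 * d) * (1 - α) ^ m := by
        have : (0 : ℝ) ≤ 4 * d := by positivity
        linarith [mul_le_mul_of_nonneg_left hprod this]
    _ ≤ 5 * d * (2 * (n : ℝ) + 1) ^ (2 * d) * (1 - α) ^ m := by
        nlinarith

end Pool.Agent.FKP
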