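import Pool.Agent.FKP.PartD
import Pool.Agent.FKP.Lem

/-!
# Project FKP: the duplication identity (T_GPS)
-/

set_option autoImplicit false

namespace Pool.Agent.FKP

open Pool.Agent.FKT

namespace GPS_

variable {A : Type} [AddCommGroup A] [Fintype A]

theorem lhs_eq (C C' : A → ℝ) :
    ∑ g : A, ∑ h : A, C (g + h) * C' (g - h) = ∑ h : A, ∑ z : A, C (z + (h + h)) * C' z := by
  rw [Finset.sum_comm]
  refine Finset.sum_congr rfl fun h _ => ?_
  refine Fintype.sum_equiv (Equiv.subRight h) _ _ fun g => ?_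
  have h1 : g + h = g - h + (h + h) := by abel
  simp only [Equiv.subRight_apply]
  rw [← h1]

theorem rhs_eq (C C' : A → ℝ) :
    ∑ z : A, (∑ y : A, C (z + (y + y))) * ∑ y : A, C' (z + (y + y)) =
      (Fintype.card A : ℝ) * ∑ h : A, ∑ z : A, C (z + (h + h)) * C' z := by
  have h1 : ∀ w : A, ∑ z : A, ∑ y : A, C (z + (y + y)) * C' (z + (w + w)) =
      ∑ h : A, ∑ z : A, C (z + (h + h)) * C' z := by
    intro w
    rw [Finset.sum_comm]
    refine Fintype.sum_equiv (Equiv.subRight w) _ _ fun y => ?_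
    refine Fintype.sum_equiv (Equiv.addRight (w + w)) _ _ fun z => ?_
    have h2 : z + (w + w) + (y - w + (y - w)) = z + (y + y) := by abel
    simp only [Equiv.subRight_apply, Equiv.coe_addRight]
    rw [h2]
  calc ∑ z : A, (∑ y : A, C (z + (y + y))) * ∑ y : A, C' (z + (y + y))
      = ∑ z : A, ∑ w : A, ∑ y : A, C (z + (y + y)) * C' (z + (w + w)) := by
        refine Finset.sum_congr rfl fun z _ => ?_
        rw [Finset.mul_sum]
        refine Finset.sum_congr rfl fun w _ => ?_
        rw [Finset.sum_mul]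
    _ = ∑ w : A, ∑ z : A, ∑ y : A, C (z + (y + y)) * C' (z + (w + w)) := Finset.sum_comm
    _ = ∑ _w : A, ∑ h : A, ∑ z : A, C (z + (h + h)) * C' z :=
        Finset.sum_congr rfl fun w _ => h1 w
    _ = _ := by rw [Finset.sum_const, Finset.card_univ, nsmul_eq_mul]

end GPS_

theorem p_GPS : T_GPS := by
  intro A _ _ C C'
  rw [GPS_.lhs_eq, GPS_.rhs_eq]
  have hc : (Fintype.card A : ℝ) ≠ 0 := by
    have : 0 < Fintype.card A := Fintype.card_pos_iff.mpr ⟨0⟩
    exact_mod_cast this.ne'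
  rw [← mul_assoc, one_div, inv_mul_cancel₀ hc, one_mul]

end Pool.Agent.FKP
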