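import Pool.Agent.FKP.Basic
import Pool.Agent.FKP.Lem
import Pool.Agent.FKT.TargetsA

/-!
# Project FKP: the target T_HOL
-/

set_option autoImplicit false

namespace Pool.Agent.FKP

open Pool.Agent.FKT
open scoped FinsetFamily

namespace HOL_

lemma bw_le {E : Type} [DecidableEq E] {p p' : ℝ} (hp : 0 < p) (hpp : p ≤ p') (hp1 : p' < 1)
    {G a b : Finset E} (ha : a ⊆ G) (hb : b ⊆ G) :
    bw p G a * bw p' G b ≤ bw p G (a ∩ b) * bw p' G (a ∪ b) := by
  have h1 := Finset.card_union_add_card_inter a b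
  have h4 := Finset.card_le_card (Finset.union_subset ha hb)
  have h5 := Finset.card_le_card (Finset.inter_subset_left (s₁ := a) (s₂ := b))
  have h6 := Finset.card_le_card ha
  obtain ⟨x, hx⟩ : ∃ x, a.card = (a ∩ b).card + x := ⟨a.card - (a ∩ b).card, by omega⟩
  have hx2 : (a ∪ b).card = b.card + x := by omega
  have e1 : G.card - (a ∩ b).card = (G.card - a.card) + x := by omega
  have e2 : G.card - b.card = (G.card - (a ∪ b).card) + x := by omega
  have hp' : 0 < p' := lt_of_lt_of_le hp hpp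
  have hq1 : 0 < 1 - p' := by linarith
  have hq : 0 < 1 - p := by linarith
  have hk : (p * (1 - p')) ^ x ≤ ((1 - p) * p') ^ x := by
    apply pow_le_pow_left₀ (mul_pos hp hq1).le
    nlinarith
  unfold bw
  rw [e1, e2, hx2]
  conv_lhs => rw [hx]
  have hxx : G.card - ((a ∩ b).card + x) = G.card - a.card := by rw [hx]
  rw [hxx]
  set n1 := (a ∩ b).card
  set m1 := G.card - a.card
  set n2 := b.card
  set m2 := G.card - (n2 + x)
  have hpos : 0 ≤ p ^ n1 * (1 - p) ^ m1 * (p' ^ n2 * (1 - p') ^ m2) := by positivity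
  calc p ^ (n1 + x) * (1 - p) ^ m1 * (p' ^ n2 * (1 - p') ^ (m2 + x))
      = (p ^ n1 * (1 - p) ^ m1 * (p' ^ n2 * (1 - p') ^ m2)) * (p * (1 - p')) ^ x := by
        rw [pow_add, pow_add, mul_pow]; ring
    _ ≤ (p ^ n1 * (1 - p) ^ m1 * (p' ^ n2 * (1 - p') ^ m2)) * ((1 - p) * p') ^ x :=
        mul_le_mul_of_nonneg_left hk hpos
    _ = p ^ n1 * (1 - p) ^ (m1 + x) * (p' ^ (n2 + x) * (1 - p') ^ m2) := by
        rw [pow_add, pow_add, mul_pow]; ring

lemma ncl_step (h_ADD : FKT.T_ADD) {V E : Type} [DecidableEq E] (s t : E → V)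
    (R R' : V → V → Prop) (U : Finset V) (hR : ∀ a b, R a b → R' a b) (b c : Finset E)
    (hc : c ⊆ b) (D : Finset E) (hD : ∀ e ∈ D, s e ∈ U ∧ t e ∈ U) :
    ncl s t R U ((c ∪ D : Finset E) : Set E) + ncl s t R' U (b : Set E) ≤
      ncl s t R U (c : Set E) + ncl s t R' U ((D ∪ b : Finset E) : Set E) := by
  induction D using Finset.induction_on with
  | empty => simp
  | insert e D he ih =>
    have ih' := ih (fun f hf => hD f (Finset.mem_insert_of_mem hf))
    obtain ⟨h1, h2⟩ := hD e (Finset.mem_insert_self e D)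
    have k1 := (h_ADD V E s t R U).1 ((c ∪ D : Finset E) : Set E) e h1 h2
    have k2 := (h_ADD V E s t R' U).1 ((D ∪ b : Finset E) : Set E) e h1 h2
    have e1 : ((c ∪ insert e D : Finset E) : Set E) = insert e ((c ∪ D : Finset E) : Set E) := by
      rw [Finset.union_insert, Finset.coe_insert]
    have e2 : ((insert e D ∪ b : Finset E) : Set E) = insert e ((D ∪ b : Finset E) : Set E) := by
      rw [Finset.insert_union, Finset.coe_insert]
    rw [e1, e2]
    by_cases hcon : FKT.Con s t R ((c ∪ D : Finset E) : Set E) (s e) (t e)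
    · have hsub : ((c ∪ D : Finset E) : Set E) ⊆ ((D ∪ b : Finset E) : Set E) := by
        intro f hf
        rw [Finset.mem_coe, Finset.mem_union] at hf ⊢
        rcases hf with hf | hf
        · exact Or.inr (hc hf)
        · exact Or.inl hf
      have hcon' := Con_mono (R' := R') hR hsub hcon
      rw [k1.1 hcon, k2.1 hcon']
      exact ih'
    · have k3 := k1.2 hcon
      by_cases hcon' : FKT.Con s t R' ((D ∪ b : Finset E) : Set E) (s e) (t e)
      · rw [k2.1 hcon']
        omega
      · have k4 := k2.2 hcon'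
        omega

lemma ncl_le (h_ADD : FKT.T_ADD) {V E : Type} [DecidableEq E] (s t : E → V)
    (R R' : V → V → Prop) (U : Finset V) (hR : ∀ a b, R a b → R' a b) (a b : Finset E)
    (ha : ∀ e ∈ a, s e ∈ U ∧ t e ∈ U) :
    ncl s t R U (a : Set E) + ncl s t R' U (b : Set E) ≤
      ncl s t R U ((a ∩ b : Finset E) : Set E) + ncl s t R' U ((a ∪ b : Finset E) : Set E) := by
  have h := ncl_step h_ADD s t R R' U hR b (a ∩ b) Finset.inter_subset_right (a \ b)
    (fun e he => ha e (Finset.mem_sdiff.mp he).1)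
  have e1 : (a ∩ b) ∪ (a \ b) = a := by
    rw [Finset.union_comm]
    exact Finset.sdiff_union_inter a b
  have e2 : (a \ b) ∪ b = a ∪ b := Finset.sdiff_union_self_eq_union
  rw [e1, e2] at h
  exact h

lemma wt_le (h_ADD : FKT.T_ADD) {V E : Type} [DecidableEq E] (s t : E → V)
    (R R' : V → V → Prop) (U : Finset V) (G : Finset E) {p p' q : ℝ} (hp : 0 < p)
    (hpp : p ≤ p') (hp1 : p' < 1) (hq : 1 ≤ q) (hR : ∀ a b, R a b → R' a b)
    (hG : ∀ e ∈ G, s e ∈ U ∧ t e ∈ U) {a b : Finset E} (ha : a ⊆ G) (hb : b ⊆ G) :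
    wt s t R U G p q a * wt s t R' U G p' q b ≤
      wt s t R U G p q (a ∩ b) * wt s t R' U G p' q (a ∪ b) := by
  have h := ncl_le h_ADD s t R R' U hR a b (fun e he => hG e (ha he))
  have h2 : q ^ (ncl s t R U (a : Set E) + ncl s t R' U (b : Set E)) ≤
      q ^ (ncl s t R U ((a ∩ b : Finset E) : Set E) +
        ncl s t R' U ((a ∪ b : Finset E) : Set E)) := pow_le_pow_right₀ hq h
  have h3 := bw_le hp hpp hp1 ha hb
  have hq0 : 0 < q := by linarith
  have h4 : 0 ≤ bw p G (a ∩ b) * bw p' G (a ∪ b) :=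
    (mul_pos (bw_pos hp (by linarith) _) (bw_pos (by linarith) hp1 _)).le
  unfold wt
  calc bw p G a * q ^ ncl s t R U (a : Set E) * (bw p' G b * q ^ ncl s t R' U (b : Set E))
      = (bw p G a * bw p' G b) * q ^ (ncl s t R U (a : Set E) + ncl s t R' U (b : Set E)) := by
        rw [pow_add]; ring
    _ ≤ (bw p G (a ∩ b) * bw p' G (a ∪ b)) *
          q ^ (ncl s t R U ((a ∩ b : Finset E) : Set E) +
            ncl s t R' U ((a ∪ b : Finset E) : Set E)) :=
        mul_le_mul h3 h2 (pow_nonneg hq0.le _) h4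
    _ = _ := by rw [pow_add]; ring

end HOL_

open HOL_ in
theorem p_HOL (h_ADD : FKT.T_ADD) : T_HOL := by
  intro V E _ s t R R' U G p p' q hp hpp hp1 hq hR hG f hf
  have hq0 : 0 < q := by linarith
  have hp' : 0 < p' := by linarith
  have hp11 : p < 1 := by linarith
  -- the nonnegative function
  set F : Finset E → ℝ := fun a => |f a - f ∅| with hF
  have hFa : ∀ a, a ⊆ G → F a = f a - f ∅ := fun a ha =>
    abs_of_nonneg (sub_nonneg.mpr (hf ∅ a (Finset.empty_subset a) ha))
  have hF0 : ∀ a, 0 ≤ F a := fun a => abs_nonneg _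
  have key := Finset.four_functions_theorem (f₁ := fun a => wt s t R U G p q a * F a)
    (f₂ := fun a => wt s t R' U G p' q a) (f₃ := fun a => wt s t R U G p q a)
    (f₄ := fun a => wt s t R' U G p' q a * F a) G
    (fun a => mul_nonneg (wt_pos hp hp11 hq0 a).le (hF0 a))
    (fun a => (wt_pos hp' hp1 hq0 a).le) (fun a => (wt_pos hp hp11 hq0 a).le)
    (fun a => mul_nonneg (wt_pos hp' hp1 hq0 a).le (hF0 a)) (by
      intro a ha b hb
      have k1 := wt_le h_ADD s t R R' U G hp hpp hp1 hq hR hG ha hb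
      have k2 : F a ≤ F (a ∪ b) := by
        rw [hFa a ha, hFa _ (Finset.union_subset ha hb)]
        exact sub_le_sub_right (hf _ _ Finset.subset_union_left (Finset.union_subset ha hb)) _
      calc wt s t R U G p q a * F a * wt s t R' U G p' q b
          = (wt s t R U G p q a * wt s t R' U G p' q b) * F a := by ring
        _ ≤ (wt s t R U G p q (a ∩ b) * wt s t R' U G p' q (a ∪ b)) * F (a ∪ b) :=
            mul_le_mul k1 k2 (hF0 a)
              (mul_pos (wt_pos hp hp11 hq0 _) (wt_pos hp' hp1 hq0 _)).le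
        _ = wt s t R U G p q (a ∩ b) * (wt s t R' U G p' q (a ∪ b) * F (a ∪ b)) := by ring)
    (subset_refl G.powerset) (subset_refl G.powerset)
  rw [Finset.powerset_infs_powerset_self, Finset.powerset_sups_powerset_self] at key
  have hZ := Z_pos (s := s) (t := t) (R := R) (U := U) (G := G) hp hp11 hq0
  have hZ' := Z_pos (s := s) (t := t) (R := R') (U := U) (G := G) hp' hp1 hq0
  have h1 : Ex s t R U G p q F ≤ Ex s t R' U G p' q F := by
    unfold Ex
    rw [div_le_div_iff₀ hZ hZ']
    linarith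
  have h2 : Ex s t R U G p q F = Ex s t R U G p q f - f ∅ := by
    rw [Ex_congr hFa, Ex_sub f (fun _ => f ∅), Ex_const hp hp11 hq0]
  have h3 : Ex s t R' U G p' q F = Ex s t R' U G p' q f - f ∅ := by
    rw [Ex_congr hFa, Ex_sub f (fun _ => f ∅), Ex_const hp' hp1 hq0]
  rw [h2, h3] at h1
  linarith

end Pool.Agent.FKP
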