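import Pool.Agent.FKP.PartA
import Pool.Agent.FKP.Lem
import Pool.Agent.FKT.P_TRA

/-!
# Project FKP: proof of the target T_INB (the influence decreases when the box grows)
-/

set_option autoImplicit false

namespace Pool.Agent.FKP

open Filter MeasureTheory Pool.Agent.FKT

namespace INB_

variable {d : ℕ}

theorem bx_map (y : Vx d) (N : ℕ) :
    (bx (0 : Vx d) N).map (Equiv.addRight y).toEmbedding = bx y N := by
  ext v
  have h := TRA_.bx_tr (x := (0 : Vx d)) (y := y) (v := v) (n := N)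
  rw [zero_add] at h
  rw [h, Finset.mem_map_equiv]
  rfl

theorem eb_map (y : Vx d) (m : ℕ) : eb y m = (eb (0 : Vx d) m).map (trE y).toEmbedding := by
  have h := TRA_.eb_tr (0 : Vx d) y m
  rwa [zero_add] at h

theorem sub_n {n m : ℕ} {y : Vx d} (hmn : m ≤ n) (hy : y ∈ bx (0 : Vx d) (n - m)) :
    bx y m ⊆ bx (0 : Vx d) n := by
  intro v hv
  rw [TRA_.mem_bx] at hv hy ⊢
  intro i
  have h1 := hv i
  have h2 := hy i
  rw [Pi.zero_apply] at h2 ⊢
  constructor <;> omega

theorem sub_N {n m N : ℕ} {y : Vx d} (hy : y ∈ bx (0 : Vx d) (n - m)) (hN : 2 * n ≤ N) :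
    bx (0 : Vx d) n ⊆ bx y N := by
  intro v hv
  rw [TRA_.mem_bx] at hv hy ⊢
  intro i
  have h1 := hv i
  have h2 := hy i
  rw [Pi.zero_apply] at h1 h2
  constructor <;> omega

theorem eb_sub {x y : Vx d} {m n : ℕ} (h : bx x m ⊆ bx y n) : eb x m ⊆ eb y n := by
  rw [← es_bx, ← es_bx]
  exact es_mono h

theorem mem_mono (e : Ed d) (a b : Finset (Ed d)) (h : a ⊆ b) :
    ind (e ∈ a) ≤ ind (e ∈ b) := ind_mono fun he => h he

end INB_

open INB_ in
theorem p_INB (h_TRA : FKT.T_TRA) (h_DOM : FKT.T_DOM) (h_AUT : T_AUT) (h_DMC : T_DMC) :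
    T_INB := by
  intro d hd p q hp hp1 hq m n N y hmn hy hN
  rw [eb_map y m, Finset.sum_map]
  apply Finset.sum_le_sum
  intro e he
  have hen : trE y e ∈ eb (0 : Vx d) n := by
    apply eb_sub (sub_n hmn hy)
    rw [eb_map y m]
    exact Finset.mem_map_of_mem _ he
  -- the wired part
  have h1 : phi (0 : Vx d) N p q (fun ω => ind (e ∈ ω)) =
      phi y N p q (fun ω => ind (trE y e ∈ ω)) := by
    have h := h_TRA d p q 0 y N (fun ω => ind (trE y e ∈ ω))
    rw [zero_add] at h
    rw [h]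
    congr 1
    funext ω
    apply ind_congr
    rw [← Finset.mem_map' (trE y).toEmbedding]
    rfl
  have h2 : phi y N p q (fun ω => ind (trE y e ∈ ω)) ≤
      phi (0 : Vx d) n p q (fun ω => ind (trE y e ∈ ω)) := by
    have h := h_DOM d hd p q hp hp1 hq 0 y n N (sub_N hy hN) (fun ω => ind (trE y e ∈ ω))
      (fun a b hab => mem_mono _ a b hab)
    refine le_trans (le_of_eq ?_) h
    congr 1
    funext ω
    apply ind_congr
    rw [Finset.mem_inter]
    exact ⟨fun h => ⟨h, hen⟩, fun h => h.1⟩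
  -- the free part
  have h3 : fr (bx (0 : Vx d) N) p q (fun ω => ind (e ∈ ω)) =
      fr (bx y N) p q (fun ω => ind (trE y e ∈ ω)) := by
    have h := (h_AUT d (Equiv.addRight y) (Equiv.refl _) (by
      intro x i
      simp only [Equiv.coe_addRight, Equiv.refl_apply]
      abel) (bx 0 N) p q).1 (fun ω => ind (trE y e ∈ ω))
    rw [bx_map] at h
    rw [h]
    congr 1
    funext ω
    apply ind_congr
    rw [← Finset.mem_map' (trE y).toEmbedding]
    rfl
  have h4 : fr (bx (0 : Vx d) n) p q (fun ω => ind (trE y e ∈ ω)) ≤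
      fr (bx y N) p q (fun ω => ind (trE y e ∈ ω)) := by
    have h := h_DMC (Vx d) (Ed d) Prod.fst tgt (no (Vx d)) (bx y N) (bx (0 : Vx d) n)
      (es (bx y N)) (es (bx (0 : Vx d) n)) p q hp hp1 hq (es_mono (sub_N hy hN)) (sub_N hy hN)
      (fun e he => mem_es.mp he) (fun ω => ind (trE y e ∈ ω))
      (fun a b hab _ => mem_mono _ a b hab)
    refine le_trans h ?_
    unfold fr fw
    apply Ex_mono hp hp1 (by linarith)
    intro ω _
    exact mem_mono _ _ _ Finset.inter_subset_left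
  rw [h1, h3]
  have h5 : ((trE y).toEmbedding e) = trE y e := rfl
  rw [h5]
  linarith

end Pool.Agent.FKP
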