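import Pool.Agent.FKP.PartA
import Pool.Agent.FKP.Lem

/-!
# FKP: target INC (comparison of two measures on increasing local events)
-/

set_option autoImplicit false

namespace Pool.Agent.FKP

open Filter MeasureTheory Pool.Agent.FKT

namespace INC_

variable {E : Type} [DecidableEq E]

lemma incr (F : Finset E) (Q : Finset E → Prop) (a b : Finset E) (hab : a ⊆ b) :
    ∑ e ∈ F, ind (e ∈ a) - ind (Q (a ∩ F)) ≤ ∑ e ∈ F, ind (e ∈ b) - ind (Q (b ∩ F)) := by
  by_cases h : a ∩ F = b ∩ F
  · rw [h]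
    have h1 : ∑ e ∈ F, ind (e ∈ a) = ∑ e ∈ F, ind (e ∈ b) := by
      apply Finset.sum_congr rfl
      intro e he
      apply ind_congr
      constructor
      · exact fun h2 => hab h2
      · intro h2
        have h3 : e ∈ b ∩ F := Finset.mem_inter.2 ⟨h2, he⟩
        rw [← h] at h3
        exact (Finset.mem_inter.1 h3).1
    rw [h1]
  · obtain ⟨e0, he0, hb, ha⟩ : ∃ e0 ∈ F, e0 ∈ b ∧ e0 ∉ a := by
      by_contra hno
      push Not at hno
      apply h
      apply Finset.Subset.antisymm (Finset.inter_subset_inter_right hab)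
      intro e he
      rw [Finset.mem_inter] at he ⊢
      exact ⟨hno e he.2 he.1, he.2⟩
    have h1 : ∑ e ∈ F, ind (e ∈ a) + 1 ≤ ∑ e ∈ F, ind (e ∈ b) := by
      rw [← Finset.add_sum_erase F _ he0, ← Finset.add_sum_erase F (fun e => ind (e ∈ b)) he0]
      have h2 : ∑ e ∈ F.erase e0, ind (e ∈ a) ≤ ∑ e ∈ F.erase e0, ind (e ∈ b) :=
        Finset.sum_le_sum fun e _ => ind_mono fun h3 => hab h3
      simp only [ind_false ha, ind_true hb]
      linarith
    have h2 := ind_le_one (Q (b ∩ F))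
    have h3 := ind_nonneg (Q (a ∩ F))
    linarith

end INC_

open INC_ in
/-- INC. -/
theorem p_INC : T_INC := by
  intro V E _ s t R R' U U' G p q _ _ _ hle F Q _
  have key := hle (fun ω => ∑ e ∈ F, ind (e ∈ ω) - ind (Q (ω ∩ F))) (incr F Q)
  rw [Ex_sub, Ex_sub, Ex_sum, Ex_sum] at key
  rw [Finset.sum_sub_distrib]
  linarith

end Pool.Agent.FKP
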