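import Pool.Agent.FKP.PartB
import Pool.Agent.FKP.Lem

/-!
# Project FKP, target ISO: isoperimetry in a square
-/

set_option autoImplicit false

namespace Pool.Agent.FKP

open Pool.Agent.FKT

namespace ISO_

/-- The point with coordinate `c` at `i` and `t` at the other place. -/
def mk (i : Fin 2) (c t : ℤ) : Vx 2 := fun k => if k = i then c else t

theorem mk_self (i : Fin 2) (c t : ℤ) : mk i c t i = c := by simp [mk]

theorem mk_ne {i k : Fin 2} (h : k ≠ i) (c t : ℤ) : mk i c t k = t := by simp [mk, h]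

theorem mem_cbx (m : ℕ) (x : Vx 2) : x ∈ cbx m ↔ ∀ k, -(m : ℤ) ≤ x k ∧ x k ≤ m := by
  unfold cbx
  rw [Finset.mem_Icc, Pi.le_def, Pi.le_def]
  exact forall_and.symm

theorem mk_mem {m : ℕ} {i : Fin 2} {c t : ℤ} :
    mk i c t ∈ cbx m ↔ (-(m : ℤ) ≤ c ∧ c ≤ m) ∧ (-(m : ℤ) ≤ t ∧ t ≤ m) := by
  rw [mem_cbx]
  constructor
  · intro h
    have h1 := h i
    have h2 := h (i + 1)
    have h3 : i + 1 ≠ i := by fin_cases i <;> decide
    rw [mk_self] at h1
    rw [mk_ne h3] at h2
    exact ⟨h1, h2⟩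
  · rintro ⟨h1, h2⟩ k
    by_cases h : k = i
    · subst h
      rw [mk_self]
      exact h1
    · rw [mk_ne h]
      exact h2

theorem mk_eta (i : Fin 2) (x : Vx 2) : mk i (x i) (x (i + 1)) = x := by
  funext k
  by_cases h : k = i
  · subst h
    rw [mk_self]
  · rw [mk_ne h]
    congr 1
    revert h
    fin_cases i <;> fin_cases k <;> decide

theorem mk_swap (i : Fin 2) (c t : ℤ) : mk i c t = mk (i + 1) t c := by
  funext k
  by_cases h : k = i
  · subst h
    have h3 : k ≠ k + 1 := by fin_cases k <;> decide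
    rw [mk_self, mk_ne h3]
  · have h4 : k = i + 1 := by
      revert h
      fin_cases i <;> fin_cases k <;> decide
    rw [mk_ne h, h4, mk_self]

theorem tgt_mk (i : Fin 2) (c t : ℤ) :
    tgt ((mk i c t, i + 1) : Ed 2) = mk i c (t + 1) := by
  funext k
  show mk i c t k + (Pi.single (i + 1) 1 : Vx 2) k = mk i c (t + 1) k
  by_cases h : k = i
  · subst h
    have h3 : k ≠ k + 1 := by fin_cases k <;> decide
    rw [mk_self, mk_self, Pi.single_eq_of_ne h3, add_zero]
  · have h4 : k = i + 1 := by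
      revert h
      fin_cases i <;> fin_cases k <;> decide
    rw [mk_ne h, mk_ne h, h4, Pi.single_eq_same]

/-- A property which is not constant changes somewhere. -/
theorem chg (m : ℕ) (P : ℤ → Prop) (s t : ℤ) (hs : -(m : ℤ) ≤ s ∧ s ≤ m)
    (ht : -(m : ℤ) ≤ t ∧ t ≤ m) (h1 : P s) (h2 : ¬ P t) :
    ∃ u : ℤ, -(m : ℤ) ≤ u ∧ u + 1 ≤ m ∧ ¬ (P u ↔ P (u + 1)) := by
  by_contra hcon
  push Not at hcon
  have key : ∀ k : ℕ, -(m : ℤ) + k ≤ m → (P (-(m : ℤ)) ↔ P (-(m : ℤ) + k)) := by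
    intro k
    induction k with
    | zero => intro _; simp
    | succ k ih =>
      intro hk
      push_cast at hk ⊢
      rw [← add_assoc]
      rw [ih (by omega)]
      exact hcon _ (by omega) (by omega)
  have e1 := key (s + m).toNat (by omega)
  have e2 := key (t + m).toNat (by omega)
  have f1 : -(m : ℤ) + ((s + m).toNat : ℤ) = s := by omega
  have f2 : -(m : ℤ) + ((t + m).toNat : ℤ) = t := by omega
  rw [f1] at e1
  rw [f2] at e2
  exact h2 (e2.1 (e1.2 h1))

/-- The boundary edges in the direction `i + 1`, projected. -/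
noncomputable def pr (m : ℕ) (W : Finset (Vx 2)) (i : Fin 2) : Finset ℤ :=
  (bdy (cbx m) W).image fun e => e.1 i

theorem pr_card (m : ℕ) (W : Finset (Vx 2)) (i : Fin 2) :
    (pr m W i).card ≤ (bdy (cbx m) W).card := Finset.card_image_le

/-- A mixed line contains a boundary edge. -/
theorem mixed (m : ℕ) (W : Finset (Vx 2)) (i : Fin 2) (c s t : ℤ)
    (h1 : mk i c s ∈ cbx m) (h2 : mk i c t ∈ cbx m) (h3 : mk i c s ∈ W) (h4 : mk i c t ∉ W) :
    c ∈ pr m W i := by
  rw [mk_mem] at h1 h2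
  obtain ⟨u, hu1, hu2, hu3⟩ := chg m (fun t => mk i c t ∈ W) s t h1.2 h2.2 h3 h4
  unfold pr
  rw [Finset.mem_image]
  refine ⟨(mk i c u, i + 1), ?_, mk_self i c u⟩
  unfold bdy
  rw [Finset.mem_filter]
  refine ⟨?_, ?_⟩
  · unfold es
    rw [Finset.mem_filter, Finset.mem_product, tgt_mk]
    refine ⟨⟨?_, Finset.mem_univ _⟩, ?_⟩
    · show mk i c u ∈ cbx m
      rw [mk_mem]
      exact ⟨h1.1, by omega, by omega⟩
    · rw [mk_mem]
      exact ⟨h1.1, by omega, by omega⟩
  · rw [tgt_mk]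
    exact hu3

/-- There is a full line. -/
def Full (m : ℕ) (W : Finset (Vx 2)) (i : Fin 2) : Prop :=
  ∃ c : ℤ, (-(m : ℤ) ≤ c ∧ c ≤ m) ∧ ∀ t, (-(m : ℤ) ≤ t ∧ t ≤ m) → mk i c t ∈ W

theorem caseA (m : ℕ) (W : Finset (Vx 2)) (hW : W ⊆ cbx m) (h : ∀ i, ¬ Full m W i) :
    W.card ≤ (bdy (cbx m) W).card ^ 2 := by
  have key : ∀ i : Fin 2, ∀ x ∈ W, x i ∈ pr m W i := by
    intro i x hx
    have h1 : ¬ Full m W i := h i
    have hx' := hW hx
    rw [← mk_eta i x] at hx hx'
    have hb := mk_mem.1 hx'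
    unfold Full at h1
    push Not at h1
    obtain ⟨t, ht1, ht2⟩ := h1 (x i) hb.1
    exact mixed m W i (x i) (x (i + 1)) t hx' (mk_mem.2 ⟨hb.1, ht1⟩) hx ht2
  have h1 : W.card ≤ (pr m W 0 ×ˢ pr m W 1).card := by
    refine Finset.card_le_card_of_injOn (fun x => (x 0, x 1)) ?_ ?_
    · intro x hx
      have hx' : x ∈ W := hx
      show (x 0, x 1) ∈ ((pr m W 0 ×ˢ pr m W 1 : Finset (ℤ × ℤ)) : Set (ℤ × ℤ))
      rw [Finset.mem_coe, Finset.mem_product]
      exact ⟨key 0 x hx', key 1 x hx'⟩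
    · intro x _ y _ hxy
      have e0 : x 0 = y 0 := congrArg Prod.fst hxy
      have e1 : x 1 = y 1 := congrArg Prod.snd hxy
      funext k
      fin_cases k
      · exact e0
      · exact e1
  rw [Finset.card_product] at h1
  calc W.card ≤ (pr m W 0).card * (pr m W 1).card := h1
    _ ≤ (bdy (cbx m) W).card * (bdy (cbx m) W).card :=
        Nat.mul_le_mul (pr_card m W 0) (pr_card m W 1)
    _ = (bdy (cbx m) W).card ^ 2 := by ring

theorem cbx_card (m : ℕ) : (cbx m).card = (2 * m + 1) ^ 2 := by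
  unfold cbx
  rw [Pi.card_Icc]
  simp only [Int.card_Icc, Finset.prod_const, Finset.card_univ, Fintype.card_fin]
  congr 1
  omega

theorem caseB (m : ℕ) (W : Finset (Vx 2)) (hW : W ⊆ cbx m) (i : Fin 2) (h : Full m W i)
    (h' : ¬ Full m W (i + 1)) : W.card ≤ (bdy (cbx m) W).card ^ 2 := by
  obtain ⟨c, hc, hfull⟩ := h
  have h1 : Finset.Icc (-(m : ℤ)) m ⊆ pr m W (i + 1) := by
    intro t ht
    rw [Finset.mem_Icc] at ht
    unfold Full at h'
    push Not at h'
    obtain ⟨s, hs1, hs2⟩ := h' t ht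
    have h3 : mk (i + 1) t c ∈ W := by
      rw [← mk_swap]
      exact hfull t ht
    exact mixed m W (i + 1) t c s (hW h3) (mk_mem.2 ⟨ht, hs1⟩) h3 hs2
  have h2 : 2 * m + 1 ≤ (bdy (cbx m) W).card := by
    have h3 := Finset.card_le_card h1
    rw [Int.card_Icc] at h3
    have h4 := pr_card m W (i + 1)
    omega
  calc W.card ≤ (cbx m).card := Finset.card_le_card hW
    _ = (2 * m + 1) ^ 2 := cbx_card m
    _ ≤ (bdy (cbx m) W).card ^ 2 := Nat.pow_le_pow_left h2 2

theorem bdy_compl (m : ℕ) (W : Finset (Vx 2)) :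
    bdy (cbx m) (cbx m \ W) = bdy (cbx m) W := by
  unfold bdy
  refine Finset.filter_congr fun e he => ?_
  unfold es at he
  rw [Finset.mem_filter, Finset.mem_product] at he
  have h1 : e.1 ∈ cbx m := he.1.1
  have h2 : tgt e ∈ cbx m := he.2
  simp only [Finset.mem_sdiff, h1, h2, true_and]
  tauto

theorem caseC (m : ℕ) (W : Finset (Vx 2)) (h : ∀ i, Full m W i) :
    (cbx m \ W).card ≤ (bdy (cbx m) W).card ^ 2 := by
  rw [← bdy_compl m W]
  refine caseA m (cbx m \ W) Finset.sdiff_subset ?_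
  rintro i ⟨c, hc, hfull⟩
  obtain ⟨c', hc', hfull'⟩ := h (i + 1)
  have h1 := hfull c' hc'
  have h2 := hfull' c hc
  rw [mk_swap] at h1
  rw [Finset.mem_sdiff] at h1
  exact h1.2 h2

end ISO_

open ISO_ in
theorem p_ISO : T_ISO := by
  intro m W hW
  by_cases h0 : Full m W 0
  · by_cases h1 : Full m W 1
    · right
      refine caseC m W ?_
      intro i
      fin_cases i
      · exact h0
      · exact h1
    · left
      exact caseB m W hW 0 h0 h1
  · left
    by_cases h1 : Full m W 1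
    · exact caseB m W hW 1 h1 h0
    · refine caseA m W hW ?_
      intro i
      fin_cases i
      · exact h0
      · exact h1

end Pool.Agent.FKP
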