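import Pool.Agent.FKP.PartD
import Pool.Agent.FKP.Lem

/-!
# Project FKP: proof of the target KER (positive semidefinite kernels)
-/

set_option autoImplicit false

namespace Pool.Agent.FKP

open Filter MeasureTheory Pool.Agent.FKT

namespace KER_

variable {A : Type}

lemma of_fintype {ι : Type} [Fintype ι] (C : ι → A → ℝ) (K : A → A → ℝ)
    (h : ∀ a b, K a b = ∑ i, C i a * C i b) : PDk K := by
  refine ⟨Fintype.card ι, fun i => C ((Fintype.equivFin ι).symm i), fun a b => ?_⟩
  rw [h a b]
  exact (Equiv.sum_comp (Fintype.equivFin ι).symm (fun i => C i a * C i b)).symm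

lemma add {K K' : A → A → ℝ} (h : PDk K) (h' : PDk K') : PDk fun a b => K a b + K' a b := by
  obtain ⟨m, C, hC⟩ := h
  obtain ⟨m', C', hC'⟩ := h'
  refine of_fintype (ι := Fin m ⊕ Fin m') (Sum.elim C C') _ fun a b => ?_
  rw [Fintype.sum_sum_type, hC a b, hC' a b]
  rfl

lemma mul {K K' : A → A → ℝ} (h : PDk K) (h' : PDk K') : PDk fun a b => K a b * K' a b := by
  obtain ⟨m, C, hC⟩ := h
  obtain ⟨m', C', hC'⟩ := h'
  refine of_fintype (ι := Fin m × Fin m') (fun i a => C i.1 a * C' i.2 a) _ fun a b => ?_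
  rw [Fintype.sum_prod_type, hC a b, hC' a b, Finset.sum_mul_sum]
  refine Finset.sum_congr rfl fun i _ => Finset.sum_congr rfl fun j _ => ?_
  ring

lemma smul {K : A → A → ℝ} {c : ℝ} (hc : 0 ≤ c) (h : PDk K) : PDk fun a b => c * K a b := by
  obtain ⟨m, C, hC⟩ := h
  refine ⟨m, fun i a => Real.sqrt c * C i a, fun a b => ?_⟩
  show c * K a b = _
  rw [hC a b, Finset.mul_sum]
  refine Finset.sum_congr rfl fun i _ => ?_
  have h1 : Real.sqrt c * Real.sqrt c = c := Real.mul_self_sqrt hc
  calc c * (C i a * C i b) = (Real.sqrt c * Real.sqrt c) * (C i a * C i b) := by rw [h1]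
    _ = Real.sqrt c * C i a * (Real.sqrt c * C i b) := by ring

lemma one : PDk fun _ _ : A => (1 : ℝ) :=
  ⟨1, fun _ _ => 1, fun a b => by simp⟩

lemma prod {ι : Type} (S : Finset ι) (K : ι → A → A → ℝ) (h : ∀ i ∈ S, PDk (K i)) :
    PDk fun a b => ∏ i ∈ S, K i a b := by
  classical
  induction S using Finset.induction_on with
  | empty =>
    simp only [Finset.prod_empty]
    exact one
  | insert i S hi ih =>
    simp only [Finset.prod_insert hi]
    exact mul (h i (Finset.mem_insert_self i S))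
      (ih fun j hj => h j (Finset.mem_insert_of_mem hj))

lemma comp {A' : Type} {K : A → A → ℝ} (f : A' → A) (h : PDk K) :
    PDk fun a b => K (f a) (f b) := by
  obtain ⟨m, C, hC⟩ := h
  exact ⟨m, fun i a => C i (f a), fun a b => hC _ _⟩

variable {N : ℕ} [NeZero N]

lemma sum_ind (a : ZMod N) (f : ZMod N → ℝ) : ∑ c, ind (a = c) * f c = f a := by
  have h : ∀ c, ind (a = c) * f c = if a = c then f c else 0 := by
    intro c
    unfold ind
    split_ifs
    · rw [one_mul]
    · rw [zero_mul]
  rw [Finset.sum_congr rfl (fun c _ => h c)]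
  simp

lemma sum_ind_neg (a : ZMod N) (f : ZMod N → ℝ) : ∑ c, ind (a = -c) * f c = f (-a) := by
  rw [← sum_ind (-a) f]
  refine Finset.sum_congr rfl fun c _ => ?_
  have h : (a = -c) ↔ (-a = c) := by
    constructor
    · intro h
      rw [h, neg_neg]
    · intro h
      rw [← h, neg_neg]
  rw [ind_congr h]

omit [NeZero N] in
lemma ind_add (a b : ZMod N) : ind (a + b = 0) = ind (b = -a) :=
  ind_congr ⟨fun h => by rw [eq_neg_iff_add_eq_zero, add_comm]; exact h,
    fun h => by rw [h, add_neg_cancel]⟩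

omit [NeZero N] in
lemma ind_sub (a b : ZMod N) : ind (a - b = 0) = ind (b = a) :=
  ind_congr ⟨fun h => (sub_eq_zero.1 h).symm, fun h => by rw [h, sub_self]⟩

omit [NeZero N] in
lemma neg_eq (a b : ZMod N) : ind (b = -(-a)) = ind (b = a) := by rw [neg_neg]

lemma plus : PDk (fun a b : ZMod N => ind (a + b = 0) + ind (a - b = 0)) := by
  have h1 : PDk (fun a b : ZMod N => 2 * (ind (a + b = 0) + ind (a - b = 0))) := by
    refine of_fintype (ι := ZMod N) (fun c a => ind (a = c) + ind (a = -c)) _ fun a b => ?_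
    simp only [add_mul]
    rw [Finset.sum_add_distrib, sum_ind a (fun c => ind (b = c) + ind (b = -c)),
      sum_ind_neg a (fun c => ind (b = c) + ind (b = -c)), neg_eq, ind_add, ind_sub]
    ring
  have h2 := smul (c := 1 / 2) (by norm_num) h1
  have h3 : (fun a b : ZMod N => (1 / 2 : ℝ) * (2 * (ind (a + b = 0) + ind (a - b = 0)))) =
      fun a b : ZMod N => ind (a + b = 0) + ind (a - b = 0) := by
    funext a b
    ring
  rwa [h3] at h2

lemma minus : PDk (fun a b : ZMod N => ind (a - b = 0) - ind (a + b = 0)) := by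
  have h1 : PDk (fun a b : ZMod N => 2 * (ind (a - b = 0) - ind (a + b = 0))) := by
    refine of_fintype (ι := ZMod N) (fun c a => ind (a = c) - ind (a = -c)) _ fun a b => ?_
    simp only [sub_mul]
    rw [Finset.sum_sub_distrib, sum_ind a (fun c => ind (b = c) - ind (b = -c)),
      sum_ind_neg a (fun c => ind (b = c) - ind (b = -c)), neg_eq, ind_add, ind_sub]
    ring
  have h2 := smul (c := 1 / 2) (by norm_num) h1
  have h3 : (fun a b : ZMod N => (1 / 2 : ℝ) * (2 * (ind (a - b = 0) - ind (a + b = 0)))) =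
      fun a b : ZMod N => ind (a - b = 0) - ind (a + b = 0) := by
    funext a b
    ring
  rwa [h3] at h2

lemma times : PDk (fun a b : ZMod N => ind (a + b = 0) * ind (a - b = 0)) := by
  refine of_fintype (ι := ZMod N) (fun c a => ind (a = c) * ind (c + c = 0)) _ fun a b => ?_
  have h1 : ∀ c : ZMod N, ind (a = c) * ind (c + c = 0) * (ind (b = c) * ind (c + c = 0)) =
      ind (a = c) * (ind (b = c) * (ind (c + c = 0) * ind (c + c = 0))) := fun c => by ring
  rw [Finset.sum_congr rfl (fun c _ => h1 c),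
    sum_ind a (fun c => ind (b = c) * (ind (c + c = 0) * ind (c + c = 0))), ind_sq, ind_sub,
    mul_comm]
  by_cases hb : b = a
  · rw [hb]
  · rw [ind_false hb, zero_mul, zero_mul]

end KER_

open KER_ in
theorem p_KER : T_KER :=
  ⟨fun _ _ _ h h' => ⟨add h h', mul h h'⟩, fun _ _ _ hc h => smul hc h,
    fun _ _ S K h => prod S K h, fun _ _ _ f h => comp f h, fun _ _ => ⟨plus, minus, times⟩⟩

end Pool.Agent.FKP
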