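import Pool.Agent.FKP.PartB
import Pool.Agent.FKP.Lem

/-! Project FKP, target SMK: the sum of the influences. -/

set_option autoImplicit false

namespace Pool.Agent.FKP

open Filter MeasureTheory Pool.Agent.FKT

namespace SMK_

theorem mem_cu_self {k : ℕ} (s : ℕ) (w : Vx (k + 3)) : w ∈ cu s w := by
  unfold cu
  rw [Finset.mem_Icc]
  refine ⟨le_refl _, fun i => ?_⟩
  dsimp only
  split_ifs
  · have : (0 : ℤ) ≤ s := Int.natCast_nonneg s
    linarith
  · exact le_refl _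

theorem cu_sub_rg {k : ℕ} {s H : ℕ} (h : s ≤ H) (w : Vx (k + 3)) : cu s w ⊆ rg H w := by
  intro x hx
  unfold cu at hx
  unfold rg
  rw [Finset.mem_Icc] at hx ⊢
  have hs : (s : ℤ) ≤ H := by exact_mod_cast h
  have hH : (0 : ℤ) ≤ H := Int.natCast_nonneg H
  refine ⟨fun i => ?_, fun i => ?_⟩
  · have h1 := hx.1 i
    dsimp only
    split_ifs
    · linarith
    · exact h1
  · have h2 := hx.2 i
    dsimp only at h2 ⊢
    split_ifs at h2 ⊢
    · linarith
    · exact h2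

theorem con_inv {V E : Type} {s t : E → V} {R : V → V → Prop} {O : Set E} (P : V → Prop)
    (h : ∀ a b, Step s t R O a b → (P a ↔ P b)) {a b : V} (hab : FKT.Con s t R O a b) :
    P a ↔ P b := by
  unfold FKT.Con at hab
  induction hab with
  | rel x y hxy => exact h x y hxy
  | refl x => exact Iff.rfl
  | symm x y _ ih => exact ih.symm
  | trans x y z _ _ ih1 ih2 => exact ih1.trans ih2

section

variable {k s H m : ℕ} {S : Finset (Vx (k + 3))} {v v' : Fin m → Vx (k + 3)}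

theorem dj_cu (hG : Geo s H S m v v') (i j : Fin m) : Disjoint (cu s (v i)) (cu s (v' j)) := by
  by_cases hij : i = j
  · subst hij; exact hG.cd i
  · have h1 := hG.dj i j hij
    refine Disjoint.mono ?_ ?_ h1
    · exact (cu_sub_rg hG.hH _).trans Finset.subset_union_left
    · exact (cu_sub_rg hG.hH _).trans Finset.subset_union_right

theorem cu_sub (hG : Geo s H S m v v') (i : Fin m) : cu s (v i) ⊆ S ∧ cu s (v' i) ⊆ S :=
  ⟨(cu_sub_rg hG.hH _).trans (hG.sb i).1, (cu_sub_rg hG.hH _).trans (hG.sb i).2⟩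

theorem not_con (hG : Geo s H S m v v') (i0 : Fin m) :
    ¬ FKT.Con Prod.fst tgt (swr s v v') (∅ : Set (Ed (k + 3))) (v i0) (v' i0) := by
  intro h
  have h1 := con_inv (fun x => ∃ i, x ∈ cu s (v i)) ?_ h
  · have h2 : ∃ i, v' i0 ∈ cu s (v i) := h1.1 ⟨i0, mem_cu_self s _⟩
    obtain ⟨i, hi⟩ := h2
    exact Finset.disjoint_left.1 (dj_cu hG i i0) hi (mem_cu_self s _)
  · intro a b hab
    rcases hab with (⟨i, j, ha, hb⟩ | ⟨i, j, ha, hb⟩) | ⟨e, he, _⟩
    · exact ⟨fun _ => ⟨j, hb⟩, fun _ => ⟨i, ha⟩⟩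
    · constructor
      · rintro ⟨l, hl⟩
        exact (Finset.disjoint_left.1 (dj_cu hG l i) hl ha).elim
      · rintro ⟨l, hl⟩
        exact (Finset.disjoint_left.1 (dj_cu hG l j) hl hb).elim
    · exact he.elim

theorem swr_sub (hG : Geo s H S m v v') (a b : Vx (k + 3)) (h : swr s v v' a b) :
    a ∈ S ∧ b ∈ S := by
  rcases h with ⟨i, j, ha, hb⟩ | ⟨i, j, ha, hb⟩
  · exact ⟨(cu_sub hG i).1 ha, (cu_sub hG j).1 hb⟩
  · exact ⟨(cu_sub hG i).2 ha, (cu_sub hG j).2 hb⟩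

/-- The normalisation of the conditional measure is positive. -/
theorem exD_pos (hG : Geo s H S m v v') (i0 : Fin m) {p q : ℝ} (hp : 0 < p) (hp1 : p < 1)
    (hq : 0 < q) : 0 < Ex Prod.fst tgt (mrg (swr s v v') (v i0) (v' i0)) S (es S) p q
      fun ω => ind (Dis Prod.fst tgt (swr s v v') (v i0) (v' i0) ω) := by
  refine Ex_pos hp hp1 hq (fun ω _ => ind_nonneg _) (Finset.empty_subset _) ?_
  have h : Dis Prod.fst tgt (swr s v v') (v i0) (v' i0) (∅ : Finset (Ed (k + 3))) := by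
    unfold Dis
    rw [Finset.coe_empty]
    exact not_con hG i0
  rw [ind_true h]
  norm_num

theorem tht_one (i0 : Fin m) {p q : ℝ} (hp : 0 < p) (hp1 : p < 1)
    (hq : 0 < q) (i : Fin m) (x : Vx (k + 3)) (hx : x ∈ cu s (v i)) :
    tht Prod.fst tgt (swr s v v') S (es S) p q (v i0) (v' i0) x = 1 := by
  unfold tht
  rw [← Ex_const (s := Prod.fst) (t := tgt) (R := mrg (swr s v v') (v i0) (v' i0)) (U := S)
    (G := es S) hp hp1 hq 1]
  refine Ex_congr fun ω _ => ind_true ?_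
  exact Con_wired (Or.inl (Or.inl ⟨i, i0, hx, mem_cu_self s _⟩))

theorem tht_one' (i0 : Fin m) {p q : ℝ} (hp : 0 < p) (hp1 : p < 1)
    (hq : 0 < q) (i : Fin m) (x : Vx (k + 3)) (hx : x ∈ cu s (v' i)) :
    tht Prod.fst tgt (swr s v v') S (es S) p q (v i0) (v' i0) x = 1 := by
  unfold tht
  rw [← Ex_const (s := Prod.fst) (t := tgt) (R := mrg (swr s v v') (v i0) (v' i0)) (U := S)
    (G := es S) hp hp1 hq 1]
  refine Ex_congr fun ω _ => ind_true ?_
  exact Con_trans (Con_wired (Or.inl (Or.inr ⟨i, i0, hx, mem_cu_self s _⟩)))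
    (Con_symm (Con_wired (Or.inr ⟨rfl, rfl⟩)))

theorem exc_const (hG : Geo s H S m v v') (i0 : Fin m) {p q : ℝ} (hp : 0 < p) (hp1 : p < 1)
    (hq : 0 < q) (c : ℝ) (f : Finset (Ed (k + 3)) → ℝ)
    (hf : ∀ ω, Dis Prod.fst tgt (swr s v v') (v i0) (v' i0) ω → f ω = c) :
    Exc Prod.fst tgt (mrg (swr s v v') (v i0) (v' i0)) S (es S) p q
      (Dis Prod.fst tgt (swr s v v') (v i0) (v' i0)) f = c := by
  unfold Exc
  have h1 : Ex Prod.fst tgt (mrg (swr s v v') (v i0) (v' i0)) S (es S) p q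
      (fun ω => ind (Dis Prod.fst tgt (swr s v v') (v i0) (v' i0) ω) * f ω) =
      c * Ex Prod.fst tgt (mrg (swr s v v') (v i0) (v' i0)) S (es S) p q
        fun ω => ind (Dis Prod.fst tgt (swr s v v') (v i0) (v' i0) ω) := by
    rw [← Ex_mul_left]
    refine Ex_congr fun ω _ => ?_
    by_cases hD : Dis Prod.fst tgt (swr s v v') (v i0) (v' i0) ω
    · rw [ind_true hD, hf ω hD]; ring
    · rw [ind_false hD]; ring
  rw [h1]
  exact mul_div_cancel_right₀ _ (exD_pos hG i0 hp hp1 hq).ne'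

theorem sgn_one (hG : Geo s H S m v v') (i0 : Fin m) {p q : ℝ} (u : ℝ) (hp : 0 < p)
    (hp1 : p < 1)
    (hq : 0 < q) (i : Fin m) (x : Vx (k + 3)) (hx : x ∈ cu s (v i)) :
    sgn Prod.fst tgt (swr s v v') S (es S) p q u (v i0) (v' i0) x = 1 := by
  unfold sgn
  refine exc_const hG i0 hp hp1 hq 1 _ fun ω hω => ?_
  have h1 : FKT.Con Prod.fst tgt (swr s v v') (ω : Set (Ed (k + 3))) x (v i0) :=
    Con_wired (Or.inl ⟨i, i0, hx, mem_cu_self s _⟩)
  have h2 : ¬ FKT.Con Prod.fst tgt (swr s v v') (ω : Set (Ed (k + 3))) x (v' i0) := fun h =>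
    hω (Con_trans (Con_symm h1) h)
  rw [ind_true h1, ind_false h2]
  ring

theorem sgn_u (hG : Geo s H S m v v') (i0 : Fin m) {p q : ℝ} (u : ℝ) (hp : 0 < p) (hp1 : p < 1)
    (hq : 0 < q) (i : Fin m) (x : Vx (k + 3)) (hx : x ∈ cu s (v' i)) :
    sgn Prod.fst tgt (swr s v v') S (es S) p q u (v i0) (v' i0) x = -u := by
  unfold sgn
  refine exc_const hG i0 hp hp1 hq (-u) _ fun ω hω => ?_
  have h1 : FKT.Con Prod.fst tgt (swr s v v') (ω : Set (Ed (k + 3))) x (v' i0) :=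
    Con_wired (Or.inr ⟨i, i0, hx, mem_cu_self s _⟩)
  have h2 : ¬ FKT.Con Prod.fst tgt (swr s v v') (ω : Set (Ed (k + 3))) x (v i0) := fun h =>
    hω (Con_trans (Con_symm h) h1)
  rw [ind_true h1, ind_false h2]
  ring

end

end SMK_

open SMK_ in
/-- Target SMK: the sum of the influences. -/
theorem p_SMK (h_TRF : T_TRF) (h_FL2 : T_FL2) : T_SMK := by
  intro k q κ u p θ hq hκ hu hQ hp hp1 hθ S s H m v v' hG i0 hth
  have hq0 : (0 : ℝ) < q := by linarith
  set th : Vx (k + 3) → ℝ := fun x =>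
    tht Prod.fst tgt (swr s v v') S (es S) p q (v i0) (v' i0) x with hthd
  set sg : Vx (k + 3) → ℝ := fun x =>
    sgn Prod.fst tgt (swr s v v') S (es S) p q u (v i0) (v' i0) x with hsgd
  set dl : Ed (k + 3) → ℝ := fun e =>
    dlt Prod.fst tgt (swr s v v') S (es S) p q (v i0) (v' i0) e with hdld
  have hdl : ∀ e ∈ es S, κ * p * (th (tgt e) * sg e.1 - th e.1 * sg (tgt e)) ^ 2 ≤ dl e := by
    intro e he
    exact h_TRF q κ u hQ (Vx (k + 3)) (Ed (k + 3)) Prod.fst tgt (swr s v v') S (es S) p hp hp1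
      (swr_sub hG) (fun e he => mem_es.1 he) (v i0) ((cu_sub hG i0).1 (mem_cu_self s _))
      (v' i0) ((cu_sub hG i0).2 (mem_cu_self s _)) (not_con hG i0) e he
  have hdl0 : ∀ e ∈ es S, 0 ≤ dl e := fun e he =>
    le_trans (mul_nonneg (mul_pos hκ hp).le (sq_nonneg _)) (hdl e he)
  set Ei : Fin m → Finset (Ed (k + 3)) := fun i => es (rg H (v i)) ∪ es (rg H (v' i)) with hEi
  have hEsub : ∀ i, Ei i ⊆ es S := fun i =>
    Finset.union_subset (es_mono (hG.sb i).1) (es_mono (hG.sb i).2)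
  have hEmem : ∀ i, ∀ e ∈ Ei i, e.1 ∈ rg H (v i) ∪ rg H (v' i) ∧
      tgt e ∈ rg H (v i) ∪ rg H (v' i) := by
    intro i e he
    rcases Finset.mem_union.1 he with h | h
    · exact ⟨Finset.mem_union_left _ (mem_es.1 h).1, Finset.mem_union_left _ (mem_es.1 h).2⟩
    · exact ⟨Finset.mem_union_right _ (mem_es.1 h).1, Finset.mem_union_right _ (mem_es.1 h).2⟩
  have hEdj : ∀ i j, i ≠ j → Disjoint (Ei i) (Ei j) := by
    intro i j hij
    rw [Finset.disjoint_left]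
    intro e hei hej
    exact Finset.disjoint_left.1 (hG.dj i j hij) (hEmem i e hei).1 (hEmem j e hej).1
  have hs0 : (0 : ℝ) < s := by exact_mod_cast hG.hs
  -- the inequality for one pair
  have hone : ∀ i, κ * p * θ ^ 4 * s / 12 ≤ ∑ e ∈ Ei i, dl e := by
    intro i
    obtain ⟨f, hf2, hfr⟩ := h_FL2 k s H (v i) (v' i) hG.hs hG.hH (hG.pl i) (hG.ds i)
    set r : Vx (k + 3) → ℝ := fun x => sg x / th x with hr
    have hr1 : ∀ x ∈ cu s (v i), r x = 1 := by
      intro x hx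
      simp only [hr, hthd, hsgd]
      rw [sgn_one hG i0 u hp hp1 hq0 i x hx, tht_one i0 hp hp1 hq0 i x hx, div_one]
    have hr2 : ∀ x ∈ cu s (v' i), r x = -u := by
      intro x hx
      simp only [hr, hthd, hsgd]
      rw [sgn_u hG i0 u hp hp1 hq0 i x hx, tht_one' i0 hp hp1 hq0 i x hx, div_one]
    have hfr' := hfr r (fun x hx => by rw [hr1 x hx, hr1 _ (mem_cu_self s _)])
      (fun x hx => by rw [hr2 x hx, hr2 _ (mem_cu_self s _)])
    rw [hr1 _ (mem_cu_self s _), hr2 _ (mem_cu_self s _)] at hfr'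
    have hCS := Finset.sum_mul_sq_le_sq_mul_sq (Ei i) f (fun e => r e.1 - r (tgt e))
    rw [hEi] at hCS
    dsimp only at hCS
    rw [hfr'] at hCS
    have hW0 : 0 ≤ ∑ e ∈ es (rg H (v i)) ∪ es (rg H (v' i)), (r e.1 - r (tgt e)) ^ 2 :=
      Finset.sum_nonneg fun e _ => sq_nonneg _
    have h1 : (1 : ℝ) ≤ 12 / s * ∑ e ∈ es (rg H (v i)) ∪ es (rg H (v' i)),
        (r e.1 - r (tgt e)) ^ 2 := by
      calc (1 : ℝ) ≤ (1 - -u) ^ 2 := by nlinarith
        _ ≤ _ := hCS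
        _ ≤ _ := mul_le_mul_of_nonneg_right hf2 hW0
    have h2 : (s : ℝ) / 12 ≤ ∑ e ∈ es (rg H (v i)) ∪ es (rg H (v' i)),
        (r e.1 - r (tgt e)) ^ 2 := by
      rw [div_mul_eq_mul_div, le_div_iff₀ hs0] at h1
      rw [div_le_iff₀ (by norm_num : (0 : ℝ) < 12)]
      linarith
    have h3 : ∀ e ∈ Ei i, κ * p * θ ^ 4 * (r e.1 - r (tgt e)) ^ 2 ≤ dl e := by
      intro e he
      refine le_trans ?_ (hdl e (hEsub i he))
      have hx : θ ≤ th e.1 := hth i _ (hEmem i e he).1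
      have hy : θ ≤ th (tgt e) := hth i _ (hEmem i e he).2
      have hx0 : 0 < th e.1 := lt_of_lt_of_le hθ hx
      have hy0 : 0 < th (tgt e) := lt_of_lt_of_le hθ hy
      have he1 : th (tgt e) * sg e.1 - th e.1 * sg (tgt e) =
          (th e.1 * th (tgt e)) * (r e.1 - r (tgt e)) := by
        simp only [hr]
        field_simp
      rw [he1, mul_pow]
      have hxy : θ ^ 4 ≤ (th e.1 * th (tgt e)) ^ 2 := by
        have h5 : θ ^ 2 ≤ th e.1 * th (tgt e) := by nlinarith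
        have h6 : (0 : ℝ) ≤ θ ^ 2 := sq_nonneg θ
        calc θ ^ 4 = (θ ^ 2) ^ 2 := by ring
          _ ≤ (th e.1 * th (tgt e)) ^ 2 := pow_le_pow_left₀ h6 h5 2
      calc κ * p * θ ^ 4 * (r e.1 - r (tgt e)) ^ 2
          = κ * p * (θ ^ 4 * (r e.1 - r (tgt e)) ^ 2) := by ring
        _ ≤ κ * p * ((th e.1 * th (tgt e)) ^ 2 * (r e.1 - r (tgt e)) ^ 2) :=
            mul_le_mul_of_nonneg_left (mul_le_mul_of_nonneg_right hxy (sq_nonneg _))
              (mul_pos hκ hp).le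
    calc κ * p * θ ^ 4 * s / 12 = κ * p * θ ^ 4 * (s / 12) := by ring
      _ ≤ κ * p * θ ^ 4 * ∑ e ∈ Ei i, (r e.1 - r (tgt e)) ^ 2 :=
          mul_le_mul_of_nonneg_left h2 (mul_pos (mul_pos hκ hp) (pow_pos hθ 4)).le
      _ = ∑ e ∈ Ei i, κ * p * θ ^ 4 * (r e.1 - r (tgt e)) ^ 2 := Finset.mul_sum _ _ _
      _ ≤ ∑ e ∈ Ei i, dl e := Finset.sum_le_sum h3
  -- the sum over the pairs
  have hbi : ∑ e ∈ Finset.univ.biUnion Ei, dl e = ∑ i, ∑ e ∈ Ei i, dl e :=
    Finset.sum_biUnion fun i _ j _ hij => hEdj i j hij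
  calc κ * p * θ ^ 4 * (m : ℝ) * s / 12 = ∑ _i : Fin m, κ * p * θ ^ 4 * s / 12 := by
        rw [Finset.sum_const, Finset.card_univ, Fintype.card_fin, nsmul_eq_mul]
        ring
    _ ≤ ∑ i, ∑ e ∈ Ei i, dl e := Finset.sum_le_sum fun i _ => hone i
    _ = ∑ e ∈ Finset.univ.biUnion Ei, dl e := hbi.symm
    _ ≤ ∑ e ∈ es S, dl e := by
        refine Finset.sum_le_sum_of_subset_of_nonneg ?_ fun e he _ => hdl0 e he
        exact Finset.biUnion_subset.2 fun i _ => hEsub i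

end Pool.Agent.FKP
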