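import Pool.Agent.FKP.PartB
import Pool.Agent.FKP.Lem
import Pool.Agent.FKP.P_SMK

/-! Project FKP, target KEY: the key estimate. -/

set_option autoImplicit false

namespace Pool.Agent.FKP

open Filter MeasureTheory Pool.Agent.FKT

namespace KEY_

theorem lg_log {p : ℝ} (h0 : 0 < p) (h1 : p < 1) : lg (Real.log (p / (1 - p))) = p := by
  have h2 : 0 < 1 - p := by linarith
  unfold lg
  rw [Real.exp_log (div_pos h0 h2)]
  field_simp
  ring

theorem lg_mono {a b : ℝ} (h : a ≤ b) : lg a ≤ lg b := by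
  unfold lg
  have ha := Real.exp_pos a
  have hb := Real.exp_pos b
  have h1 : Real.exp a ≤ Real.exp b := Real.exp_le_exp.2 h
  rw [div_le_div_iff₀ (by linarith) (by linarith)]
  nlinarith

end KEY_

theorem p_KEY (h_THT : T_THT) (h_SMK : T_SMK) (h_LGD : T_LGD) (h_UNM : T_UNM) : T_KEY := by
  intro k q κ u p1 p θ hq hκ hu hQ hp1 hpp hp hθ S s H m v v' hG hv hv'
  have hq0 : 0 < q := lt_of_lt_of_le one_pos hq
  have hp0 : 0 < p := hp1.trans_le hpp
  have hp11 : p1 < 1 := hpp.trans_lt hp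
  rcases Nat.eq_zero_or_pos m with hm | hm
  · subst hm
    rw [pow_zero, one_mul]
    unfold fr fw
    exact Ex_mono hp0 hp hq0 fun ω _ => ind_mono fun h => h.1
  · let i0 : Fin m := ⟨0, hm⟩
    set l1 := Real.log (p1 / (1 - p1)) with hl1
    set l2 := Real.log (p / (1 - p)) with hl2
    have e1 : lg l1 = p1 := KEY_.lg_log hp1 hp11
    have e2 : lg l2 = p := KEY_.lg_log hp0 hp
    have h12 : l1 ≤ l2 := by
      apply Real.log_le_log (div_pos hp1 (by linarith))
      rw [div_le_div_iff₀ (by linarith) (by linarith)]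
      nlinarith
    set M : ℝ := κ * p1 * θ ^ 4 * m * s / 12 with hM
    have key := h_LGD (Vx (k + 3)) (Ed (k + 3)) Prod.fst tgt
      (mrg (swr s v v') (v i0) (v' i0)) S (es S) q hq0
      (Dis Prod.fst tgt (swr s v v') (v i0) (v' i0)) M l1 l2 h12
      ⟨∅, Finset.empty_subset _, by
        unfold Dis
        rw [Finset.coe_empty]
        exact SMK_.not_con hG i0⟩ ?_
    · rw [e1, e2] at key
      have hle1 : Ex Prod.fst tgt (mrg (swr s v v') (v i0) (v' i0)) S (es S) p1 q
          (fun ω => ind (Dis Prod.fst tgt (swr s v v') (v i0) (v' i0) ω)) ≤ 1 :=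
        Ex_le_one hp1 hp11 hq0 fun ω _ => ind_le_one _
      have hexp := Real.exp_pos (-(M * (l2 - l1)))
      have hkey : Ex Prod.fst tgt (mrg (swr s v v') (v i0) (v' i0)) S (es S) p q
          (fun ω => ind (Dis Prod.fst tgt (swr s v v') (v i0) (v' i0) ω)) ≤
          Real.exp (-(M * (l2 - l1))) := by
        refine key.trans ?_
        calc Real.exp (-(M * (l2 - l1))) * _ ≤ Real.exp (-(M * (l2 - l1))) * 1 :=
              mul_le_mul_of_nonneg_left hle1 hexp.le
          _ = _ := mul_one _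
      have hU := h_UNM k q p hq hp0 hp S s H m v v' hG i0
      have hfr : 0 ≤ fr S p q fun ω => ind (Sop s v v' ω) := by
        unfold fr fw
        exact Ex_nonneg hp0 hp hq0 fun ω _ => ind_nonneg _
      have hpow : (q ^ 2 * Real.exp (-(κ * p1 * θ ^ 4 * s / 12 * (l2 - l1)))) ^ m =
          q ^ (2 * m) * Real.exp (-(M * (l2 - l1))) := by
        rw [mul_pow, ← pow_mul, ← Real.exp_nat_mul]
        congr 2
        rw [hM]
        ring
      rw [hpow]
      refine hU.trans (mul_le_mul_of_nonneg_right ?_ hfr)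
      exact mul_le_mul_of_nonneg_left hkey (pow_nonneg hq0.le _)
    · intro l ha hb
      have hlo : p1 ≤ lg l := by
        rw [← e1]; exact KEY_.lg_mono ha
      have hhi : lg l ≤ p := by
        rw [← e2]; exact KEY_.lg_mono hb
      have hl0 : 0 < lg l := hp1.trans_le hlo
      have hl1' : lg l < 1 := hhi.trans_lt hp
      have ht := h_THT k q p1 (lg l) θ hq hp1 hlo hl1' S s H m v v' i0 hv hv'
      have hs := h_SMK k q κ u (lg l) θ hq hκ hu hQ hl0 hl1' hθ S s H m v v' hG i0 ht
      have hs' : κ * lg l * θ ^ 4 * (m : ℝ) * s / 12 ≤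
          ∑ e ∈ es S, (Ex Prod.fst tgt (mrg (swr s v v') (v i0) (v' i0)) S (es S) (lg l) q
            (fun ω => ind (e ∈ ω)) -
            Exc Prod.fst tgt (mrg (swr s v v') (v i0) (v' i0)) S (es S) (lg l) q
              (Dis Prod.fst tgt (swr s v v') (v i0) (v' i0)) fun ω => ind (e ∈ ω)) := hs
      refine le_trans ?_ hs'
      rw [hM]
      have h3 : 0 ≤ θ ^ 4 * (m : ℝ) * s / 12 := by positivity
      have h4 : κ * p1 ≤ κ * lg l := mul_le_mul_of_nonneg_left hlo hκ.le
      calc κ * p1 * θ ^ 4 * (m : ℝ) * s / 12 = κ * p1 * (θ ^ 4 * (m : ℝ) * s / 12) := by ring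
        _ ≤ κ * lg l * (θ ^ 4 * (m : ℝ) * s / 12) := mul_le_mul_of_nonneg_right h4 h3
        _ = _ := by ring

end Pool.Agent.FKP
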