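import Pool.Agent.FKP.Basic
import Pool.Agent.FKP.Lem

/-!
# Project FKP: the target T_LGD
-/

set_option autoImplicit false

namespace Pool.Agent.FKP

open Pool.Agent.FKT

namespace LGD_

lemma lg_pos (l : ℝ) : 0 < lg l := by
  unfold lg
  positivity

lemma lg_lt (l : ℝ) : lg l < 1 := by
  unfold lg
  have h := Real.exp_pos l
  rw [div_lt_one (by linarith)]
  linarith

lemma card_eq {E : Type} (G ω : Finset E) (h : ω ⊆ G) :
    (ω.card : ℝ) = ∑ e ∈ G, ind (e ∈ ω) := by
  classical
  have h1 : ∑ e ∈ G, ind (e ∈ ω) = ∑ e ∈ G, if e ∈ ω then (1 : ℝ) else 0 := by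
    apply Finset.sum_congr rfl
    intro e _
    by_cases he : e ∈ ω
    · rw [ind_true he, if_pos he]
    · rw [ind_false he, if_neg he]
  rw [h1, ← Finset.sum_filter, Finset.sum_const, nsmul_eq_mul, mul_one,
    Finset.filter_mem_eq_inter, Finset.inter_eq_right.mpr h]

variable {V E : Type} (s t : E → V) (R : V → V → Prop) (U : Finset V) (G : Finset E)

lemma ex_card (p q : ℝ) : Ex s t R U G p q (fun ω => (ω.card : ℝ)) =
    ∑ e ∈ G, Ex s t R U G p q (fun ω => ind (e ∈ ω)) := by
  rw [← Ex_sum]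
  exact Ex_congr fun ω hω => card_eq G ω hω

lemma ex_card' (p q : ℝ) (D : Finset E → Prop) :
    Ex s t R U G p q (fun ω => ind (D ω) * (ω.card : ℝ)) =
    ∑ e ∈ G, Ex s t R U G p q (fun ω => ind (D ω) * ind (e ∈ ω)) := by
  rw [← Ex_sum]
  apply Ex_congr
  intro ω hω
  rw [card_eq G ω hω, Finset.mul_sum]

end LGD_

open LGD_ in
theorem p_LGD (h_DER : T_DER) : T_LGD := by
  intro V E _ s t R U G q hq D M a b hab hD hM
  set g : ℝ → ℝ := fun l => Ex s t R U G (lg l) q (fun ω => ind (D ω)) with hg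
  have hpos : ∀ l, 0 < g l := by
    intro l
    obtain ⟨ω0, h0, h1⟩ := hD
    exact Ex_pos (lg_pos l) (lg_lt l) hq (fun ω _ => ind_nonneg _) h0
      (by rw [ind_true h1]; exact one_pos)
  have hder := fun l => h_DER V E s t R U G q hq (fun ω => ind (D ω)) l
  have hle : ∀ l, a ≤ l → l ≤ b →
      Ex s t R U G (lg l) q (fun ω => ind (D ω) * (ω.card : ℝ)) -
        Ex s t R U G (lg l) q (fun ω => ind (D ω)) *
          Ex s t R U G (lg l) q (fun ω => (ω.card : ℝ)) ≤ -(M * g l) := by
    intro l h1 h2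
    have h3 := hM l h1 h2
    have h4 : ∑ e ∈ G, (Ex s t R U G (lg l) q (fun ω => ind (e ∈ ω)) -
        Exc s t R U G (lg l) q D fun ω => ind (e ∈ ω)) =
        Ex s t R U G (lg l) q (fun ω => (ω.card : ℝ)) -
          Ex s t R U G (lg l) q (fun ω => ind (D ω) * (ω.card : ℝ)) / g l := by
      rw [Finset.sum_sub_distrib, ex_card, ex_card', Finset.sum_div]
      rfl
    rw [h4] at h3
    have h5 := mul_le_mul_of_nonneg_right h3 (hpos l).le
    rw [sub_mul, div_mul_cancel₀ _ (hpos l).ne'] at h5
    have h6 : Ex s t R U G (lg l) q (fun ω => ind (D ω)) = g l := rfl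
    rw [h6]
    linarith
  set h : ℝ → ℝ := fun l => Real.exp (M * l) * g l with hh
  have hd : ∀ l, HasDerivAt h (Real.exp (M * l) * M * g l + Real.exp (M * l) *
      (Ex s t R U G (lg l) q (fun ω => ind (D ω) * (ω.card : ℝ)) -
        Ex s t R U G (lg l) q (fun ω => ind (D ω)) *
          Ex s t R U G (lg l) q (fun ω => (ω.card : ℝ)))) l := by
    intro l
    have h1 : HasDerivAt (fun l : ℝ => Real.exp (M * l)) (Real.exp (M * l) * M) l := by
      have h2 : HasDerivAt (fun l : ℝ => M * l) M l := by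
        simpa using (hasDerivAt_id l).const_mul M
      exact h2.exp
    exact h1.mul (hder l)
  have hanti : AntitoneOn h (Set.Icc a b) := by
    apply antitoneOn_of_deriv_nonpos (convex_Icc a b)
    · exact fun l _ => (hd l).continuousAt.continuousWithinAt
    · exact fun l _ => (hd l).differentiableAt.differentiableWithinAt
    · intro l hl
      rw [interior_Icc] at hl
      rw [(hd l).deriv]
      have h1 := hle l hl.1.le hl.2.le
      have h2 := mul_le_mul_of_nonneg_left h1 (Real.exp_pos (M * l)).le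
      linarith
  have hfin := hanti (Set.left_mem_Icc.mpr hab) (Set.right_mem_Icc.mpr hab) hab
  have e1 : Real.exp (-(M * (b - a))) = Real.exp (M * a) * Real.exp (-(M * b)) := by
    rw [← Real.exp_add]
    congr 1
    ring
  have e2 : Real.exp (M * b) * Real.exp (-(M * b)) = 1 := by
    rw [← Real.exp_add, add_neg_cancel, Real.exp_zero]
  have h3 := mul_le_mul_of_nonneg_right hfin (Real.exp_pos (-(M * b))).le
  simp only [hh] at h3
  have h4 : Real.exp (M * b) * g b * Real.exp (-(M * b)) = g b := by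
    rw [mul_right_comm, e2, one_mul]
  rw [h4] at h3
  show g b ≤ Real.exp (-(M * (b - a))) * g a
  rw [e1]
  linarith

end Pool.Agent.FKP
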