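import Pool.Agent.FKP.PartC
import Pool.Agent.FKP.Lem

/-!
# Project FKP: two crossing clusters are connected (target LMY)
-/

set_option autoImplicit false

namespace Pool.Agent.FKP

open Filter MeasureTheory Pool.Agent.FKT

namespace LMY_

variable {d : ℕ}

theorem cf_mono {ω ω' : Finset (Ed d)} (h : ω ⊆ ω') {a b : Vx d} (hab : Cf ω a b) :
    Cf ω' a b :=
  Con_mono (fun _ _ h => h) (by exact_mod_cast h) hab

theorem cf_symm {ω : Finset (Ed d)} {a b : Vx d} (hab : Cf ω a b) : Cf ω b a :=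
  Con_symm hab

theorem cf_trans {ω : Finset (Ed d)} {a b c : Vx d} (hab : Cf ω a b) (hbc : Cf ω b c) :
    Cf ω a c :=
  Con_trans hab hbc

/-- The points connected to a point of the box by edges of the box are in the box. -/
theorem mem_iff {v : Vx d} {n : ℕ} {ω : Finset (Ed d)} (hω : ω ⊆ eb v n) {a b : Vx d}
    (h : Cf ω a b) : a ∈ bx v n ↔ b ∈ bx v n := by
  unfold Cf Cn FKT.Con at h
  induction h with
  | rel x y hxy =>
    rcases hxy with h | ⟨e, he, h1, h2⟩
    · exact absurd h id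
    · have h3 := hω (by exact_mod_cast he : e ∈ ω)
      unfold eb at h3
      rw [Finset.mem_filter, Finset.mem_product] at h3
      rw [← h1, ← h2]
      exact ⟨fun _ => h3.2, fun _ => h3.1.1⟩
  | refl x => exact Iff.rfl
  | symm x y _ ih => exact ih.symm
  | trans x y z _ _ ih1 ih2 => exact ih1.trans ih2

theorem card_bx (v : Vx d) (n : ℕ) : ((bx v n).card : ℝ) = (2 * (n : ℝ) + 1) ^ d := by
  have h : (bx v n).card = (2 * n + 1) ^ d := by
    unfold bx
    rw [Pi.card_Icc]
    have h1 : ∀ l : Fin d, (Finset.Icc (v l - (n : ℤ)) (v l + n)).card = 2 * n + 1 := by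
      intro l
      rw [Int.card_Icc]
      omega
    rw [Finset.prod_congr rfl fun l _ => h1 l, Finset.prod_const, Finset.card_univ,
      Fintype.card_fin]
  rw [h]
  push_cast
  rfl

/-- A point of the box with the right height is in the slab. -/
theorem mem_slc {v : Vx d} {n : ℕ} {i : Fin d} {L : ℕ} {c : ℤ} {w : Vx d}
    (hw : w ∈ bx v n) (hc : w i = c) : w ∈ slc v i L c n := by
  unfold bx at hw
  unfold slc
  rw [Finset.mem_Icc, Pi.le_def, Pi.le_def] at hw ⊢
  refine ⟨fun l => ?_, fun l => ?_⟩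
  · by_cases hl : l = i
    · subst hl
      simp only [if_true]
      exact hc.ge
    · simp only [if_neg hl]
      exact hw.1 l
  · by_cases hl : l = i
    · subst hl
      simp only [if_true]
      have : (0 : ℤ) ≤ L := Int.natCast_nonneg L
      linarith
    · simp only [if_neg hl]
      exact hw.2 l

theorem slc_nonempty (v : Vx d) (i : Fin d) (L : ℕ) (c : ℤ) (n : ℕ) :
    ∃ w, w ∈ slc v i L c n := by
  refine ⟨fun l => if l = i then c else v l, ?_⟩
  unfold slc
  rw [Finset.mem_Icc, Pi.le_def, Pi.le_def]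
  have h0 : (0 : ℤ) ≤ L := Int.natCast_nonneg L
  have h1 : (0 : ℤ) ≤ n := Int.natCast_nonneg n
  refine ⟨fun l => ?_, fun l => ?_⟩
  · by_cases hl : l = i
    · simp only [if_pos hl]
      exact le_refl _
    · simp only [if_neg hl]
      linarith
  · by_cases hl : l = i
    · simp only [if_pos hl]
      linarith
    · simp only [if_neg hl]
      linarith

end LMY_

open LMY_ in
theorem p_LMY (h_XPL : T_XPL) (h_ENT : T_ENT) : T_LMY := by
  classical
  intro d p q hp hp1 hq L α hα R U v n hU i c M hc1 hc2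
  have hq0 : 0 < q := lt_of_lt_of_le zero_lt_one hq
  -- the heights of the slabs
  obtain ⟨cj, hcj⟩ : ∃ cj : ℕ → ℤ, ∀ j, cj j = c + j * (L + 1) := ⟨_, fun j => rfl⟩
  -- the chosen points
  have hex : ∀ (a' : Vx d) (j : ℕ) (ξ : Finset (Ed d)), ∃ w : Vx d,
      w ∈ slc v i L (c + j * (L + 1)) n ∧
      ((∃ w' ∈ slc v i L (c + j * (L + 1)) n, Cf ξ a' w') → Cf ξ a' w) := by
    intro a' j ξ
    by_cases h : ∃ w' ∈ slc v i L (c + j * (L + 1)) n, Cf ξ a' w'
    · obtain ⟨w', h1, h2⟩ := h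
      exact ⟨w', h1, fun _ => h2⟩
    · obtain ⟨w, hw⟩ := slc_nonempty v i L (c + j * (L + 1)) n
      exact ⟨w, hw, fun h' => absurd h' h⟩
  choose τ hτ1 hτ2 using hex
  -- the events of the exploration
  obtain ⟨Ev, hEv⟩ : ∃ Ev : Vx d → Vx d → Finset (Ed d) → Prop, ∀ a a' ω, Ev a a' ω ↔
      ∀ j < M, (∃ w : Vx d, w i = c + j * (L + 1) ∧
        Cf (ω ∩ elo v n i (c + j * (L + 1))) a w) ∧
          ¬ Cf ω a (τ a' j (ω ∩ elo v n i (c + j * (L + 1)))) := ⟨_, fun _ _ _ => Iff.rfl⟩
  have hbound : ∀ a ∈ bx v n, ∀ a' ∈ bx v n,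
      Ex Prod.fst tgt R U (eb v n) p q (fun ω => ind (Ev a a' ω)) ≤ (1 - α) ^ M := by
    intro a ha a' _
    have h := h_XPL d p q hp hp1 hq L α hα R U v n hU i c M hc1 hc2 a ha (τ a')
      (fun j _ ξ => hτ1 a' j ξ)
    have h2 : (fun ω => ind (Ev a a' ω)) = fun ω : Finset (Ed d) => ind (∀ j < M,
        (∃ w : Vx d, w i = c + j * (L + 1) ∧
          Cf (ω ∩ elo v n i (c + j * (L + 1))) a w) ∧
          ¬ Cf ω a (τ a' j (ω ∩ elo v n i (c + j * (L + 1))))) := by
      funext ω
      exact ind_congr (hEv a a' ω)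
    rw [h2]
    exact h
  have hincl : ∀ ω : Finset (Ed d), ω ⊆ eb v n →
      ind (∃ u ∈ bx v n, ∃ u' ∈ bx v n, Cr i c (M * (L + 1)) u ω ∧
        Cr i c (M * (L + 1)) u' ω ∧ ¬ Cf ω u u') ≤
      ∑ a ∈ bx v n, ∑ a' ∈ bx v n, ind (Ev a a' ω) := by
    intro ω hω
    by_cases hE : ∃ u ∈ bx v n, ∃ u' ∈ bx v n, Cr i c (M * (L + 1)) u ω ∧
        Cr i c (M * (L + 1)) u' ω ∧ ¬ Cf ω u u'
    · rw [ind_true hE]
      obtain ⟨u, hu, u', hu', ⟨⟨a, hua, hai⟩, b, hub, hbi⟩, ⟨⟨a', hua', hai'⟩, b', hub', hbi'⟩,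
        hnu⟩ := hE
      have ha : a ∈ bx v n := (mem_iff hω hua).1 hu
      have ha' : a' ∈ bx v n := (mem_iff hω hua').1 hu'
      have hab : Cf ω a b := cf_trans (cf_symm hua) hub
      have hab' : Cf ω a' b' := cf_trans (cf_symm hua') hub'
      have hev : Ev a a' ω := by
        rw [hEv]
        intro j hj
        have hj0 : (0 : ℤ) ≤ (j : ℤ) * (L + 1) := by positivity
        have hjM : (j : ℤ) * (L + 1) ≤ (M : ℤ) * (L + 1) := by
          have : (j : ℤ) ≤ M := by exact_mod_cast hj.le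
          exact mul_le_mul_of_nonneg_right this (by positivity)
        have hbi2 : c + (M : ℤ) * (L + 1) ≤ b i := by
          have := hbi
          push_cast at this
          exact this
        have hbi2' : c + (M : ℤ) * (L + 1) ≤ b' i := by
          have := hbi'
          push_cast at this
          exact this
        refine ⟨h_ENT d v n i (c + j * (L + 1)) ω hω a b (by linarith) (by linarith) hab, ?_⟩
        obtain ⟨w', hw1, hw2⟩ := h_ENT d v n i (c + j * (L + 1)) ω hω a' b'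
          (by linarith) (by linarith) hab'
        have hsub : ω ∩ elo v n i (c + j * (L + 1)) ⊆ ω := Finset.inter_subset_left
        have hwb : w' ∈ bx v n := (mem_iff hω (cf_mono hsub hw2)).1 ha'
        have hτ := hτ2 a' j (ω ∩ elo v n i (c + j * (L + 1))) ⟨w', mem_slc hwb hw1, hw2⟩
        intro hcon
        apply hnu
        exact cf_trans (cf_trans hua hcon) (cf_symm (cf_trans hua' (cf_mono hsub hτ)))
      have h1 : (1 : ℝ) ≤ ∑ a' ∈ bx v n, ind (Ev a a' ω) := by
        rw [← ind_true hev]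
        exact Finset.single_le_sum (f := fun a' => ind (Ev a a' ω))
          (fun x _ => ind_nonneg _) ha'
      refine h1.trans ?_
      exact Finset.single_le_sum (f := fun a => ∑ a' ∈ bx v n, ind (Ev a a' ω))
        (fun x _ => Finset.sum_nonneg fun y _ => ind_nonneg _) ha
    · rw [ind_false hE]
      exact Finset.sum_nonneg fun x _ => Finset.sum_nonneg fun y _ => ind_nonneg _
  refine (Ex_mono hp hp1 hq0 hincl).trans ?_
  rw [Ex_sum (bx v n) (fun a ω => ∑ a' ∈ bx v n, ind (Ev a a' ω))]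
  have h3 : ∀ a ∈ bx v n, Ex Prod.fst tgt R U (eb v n) p q
      (fun ω => ∑ a' ∈ bx v n, ind (Ev a a' ω)) ≤ (2 * (n : ℝ) + 1) ^ d * (1 - α) ^ M := by
    intro a ha
    rw [Ex_sum (bx v n) (fun a' ω => ind (Ev a a' ω))]
    refine (Finset.sum_le_sum fun a' ha' => hbound a ha a' ha').trans ?_
    rw [Finset.sum_const, nsmul_eq_mul, card_bx]
  refine (Finset.sum_le_sum h3).trans ?_
  rw [Finset.sum_const, nsmul_eq_mul, card_bx, two_mul d, pow_add, mul_assoc]

end Pool.Agent.FKP
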