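import Pool.Agent.FKP.PartC
import Pool.Agent.FKP.Lem
import Pool.Agent.FKP.P_LMY

/-!
# Project FKP: a crossing cluster contains a prescribed point (target LMX)
-/

set_option autoImplicit false

namespace Pool.Agent.FKP

open Filter MeasureTheory Pool.Agent.FKT

open LMY_ in
theorem p_LMX (h_XPL : T_XPL) (h_ENT : T_ENT) : T_LMX := by
  classical
  intro d p q hp hp1 hq L α hα R U v n hU i c M hc1 hc2 y hy
  have hq0 : 0 < q := lt_of_lt_of_le zero_lt_one hq
  -- the events of the exploration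
  obtain ⟨Ev, hEv⟩ : ∃ Ev : Vx d → Finset (Ed d) → Prop, ∀ a ω, Ev a ω ↔
      ∀ j < M, (∃ w : Vx d, w i = c + j * (L + 1) ∧
        Cf (ω ∩ elo v n i (c + j * (L + 1))) a w) ∧ ¬ Cf ω a (y j) :=
    ⟨_, fun _ _ => Iff.rfl⟩
  have hbound : ∀ a ∈ bx v n,
      Ex Prod.fst tgt R U (eb v n) p q (fun ω => ind (Ev a ω)) ≤ (1 - α) ^ M := by
    intro a ha
    have h := h_XPL d p q hp hp1 hq L α hα R U v n hU i c M hc1 hc2 a ha (fun j _ => y j)
      (fun j hj _ => hy j hj)
    have h2 : (fun ω => ind (Ev a ω)) = fun ω : Finset (Ed d) => ind (∀ j < M,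
        (∃ w : Vx d, w i = c + j * (L + 1) ∧
          Cf (ω ∩ elo v n i (c + j * (L + 1))) a w) ∧ ¬ Cf ω a (y j)) := by
      funext ω
      exact ind_congr (hEv a ω)
    rw [h2]
    exact h
  have hincl : ∀ ω : Finset (Ed d), ω ⊆ eb v n →
      ind (∃ u ∈ bx v n, Cr i c (M * (L + 1)) u ω ∧ ∀ j < M, ¬ Cf ω u (y j)) ≤
      ∑ a ∈ bx v n, ind (Ev a ω) := by
    intro ω hω
    by_cases hE : ∃ u ∈ bx v n, Cr i c (M * (L + 1)) u ω ∧ ∀ j < M, ¬ Cf ω u (y j)
    · rw [ind_true hE]
      obtain ⟨u, hu, ⟨⟨a, hua, hai⟩, b, hub, hbi⟩, hnu⟩ := hE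
      have ha : a ∈ bx v n := (mem_iff hω hua).1 hu
      have hab : Cf ω a b := cf_trans (cf_symm hua) hub
      have hev : Ev a ω := by
        rw [hEv]
        intro j hj
        have hj0 : (0 : ℤ) ≤ (j : ℤ) * (L + 1) := by positivity
        have hjM : (j : ℤ) * (L + 1) ≤ (M : ℤ) * (L + 1) := by
          have : (j : ℤ) ≤ M := by exact_mod_cast hj.le
          exact mul_le_mul_of_nonneg_right this (by positivity)
        have hbi2 : c + (M : ℤ) * (L + 1) ≤ b i := by
          have := hbi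
          push_cast at this
          exact this
        refine ⟨h_ENT d v n i (c + j * (L + 1)) ω hω a b (by linarith) (by linarith) hab, ?_⟩
        intro hcon
        exact hnu j hj (cf_trans hua hcon)
      rw [← ind_true hev]
      exact Finset.single_le_sum (f := fun a => ind (Ev a ω)) (fun x _ => ind_nonneg _) ha
    · rw [ind_false hE]
      exact Finset.sum_nonneg fun x _ => ind_nonneg _
  refine (Ex_mono hp hp1 hq0 hincl).trans ?_
  rw [Ex_sum (bx v n) (fun a ω => ind (Ev a ω))]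
  refine (Finset.sum_le_sum fun a ha => hbound a ha).trans ?_
  rw [Finset.sum_const, nsmul_eq_mul, card_bx]

end Pool.Agent.FKP
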