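import Pool.Agent.FKP.PartE
import Pool.Agent.FKP.Lem

/-! Project FKP, target LOW: slab percolation implies percolation. -/

set_option autoImplicit false

namespace Pool.Agent.FKP

open Filter MeasureTheory Pool.Agent.FKT

namespace LOW_

variable {d : ℕ}

theorem mem_bx0 {N : ℕ} {v : Vx d} : v ∈ bx (0 : Vx d) N ↔ ∀ i, |v i| ≤ (N : ℤ) := by
  unfold bx
  rw [Finset.mem_Icc]
  constructor
  · rintro ⟨h1, h2⟩ i
    have a := h1 i
    have b := h2 i
    simp only [Pi.zero_apply] at a b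
    exact abs_le.2 ⟨by linarith, by linarith⟩
  · intro h
    refine ⟨fun i => ?_, fun i => ?_⟩
    · have := (abs_le.1 (h i)).1
      simp only [Pi.zero_apply]
      linarith
    · have := (abs_le.1 (h i)).2
      simp only [Pi.zero_apply]
      linarith

theorem bound_vx (v : Vx d) : ∃ N : ℕ, v ∈ bx (0 : Vx d) N := by
  refine ⟨∑ i, (v i).natAbs, mem_bx0.2 fun i => ?_⟩
  have h : (v i).natAbs ≤ ∑ i, (v i).natAbs :=
    Finset.single_le_sum (f := fun i => (v i).natAbs) (fun _ _ => Nat.zero_le _)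
      (Finset.mem_univ i)
  rw [Int.abs_eq_natAbs]
  exact_mod_cast h

theorem bx_mono {N N' : ℕ} (h : N ≤ N') : bx (0 : Vx d) N ⊆ bx (0 : Vx d) N' := by
  intro v hv
  rw [mem_bx0] at hv ⊢
  intro i
  have := hv i
  have h' : (N : ℤ) ≤ N' := by exact_mod_cast h
  linarith

theorem mem_rs (F : Finset (Ed d)) (O : Set (Ed d)) (e : Ed d) :
    e ∈ (rs F O : Set (Ed d)) ↔ e ∈ F ∧ e ∈ O := by
  unfold rs
  simp

/-- Connections use finitely many edges. -/
theorem con_fin {O : Set (Ed d)} {a b : Vx d} (h : Cn O a b) :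
    ∃ N : ℕ, Cf (rs (eb (0 : Vx d) N) O) a b := by
  unfold Cn FKT.Con at h
  induction h with
  | rel x y hxy =>
    rcases hxy with hno | ⟨e, he, h1, h2⟩
    · exact hno.elim
    · obtain ⟨N1, hN1⟩ := bound_vx e.1
      obtain ⟨N2, hN2⟩ := bound_vx (tgt e)
      refine ⟨max N1 N2, Relation.EqvGen.rel _ _ (Or.inr ⟨e, ?_, h1, h2⟩)⟩
      rw [mem_rs]
      refine ⟨?_, he⟩
      rw [← es_bx, mem_es]
      exact ⟨bx_mono (le_max_left _ _) hN1, bx_mono (le_max_right _ _) hN2⟩
  | refl x => exact ⟨0, Relation.EqvGen.refl _⟩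
  | symm x y _ ih =>
    obtain ⟨N, hN⟩ := ih
    exact ⟨N, Relation.EqvGen.symm _ _ hN⟩
  | trans x y z _ _ ih1 ih2 =>
    obtain ⟨N1, hN1⟩ := ih1
    obtain ⟨N2, hN2⟩ := ih2
    have hmono : ∀ {N N' : ℕ}, N ≤ N' →
        (rs (eb (0 : Vx d) N) O : Set (Ed d)) ⊆ (rs (eb (0 : Vx d) N') O : Set (Ed d)) := by
      intro N N' hNN e he
      rw [mem_rs] at he ⊢
      refine ⟨?_, he.2⟩
      have h1 := he.1
      rw [← es_bx] at h1 ⊢
      exact es_mono (bx_mono hNN) h1
    refine ⟨max N1 N2, Relation.EqvGen.trans _ y _ ?_ ?_⟩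
    · exact Con_mono (fun _ _ h => h) (hmono (le_max_left _ _)) hN1
    · exact Con_mono (fun _ _ h => h) (hmono (le_max_right _ _)) hN2

theorem cn_of_rs {F : Finset (Ed d)} {O : Set (Ed d)} {a b : Vx d} (h : Cf (rs F O) a b) :
    Cn O a b := by
  refine Con_mono (fun _ _ h => h) ?_ h
  intro e he
  rw [mem_rs] at he
  exact he.2

/-- The cluster of the origin reaches distance `n`. -/
def X (d n : ℕ) : Set (Ed d → Bool) := {ω | ∃ v ∈ C0 ω, ∃ i, (n : ℤ) ≤ |v i|}

theorem X_anti (d : ℕ) : Antitone (X d) := by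
  intro n n' h ω hω
  obtain ⟨v, hv, i, hi⟩ := hω
  refine ⟨v, hv, i, le_trans ?_ hi⟩
  exact_mod_cast h

theorem X_meas (h_LOC : FKT.T_LOC) (d n : ℕ) : MeasurableSet (X d n) := by
  have h1 : X d n = ⋃ N : ℕ, {ω : Ed d → Bool | (fun T : Finset (Ed d) =>
      ∃ v : Vx d, Cf T 0 v ∧ ∃ i, (n : ℤ) ≤ |v i|) (rs (eb (0 : Vx d) N) (cfg ω))} := by
    ext ω
    rw [Set.mem_iUnion]
    constructor
    · rintro ⟨v, hv, i, hi⟩
      obtain ⟨N, hN⟩ := con_fin hv
      exact ⟨N, v, hN, i, hi⟩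
    · rintro ⟨N, v, hv, i, hi⟩
      exact ⟨v, cn_of_rs hv, i, hi⟩
  rw [h1]
  exact MeasurableSet.iUnion fun N => (h_LOC d 0 0 (eb (0 : Vx d) N)).2
    (fun T : Finset (Ed d) => ∃ v : Vx d, Cf T 0 v ∧ ∃ i, (n : ℤ) ≤ |v i|)

theorem inter_sub (d : ℕ) : ⋂ n, X d n ⊆ Inf0 d := by
  intro ω hω
  show (C0 ω).Infinite
  intro hfin
  have hb : ∃ N : ℕ, ∀ v ∈ C0 ω, v ∈ bx (0 : Vx d) N := by
    choose g hg using fun v : Vx d => bound_vx v
    refine ⟨hfin.toFinset.sup g, fun v hv => ?_⟩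
    exact bx_mono (Finset.le_sup (f := g) (hfin.mem_toFinset.2 hv)) (hg v)
  obtain ⟨N, hN⟩ := hb
  obtain ⟨v, hv, i, hi⟩ := Set.mem_iInter.1 hω (N + 1)
  have h1 := mem_bx0.1 (hN v hv) i
  push_cast at hi
  linarith

theorem sln_sub (d L n : ℕ) : SLn d L n ⊆ bx (0 : Vx d) (n + L) := by
  intro v hv
  unfold SLn at hv
  rw [Finset.mem_Icc] at hv
  rw [mem_bx0]
  intro i
  have h1 := hv.1 i
  have h2 := hv.2 i
  dsimp only at h1 h2
  have hn : (0 : ℤ) ≤ n := Int.natCast_nonneg n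
  have hL : (0 : ℤ) ≤ L := Int.natCast_nonneg L
  push_cast
  split_ifs at h1 h2
  · exact abs_le.2 ⟨by linarith, by linarith⟩
  · exact abs_le.2 ⟨by linarith, by linarith⟩

end LOW_

open LOW_ in
/-- Target LOW: slab percolation implies percolation. -/
theorem p_LOW (h_DMC : T_DMC) (h_LOC : FKT.T_LOC) : T_LOW := by
  intro d p q L hd hp hp1 hq hL hPi μ hμ
  obtain ⟨α, hα, hPi⟩ := hPi
  have := hμ.prob
  have hXn : ∀ n : ℕ, α ≤ μ.real (X d n) := by
    intro n
    set i1 : Fin d := ⟨1, by omega⟩ with hi1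
    set x : Vx d := Pi.single i1 (n : ℤ) with hx
    have hxS : x ∈ SLn d L n := by
      unfold SLn
      rw [Finset.mem_Icc]
      have hn : (0 : ℤ) ≤ n := Int.natCast_nonneg n
      have hL' : (1 : ℤ) ≤ L := by exact_mod_cast hL
      refine ⟨fun l => ?_, fun l => ?_⟩
      · dsimp only
        by_cases hl : l = i1
        · subst hl
          rw [hx, Pi.single_eq_same, if_neg (by simp [hi1])]
          linarith
        · rw [hx, Pi.single_eq_of_ne hl]
          split_ifs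
          · exact le_refl _
          · linarith
      · dsimp only
        by_cases hl : l = i1
        · subst hl
          rw [hx, Pi.single_eq_same, if_neg (by simp [hi1])]
        · rw [hx, Pi.single_eq_of_ne hl]
          split_ifs
          · linarith
          · exact hn
    have htp := hPi n x hxS
    have hlim := ((h_LOC d p q (es (SLn d L n))).1 μ hμ (fun ω => ind (Cf ω 0 x))).1
    have hle : ∀ᶠ N : ℕ in atTop, α ≤ phi (0 : Vx d) N p q fun ω =>
        (fun ω => ind (Cf ω 0 x)) (ω ∩ es (SLn d L n)) := by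
      filter_upwards [eventually_ge_atTop (n + L)] with N hN
      refine htp.le.trans ?_
      have hS : SLn d L n ⊆ bx (0 : Vx d) N := (sln_sub d L n).trans (bx_mono hN)
      have hG : es (SLn d L n) ⊆ eb (0 : Vx d) N := by
        rw [← es_bx]
        exact es_mono hS
      exact h_DMC (Vx d) (Ed d) Prod.fst tgt (Wir (0 : Vx d) N) (bx (0 : Vx d) N) (SLn d L n)
        (eb (0 : Vx d) N) (es (SLn d L n)) p q hp hp1 hq hG hS (fun e he => mem_es.1 he)
        (fun ω => ind (Cf ω 0 x)) (fun a b hab _ => ind_mono fun h =>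
          Con_mono (fun _ _ h => h) (Finset.coe_subset.2 hab) h)
    have hint := ge_of_tendsto hlim hle
    refine hint.trans ?_
    have hms := (h_LOC d p q (es (SLn d L n))).2 (fun T => Cf T 0 x)
    have he : ∀ ω : Ed d → Bool, ind (Cf (rs (es (SLn d L n)) (cfg ω)) 0 x) =
        Set.indicator {ω : Ed d → Bool | (fun T : Finset (Ed d) => Cf T 0 x)
          (rs (es (SLn d L n)) (cfg ω))} (fun _ => (1 : ℝ)) ω := by
      intro ω
      by_cases h : Cf (rs (es (SLn d L n)) (cfg ω)) 0 x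
      · rw [ind_true h, Set.indicator_of_mem (show ω ∈ {ω : Ed d → Bool |
          (fun T : Finset (Ed d) => Cf T 0 x) (rs (es (SLn d L n)) (cfg ω))} from h)]
      · rw [ind_false h, Set.indicator_of_notMem (show ω ∉ {ω : Ed d → Bool |
          (fun T : Finset (Ed d) => Cf T 0 x) (rs (es (SLn d L n)) (cfg ω))} from h)]
    calc ∫ ω, ind (Cf (rs (es (SLn d L n)) (cfg ω)) 0 x) ∂μ
        = ∫ ω, Set.indicator {ω : Ed d → Bool | (fun T : Finset (Ed d) => Cf T 0 x)
          (rs (es (SLn d L n)) (cfg ω))} (fun _ => (1 : ℝ)) ω ∂μ := by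
          simp only [he]
      _ = μ.real {ω : Ed d → Bool | (fun T : Finset (Ed d) => Cf T 0 x)
          (rs (es (SLn d L n)) (cfg ω))} := by
          rw [integral_indicator_const _ hms, smul_eq_mul, mul_one]
      _ ≤ μ.real (X d n) := by
          refine measureReal_mono ?_ (measure_ne_top _ _)
          intro ω hω
          refine ⟨x, cn_of_rs hω, i1, ?_⟩
          rw [hx, Pi.single_eq_same]
          exact le_abs_self _
  have hlim : Tendsto (fun n => μ (X d n)) atTop (nhds (μ (⋂ n, X d n))) :=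
    tendsto_measure_iInter_atTop (fun n => (X_meas h_LOC d n).nullMeasurableSet) (X_anti d)
      ⟨0, measure_ne_top _ _⟩
  have hge : ENNReal.ofReal α ≤ μ (⋂ n, X d n) := by
    refine ge_of_tendsto' hlim fun n => ?_
    rw [← ofReal_measureReal (measure_ne_top _ _)]
    exact ENNReal.ofReal_le_ofReal (hXn n)
  have hpos : 0 < μ (Inf0 d) :=
    lt_of_lt_of_le (ENNReal.ofReal_pos.2 hα) (hge.trans (measure_mono (inter_sub d)))
  exact hpos.ne'

end Pool.Agent.FKP
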