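import Pool.Agent.FKP.PartC2
import Pool.Agent.FKP.Lem

/-! Project FKP, target LWE: the contour is longer than the diameter. -/

set_option autoImplicit false

namespace Pool.Agent.FKP

open Filter MeasureTheory Pool.Agent.FKT

namespace LWE_

theorem con_inv {V E : Type} {s t : E → V} {R : V → V → Prop} {O : Set E} (P : V → Prop)
    (h : ∀ a b, Step s t R O a b → (P a ↔ P b)) {a b : V} (hab : FKT.Con s t R O a b) :
    P a ↔ P b := by
  unfold FKT.Con at hab
  induction hab with
  | rel x y hxy => exact h x y hxy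
  | refl x => exact Iff.rfl
  | symm x y _ ih => exact ih.symm
  | trans x y z _ _ ih1 ih2 => exact ih1.trans ih2

theorem tgt_apply {d : ℕ} (e : Ed d) (i : Fin d) :
    tgt e i = e.1 i ∨ tgt e i = e.1 i + 1 := by
  unfold tgt
  by_cases h : i = e.2
  · right
    subst h
    simp
  · left
    simp [Pi.single_eq_of_ne h]

/-- Intermediate values of a coordinate. -/
theorem inter {d : ℕ} (A : Finset (Vx d)) (hA : CnS A) (z z' : Vx d) (hz : z ∈ A) (hz' : z' ∈ A)
    (i : Fin d) (h : ℤ) (h1 : z i ≤ h) (h2 : h ≤ z' i) : ∃ a ∈ A, a i = h := by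
  by_contra hcon
  push Not at hcon
  have hc : Cf (es A) z z' := hA z hz z' hz'
  unfold Cf Cn at hc
  have key := con_inv (fun x => x ∈ A ∧ x i < h) ?_ hc
  · have hzl : z i < h := lt_of_le_of_ne h1 (hcon z hz)
    have := (key.1 ⟨hz, hzl⟩).2
    exact absurd this (not_lt.2 h2)
  · intro a b hab
    rcases hab with hno | ⟨e, he, rfl, rfl⟩
    · exact hno.elim
    · have he' := mem_es.1 (Finset.mem_coe.1 he)
      have ha := hcon e.1 he'.1
      have hb := hcon (tgt e) he'.2
      constructor
      · rintro ⟨_, hlt⟩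
        refine ⟨he'.2, ?_⟩
        rcases tgt_apply e i with h3 | h3 <;> omega
      · rintro ⟨_, hlt⟩
        refine ⟨he'.1, ?_⟩
        rcases tgt_apply e i with h3 | h3 <;> omega

theorem half {d : ℕ} (hd : 2 ≤ d) (A : Finset (Vx d)) (P : Finset (Ed d)) (hA : CnS A)
    (hE : Exi A P) (z z' : Vx d) (hz : z ∈ A) (hz' : z' ∈ A) (i : Fin d) (hle : z i ≤ z' i) :
    z' i - z i < (P.card : ℤ) := by
  classical
  obtain ⟨j, hj⟩ : ∃ j : Fin d, j ≠ i := by
    haveI : Nontrivial (Fin d) := Fin.nontrivial_iff_two_le.2 hd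
    exact exists_ne i
  have hsub : Finset.Icc (z i) (z' i) ⊆ P.image (fun e : Ed d => e.1 i) := by
    intro h hh
    rw [Finset.mem_Icc] at hh
    obtain ⟨a, haA, hai⟩ := inter A hA z z' hz hz' i h hh.1 hh.2
    obtain ⟨t, ht⟩ := hE a haA j
    rw [Finset.mem_image]
    refine ⟨_, ht, ?_⟩
    show a i + (Pi.single j (t : ℤ) : Vx d) i = h
    rw [Pi.single_eq_of_ne hj.symm, add_zero, hai]
  have hcard := (Finset.card_le_card hsub).trans Finset.card_image_le
  rw [Int.card_Icc] at hcard
  omega

end LWE_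

open LWE_ in
/-- Target LWE: the contour is longer than the diameter. -/
theorem p_LWE : T_LWE := by
  intro d hd A P hA hE z hz z' hz' i
  rcases le_total (z i) (z' i) with h | h
  · have := half hd A P hA hE z z' hz hz' i h
    rw [abs_sub_comm, abs_of_nonneg (by omega)]
    exact this
  · have := half hd A P hA hE z' z hz' hz i h
    rw [abs_of_nonneg (by omega)]
    exact this

end Pool.Agent.FKP
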