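import Pool.Agent.FKP.PartC2
import Pool.Agent.FKP.Lem

/-!
# Project FKP, LWI: the isoperimetric inequality
-/

set_option autoImplicit false

namespace Pool.Agent.FKP

open Filter MeasureTheory Pool.Agent.FKT

namespace LWI_

open scoped ENNReal

variable {d : ℕ}

/-- The counting measure as a product measure. -/
noncomputable def mu (d : ℕ) : Measure (Fin d → ℤ) :=
  Measure.pi (fun _ : Fin d => (Measure.count : Measure ℤ))

theorem mu_singleton (x : Fin d → ℤ) : mu d {x} = 1 := by
  unfold mu
  rw [Measure.pi_singleton]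
  simp

/-- The number of edges of `P` based at `x`. -/
noncomputable def f (P : Finset (Ed d)) (x : Fin d → ℤ) : ℝ≥0∞ :=
  ∑ e ∈ P, Set.indicator {e.1} (fun _ => (1 : ℝ≥0∞)) x

theorem f_meas (P : Finset (Ed d)) : Measurable (f P) := by
  unfold f
  refine Finset.measurable_sum P fun e _ => ?_
  exact measurable_const.indicator (measurableSet_singleton _)

theorem f_int (P : Finset (Ed d)) : ∫⁻ x, f P x ∂(mu d) = P.card := by
  unfold f
  rw [lintegral_finsetSum]
  · have : ∀ e ∈ P, ∫⁻ x, Set.indicator {e.1} (fun _ => (1 : ℝ≥0∞)) x ∂(mu d) = 1 := by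
      intro e _
      rw [lintegral_indicator (measurableSet_singleton _)]
      simp [mu_singleton]
    rw [Finset.sum_congr rfl this]
    simp
  · intro e _
    exact measurable_const.indicator (measurableSet_singleton _)

theorem f_ge {P : Finset (Ed d)} {e : Ed d} (he : e ∈ P) : 1 ≤ f P e.1 := by
  unfold f
  calc (1 : ℝ≥0∞) = Set.indicator {e.1} (fun _ => (1 : ℝ≥0∞)) e.1 := by simp
    _ ≤ _ := Finset.single_le_sum (f := fun e' : Ed d =>
      Set.indicator {e'.1} (fun _ => (1 : ℝ≥0∞)) e.1) (fun _ _ => zero_le) he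

theorem line_ge {A : Finset (Vx d)} {P : Finset (Ed d)} (h : Exi A P) {x : Vx d} (hx : x ∈ A)
    (i : Fin d) : 1 ≤ ∫⁻ t, f P (Function.update x i t) ∂(Measure.count : Measure ℤ) := by
  obtain ⟨t, ht⟩ := h x hx i
  have h1 : Function.update x i (x i + (t : ℤ)) = x + Pi.single i (t : ℤ) := by
    funext j
    by_cases hj : j = i
    · subst hj
      simp
    · simp [Function.update_of_ne hj, Pi.single_eq_of_ne hj]
  have h2 : 1 ≤ f P (Function.update x i (x i + (t : ℤ))) := by
    rw [h1]
    exact f_ge ht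
  rw [lintegral_count]
  exact h2.trans (ENNReal.le_tsum (f := fun t => f P (Function.update x i t)) _)

theorem main (hd : 2 ≤ d) {A : Finset (Vx d)} {P : Finset (Ed d)} (h : Exi A P) :
    (A.card : ℝ≥0∞) ≤ (P.card : ℝ≥0∞) ^ (Real.conjExponent (d : ℝ)) := by
  have hd1 : (1 : ℝ) < (d : ℝ) := by exact_mod_cast hd
  have hc : Real.HolderConjugate ((Fintype.card (Fin d) : ℕ) : ℝ)
      (Real.conjExponent (d : ℝ)) := by
    rw [Fintype.card_fin]
    exact Real.HolderConjugate.conjExponent hd1
  have key := lintegral_prod_lintegral_pow_le (fun _ : Fin d => (Measure.count : Measure ℤ)) hc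
    (f_meas P)
  have e1 : ∫⁻ x, f P x ∂(Measure.pi fun _ : Fin d => (Measure.count : Measure ℤ)) = P.card :=
    f_int P
  rw [e1] at key
  refine le_trans ?_ key
  have h1 : ∀ x : Vx d, Set.indicator (A : Set (Vx d)) (fun _ => (1 : ℝ≥0∞)) x ≤
      ∏ i, (∫⁻ t, f P (Function.update x i t) ∂(Measure.count : Measure ℤ)) ^
        ((1 : ℝ) / ((Fintype.card (Fin d) : ℝ) - 1)) := by
    intro x
    by_cases hx : x ∈ A
    · rw [Set.indicator_of_mem (by exact_mod_cast hx)]
      refine Finset.one_le_prod' fun i _ => ?_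
      refine ENNReal.one_le_rpow (line_ge h hx i) ?_
      rw [Fintype.card_fin]
      have : (0 : ℝ) < (d : ℝ) - 1 := by linarith
      positivity
    · rw [Set.indicator_of_notMem (by exact_mod_cast hx)]
      exact zero_le
  have h2 : (A.card : ℝ≥0∞) = ∫⁻ x, Set.indicator (A : Set (Vx d)) (fun _ => (1 : ℝ≥0∞)) x
      ∂(Measure.pi fun _ : Fin d => (Measure.count : Measure ℤ)) := by
    rw [lintegral_indicator (Finset.measurableSet A)]
    have h3 : (Measure.pi fun _ : Fin d => (Measure.count : Measure ℤ)) (A : Set (Vx d)) =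
        A.card := by
      show mu d (A : Set (Vx d)) = A.card
      rw [← sum_measure_singleton]
      simp [mu_singleton]
    simp [h3]
  rw [h2]
  exact lintegral_mono h1

end LWI_

open LWI_ in
theorem p_LWI : T_LWI := by
  intro d hd A P h
  have h1 := main hd h
  have h2 : (A.card : ENNReal) ^ (d - 1) ≤ ((P.card : ENNReal) ^ (Real.conjExponent (d : ℝ))) ^
      (d - 1) := pow_le_pow_left' h1 _
  have hd1 : (1 : ℝ) < (d : ℝ) := by exact_mod_cast hd
  have h3 : ((P.card : ENNReal) ^ (Real.conjExponent (d : ℝ))) ^ (d - 1) =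
      (P.card : ENNReal) ^ d := by
    rw [← ENNReal.rpow_natCast, ← ENNReal.rpow_mul, ← ENNReal.rpow_natCast]
    congr 1
    unfold Real.conjExponent
    rw [Nat.cast_sub (by omega)]
    have : (d : ℝ) - 1 ≠ 0 := by linarith
    field_simp
    push_cast
    field_simp
  rw [h3] at h2
  exact_mod_cast h2

end Pool.Agent.FKP
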