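import Pool.Agent.FKP.PartC2
import Pool.Agent.FKP.Lem

set_option autoImplicit false

/-!
# FKP: target MEA, the event that the cluster of the origin is infinite is measurable
-/

namespace Pool.Agent.FKP

open Filter MeasureTheory Pool.Agent.FKT

namespace MEA_

variable {d : ℕ}

theorem cn_mono {O O' : Set (Ed d)} (h : O ⊆ O') {a b : Vx d} (hab : Cn O a b) : Cn O' a b := by
  unfold Cn FKT.Con at hab ⊢
  induction hab with
  | rel x y hxy =>
    rcases hxy with hR | ⟨e, he, h1, h2⟩
    · exact Relation.EqvGen.rel _ _ (Or.inl hR)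
    · exact Relation.EqvGen.rel _ _ (Or.inr ⟨e, h he, h1, h2⟩)
  | refl x => exact Relation.EqvGen.refl _
  | symm x y _ ih => exact Relation.EqvGen.symm _ _ ih
  | trans x y z _ _ ih1 ih2 => exact Relation.EqvGen.trans _ y _ ih1 ih2

theorem cn_finite {O : Set (Ed d)} {a b : Vx d} (hab : Cn O a b) :
    ∃ F : Finset (Ed d), (F : Set (Ed d)) ⊆ O ∧ Cn (F : Set (Ed d)) a b := by
  classical
  unfold Cn FKT.Con at hab
  induction hab with
  | rel x y hxy =>
    rcases hxy with hR | ⟨e, he, h1, h2⟩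
    · exact absurd hR (by simp [no])
    · exact ⟨{e}, by simpa using he,
        Relation.EqvGen.rel _ _ (Or.inr ⟨e, by simp, h1, h2⟩)⟩
  | refl x => exact ⟨∅, by simp, Relation.EqvGen.refl _⟩
  | symm x y _ ih =>
    obtain ⟨F, hF, h⟩ := ih
    exact ⟨F, hF, Relation.EqvGen.symm _ _ h⟩
  | trans x y z _ _ ih1 ih2 =>
    obtain ⟨F, hF, h⟩ := ih1
    obtain ⟨F', hF', h'⟩ := ih2
    refine ⟨F ∪ F', ?_, Relation.EqvGen.trans _ y _ (cn_mono ?_ h) (cn_mono ?_ h')⟩
    · rw [Finset.coe_union]
      exact Set.union_subset hF hF'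
    · rw [Finset.coe_union]
      exact Set.subset_union_left
    · rw [Finset.coe_union]
      exact Set.subset_union_right

theorem meas_cn (v : Vx d) : MeasurableSet {ω : Ed d → Bool | v ∈ C0 ω} := by
  have h : {ω : Ed d → Bool | v ∈ C0 ω} =
      ⋃ F : Finset (Ed d), ⋃ _ : Cn (F : Set (Ed d)) 0 v, ⋂ e ∈ F, {ω | ω e = true} := by
    ext ω
    simp only [Set.mem_iUnion, Set.mem_iInter]
    constructor
    · intro hω
      obtain ⟨F, hF, hc⟩ := cn_finite (show Cn (cfg ω) 0 v from hω)
      exact ⟨F, hc, fun e he => hF he⟩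
    · rintro ⟨F, hc, hF⟩
      exact cn_mono (fun e he => hF e he) hc
  rw [h]
  refine MeasurableSet.iUnion fun F => MeasurableSet.iUnion fun _ =>
    Finset.measurableSet_biInter F fun e _ => ?_
  have h2 : Measurable fun ω : Ed d → Bool => ω e := measurable_pi_apply e
  exact h2 (measurableSet_singleton true)

end MEA_

open MEA_

/-- Target MEA. -/
theorem p_MEA : T_MEA := by
  intro d
  have h : Inf0 d = ⋂ F : Finset (Vx d), ⋃ v : Vx d, ⋃ _ : v ∉ F,
      {ω : Ed d → Bool | v ∈ C0 ω} := by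
    ext ω
    simp only [Set.mem_iUnion, Set.mem_iInter]
    constructor
    · intro hω F
      obtain ⟨v, hv, hvF⟩ := Set.Infinite.exists_notMem_finset (show (C0 ω).Infinite from hω) F
      exact ⟨v, hvF, hv⟩
    · intro hω
      show (C0 ω).Infinite
      intro hfin
      obtain ⟨v, hvF, hv⟩ := hω hfin.toFinset
      exact hvF (hfin.mem_toFinset.2 hv)
  rw [h]
  exact MeasurableSet.iInter fun F => MeasurableSet.iUnion fun v => MeasurableSet.iUnion fun _ =>
    meas_cn v

end Pool.Agent.FKP
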