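import Pool.Agent.FKP.PartA
import Pool.Agent.FKP.Lem

/-!
# Project FKP: mixing for some parameter of every interval (T_MIX)
-/

set_option autoImplicit false

namespace Pool.Agent.FKP

open Filter MeasureTheory Pool.Agent.FKT

namespace MIX_

theorem lg_pos (l : ℝ) : 0 < lg l := by
  unfold lg
  have := Real.exp_pos l
  positivity

theorem lg_lt_one (l : ℝ) : lg l < 1 := by
  unfold lg
  have := Real.exp_pos l
  rw [div_lt_one (by linarith)]
  linarith

theorem le_lg {p l : ℝ} (h0 : 0 < p) (h1 : p < 1) (hl : Real.log (p / (1 - p)) ≤ l) :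
    p ≤ lg l := by
  have hp : 0 < 1 - p := by linarith
  have h2 : p / (1 - p) ≤ Real.exp l := by
    rw [← Real.exp_log (div_pos h0 hp)]
    exact Real.exp_le_exp.mpr hl
  unfold lg
  rw [le_div_iff₀ (by have := Real.exp_pos l; linarith)]
  rw [div_le_iff₀ hp] at h2
  nlinarith

theorem lg_le {p l : ℝ} (h0 : 0 < p) (h1 : p < 1) (hl : l ≤ Real.log (p / (1 - p))) :
    lg l ≤ p := by
  have hp : 0 < 1 - p := by linarith
  have h2 : Real.exp l ≤ p / (1 - p) := by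
    rw [← Real.exp_log (div_pos h0 hp)]
    exact Real.exp_le_exp.mpr hl
  unfold lg
  rw [div_le_iff₀ (by have := Real.exp_pos l; linarith)]
  rw [le_div_iff₀ hp] at h2
  nlinarith

theorem log_lt {p p' : ℝ} (h0 : 0 < p) (h1 : p < p') (h2 : p' < 1) :
    Real.log (p / (1 - p)) < Real.log (p' / (1 - p')) := by
  apply Real.log_lt_log (div_pos h0 (by linarith))
  rw [div_lt_div_iff₀ (by linarith) (by linarith)]
  nlinarith

theorem es_bx {d : ℕ} (x : Vx d) (n : ℕ) : es (bx x n) = eb x n := rfl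

theorem eb_sub {d : ℕ} {m n : ℕ} (h : m ≤ n) {y : Vx d} (hy : y ∈ bx (0 : Vx d) (n - m)) :
    eb y m ⊆ eb (0 : Vx d) n := by
  have hb : ∀ z : Vx d, z ∈ bx y m → z ∈ bx (0 : Vx d) n := by
    intro z hz
    simp only [bx, Finset.mem_Icc, Pi.le_def, Pi.zero_apply] at hy hz ⊢
    obtain ⟨a1, a2⟩ := hy
    obtain ⟨b1, b2⟩ := hz
    push_cast [h] at a1 a2
    refine ⟨fun i => ?_, fun i => ?_⟩
    · have := a1 i; have := b1 i; linarith
    · have := a2 i; have := b2 i; linarith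
  intro e he
  simp only [eb, Finset.mem_filter, Finset.mem_product, Finset.mem_univ, and_true] at he ⊢
  exact ⟨hb _ he.1, hb _ he.2⟩

theorem dif_nonneg (hH : T_HOL) {d n : ℕ} {p q : ℝ} (hp : 0 < p) (hp1 : p < 1) (hq : 1 ≤ q)
    (e : Ed d) :
    0 ≤ phi (0 : Vx d) n p q (fun ω => ind (e ∈ ω)) -
      fr (bx (0 : Vx d) n) p q fun ω => ind (e ∈ ω) := by
  have h1 := hH (Vx d) (Ed d) Prod.fst tgt (no (Vx d)) (Wir (0 : Vx d) n) (bx 0 n) (eb 0 n) p p q
    hp le_rfl hp1 hq (fun a b h => h.elim) (fun e he => by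
      simp only [eb, Finset.mem_filter, Finset.mem_product, Finset.mem_univ, and_true] at he
      exact he) (fun ω => ind (e ∈ ω)) (fun a b hab _ => ind_mono fun h => hab h)
  have h2 : fr (bx (0 : Vx d) n) p q (fun ω => ind (e ∈ ω)) =
      Ex Prod.fst tgt (no (Vx d)) (bx (0 : Vx d) n) (eb 0 n) p q (fun ω => ind (e ∈ ω)) := rfl
  have h3 : phi (0 : Vx d) n p q (fun ω => ind (e ∈ ω)) =
      Ex Prod.fst tgt (Wir (0 : Vx d) n) (bx (0 : Vx d) n) (eb 0 n) p q
        (fun ω => ind (e ∈ ω)) := rfl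
  rw [h2, h3]
  linarith

end MIX_

open MIX_ in
theorem p_MIX (h_MVT : T_MVT) (h_AVY : T_AVY) (h_INB : T_INB) (h_HOL : T_HOL)
    (h_CNT : FKT.T_CNT) : T_MIX := by
  intro d hd pa pb q hpa hab hpb hq m ε hε
  set la := Real.log (pa / (1 - pa)) with hla
  set lb := Real.log (pb / (1 - pb)) with hlb
  have hl : la < lb := log_lt hpa hab hpb
  have hlq : 0 ≤ Real.log q := Real.log_nonneg hq
  set K : ℝ := (2 * m + 1 : ℝ) ^ d * 2 ^ d * (2 * d * (Real.log q / (lb - la))) with hK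
  refine ⟨max (4 * m) (Nat.ceil (K / ε)), fun N hN => ?_⟩
  have hN1 : 4 * m ≤ N := le_trans (le_max_left _ _) hN
  have hN2 : K / ε ≤ N := le_trans (Nat.le_ceil _)
    (by exact_mod_cast le_trans (le_max_right _ _) hN)
  set n := N / 2 with hn
  have hn1 : 2 * n ≤ N := by omega
  have hn2 : N ≤ 2 * n + 1 := by omega
  have hn3 : 2 * m ≤ n := by omega
  have hmn : m ≤ n := by omega
  obtain ⟨l, hl1, hl2, hs⟩ := h_MVT d n q la lb hq hl
  have hp0 := lg_pos l
  have hp1 := lg_lt_one l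
  refine ⟨lg l, le_lg hpa (by linarith) hl1, lg_le (by linarith) hpb hl2, ?_⟩
  set D : Ed d → ℝ := fun e => phi (0 : Vx d) n (lg l) q (fun ω => ind (e ∈ ω)) -
    fr (bx (0 : Vx d) n) (lg l) q fun ω => ind (e ∈ ω) with hD
  have hD0 : ∀ e, 0 ≤ D e := fun e => dif_nonneg h_HOL hp0 hp1 hq e
  obtain ⟨y, hy, hy2⟩ := h_AVY d m n D _ hmn hD0 hs
  refine (h_INB d hd (lg l) q hp0 hp1 hq m n N y hmn hy hn1).trans (hy2.trans ?_)
  have hbd : ((bd (0 : Vx d) n).card : ℝ) ≤ 2 * d * (2 * n + 1) ^ (d - 1) := by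
    exact_mod_cast (h_CNT d hd n).2.1
  have hnm : ((n - m : ℕ) : ℝ) = n - m := by push_cast [hmn]; ring
  have hn0 : (0 : ℝ) < 2 * n + 1 := by positivity
  have hm0 : (0 : ℝ) ≤ (m : ℝ) := Nat.cast_nonneg m
  have hn3' : (2 * m : ℝ) ≤ n := by exact_mod_cast hn3
  have hden : ((2 * n + 1 : ℝ) / 2) ^ d ≤ (2 * ((n - m : ℕ) : ℝ) + 1) ^ d := by
    apply pow_le_pow_left₀ (by positivity)
    rw [hnm]; linarith
  have hden0 : (0 : ℝ) < ((2 * n + 1 : ℝ) / 2) ^ d := by positivity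
  have hll : 0 ≤ Real.log q / (lb - la) := div_nonneg hlq (by linarith)
  have hnum : (2 * m + 1 : ℝ) ^ d * (((bd (0 : Vx d) n).card : ℝ) * Real.log q / (lb - la)) ≤
      (2 * m + 1 : ℝ) ^ d * (2 * d * (2 * n + 1) ^ (d - 1) * (Real.log q / (lb - la))) := by
    apply mul_le_mul_of_nonneg_left _ (by positivity)
    rw [mul_div_assoc]
    exact mul_le_mul_of_nonneg_right hbd hll
  have hT0 : 0 ≤ (2 * m + 1 : ℝ) ^ d * (2 * d * (2 * n + 1) ^ (d - 1) *
      (Real.log q / (lb - la))) := by positivity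
  have hpow : (2 * n + 1 : ℝ) ^ d = (2 * n + 1) ^ (d - 1) * (2 * n + 1) := by
    rw [← pow_succ]; congr 1; omega
  calc (2 * m + 1 : ℝ) ^ d * (((bd (0 : Vx d) n).card : ℝ) * Real.log q / (lb - la)) /
        (2 * ((n - m : ℕ) : ℝ) + 1) ^ d
      ≤ (2 * m + 1 : ℝ) ^ d * (2 * d * (2 * n + 1) ^ (d - 1) * (Real.log q / (lb - la))) /
        (2 * ((n - m : ℕ) : ℝ) + 1) ^ d :=
        div_le_div_of_nonneg_right hnum (by positivity)
    _ ≤ (2 * m + 1 : ℝ) ^ d * (2 * d * (2 * n + 1) ^ (d - 1) * (Real.log q / (lb - la))) /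
        ((2 * n + 1 : ℝ) / 2) ^ d := div_le_div_of_nonneg_left hT0 hden0 hden
    _ = K / (2 * n + 1) := by
        rw [div_pow, hpow, hK]
        field_simp
    _ ≤ ε := by
        rw [div_le_iff₀ hn0]
        rw [div_le_iff₀ hε] at hN2
        have : (N : ℝ) ≤ 2 * n + 1 := by exact_mod_cast hn2
        nlinarith

end Pool.Agent.FKP
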