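import Pool.Agent.FKP.PartE
import Pool.Agent.FKP.Lem

/-!
# Project FKP: thicker slabs (T_MOL)
-/

set_option autoImplicit false

namespace Pool.Agent.FKP

open Filter MeasureTheory Pool.Agent.FKT

namespace MOL_

variable {d : ℕ}

theorem mem_slb {i : Fin d} {L : ℕ} {c : ℤ} {n : ℕ} {v : Vx d} :
    v ∈ slb i L c n ↔ (c ≤ v i ∧ v i ≤ c + L) ∧ ∀ l, l ≠ i → -(n : ℤ) ≤ v l ∧ v l ≤ n := by
  unfold slb
  rw [Finset.mem_Icc, Pi.le_def, Pi.le_def]
  constructor
  · rintro ⟨h1, h2⟩
    have h3 := h1 i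
    have h4 := h2 i
    simp only [if_true] at h3 h4
    refine ⟨⟨h3, h4⟩, fun l hl => ?_⟩
    have h5 := h1 l
    have h6 := h2 l
    simp only [hl, if_false] at h5 h6
    exact ⟨h5, h6⟩
  · rintro ⟨h1, h2⟩
    constructor
    · intro l
      by_cases hl : l = i
      · subst hl
        simp only [if_true]
        exact h1.1
      · simp only [hl, if_false]
        exact (h2 l hl).1
    · intro l
      by_cases hl : l = i
      · subst hl
        simp only [if_true]
        exact h1.2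
      · simp only [hl, if_false]
        exact (h2 l hl).2

theorem upd_mem {i : Fin d} {L L' : ℕ} {c c1 t : ℤ} {n : ℕ} {v : Vx d} (hv : v ∈ slb i L c n)
    (h1 : c1 ≤ t) (h2 : t ≤ c1 + L') : Function.update v i t ∈ slb i L' c1 n := by
  rw [mem_slb] at hv ⊢
  rw [Function.update_self]
  refine ⟨⟨h1, h2⟩, fun l hl => ?_⟩
  rw [Function.update_of_ne hl]
  exact hv.2 l hl

theorem tgt_upd (w : Vx d) (i : Fin d) (t : ℤ) :
    tgt (Function.update w i t, i) = Function.update w i (t + 1) := by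
  funext l
  by_cases hl : l = i
  · subst hl
    simp [tgt]
  · simp [tgt, hl]

/-- A segment of open edges. -/
theorem seg (ω : Finset (Ed d)) (w : Vx d) (i : Fin d) (a : ℤ) :
    ∀ k : ℕ, (∀ t : ℤ, a ≤ t → t < a + k → (Function.update w i t, i) ∈ ω) →
      Cf ω (Function.update w i a) (Function.update w i (a + k)) := by
  intro k
  induction k with
  | zero =>
    intro _
    rw [Nat.cast_zero, add_zero]
    exact Con_refl _ _
  | succ k ih =>
    intro h
    have h1 := ih fun t h1 h2 => h t h1 (by push_cast; omega)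
    have h2 := h (a + k) (by omega) (by push_cast; omega)
    have h3 : Cf ω (Function.update w i (a + k)) (tgt (Function.update w i (a + k), i)) :=
      Con_edge (s := Prod.fst) (t := tgt) (O := (ω : Set (Ed d)))
        (e := (Function.update w i (a + k), i)) h2
    rw [tgt_upd] at h3
    have h4 : a + (k : ℤ) + 1 = a + ((k + 1 : ℕ) : ℤ) := by
      push_cast
      ring
    rw [h4] at h3
    exact Con_trans h1 h3

/-- The edges of the segment from `(c, ·)` to `w`. -/
noncomputable def sg (w : Vx d) (i : Fin d) (c : ℤ) : Finset (Ed d) :=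
  (Finset.Ico (min c (w i)) (max c (w i))).image fun t => (Function.update w i t, i)

theorem sg_card (w : Vx d) (i : Fin d) (c : ℤ) (K : ℕ) (h : max c (w i) ≤ min c (w i) + K) :
    (sg w i c).card ≤ K := by
  unfold sg
  refine Finset.card_image_le.trans ?_
  rw [Int.card_Ico]
  omega

theorem sg_con (ω : Finset (Ed d)) (w : Vx d) (i : Fin d) (c : ℤ) (h : sg w i c ⊆ ω) :
    Cf ω (Function.update w i c) w := by
  have h1 : ∀ t : ℤ, min c (w i) ≤ t → t < max c (w i) → (Function.update w i t, i) ∈ ω := by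
    intro t h2 h3
    apply h
    unfold sg
    exact Finset.mem_image.2 ⟨t, Finset.mem_Ico.2 ⟨h2, h3⟩, rfl⟩
  have hw : Function.update w i (w i) = w := Function.update_eq_self i w
  rcases le_total c (w i) with hc | hc
  · rw [min_eq_left hc, max_eq_right hc] at h1
    have h2 := seg ω w i c (w i - c).toNat fun t h3 h4 => h1 t h3 (by omega)
    have h3 : c + ((w i - c).toNat : ℤ) = w i := by omega
    rw [h3, hw] at h2
    exact h2
  · rw [min_eq_right hc, max_eq_left hc] at h1
    have h2 := seg ω w i (w i) (c - w i).toNat fun t h3 h4 => h1 t h3 (by omega)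
    have h3 : w i + ((c - w i).toNat : ℤ) = c := by omega
    rw [h3, hw] at h2
    exact Con_symm h2

theorem ind_mul_le {A B C : Prop} (h : A → B → C) : ind A * ind B ≤ ind C := by
  rw [← ind_and]
  exact ind_mono fun hab => h hab.1 hab.2

end MOL_

theorem p_MOL (h_DMC : T_DMC) (h_FEN : T_FEN) (h_FKG : FKT.T_FKG) : T_MOL := by
  intro d p q hp hp1 hq L α hS L' hL
  have hq0 : 0 < q := lt_of_lt_of_le one_pos hq
  set π : ℝ := p / (p + q * (1 - p)) with hπ
  have h1p : 0 < 1 - p := by linarith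
  have hden : 0 < p + q * (1 - p) := by positivity
  have hπ0 : 0 < π := div_pos hp hden
  have hπ1 : π ≤ 1 := by
    rw [hπ, div_le_one hden]
    have : 0 ≤ q * (1 - p) := by positivity
    linarith
  refine ⟨α * π ^ L', mul_pos hS.1 (pow_pos hπ0 _), ?_⟩
  intro i c n x hx y hy
  set S' : Finset (Vx d) := slb i L' c n with hS'
  obtain ⟨⟨hx1, hx2⟩, hx3⟩ := MOL_.mem_slb.1 hx
  obtain ⟨⟨hy1, hy2⟩, hy3⟩ := MOL_.mem_slb.1 hy
  have hLL : (L : ℤ) ≤ L' := by exact_mod_cast hL
  obtain ⟨c1, hc1, hc2, hc3, hc4⟩ : ∃ c1 : ℤ, c ≤ c1 ∧ c1 + L ≤ c + L' ∧ c1 ≤ x i ∧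
      x i ≤ c1 + L := ⟨min (x i) (c + L' - L), by omega, by omega, by omega, by omega⟩
  set S : Finset (Vx d) := slb i L c1 n with hSd
  have hSS : S ⊆ S' := by
    intro v hv
    rw [hSd, MOL_.mem_slb] at hv
    rw [hS', MOL_.mem_slb]
    exact ⟨⟨by omega, by omega⟩, hv.2⟩
  have hxS : x ∈ S := MOL_.mem_slb.2 ⟨⟨hc3, hc4⟩, hx3⟩
  set x' : Vx d := Function.update y i c1 with hx'
  have hx'S : x' ∈ S := MOL_.upd_mem hy le_rfl (by omega)
  set F : Finset (Ed d) := MOL_.sg y i c1 with hF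
  have hFc : F.card ≤ L' := MOL_.sg_card y i c1 L' (by omega)
  have hFs : F ⊆ es S' := by
    intro e he
    rw [hF, MOL_.sg, Finset.mem_image] at he
    obtain ⟨t, ht, rfl⟩ := he
    rw [Finset.mem_Ico] at ht
    rw [mem_es, MOL_.tgt_upd]
    exact ⟨MOL_.upd_mem hy (by omega) (by omega), MOL_.upd_mem hy (by omega) (by omega)⟩
  have hends : ∀ e ∈ es S', e.1 ∈ S' ∧ tgt e ∈ S' := fun e he => mem_es.1 he
  -- the two expectations
  have h1 : α ≤ Ex Prod.fst tgt (no (Vx d)) S' (es S') p q fun ω =>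
      ind (Cf (ω ∩ es S) x x') := by
    refine (hS.2 i c1 n x hxS x' hx'S).trans ?_
    exact h_DMC (Vx d) (Ed d) Prod.fst tgt (no (Vx d)) S' S (es S') (es S) p q hp hp1 hq
      (es_mono hSS) hSS (fun e he => mem_es.1 he) (fun ω => ind (Cf ω x x'))
      (fun a b hab _ => ind_mono fun h => Con_mono (fun _ _ h => h) (Finset.coe_subset.2 hab) h)
  have h2 : π ^ L' ≤ Ex Prod.fst tgt (no (Vx d)) S' (es S') p q fun ω => ind (F ⊆ ω) := by
    refine le_trans ?_ (h_FEN (Vx d) (Ed d) Prod.fst tgt (no (Vx d)) S' (es S') p q hp hp1 hq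
      hends F hFs)
    exact pow_le_pow_of_le_one hπ0.le hπ1 hFc
  have h3 := (h_FKG (Vx d) (Ed d) Prod.fst tgt (no (Vx d)) S' (es S') p q hp hp1 hq hends).1
    (fun ω => ind (Cf (ω ∩ es S) x x')) (fun ω => ind (F ⊆ ω))
    (fun a b hab => ind_mono fun h => Con_mono (fun _ _ h => h)
      (Finset.coe_subset.2 (Finset.inter_subset_inter_right hab)) h)
    (fun a b hab => ind_mono fun h => h.trans hab)
  have h4 : Ex Prod.fst tgt (no (Vx d)) S' (es S') p q
      (fun ω => ind (Cf (ω ∩ es S) x x') * ind (F ⊆ ω)) ≤ tp S' p q x y := by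
    refine Ex_mono hp hp1 hq0 fun ω _ => MOL_.ind_mul_le fun ha hb => ?_
    have h5 : Cf ω x x' := Con_mono (fun _ _ h => h)
      (Finset.coe_subset.2 Finset.inter_subset_left) ha
    exact Con_trans h5 (MOL_.sg_con ω y i c1 hb)
  calc α * π ^ L' ≤ _ * _ := mul_le_mul h1 h2 (pow_nonneg hπ0.le _) (hS.1.le.trans h1)
    _ ≤ _ := h3
    _ ≤ _ := h4

end Pool.Agent.FKP
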