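import Pool.Agent.FKP.PartE
import Pool.Agent.FKP.Lem

/-!
# Project FKP: proof of the target T_MPI (monotonicity in `p`)
-/

set_option autoImplicit false

namespace Pool.Agent.FKP

open Filter MeasureTheory Pool.Agent.FKT

namespace MPI_

theorem tp_mono (h_HOL : T_HOL) {d : ℕ} {p p' q : ℝ} (hp : 0 < p) (hpp : p ≤ p')
    (hp1 : p' < 1) (hq : 1 ≤ q) (S : Finset (Vx d)) (x y : Vx d) :
    tp S p q x y ≤ tp S p' q x y := by
  unfold tp fr fw
  apply h_HOL (Vx d) (Ed d) Prod.fst tgt (no (Vx d)) (no (Vx d)) S (es S) p p' q hp hpp hp1 hq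
    (fun _ _ h => h) (fun e he => mem_es.mp he)
  intro a b hab _
  apply ind_mono
  intro h
  exact Con_mono (fun _ _ h => h) (by exact_mod_cast hab) h

end MPI_

theorem p_MPI (h_HOL : T_HOL) : T_MPI := by
  intro d p p' q L hp hpp hp1 hq h
  obtain ⟨α, hα, h1⟩ := h
  exact ⟨α, hα, fun n x hx => lt_of_lt_of_le (h1 n x hx)
    (MPI_.tp_mono h_HOL hp hpp hp1 hq _ _ _)⟩

end Pool.Agent.FKP
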