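import Pool.Agent.FKP.PartA
import Pool.Agent.FKP.Lem
import Pool.Agent.FKP.P_DER

/-!
# Project FKP, MVT: the total influence of the boundary for some parameter
-/

set_option autoImplicit false

namespace Pool.Agent.FKP

open Filter MeasureTheory Pool.Agent.FKT

namespace MVT_

open DER_

section

variable {V E : Type} (s t : E → V) (R : V → V → Prop) (U : Finset V) (G : Finset E) (q : ℝ)

/-- the derivative of the logarithm of the sum of the weights -/
theorem log_deriv (hq : 0 < q) (l : ℝ) :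
    HasDerivAt (fun l => Real.log (A s t R U G q (fun _ => 1) l))
      (∑ e ∈ G, Ex s t R U G (lg l) q fun ω => ind (e ∈ ω)) l := by
  have h2 := A_deriv s t R U G q (fun _ => 1) l
  have h3 := A_pos s t R U G q hq l
  have h4 := h2.log h3.ne'
  refine h4.congr_deriv ?_
  have h6 : A s t R U G q (fun ω => 1 * (ω.card : ℝ)) l =
      A s t R U G q (fun ω => (ω.card : ℝ)) l := by
    simp only [one_mul]
  rw [h6, ← Ex_lg, ← Ex_sum]
  refine Ex_congr fun ω hω => ?_
  classical
  have h7 : ω = G.filter fun e => e ∈ ω := by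
    ext e
    rw [Finset.mem_filter]
    exact ⟨fun h => ⟨hω h, h⟩, fun h => h.2⟩
  have h8 : ∑ e ∈ G, ind (e ∈ ω) = ∑ e ∈ G, if e ∈ ω then (1 : ℝ) else 0 := by
    refine Finset.sum_congr rfl fun e _ => ?_
    by_cases he : e ∈ ω
    · rw [ind_true he, if_pos he]
    · rw [ind_false he, if_neg he]
  rw [h8, ← Finset.sum_filter, ← h7]
  simp

/-- comparison of the sums of the weights -/
theorem A_le (R' : V → V → Prop) (hq : 1 ≤ q) (k : ℕ)
    (h : ∀ ω : Finset E, ncl s t R U (ω : Set E) ≤ ncl s t R' U (ω : Set E) + k) (l : ℝ) :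
    Real.log (A s t R U G q (fun _ => 1) l) ≤
      Real.log (A s t R' U G q (fun _ => 1) l) + k * Real.log q := by
  have hq0 : 0 < q := by linarith
  have h1 := A_pos s t R U G q hq0 l
  have h2 := A_pos s t R' U G q hq0 l
  have h3 : A s t R U G q (fun _ => 1) l ≤ A s t R' U G q (fun _ => 1) l * q ^ k := by
    unfold A
    rw [Finset.sum_mul]
    refine Finset.sum_le_sum fun ω _ => ?_
    have h4 : q ^ ncl s t R U (ω : Set E) ≤ q ^ (ncl s t R' U (ω : Set E) + k) :=
      pow_le_pow_right₀ hq (h ω)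
    rw [pow_add] at h4
    calc Real.exp (l * (ω.card : ℝ)) * (q ^ ncl s t R U (ω : Set E) * 1)
        ≤ Real.exp (l * (ω.card : ℝ)) * ((q ^ ncl s t R' U (ω : Set E) * q ^ k) * 1) := by
          gcongr
      _ = _ := by ring
  calc Real.log (A s t R U G q (fun _ => 1) l)
      ≤ Real.log (A s t R' U G q (fun _ => 1) l * q ^ k) := Real.log_le_log h1 h3
    _ = _ := by
      rw [Real.log_mul h2.ne' (pow_pos hq0 k).ne', Real.log_pow]

end

end MVT_

open MVT_ DER_ in
theorem p_MVT (h_ZRA : T_ZRA) : T_MVT := by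
  intro d n q la lb hq hlab
  have hq0 : 0 < q := by linarith
  set G : Finset (Ed d) := eb (0 : Vx d) n with hG
  set Fw : ℝ → ℝ := fun l => Real.log (A Prod.fst tgt (Wir (0 : Vx d) n) (bx (0 : Vx d) n) G q
    (fun _ => 1) l) with hFw
  set Ff : ℝ → ℝ := fun l => Real.log (A Prod.fst tgt (no (Vx d)) (bx (0 : Vx d) n) G q
    (fun _ => 1) l) with hFf
  have hd : ∀ l : ℝ, HasDerivAt (fun l => Fw l - Ff l)
      (∑ e ∈ G, (phi (0 : Vx d) n (lg l) q (fun ω => ind (e ∈ ω)) -
        fr (bx (0 : Vx d) n) (lg l) q fun ω => ind (e ∈ ω))) l := by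
    intro l
    have h1 := log_deriv Prod.fst tgt (Wir (0 : Vx d) n) (bx (0 : Vx d) n) G q hq0 l
    have h2 := log_deriv Prod.fst tgt (no (Vx d)) (bx (0 : Vx d) n) G q hq0 l
    rw [Finset.sum_sub_distrib]
    exact h1.sub h2
  obtain ⟨c, hc, hcs⟩ := exists_hasDerivAt_eq_slope (fun l => Fw l - Ff l)
    (fun l => ∑ e ∈ G, (phi (0 : Vx d) n (lg l) q (fun ω => ind (e ∈ ω)) -
        fr (bx (0 : Vx d) n) (lg l) q fun ω => ind (e ∈ ω))) hlab
    (fun x _ => (hd x).continuousAt.continuousWithinAt) (fun x _ => hd x)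
  refine ⟨c, hc.1.le, hc.2.le, ?_⟩
  have hcs' : ∑ e ∈ G, (phi (0 : Vx d) n (lg c) q (fun ω => ind (e ∈ ω)) -
        fr (bx (0 : Vx d) n) (lg c) q fun ω => ind (e ∈ ω)) =
      (Fw lb - Ff lb - (Fw la - Ff la)) / (lb - la) := hcs
  rw [hcs']
  have hpos : 0 < lb - la := by linarith
  refine div_le_div_of_nonneg_right ?_ hpos.le
  have e1 : Fw lb ≤ Ff lb := by
    have := A_le Prod.fst tgt (Wir (0 : Vx d) n) (bx (0 : Vx d) n) G q (no (Vx d)) hq 0
      (fun ω => by simpa using (h_ZRA d n ω).1) lb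
    simpa using this
  have e2 : Ff la ≤ Fw la + (bd (0 : Vx d) n).card * Real.log q :=
    A_le Prod.fst tgt (no (Vx d)) (bx (0 : Vx d) n) G q (Wir (0 : Vx d) n) hq _
      (fun ω => (h_ZRA d n ω).2) la
  linarith

end Pool.Agent.FKP
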