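import Pool.Agent.FKP.PartB
import Pool.Agent.FKP.Lem

/-!
# Project FKP: target NEA

A boundary edge near one of two given points.
-/

set_option autoImplicit false

namespace Pool.Agent.FKP

open Pool.Agent.FKT

namespace NEA_

theorem inv {n : ℕ} {D A : Finset (Vx n)} (h : ∀ e ∈ es D, e.1 ∈ A ↔ tgt e ∈ A) {x y : Vx n}
    (hxy : Cf (es D) x y) : x ∈ A ↔ y ∈ A := by
  unfold Cf Cn FKT.Con at hxy
  induction hxy with
  | rel x y hxy =>
    rcases hxy with h1 | ⟨e, he, h1, h2⟩
    · exact absurd h1 (fun h => h)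
    · rw [← h1, ← h2]
      exact h e (by exact_mod_cast he)
  | refl x => exact Iff.rfl
  | symm x y _ ih => exact ih.symm
  | trans x y z _ _ ih1 ih2 => exact ih1.trans ih2

theorem mem_cbx {m : ℕ} {x : Vx 2} : x ∈ cbx m ↔ ∀ i, -(m : ℤ) ≤ x i ∧ x i ≤ m := by
  unfold cbx
  rw [Finset.mem_Icc]
  constructor
  · rintro ⟨h1, h2⟩ i
    exact ⟨h1 i, h2 i⟩
  · intro h
    exact ⟨fun i => (h i).1, fun i => (h i).2⟩

theorem mem_bdy {n : ℕ} {J W : Finset (Vx n)} {e : Ed n} :
    e ∈ bdy J W ↔ (e.1 ∈ J ∧ tgt e ∈ J) ∧ ¬ (e.1 ∈ W ↔ tgt e ∈ W) := by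
  unfold bdy
  rw [Finset.mem_filter, mem_es]

theorem bdy_compl {n : ℕ} (J W : Finset (Vx n)) : bdy J (J \ W) = bdy J W := by
  ext e
  rw [mem_bdy, mem_bdy]
  constructor
  · rintro ⟨⟨h1, h2⟩, h3⟩
    refine ⟨⟨h1, h2⟩, fun h4 => h3 ?_⟩
    simp only [Finset.mem_sdiff, h1, h2, true_and]
    rw [h4]
  · rintro ⟨⟨h1, h2⟩, h3⟩
    refine ⟨⟨h1, h2⟩, fun h4 => h3 ?_⟩
    simp only [Finset.mem_sdiff, h1, h2, true_and] at h4
    exact not_iff_not.1 h4

/-- The first exit from `A` along a segment. -/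
theorem exit {A : Finset (Vx 2)} (z : Vx 2) (hz : z ∈ A) (i : Fin 2) (σ : ℤ) (hσ : σ ≠ 0)
    (N : ℕ) (hN : A.card ≤ N) :
    ∃ t : ℕ, t < N ∧ z + Pi.single i ((t : ℤ) * σ) ∈ A ∧
      z + Pi.single i (((t + 1 : ℕ) : ℤ) * σ) ∉ A := by
  classical
  by_contra hc
  push Not at hc
  have h1 : ∀ t : ℕ, t ≤ N → z + Pi.single i ((t : ℤ) * σ) ∈ A := by
    intro t
    induction t with
    | zero =>
      intro _
      simpa using hz
    | succ t ih =>
      intro ht
      exact hc t (by omega) (ih (by omega))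
  have h2 : (Finset.range (N + 1)).card ≤ A.card := by
    refine Finset.card_le_card_of_injOn (fun t : ℕ => z + Pi.single i ((t : ℤ) * σ)) ?_ ?_
    · intro t ht
      exact h1 t (by
        have := Finset.mem_range.1 (Finset.mem_coe.1 ht)
        omega)
    · intro s _ t _ hst
      have h3 := congrFun hst i
      simp only [Pi.add_apply, Pi.single_eq_same, add_right_inj] at h3
      have h4 := mul_right_cancel₀ hσ h3
      exact_mod_cast h4
  rw [Finset.card_range] at h2
  omega

theorem core (hB : T_BCN) (m : ℕ) (A : Finset (Vx 2)) (hA : A ⊆ cbx m) (z z' : Vx 2)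
    (hz : z ∈ A) (hz' : z' ∈ cbx m) (hzA : z' ∉ A) (N : ℕ) (hN : A.card ≤ N) :
    ∃ e ∈ bdy (cbx m) A, ∀ i, |e.1 i - z i| ≤ (N : ℤ) := by
  classical
  have hzJ := mem_cbx.1 (hA hz)
  have hzJ' := mem_cbx.1 hz'
  by_cases hcase : ∀ i, |z i - z' i| ≤ (N : ℤ)
  · -- a path in the box spanned by the two points
    set D : Finset (Vx 2) := Finset.Icc (fun i => min (z i) (z' i)) (fun i => max (z i) (z' i))
      with hD
    have hmem : ∀ x : Vx 2, x ∈ D ↔ ∀ i, min (z i) (z' i) ≤ x i ∧ x i ≤ max (z i) (z' i) := by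
      intro x
      rw [hD, Finset.mem_Icc]
      constructor
      · rintro ⟨h1, h2⟩ i
        exact ⟨h1 i, h2 i⟩
      · intro h
        exact ⟨fun i => (h i).1, fun i => (h i).2⟩
    have hDJ : D ⊆ cbx m := by
      intro x hx
      rw [mem_cbx]
      intro i
      have h1 := (hmem x).1 hx i
      have h2 := hzJ i
      have h3 := hzJ' i
      omega
    have hcon := hB 2 _ _ z ((hmem z).2 fun i => ⟨min_le_left _ _, le_max_left _ _⟩) z'
      ((hmem z').2 fun i => ⟨min_le_right _ _, le_max_right _ _⟩)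
    have hex : ∃ e ∈ es D, ¬ (e.1 ∈ A ↔ tgt e ∈ A) := by
      by_contra hc
      push Not at hc
      exact hzA ((inv (fun e he => hc e he) hcon).1 hz)
    obtain ⟨e, he, heA⟩ := hex
    have he' := mem_es.1 he
    refine ⟨e, mem_bdy.2 ⟨⟨hDJ he'.1, hDJ he'.2⟩, heA⟩, fun i => ?_⟩
    have h1 := (hmem e.1).1 he'.1 i
    have h2 := hcase i
    rw [abs_le] at h2 ⊢
    omega
  · push Not at hcase
    obtain ⟨i, hi⟩ := hcase
    have hJ : ∀ (σ : ℤ) (t : ℕ), t ≤ N → (σ = 1 ∧ z i + N < z' i ∨ σ = -1 ∧ z' i + N < z i) →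
        z + Pi.single i ((t : ℤ) * σ) ∈ cbx m := by
      intro σ t ht hσ
      rw [mem_cbx]
      intro j
      by_cases hj : j = i
      · subst hj
        have h2 := hzJ j
        have h3 := hzJ' j
        simp only [Pi.add_apply, Pi.single_eq_same]
        rcases hσ with ⟨rfl, h4⟩ | ⟨rfl, h4⟩
        · omega
        · omega
      · simp only [Pi.add_apply, Pi.single_eq_of_ne hj, add_zero]
        exact hzJ j
    rw [lt_abs] at hi
    rcases hi with hi | hi
    · -- downwards
      obtain ⟨t, ht, h1, h2⟩ := exit z hz i (-1) (by norm_num) N hN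
      have hdir : ((-1 : ℤ) = 1 ∧ z i + N < z' i ∨ (-1 : ℤ) = -1 ∧ z' i + N < z i) :=
        Or.inr ⟨rfl, by omega⟩
      have htgt : tgt ((z + Pi.single i (((t + 1 : ℕ) : ℤ) * (-1)), i) : Ed 2) =
          z + Pi.single i ((t : ℤ) * (-1)) := by
        unfold tgt
        funext j
        by_cases hj : j = i
        · subst hj
          simp only [Pi.add_apply, Pi.single_eq_same]
          push_cast
          ring
        · simp [Pi.single_eq_of_ne hj]
      refine ⟨(z + Pi.single i (((t + 1 : ℕ) : ℤ) * (-1)), i), mem_bdy.2 ⟨⟨?_, ?_⟩, ?_⟩,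
        fun j => ?_⟩
      · exact hJ (-1) (t + 1) (by omega) hdir
      · rw [htgt]
        exact hJ (-1) t (by omega) hdir
      · rw [htgt]
        intro h3
        exact h2 (h3.2 h1)
      · by_cases hj : j = i
        · subst hj
          simp only [Pi.add_apply, Pi.single_eq_same]
          rw [abs_le]
          push_cast
          constructor <;> omega
        · simp [Pi.single_eq_of_ne hj]
    · -- upwards
      obtain ⟨t, ht, h1, h2⟩ := exit z hz i 1 (by norm_num) N hN
      have hdir : ((1 : ℤ) = 1 ∧ z i + N < z' i ∨ (1 : ℤ) = -1 ∧ z' i + N < z i) :=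
        Or.inl ⟨rfl, by omega⟩
      have htgt : tgt ((z + Pi.single i ((t : ℤ) * 1), i) : Ed 2) =
          z + Pi.single i (((t + 1 : ℕ) : ℤ) * 1) := by
        unfold tgt
        funext j
        by_cases hj : j = i
        · subst hj
          simp only [Pi.add_apply, Pi.single_eq_same]
          push_cast
          ring
        · simp [Pi.single_eq_of_ne hj]
      refine ⟨(z + Pi.single i ((t : ℤ) * 1), i), mem_bdy.2 ⟨⟨?_, ?_⟩, ?_⟩, fun j => ?_⟩
      · exact hJ 1 t (by omega) hdir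
      · rw [htgt]
        exact hJ 1 (t + 1) (by omega) hdir
      · rw [htgt]
        intro h3
        exact h2 (h3.1 h1)
      · by_cases hj : j = i
        · subst hj
          simp only [Pi.add_apply, Pi.single_eq_same]
          rw [abs_le]
          constructor <;> omega
        · simp [Pi.single_eq_of_ne hj]

end NEA_

open NEA_ in
/-- Target NEA. -/
theorem p_NEA (h_ISO : T_ISO) (h_BCN : T_BCN) : T_NEA := by
  classical
  intro m W z0 z1 hW h0 h1
  rw [Finset.mem_sdiff] at h1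
  rcases h_ISO m W hW with h | h
  · obtain ⟨e, he, hd⟩ := core h_BCN m W hW z0 z1 h0 h1.1 h1.2 _ h
    refine ⟨e, he, z0, Or.inl rfl, fun i => ?_⟩
    have := hd i
    push_cast at this
    omega
  · obtain ⟨e, he, hd⟩ := core h_BCN m (cbx m \ W) Finset.sdiff_subset z1 z0
      (Finset.mem_sdiff.2 h1) (hW h0) (fun h2 => (Finset.mem_sdiff.1 h2).2 h0) _ h
    rw [bdy_compl] at he
    refine ⟨e, he, z1, Or.inr rfl, fun i => ?_⟩
    have := hd i
    push_cast at this
    omega

end Pool.Agent.FKP
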