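import Pool.Agent.FKP.Main
import Pool.Agent.FKP.Lem

/-!
# Project FKP: the case `p = 1`
-/

set_option autoImplicit false

namespace Pool.Agent.FKP

open Filter MeasureTheory Pool.Agent.FKT

namespace ONE_

/-- For `p = 1` a configuration without the edge `e` has weight zero. -/
theorem ex_zero {d : ℕ} (q : ℝ) (n : ℕ) (e : Ed d) (he : e ∈ eb (0 : Vx d) n) :
    phi (0 : Vx d) n 1 q (fun ω => if ω ∩ {e} = ∅ then 1 else 0) = 0 := by
  unfold phi Ex
  rw [Finset.sum_eq_zero, zero_div]
  intro ω hω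
  rw [Finset.mem_powerset] at hω
  beta_reduce
  by_cases h : ω ∩ {e} = ∅
  · rw [if_pos h, mul_one]
    have hne : e ∉ ω := by
      intro hc
      have : e ∈ ω ∩ {e} := Finset.mem_inter.mpr ⟨hc, Finset.mem_singleton_self e⟩
      rw [h] at this
      exact absurd this (Finset.notMem_empty e)
    have hlt : ω.card < (eb (0 : Vx d) n).card := by
      apply Finset.card_lt_card
      rw [Finset.ssubset_iff_of_subset hω]
      exact ⟨e, he, hne⟩
    unfold wt FKT.bw
    rw [sub_self, zero_pow (by omega), mul_zero, zero_mul]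
  · rw [if_neg h, mul_zero]

theorem mem_eb_of_large {d : ℕ} (e : Ed d) : ∀ᶠ n : ℕ in atTop, e ∈ eb (0 : Vx d) n := by
  rw [eventually_atTop]
  refine ⟨∑ i, ((e.1 i).natAbs + 1), fun n hn => ?_⟩
  have hb : ∀ i, |e.1 i| + 1 ≤ (n : ℤ) := by
    intro i
    have h1 : (e.1 i).natAbs + 1 ≤ ∑ i, ((e.1 i).natAbs + 1) :=
      Finset.single_le_sum (f := fun i => (e.1 i).natAbs + 1) (fun _ _ => Nat.zero_le _)
        (Finset.mem_univ i)
    have h2 : (e.1 i).natAbs + 1 ≤ n := h1.trans hn
    have h3 : |e.1 i| = ((e.1 i).natAbs : ℤ) := (Int.natCast_natAbs _).symm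
    rw [h3]
    exact_mod_cast h2
  unfold eb bx
  rw [Finset.mem_filter, Finset.mem_product, Finset.mem_Icc]
  have key : ∀ i, -(n : ℤ) ≤ e.1 i ∧ e.1 i + 1 ≤ n := by
    intro i
    have h1 := hb i
    have h2 := abs_le.mp (show |e.1 i| ≤ (n : ℤ) - 1 by omega)
    constructor <;> linarith [h2.1, h2.2]
  refine ⟨⟨⟨fun i => ?_, fun i => ?_⟩, Finset.mem_univ _⟩, ?_⟩
  · have := (key i).1
    simp only [Pi.zero_apply]
    omega
  · have := (key i).2
    simp only [Pi.zero_apply]
    omega
  · rw [Finset.mem_Icc]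
    have hs : ∀ i, tgt e i = e.1 i ∨ tgt e i = e.1 i + 1 := by
      intro i
      unfold tgt
      by_cases h : i = e.2
      · right
        subst h
        simp
      · left
        simp [Pi.single_eq_of_ne h]
    constructor
    · intro i
      have h1 := key i
      simp only [Pi.zero_apply]
      rcases hs i with h | h <;> omega
    · intro i
      have h1 := key i
      simp only [Pi.zero_apply]
      rcases hs i with h | h <;> omega

theorem edge_null {d : ℕ} (q : ℝ) (μ : Measure (Ed d → Bool)) (hμ : IsWired d 1 q μ)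
    (e : Ed d) : μ {ω | ω e = false} = 0 := by
  have := hμ.prob
  have h1 := hμ.lim {e} ∅ (Finset.empty_subset _)
  have h2 : Tendsto (fun n : ℕ => phi (0 : Vx d) n 1 q
      fun ω => if ω ∩ {e} = ∅ then 1 else 0) atTop (nhds 0) := by
    apply tendsto_const_nhds.congr'
    filter_upwards [mem_eb_of_large e] with n hn
    exact (ex_zero q n e hn).symm
  have h3 : μ.real (Cyl {e} ∅) = 0 := tendsto_nhds_unique h1 h2
  have h4 : μ (Cyl {e} ∅) = 0 := by
    rwa [Measure.real, ENNReal.toReal_eq_zero_iff, or_iff_left (measure_ne_top _ _)] at h3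
  have h5 : {ω : Ed d → Bool | ω e = false} = Cyl {e} ∅ := by
    ext ω
    unfold Cyl
    simp
  rw [h5]
  exact h4

theorem infinite {d : ℕ} (hd : 0 < d) (ω : Ed d → Bool) (h : ∀ e, ω e = true) :
    (C0 ω).Infinite := by
  have key : ∀ n : ℕ, Cn (cfg ω) (0 : Vx d) (Pi.single (⟨0, hd⟩ : Fin d) (n : ℤ)) := by
    intro n
    induction n with
    | zero =>
      have e : (Pi.single (⟨0, hd⟩ : Fin d) ((0 : ℕ) : ℤ) : Vx d) = 0 := by simp
      rw [e]
      exact Con_refl _ _
    | succ n ih =>
      refine Con_trans ih ?_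
      have he : ((Pi.single (⟨0, hd⟩ : Fin d) (n : ℤ) : Vx d), (⟨0, hd⟩ : Fin d)) ∈ cfg ω :=
        h _
      have h2 := Con_edge (s := Prod.fst) (t := tgt) (R := no (Vx d)) he
      have e : tgt ((Pi.single (⟨0, hd⟩ : Fin d) (n : ℤ) : Vx d), (⟨0, hd⟩ : Fin d)) =
          (Pi.single (⟨0, hd⟩ : Fin d) ((n + 1 : ℕ) : ℤ) : Vx d) := by
        unfold tgt
        rw [← Pi.single_add]
        push_cast
        rfl
      rw [e] at h2
      exact h2
  apply Set.infinite_of_injective_forall_mem
    (f := fun n : ℕ => (Pi.single (⟨0, hd⟩ : Fin d) (n : ℤ) : Vx d))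
  · intro a b hab
    have := congrFun hab ⟨0, hd⟩
    simpa using this
  · intro n
    exact key n

end ONE_

theorem p_ONE : T_ONE := by
  intro d hd q hq μ hμ
  refine measure_mono_null ?_ (measure_iUnion_null fun e => ONE_.edge_null q μ hμ e)
  intro ω hω
  by_contra hcon
  rw [Set.mem_iUnion] at hcon
  push Not at hcon
  refine absurd hω (ONE_.infinite (by omega) ω fun e => ?_)
  have := hcon e
  simpa using this

end Pool.Agent.FKP
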