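import Pool.Agent.FKP.PartB
import Pool.Agent.FKP.Lem

/-!
# Project FKP: target PB1
-/

set_option autoImplicit false

namespace Pool.Agent.FKP

open Filter MeasureTheory Pool.Agent.FKT

namespace PB1_

theorem card_fib (O P1 : Finset (Ed 2)) (z : Vx 2) :
    (P1.filter fun e => out O e = z).card ≤ 4 := by
  classical
  have hsub : (P1.filter fun e => out O e = z) ⊆
      ((Finset.univ : Finset (Fin 2)).image fun i => ((z, i) : Ed 2)) ∪
        ((Finset.univ : Finset (Fin 2)).image fun i => ((z - Pi.single i 1, i) : Ed 2)) := by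
    intro e he
    rw [Finset.mem_filter] at he
    obtain ⟨-, he⟩ := he
    rw [Finset.mem_union, Finset.mem_image, Finset.mem_image]
    unfold out at he
    split_ifs at he with h
    · right
      refine ⟨e.2, Finset.mem_univ _, ?_⟩
      unfold tgt at he
      rw [← he, add_sub_cancel_right]
    · left
      exact ⟨e.2, Finset.mem_univ _, by rw [← he]⟩
  refine (Finset.card_le_card hsub).trans ((Finset.card_union_le _ _).trans ?_)
  have h1 := Finset.card_image_le (s := (Finset.univ : Finset (Fin 2)))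
    (f := fun i => ((z, i) : Ed 2))
  have h2 := Finset.card_image_le (s := (Finset.univ : Finset (Fin 2)))
    (f := fun i => ((z - Pi.single i 1, i) : Ed 2))
  simp only [Finset.card_univ, Fintype.card_fin] at h1 h2
  omega

theorem out_mem {O : Finset (Ed 2)} {m : ℕ} {e : Ed 2} (he : e ∈ es (cbx m)) :
    out O e ∈ cbx m := by
  rw [mem_es] at he
  unfold out
  split_ifs
  · exact he.2
  · exact he.1

theorem bx_mono {d : ℕ} (v : Vx d) {r N : ℕ} (h : r ≤ N) : bx v r ⊆ bx v N := by
  intro x hx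
  unfold bx at hx ⊢
  rw [Finset.mem_Icc] at hx ⊢
  have h' : (r : ℤ) ≤ N := by exact_mod_cast h
  constructor
  · intro i
    have := hx.1 i
    simp only at this ⊢
    linarith
  · intro i
    have := hx.2 i
    simp only at this ⊢
    linarith

end PB1_

open PB1_ in
theorem p_PB1 (h_BAD : T_BAD) : T_PB1 := by
  classical
  intro k p q S s r ρ a l H N m b x0 x1 hC P O P1 hP hP1 hc
  set Z : Finset (Vx 2) := P1.image (out O) with hZ
  have hq : 0 < q := lt_of_lt_of_le one_pos hC.hq
  have hfib : P1.card ≤ 4 * Z.card :=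
    Finset.card_le_mul_card_image P1 4 fun z _ => card_fib O P1 z
  have hcard : P.card ≤ 8 * Z.card := by omega
  have hbad := h_BAD k q p hC.hq hC.hp hC.hp1 s r ρ a hC.hr hC.hρ S Z x0
    (by
      intro z hz v hv
      rw [hZ, Finset.mem_image] at hz
      obtain ⟨e, he, rfl⟩ := hz
      exact (bx_mono v hC.hrN).trans (hC.fit _ (out_mem (hP (hP1 he))) v hv))
    hC.low
  have hev : fr S p q (fun ω => ind (∀ e ∈ P1, ¬ Gd k ρ a s ω (out O e))) ≤
      fr S p q (fun ω => ind (∀ z ∈ Z, ¬ Gd k ρ a s ω z)) := by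
    unfold fr fw
    apply Ex_mono hC.hp hC.hp1 hq
    intro ω _
    apply ind_mono
    intro h z hz
    rw [hZ, Finset.mem_image] at hz
    obtain ⟨e, he, rfl⟩ := hz
    exact h e he
  refine (hev.trans hbad).trans ?_
  have hx1 : x0 ≤ 1 := by
    refine hC.low.trans ?_
    unfold fr fw
    exact Ex_le_one hC.hp hC.hp1 hq fun ω _ => ind_le_one _
  have h1 : (1 - x0) ≤ Real.exp (-x0) := by
    have := Real.add_one_le_exp (-x0)
    linarith
  have h2 : (1 - x0) ^ (a ^ 2 * Z.card) ≤ Real.exp (-x0) ^ (a ^ 2 * Z.card) :=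
    pow_le_pow_left₀ (by linarith) h1 _
  refine h2.trans ?_
  rw [← Real.exp_nat_mul]
  have h3 : (1 / 2 ^ 21 : ℝ) ≥ Real.exp (-25) := by
    rw [Real.exp_neg, one_div, ge_iff_le]
    apply inv_anti₀ (by positivity)
    have h4 : (2 : ℝ) ≤ Real.exp 1 := by
      have := Real.add_one_le_exp (1 : ℝ)
      linarith
    calc (2 : ℝ) ^ 21 ≤ 2 ^ 25 := by norm_num
      _ ≤ Real.exp 1 ^ 25 := pow_le_pow_left₀ (by norm_num) h4 _
      _ = Real.exp 25 := by
        rw [← Real.exp_nat_mul]
        norm_num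
  refine le_trans ?_ (pow_le_pow_left₀ (Real.exp_pos _).le h3 _)
  rw [← Real.exp_nat_mul]
  apply Real.exp_le_exp.2
  have hn0 := hC.n0
  have hZ0 : (0 : ℝ) ≤ Z.card := Nat.cast_nonneg _
  have hcard' : (P.card : ℝ) ≤ 8 * Z.card := by exact_mod_cast hcard
  push_cast
  nlinarith

end Pool.Agent.FKP
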