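import Pool.Agent.FKP.PartB
import Pool.Agent.FKP.Lem

/-!
# Project FKP: many good outer cells (PB2)
-/

set_option autoImplicit false

namespace Pool.Agent.FKP

open Pool.Agent.FKT

namespace PB2_

variable {k : ℕ}

/-- The two long directions. -/
def L (k : ℕ) (c : Fin 2) : Fin (k + 3) := ⟨c.val, by omega⟩

theorem L_val (c : Fin 2) : (L k c).val = c.val := rfl

theorem L_lt (c : Fin 2) : (L k c).val < 2 := c.2

theorem lt_L (l : Fin (k + 3)) (h : l.val < 2) : ∃ c, l = L k c := ⟨⟨l.val, h⟩, rfl⟩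

theorem pos0 (x y : ℤ) : pos k x y (L k 0) = x := by
  simp [pos, L]

theorem pos1 (x y : ℤ) : pos k x y (L k 1) = y := by
  simp [pos, L]

theorem pos2 (x y : ℤ) (l : Fin (k + 3)) (h : 2 ≤ l.val) : pos k x y l = 0 := by
  unfold pos
  rw [if_neg (by omega), if_neg (by omega)]

theorem cand_mem {ρ a : ℕ} {z : Vx 2} {w : Vx (k + 3)} (hw : w ∈ cand k ρ a z) :
    ∃ i j : ℕ, i < a ∧ j < a ∧
      w = pos k ((ρ : ℤ) * (a * z 0 + (i : ℤ))) ((ρ : ℤ) * (a * z 1 + (j : ℤ))) := by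
  unfold cand at hw
  rw [Finset.mem_image] at hw
  obtain ⟨⟨i, j⟩, hij, h⟩ := hw
  rw [Finset.mem_product, Finset.mem_range, Finset.mem_range] at hij
  exact ⟨i, j, hij.1, hij.2, h.symm⟩

theorem cand_coord {ρ a : ℕ} {z : Vx 2} {w : Vx (k + 3)} (hw : w ∈ cand k ρ a z) (c : Fin 2) :
    ∃ i : ℤ, 0 ≤ i ∧ i < a ∧ w (L k c) = ρ * (a * z c + i) := by
  obtain ⟨i, j, hi, hj, rfl⟩ := cand_mem hw
  fin_cases c
  · exact ⟨i, by positivity, by exact_mod_cast hi, pos0 _ _⟩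
  · exact ⟨j, by positivity, by exact_mod_cast hj, pos1 _ _⟩

theorem cand_high {ρ a : ℕ} {z : Vx 2} {w : Vx (k + 3)} (hw : w ∈ cand k ρ a z)
    (l : Fin (k + 3)) (h : 2 ≤ l.val) : w l = 0 := by
  obtain ⟨i, j, hi, hj, rfl⟩ := cand_mem hw
  exact pos2 _ _ l h

theorem cand_card (ρ a : ℕ) (z : Vx 2) : (cand k ρ a z).card ≤ a ^ 2 := by
  unfold cand
  refine Finset.card_image_le.trans ?_
  rw [Finset.card_product, Finset.card_range, pow_two]

/-- The index of a position. -/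
def cc (ρ : ℕ) (w : Vx (k + 3)) : ℤ × ℤ := (w (L k 0) / ρ, w (L k 1) / ρ)

theorem cc_pos {ρ a : ℕ} (hρ : 0 < ρ) {z : Vx 2} {w : Vx (k + 3)} (hw : w ∈ cand k ρ a z) :
    pos k ((ρ : ℤ) * (cc ρ w).1) ((ρ : ℤ) * (cc ρ w).2) = w := by
  obtain ⟨i, j, hi, hj, rfl⟩ := cand_mem hw
  have hρ' : (ρ : ℤ) ≠ 0 := by exact_mod_cast hρ.ne'
  unfold cc
  simp only [pos0, pos1]
  rw [Int.mul_ediv_cancel_left _ hρ', Int.mul_ediv_cancel_left _ hρ']

theorem cell_eq {ρ a : ℕ} (hρ : 0 < ρ) {z z' : Vx 2} {w : Vx (k + 3)}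
    (hw : w ∈ cand k ρ a z) (hw' : w ∈ cand k ρ a z') : z = z' := by
  have hρ' : (ρ : ℤ) ≠ 0 := by exact_mod_cast hρ.ne'
  funext c
  obtain ⟨i, hi0, hi, h1⟩ := cand_coord hw c
  obtain ⟨j, hj0, hj, h2⟩ := cand_coord hw' c
  rw [h1] at h2
  have h3 := mul_left_cancel₀ hρ' h2
  have ha : (0 : ℤ) < a := by linarith
  have h4 : (a : ℤ) * (z c - z' c) = j - i := by linarith
  have h5 : z c - z' c < 1 := by
    by_contra h
    have : (a : ℤ) * 1 ≤ a * (z c - z' c) := mul_le_mul_of_nonneg_left (by linarith) ha.le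
    linarith
  have h6 : -1 < z c - z' c := by
    by_contra h
    have : (a : ℤ) * (z c - z' c) ≤ a * (-1) := mul_le_mul_of_nonneg_left (by linarith) ha.le
    linarith
  omega

theorem int1 {A R d e : ℤ} (hR : 1 ≤ R) (hd : |d| ≤ 1) (he : |e| < A) :
    |R * (A * d + e)| ≤ 2 * (A * R) := by
  have hA : 0 < A := lt_of_le_of_lt (abs_nonneg e) he
  rw [abs_mul, abs_of_pos (by linarith : (0 : ℤ) < R)]
  have h1 : |A * d + e| ≤ A + A := by
    refine (abs_add_le _ _).trans ?_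
    rw [abs_mul, abs_of_pos hA]
    have := mul_le_mul_of_nonneg_left hd hA.le
    linarith
  have h2 := mul_le_mul_of_nonneg_left h1 (by linarith : (0 : ℤ) ≤ R)
  linarith

theorem int2 {A R d e : ℤ} (hR : 1 ≤ R) (hd : 11 ≤ |d|) (he : |e| < A) :
    10 * (A * R) ≤ |R * (A * d + e)| := by
  have hA : 0 < A := lt_of_le_of_lt (abs_nonneg e) he
  rw [abs_mul, abs_of_pos (by linarith : (0 : ℤ) < R)]
  have h1 : 10 * A ≤ |A * d + e| := by
    have h3 : |A * d| ≤ |A * d + e| + |e| := by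
      have := abs_sub (A * d + e) e
      rwa [add_sub_cancel_right] at this
    rw [abs_mul, abs_of_pos hA] at h3
    have := mul_le_mul_of_nonneg_left hd hA.le
    linarith
  have h2 := mul_le_mul_of_nonneg_left h1 (by linarith : (0 : ℤ) ≤ R)
  linarith

theorem diff {ρ a : ℕ} {z z' : Vx 2} {w w' : Vx (k + 3)} (hw : w ∈ cand k ρ a z)
    (hw' : w' ∈ cand k ρ a z') (c : Fin 2) :
    ∃ e : ℤ, |e| < a ∧ w (L k c) - w' (L k c) = ρ * (a * (z c - z' c) + e) := by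
  obtain ⟨i, hi0, hi, h1⟩ := cand_coord hw c
  obtain ⟨j, hj0, hj, h2⟩ := cand_coord hw' c
  refine ⟨i - j, ?_, ?_⟩
  · rw [abs_lt]
    constructor <;> linarith
  · rw [h1, h2]
    ring

theorem near {ρ a : ℕ} (hρ : 1 ≤ ρ) {z z' : Vx 2} {w w' : Vx (k + 3)}
    (hw : w ∈ cand k ρ a z) (hw' : w' ∈ cand k ρ a z') (c : Fin 2) (h : |z c - z' c| ≤ 1) :
    |w (L k c) - w' (L k c)| ≤ 2 * ((a : ℤ) * ρ) := by
  obtain ⟨e, he, h1⟩ := diff hw hw' c
  rw [h1]
  exact int1 (by exact_mod_cast hρ) h he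

theorem far {ρ a : ℕ} (hρ : 1 ≤ ρ) {z z' : Vx 2} {w w' : Vx (k + 3)}
    (hw : w ∈ cand k ρ a z) (hw' : w' ∈ cand k ρ a z') (c : Fin 2) (h : 11 ≤ |z c - z' c|) :
    10 * ((a : ℤ) * ρ) ≤ |w (L k c) - w' (L k c)| := by
  obtain ⟨e, he, h1⟩ := diff hw hw' c
  rw [h1]
  exact int2 (by exact_mod_cast hρ) h he

theorem apart {ρ a : ℕ} (hρ : 1 ≤ ρ) {z z' : Vx 2} {w w' : Vx (k + 3)}
    (hw : w ∈ cand k ρ a z) (hw' : w' ∈ cand k ρ a z') (h : w ≠ w') :
    ∃ c, (ρ : ℤ) ≤ |w (L k c) - w' (L k c)| := by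
  have h0 : ∃ c, w (L k c) ≠ w' (L k c) := by
    by_contra hc
    push Not at hc
    apply h
    funext l
    by_cases hl : l.val < 2
    · obtain ⟨c, rfl⟩ := lt_L l hl
      exact hc c
    · rw [cand_high hw l (by omega), cand_high hw' l (by omega)]
  obtain ⟨c, hc⟩ := h0
  refine ⟨c, ?_⟩
  obtain ⟨e, he, h1⟩ := diff hw hw' c
  have h2 : w (L k c) - w' (L k c) ≠ 0 := sub_ne_zero.2 hc
  rw [h1] at h2 ⊢
  have h3 : (a : ℤ) * (z c - z' c) + e ≠ 0 := by
    intro h3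
    rw [h3, mul_zero] at h2
    exact h2 rfl
  have h4 : 1 ≤ |(a : ℤ) * (z c - z' c) + e| := Int.one_le_abs h3
  rw [abs_mul, Nat.abs_cast]
  have h5 : (0 : ℤ) ≤ ρ := by positivity
  have := mul_le_mul_of_nonneg_left h4 h5
  linarith

theorem rg_disj {H : ℕ} {w w' : Vx (k + 3)} (c : Fin 2)
    (h : 2 * (H : ℤ) < |w (L k c) - w' (L k c)|) : Disjoint (rg H w) (rg H w') := by
  rw [Finset.disjoint_left]
  intro x hx hx'
  unfold rg at hx hx'
  rw [Finset.mem_Icc] at hx hx'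
  have h1 := hx.1 (L k c)
  have h2 := hx.2 (L k c)
  have h3 := hx'.1 (L k c)
  have h4 := hx'.2 (L k c)
  have h5 : (L k c).val < 2 := L_lt c
  have h6 : (L k c).val < 3 := by omega
  simp only [if_pos h5] at h1 h3
  simp only [if_pos h6] at h2 h4
  have h7 : |w (L k c) - w' (L k c)| ≤ 2 * (H : ℤ) := by
    rw [abs_le]
    constructor <;> linarith
  linarith

theorem cu_disj {s : ℕ} {w w' : Vx (k + 3)} (c : Fin 2)
    (h : (s : ℤ) < |w (L k c) - w' (L k c)|) : Disjoint (cu s w) (cu s w') := by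
  rw [Finset.disjoint_left]
  intro x hx hx'
  unfold cu at hx hx'
  rw [Finset.mem_Icc] at hx hx'
  have h1 := hx.1 (L k c)
  have h2 := hx.2 (L k c)
  have h3 := hx'.1 (L k c)
  have h4 := hx'.2 (L k c)
  have h5 : (L k c).val < 2 := L_lt c
  have h6 : (L k c).val < 3 := by omega
  simp only [if_pos h6] at h2 h4
  have h7 : |w (L k c) - w' (L k c)| ≤ (s : ℤ) := by
    rw [abs_le]
    constructor <;> linarith
  linarith

theorem rg_bx {H N : ℕ} (h : H ≤ N) (w : Vx (k + 3)) : rg H w ⊆ bx w N := by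
  have h' : (H : ℤ) ≤ N := by exact_mod_cast h
  have hH : (0 : ℤ) ≤ H := by positivity
  intro x hx
  unfold rg at hx
  unfold bx
  rw [Finset.mem_Icc] at hx ⊢
  constructor
  · intro i
    have h1 := hx.1 i
    simp only at h1 ⊢
    split_ifs at h1 <;> linarith
  · intro i
    have h1 := hx.2 i
    simp only at h1 ⊢
    split_ifs at h1 <;> linarith

theorem bx_bx {r N : ℕ} (h : r ≤ N) (w : Vx (k + 3)) : bx w r ⊆ bx w N := by
  have h' : (r : ℤ) ≤ N := by exact_mod_cast h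
  intro x hx
  unfold bx at hx ⊢
  rw [Finset.mem_Icc] at hx ⊢
  constructor
  · intro i
    have h1 := hx.1 i
    simp only at h1 ⊢
    linarith
  · intro i
    have h1 := hx.2 i
    simp only at h1 ⊢
    linarith

theorem tgt_coord (e : Ed 2) (c : Fin 2) : e.1 c ≤ tgt e c ∧ tgt e c ≤ e.1 c + 1 := by
  unfold tgt
  rw [Pi.add_apply]
  by_cases h : c = e.2
  · subst h
    rw [Pi.single_eq_same]
    omega
  · rw [Pi.single_eq_of_ne h]
    omega

theorem tgt_ne (e : Ed 2) : e.1 ≠ tgt e := by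
  intro h
  have h1 := congrFun h e.2
  unfold tgt at h1
  rw [Pi.add_apply, Pi.single_eq_same] at h1
  omega

theorem inn_coord (O : Finset (Ed 2)) (e : Ed 2) (c : Fin 2) :
    e.1 c ≤ inn O e c ∧ inn O e c ≤ e.1 c + 1 := by
  unfold inn
  split_ifs
  · omega
  · exact tgt_coord e c

theorem out_coord (O : Finset (Ed 2)) (e : Ed 2) (c : Fin 2) :
    e.1 c ≤ out O e c ∧ out O e c ≤ e.1 c + 1 := by
  unfold out
  split_ifs
  · exact tgt_coord e c
  · omega

theorem inn_ne_out (O : Finset (Ed 2)) (e : Ed 2) : inn O e ≠ out O e := by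
  unfold inn out
  split_ifs
  · exact tgt_ne e
  · exact (tgt_ne e).symm

theorem inn_cbx {m : ℕ} (O : Finset (Ed 2)) {e : Ed 2} (he : e ∈ es (cbx m)) :
    inn O e ∈ cbx m := by
  rw [mem_es] at he
  unfold inn
  split_ifs
  · exact he.1
  · exact he.2

theorem out_cbx {m : ℕ} (O : Finset (Ed 2)) {e : Ed 2} (he : e ∈ es (cbx m)) :
    out O e ∈ cbx m := by
  rw [mem_es] at he
  unfold out
  split_ifs
  · exact he.2
  · exact he.1

/-- The cell of an edge on the side `τ`. -/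
noncomputable def sd (O : Finset (Ed 2)) (τ : Bool) (e : Ed 2) : Vx 2 :=
  if τ = true then inn O e else out O e

theorem sd_coord (O : Finset (Ed 2)) (τ : Bool) (e : Ed 2) (c : Fin 2) :
    e.1 c ≤ sd O τ e c ∧ sd O τ e c ≤ e.1 c + 1 := by
  unfold sd
  split_ifs
  · exact inn_coord O e c
  · exact out_coord O e c

theorem sd_cbx {m : ℕ} (O : Finset (Ed 2)) (τ : Bool) {e : Ed 2} (he : e ∈ es (cbx m)) :
    sd O τ e ∈ cbx m := by
  unfold sd
  split_ifs
  · exact inn_cbx O he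
  · exact out_cbx O he

theorem sd_far (O : Finset (Ed 2)) (τ τ' : Bool) {e e' : Ed 2} {c : Fin 2}
    (h : 12 ≤ |e.1 c - e'.1 c|) : 11 ≤ |sd O τ e c - sd O τ' e' c| := by
  have h1 := sd_coord O τ e c
  have h2 := sd_coord O τ' e' c
  rcases le_abs.1 h with h3 | h3
  · exact le_abs.2 (Or.inl (by omega))
  · exact le_abs.2 (Or.inr (by omega))

theorem Sd_spec {ρ a s : ℕ} {ω : Finset (Ed (k + 3))} {z : Vx 2} (h : Gd k ρ a s ω z) :
    Sd k ρ a s ω z ∈ cand k ρ a z ∧ es (cu s (Sd k ρ a s ω z)) ⊆ ω := by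
  unfold Sd
  rw [dif_pos h]
  exact h.choose_spec

/-- The candidates for the pair of seeds number `i`. -/
noncomputable def Cs (k ρ a : ℕ) (O : Finset (Ed 2)) {M : ℕ} (ee : Fin M → Ed 2) (i : Fin M) :
    Finset (Vx (k + 3) × Vx (k + 3)) :=
  cand k ρ a (inn O (ee i)) ×ˢ cand k ρ a (out O (ee i))

theorem mem_Cs {ρ a : ℕ} {O : Finset (Ed 2)} {M : ℕ} {ee : Fin M → Ed 2} {i : Fin M}
    {x : Vx (k + 3) × Vx (k + 3)} : x ∈ Cs k ρ a O ee i ↔
      x.1 ∈ cand k ρ a (inn O (ee i)) ∧ x.2 ∈ cand k ρ a (out O (ee i)) := by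
  unfold Cs
  exact Finset.mem_product

theorem card_Cs (ρ a : ℕ) (O : Finset (Ed 2)) {M : ℕ} (ee : Fin M → Ed 2) (i : Fin M) :
    ((Cs k ρ a O ee i).card : ℝ) ≤ (a : ℝ) ^ 4 := by
  unfold Cs
  rw [Finset.card_product]
  push_cast
  have h1 : ((cand k ρ a (inn O (ee i))).card : ℝ) ≤ (a : ℝ) ^ 2 := by
    exact_mod_cast cand_card ρ a _
  have h2 : ((cand k ρ a (out O (ee i))).card : ℝ) ≤ (a : ℝ) ^ 2 := by
    exact_mod_cast cand_card ρ a _
  calc _ ≤ (a : ℝ) ^ 2 * (a : ℝ) ^ 2 := mul_le_mul h1 h2 (by positivity) (by positivity)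
    _ = (a : ℝ) ^ 4 := by ring

theorem card_pi (ρ a : ℕ) (O : Finset (Ed 2)) {M : ℕ} (ee : Fin M → Ed 2) :
    ((Fintype.piFinset (Cs k ρ a O ee)).card : ℝ) ≤ ((a : ℝ) ^ 4) ^ M := by
  rw [Fintype.card_piFinset]
  push_cast
  calc ∏ i, ((Cs k ρ a O ee i).card : ℝ) ≤ ∏ _i : Fin M, (a : ℝ) ^ 4 :=
        Finset.prod_le_prod (fun i _ => by positivity) fun i _ => card_Cs ρ a O ee i
    _ = ((a : ℝ) ^ 4) ^ M := by rw [Finset.prod_const, Finset.card_univ, Fintype.card_fin]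

/-- The event of the pairs of seeds. -/
def Ev2 (s : ℕ) {M : ℕ} (g : Fin M → Vx (k + 3) × Vx (k + 3)) (ω : Finset (Ed (k + 3))) :
    Prop :=
  Sop s (fun i => (g i).1) (fun i => (g i).2) ω ∧ Ncn (fun i => (g i).1) (fun i => (g i).2) ω

theorem ev_le {ρ a s : ℕ} {O P2 : Finset (Ed 2)} {M : ℕ} {ee : Fin M → Ed 2}
    (hee : ∀ i, ee i ∈ P2) {ω : Finset (Ed (k + 3))} :
    ind (∀ e ∈ P2, Gd k ρ a s ω (inn O e) ∧ Gd k ρ a s ω (out O e) ∧
      ∀ e' ∈ P2, ¬ Cf ω (Sd k ρ a s ω (inn O e)) (Sd k ρ a s ω (out O e'))) ≤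
      ∑ g ∈ Fintype.piFinset (Cs k ρ a O ee), ind (Ev2 s g ω) := by
  by_cases hA : ∀ e ∈ P2, Gd k ρ a s ω (inn O e) ∧ Gd k ρ a s ω (out O e) ∧
    ∀ e' ∈ P2, ¬ Cf ω (Sd k ρ a s ω (inn O e)) (Sd k ρ a s ω (out O e'))
  · rw [ind_true hA]
    have e1 : ∀ i, Sd k ρ a s ω (inn O (ee i)) ∈ cand k ρ a (inn O (ee i)) ∧
        es (cu s (Sd k ρ a s ω (inn O (ee i)))) ⊆ ω := fun i =>
      Sd_spec (hA (ee i) (hee i)).1
    have e2 : ∀ i, Sd k ρ a s ω (out O (ee i)) ∈ cand k ρ a (out O (ee i)) ∧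
        es (cu s (Sd k ρ a s ω (out O (ee i)))) ⊆ ω := fun i =>
      Sd_spec (hA (ee i) (hee i)).2.1
    have e3 : ∀ i j, ¬ Cf ω (Sd k ρ a s ω (inn O (ee i))) (Sd k ρ a s ω (out O (ee j))) :=
      fun i j => (hA (ee i) (hee i)).2.2 (ee j) (hee j)
    obtain ⟨g0, hg0⟩ : ∃ g0 : Fin M → Vx (k + 3) × Vx (k + 3), ∀ i, g0 i =
      (Sd k ρ a s ω (inn O (ee i)), Sd k ρ a s ω (out O (ee i))) := ⟨_, fun i => rfl⟩
    have hg0m : g0 ∈ Fintype.piFinset (Cs k ρ a O ee) := by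
      rw [Fintype.mem_piFinset]
      intro i
      rw [mem_Cs, hg0 i]
      exact ⟨(e1 i).1, (e2 i).1⟩
    have hev : Ev2 s g0 ω := by
      constructor
      · intro i
        simp only [hg0]
        exact ⟨(e1 i).2, (e2 i).2⟩
      · intro i j
        simp only [hg0]
        exact e3 i j
    have h1 := Finset.single_le_sum (f := fun g => ind (Ev2 s g ω))
      (fun g _ => ind_nonneg _) hg0m
    rw [ind_true hev] at h1
    exact h1
  · rw [ind_false hA]
    exact Finset.sum_nonneg fun g _ => ind_nonneg _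

theorem self_rg (H : ℕ) (w : Vx (k + 3)) : w ∈ rg H w := by
  unfold rg
  rw [Finset.mem_Icc]
  have hH0 : (0 : ℤ) ≤ H := by positivity
  constructor
  · intro i
    simp only
    split_ifs <;> linarith
  · intro i
    simp only
    split_ifs <;> linarith

section term

variable {p q : ℝ} {S : Finset (Vx (k + 3))} {s r ρ a l H N m : ℕ} {b x0 x1 : ℝ}

/-- The estimate of one term. -/
theorem term (h_SUP : T_SUP) (hc : Cst k p q S s r ρ a l H N m b x0 x1) (O : Finset (Ed 2))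
    {M : ℕ} {ee : Fin M → Ed 2} (hes : ∀ i, ee i ∈ es (cbx m))
    (hsep : ∀ i j, i ≠ j → ∃ c, 12 ≤ |(ee i).1 c - (ee j).1 c|)
    (W : Bool → Fin M → Vx (k + 3))
    (hWm : ∀ τ i, W τ i ∈ cand k ρ a (sd O τ (ee i))) :
    fr S p q (fun ω => ind (Sop s (W true) (W false) ω ∧ Ncn (W true) (W false) ω)) ≤
      b ^ M * x1 ^ (2 * M) := by
  have hp := hc.hp
  have hp1 := hc.hp1
  have hq := hc.hq
  have hq0 : 0 < q := by linarith
  have hρ : 1 ≤ ρ := by rw [hc.hρ]; omega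
  have hρ0 : 0 < ρ := hρ
  have hphi0 : 0 ≤ phi (0 : Vx (k + 3)) r p q (fun ω => ind (es (cu s 0) ⊆ ω)) :=
    Ex_nonneg hp hp1 hq0 fun ω _ => ind_nonneg _
  have hvm : ∀ i, W true i ∈ cand k ρ a (inn O (ee i)) := fun i => hWm true i
  have hvm' : ∀ i, W false i ∈ cand k ρ a (out O (ee i)) := fun i => hWm false i
  have hbx : ∀ τ i, bx (W τ i) N ⊆ S := fun τ i =>
    hc.fit _ (sd_cbx O τ (hes i)) _ (hWm τ i)
  have hne : ∀ i, W true i ≠ W false i := by
    intro i h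
    have h1 := hvm' i
    rw [← h] at h1
    exact inn_ne_out O (ee i) (cell_eq hρ0 (hvm i) h1)
  have hl : (l : ℤ) = a * ρ := by rw [hc.hl]; push_cast; ring
  have hla : (ρ : ℤ) ≤ l := by
    rw [hl]
    have h1 : (1 : ℤ) ≤ a := by exact_mod_cast hc.ha
    have h2 : (0 : ℤ) ≤ ρ := by positivity
    nlinarith
  have hρs : (s : ℤ) < ρ := by
    have h1 := hc.hρ
    have h2 := hc.hr
    omega
  have hHl : (H : ℤ) = s + 2 * l := by rw [hc.hH]; push_cast; ring
  have hdj : ∀ τ τ' i j, i ≠ j → Disjoint (rg H (W τ i)) (rg H (W τ' j)) := by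
    intro τ τ' i j hij
    obtain ⟨c, hcc⟩ := hsep i j hij
    apply rg_disj c
    have h1 := far hρ (hWm τ i) (hWm τ' j) c (sd_far O τ τ' hcc)
    rw [← hl] at h1
    linarith
  have hgeo : Geo s H S M (W true) (W false) := by
    refine ⟨hc.hs, ?_, ?_, ?_, ?_, ?_, ?_⟩
    · rw [hc.hH]; omega
    · intro i l' hl'
      rw [cand_high (hvm i) l' hl', cand_high (hvm' i) l' hl']
    · intro i l' hl'
      obtain ⟨c, rfl⟩ := lt_L l' hl'
      have h1 := near hρ (hvm i) (hvm' i) c (by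
        have h1 := inn_coord O (ee i) c
        have h2 := out_coord O (ee i) c
        rw [abs_le]
        omega)
      rw [← hl] at h1
      rw [hHl]
      linarith
    · intro i
      exact ⟨(rg_bx hc.hN _).trans (hbx true i), (rg_bx hc.hN _).trans (hbx false i)⟩
    · intro i j hij
      rw [Finset.disjoint_union_left, Finset.disjoint_union_right,
        Finset.disjoint_union_right]
      exact ⟨⟨hdj true true i j hij, hdj true false i j hij⟩,
        hdj false true i j hij, hdj false false i j hij⟩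
    · intro i
      obtain ⟨c, hcc⟩ := apart hρ (hvm i) (hvm' i) (hne i)
      exact cu_disj c (by linarith)
  refine (hc.key M (W true) (W false) hgeo fun i => ⟨hbx true i, hbx false i⟩).trans ?_
  refine mul_le_mul_of_nonneg_left ?_ (pow_nonneg hc.hb.le _)
  -- the seeds
  obtain ⟨F, hF⟩ : ∃ F : Bool × Fin M → ℤ × ℤ, ∀ t, F t = cc ρ (W t.1 t.2) :=
    ⟨_, fun t => rfl⟩
  have hpos : ∀ τ i, pos k ((ρ : ℤ) * (F (τ, i)).1) ((ρ : ℤ) * (F (τ, i)).2) = W τ i := by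
    intro τ i
    rw [hF]
    exact cc_pos hρ0 (hWm τ i)
  have hFinj : Function.Injective F := by
    rintro ⟨τ, i⟩ ⟨τ', j⟩ h
    have h1 : W τ i = W τ' j := by
      rw [← hpos τ i, ← hpos τ' j, h]
    have hij : i = j := by
      by_contra hij
      have h2 := hdj τ τ' i j hij
      rw [h1] at h2
      exact (Finset.disjoint_left.1 h2) (self_rg H _) (self_rg H _)
    subst hij
    cases τ with
    | true =>
      cases τ' with
      | true => rfl
      | false => exact absurd h1 (hne i)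
    | false =>
      cases τ' with
      | true => exact absurd h1.symm (hne i)
      | false => rfl
  have hPcard : (Finset.univ.image F).card = 2 * M := by
    rw [Finset.card_image_of_injective _ hFinj, Finset.card_univ, Fintype.card_prod,
      Fintype.card_bool, Fintype.card_fin]
  have hsup := h_SUP k q p hq hp hp1 s r ρ hc.hr hc.hρ S (Finset.univ.image F) (by
    intro c hcP
    rw [Finset.mem_image] at hcP
    obtain ⟨⟨τ, i⟩, _, rfl⟩ := hcP
    rw [hpos τ i]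
    exact (bx_bx hc.hrN _).trans (hbx τ i))
  have heq : fr S p q (fun ω => ind (Sop s (W true) (W false) ω)) = fr S p q (fun ω =>
      ind (∀ c ∈ Finset.univ.image F,
        es (cu s (pos k ((ρ : ℤ) * c.1) ((ρ : ℤ) * c.2))) ⊆ ω)) := by
    congr 1
    funext ω
    apply ind_congr
    constructor
    · intro h c hcP
      rw [Finset.mem_image] at hcP
      obtain ⟨⟨τ, i⟩, _, rfl⟩ := hcP
      rw [hpos τ i]
      cases τ with
      | true => exact (h i).1
      | false => exact (h i).2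
    · intro h i
      have h1 := h (F (true, i)) (Finset.mem_image_of_mem _ (Finset.mem_univ _))
      have h2 := h (F (false, i)) (Finset.mem_image_of_mem _ (Finset.mem_univ _))
      rw [hpos] at h1 h2
      exact ⟨h1, h2⟩
  rw [heq]
  refine hsup.trans ?_
  rw [hPcard]
  exact pow_le_pow_left₀ hphi0 hc.up _

end term

end PB2_

open PB2_ in
theorem p_PB2 (h_SUP : T_SUP) (h_SPR : T_SPR) : T_PB2 := by
  classical
  intro k p q S s r ρ a l H N m b x0 x1 hc O P2 n hP2 hn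
  obtain ⟨Q, hQ, hcard, hsep⟩ := h_SPR P2
  have hp := hc.hp
  have hp1 := hc.hp1
  have hq0 : 0 < q := by linarith [hc.hq]
  obtain ⟨M, hM⟩ : ∃ M : ℕ, Q.card = M := ⟨_, rfl⟩
  obtain ⟨ee, hmem, hinj⟩ : ∃ ee : Fin M → Ed 2, (∀ i, ee i ∈ Q) ∧ Function.Injective ee := by
    refine ⟨fun i => ((Q.equivFinOfCardEq hM).symm i : Ed 2), fun i => ?_, fun i j h => ?_⟩
    · exact ((Q.equivFinOfCardEq hM).symm i).2
    · exact (Q.equivFinOfCardEq hM).symm.injective (Subtype.ext h)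
  have hmem2 : ∀ i, ee i ∈ P2 := fun i => hQ (hmem i)
  have hphi0 : 0 ≤ phi (0 : Vx (k + 3)) r p q (fun ω => ind (es (cu s 0) ⊆ ω)) :=
    Ex_nonneg hp hp1 hq0 fun ω _ => ind_nonneg _
  have hx1 : 0 ≤ x1 := hphi0.trans hc.up
  have hstep1 : fr S p q (fun ω => ind (∀ e ∈ P2, Gd k ρ a s ω (inn O e) ∧
      Gd k ρ a s ω (out O e) ∧
      ∀ e' ∈ P2, ¬ Cf ω (Sd k ρ a s ω (inn O e)) (Sd k ρ a s ω (out O e')))) ≤
      fr S p q (fun ω => ∑ g ∈ Fintype.piFinset (Cs k ρ a O ee), ind (Ev2 s g ω)) := by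
    unfold fr fw
    exact Ex_mono hp hp1 hq0 fun ω _ => ev_le hmem2
  have hstep2 : ∀ g ∈ Fintype.piFinset (Cs k ρ a O ee),
      fr S p q (fun ω => ind (Ev2 s g ω)) ≤ b ^ M * x1 ^ (2 * M) := by
    intro g hg
    rw [Fintype.mem_piFinset] at hg
    refine term h_SUP hc O (ee := ee) (fun i => hP2 (hmem2 i)) ?_
      (fun τ i => if τ = true then (g i).1 else (g i).2) ?_
    · intro i j hij
      exact hsep _ (hmem i) _ (hmem j) fun h => hij (hinj h)
    · intro τ i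
      have h1 := mem_Cs.1 (hg i)
      cases τ with
      | true => exact h1.1
      | false => exact h1.2
  have hstep3 : fr S p q (fun ω => ∑ g ∈ Fintype.piFinset (Cs k ρ a O ee),
      ind (Ev2 s g ω)) ≤
      ((Fintype.piFinset (Cs k ρ a O ee)).card : ℝ) * (b ^ M * x1 ^ (2 * M)) := by
    unfold fr fw at hstep2 ⊢
    rw [Ex_sum]
    refine (Finset.sum_le_sum hstep2).trans ?_
    rw [Finset.sum_const, nsmul_eq_mul]
  refine hstep1.trans (hstep3.trans ?_)
  have hb := hc.hb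
  calc ((Fintype.piFinset (Cs k ρ a O ee)).card : ℝ) * (b ^ M * x1 ^ (2 * M))
      ≤ ((a : ℝ) ^ 4) ^ M * (b ^ M * x1 ^ (2 * M)) :=
        mul_le_mul_of_nonneg_right (card_pi ρ a O ee) (by positivity)
    _ = (((a : ℝ) ^ 2 * x1) ^ 2 * b) ^ M := by
        rw [pow_mul, ← mul_pow, ← mul_pow]
        congr 1
        ring
    _ ≤ (1600 ^ 2 * b) ^ M := by
        refine pow_le_pow_left₀ (by positivity) ?_ _
        refine mul_le_mul_of_nonneg_right ?_ hb.le
        exact pow_le_pow_left₀ (by positivity) hc.n1 _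
    _ ≤ ((1 / 2 ^ 21 : ℝ) ^ 2500) ^ M := pow_le_pow_left₀ (by positivity) hc.nb _
    _ = (1 / 2 ^ 21 : ℝ) ^ (2500 * M) := (pow_mul _ _ _).symm
    _ ≤ (1 / 2 ^ 21 : ℝ) ^ n := by
        refine pow_le_pow_of_le_one (by positivity) (by norm_num) ?_
        omega

end Pool.Agent.FKP
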