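import Pool.Agent.FKP.PartE
import Pool.Agent.FKP.Lem

/-!
# Project FKP: target PCH (the slab critical points tend to the critical point)
-/

set_option autoImplicit false

namespace Pool.Agent.FKP

open Filter MeasureTheory Pool.Agent.FKT

theorem PCH_slb (d L n : ℕ) (i : Fin d) (hi : (i : ℕ) = 0) :
    slb i L 0 n = SLn d (L + 1) n := by
  unfold slb SLn
  congr 1
  · funext l
    by_cases h : l = i
    · subst h; simp [hi]
    · have h' : (l : ℕ) ≠ 0 := fun hc => h (Fin.ext (hc.trans hi.symm))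
      simp [h, h']
  · funext l
    by_cases h : l = i
    · subst h; simp [hi]
    · have h' : (l : ℕ) ≠ 0 := fun hc => h (Fin.ext (hc.trans hi.symm))
      simp [h, h']

theorem PCH_zero (d L n : ℕ) : (0 : Vx d) ∈ SLn d (L + 1) n := by
  unfold SLn
  rw [Finset.mem_Icc, Pi.le_def, Pi.le_def]
  constructor
  · intro l
    by_cases h : (l : ℕ) = 0
    · simp [h]
    · simp [h]
  · intro l
    by_cases h : (l : ℕ) = 0
    · simp [h]
    · simp [h]

theorem PCH_pc_nonneg (d : ℕ) (q : ℝ) : 0 ≤ pc d q := by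
  unfold pc
  exact Real.sSup_nonneg fun x hx => hx.1

theorem PCH_bdd (d : ℕ) (q : ℝ) (L : ℕ) :
    BddBelow {p : ℝ | 0 ≤ p ∧ p ≤ 1 ∧ PiL d p q L} := ⟨0, fun _ hx => hx.1⟩

theorem PCH_lower (hPI1 : T_PI1) (hPI0 : T_PI0) (hMPI : T_MPI) (hLOW : T_LOW) (hONE : T_ONE)
    (hEXI : FKT.T_EXI) (d : ℕ) (q : ℝ) (hd : 2 ≤ d) (hq : 1 ≤ q) (L : ℕ) (hL : 1 ≤ L) :
    pc d q ≤ pch d q L := by
  have hq0 : 0 < q := by linarith
  obtain ⟨h1, μ1, hμ1⟩ := hPI1 d q (by omega) hq0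
  unfold pch
  have hne : ({p : ℝ | 0 ≤ p ∧ p ≤ 1 ∧ PiL d p q L}).Nonempty :=
    ⟨1, by norm_num, le_refl _, h1 L⟩
  apply le_csInf hne
  rintro p ⟨hp0, hp1, hp⟩
  have hp0' : p ≠ 0 := by
    rintro rfl
    exact hPI0 d q L hd hq0 hL hp
  have hppos : 0 < p := lt_of_le_of_ne hp0 (Ne.symm hp0')
  unfold pc
  apply Real.sSup_le _ hp0
  rintro p' ⟨-, hp'1, hp'⟩
  by_contra hlt
  rw [not_le] at hlt
  rcases eq_or_lt_of_le hp'1 with h2 | h2
  · subst h2
    have h3 := hp' μ1 hμ1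
    have h4 := hONE d hd q hq μ1 hμ1
    have := hμ1.prob
    have h5 : μ1 Set.univ ≤ 0 := by
      calc μ1 Set.univ ≤ μ1 (Inf0 d ∪ {ω | (C0 ω).Finite}) := by
            apply measure_mono
            intro ω _
            by_cases h : (C0 ω).Finite
            · exact Or.inr h
            · exact Or.inl h
        _ ≤ μ1 (Inf0 d) + μ1 {ω | (C0 ω).Finite} := measure_union_le _ _
        _ = 0 := by rw [h3, h4, add_zero]
    rw [measure_univ] at h5
    exact absurd h5 (by norm_num)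
  · have h3 := hMPI d p p' q L hppos hlt.le h2 hq hp
    obtain ⟨μ, hμ⟩ := hEXI d (by omega) p' q (hppos.trans hlt) h2 hq
    exact hLOW d p' q L hd (hppos.trans hlt) h2 hq hL h3 μ hμ (hp' μ hμ)

theorem p_PCH (hMOL : T_MOL) (hPI1 : T_PI1) (hPI0 : T_PI0) (hMPI : T_MPI) (hLOW : T_LOW)
    (hONE : T_ONE) (hEXI : FKT.T_EXI) : T_PCH := by
  intro d q hd hq hS
  have hq0 : 0 < q := by linarith
  have h1 : ∀ L, PiL d 1 q L := (hPI1 d q (by omega) hq0).1
  have hle : ∀ (L : ℕ) (p : ℝ), 0 ≤ p → p ≤ 1 → PiL d p q L → pch d q L ≤ p := by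
    intro L p h2 h3 h4
    exact csInf_le (PCH_bdd d q L) ⟨h2, h3, h4⟩
  refine tendsto_order.mpr ⟨fun a ha => ?_, fun a ha => ?_⟩
  · filter_upwards [eventually_ge_atTop 1] with L hL
    exact lt_of_lt_of_le ha (PCH_lower hPI1 hPI0 hMPI hLOW hONE hEXI d q hd hq L hL)
  · by_cases ha1 : 1 < a
    · exact Filter.Eventually.of_forall fun L =>
        lt_of_le_of_lt (hle L 1 (by norm_num) (le_refl _) (h1 L)) ha1
    · rw [not_lt] at ha1
      obtain ⟨p, hp1, hp2⟩ := exists_between ha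
      have hp0 : 0 < p := lt_of_le_of_lt (PCH_pc_nonneg d q) hp1
      have hpl : p < 1 := lt_of_lt_of_le hp2 ha1
      obtain ⟨L0, α, hα⟩ := hS p hp1 hpl
      filter_upwards [eventually_ge_atTop (L0 + 1)] with L hL
      obtain ⟨L', rfl⟩ : ∃ L', L = L' + 1 := ⟨L - 1, by omega⟩
      obtain ⟨α', hα'⟩ := hMOL d p q hp0 hpl hq L0 α hα L' (by omega)
      refine lt_of_le_of_lt (hle (L' + 1) p hp0.le hpl.le ⟨α' / 2, by linarith [hα'.1], ?_⟩) hp2
      intro n x hx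
      have hi : ((⟨0, by omega⟩ : Fin d) : ℕ) = 0 := rfl
      have h2 := hα'.2 ⟨0, by omega⟩ 0 n
      rw [PCH_slb d L' n _ hi] at h2
      have h3 := h2 0 (PCH_zero d L' n) x hx
      linarith [hα'.1]

end Pool.Agent.FKP
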