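import Pool.Agent.FKP.PartC2
import Pool.Agent.FKP.Lem

/-!
# Project FKP, target PED: the deterministic conclusion
-/

set_option autoImplicit false

namespace Pool.Agent.FKP

open Filter MeasureTheory Pool.Agent.FKT

namespace PED_

variable {d : ℕ}

theorem single_bx (i : Fin d) : (Pi.single i (1 : ℤ) : Vx d) ∈ bx (0 : Vx d) 1 := by
  rw [bx, Finset.mem_Icc, Pi.le_def, Pi.le_def]
  constructor <;> intro j <;> by_cases h : j = i
  · subst h
    simp
  · simp [h]
  · subst h
    simp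
  · simp [h]

theorem neg_single_bx (i : Fin d) : (-(Pi.single i (1 : ℤ)) : Vx d) ∈ bx (0 : Vx d) 1 := by
  rw [bx, Finset.mem_Icc, Pi.le_def, Pi.le_def]
  constructor <;> intro j <;> by_cases h : j = i
  · subst h
    simp
  · simp [h]
  · subst h
    simp
  · simp [h]

open Classical in
/-- The end of the edge in `A`. -/
noncomputable def endA (A : Finset (Vx d)) (e : Ed d) : Vx d := if e.1 ∈ A then e.1 else tgt e

open Classical in
theorem card_endA (A : Finset (Vx d)) (P : Finset (Ed d)) :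
    P.card ≤ (2 * d) * (P.image (endA A)).card := by
  refine Finset.card_le_mul_card_image P (2 * d) fun z _ => ?_
  have hsub : (P.filter fun e => endA A e = z) ⊆
      ((Finset.univ : Finset (Fin d)).image fun i => ((z, i) : Ed d)) ∪
        ((Finset.univ : Finset (Fin d)).image fun i => ((z - Pi.single i 1, i) : Ed d)) := by
    intro e he
    have h1 := (Finset.mem_filter.1 he).2
    rw [Finset.mem_union, Finset.mem_image, Finset.mem_image]
    unfold endA at h1
    split_ifs at h1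
    · left
      exact ⟨e.2, Finset.mem_univ _, by rw [← h1]⟩
    · right
      refine ⟨e.2, Finset.mem_univ _, ?_⟩
      rw [← h1]
      unfold tgt
      rw [add_sub_cancel_right]
  refine (Finset.card_le_card hsub).trans ((Finset.card_union_le _ _).trans ?_)
  have h1 := Finset.card_image_le (s := (Finset.univ : Finset (Fin d)))
    (f := fun i => ((z, i) : Ed d))
  have h2 := Finset.card_image_le (s := (Finset.univ : Finset (Fin d)))
    (f := fun i => ((z - Pi.single i 1, i) : Ed d))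
  rw [Finset.card_univ, Fintype.card_fin] at h1 h2
  omega

end PED_

open PED_ in
open Classical in
theorem p_PED (h_BDB : T_BDB) (h_ACN : T_ACN) (h_CTW : T_CTW) (h_LWE : T_LWE) (h_LWI : T_LWI)
    (h_SPB : T_SPB) : T_PED := by
  intro d b hd ω hfin hv
  obtain ⟨v, hv, iv, hiv⟩ := hv
  have h0C : (0 : Vx d) ∈ C0 ω := Con_refl _ _
  have hfar : ∀ x ∈ C0 ω, ∃ z ∈ C0 ω, ∃ i, (b : ℤ) ≤ |z i - x i| := by
    intro x _
    by_cases h : (b : ℤ) ≤ |x iv|
    · refine ⟨0, h0C, iv, ?_⟩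
      rw [Pi.zero_apply, zero_sub, abs_neg]
      exact h
    · refine ⟨v, hv, iv, ?_⟩
      have h2 := abs_sub_abs_le_abs_sub (v iv) (x iv)
      linarith [not_le.1 h]
  obtain ⟨A, hA, h0A, hcA, hcard, hcov⟩ := h_ACN d b ω hfin
  obtain ⟨P, hPc, hPe, hEx⟩ := h_CTW d hd A h0A hcA
  have hAm : ∀ z : Vx d, z ∈ A ↔ z ∈ Tch b (C0 ω) := by
    intro z
    rw [← hA]
    exact Finset.mem_coe.symm
  have hbad : ∀ z ∈ P.image (endA A), ¬ GB (cfg ω) (cc b z) b := by
    intro z hz
    obtain ⟨e, he, rfl⟩ := Finset.mem_image.1 hz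
    rcases hPe e he with ⟨h1, h2⟩ | ⟨h1, h2⟩
    · have h3 : endA A e = e.1 := by
        unfold endA
        rw [if_pos h1]
      rw [h3]
      refine h_BDB d b ω hfar e.1 ((hAm _).1 h1) (tgt e) (fun h => h2 ((hAm _).2 h)) ?_
      unfold tgt
      rw [add_sub_cancel_left]
      exact single_bx e.2
    · have h3 : endA A e = tgt e := by
        unfold endA
        rw [if_neg h2]
      rw [h3]
      refine h_BDB d b ω hfar (tgt e) ((hAm _).1 h1) e.1 (fun h => h2 ((hAm _).2 h)) ?_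
      have h4 : e.1 - tgt e = -(Pi.single e.2 1) := by
        unfold tgt
        abel
      rw [h4]
      exact neg_single_bx e.2
  obtain ⟨D, hD, hSp, hDc⟩ := h_SPB d (P.image (endA A))
  have hkD : P.card ≤ 2 * d * 9 ^ d * D.card := by
    refine (card_endA A P).trans ?_
    rw [mul_assoc (2 * d) (9 ^ d) D.card]
    exact Nat.mul_le_mul_left _ hDc
  have hlwe : ∀ z ∈ A, ∀ i, |z i| < (P.card : ℤ) := by
    intro z hz i
    have h1 := h_LWE d hd A P hcA hEx 0 h0A z hz i
    rw [Pi.zero_apply, zero_sub, abs_neg] at h1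
    exact h1
  have hd0 : 0 < d := by omega
  obtain ⟨s, hs⟩ := hEx 0 h0A ⟨0, hd0⟩
  rw [zero_add] at hs
  have hsk : s < P.card := by
    rcases hPe _ hs with ⟨h1, _⟩ | ⟨h1, _⟩
    · have h3 : |(Pi.single (⟨0, hd0⟩ : Fin d) (s : ℤ) : Vx d) ⟨0, hd0⟩| <
          (P.card : ℤ) := hlwe _ h1 ⟨0, hd0⟩
      rw [Pi.single_eq_same, abs_of_nonneg (Int.natCast_nonneg s)] at h3
      exact_mod_cast h3
    · have h3 : |((Pi.single (⟨0, hd0⟩ : Fin d) (s : ℤ) : Vx d) +
          (Pi.single (⟨0, hd0⟩ : Fin d) (1 : ℤ) : Vx d)) ⟨0, hd0⟩| < (P.card : ℤ) :=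
        hlwe _ h1 ⟨0, hd0⟩
      rw [Pi.add_apply, Pi.single_eq_same, Pi.single_eq_same, abs_of_nonneg (by positivity)] at h3
      omega
  refine ⟨P.card, ⟨P, s, ⟨0, hd0⟩, D, rfl, rfl, hsk, hs, fun e he => hPc _ hs e he, ?_, hSp,
    hkD, fun z hz => hbad z (hD hz)⟩, ?_, ?_⟩
  · intro z hz
    obtain ⟨e, he, rfl⟩ := Finset.mem_image.1 (hD hz)
    refine ⟨e, he, ?_⟩
    unfold endA
    split_ifs
    · exact Or.inl rfl
    · exact Or.inr rfl
  · intro w hw i
    obtain ⟨z, hz, hwz⟩ := hcov w hw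
    have h1 := hlwe z hz i
    have h2 : |w i - (2 * (b : ℤ) + 1) * z i| ≤ b := by
      rw [bx, Finset.mem_Icc, Pi.le_def, Pi.le_def] at hwz
      have h3 := hwz.1 i
      have h4 := hwz.2 i
      simp only [cc] at h3 h4
      rw [abs_le]
      constructor <;> linarith
    have h3 : |w i| ≤ |(2 * (b : ℤ) + 1) * z i| + b := by
      have h4 := abs_add_le (w i - (2 * (b : ℤ) + 1) * z i) ((2 * (b : ℤ) + 1) * z i)
      rw [sub_add_cancel] at h4
      linarith
    have h5 : (0 : ℤ) ≤ b := Int.natCast_nonneg b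
    rw [abs_mul, abs_of_nonneg (by linarith : (0 : ℤ) ≤ 2 * (b : ℤ) + 1)] at h3
    have h6 : |z i| ≤ (P.card : ℤ) - 1 := by omega
    have h7 := mul_le_mul_of_nonneg_left h6 (by linarith : (0 : ℤ) ≤ 2 * (b : ℤ) + 1)
    have h8 : (2 * (b : ℤ) + 1) * ((P.card : ℤ) - 1) =
      (2 * (b : ℤ) + 1) * (P.card : ℤ) - (2 * (b : ℤ) + 1) := by ring
    linarith
  · refine (Nat.pow_le_pow_left hcard (d - 1)).trans ?_
    rw [mul_pow]
    exact Nat.mul_le_mul_left _ (h_LWI d hd A P hEx)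

end Pool.Agent.FKP
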