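import Pool.Agent.FKP.PartB
import Pool.Agent.FKP.Lem

/-!
# Project FKP: the Peierls sum (PEI)
-/

set_option autoImplicit false

namespace Pool.Agent.FKP

open Filter MeasureTheory Pool.Agent.FKT

namespace PEI_

/-- The polynomial factor against the exponential. -/
theorem num1 (j : ℕ) : (2 * ((j : ℝ) + 1) ^ 2 + 3) ^ 2 ≤ 25 * 8 ^ j := by
  induction j with
  | zero => norm_num
  | succ j ih =>
    have h1 : (2 * (((j + 1 : ℕ) : ℝ) + 1) ^ 2 + 3) ^ 2 ≤ 8 * (2 * ((j : ℝ) + 1) ^ 2 + 3) ^ 2 := by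
      have h2 : 8 * (2 * ((j : ℝ) + 1) ^ 2 + 3) ^ 2 - (2 * (((j + 1 : ℕ) : ℝ) + 1) ^ 2 + 3) ^ 2 =
          28 * (j : ℝ) ^ 4 + 96 * (j : ℝ) ^ 3 + 180 * (j : ℝ) ^ 2 + 144 * j + 79 := by
        push_cast
        ring
      have h3 : 0 ≤ 28 * (j : ℝ) ^ 4 + 96 * (j : ℝ) ^ 3 + 180 * (j : ℝ) ^ 2 + 144 * j + 79 := by
        positivity
      linarith
    rw [pow_succ (8 : ℝ) j]
    linarith

theorem num2 (j : ℕ) :
    (2 * ((2 * (((j : ℝ) + 1) ^ 2 + 1) + 1) ^ 2 * 2) * 16 ^ (2 * (j + 1))) *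
      (2 ^ (j + 1) * (2 * (1 / 2 ^ 20) ^ (j + 1))) ≤ (1 / 10) * (1 / 256) ^ j := by
  have h1 := num1 j
  have h2 : (2 * (((j : ℝ) + 1) ^ 2 + 1) + 1) = (2 * ((j : ℝ) + 1) ^ 2 + 3) := by ring
  rw [h2]
  have h3 : (2 * ((2 * ((j : ℝ) + 1) ^ 2 + 3) ^ 2 * 2) * 16 ^ (2 * (j + 1))) *
      (2 ^ (j + 1) * (2 * (1 / 2 ^ 20) ^ (j + 1))) =
      8 * (2 * ((j : ℝ) + 1) ^ 2 + 3) ^ 2 * (1 / 2048) ^ (j + 1) := by
    have h4 : (16 : ℝ) ^ (2 * (j + 1)) * 2 ^ (j + 1) * (1 / 2 ^ 20) ^ (j + 1) =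
        (1 / 2048) ^ (j + 1) := by
      rw [pow_mul, ← mul_pow, ← mul_pow]
      norm_num
    rw [← h4]
    ring
  rw [h3]
  have h5 : 8 * (2 * ((j : ℝ) + 1) ^ 2 + 3) ^ 2 * (1 / 2048) ^ (j + 1) ≤
      8 * (25 * 8 ^ j) * (1 / 2048) ^ (j + 1) := by
    gcongr
  refine h5.trans ?_
  have h6 : 8 * (25 * (8 : ℝ) ^ j) * (1 / 2048) ^ (j + 1) = (200 / 2048) * (1 / 256) ^ j := by
    rw [pow_succ]
    have h7 : (8 : ℝ) ^ j * (1 / 2048) ^ j = (1 / 256) ^ j := by
      rw [← mul_pow]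
      norm_num
    rw [← h7]
    ring
  rw [h6]
  exact mul_le_mul_of_nonneg_right (by norm_num) (by positivity)

theorem num3 (N : ℕ) : ∑ j ∈ Finset.range N, (1 / 10 : ℝ) * (1 / 256) ^ j ≤ 1 / 8 := by
  rw [← Finset.mul_sum, geom_sum_eq (by norm_num)]
  have h1 : (0 : ℝ) ≤ (1 / 256) ^ N := by positivity
  have h2 : ((1 / 256 : ℝ) ^ N - 1) / (1 / 256 - 1) = (256 / 255) * (1 - (1 / 256) ^ N) := by
    field_simp
    ring
  rw [h2]
  linarith

theorem exp_bound {x0 a2 : ℝ} (h : 200 ≤ a2 * x0) : Real.exp (-(a2 * x0)) ≤ 1 / 8 := by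
  have h1 : Real.exp (-(a2 * x0)) ≤ Real.exp (-200) := Real.exp_le_exp.mpr (by linarith)
  have h2 : (201 : ℝ) ≤ Real.exp 200 := by
    have := Real.add_one_le_exp (200 : ℝ)
    linarith
  have h3 : Real.exp (-200) ≤ 1 / 8 := by
    rw [Real.exp_neg, ← one_div]
    exact one_div_le_one_div_of_le (by norm_num) (by linarith)
  exact h1.trans h3

theorem card_near (z : Vx 2) (n : ℕ) :
    (bx z n ×ˢ (Finset.univ : Finset (Fin 2))).card = (2 * n + 1) ^ 2 * 2 := by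
  rw [Finset.card_product, Finset.card_univ, Fintype.card_fin]
  congr 1
  unfold bx
  rw [Pi.card_Icc, Fin.prod_univ_two, Int.card_Icc, Int.card_Icc]
  have h : ∀ c : ℤ, (c + (n : ℤ) + 1 - (c - n)).toNat = 2 * n + 1 := by
    intro c
    omega
  rw [h, h]
  ring

theorem bx_sub {d : ℕ} (v : Vx d) {r N : ℕ} (h : r ≤ N) : bx v r ⊆ bx v N := by
  have h' : (r : ℤ) ≤ N := by exact_mod_cast h
  unfold bx
  apply Finset.Icc_subset_Icc
  · intro i
    simp only
    linarith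
  · intro i
    simp only
    linarith

/-- The admissible contours. -/
def Good (z0 z1 : Vx 2) (P : Finset (Ed 2)) : Prop :=
  (∃ e ∈ P, ∃ z, (z = z0 ∨ z = z1) ∧ ∀ i, |e.1 i - z i| ≤ (P.card : ℤ) ^ 2 + 1) ∧
    ∀ e ∈ P, ∀ e' ∈ P, Relation.ReflTransGen (fun x y => x ∈ P ∧ y ∈ P ∧ Sq x y) e e'

open Classical in
/-- The number of the contours with `n` edges. -/
theorem count (h_PLQ : T_PLQ) (z0 z1 : Vx 2) (G : Finset (Finset (Ed 2)))
    (hG : ∀ P ∈ G, Good z0 z1 P) (n : ℕ) :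
    (G.filter fun P => P.card = n).card ≤
      2 * ((2 * (n ^ 2 + 1) + 1) ^ 2 * 2) * 16 ^ (2 * n) := by
  have hf : ∀ e : Ed 2, {P : Finset (Ed 2) | e ∈ P ∧ P.card = n ∧
      ∀ e' ∈ P, Relation.ReflTransGen (fun x y => x ∈ P ∧ y ∈ P ∧ Sq x y) e e'}.Finite :=
    fun e => (h_PLQ 2 (by norm_num) e n).1
  have hsub : (G.filter fun P => P.card = n) ⊆
      ({z0, z1} : Finset (Vx 2)).biUnion fun z =>
        (bx z (n ^ 2 + 1) ×ˢ (Finset.univ : Finset (Fin 2))).biUnion fun e =>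
          (hf e).toFinset := by
    intro P hP
    rw [Finset.mem_filter] at hP
    obtain ⟨hPG, hPn⟩ := hP
    obtain ⟨⟨e, he, z, hz, hd⟩, hc⟩ := hG P hPG
    rw [Finset.mem_biUnion]
    refine ⟨z, by simpa using hz, ?_⟩
    rw [Finset.mem_biUnion]
    refine ⟨e, ?_, ?_⟩
    · rw [Finset.mem_product]
      refine ⟨?_, Finset.mem_univ _⟩
      unfold bx
      rw [Finset.mem_Icc]
      rw [hPn] at hd
      constructor
      · intro i
        have := abs_le.mp (hd i)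
        push_cast
        linarith
      · intro i
        have := abs_le.mp (hd i)
        push_cast
        linarith
    · rw [Set.Finite.mem_toFinset]
      exact ⟨he, hPn, hc e he⟩
  refine (Finset.card_le_card hsub).trans ?_
  have h1 : ∀ e : Ed 2, (hf e).toFinset.card ≤ 16 ^ (2 * n) := by
    intro e
    rw [← Set.ncard_eq_toFinset_card _ (hf e)]
    exact (h_PLQ 2 (by norm_num) e n).2
  refine (Finset.card_biUnion_le_card_mul _ _
    ((2 * (n ^ 2 + 1) + 1) ^ 2 * 2 * 16 ^ (2 * n)) ?_).trans ?_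
  · intro z _
    refine (Finset.card_biUnion_le_card_mul _ _ (16 ^ (2 * n)) fun e _ => h1 e).trans ?_
    rw [card_near]
  · have h2 : ({z0, z1} : Finset (Vx 2)).card ≤ 2 := Finset.card_le_two
    calc ({z0, z1} : Finset (Vx 2)).card * ((2 * (n ^ 2 + 1) + 1) ^ 2 * 2 * 16 ^ (2 * n))
        ≤ 2 * ((2 * (n ^ 2 + 1) + 1) ^ 2 * 2 * 16 ^ (2 * n)) := Nat.mul_le_mul_right _ h2
      _ = 2 * ((2 * (n ^ 2 + 1) + 1) ^ 2 * 2) * 16 ^ (2 * n) := by ring

open Classical in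
/-- The Peierls sum. -/
theorem peierls (h_PLQ : T_PLQ) (z0 z1 : Vx 2) (K : Finset (Ed 2)) :
    ∑ P ∈ K.powerset.filter (Good z0 z1), (2 : ℝ) ^ P.card * (2 * (1 / 2 ^ 20) ^ P.card) ≤
      1 / 8 := by
  set G := K.powerset.filter (Good z0 z1) with hGdef
  have hpos : ∀ P ∈ G, 1 ≤ P.card := by
    intro P hP
    obtain ⟨⟨e, he, _⟩, _⟩ := (Finset.mem_filter.mp hP).2
    exact Finset.card_pos.mpr ⟨e, he⟩
  have hmap : ∀ P ∈ G, P.card - 1 ∈ Finset.range K.card := by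
    intro P hP
    have h1 := Finset.card_le_card (Finset.mem_powerset.mp (Finset.mem_filter.mp hP).1)
    have h2 := hpos P hP
    rw [Finset.mem_range]
    omega
  rw [← Finset.sum_fiberwise_of_maps_to hmap]
  refine (Finset.sum_le_sum fun j _ => ?_).trans (num3 K.card)
  have h3 : ∑ P ∈ G.filter (fun P => P.card - 1 = j), (2 : ℝ) ^ P.card *
      (2 * (1 / 2 ^ 20) ^ P.card) =
      ∑ P ∈ G.filter (fun P => P.card = j + 1),
        (2 : ℝ) ^ (j + 1) * (2 * (1 / 2 ^ 20) ^ (j + 1)) := by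
    have h4 : G.filter (fun P => P.card - 1 = j) = G.filter (fun P => P.card = j + 1) := by
      apply Finset.filter_congr
      intro P hP
      have := hpos P hP
      omega
    rw [h4]
    refine Finset.sum_congr rfl fun P hP => ?_
    rw [(Finset.mem_filter.mp hP).2]
  rw [h3, Finset.sum_const, nsmul_eq_mul]
  have h5 := count h_PLQ z0 z1 G (fun P hP => (Finset.mem_filter.mp hP).2) (j + 1)
  have h6 : ((G.filter fun P => P.card = j + 1).card : ℝ) ≤
      2 * ((2 * (((j : ℝ) + 1) ^ 2 + 1) + 1) ^ 2 * 2) * 16 ^ (2 * (j + 1)) := by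
    exact_mod_cast h5
  refine le_trans (mul_le_mul_of_nonneg_right h6 (by positivity)) (num2 j)

end PEI_

open Classical PEI_ in
theorem p_PEI (h_BAD : T_BAD) (h_CON : T_CON) (h_PLQ : T_PLQ) (h_PRB : T_PRB) : T_PEI := by
  intro k p q S s r ρ a l H N m b x0 x1 hC z0 hz0 z1 hz1
  have hp := hC.hp
  have hp1 := hC.hp1
  have hq := hC.hq
  have hq0 : 0 < q := by linarith
  set f1 : Finset (Ed (k + 3)) → ℝ := fun ω =>
    ind (∃ v ∈ cand k ρ a z0, ∃ v' ∈ cand k ρ a z1, Cf ω v v') with hf1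
  set f2 : Finset (Ed (k + 3)) → ℝ := fun ω =>
    ind (∀ z ∈ ({z0} : Finset (Vx 2)), ¬ Gd k ρ a s ω z) with hf2
  set G := (es (cbx m)).powerset.filter (Good z0 z1) with hG
  set f3 : Finset (Ed (k + 3)) → ℝ := fun ω =>
    ∑ P ∈ G, ∑ O ∈ P.powerset, ind (Evp k ρ a s P O ω) with hf3
  -- the deterministic inequality
  have hdet : ∀ ω : Finset (Ed (k + 3)), (1 : ℝ) ≤ (f1 ω + f2 ω) + f3 ω := by
    intro ω
    have h3 : 0 ≤ f3 ω := Finset.sum_nonneg fun P _ => Finset.sum_nonneg fun O _ => ind_nonneg _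
    have h1 : 0 ≤ f1 ω := ind_nonneg _
    have h2 : 0 ≤ f2 ω := ind_nonneg _
    by_cases hc : ∃ v ∈ cand k ρ a z0, ∃ v' ∈ cand k ρ a z1, Cf ω v v'
    · have : f1 ω = 1 := ind_true hc
      linarith
    by_cases hg : Gd k ρ a s ω z0
    · obtain ⟨P, O, hOP, hP, hE, hN, hS⟩ := h_CON k ρ a s m ω z0 z1 hz0 hz1 hg hc
      have hPG : P ∈ G := Finset.mem_filter.mpr ⟨Finset.mem_powerset.mpr hP, hN, hS⟩
      have h4 : ind (Evp k ρ a s P O ω) ≤ f3 ω := by
        have h5 : ind (Evp k ρ a s P O ω) ≤ ∑ O ∈ P.powerset, ind (Evp k ρ a s P O ω) :=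
          Finset.single_le_sum (f := fun O => ind (Evp k ρ a s P O ω))
            (fun O _ => ind_nonneg _) (Finset.mem_powerset.mpr hOP)
        refine h5.trans ?_
        exact Finset.single_le_sum (f := fun P => ∑ O ∈ P.powerset, ind (Evp k ρ a s P O ω))
          (fun P _ => Finset.sum_nonneg fun O _ => ind_nonneg _) hPG
      rw [ind_true hE] at h4
      linarith
    · have : f2 ω = 1 := by
        refine ind_true ?_
        intro z hz
        rw [Finset.mem_singleton.mp hz]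
        exact hg
      linarith
  -- the expectation
  have hex : (1 : ℝ) ≤ (fr S p q f1 + fr S p q f2) + fr S p q f3 := by
    have h1 : (1 : ℝ) = fr S p q fun _ => 1 := (Ex_const hp hp1 hq0 1).symm
    have h2 : fr S p q (fun ω => (f1 ω + f2 ω) + f3 ω) =
        (fr S p q f1 + fr S p q f2) + fr S p q f3 := by
      unfold fr fw
      rw [Ex_add (fun ω => f1 ω + f2 ω) f3, Ex_add]
    rw [← h2]
    conv_lhs => rw [h1]
    exact Ex_mono hp hp1 hq0 fun ω _ => hdet ω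
  -- the bad cell
  have hx1 : x0 ≤ 1 := hC.low.trans (Ex_le_one hp hp1 hq0 fun ω _ => ind_le_one _)
  have hbad : fr S p q f2 ≤ 1 / 8 := by
    have h1 := h_BAD k q p hq hp hp1 s r ρ a hC.hr hC.hρ S {z0} x0
      (fun z hz v hv => (bx_sub v hC.hrN).trans
        (hC.fit z (by rw [Finset.mem_singleton.mp hz]; exact hz0) v hv)) hC.low
    rw [Finset.card_singleton, mul_one] at h1
    refine h1.trans ?_
    have h2 : (1 - x0) ^ (a ^ 2) ≤ (Real.exp (-x0)) ^ (a ^ 2) := by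
      refine pow_le_pow_left₀ (by linarith) ?_ _
      have := Real.add_one_le_exp (-x0)
      linarith
    refine h2.trans ?_
    rw [← Real.exp_nat_mul]
    have h3 : ((a ^ 2 : ℕ) : ℝ) * -x0 = -((a : ℝ) ^ 2 * x0) := by
      push_cast
      ring
    rw [h3]
    exact exp_bound hC.n0
  -- the contours
  have hcon : fr S p q f3 ≤ 1 / 8 := by
    have h1 : fr S p q f3 = ∑ P ∈ G, ∑ O ∈ P.powerset,
        fr S p q fun ω => ind (Evp k ρ a s P O ω) := by
      unfold fr fw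
      rw [hf3, Ex_sum]
      refine Finset.sum_congr rfl fun P _ => ?_
      rw [Ex_sum]
    rw [h1]
    refine le_trans (Finset.sum_le_sum fun P hP => ?_) (peierls h_PLQ z0 z1 (es (cbx m)))
    have hPs : P ⊆ es (cbx m) := Finset.mem_powerset.mp (Finset.mem_filter.mp hP).1
    refine (Finset.sum_le_sum fun O _ =>
      h_PRB k p q S s r ρ a l H N m b x0 x1 hC P O hPs).trans ?_
    rw [Finset.sum_const, Finset.card_powerset, nsmul_eq_mul]
    push_cast
    exact le_rfl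
  show 1 / 2 ≤ fr S p q f1
  linarith

end Pool.Agent.FKP
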