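import Pool.Agent.FKP.PartE
import Pool.Agent.FKP.Lem

/-!
# Project FKP: the case `p = 0` (target PI0)
-/

set_option autoImplicit false

namespace Pool.Agent.FKP

open Filter MeasureTheory Pool.Agent.FKT

namespace PI0_

variable {d : ℕ}

/-- Without open edges only equal points are connected. -/
theorem cf_empty {a b : Vx d} (h : Cf (∅ : Finset (Ed d)) a b) : a = b := by
  unfold Cf Cn FKT.Con at h
  induction h with
  | rel x y hxy =>
    rcases hxy with h | ⟨e, he, _⟩
    · exact absurd h id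
    · simp at he
  | refl x => rfl
  | symm x y _ ih => exact ih.symm
  | trans x y z _ _ ih1 ih2 => exact ih1.trans ih2

theorem tp_zero (S : Finset (Vx d)) (q : ℝ) {x : Vx d} (hx : (0 : Vx d) ≠ x) :
    tp S 0 q 0 x = 0 := by
  unfold tp fr fw Ex
  have h : ∑ ω ∈ (es S).powerset, wt Prod.fst tgt (no (Vx d)) S (es S) 0 q ω *
      ind (Cf ω 0 x) = 0 := by
    apply Finset.sum_eq_zero
    intro ω _
    by_cases hω : ω = ∅
    · subst hω
      rw [ind_false (fun h => hx (cf_empty h)), mul_zero]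
    · have h1 : bw 0 (es S) ω = 0 := by
        unfold bw
        have h2 : ω.card ≠ 0 := fun h3 => hω (Finset.card_eq_zero.mp h3)
        rw [zero_pow h2, zero_mul]
      unfold wt
      rw [h1, zero_mul, zero_mul]
  rw [h, zero_div]

end PI0_

open PI0_ in
theorem p_PI0 : T_PI0 := by
  intro d q L hd hq hL hP
  obtain ⟨α, hα, h⟩ := hP
  have h1 : 1 < d := by omega
  let x : Vx d := fun l => if (l : ℕ) = 1 then 1 else 0
  have hx0 : (0 : Vx d) ≠ x := by
    intro h2
    have h3 := congrFun h2 (⟨1, h1⟩ : Fin d)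
    simp [x] at h3
  have hxm : x ∈ SLn d L 1 := by
    unfold SLn
    rw [Finset.mem_Icc, Pi.le_def, Pi.le_def]
    refine ⟨fun l => ?_, fun l => ?_⟩
    · change (if (l : ℕ) = 0 then (0 : ℤ) else -((1 : ℕ) : ℤ)) ≤
        (if (l : ℕ) = 1 then (1 : ℤ) else 0)
      split_ifs <;> simp
    · change (if (l : ℕ) = 1 then (1 : ℤ) else 0) ≤
        (if (l : ℕ) = 0 then (L : ℤ) - 1 else ((1 : ℕ) : ℤ))
      have hL' : (1 : ℤ) ≤ L := by exact_mod_cast hL
      split_ifs with h4 h5 h6
      · omega
      · simp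
      · omega
      · simp
  have h5 := h 1 x hxm
  rw [tp_zero _ q hx0] at h5
  linarith

end Pool.Agent.FKP
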