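import Pool.Agent.FKP.PartE
import Pool.Agent.FKP.Lem

set_option autoImplicit false

/-!
# Project FKP: the case `p = 1`
-/

namespace Pool.Agent.FKP

open Filter MeasureTheory Pool.Agent.FKT

namespace PI1_

theorem wt_one {V E : Type} [DecidableEq V] [DecidableEq E] {s t : E → V}
    {R : V → V → Prop} {U : Finset V} {G : Finset E} {q : ℝ} {ω : Finset E} (hω : ω ⊆ G)
    (hne : ω ≠ G) : wt s t R U G 1 q ω = 0 := by
  have hlt : ω.card < G.card := Finset.card_lt_card (Finset.ssubset_iff_subset_ne.mpr ⟨hω, hne⟩)
  have h0 : G.card - ω.card ≠ 0 := by omega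
  unfold wt bw
  rw [sub_self, zero_pow h0]
  ring

theorem Ex_one {V E : Type} [DecidableEq V] [DecidableEq E] {s t : E → V}
    {R : V → V → Prop} {U : Finset V} {G : Finset E} {q : ℝ} (hq : 0 < q)
    (f : Finset E → ℝ) : Ex s t R U G 1 q f = f G := by
  have hG : G ∈ G.powerset := Finset.mem_powerset_self G
  have hw : wt s t R U G 1 q G = q ^ ncl s t R U (G : Set E) := by
    unfold wt bw
    rw [Nat.sub_self, pow_zero, one_pow]
    ring
  have hpos : 0 < wt s t R U G 1 q G := by
    rw [hw]
    exact pow_pos hq _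
  unfold Ex
  rw [Finset.sum_eq_single_of_mem G hG (fun ω hω hne => by
      rw [wt_one (Finset.mem_powerset.mp hω) hne, zero_mul]),
    Finset.sum_eq_single_of_mem G hG (fun ω hω hne => wt_one (Finset.mem_powerset.mp hω) hne)]
  rw [mul_comm, mul_div_assoc, div_self hpos.ne', mul_one]

theorem ev_bx {d : ℕ} (x : Vx d) : ∀ᶠ n : ℕ in atTop, x ∈ bx (0 : Vx d) n := by
  have h : ∀ᶠ n : ℕ in atTop, ∀ i, (x i).natAbs ≤ n :=
    eventually_all.mpr fun i => eventually_ge_atTop _
  filter_upwards [h] with n hn
  unfold bx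
  rw [Finset.mem_Icc, Pi.le_def, Pi.le_def]
  constructor
  · intro i
    have := hn i
    simp only [Pi.zero_apply]
    omega
  · intro i
    have := hn i
    simp only [Pi.zero_apply]
    omega

theorem ev_eb {d : ℕ} (F : Finset (Ed d)) : ∀ᶠ n : ℕ in atTop, F ⊆ eb (0 : Vx d) n := by
  have h : ∀ᶠ n : ℕ in atTop, ∀ e ∈ F, e ∈ eb (0 : Vx d) n := by
    rw [Finset.eventually_all]
    intro e _
    filter_upwards [ev_bx e.1, ev_bx (tgt e)] with n h1 h2
    rw [← es_bx, mem_es]
    exact ⟨h1, h2⟩
  filter_upwards [h] with n hn e he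
  exact hn e he

end PI1_

theorem p_PI1 (h_BCN : T_BCN) : T_PI1 := by
  intro d q hd hq
  constructor
  · intro L
    refine ⟨1 / 2, by norm_num, ?_⟩
    intro n x hx
    have hL : (1 : ℤ) ≤ L := by
      have h := hx
      unfold SLn at h
      rw [Finset.mem_Icc, Pi.le_def, Pi.le_def] at h
      have h1 := h.1 ⟨0, by omega⟩
      have h2 := h.2 ⟨0, by omega⟩
      simp only [if_true] at h1 h2
      omega
    have h0 : (0 : Vx d) ∈ SLn d L n := by
      unfold SLn
      rw [Finset.mem_Icc, Pi.le_def, Pi.le_def]
      constructor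
      · intro i
        simp only [Pi.zero_apply]
        split_ifs <;> omega
      · intro i
        simp only [Pi.zero_apply]
        split_ifs <;> omega
    have hc : Cf (es (SLn d L n)) 0 x := h_BCN d _ _ 0 h0 x hx
    unfold tp fr fw
    rw [PI1_.Ex_one hq, ind_true hc]
    norm_num
  · refine ⟨Measure.dirac (fun _ => true), ⟨by infer_instance, ?_⟩⟩
    intro F T hTF
    have hval : (Measure.dirac (fun _ : Ed d => true)).real (Cyl F T) =
        if F = T then (1 : ℝ) else 0 := by
      rw [measureReal_def, Measure.dirac_apply]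
      by_cases hFT : F = T
      · have hmem : (fun _ : Ed d => true) ∈ Cyl F T := by
          intro e he
          simp [← hFT, he]
        rw [Set.indicator_of_mem hmem, if_pos hFT]
        simp
      · have hmem : (fun _ : Ed d => true) ∉ Cyl F T := by
          intro h
          apply hFT
          apply Finset.Subset.antisymm _ hTF
          intro e he
          exact (h e he).mp rfl
        rw [Set.indicator_of_notMem hmem, if_neg hFT]
        simp
    rw [hval]
    refine Tendsto.congr' ?_ tendsto_const_nhds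
    filter_upwards [PI1_.ev_eb F] with n hn
    unfold phi
    rw [PI1_.Ex_one hq, Finset.inter_eq_right.mpr hn]

end Pool.Agent.FKP
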