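import Pool.Agent.FKP.Basic
import Pool.Agent.FKP.Lem

/-!
# Project FKP, PLQ: the number of edge sets connected through unit squares
-/

set_option autoImplicit false

namespace Pool.Agent.FKP

open Pool.Agent.FKT

namespace PLQ_

variable {n : ℕ}

/-- The four edges of a unit square. -/
noncomputable def sqF (x : Vx n) (i j : Fin n) : Finset (Ed n) :=
  {(x, i), (x, j), (x + Pi.single j 1, i), (x + Pi.single i 1, j)}

theorem mem_sqF {x : Vx n} {i j : Fin n} {e : Ed n} : e ∈ sqF x i j ↔ InSq x i j e := by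
  simp [sqF, InSq]

theorem card_sqF (x : Vx n) (i j : Fin n) : (sqF x i j).card ≤ 4 := Finset.card_le_four

theorem InSq_swap {x : Vx n} {i j : Fin n} {e : Ed n} (h : InSq x i j e) : InSq x j i e := by
  rcases h with h | h | h | h
  · exact Or.inr (Or.inl h)
  · exact Or.inl h
  · exact Or.inr (Or.inr (Or.inr h))
  · exact Or.inr (Or.inr (Or.inl h))

theorem Sq_symm {e e' : Ed n} (h : Sq e e') : Sq e' e := by
  obtain ⟨x, i, j, hij, h1, h2⟩ := h
  exact ⟨x, i, j, hij, h2, h1⟩

/-- All edges of the squares with the edge `e`. -/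
noncomputable def big (e : Ed n) : Finset (Ed n) :=
  Finset.univ.biUnion fun j => sqF e.1 e.2 j ∪ sqF (e.1 - Pi.single j 1) e.2 j

theorem mem_big {e e' : Ed n} (h : Sq e e') : e' ∈ big e := by
  obtain ⟨x, i, j, hij, h1, h2⟩ := h
  rw [big, Finset.mem_biUnion]
  rcases h1 with rfl | rfl | rfl | rfl
  · exact ⟨j, Finset.mem_univ _, Finset.mem_union_left _ (mem_sqF.mpr h2)⟩
  · exact ⟨i, Finset.mem_univ _, Finset.mem_union_left _ (mem_sqF.mpr (InSq_swap h2))⟩
  · refine ⟨j, Finset.mem_univ _, Finset.mem_union_right _ (mem_sqF.mpr ?_)⟩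
    simp only [add_sub_cancel_right]
    exact h2
  · refine ⟨i, Finset.mem_univ _, Finset.mem_union_right _ (mem_sqF.mpr ?_)⟩
    simp only [add_sub_cancel_right]
    exact InSq_swap h2

theorem card_big (e : Ed n) : (big e).card ≤ 8 * n := by
  have h1 : (big e).card ≤ ∑ _j : Fin n, 8 := by
    refine Finset.card_biUnion_le.trans (Finset.sum_le_sum fun j _ => ?_)
    refine (Finset.card_union_le _ _).trans ?_
    have h2 := card_sqF e.1 e.2 j
    have h3 := card_sqF (e.1 - Pi.single j 1) e.2 j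
    omega
  refine h1.trans ?_
  simp [mul_comm]

open Classical in
/-- The neighbours of `e`. -/
noncomputable def nb (e : Ed n) : Finset (Ed n) := (big e).filter (Sq e)

theorem mem_nb {e e' : Ed n} : e' ∈ nb e ↔ Sq e e' := by
  classical
  unfold nb
  rw [Finset.mem_filter]
  exact ⟨fun h => h.2, fun h => ⟨mem_big h, h⟩⟩

theorem card_nb (e : Ed n) : (nb e).card ≤ 8 * n := by
  classical
  unfold nb
  exact (Finset.card_filter_le _ _).trans (card_big e)

end PLQ_

/-- PLQ. The number of edge sets connected through unit squares. -/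
theorem p_PLQ (h_ANI : T_ANI) : T_PLQ := by
  intro n hn e k
  have h1 := h_ANI (Ed n) PLQ_.nb (8 * n) (by omega) PLQ_.card_nb
    (fun x y h => PLQ_.mem_nb.mpr (PLQ_.Sq_symm (PLQ_.mem_nb.mp h))) e k
  simp only [PLQ_.mem_nb] at h1
  exact h1

end Pool.Agent.FKP
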