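import Pool.Agent.FKP.PartB
import Pool.Agent.FKP.Lem

/-!
# Project FKP: PRB, the probability of a coarse contour
-/

set_option autoImplicit false

namespace Pool.Agent.FKP

open Pool.Agent.FKT

namespace PRB_

variable {k : ℕ}

/-- The event of the bad outer cells. -/
def A (k ρ a s : ℕ) (O P1 : Finset (Ed 2)) (ω : Finset (Ed (k + 3))) : Prop :=
  ∀ e ∈ P1, ¬ Gd k ρ a s ω (out O e)

/-- The event of the good outer cells. -/
def B (k ρ a s : ℕ) (O P2 : Finset (Ed 2)) (ω : Finset (Ed (k + 3))) : Prop :=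
  ∀ e ∈ P2, Gd k ρ a s ω (inn O e) ∧ Gd k ρ a s ω (out O e) ∧
    ∀ e' ∈ P2, ¬ Cf ω (Sd k ρ a s ω (inn O e)) (Sd k ρ a s ω (out O e'))

/-- The large subsets of the contour. -/
noncomputable def big (P : Finset (Ed 2)) : Finset (Finset (Ed 2)) :=
  P.powerset.filter fun P1 => P.card ≤ 2 * P1.card

theorem mem_big {P P1 : Finset (Ed 2)} : P1 ∈ big P ↔ P1 ⊆ P ∧ P.card ≤ 2 * P1.card := by
  unfold big
  rw [Finset.mem_filter, Finset.mem_powerset]

theorem card_big (P : Finset (Ed 2)) : ((big P).card : ℝ) ≤ 2 ^ P.card := by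
  have h : (big P).card ≤ P.powerset.card := Finset.card_le_card (Finset.filter_subset _ _)
  rw [Finset.card_powerset] at h
  exact_mod_cast h

theorem cover (k ρ a s : ℕ) (P O : Finset (Ed 2)) (ω : Finset (Ed (k + 3)))
    (h : Evp k ρ a s P O ω) :
    (∃ P1 ∈ big P, A k ρ a s O P1 ω) ∨ ∃ P2 ∈ big P, B k ρ a s O P2 ω := by
  classical
  set Q1 := P.filter fun e => ¬ Gd k ρ a s ω (out O e) with hQ1
  set Q2 := P.filter fun e => Gd k ρ a s ω (out O e) with hQ2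
  have hc : Q2.card + Q1.card = P.card := by
    rw [hQ1, hQ2]
    exact Finset.card_filter_add_card_filter_not _
  by_cases hb : P.card ≤ 2 * Q1.card
  · left
    refine ⟨Q1, mem_big.mpr ⟨Finset.filter_subset _ _, hb⟩, ?_⟩
    intro e he
    exact (Finset.mem_filter.mp he).2
  · right
    refine ⟨Q2, mem_big.mpr ⟨Finset.filter_subset _ _, by omega⟩, ?_⟩
    intro e he
    have he' := Finset.mem_filter.mp he
    refine ⟨(h e he'.1).1, he'.2, ?_⟩
    intro e1 he1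
    have he1' := Finset.mem_filter.mp he1
    exact (h e he'.1).2 e1 he1'.1 he1'.2

theorem ind_cover (k ρ a s : ℕ) (P O : Finset (Ed 2)) (ω : Finset (Ed (k + 3))) :
    ind (Evp k ρ a s P O ω) ≤
      ∑ P1 ∈ big P, ind (A k ρ a s O P1 ω) + ∑ P2 ∈ big P, ind (B k ρ a s O P2 ω) := by
  have h1 : 0 ≤ ∑ P1 ∈ big P, ind (A k ρ a s O P1 ω) :=
    Finset.sum_nonneg fun _ _ => ind_nonneg _
  have h2 : 0 ≤ ∑ P2 ∈ big P, ind (B k ρ a s O P2 ω) :=
    Finset.sum_nonneg fun _ _ => ind_nonneg _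
  by_cases h : Evp k ρ a s P O ω
  · rw [ind_true h]
    rcases cover k ρ a s P O ω h with ⟨P1, hP1, hA⟩ | ⟨P2, hP2, hB⟩
    · have : ind (A k ρ a s O P1 ω) ≤ ∑ P1 ∈ big P, ind (A k ρ a s O P1 ω) :=
        Finset.single_le_sum (f := fun P1 => ind (A k ρ a s O P1 ω))
          (fun _ _ => ind_nonneg _) hP1
      rw [ind_true hA] at this
      linarith
    · have : ind (B k ρ a s O P2 ω) ≤ ∑ P2 ∈ big P, ind (B k ρ a s O P2 ω) :=
        Finset.single_le_sum (f := fun P2 => ind (B k ρ a s O P2 ω))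
          (fun _ _ => ind_nonneg _) hP2
      rw [ind_true hB] at this
      linarith
  · rw [ind_false h]
    linarith

end PRB_

open PRB_ in
theorem p_PRB (h_PB1 : T_PB1) (h_PB2 : T_PB2) : T_PRB := by
  intro k p q S s r ρ a l H N m b x0 x1 hC P O hP
  have hp := hC.hp
  have hp1 := hC.hp1
  have hq : 0 < q := lt_of_lt_of_le one_pos hC.hq
  set y : ℝ := (1 / 2 ^ 21 : ℝ) ^ P.card with hy
  have hy0 : 0 ≤ y := by rw [hy]; positivity
  have hA : ∀ P1 ∈ big P, fr S p q (fun ω => ind (A k ρ a s O P1 ω)) ≤ y := by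
    intro P1 h1
    obtain ⟨h1, h2⟩ := mem_big.mp h1
    exact h_PB1 k p q S s r ρ a l H N m b x0 x1 hC P O P1 hP h1 h2
  have hB : ∀ P2 ∈ big P, fr S p q (fun ω => ind (B k ρ a s O P2 ω)) ≤ y := by
    intro P2 h1
    obtain ⟨h1, h2⟩ := mem_big.mp h1
    exact h_PB2 k p q S s r ρ a l H N m b x0 x1 hC O P2 P.card (h1.trans hP) h2
  have h1 : fr S p q (fun ω => ind (Evp k ρ a s P O ω)) ≤
      fr S p q (fun ω => ∑ P1 ∈ big P, ind (A k ρ a s O P1 ω) +
        ∑ P2 ∈ big P, ind (B k ρ a s O P2 ω)) := by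
    unfold fr fw
    exact Ex_mono hp hp1 hq fun ω _ => ind_cover k ρ a s P O ω
  have h2 : fr S p q (fun ω => ∑ P1 ∈ big P, ind (A k ρ a s O P1 ω) +
        ∑ P2 ∈ big P, ind (B k ρ a s O P2 ω)) =
      ∑ P1 ∈ big P, fr S p q (fun ω => ind (A k ρ a s O P1 ω)) +
        ∑ P2 ∈ big P, fr S p q (fun ω => ind (B k ρ a s O P2 ω)) := by
    unfold fr fw
    rw [Ex_add, Ex_sum, Ex_sum]
  have h3 : ∑ P1 ∈ big P, fr S p q (fun ω => ind (A k ρ a s O P1 ω)) ≤ 2 ^ P.card * y := by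
    calc ∑ P1 ∈ big P, fr S p q (fun ω => ind (A k ρ a s O P1 ω))
        ≤ ∑ _P1 ∈ big P, y := Finset.sum_le_sum hA
      _ = ((big P).card : ℝ) * y := by rw [Finset.sum_const, nsmul_eq_mul]
      _ ≤ 2 ^ P.card * y := mul_le_mul_of_nonneg_right (card_big P) hy0
  have h4 : ∑ P2 ∈ big P, fr S p q (fun ω => ind (B k ρ a s O P2 ω)) ≤ 2 ^ P.card * y := by
    calc ∑ P2 ∈ big P, fr S p q (fun ω => ind (B k ρ a s O P2 ω))
        ≤ ∑ _P2 ∈ big P, y := Finset.sum_le_sum hB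
      _ = ((big P).card : ℝ) * y := by rw [Finset.sum_const, nsmul_eq_mul]
      _ ≤ 2 ^ P.card * y := mul_le_mul_of_nonneg_right (card_big P) hy0
  have h5 : (2 : ℝ) ^ P.card * y = (1 / 2 ^ 20 : ℝ) ^ P.card := by
    rw [hy, ← mul_pow]
    congr 1
    norm_num
  rw [h5] at h3 h4
  linarith [h1, h2.le, h3, h4]

end Pool.Agent.FKP
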