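import Pool.Agent.FKP.PartC
import Pool.Agent.FKP.Lem

set_option autoImplicit false

/-!
# Project FKP: p_PRM, product bound over disjoint edge sets
-/

namespace Pool.Agent.FKP

open Pool.Agent.FKT

theorem p_PRM (h_MAR : T_MAR) : T_PRM := by
  intro V E ι _ _ s t R U G p q ε hp hp1 hq hε J
  induction J using Finset.induction_on with
  | empty =>
    intro Gj Q _ _ _
    simp only [Finset.prod_empty, Finset.card_empty, pow_zero]
    rw [Ex_const hp hp1 hq]
  | insert j J' hj ih =>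
    intro Gj Q hG hdis hQ
    have hjm : j ∈ insert j J' := Finset.mem_insert_self j J'
    have hsub : ∀ k ∈ J', k ∈ insert j J' := fun k hk => Finset.mem_insert_of_mem hk
    have hset : ∀ (ω : Finset E), ∀ k ∈ J', (ω \ Gj j) ∩ Gj k = ω ∩ Gj k := by
      intro ω k hk
      have hne : j ≠ k := fun h => hj (h ▸ hk)
      have hd := hdis j hjm k (hsub k hk) hne
      ext e
      simp only [Finset.mem_inter, Finset.mem_sdiff]
      constructor
      · rintro ⟨⟨h1, _⟩, h3⟩
        exact ⟨h1, h3⟩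
      · rintro ⟨h1, h3⟩
        exact ⟨⟨h1, fun h2 => (Finset.disjoint_left.1 hd) h2 h3⟩, h3⟩
    have h1 : Ex s t R U G p q (fun ω => ∏ k ∈ insert j J', ind (Q k (ω ∩ Gj k))) =
        Ex s t R U G p q (fun ω => (fun A B : Finset E =>
          (∏ k ∈ J', ind (Q k (A ∩ Gj k))) * ind (Q j B)) (ω \ Gj j) (ω ∩ Gj j)) := by
      apply Ex_congr
      intro ω _
      rw [Finset.prod_insert hj, mul_comm]
      change _ = (∏ k ∈ J', ind (Q k ((ω \ Gj j) ∩ Gj k))) * ind (Q j (ω ∩ Gj j))
      congr 1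
      apply Finset.prod_congr rfl
      intro k hk
      rw [hset ω k hk]
    rw [h1]
    refine (le_of_eq (h_MAR V E s t R U G (Gj j) p q hp hp1 hq (hG j hjm)
      (fun A B : Finset E => (∏ k ∈ J', ind (Q k (A ∩ Gj k))) * ind (Q j B)))).trans ?_
    have h2 : Ex s t R U G p q (fun ω =>
        Ex s t (wir s t R ((ω \ Gj j : Finset E) : Set E)) U (Gj j) p q
          ((fun A B : Finset E => (∏ k ∈ J', ind (Q k (A ∩ Gj k))) * ind (Q j B)) (ω \ Gj j))) ≤
        Ex s t R U G p q (fun ω => ε * ∏ k ∈ J', ind (Q k (ω ∩ Gj k))) := by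
      apply Ex_mono hp hp1 hq
      intro ω _
      change Ex s t (wir s t R ((ω \ Gj j : Finset E) : Set E)) U (Gj j) p q
        (fun B => (∏ k ∈ J', ind (Q k ((ω \ Gj j) ∩ Gj k))) * ind (Q j B)) ≤ _
      rw [Ex_mul_left]
      have h3 : ∏ k ∈ J', ind (Q k ((ω \ Gj j) ∩ Gj k)) = ∏ k ∈ J', ind (Q k (ω ∩ Gj k)) :=
        Finset.prod_congr rfl fun k hk => by rw [hset ω k hk]
      rw [h3, mul_comm]
      exact mul_le_mul_of_nonneg_right (hQ j hjm _)
        (Finset.prod_nonneg fun k _ => ind_nonneg _)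
    have h4 := ih Gj Q (fun k hk => hG k (hsub k hk))
      (fun k hk l hl => hdis k (hsub k hk) l (hsub l hl)) (fun k hk => hQ k (hsub k hk))
    rw [Ex_mul_left] at h2
    rw [Finset.card_insert_of_notMem hj, pow_succ, mul_comm (ε ^ J'.card)]
    exact h2.trans (mul_le_mul_of_nonneg_left h4 hε)

end Pool.Agent.FKP
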