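import Pool.Agent.FKP.PartC2
import Pool.Agent.FKP.Lem

/-!
# Project FKP: target PSM (the sum over the contours)
-/

set_option autoImplicit false

namespace Pool.Agent.FKP

open MeasureTheory Pool.Agent.FKT

/-- The final computation. -/
theorem PSM_num (d k : ℕ) (hd : 1 ≤ d) :
    (k : ℝ) * ((8 * d : ℝ) ^ (2 * k) * ((2 : ℝ) ^ (2 * k) *
      (1 / (1024 * (d : ℝ) ^ 2)) ^ k)) ≤ (1 / 2) ^ k := by
  have hd0 : (0 : ℝ) < d := by exact_mod_cast hd
  have h1 : (8 * d : ℝ) ^ (2 * k) * ((2 : ℝ) ^ (2 * k) *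
      (1 / (1024 * (d : ℝ) ^ 2)) ^ k) = (1 / 4) ^ k := by
    rw [pow_mul, pow_mul, ← mul_pow, ← mul_pow]
    congr 1
    field_simp
    norm_num
  rw [h1]
  have h2 : (k : ℝ) ≤ 2 ^ k := by exact_mod_cast (Nat.lt_two_pow_self (n := k)).le
  calc (k : ℝ) * (1 / 4) ^ k ≤ 2 ^ k * (1 / 4) ^ k :=
        mul_le_mul_of_nonneg_right h2 (by positivity)
    _ = (1 / 2) ^ k := by
        rw [← mul_pow]
        norm_num

theorem p_PSM (hPLQ : T_PLQ) : T_PSM := by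
  intro d b hd μ hμ h k
  rcases Nat.eq_zero_or_pos k with hk | hk
  · subst hk
    have h0 : Ev d b 0 = ∅ := by
      apply Set.eq_empty_of_forall_notMem
      rintro ω ⟨P, s, i, D, -, -, hs, -⟩
      exact absurd hs (Nat.not_lt_zero s)
    rw [h0]
    simp
  classical
  have hd0 : (0 : ℝ) < d := by exact_mod_cast hd
  let i0 : Fin d := ⟨0, hd⟩
  let base : ℕ → Ed d := fun s => ((Pi.single i0 (s : ℤ) : Vx d), i0)
  let PS : ℕ → Finset (Finset (Ed d)) := fun s => (hPLQ d hd (base s) k).1.toFinset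
  let en : Finset (Ed d) → Finset (Vx d) := fun P => P.image Prod.fst ∪ P.image tgt
  let DS : Finset (Ed d) → Finset (Finset (Vx d)) := fun P =>
    (en P).powerset.filter fun D => Sp D ∧ k ≤ 2 * d * 9 ^ d * D.card
  let A : Finset (Vx d) → Set (Ed d → Bool) := fun D =>
    {ω | ∀ z ∈ D, ¬ GB (cfg ω) (cc b z) b}
  set δ : ℝ := 1 / (1024 * (d : ℝ) ^ 2) with hδ
  have hδ0 : 0 ≤ δ := by positivity
  have hδ1 : δ ≤ 1 := by
    rw [hδ, div_le_one (by positivity)]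
    have : (1 : ℝ) ≤ (d : ℝ) ^ 2 := one_le_pow₀ (by exact_mod_cast hd)
    linarith
  have hsub : Ev d b k ⊆ ⋃ s ∈ Finset.range k, ⋃ P ∈ PS s, ⋃ D ∈ DS P, A D := by
    rintro ω ⟨P, s, i, D, hi, hPc, hs, hP, hC, hD, hSp, hkD, hB⟩
    have hii : i = i0 := Fin.ext hi
    subst hii
    simp only [Set.mem_iUnion]
    refine ⟨s, Finset.mem_range.mpr hs, P, ?_, D, ?_, hB⟩
    · exact (Set.Finite.mem_toFinset _).mpr ⟨hP, hPc, hC⟩
    · refine Finset.mem_filter.mpr ⟨Finset.mem_powerset.mpr ?_, hSp, hkD⟩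
      intro z hz
      obtain ⟨e, he, h1 | h1⟩ := hD z hz
      · exact Finset.mem_union_left _ (Finset.mem_image.mpr ⟨e, he, h1.symm⟩)
      · exact Finset.mem_union_right _ (Finset.mem_image.mpr ⟨e, he, h1.symm⟩)
  have hPScard : ∀ s, ((PS s).card : ℝ) ≤ (8 * d : ℝ) ^ (2 * k) := by
    intro s
    have h1 := (hPLQ d hd (base s) k).2
    rw [Set.ncard_eq_toFinset_card _ (hPLQ d hd (base s) k).1] at h1
    exact_mod_cast h1
  have hPSmem : ∀ s, ∀ P ∈ PS s, P.card = k := by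
    intro s P hP
    exact ((Set.Finite.mem_toFinset _).mp hP).2.1
  have hDScard : ∀ P : Finset (Ed d), P.card = k → ((DS P).card : ℝ) ≤ (2 : ℝ) ^ (2 * k) := by
    intro P hP
    have h1 : (DS P).card ≤ 2 ^ (2 * k) := by
      calc (DS P).card ≤ (en P).powerset.card := Finset.card_filter_le _ _
        _ = 2 ^ (en P).card := Finset.card_powerset _
        _ ≤ 2 ^ (2 * k) := by
            apply Nat.pow_le_pow_right (by norm_num)
            calc (en P).card ≤ (P.image Prod.fst).card + (P.image tgt).card :=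
                  Finset.card_union_le _ _
              _ ≤ P.card + P.card := Nat.add_le_add Finset.card_image_le Finset.card_image_le
              _ = 2 * k := by rw [hP]; ring
    exact_mod_cast h1
  have hA : ∀ P : Finset (Ed d), ∀ D ∈ DS P, μ.real (A D) ≤ δ ^ k := by
    intro P D hD
    obtain ⟨-, hSp, hkD⟩ := Finset.mem_filter.mp hD
    calc μ.real (A D) ≤ (δ ^ (2 * d * 9 ^ d)) ^ D.card := h D hSp
      _ = δ ^ (2 * d * 9 ^ d * D.card) := (pow_mul _ _ _).symm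
      _ ≤ δ ^ k := pow_le_pow_of_le_one hδ0 hδ1 hkD
  have h3 : ∀ s, ∀ P ∈ PS s, μ.real (⋃ D ∈ DS P, A D) ≤ (2 : ℝ) ^ (2 * k) * δ ^ k := by
    intro s P hP
    calc μ.real (⋃ D ∈ DS P, A D) ≤ ∑ D ∈ DS P, μ.real (A D) :=
          measureReal_biUnion_finset_le _ _
      _ ≤ ∑ D ∈ DS P, δ ^ k := Finset.sum_le_sum (hA P)
      _ = (DS P).card * δ ^ k := by rw [Finset.sum_const, nsmul_eq_mul]
      _ ≤ (2 : ℝ) ^ (2 * k) * δ ^ k :=
          mul_le_mul_of_nonneg_right (hDScard P (hPSmem s P hP)) (by positivity)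
  have h2 : ∀ s, μ.real (⋃ P ∈ PS s, ⋃ D ∈ DS P, A D) ≤
      (8 * d : ℝ) ^ (2 * k) * ((2 : ℝ) ^ (2 * k) * δ ^ k) := by
    intro s
    calc μ.real (⋃ P ∈ PS s, ⋃ D ∈ DS P, A D) ≤ ∑ P ∈ PS s, μ.real (⋃ D ∈ DS P, A D) :=
          measureReal_biUnion_finset_le _ _
      _ ≤ ∑ P ∈ PS s, (2 : ℝ) ^ (2 * k) * δ ^ k := Finset.sum_le_sum (h3 s)
      _ = (PS s).card * ((2 : ℝ) ^ (2 * k) * δ ^ k) := by rw [Finset.sum_const, nsmul_eq_mul]
      _ ≤ (8 * d : ℝ) ^ (2 * k) * ((2 : ℝ) ^ (2 * k) * δ ^ k) :=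
          mul_le_mul_of_nonneg_right (hPScard s) (by positivity)
  calc μ.real (Ev d b k) ≤ μ.real (⋃ s ∈ Finset.range k, ⋃ P ∈ PS s, ⋃ D ∈ DS P, A D) :=
        measureReal_mono hsub (measure_ne_top _ _)
    _ ≤ ∑ s ∈ Finset.range k, μ.real (⋃ P ∈ PS s, ⋃ D ∈ DS P, A D) :=
        measureReal_biUnion_finset_le _ _
    _ ≤ ∑ s ∈ Finset.range k, (8 * d : ℝ) ^ (2 * k) * ((2 : ℝ) ^ (2 * k) * δ ^ k) :=
        Finset.sum_le_sum fun s _ => h2 s
    _ = k * ((8 * d : ℝ) ^ (2 * k) * ((2 : ℝ) ^ (2 * k) * δ ^ k)) := by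
        rw [Finset.sum_const, nsmul_eq_mul, Finset.card_range]
    _ ≤ (1 / 2) ^ k := PSM_num d k hd

end Pool.Agent.FKP
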