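import Pool.Agent.FKP.PartD
import Pool.Agent.FKP.Lem

/-!
# FKP: PTS, the Edwards-Sokal expansion of the Potts sum
-/

set_option autoImplicit false

namespace Pool.Agent.FKP

open Filter MeasureTheory Pool.Agent.FKT

namespace PTS_

section

variable {V E : Type} [DecidableEq V] [DecidableEq E] [Fintype V] [Fintype E]
  (n : ℕ) [NeZero n] (s t : E → V) (R : V → V → Prop) (p : ℝ) (T : V)

/-- Compatibility with the wiring and the boundary value. -/
def KK (σ : V → ZMod n) : Prop := (∀ a b, R a b → σ a = σ b) ∧ σ T = 0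

/-- Compatibility with the open edges. -/
def CC (σ : V → ZMod n) (ω : Finset E) : Prop := ∀ e ∈ ω, σ (s e) = σ (t e)

omit [DecidableEq E] [Fintype E] in
theorem mem_col (σ : V → ZMod n) (ω : Finset E) :
    σ ∈ col n s t R (ω : Set E) T ↔ KK n R T σ ∧ CC n s t σ ω := by
  classical
  unfold col
  rw [Finset.mem_filter]
  constructor
  · rintro ⟨-, h1, h2⟩
    refine ⟨⟨fun a b hab => h1 a b (Con_wired hab), h2⟩, fun e he => h1 _ _ (Con_edge ?_)⟩
    exact he
  · rintro ⟨⟨h1, h2⟩, h3⟩
    refine ⟨Finset.mem_univ _, fun a b hab => ?_, h2⟩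
    unfold FKT.Con at hab
    induction hab with
    | rel x y hxy =>
      rcases hxy with h | ⟨e, he, h4, h5⟩
      · exact h1 _ _ h
      · rw [← h4, ← h5]
        exact h3 e he
    | refl x => rfl
    | symm x y _ ih => exact ih.symm
    | trans x y z _ _ ih1 ih2 => exact ih1.trans ih2

omit [DecidableEq E] [Fintype E] in
theorem col_sum (ω : Finset E) (g : (V → ZMod n) → ℝ) :
    ∑ σ ∈ col n s t R (ω : Set E) T, g σ =
      ∑ σ : V → ZMod n, ind (KK n R T σ) * ind (CC n s t σ ω) * g σ := by
  classical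
  have h1 : col n s t R (ω : Set E) T =
      Finset.univ.filter fun σ => KK n R T σ ∧ CC n s t σ ω := by
    ext σ
    rw [mem_col, Finset.mem_filter]
    simp
  rw [h1, Finset.sum_filter]
  refine Finset.sum_congr rfl fun σ _ => ?_
  rw [← ind_and]
  by_cases h : KK n R T σ ∧ CC n s t σ ω
  · rw [if_pos h, ind_true h, one_mul]
  · rw [if_neg h, ind_false h, zero_mul]

omit [NeZero n] [DecidableEq V] [DecidableEq E] [Fintype V] [Fintype E] in
theorem prod_ind (σ : V → ZMod n) (ω : Finset E) :
    ∏ e ∈ ω, (p * ind (σ (s e) = σ (t e))) = p ^ ω.card * ind (CC n s t σ ω) := by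
  classical
  induction ω using Finset.induction_on with
  | empty =>
    have h0 : CC n s t σ ∅ := fun e he => absurd he (Finset.notMem_empty e)
    rw [ind_true h0]
    simp
  | insert e ω he ih =>
    have h1 : ind (CC n s t σ (insert e ω)) =
        ind (σ (s e) = σ (t e)) * ind (CC n s t σ ω) := by
      rw [← ind_and]
      refine ind_congr ?_
      unfold CC
      exact Finset.forall_mem_insert _ _ _
    rw [Finset.prod_insert he, ih, Finset.card_insert_of_notMem he, h1, pow_succ]
    ring

omit [DecidableEq V] [Fintype V] in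
theorem expand (σ : V → ZMod n) (g : E → ℝ) :
    ∏ e : E, (p * ind (σ (s e) = σ (t e)) + g e) =
      ∑ ω : Finset E, p ^ ω.card * ind (CC n s t σ ω) * ∏ e ∈ Finset.univ \ ω, g e := by
  rw [Finset.prod_add, Finset.powerset_univ]
  exact Finset.sum_congr rfl fun ω _ => by rw [prod_ind]

omit [DecidableEq V] [Fintype V] in
theorem e1 (σ : V → ZMod n) :
    ∏ e : E, (1 - p + p * ind (σ (s e) = σ (t e))) =
      ∑ ω : Finset E, bw p Finset.univ ω * ind (CC n s t σ ω) := by
  have h1 : ∏ e : E, (1 - p + p * ind (σ (s e) = σ (t e))) =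
      ∏ e : E, (p * ind (σ (s e) = σ (t e)) + (1 - p)) :=
    Finset.prod_congr rfl fun e _ => add_comm _ _
  rw [h1, expand n s t p σ fun _ => 1 - p]
  refine Finset.sum_congr rfl fun ω _ => ?_
  rw [Finset.prod_const, Finset.card_sdiff_of_subset (Finset.subset_univ ω)]
  unfold bw
  ring

omit [DecidableEq V] [Fintype V] in
theorem e2 (σ : V → ZMod n) (e : E) :
    p * ind (σ (s e) = σ (t e)) * ∏ e : E, (1 - p + p * ind (σ (s e) = σ (t e))) =
      ∑ ω : Finset E, bw p Finset.univ ω * ind (e ∈ ω) * ind (CC n s t σ ω) := by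
  have h1 : p * ind (σ (s e) = σ (t e)) * ∏ e : E, (1 - p + p * ind (σ (s e) = σ (t e))) =
      ∏ e' : E, (p * ind (σ (s e') = σ (t e')) + (if e' = e then 0 else 1 - p)) := by
    rw [← Finset.mul_prod_erase Finset.univ _ (Finset.mem_univ e),
      ← Finset.mul_prod_erase Finset.univ _ (Finset.mem_univ e), if_pos rfl, add_zero,
      ← mul_assoc]
    have h2 : ∏ e' ∈ Finset.univ.erase e, (1 - p + p * ind (σ (s e') = σ (t e'))) =
        ∏ e' ∈ Finset.univ.erase e,
          (p * ind (σ (s e') = σ (t e')) + (if e' = e then 0 else 1 - p)) := by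
      refine Finset.prod_congr rfl fun e' he' => ?_
      rw [if_neg (Finset.ne_of_mem_erase he')]
      ring
    rw [h2]
    congr 1
    by_cases h3 : σ (s e) = σ (t e)
    · rw [ind_true h3]
      ring
    · rw [ind_false h3]
      ring
  rw [h1, expand n s t p σ fun e' => if e' = e then 0 else 1 - p]
  refine Finset.sum_congr rfl fun ω _ => ?_
  by_cases h4 : e ∈ ω
  · have h5 : ∏ e' ∈ Finset.univ \ ω, (if e' = e then (0 : ℝ) else 1 - p) =
        (1 - p) ^ ((Finset.univ : Finset E).card - ω.card) := by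
      rw [← Finset.card_sdiff_of_subset (Finset.subset_univ ω), ← Finset.prod_const]
      refine Finset.prod_congr rfl fun e' he' => ?_
      rw [if_neg]
      rintro rfl
      exact (Finset.mem_sdiff.1 he').2 h4
    rw [h5, ind_true h4]
    unfold bw
    ring
  · have h5 : ∏ e' ∈ Finset.univ \ ω, (if e' = e then (0 : ℝ) else 1 - p) = 0 :=
      Finset.prod_eq_zero (i := e) (Finset.mem_sdiff.2 ⟨Finset.mem_univ e, h4⟩) (if_pos rfl)
    rw [h5, ind_false h4]
    ring

end

end PTS_

open PTS_ in
/-- PTS. -/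
theorem p_PTS : T_PTS := by
  intro V E _ _ _ _ n _ s t R p T g
  have hp : ∀ g : (V → ZMod n) → ℝ, pots n s t R p T g = ∑ σ : V → ZMod n,
      ind (KK n R T σ) * (∏ e : E, (1 - p + p * ind (σ (s e) = σ (t e)))) * g σ := fun _ => rfl
  constructor
  · rw [hp]
    simp only [col_sum, Finset.mul_sum]
    rw [Finset.sum_comm]
    refine Finset.sum_congr rfl fun σ _ => ?_
    rw [e1 n s t p σ, Finset.mul_sum, Finset.sum_mul]
    exact Finset.sum_congr rfl fun ω _ => by ring
  · intro e
    rw [hp]
    simp only [col_sum, Finset.mul_sum]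
    rw [Finset.sum_comm]
    refine Finset.sum_congr rfl fun σ _ => ?_
    have h1 := e2 n s t p σ e
    calc p * (ind (KK n R T σ) * (∏ e : E, (1 - p + p * ind (σ (s e) = σ (t e)))) *
          (ind (σ (s e) = σ (t e)) * g σ))
        = ind (KK n R T σ) * (p * ind (σ (s e) = σ (t e)) *
          ∏ e : E, (1 - p + p * ind (σ (s e) = σ (t e)))) * g σ := by ring
      _ = _ := by
        rw [h1, Finset.mul_sum, Finset.sum_mul]
        exact Finset.sum_congr rfl fun ω _ => by ring

end Pool.Agent.FKP
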