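import Pool.Agent.FKP.PartD
import Pool.Agent.FKP.Lem
import Pool.Agent.FKT.P_ADD

/-!
# Project FKP, QLM: the quadratic inequality for integers `n ≥ 2`
-/

set_option autoImplicit false

namespace Pool.Agent.FKP

open Filter MeasureTheory Pool.Agent.FKT

namespace QLM_

section merge

variable {V E : Type}

/-- one more edge, from `T` -/
def ext (s : E → V) (T : V) : Option E → V := fun o => o.elim T s

lemma con_some (s t : E → V) (R : V → V → Prop) (T B : V) (O : Set E) :
    FKT.Con s t R O = FKT.Con (ext s T) (ext t B) R (some '' O) := by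
  unfold FKT.Con
  congr 1
  funext a b
  apply propext
  constructor
  · rintro (h | ⟨e, he, h1, h2⟩)
    · exact Or.inl h
    · exact Or.inr ⟨some e, ⟨e, he, rfl⟩, h1, h2⟩
  · rintro (h | ⟨o, ⟨e, he, rfl⟩, h1, h2⟩)
    · exact Or.inl h
    · exact Or.inr ⟨e, he, h1, h2⟩

lemma con_mrg (s t : E → V) (R : V → V → Prop) (T B : V) (O : Set E) :
    FKT.Con s t (mrg R T B) O = FKT.Con (ext s T) (ext t B) R (insert none (some '' O)) := by
  unfold FKT.Con
  congr 1
  funext a b
  apply propext
  constructor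
  · rintro ((h | ⟨rfl, rfl⟩) | ⟨e, he, h1, h2⟩)
    · exact Or.inl h
    · exact Or.inr ⟨none, Set.mem_insert _ _, rfl, rfl⟩
    · exact Or.inr ⟨some e, Set.mem_insert_of_mem _ ⟨e, he, rfl⟩, h1, h2⟩
  · rintro (h | ⟨o, ho, h1, h2⟩)
    · exact Or.inl (Or.inl h)
    · rcases Set.mem_insert_iff.1 ho with rfl | ⟨e, he, rfl⟩
      · exact Or.inl (Or.inr ⟨h1.symm, h2.symm⟩)
      · exact Or.inr ⟨e, he, h1, h2⟩

lemma ncl_some (s t : E → V) (R : V → V → Prop) (T B : V) (U : Finset V) (O : Set E) :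
    ncl s t R U O = ncl (ext s T) (ext t B) R U (some '' O) := by
  have h : clus s t R O = clus (ext s T) (ext t B) R (some '' O) := by
    funext v
    unfold clus
    rw [con_some s t R T B O]
  unfold ncl
  rw [h]

lemma ncl_mrg (s t : E → V) (R : V → V → Prop) (T B : V) (U : Finset V) (O : Set E) :
    ncl s t (mrg R T B) U O = ncl (ext s T) (ext t B) R U (insert none (some '' O)) := by
  have h : clus s t (mrg R T B) O = clus (ext s T) (ext t B) R (insert none (some '' O)) := by
    funext v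
    unfold clus
    rw [con_mrg s t R T B O]
  unfold ncl
  rw [h]

lemma con_T (s t : E → V) (R : V → V → Prop) (T B x : V) (O : Set E) :
    FKT.Con s t (mrg R T B) O x T ↔ FKT.Con s t R O x T ∨ FKT.Con s t R O x B := by
  rw [con_mrg, ADD_.char, ← con_some]
  show _ ∨ (FKT.Con s t R O x T ∧ FKT.Con s t R O B T) ∨
    (FKT.Con s t R O x B ∧ FKT.Con s t R O T T) ↔ _
  constructor
  · rintro (h | ⟨h, -⟩ | ⟨h, -⟩)
    · exact Or.inl h
    · exact Or.inl h
    · exact Or.inr h
  · rintro (h | h)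
    · exact Or.inl h
    · exact Or.inr (Or.inr ⟨h, Con_refl O T⟩)

lemma con_same (s t : E → V) (R : V → V → Prop) (T B x y : V) (O : Set E)
    (h : FKT.Con s t R O T B) :
    FKT.Con s t (mrg R T B) O x y ↔ FKT.Con s t R O x y := by
  rw [con_mrg, ADD_.char, ← con_some]
  show _ ∨ (FKT.Con s t R O x T ∧ FKT.Con s t R O B y) ∨
    (FKT.Con s t R O x B ∧ FKT.Con s t R O T y) ↔ _
  constructor
  · rintro (h1 | ⟨h1, h2⟩ | ⟨h1, h2⟩)
    · exact h1
    · exact Con_trans h1 (Con_trans h h2)
    · exact Con_trans h1 (Con_trans (Con_symm h) h2)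
  · exact Or.inl

lemma ncl_same [DecidableEq E] (s t : E → V) (R : V → V → Prop) (T B : V) (U : Finset V)
    (hT : T ∈ U) (hB : B ∈ U) (O : Set E) (h : FKT.Con s t R O T B) :
    ncl s t (mrg R T B) U O = ncl s t R U O := by
  rw [ncl_mrg, ncl_some s t R T B]
  refine ((p_ADD V (Option E) (ext s T) (ext t B) R U).1 (some '' O) none hT hB).1 ?_
  rw [← con_some]
  exact h

lemma ncl_diff [DecidableEq E] (s t : E → V) (R : V → V → Prop) (T B : V) (U : Finset V)
    (hT : T ∈ U) (hB : B ∈ U) (O : Set E) (h : ¬ FKT.Con s t R O T B) :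
    ncl s t (mrg R T B) U O + 1 = ncl s t R U O := by
  rw [ncl_mrg, ncl_some s t R T B]
  refine ((p_ADD V (Option E) (ext s T) (ext t B) R U).1 (some '' O) none hT hB).2 ?_
  rw [← con_some]
  exact h

end merge

/-- the final computation -/
lemma alg {p n a b fx gx fy gy fc gc fd gd : ℝ} (hp : 0 < p) (hn : 2 ≤ n) (ha : 0 < a)
    (hb : 0 < b) (h1 : fd ≤ a) (h2 : -b ≤ gd) (hX : 0 ≤ fc * (a + b) - a * (fc + gc))
    (hG : (fx * (fy + gy) - fy * (fx + gx)) ^ 2 ≤
      (fc * (a + b) - a * (fc + gc)) * (fd * (a + b) - a * (fd + gd))) :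
    (1 - 1 / n) / 2 * p * (fy / a * (gx / b) - fx / a * (gy / b)) ^ 2 ≤
      p * (a / n + (1 - 1 / n) * fc) / a - p * (b / n + (1 - 1 / n) * gc) / b := by
  have hab : 0 < a * b := mul_pos ha hb
  have hk : 0 ≤ 1 - 1 / n := by
    have : 1 / n ≤ 1 / 2 := one_div_le_one_div_of_le (by norm_num) hn
    linarith
  have hY : fd * (a + b) - a * (fd + gd) ≤ 2 * (a * b) := by
    have h3 : fd * b ≤ a * b := mul_le_mul_of_nonneg_right h1 hb.le
    have h4 : a * (-b) ≤ a * gd := mul_le_mul_of_nonneg_left h2 ha.le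
    nlinarith
  have h5 : (fx * (fy + gy) - fy * (fx + gx)) ^ 2 ≤
      (fc * (a + b) - a * (fc + gc)) * (2 * (a * b)) :=
    hG.trans (mul_le_mul_of_nonneg_left hY hX)
  have h6 : (fy / a * (gx / b) - fx / a * (gy / b)) ^ 2 =
      (fx * (fy + gy) - fy * (fx + gx)) ^ 2 / (a * b) ^ 2 := by
    have : fy / a * (gx / b) - fx / a * (gy / b) =
        -(fx * (fy + gy) - fy * (fx + gx)) / (a * b) := by
      field_simp
      ring
    rw [this, div_pow, neg_sq]
  have h7 : (fx * (fy + gy) - fy * (fx + gx)) ^ 2 / (a * b) ^ 2 ≤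
      2 * (fc * (a + b) - a * (fc + gc)) / (a * b) := by
    rw [div_le_div_iff₀ (by positivity) hab]
    nlinarith
  have h8 : p * (a / n + (1 - 1 / n) * fc) / a - p * (b / n + (1 - 1 / n) * gc) / b =
      (1 - 1 / n) / 2 * p * (2 * (fc * (a + b) - a * (fc + gc)) / (a * b)) := by
    have hn0 : (0 : ℝ) < n := by linarith
    field_simp
    ring
  rw [h6, h8]
  exact mul_le_mul_of_nonneg_left h7 (by positivity)

section sums

variable {V E : Type} [DecidableEq V] [DecidableEq E] [Fintype V] [Fintype E]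

/-- the weighted sums over the configurations -/
noncomputable def Fs (n : ℕ) (s t : E → V) (R : V → V → Prop) (p : ℝ)
    (h : Finset E → ℝ) : ℝ :=
  ∑ ω : Finset E, bw p Finset.univ ω *
    ((n : ℝ) ^ (ncl s t R Finset.univ (ω : Set E) - 1) * h ω)

lemma Fs_pos {n : ℕ} (hn : 2 ≤ n) {s t : E → V} {R : V → V → Prop} {p : ℝ} (hp : 0 < p)
    (hp1 : p < 1) {h : Finset E → ℝ} (h0 : ∀ ω, 0 ≤ h ω) {ω0 : Finset E} (h1 : 0 < h ω0) :
    0 < Fs n s t R p h := by
  have hn0 : (0 : ℝ) < n := by
    have : 0 < n := by omega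
    exact_mod_cast this
  unfold Fs
  refine Finset.sum_pos' (fun ω _ => ?_) ⟨ω0, Finset.mem_univ _, ?_⟩
  · exact mul_nonneg (bw_pos hp hp1 ω).le (mul_nonneg (by positivity) (h0 ω))
  · exact mul_pos (bw_pos hp hp1 ω0) (mul_pos (by positivity) h1)

lemma Ex_eq {n : ℕ} (hn : 2 ≤ n) (s t : E → V) (R : V → V → Prop) (p : ℝ)
    (hN : ∀ ω : Finset E, 1 ≤ ncl s t R Finset.univ (ω : Set E)) (h : Finset E → ℝ) :
    Ex s t R Finset.univ Finset.univ p (n : ℝ) h = Fs n s t R p h / Fs n s t R p fun _ => 1 := by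
  have hn0 : (n : ℝ) ≠ 0 := by
    have : n ≠ 0 := by omega
    exact_mod_cast this
  have key : ∀ h : Finset E → ℝ,
      ∑ ω ∈ (Finset.univ : Finset E).powerset, wt s t R Finset.univ Finset.univ p (n : ℝ) ω *
        h ω = (n : ℝ) * Fs n s t R p h := by
    intro h
    unfold Fs
    rw [Finset.powerset_univ, Finset.mul_sum]
    refine Finset.sum_congr rfl fun ω _ => ?_
    unfold wt
    have h1 := hN ω
    obtain ⟨m, hm⟩ := Nat.exists_eq_add_of_le h1
    rw [hm]
    have h2 : 1 + m - 1 = m := by omega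
    rw [h2, pow_add, pow_one]
    ring
  have key1 := key fun _ => 1
  simp only [mul_one] at key1
  unfold Ex
  rw [key h, key1, mul_div_mul_left _ _ hn0]

/-- the Potts sums of the merged wiring -/
lemma pots_mrg (n : ℕ) [NeZero n] (s t : E → V) (R : V → V → Prop) (p : ℝ) (T B : V)
    (g : (V → ZMod n) → ℝ) :
    pots n s t R p T (fun σ => ind (σ B = 0) * g σ) = pots n s t (mrg R T B) p T g := by
  unfold pots
  refine Finset.sum_congr rfl fun σ _ => ?_
  have h1 : ((∀ a b, mrg R T B a b → σ a = σ b) ∧ σ T = 0) ↔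
      (((∀ a b, R a b → σ a = σ b) ∧ σ T = 0) ∧ σ B = 0) := by
    constructor
    · rintro ⟨h2, h3⟩
      refine ⟨⟨fun a b hab => h2 a b (Or.inl hab), h3⟩, ?_⟩
      rw [← h2 T B (Or.inr ⟨rfl, rfl⟩)]
      exact h3
    · rintro ⟨⟨h2, h3⟩, h4⟩
      refine ⟨?_, h3⟩
      rintro a b (hab | ⟨rfl, rfl⟩)
      · exact h2 a b hab
      · rw [h3, h4]
  rw [ind_congr h1, ind_and ((∀ a b, R a b → σ a = σ b) ∧ σ T = 0) (σ B = 0)]
  ring

lemma pots_mono (n : ℕ) [NeZero n] (s t : E → V) (R : V → V → Prop) {p : ℝ} (hp : 0 < p)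
    (hp1 : p < 1) (T : V) {g g' : (V → ZMod n) → ℝ} (h : ∀ σ, g σ ≤ g' σ) :
    pots n s t R p T g ≤ pots n s t R p T g' := by
  unfold pots
  refine Finset.sum_le_sum fun σ _ => mul_le_mul_of_nonneg_left (h σ) ?_
  refine mul_nonneg (ind_nonneg _) (Finset.prod_nonneg fun e _ => ?_)
  have := mul_nonneg hp.le (ind_nonneg (σ (s e) = σ (t e)))
  linarith

lemma pots_neg (n : ℕ) [NeZero n] (s t : E → V) (R : V → V → Prop) (p : ℝ) (T : V)
    (g g' : (V → ZMod n) → ℝ) :
    pots n s t R p T (fun σ => g σ - g' σ) = pots n s t R p T g - pots n s t R p T g' := by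
  unfold pots
  rw [← Finset.sum_sub_distrib]
  exact Finset.sum_congr rfl fun σ _ => by ring

end sums

end QLM_

open QLM_ in
theorem p_QLM (h_ESC : T_ESC) (h_PTS : T_PTS) (h_GIN : T_GIN) : T_QLM := by
  classical
  intro n hn V E _ _ _ _ s t R p hp hp1 T B hTB e
  have : NeZero n := ⟨by omega⟩
  have hn2 : (2 : ℝ) ≤ n := by exact_mod_cast hn
  have hn0 : (0 : ℝ) < n := by linarith
  have hn1 : (0 : ℝ) < (n : ℝ) - 1 := by linarith
  set R1 : V → V → Prop := mrg R T B with hR1
  have hES := fun (R' : V → V → Prop) (ω : Finset E) => h_ESC V E n hn s t R' (ω : Set E) T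
  have hN1 : ∀ ω : Finset E, 1 ≤ ncl s t R1 Finset.univ (ω : Set E) := fun ω => (hES R1 ω).1
  -- formulas for the Potts sums of any wiring
  have hone : ∀ R' : V → V → Prop, pots n s t R' p T (fun _ => 1) =
      Fs n s t R' p fun _ => 1 := by
    intro R'
    rw [(h_PTS V E n s t R' p T fun _ => 1).1]
    unfold Fs
    refine Finset.sum_congr rfl fun ω _ => ?_
    rw [Finset.sum_const, nsmul_eq_mul, (hES R' ω).2.1]
  have hcx : ∀ (R' : V → V → Prop) (x : V),
      pots n s t R' p T (fun σ => Real.cos (agl n (σ x))) =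
      Fs n s t R' p fun ω => ind (FKT.Con s t R' (ω : Set E) x T) := by
    intro R' x
    rw [(h_PTS V E n s t R' p T _).1]
    unfold Fs
    refine Finset.sum_congr rfl fun ω _ => ?_
    rw [(hES R' ω).2.2.1 x]
  have hc : ∀ (R' : V → V → Prop) (x y : V),
      pots n s t R' p T (fun σ => Real.cos (agl n (σ x - σ y))) =
      Fs n s t R' p fun ω => ind (FKT.Con s t R' (ω : Set E) x y) := by
    intro R' x y
    rw [(h_PTS V E n s t R' p T _).1]
    unfold Fs
    refine Finset.sum_congr rfl fun ω _ => ?_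
    rw [((hES R' ω).2.2.2 x y).1]
  have hj : ∀ (R' : V → V → Prop) (x y : V),
      pots n s t R' p T (fun σ => ind (σ x = σ y)) =
      Fs n s t R' p fun ω => ind (FKT.Con s t R' (ω : Set E) x y) +
        (1 - ind (FKT.Con s t R' (ω : Set E) x y)) / n := by
    intro R' x y
    rw [(h_PTS V E n s t R' p T _).1]
    unfold Fs
    refine Finset.sum_congr rfl fun ω _ => ?_
    rw [((hES R' ω).2.2.2 x y).2]
  have hjc : ∀ (R' : V → V → Prop) (x y : V),
      pots n s t R' p T (fun σ => ind (σ x = σ y)) =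
      pots n s t R' p T (fun _ => 1) / n + (1 - 1 / (n : ℝ)) *
        pots n s t R' p T (fun σ => Real.cos (agl n (σ x - σ y))) := by
    intro R' x y
    rw [hj, hone, hc]
    unfold Fs
    rw [Finset.sum_div, Finset.mul_sum, ← Finset.sum_add_distrib]
    refine Finset.sum_congr rfl fun ω _ => ?_
    ring
  have hpj : ∀ R' : V → V → Prop,
      p * pots n s t R' p T (fun σ => ind (σ (s e) = σ (t e))) =
      Fs n s t R' p fun ω => ind (e ∈ ω) := by
    intro R'
    have h1 := (h_PTS V E n s t R' p T fun _ => 1).2 e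
    simp only [mul_one] at h1
    rw [h1]
    unfold Fs
    refine Finset.sum_congr rfl fun ω _ => ?_
    rw [Finset.sum_const, nsmul_eq_mul, (hES R' ω).2.1]
    ring
  -- the difference of the weights
  have hdiff : ∀ (h h1 : Finset E → ℝ),
      (∀ ω : Finset E, FKT.Con s t R (ω : Set E) T B → h ω = h1 ω) →
      Fs n s t R p h - Fs n s t R1 p h1 = Fs n s t R1 p fun ω =>
        ind (Dis s t R T B ω) * ((n : ℝ) * h ω - h1 ω) := by
    intro h h1 hh
    unfold Fs
    rw [← Finset.sum_sub_distrib]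
    refine Finset.sum_congr rfl fun ω _ => ?_
    beta_reduce
    by_cases hD : FKT.Con s t R (ω : Set E) T B
    · have h2 : ¬ Dis s t R T B ω := fun h3 => h3 hD
      rw [ind_false h2, hR1, ncl_same s t R T B Finset.univ (Finset.mem_univ _)
        (Finset.mem_univ _) _ hD, hh ω hD]
      ring
    · have h2 : Dis s t R T B ω := hD
      have h3 := ncl_diff s t R T B Finset.univ (Finset.mem_univ _)
        (Finset.mem_univ _) (ω : Set E) hD
      have h4 := hN1 ω
      rw [hR1] at h4
      have h5 : (n : ℝ) ^ (ncl s t R Finset.univ (ω : Set E) - 1) =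
          n * (n : ℝ) ^ (ncl s t (mrg R T B) Finset.univ (ω : Set E) - 1) := by
        rw [← h3, Nat.add_sub_cancel, ← pow_succ']
        congr 1
        omega
      rw [ind_true h2, h5, hR1]
      ring
  -- abbreviations
  set a : ℝ := pots n s t R1 p T (fun _ => 1) with ha
  set b : ℝ := pots n s t R p T (fun _ => 1) - a with hb
  have hFm : ∀ g : (V → ZMod n) → ℝ,
      pots n s t R p T (fun σ => ind (σ B = 0) * g σ) = pots n s t R1 p T g :=
    fun g => pots_mrg n s t R p T B g
  have ha0 : 0 < a := by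
    rw [ha, hone]
    exact Fs_pos hn hp hp1 (fun _ => zero_le_one) (ω0 := ∅) one_pos
  have hbF : b = ((n : ℝ) - 1) * Fs n s t R1 p fun ω => ind (Dis s t R T B ω) := by
    rw [hb, ha, hone, hone, hdiff (fun _ => 1) (fun _ => 1) fun _ _ => rfl]
    unfold Fs
    rw [Finset.mul_sum]
    exact Finset.sum_congr rfl fun ω _ => by ring
  have hFD : 0 < Fs n s t R1 p fun ω => ind (Dis s t R T B ω) := by
    refine Fs_pos hn hp hp1 (fun ω => ind_nonneg _) (ω0 := ∅) ?_
    have h1 : Dis s t R T B ∅ := by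
      unfold Dis
      rw [Finset.coe_empty]
      exact hTB
    rw [ind_true h1]
    exact one_pos
  have hb0 : 0 < b := by
    rw [hbF]
    exact mul_pos hn1 hFD
  have htht : ∀ x, tht s t R Finset.univ Finset.univ p (n : ℝ) T B x =
      pots n s t R1 p T (fun σ => Real.cos (agl n (σ x))) / a := by
    intro x
    unfold tht
    rw [Ex_eq hn s t (mrg R T B) p hN1, ha, hone, hcx]
  have hExc : ∀ g : Finset E → ℝ,
      Exc s t R1 Finset.univ Finset.univ p (n : ℝ) (Dis s t R T B) g =
      (((n : ℝ) - 1) * Fs n s t R1 p fun ω => ind (Dis s t R T B ω) * g ω) / b := by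
    intro g
    unfold Exc
    rw [Ex_eq hn s t R1 p hN1, Ex_eq hn s t R1 p hN1, hbF, mul_div_mul_left _ _ hn1.ne',
      div_div_div_cancel_right₀]
    exact (Fs_pos hn hp hp1 (fun _ => zero_le_one) (ω0 := ∅) one_pos).ne'
  have hsgn : ∀ x, sgn s t R Finset.univ Finset.univ p (n : ℝ) (1 / ((n : ℝ) - 1)) T B x =
      (pots n s t R p T (fun σ => Real.cos (agl n (σ x))) -
        pots n s t R1 p T (fun σ => Real.cos (agl n (σ x)))) / b := by
    intro x
    unfold sgn
    rw [hExc, hcx, hcx, hdiff]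
    · congr 1
      unfold Fs
      rw [Finset.mul_sum]
      refine Finset.sum_congr rfl fun ω _ => ?_
      beta_reduce
      by_cases hD : FKT.Con s t R (ω : Set E) T B
      · have h2 : ¬ Dis s t R T B ω := fun h3 => h3 hD
        rw [ind_false h2]
        ring
      · have h2 : Dis s t R T B ω := hD
        have h3 : ind (FKT.Con s t R1 (ω : Set E) x T) =
            ind (FKT.Con s t R (ω : Set E) x T) + ind (FKT.Con s t R (ω : Set E) x B) := by
          rw [ind_congr (con_T s t R T B x (ω : Set E))]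
          by_cases h4 : FKT.Con s t R (ω : Set E) x T
          · have h5 : ¬ FKT.Con s t R (ω : Set E) x B := fun h6 =>
              hD (Con_trans (Con_symm h4) h6)
            rw [ind_true (Or.inl h4), ind_true h4, ind_false h5]
            norm_num
          · by_cases h5 : FKT.Con s t R (ω : Set E) x B
            · rw [ind_true (Or.inr h5), ind_false h4, ind_true h5]
              norm_num
            · rw [ind_false (fun h6 => h6.elim h4 h5), ind_false h4, ind_false h5]
              norm_num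
        rw [h3]
        field_simp
        ring
    · intro ω hω
      rw [ind_congr (con_same s t R T B x T (ω : Set E) hω)]
  have hdlt : dlt s t R Finset.univ Finset.univ p (n : ℝ) T B e =
      p * pots n s t R1 p T (fun σ => ind (σ (s e) = σ (t e))) / a -
      p * (pots n s t R p T (fun σ => ind (σ (s e) = σ (t e))) -
        pots n s t R1 p T (fun σ => ind (σ (s e) = σ (t e)))) / b := by
    unfold dlt
    rw [hExc, Ex_eq hn s t (mrg R T B) p hN1, mul_sub, hpj, hpj, ha, hone,
      hdiff _ _ fun _ _ => rfl]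
    congr 2
    unfold Fs
    rw [Finset.mul_sum]
    exact Finset.sum_congr rfl fun ω _ => by ring
  -- the inequality for the Potts sums
  obtain ⟨g1, -, g3⟩ := h_GIN V E n s t R p hp hp1 T B (s e) (t e)
  have hf : pots n s t R p T (fun σ : V → ZMod n => ind (σ B = 0)) = a := by
    have h1 := hFm fun _ => 1
    simp only [mul_one] at h1
    exact h1
  simp only [hFm, hf] at g1 g3
  have e1 : pots n s t R p T (fun _ => 1) = a + b := by
    rw [hb]
    ring
  rw [e1] at g1 g3
  set fc : ℝ := pots n s t R1 p T (fun σ => Real.cos (agl n (σ (s e) - σ (t e)))) with hfc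
  set fd : ℝ := pots n s t R1 p T (fun σ => Real.cos (agl n (σ (s e) + σ (t e)))) with hfd
  set fx : ℝ := pots n s t R1 p T (fun σ => Real.cos (agl n (σ (s e)))) with hfx
  set fy : ℝ := pots n s t R1 p T (fun σ => Real.cos (agl n (σ (t e)))) with hfy
  have e2 : ∀ u v : ℝ, v = u + (v - u) := fun u v => by ring
  rw [e2 fc (pots n s t R p T (fun σ => Real.cos (agl n (σ (s e) - σ (t e)))))] at g1
  rw [e2 fc (pots n s t R p T (fun σ => Real.cos (agl n (σ (s e) - σ (t e))))),
    e2 fd (pots n s t R p T (fun σ => Real.cos (agl n (σ (s e) + σ (t e))))),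
    e2 fx (pots n s t R p T (fun σ => Real.cos (agl n (σ (s e))))),
    e2 fy (pots n s t R p T (fun σ => Real.cos (agl n (σ (t e)))))] at g3
  have h1 : fd ≤ a := pots_mono n s t R1 hp hp1 T fun σ => Real.cos_le_one _
  have h2 : -b ≤ pots n s t R p T (fun σ => Real.cos (agl n (σ (s e) + σ (t e)))) - fd := by
    have h3 : pots n s t R p T (fun σ => Real.cos (agl n (σ (s e) + σ (t e)))) - fd =
        pots n s t R p T (fun σ => Real.cos (agl n (σ (s e) + σ (t e))) -
          ind (σ B = 0) * Real.cos (agl n (σ (s e) + σ (t e)))) := by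
      rw [pots_neg, hFm]
    have h4 : -b = pots n s t R p T (fun σ => ind (σ B = 0) - 1) := by
      rw [pots_neg, hf, hb]
      ring
    rw [h3, h4]
    refine pots_mono n s t R hp hp1 T fun σ => ?_
    have h5 := ind_le_one (σ B = 0)
    have h6 := Real.neg_one_le_cos (agl n (σ (s e) + σ (t e)))
    nlinarith
  have hfin := alg hp hn2 ha0 hb0 h1 h2 g1 g3
  rw [htht, htht, hsgn, hsgn, hdlt, hjc, hjc, e1]
  refine hfin.trans (le_of_eq ?_)
  congr 2
  congr 1
  rw [← ha]
  ring

end Pool.Agent.FKP
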