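import Pool.Agent.FKP.Basic
import Pool.Agent.FKP.Lem

/-!
# Project FKP: filling a connected set in a box
-/

set_option autoImplicit false

namespace Pool.Agent.FKP

open Pool.Agent.FKT

namespace SEP_

variable {n : ℕ}

/-- adjacency in a set -/
def Adj (J : Finset (Vx n)) (x y : Vx n) : Prop :=
  ∃ e ∈ es J, (e.1 = x ∧ tgt e = y) ∨ (e.1 = y ∧ tgt e = x)

theorem Adj.con {J : Finset (Vx n)} {x y : Vx n} (h : Adj J x y) : Cf (es J) x y := by
  obtain ⟨e, he, h | h⟩ := h
  · rw [← h.1, ← h.2]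
    exact Con_edge (s := Prod.fst) (t := tgt) (Finset.mem_coe.2 he)
  · rw [← h.1, ← h.2]
    exact Con_symm (Con_edge (s := Prod.fst) (t := tgt) (Finset.mem_coe.2 he))

theorem Adj.left {J : Finset (Vx n)} {x y : Vx n} (h : Adj J x y) : x ∈ J := by
  obtain ⟨e, he, h | h⟩ := h
  · rw [← h.1]
    exact (mem_es.1 he).1
  · rw [← h.2]
    exact (mem_es.1 he).2

theorem Adj.right {J : Finset (Vx n)} {x y : Vx n} (h : Adj J x y) : y ∈ J := by
  obtain ⟨e, he, h | h⟩ := h
  · rw [← h.2]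
    exact (mem_es.1 he).2
  · rw [← h.1]
    exact (mem_es.1 he).1

theorem Adj.sub {J J' : Finset (Vx n)} {x y : Vx n} (h : Adj J x y) (hx : x ∈ J') (hy : y ∈ J') :
    Adj J' x y := by
  obtain ⟨e, he, h | h⟩ := h
  · exact ⟨e, mem_es.2 ⟨by rw [h.1]; exact hx, by rw [h.2]; exact hy⟩, Or.inl h⟩
  · exact ⟨e, mem_es.2 ⟨by rw [h.1]; exact hy, by rw [h.2]; exact hx⟩, Or.inr h⟩

theorem adj_add {J : Finset (Vx n)} {x : Vx n} {i : Fin n} (hx : x ∈ J)
    (hy : x + Pi.single i 1 ∈ J) : Adj J x (x + Pi.single i 1) :=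
  ⟨(x, i), mem_es.2 ⟨hx, hy⟩, Or.inl ⟨rfl, rfl⟩⟩

theorem adj_sub {J : Finset (Vx n)} {x : Vx n} {i : Fin n} (hx : x ∈ J)
    (hy : x - Pi.single i 1 ∈ J) : Adj J x (x - Pi.single i 1) := by
  have h1 : tgt (x - Pi.single i 1, i) = x := by
    unfold tgt
    simp
  exact ⟨(x - Pi.single i 1, i), mem_es.2 ⟨hy, by rw [h1]; exact hx⟩, Or.inr ⟨rfl, h1⟩⟩

/-- boxes are connected -/
theorem box (a b : Vx n) (y : Vx n) (hy : y ∈ Finset.Icc a b) :
    ∀ (m : ℕ) (x : Vx n), x ∈ Finset.Icc a b → ∑ i, (x i - y i).natAbs = m →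
      Relation.ReflTransGen (Adj (Finset.Icc a b)) x y := by
  intro m
  induction m with
  | zero =>
    intro x hx hs
    have : x = y := by
      funext i
      have h1 := (Finset.sum_eq_zero_iff.1 hs) i (Finset.mem_univ i)
      have h2 : x i - y i = 0 := Int.natAbs_eq_zero.1 h1
      omega
    rw [this]
  | succ m ih =>
    intro x hx hs
    have h1 : ∃ i, x i ≠ y i := by
      by_contra hne
      push Not at hne
      have h0 : ∑ i, (x i - y i).natAbs = 0 := Finset.sum_eq_zero fun i _ => by rw [hne i]; simp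
      omega
    obtain ⟨i, hi⟩ := h1
    rw [Finset.mem_Icc, Pi.le_def, Pi.le_def] at hx hy
    have hsum : ∀ z : Vx n, (∀ j, j ≠ i → z j = x j) →
        (z i - y i).natAbs + 1 = (x i - y i).natAbs → ∑ j, (z j - y j).natAbs = m := by
      intro z hz1 hz2
      rw [← Finset.add_sum_erase _ _ (Finset.mem_univ i)] at hs ⊢
      have h3 : ∑ j ∈ Finset.univ.erase i, (z j - y j).natAbs =
          ∑ j ∈ Finset.univ.erase i, (x j - y j).natAbs :=
        Finset.sum_congr rfl fun j hj => by rw [hz1 j (Finset.ne_of_mem_erase hj)]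
      rw [h3]
      omega
    have hx' : x ∈ Finset.Icc a b := by
      rw [Finset.mem_Icc, Pi.le_def, Pi.le_def]
      exact hx
    rcases lt_or_gt_of_ne hi with h2 | h2
    · have hz : x + Pi.single i 1 ∈ Finset.Icc a b := by
        rw [Finset.mem_Icc, Pi.le_def, Pi.le_def]
        constructor <;> intro j <;> by_cases hj : j = i
        · subst hj
          have := hx.1 j
          simp
          omega
        · simpa [Pi.single_eq_of_ne hj] using hx.1 j
        · subst hj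
          have := hy.2 j
          simp
          omega
        · simpa [Pi.single_eq_of_ne hj] using hx.2 j
      refine Relation.ReflTransGen.head (adj_add hx' hz) (ih _ hz (hsum _ (fun j hj => ?_) ?_))
      · simp [Pi.single_eq_of_ne hj]
      · simp
        omega
    · have hz : x - Pi.single i 1 ∈ Finset.Icc a b := by
        rw [Finset.mem_Icc, Pi.le_def, Pi.le_def]
        constructor <;> intro j <;> by_cases hj : j = i
        · subst hj
          have := hy.1 j
          simp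
          omega
        · simpa [Pi.single_eq_of_ne hj] using hx.1 j
        · subst hj
          have := hx.2 j
          simp
          omega
        · simpa [Pi.single_eq_of_ne hj] using hx.2 j
      refine Relation.ReflTransGen.head (adj_sub hx' hz) (ih _ hz (hsum _ (fun j hj => ?_) ?_))
      · simp [Pi.single_eq_of_ne hj]
      · simp
        omega

/-- the component of `z1` is connected in itself -/
theorem comp {S K : Finset (Vx n)} (z1 : Vx n)
    (hK : ∀ z, z ∈ K ↔ z ∈ S ∧ Cf (es S) z1 z) {x y : Vx n} (h : Cf (es S) x y) :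
    (x ∈ K ↔ y ∈ K) ∧ (x ∈ K → Cf (es K) x y) := by
  unfold Cf Cn FKT.Con at h
  induction h with
  | rel x y hxy =>
    rcases hxy with h | ⟨e, he, rfl, rfl⟩
    · exact absurd h (by simp [no])
    · have he1 := mem_es.1 (Finset.mem_coe.1 he)
      have hc : Cf (es S) e.1 (tgt e) := Con_edge (s := Prod.fst) (t := tgt) he
      have h1 : e.1 ∈ K ↔ tgt e ∈ K := by
        rw [hK, hK]
        exact ⟨fun h => ⟨he1.2, Con_trans h.2 hc⟩, fun h => ⟨he1.1, Con_trans h.2 (Con_symm hc)⟩⟩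
      refine ⟨h1, fun h2 => ?_⟩
      exact Con_edge (s := Prod.fst) (t := tgt) (Finset.mem_coe.2 (mem_es.2 ⟨h2, h1.1 h2⟩))
  | refl x => exact ⟨Iff.rfl, fun _ => Con_refl _ _⟩
  | symm x y _ ih => exact ⟨ih.1.symm, fun h2 => Con_symm (ih.2 (ih.1.2 h2))⟩
  | trans x y z _ _ ih1 ih2 =>
    exact ⟨ih1.1.trans ih2.1, fun h2 => Con_trans (ih1.2 h2) (ih2.2 (ih1.1.1 h2))⟩

theorem Cf_mono {S S' : Finset (Vx n)} (h : S ⊆ S') {x y : Vx n} (hxy : Cf (es S) x y) :
    Cf (es S') x y :=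
  Con_mono (fun _ _ h => h) (Finset.coe_subset.2 (es_mono h)) hxy

end SEP_

open SEP_ in
/-- SEP. -/
theorem p_SEP : T_SEP := by
  intro n a b W' z0 z1 hW' hcon hz0 hz1
  classical
  set J := Finset.Icc a b with hJ
  obtain ⟨K, hK⟩ : ∃ K : Finset (Vx n), ∀ z, z ∈ K ↔ z ∈ J \ W' ∧ Cf (es (J \ W')) z1 z :=
    ⟨(J \ W').filter fun z => Cf (es (J \ W')) z1 z, fun z => Finset.mem_filter⟩
  have hKJ : ∀ z ∈ K, z ∈ J := fun z hz => (Finset.mem_sdiff.1 ((hK z).1 hz).1).1
  have hKW : ∀ z ∈ K, z ∉ W' := fun z hz => (Finset.mem_sdiff.1 ((hK z).1 hz).1).2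
  have hz1K : z1 ∈ K := (hK z1).2 ⟨hz1, Con_refl _ _⟩
  have hJK : J \ (J \ K) = K := Finset.sdiff_sdiff_eq_self fun z hz => hKJ z hz
  have hW : W' ⊆ J \ K := fun z hz => Finset.mem_sdiff.2 ⟨hW' hz, fun h => hKW z h hz⟩
  -- adjacent points outside W'
  have hadj : ∀ x y, Adj J x y → x ∉ W' → y ∉ W' → (x ∈ K ↔ y ∈ K) := by
    intro x y h hx hy
    have h1 : Adj (J \ W') x y := h.sub (Finset.mem_sdiff.2 ⟨h.left, hx⟩)
      (Finset.mem_sdiff.2 ⟨h.right, hy⟩)
    exact (comp z1 hK h1.con).1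
  refine ⟨J \ K, hW, Finset.sdiff_subset, fun h => (Finset.mem_sdiff.1 h).2 hz1K, ?_, ?_, ?_⟩
  · -- W is connected
    have h1 : ∀ x, Relation.ReflTransGen (Adj J) x z0 → x ∈ J \ K →
        ∃ w ∈ W', Cf (es (J \ K)) x w := by
      intro x hx
      induction hx using Relation.ReflTransGen.head_induction_on with
      | refl => exact fun _ => ⟨z0, hz0, Con_refl _ _⟩
      | @head x x' h _ ih =>
        intro hxW
        by_cases hx : x ∈ W'
        · exact ⟨x, hx, Con_refl _ _⟩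
        have hx'W : x' ∈ J \ K := by
          by_cases hx' : x' ∈ W'
          · exact hW hx'
          · refine Finset.mem_sdiff.2 ⟨h.right, fun h2 => ?_⟩
            exact (Finset.mem_sdiff.1 hxW).2 ((hadj x x' h hx hx').2 h2)
        obtain ⟨w, hw, hc⟩ := ih hx'W
        exact ⟨w, hw, Con_trans (h.sub hxW hx'W).con hc⟩
    have h2 : ∀ x ∈ J \ K, ∃ w ∈ W', Cf (es (J \ K)) x w := fun x hx =>
      h1 x (box a b z0 (hW' hz0) _ x (Finset.mem_sdiff.1 hx).1 rfl) hx
    intro x hx y hy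
    obtain ⟨w, hw, hxw⟩ := h2 x hx
    obtain ⟨v, hv, hyv⟩ := h2 y hy
    exact Con_trans (Con_trans hxw (Cf_mono hW (hcon w hw v hv))) (Con_symm hyv)
  · rw [hJK]
    intro x hx y hy
    have h1 : Cf (es (J \ W')) x y := Con_trans (Con_symm ((hK x).1 hx).2) ((hK y).1 hy).2
    exact (comp z1 hK h1).2 hx
  · intro e he
    unfold bdy at he
    rw [Finset.mem_filter, mem_es] at he
    obtain ⟨⟨he1, he2⟩, he3⟩ := he
    have hA : Adj J e.1 (tgt e) := ⟨e, mem_es.2 ⟨he1, he2⟩, Or.inl ⟨rfl, rfl⟩⟩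
    have h1 : e.1 ∈ J \ K ↔ e.1 ∉ K := by
      rw [Finset.mem_sdiff]
      exact ⟨fun h => h.2, fun h => ⟨he1, h⟩⟩
    have h2 : tgt e ∈ J \ K ↔ tgt e ∉ K := by
      rw [Finset.mem_sdiff]
      exact ⟨fun h => h.2, fun h => ⟨he2, h⟩⟩
    rw [h1, h2] at he3
    rw [h1, h2]
    constructor
    · intro h3
      by_contra h4
      have h5 : tgt e ∈ K := by
        by_contra h6
        exact he3 ⟨fun _ => h6, fun _ => h3⟩
      exact h3 ((hadj _ _ hA h4 (hKW _ h5)).2 h5)
    · intro h3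
      by_contra h4
      have h5 : e.1 ∈ K := by
        by_contra h6
        exact he3 ⟨fun _ => h3, fun _ => h6⟩
      exact h3 ((hadj _ _ hA (hKW _ h5) h4).1 h5)

end Pool.Agent.FKP
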