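import Pool.Agent.FKP.Basic
import Pool.Agent.FKP.Lem

/-!
# Project FKP, SEQ: sequential trials
-/

set_option autoImplicit false

namespace Pool.Agent.FKP

open Filter MeasureTheory Pool.Agent.FKT

namespace SEQ_

section

variable {E : Type} [DecidableEq E]

/-- The product of the failures of the first `m` trials. -/
noncomputable def Pr (Sj L : ℕ → Finset E) (F : ℕ → Finset E → Finset E → Prop) (m : ℕ)
    (ω : Finset E) : ℝ :=
  ∏ j ∈ Finset.range m, ind (¬ F j (ω ∩ L j) (ω ∩ Sj j))

theorem Pr_nonneg (Sj L : ℕ → Finset E) (F : ℕ → Finset E → Finset E → Prop) (m : ℕ)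
    (ω : Finset E) : 0 ≤ Pr Sj L F m ω :=
  Finset.prod_nonneg fun _ _ => ind_nonneg _

theorem Pr_succ (Sj L : ℕ → Finset E) (F : ℕ → Finset E → Finset E → Prop) (m : ℕ)
    (ω : Finset E) :
    Pr Sj L F (m + 1) ω = Pr Sj L F m ω * ind (¬ F m (ω ∩ L m) (ω ∩ Sj m)) :=
  Finset.prod_range_succ _ _

omit [DecidableEq E] in
/-- The explored sets increase. -/
theorem chain {L : ℕ → Finset E} {M : ℕ} (h : ∀ j < M, L j ⊆ L (j + 1)) :
    ∀ m ≤ M, ∀ j ≤ m, L j ⊆ L m := by
  intro m
  induction m with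
  | zero =>
    intro _ j hj
    have h1 : j = 0 := by omega
    rw [h1]
  | succ m ih =>
    intro hm j hj
    rcases Nat.lt_or_ge m j with h1 | h1
    · have h2 : j = m + 1 := by omega
      rw [h2]
    · exact (ih (by omega) j h1).trans (h m (by omega))

theorem inter_sdiff_eq {A S ω : Finset E} (h : Disjoint S A) : (ω \ S) ∩ A = ω ∩ A := by
  ext e
  simp only [Finset.mem_inter, Finset.mem_sdiff]
  constructor
  · rintro ⟨⟨h1, -⟩, h3⟩
    exact ⟨h1, h3⟩
  · rintro ⟨h1, h3⟩
    exact ⟨⟨h1, fun h4 => (Finset.disjoint_left.1 h h4) h3⟩, h3⟩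

theorem Pr_sdiff {Sj L : ℕ → Finset E} {F : ℕ → Finset E → Finset E → Prop} {m : ℕ}
    {S : Finset E} (hL : ∀ j < m, Disjoint S (L j)) (hS : ∀ j < m, Disjoint S (Sj j))
    (ω : Finset E) : Pr Sj L F m (ω \ S) = Pr Sj L F m ω := by
  unfold Pr
  refine Finset.prod_congr rfl fun j hj => ?_
  rw [inter_sdiff_eq (hL j (Finset.mem_range.1 hj)), inter_sdiff_eq (hS j (Finset.mem_range.1 hj))]

end

end SEQ_

open SEQ_ in
theorem p_SEQ (h_DMF : T_DMF) : T_SEQ := by
  intro V E _ s t R U G p q hp hp1 hq M Uj Sj L F α hα hst hF hEx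
  have hq0 : 0 < q := by linarith
  have hch := chain (L := L) (M := M) fun j hj => (hst j hj).2.2.2.2.2
  have key : ∀ m ≤ M, Ex s t R U G p q (Pr Sj L F m) ≤ (1 - α) ^ m := by
    intro m
    induction m with
    | zero =>
      intro _
      have h1 : Ex s t R U G p q (Pr Sj L F 0) = Ex s t R U G p q fun _ => 1 :=
        Ex_congr fun ω _ => by simp [Pr]
      rw [h1, Ex_const hp hp1 hq0, pow_zero]
    | succ m ih =>
      intro hm
      have hm' : m < M := by omega
      obtain ⟨hSG, hUU, hends, hdis, hSL, hLL⟩ := hst m hm'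
      have hL : ∀ j < m, Disjoint (Sj m) (L j) := fun j hj =>
        hdis.mono_right (hch m (by omega) j (by omega))
      have hS : ∀ j < m, Disjoint (Sj m) (Sj j) := fun j hj =>
        hdis.mono_right (((hst j (by omega)).2.2.2.2.1).trans (hch m (by omega) (j + 1) (by omega)))
      have h1 := h_DMF V E s t R U (Uj m) G (Sj m) p q hp hp1 hq hSG hUU hends
        (fun a β => -(Pr Sj L F m a * ind (¬ F m (a ∩ L m) β))) (by
          intro ξ a b hab _
          apply neg_le_neg
          exact mul_le_mul_of_nonneg_left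
            (ind_mono fun h2 h3 => h2 (hF m hm' _ a b hab h3)) (Pr_nonneg _ _ _ _ _))
      have h2 : Ex s t R U G p q (fun ω => -(Pr Sj L F m (ω \ Sj m) *
          ind (¬ F m ((ω \ Sj m) ∩ L m) (ω ∩ Sj m)))) =
          -1 * Ex s t R U G p q (Pr Sj L F (m + 1)) := by
        rw [← Ex_mul_left]
        refine Ex_congr fun ω _ => ?_
        rw [Pr_sdiff hL hS, inter_sdiff_eq hdis, Pr_succ]
        ring
      have h3 : -(1 - α) * Ex s t R U G p q (Pr Sj L F m) ≤
          Ex s t R U G p q (fun ω => Ex s t (no V) (Uj m) (Sj m) p q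
            (fun β => -(Pr Sj L F m (ω \ Sj m) * ind (¬ F m ((ω \ Sj m) ∩ L m) β)))) := by
        rw [← Ex_mul_left]
        refine Ex_mono hp hp1 hq0 fun ω _ => ?_
        have h4 : Ex s t (no V) (Uj m) (Sj m) p q
            (fun β => -(Pr Sj L F m (ω \ Sj m) * ind (¬ F m ((ω \ Sj m) ∩ L m) β))) =
            -Pr Sj L F m (ω \ Sj m) * Ex s t (no V) (Uj m) (Sj m) p q
              (fun β => 1 - ind (F m ((ω \ Sj m) ∩ L m) β)) := by
          rw [← Ex_mul_left]
          refine Ex_congr fun β _ => ?_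
          rw [ind_not]
          ring
        rw [h4, Ex_sub, Ex_const hp hp1 hq0, Pr_sdiff hL hS]
        have h5 := hEx m hm' ((ω \ Sj m) ∩ L m)
        have h6 := Pr_nonneg Sj L F m ω
        nlinarith
      rw [h2] at h1
      have h7 := h3.trans h1
      have h8 := ih (by omega)
      have h9 : (1 - α) * Ex s t R U G p q (Pr Sj L F m) ≤ (1 - α) * (1 - α) ^ m :=
        mul_le_mul_of_nonneg_left h8 (by linarith)
      rw [pow_succ]
      linarith
  exact key M le_rfl

end Pool.Agent.FKP
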