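import Pool.Agent.FKP.PartA
import Pool.Agent.FKP.Lem

/-!
# Project FKP: free and wired probability of a finite set of edges
-/

set_option autoImplicit false

namespace Pool.Agent.FKP

open Filter MeasureTheory Pool.Agent.FKT

namespace SEX_

theorem mem_bx0 {d : ℕ} {n : ℕ} {x : Vx d} :
    x ∈ bx (0 : Vx d) n ↔ ∀ i, -(n : ℤ) ≤ x i ∧ x i ≤ n := by
  unfold bx
  rw [Finset.mem_Icc, Pi.le_def, Pi.le_def]
  simp only [Pi.zero_apply, zero_sub, zero_add]
  exact ⟨fun h i => ⟨h.1 i, h.2 i⟩, fun h => ⟨fun i => (h i).1, fun i => (h i).2⟩⟩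

theorem bx0_mono {d : ℕ} {m n : ℕ} (h : m ≤ n) : bx (0 : Vx d) m ⊆ bx 0 n := by
  intro x hx
  rw [mem_bx0] at hx ⊢
  intro i
  have h1 := hx i
  have h2 : (m : ℤ) ≤ n := by exact_mod_cast h
  constructor <;> linarith [h1.1, h1.2]

/-- finite sets of edges are contained in boxes -/
theorem box {d : ℕ} (F : Finset (Ed d)) (m : ℕ) : ∃ m' : ℕ, m ≤ m' ∧ F ⊆ eb (0 : Vx d) m' := by
  let b : Ed d → ℕ := fun e => (Finset.univ.sup fun i => (e.1 i).natAbs) + 1
  refine ⟨max m (F.sup b), le_max_left _ _, fun e he => ?_⟩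
  rw [← es_bx, mem_es, mem_bx0, mem_bx0]
  have h1 : b e ≤ max m (F.sup b) := (Finset.le_sup he).trans (le_max_right _ _)
  have h2 : ∀ i, (e.1 i).natAbs + 1 ≤ max m (F.sup b) := by
    intro i
    have h3 : (e.1 i).natAbs ≤ Finset.univ.sup fun i => (e.1 i).natAbs :=
      Finset.le_sup (f := fun i => (e.1 i).natAbs) (Finset.mem_univ i)
    have h4 : b e = (Finset.univ.sup fun i => (e.1 i).natAbs) + 1 := rfl
    omega
  generalize max m (F.sup b) = M at *
  constructor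
  · intro i
    have := h2 i
    omega
  · intro i
    have h3 := h2 i
    unfold tgt
    rw [Pi.add_apply, Pi.single_apply]
    split_ifs <;> omega

end SEX_

open SEX_ in
/-- SEX. -/
theorem p_SEX (hM : T_MIX) (hI : T_INC) (hH : T_HOL) (hE : T_FEN) : T_SEX := by
  intro d hd pa pb q hpa hpab hpb hq F m
  obtain ⟨m', hm', hF⟩ := box F m
  have hq0 : 0 < q := by linarith
  have hden : ∀ p : ℝ, 0 < p → p < 1 → 0 < p + q * (1 - p) := by
    intro p h1 h2
    have : 0 ≤ q * (1 - p) := mul_nonneg (by linarith) (by linarith)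
    linarith
  have hP0 : 0 < pa / (pa + q * (1 - pa)) := div_pos hpa (hden pa hpa (by linarith))
  obtain ⟨N0, hN0⟩ := hM d (by omega) pa pb q hpa hpab hpb hq m' _ (pow_pos hP0 F.card)
  obtain ⟨p, hp1, hp2, hmix⟩ := hN0 (max N0 m') (le_max_left _ _)
  set r : ℕ := max N0 m' with hr
  have hp0 : 0 < p := by linarith
  have hp1' : p < 1 := by linarith
  have hm'r : m' ≤ r := le_max_right _ _
  have hFr : F ⊆ es (bx (0 : Vx d) r) := fun e he => by
    have h1 := hF he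
    rw [← es_bx] at h1
    exact es_mono (bx0_mono hm'r) h1
  refine ⟨r, hm'.trans hm'r, hFr, p, hp1, hp2, ?_⟩
  have hol : ∀ f : Finset (Ed d) → ℝ, (∀ a b : Finset (Ed d), a ⊆ b → f a ≤ f b) →
      Ex Prod.fst tgt (no (Vx d)) (bx (0 : Vx d) r) (eb (0 : Vx d) r) p q f ≤
        Ex Prod.fst tgt (Wir (0 : Vx d) r) (bx (0 : Vx d) r) (eb (0 : Vx d) r) p q f := by
    intro f hf
    refine hH (Vx d) (Ed d) Prod.fst tgt _ _ _ _ p p q hp0 le_rfl hp1' hq
      (fun a b h => absurd h (by simp [no])) (fun e he => ?_) f fun a b hab _ => hf a b hab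
    rw [← es_bx] at he
    exact mem_es.1 he
  have hinc := hI (Vx d) (Ed d) Prod.fst tgt (no (Vx d)) (Wir (0 : Vx d) r) (bx (0 : Vx d) r)
    (bx (0 : Vx d) r) (eb (0 : Vx d) r) p q hp0 hp1' hq0 hol F (fun ω => F ⊆ ω)
    fun a b hab h => h.trans hab
  have hQ : (fun ω : Finset (Ed d) => ind (F ⊆ ω ∩ F)) = fun ω => ind (F ⊆ ω) := by
    funext ω
    refine ind_congr ⟨fun h => h.trans Finset.inter_subset_left, fun h => ?_⟩
    exact Finset.subset_inter h (Finset.Subset.refl _)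
  rw [hQ] at hinc
  have hnn : ∀ e, 0 ≤ phi (0 : Vx d) r p q (fun ω => ind (e ∈ ω)) -
      fr (bx (0 : Vx d) r) p q fun ω => ind (e ∈ ω) := by
    intro e
    exact sub_nonneg.2 (hol (fun ω => ind (e ∈ ω)) fun a b hab => ind_mono fun h => hab h)
  have hsum : ∑ e ∈ F, (phi (0 : Vx d) r p q (fun ω => ind (e ∈ ω)) -
      fr (bx (0 : Vx d) r) p q fun ω => ind (e ∈ ω)) ≤
      ∑ e ∈ eb (0 : Vx d) m', (phi (0 : Vx d) r p q (fun ω => ind (e ∈ ω)) -
        fr (bx (0 : Vx d) r) p q fun ω => ind (e ∈ ω)) :=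
    Finset.sum_le_sum_of_subset_of_nonneg hF fun e _ _ => hnn e
  have hfen := hE (Vx d) (Ed d) Prod.fst tgt (no (Vx d)) (bx (0 : Vx d) r)
    (es (bx (0 : Vx d) r)) p q hp0 hp1' hq (fun e he => mem_es.1 he) F hFr
  have hmon : (pa / (pa + q * (1 - pa))) ^ F.card ≤ (p / (p + q * (1 - p))) ^ F.card := by
    refine pow_le_pow_left₀ hP0.le ?_ _
    rw [div_le_div_iff₀ (hden pa hpa (by linarith)) (hden p hp0 hp1')]
    nlinarith [mul_le_mul_of_nonneg_left hp1 hq0.le]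
  have h1 : phi (0 : Vx d) r p q (fun ω => ind (F ⊆ ω)) -
      fr (bx 0 r) p q (fun ω => ind (F ⊆ ω)) ≤ (pa / (pa + q * (1 - pa))) ^ F.card :=
    le_trans hinc (hsum.trans hmix)
  have h2 : (pa / (pa + q * (1 - pa))) ^ F.card ≤
      fr (bx (0 : Vx d) r) p q fun ω => ind (F ⊆ ω) := hmon.trans hfen
  linarith

end Pool.Agent.FKP
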