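import Pool.Agent.FKP.PartB
import Pool.Agent.FKP.Lem
import Pool.Agent.FKT.TargetsA

/-!
# Project FKP: from slabs with two long directions to slabs with one short direction
-/

set_option autoImplicit false

namespace Pool.Agent.FKP

open Filter MeasureTheory Pool.Agent.FKT

namespace SLC_

theorem mem_bx2 {d : ℕ} {i j : Fin d} {A H : ℕ} {x : Vx d} :
    x ∈ bx2 i j A H ↔ (∀ l, (l = i ∨ l = j) → -(A : ℤ) ≤ x l ∧ x l ≤ A) ∧
      ∀ l, ¬ (l = i ∨ l = j) → -(H : ℤ) ≤ x l ∧ x l ≤ H := by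
  unfold bx2
  rw [Finset.mem_Icc, Pi.le_def, Pi.le_def]
  constructor
  · rintro ⟨h1, h2⟩
    refine ⟨fun l hl => ?_, fun l hl => ?_⟩
    · have h3 := h1 l
      have h4 := h2 l
      rw [if_pos hl] at h3 h4
      exact ⟨h3, h4⟩
    · have h3 := h1 l
      have h4 := h2 l
      rw [if_neg hl] at h3 h4
      exact ⟨h3, h4⟩
  · rintro ⟨h1, h2⟩
    constructor <;> intro l <;> by_cases hl : l = i ∨ l = j
    · rw [if_pos hl]
      exact (h1 l hl).1
    · rw [if_neg hl]
      exact (h2 l hl).1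
    · rw [if_pos hl]
      exact (h1 l hl).2
    · rw [if_neg hl]
      exact (h2 l hl).2

theorem mem_slb {d : ℕ} {i : Fin d} {L : ℕ} {c : ℤ} {n : ℕ} {x : Vx d} :
    x ∈ slb i L c n ↔ (c ≤ x i ∧ x i ≤ c + L) ∧ ∀ l, l ≠ i → -(n : ℤ) ≤ x l ∧ x l ≤ n := by
  unfold slb
  rw [Finset.mem_Icc, Pi.le_def, Pi.le_def]
  constructor
  · rintro ⟨h1, h2⟩
    refine ⟨?_, fun l hl => ?_⟩
    · have h3 := h1 i
      have h4 := h2 i
      rw [if_pos rfl] at h3 h4
      exact ⟨h3, h4⟩
    · have h3 := h1 l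
      have h4 := h2 l
      rw [if_neg hl] at h3 h4
      exact ⟨h3, h4⟩
  · rintro ⟨h1, h2⟩
    constructor <;> intro l <;> by_cases hl : l = i
    · rw [if_pos hl, hl]
      exact h1.1
    · rw [if_neg hl]
      exact (h2 l hl).1
    · rw [if_pos hl, hl]
      exact h1.2
    · rw [if_neg hl]
      exact (h2 l hl).2

theorem Cf_mono {d : ℕ} {ω ω' : Finset (Ed d)} (h : ω ⊆ ω') {x y : Vx d} (hxy : Cf ω x y) :
    Cf ω' x y :=
  Con_mono (fun _ _ h => h) (Finset.coe_subset.2 h) hxy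

theorem ends {d : ℕ} (S : Finset (Vx d)) : ∀ e ∈ es S, Prod.fst e ∈ S ∧ tgt e ∈ S :=
  fun _ he => mem_es.1 he

theorem tp_refl {d : ℕ} (S : Finset (Vx d)) {p q : ℝ} (hp : 0 < p) (hp1 : p < 1) (hq : 0 < q)
    (x : Vx d) : tp S p q x x = 1 := by
  unfold tp fr fw
  rw [← Ex_const (s := Prod.fst) (t := tgt) (R := no (Vx d)) (U := S) (G := es S) hp hp1 hq 1]
  exact Ex_congr fun ω _ => ind_true (Con_refl _ _)

theorem tp_trans {d : ℕ} (hF : FKT.T_FKG) (S : Finset (Vx d)) {p q : ℝ} (hp : 0 < p)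
    (hp1 : p < 1) (hq : 1 ≤ q) (x y z : Vx d) :
    tp S p q x y * tp S p q y z ≤ tp S p q x z := by
  have h1 := (hF (Vx d) (Ed d) Prod.fst tgt (no (Vx d)) S (es S) p q hp hp1 hq (ends S)).1
    (fun ω => ind (Cf ω x y)) (fun ω => ind (Cf ω y z))
    (fun a b hab => ind_mono (Cf_mono hab)) (fun a b hab => ind_mono (Cf_mono hab))
  refine h1.trans ?_
  unfold tp fr fw
  refine Ex_mono hp hp1 (by linarith) fun ω _ => ?_
  rw [← ind_and]
  exact ind_mono fun h => Con_trans h.1 h.2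

theorem tp_chain {d : ℕ} (hF : FKT.T_FKG) (S : Finset (Vx d)) {p q : ℝ} (hp : 0 < p)
    (hp1 : p < 1) (hq : 1 ≤ q) {α : ℝ} (hα : 0 ≤ α) (f : ℕ → Vx d) :
    ∀ m : ℕ, (∀ t < m, α ≤ tp S p q (f t) (f (t + 1))) → α ^ m ≤ tp S p q (f 0) (f m) := by
  intro m
  induction m with
  | zero =>
    intro _
    rw [pow_zero, tp_refl S hp hp1 (by linarith)]
  | succ m ih =>
    intro h
    have h1 := ih fun t ht => h t (by omega)
    have h2 := h m (by omega)
    calc α ^ (m + 1) = α ^ m * α := pow_succ _ _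
      _ ≤ tp S p q (f 0) (f m) * tp S p q (f m) (f (m + 1)) :=
        mul_le_mul h1 h2 hα ((pow_nonneg hα m).trans h1)
      _ ≤ tp S p q (f 0) (f (m + 1)) := tp_trans hF S hp hp1 hq _ _ _

/-- the small slabs -/
theorem small {d : ℕ} (hE : T_FEN) (hB : T_BCN) (a b : Vx d) {p q : ℝ} (hp : 0 < p)
    (hp1 : p < 1) (hq : 1 ≤ q) {x y : Vx d} (hx : x ∈ Finset.Icc a b) (hy : y ∈ Finset.Icc a b) :
    (p / (p + q * (1 - p))) ^ (es (Finset.Icc a b)).card ≤ tp (Finset.Icc a b) p q x y := by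
  refine (hE (Vx d) (Ed d) Prod.fst tgt (no (Vx d)) (Finset.Icc a b) (es (Finset.Icc a b)) p q
    hp hp1 hq (ends _) _ (Finset.Subset.refl _)).trans ?_
  unfold tp fr fw
  refine Ex_mono hp hp1 (by linarith) fun ω _ => ?_
  exact ind_mono fun h => Cf_mono h (hB d a b x hx y hy)

theorem card_es {d : ℕ} (a b : Vx d) (B : ℕ) (h : ∀ l, (b l + 1 - a l).toNat ≤ B) :
    (es (Finset.Icc a b)).card ≤ B ^ d * d := by
  have h1 : (es (Finset.Icc a b)).card ≤ (Finset.Icc a b).card * d := by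
    unfold es
    refine (Finset.card_filter_le _ _).trans ?_
    rw [Finset.card_product, Finset.card_univ, Fintype.card_fin]
  refine h1.trans (Nat.mul_le_mul_right d ?_)
  rw [Pi.card_Icc]
  refine (Finset.prod_le_pow_card Finset.univ _ B fun l _ => ?_).trans ?_
  · rw [Int.card_Icc]
    exact h l
  · rw [Finset.card_univ, Fintype.card_fin]

/-- a permutation with two prescribed values -/
theorem perm {k : ℕ} (j j' : Fin (k + 3)) (h : j ≠ j') :
    ∃ σ : Equiv.Perm (Fin (k + 3)), σ 0 = j ∧ σ 1 = j' := by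
  have h01 : (0 : Fin (k + 3)) ≠ 1 := by
    intro h
    have := congrArg Fin.val h
    simp at this
  refine ⟨Equiv.swap 0 j * Equiv.swap 1 ((Equiv.swap 0 j).symm j'), ?_, ?_⟩
  · rw [Equiv.Perm.mul_apply, Equiv.swap_apply_of_ne_of_ne h01, Equiv.swap_apply_left]
    intro h1
    have h2 := congrArg (Equiv.swap 0 j) h1
    rw [Equiv.apply_symm_apply, Equiv.swap_apply_left] at h2
    exact h h2
  · rw [Equiv.Perm.mul_apply, Equiv.swap_apply_left, Equiv.apply_symm_apply]

/-- two further directions -/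
theorem dirs {k : ℕ} (i j0 : Fin (k + 3)) :
    ∃ j j' : Fin (k + 3), j ≠ i ∧ j' ≠ i ∧ j ≠ j' ∧ (j0 = i ∨ j0 = j) := by
  have h1 : ∀ a b : Fin (k + 3), ∃ c, c ≠ a ∧ c ≠ b := by
    intro a b
    by_contra hne
    push Not at hne
    have h2 : (Finset.univ : Finset (Fin (k + 3))) ⊆ {a, b} := by
      intro c _
      rw [Finset.mem_insert, Finset.mem_singleton]
      by_cases hc : c = a
      · exact Or.inl hc
      · exact Or.inr (hne c hc)
    have h3 := Finset.card_le_card h2
    rw [Finset.card_univ, Fintype.card_fin] at h3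
    have h4 := Finset.card_le_two (a := a) (b := b)
    omega
  by_cases h : j0 = i
  · obtain ⟨j, hj, _⟩ := h1 i i
    obtain ⟨j', hj'i, hj'j⟩ := h1 i j
    exact ⟨j, j', hj, hj'i, hj'j.symm, Or.inl h⟩
  · obtain ⟨j', hj'i, hj'j⟩ := h1 i j0
    exact ⟨j0, j', h, hj'i, hj'j.symm, Or.inr rfl⟩

/-- two points of a slab which differ in one coordinate -/
theorem one (hA : T_AUT) (hD : T_DMC) {k : ℕ} {p q : ℝ} (hp : 0 < p) (hp1 : p < 1)
    (hq : 1 ≤ q) {N A0 : ℕ} {α : ℝ}
    (h : ∀ A : ℕ, A0 ≤ A → ∀ x ∈ bx2 (0 : Fin (k + 3)) 1 A N,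
      ∀ y ∈ bx2 (0 : Fin (k + 3)) 1 A N, α ≤ tp (bx2 (0 : Fin (k + 3)) 1 A N) p q x y)
    (i : Fin (k + 3)) (c : ℤ) (n : ℕ) (hn : A0 ≤ n) (hN : N ≤ n) (u v : Vx (k + 3))
    (hu : u ∈ slb i (2 * N) c n) (hv : v ∈ slb i (2 * N) c n) (j0 : Fin (k + 3))
    (huv : ∀ l, l ≠ j0 → u l = v l) : α ≤ tp (slb i (2 * N) c n) p q u v := by
  obtain ⟨j, j', hji, hj'i, hjj', hj0⟩ := dirs i j0
  obtain ⟨σ, hσ0, hσ1⟩ := perm j j' hjj'
  rw [mem_slb] at hu hv
  have hLN : ((2 * N : ℕ) : ℤ) = 2 * (N : ℤ) := by push_cast; ring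
  rw [hLN] at hu hv
  have hNn : (N : ℤ) ≤ n := by exact_mod_cast hN
  have hσ : ∀ l, (l = 0 ∨ l = 1) ↔ (σ l = j ∨ σ l = j') := by
    intro l
    rw [← hσ0, ← hσ1, σ.apply_eq_iff_eq, σ.apply_eq_iff_eq]
  -- the translation
  obtain ⟨M, hM1, hM2, hM3⟩ : ∃ M : Fin (k + 3) → ℤ, (∀ l, (l = j ∨ l = j') → M l = 0) ∧
      M i = c + N ∧ ∀ l, ¬ (l = j ∨ l = j') → l ≠ i →
        M l = max (-(n : ℤ) + N) (min (n - N) (u l)) := by
    refine ⟨fun l => if l = j ∨ l = j' then 0 else if l = i then c + N else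
      max (-(n : ℤ) + N) (min (n - N) (u l)), fun l hl => if_pos hl, ?_, fun l hl hli => ?_⟩
    · have h1 : ¬ (i = j ∨ i = j') := by
        rintro (h1 | h1)
        · exact hji h1.symm
        · exact hj'i h1.symm
      simp only [if_neg h1, if_true]
    · simp only [if_neg hl, if_neg hli]
  let c' : Vx (k + 3) ≃ Vx (k + 3) :=
    { toFun := fun x l => x (σ.symm l) + M l
      invFun := fun z l => z (σ l) - M (σ l)
      left_inv := fun x => by
        funext l
        simp
      right_inv := fun z => by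
        funext l
        simp }
  have hc' : ∀ (x : Vx (k + 3)) (i : Fin (k + 3)),
      c' (x + Pi.single i 1) = c' x + Pi.single (σ i) 1 := by
    intro x i
    funext l
    change (x + Pi.single i 1 : Vx (k + 3)) (σ.symm l) + M l =
      (x (σ.symm l) + M l) + (Pi.single (σ i) 1 : Vx (k + 3)) l
    rw [Pi.add_apply, Pi.single_apply, Pi.single_apply]
    by_cases hl : σ.symm l = i
    · rw [if_pos hl, if_pos (by rw [← hl, Equiv.apply_symm_apply])]
      ring
    · rw [if_neg hl, if_neg (fun h' => hl (by rw [h', Equiv.symm_apply_apply]))]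
      ring
  -- points of the slab with the small coordinates of `u`
  have hin : ∀ z : Vx (k + 3), (c ≤ z i ∧ z i ≤ c + 2 * (N : ℤ)) →
      (∀ l, l ≠ i → -(n : ℤ) ≤ z l ∧ z l ≤ n) → (∀ l, l ≠ i → l ≠ j → z l = u l) →
      c'.symm z ∈ bx2 (0 : Fin (k + 3)) 1 n N := by
    intro z hz1 hz2 hz3
    rw [mem_bx2]
    constructor
    · intro l hl
      have h1 := (hσ l).1 hl
      change -(n : ℤ) ≤ z (σ l) - M (σ l) ∧ z (σ l) - M (σ l) ≤ n
      rw [hM1 _ h1, sub_zero]
      refine hz2 _ ?_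
      rcases h1 with h1 | h1 <;> rw [h1] <;> assumption
    · intro l hl
      have h1 : ¬ (σ l = j ∨ σ l = j') := fun h' => hl ((hσ l).2 h')
      change -(N : ℤ) ≤ z (σ l) - M (σ l) ∧ z (σ l) - M (σ l) ≤ N
      by_cases h2 : σ l = i
      · rw [h2, hM2]
        constructor <;> linarith [hz1.1, hz1.2]
      · rw [hM3 _ h1 h2, hz3 _ h2 fun h' => h1 (Or.inl h')]
        have h3 := hu.2 _ h2
        constructor
        · have : max (-(n : ℤ) + N) (min (n - N) (u (σ l))) ≤ u (σ l) + N := by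
            refine max_le (by linarith [h3.1]) ((min_le_right _ _).trans (by linarith))
          linarith
        · have : u (σ l) - N ≤ max (-(n : ℤ) + N) (min (n - N) (u (σ l))) := by
            refine le_max_of_le_right (le_min (by linarith [h3.2]) (by linarith))
          linarith
  have hu' := hin u hu.1 hu.2 fun l _ _ => rfl
  have hv' := hin v hv.1 hv.2 fun l hl1 hl2 => (huv l (by
    rintro rfl
    rcases hj0 with h' | h'
    · exact hl1 h'
    · exact hl2 h')).symm
  have h1 := h n hn _ hu' _ hv'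
  have h2 := (hA (k + 3) c' σ hc' (bx2 (0 : Fin (k + 3)) 1 n N) p q).2 (c'.symm u) (c'.symm v)
  rw [Equiv.apply_symm_apply, Equiv.apply_symm_apply] at h2
  rw [← h2] at h1
  -- the image is contained in the slab
  have hsub : (bx2 (0 : Fin (k + 3)) 1 n N).map c'.toEmbedding ⊆ slb i (2 * N) c n := by
    intro z hz
    rw [Finset.mem_map] at hz
    obtain ⟨x, hx, rfl⟩ := hz
    rw [mem_bx2] at hx
    rw [mem_slb, hLN]
    have hσi : ¬ (σ.symm i = 0 ∨ σ.symm i = 1) := by
      intro h'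
      have h'' := (hσ _).1 h'
      rw [Equiv.apply_symm_apply] at h''
      rcases h'' with h'' | h''
      · exact hji h''.symm
      · exact hj'i h''.symm
    refine ⟨?_, fun l hl => ?_⟩
    · change c ≤ x (σ.symm i) + M i ∧ x (σ.symm i) + M i ≤ c + 2 * (N : ℤ)
      have h3 := hx.2 _ hσi
      rw [hM2]
      constructor <;> linarith [h3.1, h3.2]
    · change -(n : ℤ) ≤ x (σ.symm l) + M l ∧ x (σ.symm l) + M l ≤ n
      by_cases h3 : σ.symm l = 0 ∨ σ.symm l = 1
      · have h4 := (hσ _).1 h3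
        rw [Equiv.apply_symm_apply] at h4
        rw [hM1 l h4, add_zero]
        exact hx.1 _ h3
      · have h4 : ¬ (l = j ∨ l = j') := by
          intro h'
          apply h3
          rw [hσ, Equiv.apply_symm_apply]
          exact h'
        rw [hM3 l h4 hl]
        have h5 := hx.2 _ h3
        constructor
        · have : -(n : ℤ) + N ≤ max (-(n : ℤ) + N) (min (n - N) (u l)) := le_max_left _ _
          linarith [h5.1]
        · have : max (-(n : ℤ) + N) (min (n - N) (u l)) ≤ n - N :=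
            max_le (by linarith) (min_le_left _ _)
          linarith [h5.2]
  have h3 := hD (Vx (k + 3)) (Ed (k + 3)) Prod.fst tgt (no _) (slb i (2 * N) c n) _
    (es (slb i (2 * N) c n)) _ p q hp hp1 hq (es_mono hsub) hsub (ends _)
    (fun ω => ind (Cf ω u v)) fun a b hab _ => ind_mono (Cf_mono hab)
  refine h1.trans (le_trans h3 ?_)
  unfold tp fr fw
  exact Ex_mono hp hp1 (by linarith) fun ω _ => ind_mono (Cf_mono Finset.inter_subset_left)

end SLC_

open SLC_ in
/-- SLC. -/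
theorem p_SLC (hA : T_AUT) (hD : T_DMC) (hE : T_FEN) (hB : T_BCN) (hF : FKT.T_FKG) : T_SLC := by
  intro k q hq p hp hp1 N A0 α hα h
  set P : ℝ := p / (p + q * (1 - p)) with hP
  have hden : 0 < p + q * (1 - p) := by
    have : 0 ≤ q * (1 - p) := mul_nonneg (by linarith) (by linarith)
    linarith
  have hP0 : 0 < P := div_pos hp hden
  have hP1 : P ≤ 1 := by
    rw [hP, div_le_one hden]
    have : 0 ≤ q * (1 - p) := mul_nonneg (by linarith) (by linarith)
    linarith
  set n0 : ℕ := max A0 N with hn0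
  set B : ℕ := 2 * N + 2 * n0 + 1 with hB'
  refine ⟨2 * N, min (P ^ (B ^ (k + 3) * (k + 3))) (α ^ (k + 3)), lt_min (pow_pos hP0 _)
    (pow_pos hα _), ?_⟩
  intro i c n x hx y hy
  by_cases hn : n < n0
  · refine (min_le_left _ _).trans ?_
    have h1 : (es (slb i (2 * N) c n)).card ≤ B ^ (k + 3) * (k + 3) := by
      refine card_es _ _ B fun l => ?_
      by_cases hl : l = i
      · rw [if_pos hl, if_pos hl]
        omega
      · rw [if_neg hl, if_neg hl]
        omega
    exact (pow_le_pow_of_le_one hP0.le hP1 h1).trans (small hE hB _ _ hp hp1 hq hx hy)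
  · refine (min_le_right _ _).trans ?_
    have hn1 : A0 ≤ n := by omega
    have hn2 : N ≤ n := by omega
    have hxs := mem_slb.1 hx
    have hys := mem_slb.1 hy
    let f : ℕ → Vx (k + 3) := fun t l => if l.val < t then y l else x l
    have hf : ∀ t, f t ∈ slb i (2 * N) c n := by
      intro t
      rw [mem_slb]
      refine ⟨?_, fun l hl => ?_⟩
      · by_cases ht : i.val < t
        · simp only [f, if_pos ht]
          exact hys.1
        · simp only [f, if_neg ht]
          exact hxs.1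
      · by_cases ht : l.val < t
        · simp only [f, if_pos ht]
          exact hys.2 l hl
        · simp only [f, if_neg ht]
          exact hxs.2 l hl
    have h0 : f 0 = x := by
      funext l
      simp [f]
    have h1 : f (k + 3) = y := by
      funext l
      simp only [f, if_pos l.isLt]
    have h2 := tp_chain hF (slb i (2 * N) c n) hp hp1 hq hα.le f (k + 3) fun t ht => by
      refine one hA hD hp hp1 hq h i c n hn1 hn2 _ _ (hf t) (hf (t + 1)) ⟨t, ht⟩ fun l hl => ?_
      have h3 : l.val ≠ t := fun h' => hl (Fin.ext h')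
      simp only [f]
      by_cases h4 : l.val < t
      · rw [if_pos h4, if_pos (by omega)]
      · rw [if_neg h4, if_neg (by omega)]
    rw [h0, h1] at h2
    exact h2

end Pool.Agent.FKP
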