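import Pool.Agent.FKP.PartC
import Pool.Agent.FKP.Lem

/-!
# Project FKP, SLV: translated slabs
-/

set_option autoImplicit false

namespace Pool.Agent.FKP

open Filter MeasureTheory Pool.Agent.FKT

namespace SLV_

theorem map_slb {d : ℕ} (v : Vx d) (i : Fin d) (L : ℕ) (c : ℤ) (n : ℕ) :
    (slb i L (c - v i) n).map (Equiv.addRight v).toEmbedding = slc v i L c n := by
  ext x
  rw [Finset.mem_map_equiv]
  have hx : (Equiv.addRight v).symm x = x - v := by
    rw [Equiv.addRight_symm, Equiv.coe_addRight]
    exact (sub_eq_add_neg x v).symm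
  rw [hx]
  unfold slb slc
  rw [Finset.mem_Icc, Finset.mem_Icc, Pi.le_def, Pi.le_def, Pi.le_def, Pi.le_def]
  constructor
  · rintro ⟨h1, h2⟩
    refine ⟨fun l => ?_, fun l => ?_⟩
    · have h3 := h1 l
      simp only [Pi.sub_apply] at h3
      by_cases hl : l = i
      · subst hl
        simp only [if_true] at h3 ⊢
        linarith
      · simp only [if_neg hl] at h3 ⊢
        linarith
    · have h3 := h2 l
      simp only [Pi.sub_apply] at h3
      by_cases hl : l = i
      · subst hl
        simp only [if_true] at h3 ⊢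
        linarith
      · simp only [if_neg hl] at h3 ⊢
        linarith
  · rintro ⟨h1, h2⟩
    refine ⟨fun l => ?_, fun l => ?_⟩
    · have h3 := h1 l
      simp only [Pi.sub_apply]
      by_cases hl : l = i
      · subst hl
        simp only [if_true] at h3 ⊢
        linarith
      · simp only [if_neg hl] at h3 ⊢
        linarith
    · have h3 := h2 l
      simp only [Pi.sub_apply]
      by_cases hl : l = i
      · subst hl
        simp only [if_true] at h3 ⊢
        linarith
      · simp only [if_neg hl] at h3 ⊢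
        linarith

end SLV_

theorem p_SLV (h_AUT : T_AUT) : T_SLV := by
  intro d p q L α hS
  obtain ⟨hα, hS⟩ := hS
  refine ⟨lt_min hα (by norm_num), min_le_right _ _, ?_⟩
  intro v i c n x hx y hy
  have hc : ∀ (z : Vx d) (j : Fin d), (Equiv.addRight v) (z + Pi.single j 1) =
      (Equiv.addRight v) z + Pi.single ((1 : Equiv.Perm (Fin d)) j) 1 := by
    intro z j
    simp only [Equiv.coe_addRight, Equiv.Perm.coe_one, id_eq]
    abel
  have h1 := (h_AUT d (Equiv.addRight v) 1 hc (slb i L (c - v i) n) p q).2
  rw [SLV_.map_slb] at h1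
  have hmem : ∀ z ∈ slc v i L c n, ∃ w ∈ slb i L (c - v i) n, (Equiv.addRight v) w = z := by
    intro z hz
    rw [← SLV_.map_slb, Finset.mem_map] at hz
    obtain ⟨w, hw, hwz⟩ := hz
    exact ⟨w, hw, hwz⟩
  obtain ⟨x', hx', rfl⟩ := hmem x hx
  obtain ⟨y', hy', rfl⟩ := hmem y hy
  rw [h1]
  exact (min_le_left _ _).trans (hS i (c - v i) n x' hx' y' hy')

end Pool.Agent.FKP
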