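import Pool.Agent.FKP.PartC2
import Pool.Agent.FKP.Lem

/-!
# Project FKP: SPB, a separated subset (MP_552f07_pr)
-/

set_option autoImplicit false

namespace Pool.Agent.FKP

open Pool.Agent.FKT

namespace SPB_

theorem card_bx {d : ℕ} (x : Vx d) (m : ℕ) : (bx x m).card = (2 * m + 1) ^ d := by
  unfold bx
  rw [Pi.card_Icc]
  have h : ∀ i ∈ (Finset.univ : Finset (Fin d)),
      (Finset.Icc (x i - (m : ℤ)) (x i + (m : ℤ))).card = 2 * m + 1 := by
    intro i _
    rw [Int.card_Icc]
    omega
  rw [Finset.prod_congr rfl h, Finset.prod_const, Finset.card_univ, Fintype.card_fin]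

theorem mem_bx {d : ℕ} {x v : Vx d} {m : ℕ} (h : ∀ i, |v i - x i| ≤ (m : ℤ)) : v ∈ bx x m := by
  unfold bx
  rw [Finset.mem_Icc]
  refine ⟨fun i => ?_, fun i => ?_⟩
  · have h1 := abs_le.1 (h i)
    show x i - (m : ℤ) ≤ v i
    linarith [h1.1]
  · have h1 := abs_le.1 (h i)
    show v i ≤ x i + (m : ℤ)
    linarith [h1.2]

end SPB_

theorem p_SPB : T_SPB := by
  classical
  intro d D
  have hne : (D.powerset.filter fun D' => Sp D').Nonempty := by
    refine ⟨∅, ?_⟩
    rw [Finset.mem_filter, Finset.mem_powerset]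
    refine ⟨Finset.empty_subset _, ?_⟩
    intro z hz
    exact absurd hz (Finset.notMem_empty z)
  obtain ⟨D', hD', hmax⟩ := Finset.exists_max_image _ (fun D' : Finset (Vx d) => D'.card) hne
  rw [Finset.mem_filter, Finset.mem_powerset] at hD'
  refine ⟨D', hD'.1, hD'.2, ?_⟩
  have hcov : D ⊆ D'.biUnion fun z' => bx z' 4 := by
    intro z hz
    rw [Finset.mem_biUnion]
    by_contra hcon
    push Not at hcon
    have hsep : ∀ z' ∈ D', ∃ i, 5 ≤ |z i - z' i| := by
      intro z' hz'
      by_contra h
      push Not at h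
      refine hcon z' hz' (SPB_.mem_bx fun i => ?_)
      have h1 := h i
      push_cast
      omega
    have hzD : z ∉ D' := by
      intro h
      obtain ⟨i, hi⟩ := hsep z h
      rw [sub_self, abs_zero] at hi
      omega
    have hins : insert z D' ∈ D.powerset.filter fun D' => Sp D' := by
      rw [Finset.mem_filter, Finset.mem_powerset]
      refine ⟨Finset.insert_subset hz hD'.1, ?_⟩
      intro u hu v hv huv
      rw [Finset.mem_insert] at hu hv
      rcases hu with rfl | hu
      · rcases hv with rfl | hv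
        · exact absurd rfl huv
        · exact hsep v hv
      · rcases hv with rfl | hv
        · obtain ⟨i, hi⟩ := hsep u hu
          exact ⟨i, by rwa [abs_sub_comm]⟩
        · exact hD'.2 u hu v hv huv
    have h1 := hmax _ hins
    rw [Finset.card_insert_of_notMem hzD] at h1
    omega
  calc D.card ≤ (D'.biUnion fun z' => bx z' 4).card := Finset.card_le_card hcov
    _ ≤ ∑ z' ∈ D', (bx z' 4).card := Finset.card_biUnion_le
    _ = ∑ _z' ∈ D', 9 ^ d := by
        refine Finset.sum_congr rfl fun z' _ => ?_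
        rw [SPB_.card_bx]
    _ = 9 ^ d * D'.card := by
        rw [Finset.sum_const, smul_eq_mul, mul_comm]

end Pool.Agent.FKP
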