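import Pool.Agent.FKP.PartB
import Pool.Agent.FKP.Lem

/-!
# FKP: a separated subfamily of coarse edges
-/

set_option autoImplicit false

namespace Pool.Agent.FKP

open Pool.Agent.FKT

namespace SPR_

/-- Different elements have base points at distance at least `12`. -/
def Sep (Q : Finset (Ed 2)) : Prop :=
  ∀ e ∈ Q, ∀ e' ∈ Q, e ≠ e' → ∃ i, 12 ≤ |e.1 i - e'.1 i|

theorem exists_max (P : Finset (Ed 2)) : ∃ Q ⊆ P, Sep Q ∧ ∀ Q' ⊆ P, Sep Q' → Q'.card ≤ Q.card := by
  classical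
  obtain ⟨Q, hQ, hmax⟩ := Finset.exists_max_image (P.powerset.filter Sep) Finset.card
    ⟨∅, by simp [Sep]⟩
  rw [Finset.mem_filter, Finset.mem_powerset] at hQ
  refine ⟨Q, hQ.1, hQ.2, fun Q' h1 h2 => hmax Q' ?_⟩
  rw [Finset.mem_filter, Finset.mem_powerset]
  exact ⟨h1, h2⟩

theorem near {P Q : Finset (Ed 2)} (hQP : Q ⊆ P) (hQ : Sep Q)
    (hmax : ∀ Q' ⊆ P, Sep Q' → Q'.card ≤ Q.card) (e : Ed 2) (he : e ∈ P) :
    ∃ e' ∈ Q, ∀ i, |e.1 i - e'.1 i| < 12 := by
  classical
  by_contra hcon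
  push Not at hcon
  have heQ : e ∉ Q := by
    intro h
    obtain ⟨i, hi⟩ := hcon e h
    rw [sub_self, abs_zero] at hi
    omega
  have hS : Sep (insert e Q) := by
    intro a ha b hb hab
    rw [Finset.mem_insert] at ha hb
    rcases ha with rfl | ha
    · rcases hb with rfl | hb
      · exact absurd rfl hab
      · exact hcon b hb
    · rcases hb with rfl | hb
      · obtain ⟨i, hi⟩ := hcon a ha
        exact ⟨i, by rw [abs_sub_comm]; exact hi⟩
      · exact hQ a ha b hb hab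
  have h1 := hmax (insert e Q) (Finset.insert_subset he hQP) hS
  rw [Finset.card_insert_of_notMem heQ] at h1
  omega

theorem fibN (N : ℤ) (P : Finset (Ed 2)) (b : Ed 2) (f : Ed 2 → Ed 2)
    (hf' : ∀ e ∈ P, ∀ i, |e.1 i - (f e).1 i| ≤ N) :
    (P.filter fun e => f e = b).card ≤
      (((Finset.Icc (-N) N) ×ˢ (Finset.Icc (-N) N)) ×ˢ (Finset.univ : Finset (Fin 2))).card := by
  classical
  refine Finset.card_le_card_of_injOn
    (fun e : Ed 2 => ((e.1 0 - b.1 0, e.1 1 - b.1 1), e.2)) ?_ ?_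
  · intro e he
    have he2 := Finset.mem_filter.1 (Finset.mem_coe.1 he)
    have h0 := hf' e he2.1 0
    have h1 := hf' e he2.1 1
    rw [he2.2, abs_le] at h0 h1
    refine Finset.mem_coe.2 (Finset.mem_product.2 ⟨Finset.mem_product.2
      ⟨Finset.mem_Icc.2 h0, Finset.mem_Icc.2 h1⟩, Finset.mem_univ _⟩)
  · intro e _ e' _ h
    simp only [Prod.mk.injEq] at h
    obtain ⟨⟨h0, h1⟩, h2⟩ := h
    refine Prod.ext (funext fun i => ?_) h2
    fin_cases i
    · simp only [Fin.zero_eta]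
      omega
    · simp only [Fin.mk_one]
      omega

theorem fib (P : Finset (Ed 2)) (b : Ed 2) (f : Ed 2 → Ed 2)
    (hf' : ∀ e ∈ P, ∀ i, |e.1 i - (f e).1 i| < 12) :
    (P.filter fun e => f e = b).card ≤ 1250 := by
  refine (fibN 11 P b f fun e he i => Int.lt_add_one_iff.1 (hf' e he i)).trans ?_
  rw [Finset.card_product, Finset.card_product, Int.card_Icc, Finset.card_univ, Fintype.card_fin]
  have h23 : ((11 : ℤ) + 1 - -11).toNat = 23 := by decide
  rw [h23]
  norm_num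

end SPR_

theorem p_SPR : T_SPR := by
  classical
  intro P
  obtain ⟨Q, hQP, hQ, hmax⟩ := SPR_.exists_max P
  refine ⟨Q, hQP, ?_, hQ⟩
  have hnear := SPR_.near hQP hQ hmax
  choose! f hf hf' using hnear
  have key : ∀ b ∈ Q, (P.filter fun e => f e = b).card ≤ 1250 := by
    intro b _
    exact SPR_.fib P b f hf'
  have h2 := Finset.card_le_mul_card_image_of_maps_to hf 1250 key
  exact h2

end Pool.Agent.FKP
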