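import Pool.Agent.FKP.PartB
import Pool.Agent.FKP.Lem

set_option autoImplicit false

/-!
# FKP-STP: one step of the flow
-/

namespace Pool.Agent.FKP

open Filter MeasureTheory Pool.Agent.FKT

namespace STP_

variable {k : ℕ}

/-- The point with the first three coordinates `a`, `b`, `c`. -/
def pt (v : Vx (k + 3)) (a b c : ℤ) : Vx (k + 3) := fun i =>
  if i.val = 0 then a else if i.val = 1 then b else if i.val = 2 then c else v i

theorem pt_zero (v : Vx (k + 3)) (a b c : ℤ) : pt v a b c 0 = a := by simp [pt]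

theorem pt_one (v : Vx (k + 3)) (a b c : ℤ) : pt v a b c 1 = b := by
  simp [pt]

theorem pt_two (v : Vx (k + 3)) (a b c : ℤ) : pt v a b c 2 = c := by
  simp [pt, Nat.mod_eq_of_lt (show 2 < k + 3 by omega)]

theorem tgt_zero (v : Vx (k + 3)) (a b c : ℤ) :
    tgt ((pt v a b c, 0) : Ed (k + 3)) = pt v (a + 1) b c := by
  funext i
  simp only [tgt, Pi.add_apply, Pi.single_apply]
  by_cases h0 : i = 0
  · subst h0
    simp [pt]
  · have h1 : i.val ≠ 0 := fun h => h0 (Fin.ext h)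
    simp [pt, h0]

theorem tgt_one (v : Vx (k + 3)) (a b c : ℤ) :
    tgt ((pt v a b c, 1) : Ed (k + 3)) = pt v a (b + 1) c := by
  have e1 : ((1 : Fin (k + 3)) : ℕ) = 1 := Fin.val_one _
  funext i
  simp only [tgt, Pi.add_apply, Pi.single_apply]
  by_cases h0 : i = 1
  · subst h0
    simp [pt]
  · have h1 : i.val ≠ 1 := fun h => h0 (Fin.ext (by rw [h, e1]))
    simp [pt, h0, h1]

theorem tgt_two (v : Vx (k + 3)) (a b c : ℤ) :
    tgt ((pt v a b c, 2) : Ed (k + 3)) = pt v a b (c + 1) := by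
  have e1 : ((2 : Fin (k + 3)) : ℕ) = 2 := Fin.val_two
  funext i
  simp only [tgt, Pi.add_apply, Pi.single_apply]
  by_cases h0 : i = 2
  · subst h0
    simp [pt, Nat.mod_eq_of_lt (show 2 < k + 3 by omega)]
  · have h1 : i.val ≠ 2 := fun h => h0 (Fin.ext (by rw [h, e1]))
    simp [pt, h0, h1]

/-- The rectangle of the points `pt v a b c`. -/
noncomputable def rect (v : Vx (k + 3)) (a0 a1 b0 b1 c : ℤ) : Finset (Vx (k + 3)) :=
  (Finset.Icc a0 a1 ×ˢ Finset.Icc b0 b1).image fun ab => pt v ab.1 ab.2 c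

theorem mem_rect {v : Vx (k + 3)} {a0 a1 b0 b1 c : ℤ} {x : Vx (k + 3)} :
    x ∈ rect v a0 a1 b0 b1 c ↔
      ∃ a b, (a0 ≤ a ∧ a ≤ a1) ∧ (b0 ≤ b ∧ b ≤ b1) ∧ pt v a b c = x := by
  unfold rect
  rw [Finset.mem_image]
  constructor
  · rintro ⟨⟨a, b⟩, hab, rfl⟩
    rw [Finset.mem_product, Finset.mem_Icc, Finset.mem_Icc] at hab
    exact ⟨a, b, hab.1, hab.2, rfl⟩
  · rintro ⟨a, b, ha, hb, rfl⟩
    exact ⟨(a, b), Finset.mem_product.2 ⟨Finset.mem_Icc.2 ha, Finset.mem_Icc.2 hb⟩, rfl⟩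

theorem sum_rect (v : Vx (k + 3)) (a0 a1 b0 b1 c : ℤ) (F : Vx (k + 3) → ℝ) :
    ∑ x ∈ rect v a0 a1 b0 b1 c, F x =
      ∑ a ∈ Finset.Icc a0 a1, ∑ b ∈ Finset.Icc b0 b1, F (pt v a b c) := by
  unfold rect
  rw [Finset.sum_image, Finset.sum_product]
  rintro ⟨a, b⟩ _ ⟨a', b'⟩ _ h
  have h0 := congrFun h 0
  have h1 := congrFun h 1
  dsimp only at h0 h1
  rw [pt_zero, pt_zero] at h0
  rw [pt_one, pt_one] at h1
  rw [h0, h1]

theorem card_rect (v : Vx (k + 3)) (a0 a1 b0 b1 c : ℤ) :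
    (rect v a0 a1 b0 b1 c).card ≤ (Finset.Icc a0 a1).card * (Finset.Icc b0 b1).card := by
  unfold rect
  exact Finset.card_image_le.trans (by rw [Finset.card_product])

theorem mem_box {c0 c1 d0 d1 : ℤ} {E0 E1 : Fin (k + 3) → ℤ} {v : Vx (k + 3)}
    {x : Vx (k + 3)} :
    x ∈ Finset.Icc
      (fun i : Fin (k + 3) => if i.val = 0 then c0 else if i.val = 1 then c1
        else if i.val = 2 then E0 i else v i)
      (fun i : Fin (k + 3) => if i.val = 0 then d0 else if i.val = 1 then d1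
        else if i.val = 2 then E1 i else v i) ↔
    ∃ a b c, (c0 ≤ a ∧ a ≤ d0) ∧ (c1 ≤ b ∧ b ≤ d1) ∧ (E0 2 ≤ c ∧ c ≤ E1 2) ∧
      pt v a b c = x := by
  have v1 : ((1 : Fin (k + 3)) : ℕ) = 1 := Fin.val_one _
  have v2 : ((2 : Fin (k + 3)) : ℕ) = 2 := Fin.val_two
  rw [Finset.mem_Icc]
  constructor
  · rintro ⟨hl, hu⟩
    have l0 := hl 0
    have u0 := hu 0
    have l1 := hl 1
    have u1 := hu 1
    have l2 := hl 2
    have u2 := hu 2
    simp at l0 u0 l1 u1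
    dsimp only at l2 u2
    rw [v2, if_neg (by norm_num), if_neg (by norm_num), if_pos rfl] at l2 u2
    refine ⟨x 0, x 1, x 2, ⟨l0, u0⟩, ⟨l1, u1⟩, ⟨l2, u2⟩, ?_⟩
    funext i
    have li := hl i
    have ui := hu i
    simp only [pt]
    split_ifs with h0 h1 h2
    · congr 1
      exact Fin.ext (by rw [h0]; rfl)
    · congr 1
      exact Fin.ext (by rw [h1, v1])
    · congr 1
      exact Fin.ext (by rw [h2, v2])
    · simp only [h0, h1, h2, if_false] at li ui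
      exact le_antisymm li ui
  · rintro ⟨a, b, c, ha, hb, hc, rfl⟩
    constructor
    · intro i
      simp only [pt]
      split_ifs with h0 h1 h2
      · exact ha.1
      · exact hb.1
      · have : i = 2 := Fin.ext (by rw [h2, v2])
        rw [this]
        exact hc.1
      · exact le_rfl
    · intro i
      simp only [pt]
      split_ifs with h0 h1 h2
      · exact ha.2
      · exact hb.2
      · have : i = 2 := Fin.ext (by rw [h2, v2])
        rw [this]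
        exact hc.2
      · exact le_rfl

theorem sqr_eq (h : ℕ) (c0 c1 : ℤ) (v : Vx (k + 3)) :
    sqr h c0 c1 v = rect v c0 (c0 + h) c1 (c1 + h) (v 2 + h) := by
  ext x
  unfold sqr
  rw [mem_rect, mem_box (E0 := fun i => v i + (h : ℤ)) (E1 := fun i => v i + (h : ℤ))]
  constructor
  · rintro ⟨a, b, c, ha, hb, hc, hx⟩
    have : c = v 2 + h := le_antisymm hc.2 hc.1
    subst this
    exact ⟨a, b, ha, hb, hx⟩
  · rintro ⟨a, b, ha, hb, hx⟩
    exact ⟨a, b, _, ha, hb, ⟨le_rfl, le_rfl⟩, hx⟩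

theorem mem_lay {h : ℕ} {c0 c1 : ℤ} {v x : Vx (k + 3)} :
    x ∈ lay h c0 c1 v ↔ ∃ a b c, (c0 ≤ a ∧ a ≤ c0 + h + 1) ∧ (c1 ≤ b ∧ b ≤ c1 + h + 1) ∧
      (v 2 + h ≤ c ∧ c ≤ v 2 + h + 1) ∧ pt v a b c = x := by
  unfold lay
  rw [mem_box (E0 := fun i => v i + (h : ℤ)) (E1 := fun i => v i + (h : ℤ) + 1)]

theorem pt_lay {h : ℕ} {c0 c1 : ℤ} {v : Vx (k + 3)} {a b c : ℤ} (ha : c0 ≤ a ∧ a ≤ c0 + h + 1)
    (hb : c1 ≤ b ∧ b ≤ c1 + h + 1) (hc : v 2 + h ≤ c ∧ c ≤ v 2 + h + 1) :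
    pt v a b c ∈ lay h c0 c1 v := mem_lay.2 ⟨a, b, c, ha, hb, hc, rfl⟩

/-- A flow from three functions on the three sets of points. -/
noncomputable def fl (D0 D1 D2 : Finset (Vx (k + 3))) (g0 g1 g2 : Vx (k + 3) → ℝ) :
    Ed (k + 3) → ℝ := fun e =>
  open Classical in
  if e.2 = 0 ∧ e.1 ∈ D0 then g0 e.1 else if e.2 = 1 ∧ e.1 ∈ D1 then g1 e.1
    else if e.2 = 2 ∧ e.1 ∈ D2 then g2 e.1 else 0

theorem ne01 : (0 : Fin (k + 3)) ≠ 1 := by
  intro h
  have := congrArg Fin.val h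
  simp at this

theorem ne02 : (0 : Fin (k + 3)) ≠ 2 := by
  intro h
  have h1 : ((0 : Fin (k + 3)) : ℕ) = ((2 : Fin (k + 3)) : ℕ) := congrArg Fin.val h
  rw [Fin.val_two] at h1
  simp at h1

theorem ne12 : (1 : Fin (k + 3)) ≠ 2 := by
  intro h
  have h1 : ((1 : Fin (k + 3)) : ℕ) = ((2 : Fin (k + 3)) : ℕ) := congrArg Fin.val h
  have e1 : ((1 : Fin (k + 3)) : ℕ) = 1 := Fin.val_one _
  rw [Fin.val_two, e1] at h1
  omega

theorem sum_fl (L : Finset (Ed (k + 3))) (D0 D1 D2 : Finset (Vx (k + 3)))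
    (g0 g1 g2 : Vx (k + 3) → ℝ) (h0 : ∀ x ∈ D0, (x, 0) ∈ L) (h1 : ∀ x ∈ D1, (x, 1) ∈ L)
    (h2 : ∀ x ∈ D2, (x, 2) ∈ L) (Φ : Ed (k + 3) → ℝ → ℝ) (hΦ : ∀ e, Φ e 0 = 0) :
    ∑ e ∈ L, Φ e (fl D0 D1 D2 g0 g1 g2 e) = ∑ x ∈ D0, Φ (x, 0) (g0 x) +
      ∑ x ∈ D1, Φ (x, 1) (g1 x) + ∑ x ∈ D2, Φ (x, 2) (g2 x) := by
  classical
  set T0 : Finset (Ed (k + 3)) := D0.image fun x => (x, 0) with hT0
  set T1 : Finset (Ed (k + 3)) := D1.image fun x => (x, 1) with hT1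
  set T2 : Finset (Ed (k + 3)) := D2.image fun x => (x, 2) with hT2
  have hd01 : Disjoint T0 T1 := by
    rw [Finset.disjoint_left]
    intro e he he'
    rw [hT0, Finset.mem_image] at he
    rw [hT1, Finset.mem_image] at he'
    obtain ⟨x, _, rfl⟩ := he
    obtain ⟨y, _, hy⟩ := he'
    exact ne01 (congrArg Prod.snd hy).symm
  have hd : Disjoint (T0 ∪ T1) T2 := by
    rw [Finset.disjoint_left]
    intro e he he'
    rw [hT2, Finset.mem_image] at he'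
    obtain ⟨y, _, rfl⟩ := he'
    rw [Finset.mem_union, hT0, hT1, Finset.mem_image, Finset.mem_image] at he
    rcases he with ⟨x, _, hx⟩ | ⟨x, _, hx⟩
    · exact ne02 (congrArg Prod.snd hx)
    · exact ne12 (congrArg Prod.snd hx)
  have hsub : T0 ∪ T1 ∪ T2 ⊆ L := by
    intro e he
    rw [Finset.mem_union, Finset.mem_union, hT0, hT1, hT2, Finset.mem_image, Finset.mem_image,
      Finset.mem_image] at he
    rcases he with (⟨x, hx, rfl⟩ | ⟨x, hx, rfl⟩) | ⟨x, hx, rfl⟩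
    · exact h0 x hx
    · exact h1 x hx
    · exact h2 x hx
  rw [← Finset.sum_subset hsub, Finset.sum_union hd, Finset.sum_union hd01, hT0, hT1, hT2,
    Finset.sum_image, Finset.sum_image, Finset.sum_image]
  · congr 1
    · congr 1
      · refine Finset.sum_congr rfl fun x hx => ?_
        simp [fl, hx]
      · refine Finset.sum_congr rfl fun x hx => ?_
        have : ¬ ((1 : Fin (k + 3)) = 0 ∧ x ∈ D0) := fun h => ne01 h.1.symm
        simp [fl, hx]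
    · refine Finset.sum_congr rfl fun x hx => ?_
      have a0 : (2 : Fin (k + 3)) ≠ 0 := fun h => ne02 h.symm
      have a1 : (2 : Fin (k + 3)) ≠ 1 := fun h => ne12 h.symm
      simp only [fl, a0, a1, false_and, if_false, hx, and_self, if_true]
  · intro x _ y _ h
    exact congrArg Prod.fst h
  · intro x _ y _ h
    exact congrArg Prod.fst h
  · intro x _ y _ h
    exact congrArg Prod.fst h
  · intro e _ he
    have : fl D0 D1 D2 g0 g1 g2 e = 0 := by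
      rw [Finset.mem_union, Finset.mem_union, hT0, hT1, hT2, Finset.mem_image, Finset.mem_image,
        Finset.mem_image] at he
      push Not at he
      unfold fl
      rw [if_neg, if_neg, if_neg]
      · rintro ⟨h, h'⟩
        exact he.2 e.1 h' (Prod.ext rfl h.symm)
      · rintro ⟨h, h'⟩
        exact he.1.2 e.1 h' (Prod.ext rfl h.symm)
      · rintro ⟨h, h'⟩
        exact he.1.1 e.1 h' (Prod.ext rfl h.symm)
    rw [this, hΦ]

theorem card_int (a : ℤ) (n : ℕ) : (Finset.Icc a (a + n)).card = n + 1 := by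
  rw [Int.card_Icc]
  omega

end STP_

open STP_ in
theorem p_STP (h_FL1 : T_FL1) : T_STP := by
  intro k v h c0 c1 c0' c1' hc0 hc1
  obtain ⟨w0, hw0, hr0⟩ := h_FL1 h c0 c0' hc0
  obtain ⟨w1, hw1, hr1⟩ := h_FL1 h c1 c1' hc1
  have hp1 : (0 : ℝ) < (h : ℝ) + 1 := by positivity
  have hp2 : (0 : ℝ) < (h : ℝ) + 2 := by positivity
  set Z : ℤ := v 2 + h + 1 with hZ
  set D0 := rect v c0' (c0' + h) c1 (c1 + h) Z with hD0
  set D1 := rect v c0' (c0' + h + 1) c1' (c1' + h) Z with hD1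
  set D2 := rect v c0 (c0 + h) c1 (c1 + h) (v 2 + h) with hD2
  set g0 : Vx (k + 3) → ℝ := fun x => w0 (x 0) / ((h : ℝ) + 1) with hg0
  set g1 : Vx (k + 3) → ℝ := fun x => w1 (x 1) / ((h : ℝ) + 2) with hg1
  set g2 : Vx (k + 3) → ℝ := fun _ => (1 / ((h : ℝ) + 1)) ^ 2 with hg2
  have b0 : c0' ≤ c0 ∧ c0 ≤ c0' + 1 := by omega
  have b1 : c1' ≤ c1 ∧ c1 ≤ c1' + 1 := by omega
  have h0 : ∀ x ∈ D0, ((x, 0) : Ed (k + 3)) ∈ es (lay h c0' c1' v) := by
    intro x hx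
    obtain ⟨a, b, ha, hb, rfl⟩ := mem_rect.1 hx
    rw [mem_es, tgt_zero]
    exact ⟨pt_lay ⟨ha.1, by omega⟩ ⟨by omega, by omega⟩ ⟨by omega, by omega⟩,
      pt_lay ⟨by omega, by omega⟩ ⟨by omega, by omega⟩ ⟨by omega, by omega⟩⟩
  have h1 : ∀ x ∈ D1, ((x, 1) : Ed (k + 3)) ∈ es (lay h c0' c1' v) := by
    intro x hx
    obtain ⟨a, b, ha, hb, rfl⟩ := mem_rect.1 hx
    rw [mem_es, tgt_one]
    exact ⟨pt_lay ⟨ha.1, by omega⟩ ⟨by omega, by omega⟩ ⟨by omega, by omega⟩,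
      pt_lay ⟨by omega, by omega⟩ ⟨by omega, by omega⟩ ⟨by omega, by omega⟩⟩
  have h2 : ∀ x ∈ D2, ((x, 2) : Ed (k + 3)) ∈ es (lay h c0' c1' v) := by
    intro x hx
    obtain ⟨a, b, ha, hb, rfl⟩ := mem_rect.1 hx
    rw [mem_es, tgt_two]
    exact ⟨pt_lay ⟨by omega, by omega⟩ ⟨by omega, by omega⟩ ⟨by omega, by omega⟩,
      pt_lay ⟨by omega, by omega⟩ ⟨by omega, by omega⟩ ⟨by omega, by omega⟩⟩
  refine ⟨fl D0 D1 D2 g0 g1 g2, ?_, ?_, ?_⟩
  · intro e he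
    unfold fl at he
    split_ifs at he with a0 a1 a2
    · obtain ⟨x, i⟩ := e
      obtain ⟨hi, hx⟩ := a0
      dsimp only at hi hx
      subst hi
      refine ⟨h0 x hx, fun _ => ?_⟩
      obtain ⟨a, b, ha, hb, rfl⟩ := mem_rect.1 hx
      exact pt_two v a b Z
    · obtain ⟨x, i⟩ := e
      obtain ⟨hi, hx⟩ := a1
      dsimp only at hi hx
      subst hi
      refine ⟨h1 x hx, fun _ => ?_⟩
      obtain ⟨a, b, ha, hb, rfl⟩ := mem_rect.1 hx
      exact pt_two v a b Z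
    · obtain ⟨x, i⟩ := e
      obtain ⟨hi, hx⟩ := a2
      dsimp only at hi hx
      subst hi
      exact ⟨h2 x hx, fun hne => absurd rfl hne⟩
    · exact absurd rfl he
  · have key := sum_fl (es (lay h c0' c1' v)) D0 D1 D2 g0 g1 g2 h0 h1 h2 (fun _ y => y ^ 2)
      (fun _ => by norm_num)
    rw [key]
    have i0 : ∀ a b : ℤ, (Finset.Icc a (a + h)).card = h + 1 := fun a _ => card_int a h
    have i1 : (Finset.Icc c0' (c0' + h + 1)).card = h + 2 := by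
      have := card_int c0' (h + 1)
      push_cast at this
      rwa [← add_assoc] at this
    have s0 : ∑ x ∈ D0, g0 x ^ 2 ≤ 1 / ((h : ℝ) + 1) ^ 2 := by
      have hb : ∀ x ∈ D0, g0 x ^ 2 ≤ 1 / (((h : ℝ) + 1) ^ 2 * ((h : ℝ) + 2) ^ 2) := by
        intro x _
        have e1 := hw0 (x 0)
        rw [hg0]
        dsimp only
        rw [div_pow, ← sq_abs (w0 (x 0))]
        have e2 : |w0 (x 0)| ^ 2 ≤ (1 / ((h : ℝ) + 2)) ^ 2 :=
          pow_le_pow_left₀ (abs_nonneg _) e1 2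
        calc |w0 (x 0)| ^ 2 / ((h : ℝ) + 1) ^ 2 ≤ (1 / ((h : ℝ) + 2)) ^ 2 / ((h : ℝ) + 1) ^ 2 :=
              div_le_div_of_nonneg_right e2 (by positivity)
          _ = 1 / (((h : ℝ) + 1) ^ 2 * ((h : ℝ) + 2) ^ 2) := by field_simp
      have hc : (D0.card : ℝ) ≤ ((h : ℝ) + 1) ^ 2 := by
        have := card_rect v c0' (c0' + h) c1 (c1 + h) Z
        rw [card_int, card_int] at this
        have h3 : (D0.card : ℝ) ≤ (((h + 1) * (h + 1) : ℕ) : ℝ) := by exact_mod_cast this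
        push_cast at h3
        nlinarith
      calc ∑ x ∈ D0, g0 x ^ 2 ≤ D0.card • (1 / (((h : ℝ) + 1) ^ 2 * ((h : ℝ) + 2) ^ 2)) :=
            Finset.sum_le_card_nsmul _ _ _ hb
        _ ≤ ((h : ℝ) + 1) ^ 2 * (1 / (((h : ℝ) + 1) ^ 2 * ((h : ℝ) + 2) ^ 2)) := by
            rw [nsmul_eq_mul]
            exact mul_le_mul_of_nonneg_right hc (by positivity)
        _ = 1 / ((h : ℝ) + 2) ^ 2 := by field_simp
        _ ≤ 1 / ((h : ℝ) + 1) ^ 2 := by
            apply one_div_le_one_div_of_le (by positivity)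
            exact pow_le_pow_left₀ hp1.le (by linarith) 2
    have s1 : ∑ x ∈ D1, g1 x ^ 2 ≤ 1 / ((h : ℝ) + 1) ^ 2 := by
      have hb : ∀ x ∈ D1, g1 x ^ 2 ≤ 1 / (((h : ℝ) + 2) ^ 2 * ((h : ℝ) + 2) ^ 2) := by
        intro x _
        have e1 := hw1 (x 1)
        rw [hg1]
        dsimp only
        rw [div_pow, ← sq_abs (w1 (x 1))]
        have e2 : |w1 (x 1)| ^ 2 ≤ (1 / ((h : ℝ) + 2)) ^ 2 :=
          pow_le_pow_left₀ (abs_nonneg _) e1 2
        calc |w1 (x 1)| ^ 2 / ((h : ℝ) + 2) ^ 2 ≤ (1 / ((h : ℝ) + 2)) ^ 2 / ((h : ℝ) + 2) ^ 2 :=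
              div_le_div_of_nonneg_right e2 (by positivity)
          _ = 1 / (((h : ℝ) + 2) ^ 2 * ((h : ℝ) + 2) ^ 2) := by field_simp
      have hc : (D1.card : ℝ) ≤ ((h : ℝ) + 2) * ((h : ℝ) + 2) := by
        have := card_rect v c0' (c0' + h + 1) c1' (c1' + h) Z
        rw [i1, card_int] at this
        have h3 : (D1.card : ℝ) ≤ (((h + 2) * (h + 1) : ℕ) : ℝ) := by exact_mod_cast this
        push_cast at h3
        nlinarith
      calc ∑ x ∈ D1, g1 x ^ 2 ≤ D1.card • (1 / (((h : ℝ) + 2) ^ 2 * ((h : ℝ) + 2) ^ 2)) :=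
            Finset.sum_le_card_nsmul _ _ _ hb
        _ ≤ (((h : ℝ) + 2) * ((h : ℝ) + 2)) *
            (1 / (((h : ℝ) + 2) ^ 2 * ((h : ℝ) + 2) ^ 2)) := by
            rw [nsmul_eq_mul]
            exact mul_le_mul_of_nonneg_right hc (by positivity)
        _ = 1 / ((h : ℝ) + 2) ^ 2 := by field_simp
        _ ≤ 1 / ((h : ℝ) + 1) ^ 2 := by
            apply one_div_le_one_div_of_le (by positivity)
            exact pow_le_pow_left₀ hp1.le (by linarith) 2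
    have s2 : ∑ x ∈ D2, g2 x ^ 2 ≤ 1 / ((h : ℝ) + 1) ^ 2 := by
      have hc : (D2.card : ℝ) ≤ ((h : ℝ) + 1) ^ 2 := by
        have := card_rect v c0 (c0 + h) c1 (c1 + h) (v 2 + h)
        rw [card_int, card_int] at this
        have h3 : (D2.card : ℝ) ≤ (((h + 1) * (h + 1) : ℕ) : ℝ) := by exact_mod_cast this
        push_cast at h3
        nlinarith
      rw [hg2]
      dsimp only
      rw [Finset.sum_const, nsmul_eq_mul]
      calc (D2.card : ℝ) * ((1 / ((h : ℝ) + 1)) ^ 2) ^ 2 ≤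
            ((h : ℝ) + 1) ^ 2 * ((1 / ((h : ℝ) + 1)) ^ 2) ^ 2 :=
            mul_le_mul_of_nonneg_right hc (by positivity)
        _ = 1 / ((h : ℝ) + 1) ^ 2 := by field_simp
    calc _ ≤ 1 / ((h : ℝ) + 1) ^ 2 + 1 / ((h : ℝ) + 1) ^ 2 + 1 / ((h : ℝ) + 1) ^ 2 :=
          add_le_add (add_le_add s0 s1) s2
      _ = 3 / ((h : ℝ) + 1) ^ 2 := by ring
  · intro r
    have key := sum_fl (es (lay h c0' c1' v)) D0 D1 D2 g0 g1 g2 h0 h1 h2
      (fun e y => y * (r e.1 - r (tgt e))) (fun _ => by simp)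
    rw [key]
    dsimp only
    rw [hD0, hD1, hD2, sum_rect, sum_rect, sum_rect]
    simp only [tgt_zero, tgt_one, tgt_two, hg0, hg1, hg2, pt_zero, pt_one]
    have e0 : ∑ a ∈ Finset.Icc c0' (c0' + (h : ℤ)), ∑ b ∈ Finset.Icc c1 (c1 + (h : ℤ)),
        w0 a / ((h : ℝ) + 1) * (r (pt v a b Z) - r (pt v (a + 1) b Z)) =
        (1 / ((h : ℝ) + 1)) ^ 2 * ∑ a ∈ Finset.Icc c0 (c0 + (h : ℤ)),
          ∑ b ∈ Finset.Icc c1 (c1 + (h : ℤ)), r (pt v a b Z) -
        (1 / ((h : ℝ) + 1)) * (1 / ((h : ℝ) + 2)) *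
          ∑ a ∈ Finset.Icc c0' (c0' + (h : ℤ) + 1), ∑ b ∈ Finset.Icc c1 (c1 + (h : ℤ)),
            r (pt v a b Z) := by
      rw [Finset.sum_comm, Finset.sum_comm (s := Finset.Icc c0 (c0 + (h : ℤ))),
        Finset.sum_comm (s := Finset.Icc c0' (c0' + (h : ℤ) + 1)), Finset.mul_sum,
        Finset.mul_sum, ← Finset.sum_sub_distrib]
      refine Finset.sum_congr rfl fun b _ => ?_
      have e := hr0 fun a => r (pt v a b Z)
      have e' : ∑ a ∈ Finset.Icc c0' (c0' + (h : ℤ)), w0 a / ((h : ℝ) + 1) *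
          (r (pt v a b Z) - r (pt v (a + 1) b Z)) = (1 / ((h : ℝ) + 1)) *
          ∑ a ∈ Finset.Icc c0' (c0' + (h : ℤ)), w0 a *
          (r (pt v a b Z) - r (pt v (a + 1) b Z)) := by
        rw [Finset.mul_sum]
        refine Finset.sum_congr rfl fun a _ => ?_
        ring
      rw [e', ← e]
      ring
    have e1 : ∑ a ∈ Finset.Icc c0' (c0' + (h : ℤ) + 1), ∑ b ∈ Finset.Icc c1' (c1' + (h : ℤ)),
        w1 b / ((h : ℝ) + 2) * (r (pt v a b Z) - r (pt v a (b + 1) Z)) =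
        (1 / ((h : ℝ) + 1)) * (1 / ((h : ℝ) + 2)) *
          ∑ a ∈ Finset.Icc c0' (c0' + (h : ℤ) + 1), ∑ b ∈ Finset.Icc c1 (c1 + (h : ℤ)),
            r (pt v a b Z) -
        (1 / ((h : ℝ) + 2)) ^ 2 *
          ∑ a ∈ Finset.Icc c0' (c0' + (h : ℤ) + 1), ∑ b ∈ Finset.Icc c1' (c1' + (h : ℤ) + 1),
            r (pt v a b Z) := by
      rw [Finset.mul_sum, Finset.mul_sum, ← Finset.sum_sub_distrib]
      refine Finset.sum_congr rfl fun a _ => ?_
      have e := hr1 fun b => r (pt v a b Z)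
      have e' : ∑ b ∈ Finset.Icc c1' (c1' + (h : ℤ)), w1 b / ((h : ℝ) + 2) *
          (r (pt v a b Z) - r (pt v a (b + 1) Z)) = (1 / ((h : ℝ) + 2)) *
          ∑ b ∈ Finset.Icc c1' (c1' + (h : ℤ)), w1 b *
          (r (pt v a b Z) - r (pt v a (b + 1) Z)) := by
        rw [Finset.mul_sum]
        refine Finset.sum_congr rfl fun b _ => ?_
        ring
      rw [e', ← e]
      ring
    have e2 : ∑ a ∈ Finset.Icc c0 (c0 + (h : ℤ)), ∑ b ∈ Finset.Icc c1 (c1 + (h : ℤ)),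
        (1 / ((h : ℝ) + 1)) ^ 2 * (r (pt v a b (v 2 + (h : ℤ))) -
          r (pt v a b (v 2 + (h : ℤ) + 1))) = (1 / ((h : ℝ) + 1)) ^ 2 * ∑ a ∈ Finset.Icc c0 (c0 + (h : ℤ)),
          ∑ b ∈ Finset.Icc c1 (c1 + (h : ℤ)), r (pt v a b (v 2 + (h : ℤ))) -
        (1 / ((h : ℝ) + 1)) ^ 2 * ∑ a ∈ Finset.Icc c0 (c0 + (h : ℤ)),
          ∑ b ∈ Finset.Icc c1 (c1 + (h : ℤ)), r (pt v a b Z) := by
      rw [Finset.mul_sum, Finset.mul_sum, ← Finset.sum_sub_distrib]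
      refine Finset.sum_congr rfl fun a _ => ?_
      rw [Finset.mul_sum, Finset.mul_sum, ← Finset.sum_sub_distrib]
      refine Finset.sum_congr rfl fun b _ => ?_
      ring
    rw [e0, e1, e2]
    unfold avg
    rw [sqr_eq, sqr_eq, sum_rect, sum_rect]
    have f1 : c0' + ((h + 1 : ℕ) : ℤ) = c0' + (h : ℤ) + 1 := by push_cast; ring
    have f2 : c1' + ((h + 1 : ℕ) : ℤ) = c1' + (h : ℤ) + 1 := by push_cast; ring
    have f3 : v 2 + ((h + 1 : ℕ) : ℤ) = Z := by rw [hZ]; push_cast; ring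
    have f4 : (((h + 1 : ℕ) : ℝ) + 1) = (h : ℝ) + 2 := by push_cast; ring
    rw [f1, f2, f3, f4, ← one_div_pow, ← one_div_pow]
    ring

end Pool.Agent.FKP
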