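import Pool.Agent.FKP.PartB
import Pool.Agent.FKP.Lem
import Pool.Agent.FKT.TargetsA

/-!
# Project FKP, SUP: upper bound for the probability of several open seeds
-/

set_option autoImplicit false

namespace Pool.Agent.FKP

open Filter MeasureTheory Pool.Agent.FKT

namespace SUP_

variable {k : ℕ}

theorem mem_cu {s : ℕ} {v x : Vx (k + 3)} :
    x ∈ cu s v ↔ ∀ i : Fin (k + 3), v i ≤ x i ∧ x i ≤ if i.val < 3 then v i + s else v i := by
  unfold cu
  rw [Finset.mem_Icc, Pi.le_def, Pi.le_def]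
  constructor
  · rintro ⟨h1, h2⟩ i
    exact ⟨h1 i, h2 i⟩
  · intro h
    exact ⟨fun i => (h i).1, fun i => (h i).2⟩

theorem mem_bx {d : ℕ} {v x : Vx d} {r : ℕ} :
    x ∈ bx v r ↔ ∀ i : Fin d, v i - r ≤ x i ∧ x i ≤ v i + r := by
  unfold bx
  rw [Finset.mem_Icc, Pi.le_def, Pi.le_def]
  constructor
  · rintro ⟨h1, h2⟩ i
    exact ⟨h1 i, h2 i⟩
  · intro h
    exact ⟨fun i => (h i).1, fun i => (h i).2⟩

theorem cu_sub {s r : ℕ} (h : s ≤ r) (v : Vx (k + 3)) : cu s v ⊆ bx v r := by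
  intro x hx
  rw [mem_cu] at hx
  rw [mem_bx]
  intro i
  have h1 := hx i
  have h2 : (s : ℤ) ≤ r := by exact_mod_cast h
  have h3 : (0 : ℤ) ≤ r := by positivity
  refine ⟨by linarith [h1.1], ?_⟩
  have h4 := h1.2
  split_ifs at h4 <;> linarith

theorem mem_cu_shift {s : ℕ} {v x : Vx (k + 3)} : x - v ∈ cu s (0 : Vx (k + 3)) ↔ x ∈ cu s v := by
  rw [mem_cu, mem_cu]
  apply forall_congr'
  intro i
  simp only [Pi.sub_apply, Pi.zero_apply]
  split_ifs <;> constructor <;> rintro ⟨h1, h2⟩ <;> constructor <;> linarith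

theorem es_cu {s : ℕ} (v : Vx (k + 3)) :
    es (cu s v) = (es (cu s (0 : Vx (k + 3)))).map (trE v).toEmbedding := by
  ext e
  rw [Finset.mem_map_equiv, mem_es, mem_es]
  have h1 : ((trE v).symm e).1 = e.1 - v := by
    simp [trE, sub_eq_add_neg]
  have h2 : tgt ((trE v).symm e) = tgt e - v := by
    have h3 : ((trE v).symm e).2 = e.2 := by simp [trE]
    unfold tgt
    rw [h1, h3]
    abel
  rw [h1, h2, mem_cu_shift, mem_cu_shift]

theorem phi_shift (hT : FKT.T_TRA) (p q : ℝ) (s r : ℕ) (v : Vx (k + 3)) :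
    phi v r p q (fun ω => ind (es (cu s v) ⊆ ω)) =
      phi (0 : Vx (k + 3)) r p q fun ω => ind (es (cu s 0) ⊆ ω) := by
  have h := hT (k + 3) p q 0 v r (fun ω => ind (es (cu s v) ⊆ ω))
  rw [zero_add] at h
  rw [h]
  congr 1
  funext ω
  apply ind_congr
  rw [es_cu v, Finset.map_subset_map]

theorem pos_ne {r : ℕ} {ρ : ℕ} (hρ : ρ = 2 * r + 1) {c c' : ℤ × ℤ} (hne : c ≠ c')
    {x : Vx (k + 3)} (h : x ∈ bx (pos k (ρ * c.1) (ρ * c.2)) r)
    (h' : x ∈ bx (pos k (ρ * c'.1) (ρ * c'.2)) r) : False := by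
  rw [mem_bx] at h h'
  have h0 := h ⟨0, by omega⟩
  have h0' := h' ⟨0, by omega⟩
  have h1 := h ⟨1, by omega⟩
  have h1' := h' ⟨1, by omega⟩
  simp only [pos, if_true, one_ne_zero, if_false] at h0 h0' h1 h1'
  apply hne
  have hr : (0 : ℤ) < ρ := by rw [hρ]; push_cast; positivity
  have key : ∀ a b y : ℤ, (ρ : ℤ) * a - r ≤ y → y ≤ (ρ : ℤ) * a + r → (ρ : ℤ) * b - r ≤ y →
      y ≤ (ρ : ℤ) * b + r → a = b := by
    intro a b y e1 e2 e3 e4
    by_contra hab
    have hρ' : (ρ : ℤ) = 2 * r + 1 := by rw [hρ]; push_cast; ring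
    rcases lt_or_gt_of_ne hab with hlt | hgt
    · have : (ρ : ℤ) * (a + 1) ≤ ρ * b := mul_le_mul_of_nonneg_left (by omega) hr.le
      nlinarith
    · have : (ρ : ℤ) * (b + 1) ≤ ρ * a := mul_le_mul_of_nonneg_left (by omega) hr.le
      nlinarith
  exact Prod.ext (key _ _ _ h0.1 h0.2 h0'.1 h0'.2) (key _ _ _ h1.1 h1.2 h1'.1 h1'.2)

end SUP_

theorem p_SUP (h_DMW : T_DMW) (h_TRA : FKT.T_TRA) : T_SUP := by
  intro k q p hq hp hp1 s r ρ hsr hρ S P
  have hq0 : 0 < q := by linarith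
  set x : ℝ := phi (0 : Vx (k + 3)) r p q fun ω => ind (es (cu s 0) ⊆ ω) with hx
  have hx0 : 0 ≤ x := by
    rw [hx]
    unfold phi
    exact Ex_nonneg hp hp1 hq0 fun ω _ => ind_nonneg _
  induction P using Finset.induction_on with
  | empty =>
    intro _
    rw [Finset.card_empty, pow_zero]
    unfold fr fw
    exact Ex_le_one hp hp1 hq0 fun ω _ => ind_le_one _
  | insert c0 P hc ih =>
    intro hS
    have ih' := ih fun c hcP => hS c (Finset.mem_insert_of_mem hcP)
    set v : Vx (k + 3) := pos k (ρ * c0.1) (ρ * c0.2) with hv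
    set B : Finset (Ed (k + 3)) := es (bx v r) with hB
    let F : Finset (Ed (k + 3)) → Finset (Ed (k + 3)) → ℝ := fun α β =>
      ind (∀ c ∈ P, es (cu s (pos k (ρ * c.1) (ρ * c.2))) ⊆ α) * ind (es (cu s v) ⊆ β)
    have hFm : ∀ α a b : Finset (Ed (k + 3)), a ⊆ b → b ⊆ es (bx v r) → F α a ≤ F α b := by
      intro α a b hab _
      exact mul_le_mul_of_nonneg_left (ind_mono fun h => h.trans hab) (ind_nonneg _)
    have h1 := h_DMW (k + 3) S v r p q hp hp1 hq (hS c0 (Finset.mem_insert_self _ _)) F hFm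
    have hcu : es (cu s v) ⊆ B := es_mono (SUP_.cu_sub hsr v)
    have hdis : ∀ c ∈ P, ∀ ω : Finset (Ed (k + 3)),
        es (cu s (pos k (ρ * c.1) (ρ * c.2))) ⊆ ω \ B ↔
          es (cu s (pos k (ρ * c.1) (ρ * c.2))) ⊆ ω := by
      intro c hcP ω
      constructor
      · intro h
        exact h.trans Finset.sdiff_subset
      · intro h e he
        rw [Finset.mem_sdiff]
        refine ⟨h he, fun heB => ?_⟩
        have hne : c ≠ c0 := fun h0 => hc (h0 ▸ hcP)
        have e1 : e.1 ∈ bx (pos k (ρ * c.1) (ρ * c.2)) r :=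
          SUP_.cu_sub hsr _ (mem_es.mp he).1
        have e2 : e.1 ∈ bx v r := (mem_es.mp heB).1
        exact SUP_.pos_ne hρ hne e1 e2
    have hL : ∀ ω : Finset (Ed (k + 3)),
        ind (∀ c ∈ insert c0 P, es (cu s (pos k (ρ * c.1) (ρ * c.2))) ⊆ ω) =
          F (ω \ B) (ω ∩ B) := by
      intro ω
      change _ = ind _ * ind _
      rw [← ind_and]
      apply ind_congr
      rw [Finset.forall_mem_insert]
      constructor
      · rintro ⟨h2, h3⟩
        exact ⟨fun c hcP => (hdis c hcP ω).mpr (h3 c hcP), Finset.subset_inter h2 hcu⟩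
      · rintro ⟨h2, h3⟩
        exact ⟨h3.trans Finset.inter_subset_left, fun c hcP => (hdis c hcP ω).mp (h2 c hcP)⟩
    have hR : ∀ ω : Finset (Ed (k + 3)), phi v r p q (F (ω \ B)) =
        x * ind (∀ c ∈ P, es (cu s (pos k (ρ * c.1) (ρ * c.2))) ⊆ ω) := by
      intro ω
      have h2 : phi v r p q (F (ω \ B)) =
          ind (∀ c ∈ P, es (cu s (pos k (ρ * c.1) (ρ * c.2))) ⊆ ω \ B) *
            phi v r p q (fun β => ind (es (cu s v) ⊆ β)) := by
        unfold phi
        exact Ex_mul_left _ _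
      rw [h2, SUP_.phi_shift h_TRA, mul_comm]
      congr 1
      apply ind_congr
      exact forall₂_congr fun c hcP => hdis c hcP ω
    rw [Finset.card_insert_of_notMem hc, pow_succ']
    calc fr S p q (fun ω => ind (∀ c ∈ insert c0 P,
          es (cu s (pos k (ρ * c.1) (ρ * c.2))) ⊆ ω))
        = fr S p q (fun ω => F (ω \ B) (ω ∩ B)) := by
          congr 1
          funext ω
          exact hL ω
      _ ≤ fr S p q (fun ω => phi v r p q (F (ω \ B))) := h1
      _ = fr S p q (fun ω => x * ind (∀ c ∈ P,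
          es (cu s (pos k (ρ * c.1) (ρ * c.2))) ⊆ ω)) := by
          congr 1
          funext ω
          exact hR ω
      _ = x * fr S p q (fun ω => ind (∀ c ∈ P,
          es (cu s (pos k (ρ * c.1) (ρ * c.2))) ⊆ ω)) := by
          unfold fr fw
          exact Ex_mul_left _ _
      _ ≤ x * x ^ P.card := mul_le_mul_of_nonneg_left ih' hx0

end Pool.Agent.FKP
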