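import Pool.Agent.FKP.PartB
import Pool.Agent.FKP.Lem

/-!
# FKP: THT, lower bound of tht
-/

set_option autoImplicit false

namespace Pool.Agent.FKP

open Pool.Agent.FKT

namespace THT_

theorem mem_cu {k : ℕ} (s : ℕ) (v : Vx (k + 3)) : v ∈ cu s v := by
  unfold cu
  rw [Finset.mem_Icc]
  refine ⟨le_refl _, ?_⟩
  intro i
  by_cases h : i.val < 3
  · simp [h]
  · simp [h]

/-- The comparison of the two expectations. -/
theorem cmp (h_HOL : T_HOL) {k : ℕ} {q p1 p : ℝ} (hq : 1 ≤ q) (hp1 : 0 < p1) (hpp : p1 ≤ p)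
    (hp : p < 1) (S : Finset (Vx (k + 3))) (R : Vx (k + 3) → Vx (k + 3) → Prop)
    (x w z : Vx (k + 3)) (hwz : ∀ O : Set (Ed (k + 3)), Con Prod.fst tgt R O w z) :
    tp S p1 q x w ≤ Ex Prod.fst tgt R S (es S) p q
      fun ω => ind (Con Prod.fst tgt R (ω : Set (Ed (k + 3))) x z) := by
  have h1 : tp S p1 q x w ≤ Ex Prod.fst tgt R S (es S) p q fun ω => ind (Cf ω x w) := by
    unfold tp fr fw
    refine h_HOL _ _ _ _ _ _ _ _ _ _ _ hp1 hpp hp hq (fun a b h => h.elim)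
      (fun e he => mem_es.mp he) _ (fun a b hab _ => ?_)
    exact ind_mono fun h => Con_mono (fun _ _ h' => h') (Finset.coe_subset.mpr hab) h
  refine h1.trans (Ex_mono (lt_of_lt_of_le hp1 hpp) hp (by linarith) fun ω _ => ?_)
  exact ind_mono fun h => Con_trans (Con_mono (fun _ _ h' => h'.elim) (le_refl _) h)
    (hwz (ω : Set (Ed (k + 3))))

end THT_

theorem p_THT (h_HOL : T_HOL) : T_THT := by
  intro k q p1 p θ hq hp1 hpp hp S s H m v v' i0 hv hv' i x hx
  unfold tht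
  rcases Finset.mem_union.mp hx with h | h
  · refine (hv i x h).trans (THT_.cmp h_HOL hq hp1 hpp hp S _ x (v i) (v i0) fun O => ?_)
    exact Con_wired (Or.inl (Or.inl ⟨i, i0, THT_.mem_cu s _, THT_.mem_cu s _⟩))
  · refine (hv' i x h).trans (THT_.cmp h_HOL hq hp1 hpp hp S _ x (v' i) (v i0) fun O => ?_)
    exact Con_trans (Con_wired (Or.inl (Or.inr ⟨i, i0, THT_.mem_cu s _, THT_.mem_cu s _⟩)))
      (Con_symm (Con_wired (Or.inr ⟨rfl, rfl⟩)))

end Pool.Agent.FKP
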