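import Pool.Agent.FKP.PartA
import Pool.Agent.FKP.Lem

/-!
# Project FKP: target `T_TPX`
-/

set_option autoImplicit false

namespace Pool.Agent.FKP

open Filter MeasureTheory Pool.Agent.FKT

namespace TPX_

theorem cf_mono {d : ℕ} {a b : Finset (Ed d)} (h : a ⊆ b) {x y : Vx d} (hc : Cf a x y) :
    Cf b x y :=
  Con_mono (fun _ _ h => h) (Finset.coe_subset.mpr h) hc

theorem g_mono {d : ℕ} (F : Finset (Ed d)) (x y : Vx d) {a b : Finset (Ed d)} (h : a ⊆ b) :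
    ind (Cf (a ∩ F) x y) ≤ ind (Cf (b ∩ F) x y) :=
  ind_mono fun hc => cf_mono (Finset.inter_subset_inter_right h) hc

theorem ends {d : ℕ} (S : Finset (Vx d)) : ∀ e ∈ es S, Prod.fst e ∈ S ∧ tgt e ∈ S :=
  fun _ he => mem_es.mp he

end TPX_

theorem p_TPX (h_UNQ : T_UNQ) (h_MIX : T_MIX) (h_INC : T_INC) (h_HOL : T_HOL) : T_TPX := by
  intro d hd p0 p1 q hp0 h01 hp1 hq hμ
  obtain ⟨μ, hμ, hinf⟩ := hμ
  set θ0 := μ.real (Inf0 d) with hθ0
  refine ⟨θ0 ^ 2 / 4, by positivity, ?_⟩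
  intro h
  obtain ⟨n, hn, hU⟩ := h_UNQ d (by omega) p0 q hp0 (by linarith) hq μ hμ hinf h
  obtain ⟨N0, hM⟩ := h_MIX d (by omega) p0 p1 q hp0 h01 hp1 hq n (θ0 ^ 2 / 4) (by positivity)
  refine ⟨max n N0, ?_⟩
  intro N hN y hy
  obtain ⟨p, hpa, hpb, hsum⟩ := hM N (le_trans (le_max_right _ _) hN)
  have hU' := hU N (le_trans (le_max_left _ _) hN) y hy
  have hp : 0 < p := lt_of_lt_of_le hp0 hpa
  have hp' : p < 1 := lt_of_le_of_lt hpb hp1
  have hq0 : 0 < q := lt_of_lt_of_le one_pos hq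
  -- step 1: the wired and the free measure for the parameter `p`
  have h1 : phi (0 : Vx d) N p q (fun ω => ind (Cf (ω ∩ eb (0 : Vx d) n) 0 y)) -
      fr (bx (0 : Vx d) N) p q (fun ω => ind (Cf (ω ∩ eb (0 : Vx d) n) 0 y)) ≤
      ∑ e ∈ eb (0 : Vx d) n, (phi (0 : Vx d) N p q (fun ω => ind (e ∈ ω)) -
        fr (bx (0 : Vx d) N) p q fun ω => ind (e ∈ ω)) := by
    refine h_INC (Vx d) (Ed d) Prod.fst tgt (no (Vx d)) (Wir (0 : Vx d) N) (bx 0 N) (bx 0 N)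
      (eb 0 N) p q hp hp' hq0 ?_ (eb (0 : Vx d) n) (fun ω => Cf ω 0 y)
      (fun a b hab hc => TPX_.cf_mono hab hc)
    intro f hf
    exact h_HOL (Vx d) (Ed d) Prod.fst tgt (no (Vx d)) (Wir (0 : Vx d) N) (bx 0 N) (eb 0 N) p p q
      hp le_rfl hp' hq (fun a b hab => hab.elim) (TPX_.ends (bx (0 : Vx d) N)) f
      (fun a b hab _ => hf a b hab)
  -- step 2: monotonicity in the parameter for the wired measure
  have h2 : phi (0 : Vx d) N p0 q (fun ω => ind (Cf (ω ∩ eb (0 : Vx d) n) 0 y)) ≤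
      phi (0 : Vx d) N p q (fun ω => ind (Cf (ω ∩ eb (0 : Vx d) n) 0 y)) :=
    h_HOL (Vx d) (Ed d) Prod.fst tgt (Wir (0 : Vx d) N) (Wir (0 : Vx d) N) (bx 0 N) (eb 0 N)
      p0 p q hp0 hpa hp' hq (fun a b hab => hab) (TPX_.ends (bx (0 : Vx d) N)) _
      (fun a b hab _ => TPX_.g_mono (eb (0 : Vx d) n) 0 y hab)
  -- step 3: monotonicity in the parameter for the free measure
  have h3 : fr (bx (0 : Vx d) N) p q (fun ω => ind (Cf (ω ∩ eb (0 : Vx d) n) 0 y)) ≤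
      fr (bx (0 : Vx d) N) p1 q (fun ω => ind (Cf (ω ∩ eb (0 : Vx d) n) 0 y)) :=
    h_HOL (Vx d) (Ed d) Prod.fst tgt (no (Vx d)) (no (Vx d)) (bx 0 N) (es (bx 0 N))
      p p1 q hp hpb hp1 hq (fun a b hab => hab) (TPX_.ends (bx (0 : Vx d) N)) _
      (fun a b hab _ => TPX_.g_mono (eb (0 : Vx d) n) 0 y hab)
  have h4 : fr (bx (0 : Vx d) N) p1 q (fun ω => ind (Cf (ω ∩ eb (0 : Vx d) n) 0 y)) ≤
      tp (bx 0 N) p1 q 0 y :=
    Ex_mono (lt_trans hp0 h01) hp1 hq0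
      (fun ω _ => ind_mono fun hc => TPX_.cf_mono Finset.inter_subset_left hc)
  linarith

end Pool.Agent.FKP
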