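import Pool.Agent.FKP.PartB
import Pool.Agent.FKP.Lem

/-!
# Project FKP, target TRF: the inequality for subgraphs of an infinite graph
-/

set_option autoImplicit false

namespace Pool.Agent.FKP

open Pool.Agent.FKT

namespace TRF_

section

variable {V E : Type} (s t : E → V) (R : V → V → Prop) (U : Finset V) (G : Finset E)
  (hR : ∀ a b, R a b → a ∈ U ∧ b ∈ U) (hG : ∀ e ∈ G, s e ∈ U ∧ t e ∈ U)

/-- The restricted source map. -/
def s' (hG : ∀ e ∈ G, s e ∈ U ∧ t e ∈ U) : {e // e ∈ G} → {x // x ∈ U} :=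
  fun e => ⟨s e.1, (hG e.1 e.2).1⟩

/-- The restricted target map. -/
def t' (hG : ∀ e ∈ G, s e ∈ U ∧ t e ∈ U) : {e // e ∈ G} → {x // x ∈ U} :=
  fun e => ⟨t e.1, (hG e.1 e.2).2⟩

/-- The restricted wiring. -/
def R' : {x // x ∈ U} → {x // x ∈ U} → Prop := fun a b => R a.1 b.1

theorem con_up {O' : Set {e // e ∈ G}} {x y : {x // x ∈ U}}
    (h : Con (s' s t U G hG) (t' s t U G hG) (R' R U) O' x y) :
    Con s t R (Subtype.val '' O') x.1 y.1 := by
  unfold FKT.Con at h ⊢
  induction h with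
  | rel x y hxy =>
    apply Relation.EqvGen.rel
    rcases hxy with h | ⟨e, he, h1, h2⟩
    · exact Or.inl h
    · refine Or.inr ⟨e.1, ⟨e, he, rfl⟩, ?_, ?_⟩
      · rw [← h1]; rfl
      · rw [← h2]; rfl
  | refl x => exact Relation.EqvGen.refl _
  | symm x y _ ih => exact Relation.EqvGen.symm _ _ ih
  | trans x y z _ _ ih1 ih2 => exact Relation.EqvGen.trans _ _ _ ih1 ih2

include hR in
theorem con_down {O' : Set {e // e ∈ G}} {a b : V}
    (h : Con s t R (Subtype.val '' O') a b) :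
    a = b ∨ ∃ (ha : a ∈ U) (hb : b ∈ U),
      Con (s' s t U G hG) (t' s t U G hG) (R' R U) O' ⟨a, ha⟩ ⟨b, hb⟩ := by
  unfold FKT.Con at h ⊢
  induction h with
  | rel x y hxy =>
    rcases hxy with h | ⟨e, he, h1, h2⟩
    · exact Or.inr ⟨(hR _ _ h).1, (hR _ _ h).2, Relation.EqvGen.rel _ _ (Or.inl h)⟩
    · obtain ⟨e', he', rfl⟩ := he
      subst h1
      subst h2
      exact Or.inr ⟨(hG e'.1 e'.2).1, (hG e'.1 e'.2).2,
        Relation.EqvGen.rel _ _ (Or.inr ⟨e', he', rfl, rfl⟩)⟩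
  | refl x => exact Or.inl rfl
  | symm x y _ ih =>
    rcases ih with ih | ⟨ha, hb, h⟩
    · exact Or.inl ih.symm
    · exact Or.inr ⟨hb, ha, Relation.EqvGen.symm _ _ h⟩
  | trans x y z _ _ ih1 ih2 =>
    rcases ih1 with ih1 | ⟨ha, hb, h⟩
    · subst ih1
      exact ih2
    · rcases ih2 with ih2 | ⟨hb', hc, h'⟩
      · subst ih2
        exact Or.inr ⟨ha, hb, h⟩
      · exact Or.inr ⟨ha, hc, Relation.EqvGen.trans _ _ _ h h'⟩

include hR in
theorem con_iff {O' : Set {e // e ∈ G}} (x y : {x // x ∈ U}) :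
    Con s t R (Subtype.val '' O') x.1 y.1 ↔
      Con (s' s t U G hG) (t' s t U G hG) (R' R U) O' x y := by
  constructor
  · intro h
    rcases con_down s t R U G hR hG h with h | ⟨ha, hb, h⟩
    · have : x = y := Subtype.ext h
      subst this
      exact Con_refl _ _
    · exact h
  · exact con_up s t R U G hG

include hR in
theorem ncl_eq {O' : Set {e // e ∈ G}} :
    ncl s t R U (Subtype.val '' O') =
      ncl (s' s t U G hG) (t' s t U G hG) (R' R U) Finset.univ O' := by
  unfold ncl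
  have h : clus s t R (Subtype.val '' O') '' (U : Set V) =
      (fun A : Set {x // x ∈ U} => Subtype.val '' A) ''
        (clus (s' s t U G hG) (t' s t U G hG) (R' R U) O' ''
          ((Finset.univ : Finset {x // x ∈ U}) : Set {x // x ∈ U})) := by
    have key : ∀ x : {x // x ∈ U}, clus s t R (Subtype.val '' O') x.1 =
        Subtype.val '' clus (s' s t U G hG) (t' s t U G hG) (R' R U) O' x := by
      intro x
      ext w
      constructor
      · intro hw
        have hw' : Con s t R (Subtype.val '' O') x.1 w := hw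
        have hwU : w ∈ U := by
          rcases con_down s t R U G hR hG hw' with h | ⟨_, hb, _⟩
          · rw [← h]; exact x.2
          · exact hb
        exact ⟨⟨w, hwU⟩, (con_iff s t R U G hR hG x ⟨w, hwU⟩).mp hw', rfl⟩
      · rintro ⟨y, hy, rfl⟩
        exact (con_iff s t R U G hR hG x y).mpr hy
    ext A
    constructor
    · rintro ⟨x, hx, rfl⟩
      exact ⟨_, ⟨⟨x, hx⟩, Finset.mem_coe.mpr (Finset.mem_univ _), rfl⟩, (key ⟨x, hx⟩).symm⟩
    · rintro ⟨_, ⟨x, _, rfl⟩, rfl⟩
      exact ⟨x.1, x.2, key x⟩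
  rw [h]
  exact Set.ncard_image_of_injective _ (Set.image_injective.mpr Subtype.val_injective)

variable {p q : ℝ}

include hR in
theorem wt_eq (ω' : Finset {e // e ∈ G}) :
    wt s t R U G p q (ω'.map (Function.Embedding.subtype _)) =
      wt (s' s t U G hG) (t' s t U G hG) (R' R U) Finset.univ Finset.univ p q ω' := by
  unfold wt bw
  have h1 : ((ω'.map (Function.Embedding.subtype _) : Finset E) : Set E) =
      Subtype.val '' (ω' : Set {e // e ∈ G}) := by
    rw [Finset.coe_map]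
    rfl
  rw [h1, ncl_eq s t R U G hR hG, Finset.card_map, Finset.card_univ, Fintype.card_coe]

theorem sum_eq (g : Finset E → ℝ) :
    ∑ ω ∈ G.powerset, g ω = ∑ ω' ∈ (Finset.univ : Finset {e // e ∈ G}).powerset,
      g (ω'.map (Function.Embedding.subtype _)) := by
  symm
  refine Finset.sum_bij (fun ω' _ => ω'.map (Function.Embedding.subtype _)) ?_ ?_ ?_ ?_
  · intro ω' _
    rw [Finset.mem_powerset]
    intro e he
    rw [Finset.mem_map] at he
    obtain ⟨e', _, rfl⟩ := he
    exact e'.2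
  · intro a _ b _ h
    exact Finset.map_injective _ h
  · intro ω hω
    rw [Finset.mem_powerset] at hω
    classical
    refine ⟨ω.subtype (fun e => e ∈ G), Finset.mem_powerset.mpr (Finset.subset_univ _), ?_⟩
    rw [Finset.subtype_map]
    exact Finset.filter_true_of_mem fun e he => hω he
  · intro a _
    rfl

include hR in
theorem Ex_eq (f : Finset E → ℝ) :
    Ex s t R U G p q f = Ex (s' s t U G hG) (t' s t U G hG) (R' R U) Finset.univ Finset.univ p q
      (fun ω' => f (ω'.map (Function.Embedding.subtype _))) := by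
  unfold Ex
  rw [sum_eq G, sum_eq G]
  congr 1
  · exact Finset.sum_congr rfl fun ω' _ => by rw [wt_eq s t R U G hR hG]
  · exact Finset.sum_congr rfl fun ω' _ => by rw [wt_eq s t R U G hR hG]

include hR in
theorem con_fin (ω' : Finset {e // e ∈ G}) (x y : {x // x ∈ U}) :
    Con s t R ((ω'.map (Function.Embedding.subtype _) : Finset E) : Set E) x.1 y.1 ↔
      Con (s' s t U G hG) (t' s t U G hG) (R' R U) (ω' : Set {e // e ∈ G}) x y := by
  have h1 : ((ω'.map (Function.Embedding.subtype _) : Finset E) : Set E) =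
      Subtype.val '' (ω' : Set {e // e ∈ G}) := by
    rw [Finset.coe_map]
    rfl
  rw [h1]
  exact con_iff s t R U G hR hG x y

theorem mrg_eq (T B : {x // x ∈ U}) : R' (mrg R T.1 B.1) U = mrg (R' R U) T B := by
  funext a b
  unfold R' mrg
  apply propext
  rw [Subtype.ext_iff, Subtype.ext_iff]

include hR in
theorem mrg_mem (T B : {x // x ∈ U}) : ∀ a b, mrg R T.1 B.1 a b → a ∈ U ∧ b ∈ U := by
  rintro a b (h | ⟨rfl, rfl⟩)
  · exact hR a b h
  · exact ⟨T.2, B.2⟩

include hR in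
theorem tht_eq (T B x : {x // x ∈ U}) :
    tht s t R U G p q T.1 B.1 x.1 =
      tht (s' s t U G hG) (t' s t U G hG) (R' R U) Finset.univ Finset.univ p q T B x := by
  unfold tht
  rw [Ex_eq s t (mrg R T.1 B.1) U G (mrg_mem R U hR T B) hG, mrg_eq]
  apply Ex_congr
  intro ω' _
  apply ind_congr
  rw [con_fin s t (mrg R T.1 B.1) U G (mrg_mem R U hR T B) hG, mrg_eq]

include hR in
theorem dis_eq (T B : {x // x ∈ U}) (ω' : Finset {e // e ∈ G}) :
    Dis s t R T.1 B.1 (ω'.map (Function.Embedding.subtype _)) ↔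
      Dis (s' s t U G hG) (t' s t U G hG) (R' R U) T B ω' := by
  unfold Dis
  rw [con_fin s t R U G hR hG]

include hR in
theorem Exc_eq (T B : {x // x ∈ U}) (f : Finset E → ℝ) (f' : Finset {e // e ∈ G} → ℝ)
    (hf : ∀ ω', f (ω'.map (Function.Embedding.subtype _)) = f' ω') :
    Exc s t (mrg R T.1 B.1) U G p q (Dis s t R T.1 B.1) f =
      Exc (s' s t U G hG) (t' s t U G hG) (mrg (R' R U) T B) Finset.univ Finset.univ p q
        (Dis (s' s t U G hG) (t' s t U G hG) (R' R U) T B) f' := by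
  unfold Exc
  rw [Ex_eq s t (mrg R T.1 B.1) U G (mrg_mem R U hR T B) hG,
    Ex_eq s t (mrg R T.1 B.1) U G (mrg_mem R U hR T B) hG, mrg_eq]
  congr 1
  · apply Ex_congr
    intro ω' _
    rw [hf ω', ind_congr (dis_eq s t R U G hR hG T B ω')]
  · apply Ex_congr
    intro ω' _
    exact ind_congr (dis_eq s t R U G hR hG T B ω')

include hR in
theorem sgn_eq (u : ℝ) (T B x : {x // x ∈ U}) :
    sgn s t R U G p q u T.1 B.1 x.1 =
      sgn (s' s t U G hG) (t' s t U G hG) (R' R U) Finset.univ Finset.univ p q u T B x := by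
  unfold sgn
  apply Exc_eq s t R U G hR hG T B
  intro ω'
  rw [ind_congr (con_fin s t R U G hR hG ω' x T), ind_congr (con_fin s t R U G hR hG ω' x B)]

include hR in
theorem dlt_eq (T B : {x // x ∈ U}) (e : {e // e ∈ G}) :
    dlt s t R U G p q T.1 B.1 e.1 =
      dlt (s' s t U G hG) (t' s t U G hG) (R' R U) Finset.univ Finset.univ p q T B e := by
  unfold dlt
  have hm : ∀ ω' : Finset {e // e ∈ G},
      ind (e.1 ∈ ω'.map (Function.Embedding.subtype _)) = ind (e ∈ ω') := by
    intro ω'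
    apply ind_congr
    rw [Finset.mem_map]
    constructor
    · rintro ⟨e', he', h⟩
      have : e' = e := Subtype.ext h
      rwa [← this]
    · intro h
      exact ⟨e, h, rfl⟩
  rw [Exc_eq s t R U G hR hG T B (fun ω => ind (e.1 ∈ ω)) (fun ω' => ind (e ∈ ω')) hm,
    Ex_eq s t (mrg R T.1 B.1) U G (mrg_mem R U hR T B) hG, mrg_eq]
  congr 1
  apply Ex_congr
  intro ω' _
  exact hm ω'

end

end TRF_

open TRF_ in
/-- The target TRF. -/
theorem p_TRF : T_TRF := by
  intro q κ u hQ V E _ _ s t R U G p hp hp1 hR hG T hT B hB hTB e he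
  have h := hQ {x // x ∈ U} {e // e ∈ G} (s' s t U G hG) (t' s t U G hG) (R' R U) p hp hp1
    ⟨T, hT⟩ ⟨B, hB⟩ ?_ ⟨e, he⟩
  · have e1 := tht_eq (p := p) (q := q) s t R U G hR hG ⟨T, hT⟩ ⟨B, hB⟩
      ((t' s t U G hG) ⟨e, he⟩)
    have e2 := tht_eq (p := p) (q := q) s t R U G hR hG ⟨T, hT⟩ ⟨B, hB⟩
      ((s' s t U G hG) ⟨e, he⟩)
    have e3 := sgn_eq (p := p) (q := q) s t R U G hR hG u ⟨T, hT⟩ ⟨B, hB⟩
      ((s' s t U G hG) ⟨e, he⟩)
    have e4 := sgn_eq (p := p) (q := q) s t R U G hR hG u ⟨T, hT⟩ ⟨B, hB⟩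
      ((t' s t U G hG) ⟨e, he⟩)
    have e5 := dlt_eq (p := p) (q := q) s t R U G hR hG ⟨T, hT⟩ ⟨B, hB⟩ ⟨e, he⟩
    rw [← e1, ← e2, ← e3, ← e4, ← e5] at h
    exact h
  · intro hc
    apply hTB
    have := con_up s t R U G hG hc
    rwa [Set.image_empty] at this

end Pool.Agent.FKP
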