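import Pool.Agent.FKP.PartC
import Pool.Agent.FKP.Lem

/-!
# Project FKP: TRN, transfer of a crossing to another direction
-/

set_option autoImplicit false

namespace Pool.Agent.FKP

open Filter MeasureTheory Pool.Agent.FKT

namespace TRN_

/-- The prescribed points. -/
def pt {d : ℕ} (v : Vx d) (i i' : Fin d) (c c' : ℤ) (l : ℤ) (j : ℕ) : Vx d :=
  fun k => if k = i then c + j * l else if k = i' then c' + j * l else v k

theorem pt_i {d : ℕ} (v : Vx d) (i i' : Fin d) (c c' l : ℤ) (j : ℕ) :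
    pt v i i' c c' l j i = c + j * l := by
  simp [pt]

theorem pt_i' {d : ℕ} (v : Vx d) (i i' : Fin d) (h : i ≠ i') (c c' l : ℤ) (j : ℕ) :
    pt v i i' c c' l j i' = c' + j * l := by
  have h' : ¬ i' = i := fun e => h e.symm
  simp [pt, h']

theorem step {m j : ℕ} (l : ℤ) (hl : 0 < l) (hj : j < m) : (j : ℤ) * l + l ≤ m * l := by
  have h1 : (j : ℤ) + 1 ≤ m := by exact_mod_cast hj
  have h2 := mul_le_mul_of_nonneg_right h1 hl.le
  linarith

theorem pt_mem {d : ℕ} (v : Vx d) (i i' : Fin d) (h : i ≠ i') (c c' : ℤ) (L n : ℕ) (j : ℕ)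
    (cj : ℤ) (hcj : cj = c + j * ((L : ℤ) + 1)) (h1 : v i' - n ≤ c')
    (h2 : c' + j * ((L : ℤ) + 1) ≤ v i' + n) :
    pt v i i' c c' ((L : ℤ) + 1) j ∈ slc v i L cj n := by
  unfold slc
  rw [Finset.mem_Icc]
  have hj0 : (0 : ℤ) ≤ j * ((L : ℤ) + 1) := by positivity
  constructor
  · intro k
    beta_reduce
    by_cases hk : k = i
    · subst hk
      rw [pt_i, if_pos rfl, hcj]
    · rw [if_neg hk]
      by_cases hk' : k = i'
      · subst hk'
        rw [pt_i' _ _ _ h]
        linarith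
      · simp only [pt, if_neg hk, if_neg hk']
        have : (0 : ℤ) ≤ n := by positivity
        linarith
  · intro k
    beta_reduce
    by_cases hk : k = i
    · subst hk
      rw [pt_i, if_pos rfl, hcj]
      have : (0 : ℤ) ≤ L := by positivity
      linarith
    · rw [if_neg hk]
      by_cases hk' : k = i'
      · subst hk'
        rw [pt_i' _ _ _ h]
        exact h2
      · simp only [pt, if_neg hk, if_neg hk']
        have : (0 : ℤ) ≤ n := by positivity
        linarith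

end TRN_

/-- TRN. Transfer to another direction. -/
theorem p_TRN (h_LMX : T_LMX) : T_TRN := by
  intro d p q hp hp1 hq L α hS R U v n hU i i' c c' m hii h1 h2 h3 h4
  have hq0 : 0 < q := by linarith
  have hl : (0 : ℤ) < (L : ℤ) + 1 := by positivity
  have hm0 : (0 : ℤ) ≤ m * ((L : ℤ) + 1) := by positivity
  set y : ℕ → Vx d := fun j => TRN_.pt v i i' c c' ((L : ℤ) + 1) j with hy
  have hA := h_LMX d p q hp hp1 hq L α hS R U v n hU i c m h1 (by linarith) y (by
    intro j hj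
    have hs := TRN_.step ((L : ℤ) + 1) hl hj
    exact TRN_.pt_mem v i i' hii c c' L n j _ rfl h3 (by linarith))
  have hB := h_LMX d p q hp hp1 hq L α hS R U v n hU i (c + 2 * m * ((L : ℤ) + 1)) m
    (by linarith) (by linarith) (fun j => y (2 * m + j)) (by
      intro j hj
      have hs := TRN_.step ((L : ℤ) + 1) hl hj
      refine TRN_.pt_mem v i i' hii c c' L n (2 * m + j) _ ?_ h3 ?_
      · push_cast
        ring
      · push_cast
        linarith)
  have hincl : ∀ ω : Finset (Ed d), ω ⊆ eb v n →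
      ind (∃ u ∈ bx v n, Cr i c (3 * m * (L + 1)) u ω ∧
        ¬ Cr i' (c' + m * (L + 1)) (m * (L + 1)) u ω) ≤
      ind (∃ u ∈ bx v n, Cr i c (m * (L + 1)) u ω ∧ ∀ j < m, ¬ Cf ω u (y j)) +
      ind (∃ u ∈ bx v n, Cr i (c + 2 * m * ((L : ℤ) + 1)) (m * (L + 1)) u ω ∧
        ∀ j < m, ¬ Cf ω u (y (2 * m + j))) := by
    intro ω _
    by_cases hE : ∃ u ∈ bx v n, Cr i c (3 * m * (L + 1)) u ω ∧
        ¬ Cr i' (c' + m * (L + 1)) (m * (L + 1)) u ω
    · rw [ind_true hE]
      obtain ⟨u, hu, ⟨⟨a, ha, hac⟩, b, hb, hbc⟩, hn⟩ := hE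
      push_cast at hbc
      by_cases h5 : ∀ j < m, ¬ Cf ω u (y j)
      · have hT : ∃ u ∈ bx v n, Cr i c (m * (L + 1)) u ω ∧ ∀ j < m, ¬ Cf ω u (y j) := by
          refine ⟨u, hu, ⟨⟨a, ha, hac⟩, b, hb, ?_⟩, h5⟩
          push_cast
          linarith
        rw [ind_true hT]
        have := ind_nonneg (∃ u ∈ bx v n, Cr i (c + 2 * m * ((L : ℤ) + 1)) (m * (L + 1)) u ω ∧
          ∀ j < m, ¬ Cf ω u (y (2 * m + j)))
        linarith
      · by_cases h6 : ∀ j < m, ¬ Cf ω u (y (2 * m + j))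
        · have hT : ∃ u ∈ bx v n, Cr i (c + 2 * m * ((L : ℤ) + 1)) (m * (L + 1)) u ω ∧
              ∀ j < m, ¬ Cf ω u (y (2 * m + j)) := by
            refine ⟨u, hu, ⟨⟨a, ha, by linarith⟩, b, hb, ?_⟩, h6⟩
            push_cast
            linarith
          rw [ind_true hT]
          have := ind_nonneg (∃ u ∈ bx v n, Cr i c (m * (L + 1)) u ω ∧ ∀ j < m, ¬ Cf ω u (y j))
          linarith
        · exfalso
          apply hn
          simp only [not_forall, not_not] at h5 h6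
          obtain ⟨j, hj, hcj⟩ := h5
          obtain ⟨j', _, hcj'⟩ := h6
          have hs := TRN_.step ((L : ℤ) + 1) hl hj
          refine ⟨⟨y j, hcj, ?_⟩, y (2 * m + j'), hcj', ?_⟩
          · show TRN_.pt v i i' c c' ((L : ℤ) + 1) j i' < _
            rw [TRN_.pt_i' _ _ _ hii]
            linarith
          · show _ ≤ TRN_.pt v i i' c c' ((L : ℤ) + 1) (2 * m + j') i'
            rw [TRN_.pt_i' _ _ _ hii]
            have h7 : (0 : ℤ) ≤ j' * ((L : ℤ) + 1) := by positivity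
            push_cast
            linarith
    · rw [ind_false hE]
      exact add_nonneg (ind_nonneg _) (ind_nonneg _)
  calc Ex Prod.fst tgt R U (eb v n) p q (fun ω => ind (∃ u ∈ bx v n,
        Cr i c (3 * m * (L + 1)) u ω ∧ ¬ Cr i' (c' + m * (L + 1)) (m * (L + 1)) u ω))
      ≤ Ex Prod.fst tgt R U (eb v n) p q (fun ω =>
        ind (∃ u ∈ bx v n, Cr i c (m * (L + 1)) u ω ∧ ∀ j < m, ¬ Cf ω u (y j)) +
        ind (∃ u ∈ bx v n, Cr i (c + 2 * m * ((L : ℤ) + 1)) (m * (L + 1)) u ω ∧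
          ∀ j < m, ¬ Cf ω u (y (2 * m + j)))) := Ex_mono hp hp1 hq0 hincl
    _ ≤ (2 * (n : ℝ) + 1) ^ d * (1 - α) ^ m + (2 * (n : ℝ) + 1) ^ d * (1 - α) ^ m := by
        rw [Ex_add]
        exact add_le_add hA hB
    _ = 2 * (2 * (n : ℝ) + 1) ^ d * (1 - α) ^ m := by ring

end Pool.Agent.FKP
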