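import Pool.Agent.FKP.PartB
import Pool.Agent.FKP.Lem
import Pool.Agent.FKP.P_BCN
import Pool.Agent.FKT.TargetsA

/-!
# Project FKP, target UNM: identifying the seeds
-/

set_option autoImplicit false

namespace Pool.Agent.FKP

open Pool.Agent.FKT

namespace UNM_

section gen

variable {V E : Type} {s t : E → V} {R R' : V → V → Prop} {O : Set E}

/-- The union of the clusters for `R'` of the points of a set. -/
def sat (s t : E → V) (R : V → V → Prop) (O : Set E) (C : Set V) : Set V :=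
  {w | ∃ v ∈ C, Con s t R O v w}

theorem sat_clus (h : ∀ a b, Con s t R O a b → Con s t R' O a b) (v : V) :
    sat s t R' O (clus s t R O v) = clus s t R' O v := by
  ext w
  constructor
  · rintro ⟨v', hv', hw⟩
    exact Con_trans (h _ _ hv') hw
  · intro hw
    exact ⟨v, Con_refl O v, hw⟩

theorem clus_eq {v w : V} (h : Con s t R O v w) : clus s t R O v = clus s t R O w := by
  ext x
  constructor
  · intro hx
    exact Con_trans (Con_symm h) hx
  · intro hx
    exact Con_trans h hx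

theorem con_of_clus_eq {v w : V} (h : clus s t R O v = clus s t R O w) : Con s t R O v w := by
  have : w ∈ clus s t R O w := Con_refl O w
  rw [← h] at this
  exact this

/-- More connections, fewer clusters. -/
theorem ncl_le (U : Finset V) (h : ∀ a b, Con s t R O a b → Con s t R' O a b) :
    ncl s t R' U O ≤ ncl s t R U O := by
  unfold ncl
  have : clus s t R' O '' (U : Set V) = sat s t R' O '' (clus s t R O '' (U : Set V)) := by
    rw [Set.image_image]
    exact Set.image_congr fun v _ => (sat_clus h v).symm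
  rw [this]
  exact Set.ncard_image_le (U.finite_toSet.image _)

theorem mrg_con {x y a b : V} (h : Con s t (mrg R x y) O a b) :
    Con s t R O a b ∨ (Con s t R O a x ∧ Con s t R O y b) ∨
      (Con s t R O a y ∧ Con s t R O x b) := by
  induction h with
  | rel a b hab =>
    rcases hab with (h | ⟨rfl, rfl⟩) | ⟨e, he, h1, h2⟩
    · exact Or.inl (Con_wired h)
    · exact Or.inr (Or.inl ⟨Con_refl O _, Con_refl O _⟩)
    · subst h1
      subst h2
      exact Or.inl (Con_edge he)
  | refl a => exact Or.inl (Con_refl O a)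
  | symm a b _ ih =>
    rcases ih with h | ⟨h1, h2⟩ | ⟨h1, h2⟩
    · exact Or.inl (Con_symm h)
    · exact Or.inr (Or.inr ⟨Con_symm h2, Con_symm h1⟩)
    · exact Or.inr (Or.inl ⟨Con_symm h2, Con_symm h1⟩)
  | trans a b c _ _ ih1 ih2 =>
    rcases ih1 with h | ⟨h1, h2⟩ | ⟨h1, h2⟩
    · rcases ih2 with k | ⟨k1, k2⟩ | ⟨k1, k2⟩
      · exact Or.inl (Con_trans h k)
      · exact Or.inr (Or.inl ⟨Con_trans h k1, k2⟩)
      · exact Or.inr (Or.inr ⟨Con_trans h k1, k2⟩)
    · rcases ih2 with k | ⟨k1, k2⟩ | ⟨k1, k2⟩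
      · exact Or.inr (Or.inl ⟨h1, Con_trans h2 k⟩)
      · exact Or.inr (Or.inl ⟨h1, k2⟩)
      · exact Or.inl (Con_trans h1 k2)
    · rcases ih2 with k | ⟨k1, k2⟩ | ⟨k1, k2⟩
      · exact Or.inr (Or.inr ⟨h1, Con_trans h2 k⟩)
      · exact Or.inl (Con_trans h1 k2)
      · exact Or.inr (Or.inr ⟨h1, k2⟩)

/-- One more wired pair decreases the number of clusters by at most one. -/
theorem ncl_mrg (U : Finset V) (x y : V) :
    ncl s t R U O ≤ ncl s t (mrg R x y) U O + 1 := by
  have hm : ∀ a b, Con s t R O a b → Con s t (mrg R x y) O a b := fun a b h =>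
    Con_mono (fun _ _ h => Or.inl h) (le_refl _) h
  unfold ncl
  have hfin : (clus s t R O '' (U : Set V)).Finite := U.finite_toSet.image _
  have h1 : (clus s t R O '' (U : Set V)).ncard ≤
      ((clus s t R O '' (U : Set V)) \ {clus s t R O y}).ncard + 1 := by
    have := Set.ncard_le_ncard_sdiff_add_ncard (clus s t R O '' (U : Set V))
      {clus s t R O y} (Set.finite_singleton _)
    rwa [Set.ncard_singleton] at this
  refine h1.trans (Nat.add_le_add_right ?_ 1)
  refine Set.ncard_le_ncard_of_injOn (sat s t (mrg R x y) O) ?_ ?_ (U.finite_toSet.image _)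
  · rintro C ⟨⟨v, hv, rfl⟩, _⟩
    rw [sat_clus hm]
    exact ⟨v, hv, rfl⟩
  · rintro C ⟨⟨v, hv, rfl⟩, hvy⟩ C' ⟨⟨w, hw, rfl⟩, hwy⟩ hC
    rw [sat_clus hm, sat_clus hm] at hC
    rcases mrg_con (con_of_clus_eq hC) with h | ⟨h1, h2⟩ | ⟨h1, h2⟩
    · exact clus_eq h
    · exact absurd (clus_eq (Con_symm h2)) hwy
    · exact absurd (clus_eq h1) hvy

/-- The wiring `R` with the pairs of the list `l`. -/
def wl (R : V → V → Prop) (l : List (V × V)) : V → V → Prop := fun a b => R a b ∨ (a, b) ∈ l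

theorem ncl_wl (U : Finset V) (l : List (V × V)) :
    ncl s t R U O ≤ ncl s t (wl R l) U O + l.length := by
  induction l with
  | nil =>
    have : wl R [] = R := by
      funext a b
      simp [wl]
    rw [this]
    simp
  | cons c l ih =>
    have h : wl R (c :: l) = mrg (wl R l) c.1 c.2 := by
      funext a b
      apply propext
      unfold wl mrg
      rw [List.mem_cons, Prod.ext_iff]
      tauto
    rw [h, List.length_cons]
    have := ncl_mrg (s := s) (t := t) (R := wl R l) (O := O) U c.1 c.2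
    omega

end gen

section lat

variable {k : ℕ} {m : ℕ} {s : ℕ} {v v' : Fin m → Vx (k + 3)} {ω : Finset (Ed (k + 3))}

theorem mem_cu (s : ℕ) (w : Vx (k + 3)) : w ∈ cu s w := by
  unfold cu
  rw [Finset.mem_Icc]
  refine ⟨le_refl _, fun i => ?_⟩
  dsimp only
  split_ifs
  · have : (0 : ℤ) ≤ (s : ℤ) := Int.natCast_nonneg s
    linarith
  · exact le_refl _

theorem cu_con (hB : T_BCN) {w x : Vx (k + 3)} (h : es (cu s w) ⊆ ω) (hx : x ∈ cu s w) :
    Cf ω x w := by
  have := hB (k + 3) w (fun i => if i.val < 3 then w i + s else w i) x hx w (mem_cu s w)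
  exact Con_mono (fun _ _ h => h) (by exact_mod_cast h) this

/-- The pairs joining the seeds to `v i0`. -/
def prs (v v' : Fin m → Vx (k + 3)) (i0 : Fin m) : List (Vx (k + 3) × Vx (k + 3)) :=
  (List.finRange m).map (fun i => (v i0, v i)) ++ (List.finRange m).map fun i => (v i0, v' i)

theorem prs_length (v v' : Fin m → Vx (k + 3)) (i0 : Fin m) : (prs v v' i0).length = 2 * m := by
  unfold prs
  rw [List.length_append, List.length_map, List.length_map, List.length_finRange]
  omega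

theorem prs_l (i0 i : Fin m) : (v i0, v i) ∈ prs v v' i0 := by
  unfold prs
  rw [List.mem_append]
  exact Or.inl (List.mem_map.mpr ⟨i, List.mem_finRange i, rfl⟩)

theorem prs_r (i0 i : Fin m) : (v i0, v' i) ∈ prs v v' i0 := by
  unfold prs
  rw [List.mem_append]
  exact Or.inr (List.mem_map.mpr ⟨i, List.mem_finRange i, rfl⟩)

theorem con_prs (hS : Sop s v v' ω) (i0 : Fin m) {a b : Vx (k + 3)}
    (h : Con Prod.fst tgt (mrg (swr s v v') (v i0) (v' i0)) (ω : Set (Ed (k + 3))) a b) :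
    Con Prod.fst tgt (wl (no (Vx (k + 3))) (prs v v' i0)) (ω : Set (Ed (k + 3))) a b := by
  have hm : ∀ a b, Con Prod.fst tgt (no (Vx (k + 3))) (ω : Set (Ed (k + 3))) a b →
      Con Prod.fst tgt (wl (no (Vx (k + 3))) (prs v v' i0)) (ω : Set (Ed (k + 3))) a b :=
    fun a b h => Con_mono (fun _ _ h => Or.inl h) (le_refl _) h
  have hl : ∀ i, Con Prod.fst tgt (wl (no (Vx (k + 3))) (prs v v' i0)) (ω : Set (Ed (k + 3)))
      (v i0) (v i) := fun i => Con_wired (Or.inr (prs_l i0 i))
  have hr : ∀ i, Con Prod.fst tgt (wl (no (Vx (k + 3))) (prs v v' i0)) (ω : Set (Ed (k + 3)))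
      (v i0) (v' i) := fun i => Con_wired (Or.inr (prs_r i0 i))
  induction h with
  | rel a b hab =>
    rcases hab with (h | ⟨rfl, rfl⟩) | ⟨e, he, h1, h2⟩
    · rcases h with ⟨i, j, ha, hb⟩ | ⟨i, j, ha, hb⟩
      · have h1 := hm _ _ (cu_con p_BCN (hS i).1 ha)
        have h2 := hm _ _ (cu_con p_BCN (hS j).1 hb)
        exact Con_trans h1 (Con_trans (Con_symm (hl i)) (Con_trans (hl j) (Con_symm h2)))
      · have h1 := hm _ _ (cu_con p_BCN (hS i).2 ha)
        have h2 := hm _ _ (cu_con p_BCN (hS j).2 hb)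
        exact Con_trans h1 (Con_trans (Con_symm (hr i)) (Con_trans (hr j) (Con_symm h2)))
    · exact hr i0
    · subst h1
      subst h2
      exact Con_edge he
  | refl a => exact Con_refl _ a
  | symm a b _ ih => exact Con_symm ih
  | trans a b c _ _ ih1 ih2 => exact Con_trans ih1 ih2

theorem ncl_up (S : Finset (Vx (k + 3))) (hS : Sop s v v' ω) (i0 : Fin m) :
    ncl Prod.fst tgt (no (Vx (k + 3))) S (ω : Set (Ed (k + 3))) ≤
      ncl Prod.fst tgt (mrg (swr s v v') (v i0) (v' i0)) S (ω : Set (Ed (k + 3))) + 2 * m := by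
  have h1 := ncl_wl (s := Prod.fst) (t := tgt) (R := no (Vx (k + 3)))
    (O := (ω : Set (Ed (k + 3)))) S (prs v v' i0)
  rw [prs_length] at h1
  have h2 := ncl_le (s := Prod.fst) (t := tgt)
    (R := mrg (swr s v v') (v i0) (v' i0)) (R' := wl (no (Vx (k + 3))) (prs v v' i0))
    (O := (ω : Set (Ed (k + 3)))) S fun a b h => con_prs hS i0 h
  omega

theorem ncl_dn (S : Finset (Vx (k + 3))) (R : Vx (k + 3) → Vx (k + 3) → Prop) :
    ncl Prod.fst tgt R S (ω : Set (Ed (k + 3))) ≤
      ncl Prod.fst tgt (no (Vx (k + 3))) S (ω : Set (Ed (k + 3))) :=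
  ncl_le S fun _ _ h => Con_mono (fun _ _ h => h.elim) (le_refl _) h

theorem dis_of (hS : Sop s v v' ω) (hN : Ncn v v' ω) (i0 : Fin m) :
    Dis Prod.fst tgt (swr s v v') (v i0) (v' i0) ω := by
  intro hc
  have key : ∀ a b, Con Prod.fst tgt (swr s v v') (ω : Set (Ed (k + 3))) a b →
      ((∃ i, Cf ω a (v i)) ↔ ∃ i, Cf ω b (v i)) := by
    intro a b h
    induction h with
    | rel a b hab =>
      rcases hab with h | ⟨e, he, h1, h2⟩
      · rcases h with ⟨i, j, ha, hb⟩ | ⟨i, j, ha, hb⟩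
        · exact ⟨fun _ => ⟨j, cu_con p_BCN (hS j).1 hb⟩, fun _ => ⟨i, cu_con p_BCN (hS i).1 ha⟩⟩
        · have h1 := cu_con p_BCN (hS i).2 ha
          have h2 := cu_con p_BCN (hS j).2 hb
          constructor
          · rintro ⟨l, hl⟩
            exact absurd (Con_trans (Con_symm hl) h1) (hN l i)
          · rintro ⟨l, hl⟩
            exact absurd (Con_trans (Con_symm hl) h2) (hN l j)
      · subst h1
        subst h2
        have hab : Cf ω e.1 (tgt e) := Con_edge (s := Prod.fst) (t := tgt) he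
        exact ⟨fun ⟨i, hi⟩ => ⟨i, Con_trans (Con_symm hab) hi⟩,
          fun ⟨i, hi⟩ => ⟨i, Con_trans hab hi⟩⟩
    | refl a => exact Iff.rfl
    | symm a b _ ih => exact ih.symm
    | trans a b c _ _ ih1 ih2 => exact ih1.trans ih2
  obtain ⟨i, hi⟩ := (key _ _ hc).mp ⟨i0, Con_refl _ _⟩
  exact hN i i0 (Con_symm hi)

end lat

end UNM_

open UNM_ in
theorem p_UNM (h_FKG : FKT.T_FKG) : T_UNM := by
  intro k q p hq hp hp1 S s H m v v' hG i0
  have hq0 : 0 < q := by linarith
  set R1 := mrg (swr s v v') (v i0) (v' i0) with hR1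
  set Z := ∑ ω ∈ (es S).powerset, wt Prod.fst tgt (no (Vx (k + 3))) S (es S) p q ω with hZ
  set Z1 := ∑ ω ∈ (es S).powerset, wt Prod.fst tgt R1 S (es S) p q ω with hZ1
  have hZp : 0 < Z := Z_pos hp hp1 hq0
  have hZ1p : 0 < Z1 := Z_pos hp hp1 hq0
  have hfr : ∀ f : Finset (Ed (k + 3)) → ℝ, fr S p q f * Z =
      ∑ ω ∈ (es S).powerset, wt Prod.fst tgt (no (Vx (k + 3))) S (es S) p q ω * f ω := by
    intro f
    unfold fr fw Ex
    exact div_mul_cancel₀ _ hZp.ne'
  have hex : ∀ f : Finset (Ed (k + 3)) → ℝ, Ex Prod.fst tgt R1 S (es S) p q f * Z1 =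
      ∑ ω ∈ (es S).powerset, wt Prod.fst tgt R1 S (es S) p q ω * f ω := by
    intro f
    unfold Ex
    exact div_mul_cancel₀ _ hZ1p.ne'
  -- the weights
  have hw1 : ∀ ω, Sop s v v' ω → wt Prod.fst tgt (no (Vx (k + 3))) S (es S) p q ω ≤
      q ^ (2 * m) * wt Prod.fst tgt R1 S (es S) p q ω := by
    intro ω hS
    unfold wt
    have h1 : q ^ ncl Prod.fst tgt (no (Vx (k + 3))) S (ω : Set (Ed (k + 3))) ≤
        q ^ (ncl Prod.fst tgt R1 S (ω : Set (Ed (k + 3))) + 2 * m) :=
      pow_le_pow_right₀ hq (ncl_up S hS i0)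
    rw [pow_add] at h1
    have h2 := mul_le_mul_of_nonneg_left h1 (bw_pos (G := es S) hp hp1 ω).le
    linarith
  have hw2 : ∀ ω, wt Prod.fst tgt R1 S (es S) p q ω ≤
      wt Prod.fst tgt (no (Vx (k + 3))) S (es S) p q ω := by
    intro ω
    unfold wt
    exact mul_le_mul_of_nonneg_left (pow_le_pow_right₀ hq (ncl_dn S R1))
      (bw_pos (G := es S) hp hp1 ω).le
  -- first inequality
  have e1 : fr S p q (fun ω => ind (Sop s v v' ω ∧ Ncn v v' ω)) * Z ≤
      q ^ (2 * m) * (Ex Prod.fst tgt R1 S (es S) p q (fun ω => ind (Sop s v v' ω) *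
        ind (Dis Prod.fst tgt (swr s v v') (v i0) (v' i0) ω)) * Z1) := by
    rw [hfr, hex, Finset.mul_sum]
    refine Finset.sum_le_sum fun ω _ => ?_
    by_cases h : Sop s v v' ω ∧ Ncn v v' ω
    · rw [ind_true h, ind_true h.1, ind_true (dis_of h.1 h.2 i0), mul_one, mul_one, mul_one]
      exact hw1 ω h.1
    · rw [ind_false h, mul_zero]
      exact mul_nonneg (pow_nonneg hq0.le _) (mul_nonneg (wt_pos hp hp1 hq0 ω).le
        (mul_nonneg (ind_nonneg _) (ind_nonneg _)))
  -- positive association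
  have e2 : Ex Prod.fst tgt R1 S (es S) p q (fun ω => ind (Sop s v v' ω) *
        ind (Dis Prod.fst tgt (swr s v v') (v i0) (v' i0) ω)) ≤
      Ex Prod.fst tgt R1 S (es S) p q (fun ω => ind (Sop s v v' ω)) *
        Ex Prod.fst tgt R1 S (es S) p q
          fun ω => ind (Dis Prod.fst tgt (swr s v v') (v i0) (v' i0) ω) := by
    have hF := (h_FKG (Vx (k + 3)) (Ed (k + 3)) Prod.fst tgt R1 S (es S) p q hp hp1 hq
      (fun e he => mem_es.mp he)).1 (fun ω => ind (Sop s v v' ω))
      (fun ω => (-1) * ind (Dis Prod.fst tgt (swr s v v') (v i0) (v' i0) ω))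
      (fun a b hab => ind_mono fun h i => ⟨(h i).1.trans hab, (h i).2.trans hab⟩)
      (fun a b hab => by
        have : ind (Dis Prod.fst tgt (swr s v v') (v i0) (v' i0) b) ≤
            ind (Dis Prod.fst tgt (swr s v v') (v i0) (v' i0) a) :=
          ind_mono fun h hc => h (Con_mono (fun _ _ h => h) (by exact_mod_cast hab) hc)
        linarith)
    rw [Ex_mul_left] at hF
    have h3 : Ex Prod.fst tgt R1 S (es S) p q (fun ω => ind (Sop s v v' ω) *
        ((-1) * ind (Dis Prod.fst tgt (swr s v v') (v i0) (v' i0) ω))) =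
        (-1) * Ex Prod.fst tgt R1 S (es S) p q (fun ω => ind (Sop s v v' ω) *
        ind (Dis Prod.fst tgt (swr s v v') (v i0) (v' i0) ω)) := by
      rw [← Ex_mul_left]
      exact Ex_congr fun ω _ => by ring
    rw [h3] at hF
    linarith
  -- last inequality
  have e3 : Ex Prod.fst tgt R1 S (es S) p q (fun ω => ind (Sop s v v' ω)) * Z1 ≤
      fr S p q (fun ω => ind (Sop s v v' ω)) * Z := by
    rw [hfr, hex]
    exact Finset.sum_le_sum fun ω _ => mul_le_mul_of_nonneg_right (hw2 ω) (ind_nonneg _)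
  have hD0 : 0 ≤ Ex Prod.fst tgt R1 S (es S) p q
      fun ω => ind (Dis Prod.fst tgt (swr s v v') (v i0) (v' i0) ω) :=
    Ex_nonneg hp hp1 hq0 fun ω _ => ind_nonneg _
  have hqm : 0 ≤ q ^ (2 * m) := pow_nonneg hq0.le _
  refine le_of_mul_le_mul_right ?_ hZp
  calc fr S p q (fun ω => ind (Sop s v v' ω ∧ Ncn v v' ω)) * Z
      ≤ q ^ (2 * m) * (Ex Prod.fst tgt R1 S (es S) p q (fun ω => ind (Sop s v v' ω) *
        ind (Dis Prod.fst tgt (swr s v v') (v i0) (v' i0) ω)) * Z1) := e1
    _ ≤ q ^ (2 * m) * ((Ex Prod.fst tgt R1 S (es S) p q (fun ω => ind (Sop s v v' ω)) *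
        Ex Prod.fst tgt R1 S (es S) p q
          fun ω => ind (Dis Prod.fst tgt (swr s v v') (v i0) (v' i0) ω)) * Z1) :=
        mul_le_mul_of_nonneg_left (mul_le_mul_of_nonneg_right e2 hZ1p.le) hqm
    _ = (q ^ (2 * m) * Ex Prod.fst tgt R1 S (es S) p q
          fun ω => ind (Dis Prod.fst tgt (swr s v v') (v i0) (v' i0) ω)) *
        (Ex Prod.fst tgt R1 S (es S) p q (fun ω => ind (Sop s v v' ω)) * Z1) := by ring
    _ ≤ (q ^ (2 * m) * Ex Prod.fst tgt R1 S (es S) p q
          fun ω => ind (Dis Prod.fst tgt (swr s v v') (v i0) (v' i0) ω)) *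
        (fr S p q (fun ω => ind (Sop s v v' ω)) * Z) :=
        mul_le_mul_of_nonneg_left e3 (mul_nonneg hqm hD0)
    _ = _ := by ring

end Pool.Agent.FKP
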