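import Pool.Agent.FKP.PartA
import Pool.Agent.FKP.Lem
import Pool.Agent.FKT.P_CRI

/-!
# Project FKP, target UNQ: the two-point function of the wired measure in a finite box
-/

set_option autoImplicit false

namespace Pool.Agent.FKP

open Filter MeasureTheory Pool.Agent.FKT

namespace UNQ_

variable {d : ℕ}

/-- The point `v` is connected to the boundary of the box `Λ_n`, inside the box. -/
def arm (n : ℕ) (v : Vx d) (O : Set (Ed d)) : Prop :=
  ∃ z ∈ bd (0 : Vx d) n, Cn (O ∩ (eb (0 : Vx d) n : Set (Ed d))) z v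

/-- The point `y` is connected to the boundary of the box `y + Λ_m`, inside the box. -/
def arc (m : ℕ) (y : Vx d) (O : Set (Ed d)) : Prop :=
  ∃ z ∈ bd y m, Cn (O ∩ (eb y m : Set (Ed d))) z y

theorem mem_rs (F : Finset (Ed d)) (O : Set (Ed d)) (e : Ed d) :
    e ∈ rs F O ↔ e ∈ F ∧ e ∈ O := by
  classical
  unfold rs
  simp

theorem rs_inter (F : Finset (Ed d)) (O : Set (Ed d)) :
    ((rs F O : Finset (Ed d)) : Set (Ed d)) ∩ (F : Set (Ed d)) = O ∩ (F : Set (Ed d)) := by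
  ext e
  rw [Set.mem_inter_iff, Set.mem_inter_iff, Finset.mem_coe, mem_rs, Finset.mem_coe]
  tauto

theorem rs_coe (F : Finset (Ed d)) (O : Set (Ed d)) :
    ((rs F O : Finset (Ed d)) : Set (Ed d)) = O ∩ (F : Set (Ed d)) := by
  ext e
  rw [Set.mem_inter_iff, Finset.mem_coe, mem_rs, Finset.mem_coe]
  tauto

theorem arm_rs (n : ℕ) (v : Vx d) (O : Set (Ed d)) :
    arm n v ((rs (eb (0 : Vx d) n) O : Finset (Ed d)) : Set (Ed d)) ↔ arm n v O := by
  unfold arm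
  rw [rs_inter]

theorem arc_rs (m : ℕ) (y : Vx d) (O : Set (Ed d)) :
    arc m y ((rs (eb y m) O : Finset (Ed d)) : Set (Ed d)) ↔ arc m y O := by
  unfold arc
  rw [rs_inter]

theorem arm_mono (n : ℕ) (v : Vx d) {O O' : Set (Ed d)} (h : O ⊆ O') (ha : arm n v O) :
    arm n v O' := by
  obtain ⟨z, hz, hc⟩ := ha
  exact ⟨z, hz, ARM_.con_mono (Set.inter_subset_inter_left _ h) hc⟩

/-- Infinite cluster of the origin: arms at all scales. -/
theorem arc_inf (m : ℕ) (ω : Ed d → Bool) (h : ω ∈ Inf0 d) : arc m (0 : Vx d) (cfg ω) := by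
  have h1 : {v | Cn (cfg ω) (0 : Vx d) v}.Infinite := h
  obtain ⟨z, hz, hz'⟩ := h1.exists_notMem_finset (bx (0 : Vx d) m)
  have h0 : (0 : Vx d) ∈ bx (0 : Vx d) m := by
    rw [ARM_.mem_bx]
    intro i
    simp only [Pi.zero_apply]
    omega
  exact ARM_.key (cfg ω) m 0 z h0 (fun h' => absurd h' hz') (Relation.EqvGen.symm _ _ hz)

/-- The arm of `y` in its own box gives the arm in the smaller box centred at the origin. -/
theorem arc_arm (h n : ℕ) (y : Vx d) (O : Set (Ed d)) (hy : y ∈ bx (0 : Vx d) h) (hn : h ≤ n)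
    (ha : arc (n + h) y O) : arm n y O := by
  obtain ⟨z, hz, hc⟩ := ha
  have hn' : (h : ℤ) ≤ n := by exact_mod_cast hn
  rw [ARM_.mem_bx] at hy
  have hyn : y ∈ bx (0 : Vx d) n := by
    rw [ARM_.mem_bx]
    intro i
    have h1 := hy i
    omega
  refine ARM_.key O n y z hyn ?_ (ARM_.con_mono Set.inter_subset_left hc)
  intro hzn
  rw [ARM_.mem_bd] at hz ⊢
  refine ⟨hzn, ?_⟩
  obtain ⟨-, i, hi⟩ := hz
  rw [ARM_.mem_bx] at hzn
  have h1 := hy i
  have h2 := hzn i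
  refine ⟨i, ?_⟩
  simp only [Pi.zero_apply] at h1 h2 ⊢
  push_cast at hi
  rcases hi with hi | hi
  · left
    omega
  · right
    omega

theorem arc_sh (m : ℕ) (y : Vx d) (ω : Ed d → Bool) :
    arc m y (cfg ω) ↔ arc m (0 : Vx d) (cfg (sh y ω)) := by
  have hzy : (0 : Vx d) + y = y := zero_add y
  constructor
  · rintro ⟨z, hz, hc⟩
    refine ⟨z - y, ?_, ?_⟩
    · rw [← TAS_.mem_bd_add 0 y, sub_add_cancel, hzy]
      exact hz
    · rw [← TAS_.cn_add, sub_add_cancel, hzy]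
      exact hc
  · rintro ⟨z, hz, hc⟩
    have h1 := (TAS_.mem_bd_add 0 y z m).2 hz
    have h2 := (TAS_.cn_add 0 y m ω z 0).2 hc
    rw [hzy] at h1 h2
    exact ⟨z + y, h1, h2⟩

/-- The limit of the probabilities of a local event. -/
theorem lim (h_LOC : T_LOC) {p q : ℝ} {μ : Measure (Ed d → Bool)} (hμ : IsWired d p q μ)
    (F : Finset (Ed d)) (Q : Finset (Ed d) → Prop) :
    Tendsto (fun n : ℕ => phi (0 : Vx d) n p q fun ω => ind (Q (ω ∩ F))) atTop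
      (nhds (μ.real {ω | Q (rs F (cfg ω))})) := by
  have h1 := ((h_LOC d p q F).1 μ hμ (fun T => ind (Q T))).1
  have hm := (h_LOC d p q F).2 Q
  have h2 : ∫ ω, ind (Q (rs F (cfg ω))) ∂μ = μ.real {ω | Q (rs F (cfg ω))} := by
    rw [← integral_indicator_one hm]
    refine integral_congr_ae (Eventually.of_forall fun ω => ?_)
    show ind (Q (rs F (cfg ω))) =
      Set.indicator {ω : Ed d → Bool | Q (rs F (cfg ω))} (1 : (Ed d → Bool) → ℝ) ω
    by_cases hQ : Q (rs F (cfg ω))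
    · rw [ind_true hQ, Set.indicator_of_mem (by exact hQ)]
      rfl
    · rw [ind_false hQ, Set.indicator_of_notMem (by exact hQ)]
  rw [h2] at h1
  exact h1

/-- Positive association of the infinite volume measure, local increasing events. -/
theorem fkg (h_LOC : T_LOC) (h_FKG : T_FKG) {p q : ℝ} (hp : 0 < p) (hp1 : p < 1) (hq : 1 ≤ q)
    {μ : Measure (Ed d → Bool)} (hμ : IsWired d p q μ)
    (F : Finset (Ed d)) (Q Q' : Finset (Ed d) → Prop)
    (hQ : ∀ a b : Finset (Ed d), a ⊆ b → Q a → Q b)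
    (hQ' : ∀ a b : Finset (Ed d), a ⊆ b → Q' a → Q' b) :
    μ.real {ω | Q (rs F (cfg ω))} * μ.real {ω | Q' (rs F (cfg ω))} ≤
      μ.real {ω | Q (rs F (cfg ω)) ∧ Q' (rs F (cfg ω))} := by
  have h1 := lim h_LOC hμ F Q
  have h2 := lim h_LOC hμ F Q'
  have h3 := lim h_LOC hμ F (fun T => Q T ∧ Q' T)
  refine le_of_tendsto_of_tendsto (h1.mul h2) h3 (Eventually.of_forall fun n => ?_)
  have h4 := (h_FKG (Vx d) (Ed d) Prod.fst tgt (Wir (0 : Vx d) n) (bx 0 n) (eb 0 n) p q hp hp1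
    hq (fun e he => (ARM_.mem_eb _ _ _).1 he)).1 (fun ω => ind (Q (ω ∩ F)))
    (fun ω => ind (Q' (ω ∩ F)))
    (fun a b hab => ind_mono (hQ _ _ (Finset.inter_subset_inter_right hab)))
    (fun a b hab => ind_mono (hQ' _ _ (Finset.inter_subset_inter_right hab)))
  have h5 : (fun ω : Finset (Ed d) => ind (Q (ω ∩ F) ∧ Q' (ω ∩ F))) =
      fun ω => ind (Q (ω ∩ F)) * ind (Q' (ω ∩ F)) := by
    funext ω
    exact ind_and _ _
  show phi (0 : Vx d) n p q (fun ω => ind (Q (ω ∩ F))) *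
      phi (0 : Vx d) n p q (fun ω => ind (Q' (ω ∩ F))) ≤
    phi (0 : Vx d) n p q (fun ω => ind (Q (ω ∩ F) ∧ Q' (ω ∩ F)))
  rw [h5]
  exact h4

theorem sh_meas (y : Vx d) : Measurable (sh y) := by
  rw [measurable_pi_iff]
  intro e
  exact measurable_pi_apply _

/-- The lower bound for the probability of an arm. -/
theorem arm_ge (h_LOC : T_LOC) (h_INV : T_INV) (hd : 0 < d) {p q : ℝ} (hp : 0 < p)
    (hp1 : p < 1) (hq : 1 ≤ q) {μ : Measure (Ed d → Bool)} (hμ : IsWired d p q μ)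
    (h n : ℕ) (y : Vx d) (hy : y ∈ bx (0 : Vx d) h) (hn : h ≤ n) :
    μ.real (Inf0 d) ≤ μ.real {ω | arm n y (cfg ω)} := by
  have := hμ.prob
  have hm : MeasurableSet {ω : Ed d → Bool | arc (n + h) (0 : Vx d) (cfg ω)} := by
    have h1 := (h_LOC d p q (eb (0 : Vx d) (n + h))).2
      (fun T => arc (n + h) (0 : Vx d) (T : Set (Ed d)))
    have h2 : {ω : Ed d → Bool | arc (n + h) (0 : Vx d)
        ((rs (eb (0 : Vx d) (n + h)) (cfg ω) : Finset (Ed d)) : Set (Ed d))} =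
        {ω | arc (n + h) (0 : Vx d) (cfg ω)} := by
      ext ω
      exact arc_rs _ _ _
    rw [h2] at h1
    exact h1
  have h1 : μ.real (Inf0 d) ≤ μ.real {ω | arc (n + h) (0 : Vx d) (cfg ω)} :=
    measureReal_mono fun ω hω => arc_inf (n + h) ω hω
  have h2 : μ.real {ω | arc (n + h) (0 : Vx d) (cfg ω)} =
      μ.real {ω | arc (n + h) y (cfg ω)} := by
    have h3 : {ω : Ed d → Bool | arc (n + h) y (cfg ω)} =
        sh y ⁻¹' {ω | arc (n + h) (0 : Vx d) (cfg ω)} := by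
      ext ω
      exact arc_sh (n + h) y ω
    rw [h3, ← map_measureReal_apply (sh_meas y) hm, h_INV d hd p q hp hp1 hq μ hμ y]
  have h4 : μ.real {ω | arc (n + h) y (cfg ω)} ≤ μ.real {ω | arm n y (cfg ω)} :=
    measureReal_mono fun ω hω => arc_arm h n y (cfg ω) hy hn hω
  linarith

theorem log_div : Tendsto (fun k : ℕ => Real.sqrt (Real.log ((k : ℝ) + 1) / (k : ℝ))) atTop
    (nhds 0) := by
  have h1 := Real.tendsto_pow_log_div_mul_add_atTop 1 (-1) 1 one_ne_zero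
  have h2 : Tendsto (fun k : ℕ => (k : ℝ) + 1) atTop atTop :=
    tendsto_atTop_add_const_right _ _ tendsto_natCast_atTop_atTop
  have h3 := h1.comp h2
  have h4 : Tendsto (fun k : ℕ => Real.log ((k : ℝ) + 1) / (k : ℝ)) atTop (nhds 0) := by
    refine h3.congr fun k => ?_
    simp only [Function.comp]
    rw [pow_one]
    congr 1
    ring
  have h5 := (Real.continuous_sqrt.tendsto 0).comp h4
  rw [Real.sqrt_zero] at h5
  exact h5

/-- The union bound. -/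
theorem union (h_SUR : T_SUR) (h_FEN : FKT.T_FEN) (h_TAS : T_TAS) {p q : ℝ} (hp : 0 < p)
    (hp1 : p < 1) (hq : 1 ≤ q) {μ : Measure (Ed d → Bool)} (hμ : IsWired d p q μ)
    (h n : ℕ) (hn : h < n) (D : ℝ)
    (hD : ∀ (x : Vx d) (i : Fin d), μ.real {ω | TwoArm (cfg ω) x i (n - h)} ≤ D)
    (y : Vx d) (hy : y ∈ bx (0 : Vx d) h) :
    μ.real {ω | arm n (0 : Vx d) (cfg ω) ∧ arm n y (cfg ω)} ≤
      μ.real {ω | Cn (cfg ω ∩ (eb (0 : Vx d) n : Set (Ed d))) 0 y} +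
      (∑ P ∈ (eb (0 : Vx d) h).powerset, ∑ _e ∈ eb (0 : Vx d) h, (q / p) ^ P.card) * D := by
  have := hμ.prob
  have hqp : (0 : ℝ) ≤ q / p := div_nonneg (by linarith) hp.le
  have hE : ∀ (P : Finset (Ed d)) (e : Ed d),
      μ.real {ω | TwoArm (cfg ω ∪ (P : Set (Ed d))) e.1 e.2 (n - h)} ≤
        (q / p) ^ P.card * D := by
    intro P e
    have h1 := h_FEN d p q hp hp1 hq μ hμ (eb e.1 (n - h)) P
      (fun T => TwoArm (T : Set (Ed d)) e.1 e.2 (n - h))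
    have h2 : {ω : Ed d → Bool | TwoArm ((rs (eb e.1 (n - h)) (cfg ω ∪ (P : Set (Ed d))) :
        Finset (Ed d)) : Set (Ed d)) e.1 e.2 (n - h)} =
        {ω | TwoArm (cfg ω ∪ (P : Set (Ed d))) e.1 e.2 (n - h)} := by
      ext ω
      exact ((h_TAS d e.1 0 e.2 (n - h)).1 _).symm
    have h3 : {ω : Ed d → Bool | TwoArm ((rs (eb e.1 (n - h)) (cfg ω) :
        Finset (Ed d)) : Set (Ed d)) e.1 e.2 (n - h)} =
        {ω | TwoArm (cfg ω) e.1 e.2 (n - h)} := by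
      ext ω
      exact ((h_TAS d e.1 0 e.2 (n - h)).1 _).symm
    rw [h2, h3] at h1
    exact le_trans h1 (mul_le_mul_of_nonneg_left (hD e.1 e.2) (pow_nonneg hqp _))
  have hincl : {ω : Ed d → Bool | arm n (0 : Vx d) (cfg ω) ∧ arm n y (cfg ω)} ⊆
      {ω | Cn (cfg ω ∩ (eb (0 : Vx d) n : Set (Ed d))) 0 y} ∪
        ⋃ P ∈ (eb (0 : Vx d) h).powerset, ⋃ e ∈ eb (0 : Vx d) h,
          {ω : Ed d → Bool | TwoArm (cfg ω ∪ (P : Set (Ed d))) e.1 e.2 (n - h)} := by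
    rintro ω ⟨h1, h2⟩
    by_cases h3 : Cn (cfg ω ∩ (eb (0 : Vx d) n : Set (Ed d))) 0 y
    · exact Or.inl h3
    · right
      obtain ⟨P, hP, e, he, hT⟩ := h_SUR d h n (cfg ω) y hn hy h1 h2 h3
      simp only [Set.mem_iUnion]
      exact ⟨P, Finset.mem_powerset.2 hP, e, he, hT⟩
  have hsum : μ.real (⋃ P ∈ (eb (0 : Vx d) h).powerset, ⋃ e ∈ eb (0 : Vx d) h,
      {ω : Ed d → Bool | TwoArm (cfg ω ∪ (P : Set (Ed d))) e.1 e.2 (n - h)}) ≤
      (∑ P ∈ (eb (0 : Vx d) h).powerset, ∑ _e ∈ eb (0 : Vx d) h, (q / p) ^ P.card) * D := by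
    refine le_trans (measureReal_biUnion_finset_le _ _) ?_
    rw [Finset.sum_mul]
    refine Finset.sum_le_sum fun P _ => ?_
    refine le_trans (measureReal_biUnion_finset_le _ _) ?_
    rw [Finset.sum_mul]
    exact Finset.sum_le_sum fun e _ => hE P e
  calc μ.real {ω | arm n (0 : Vx d) (cfg ω) ∧ arm n y (cfg ω)}
      ≤ μ.real ({ω | Cn (cfg ω ∩ (eb (0 : Vx d) n : Set (Ed d))) 0 y} ∪
        ⋃ P ∈ (eb (0 : Vx d) h).powerset, ⋃ e ∈ eb (0 : Vx d) h,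
          {ω : Ed d → Bool | TwoArm (cfg ω ∪ (P : Set (Ed d))) e.1 e.2 (n - h)}) :=
        measureReal_mono hincl
    _ ≤ μ.real {ω | Cn (cfg ω ∩ (eb (0 : Vx d) n : Set (Ed d))) 0 y} +
        μ.real (⋃ P ∈ (eb (0 : Vx d) h).powerset, ⋃ e ∈ eb (0 : Vx d) h,
          {ω : Ed d → Bool | TwoArm (cfg ω ∪ (P : Set (Ed d))) e.1 e.2 (n - h)}) :=
        measureReal_union_le _ _
    _ ≤ _ := by linarith

end UNQ_

open UNQ_

theorem p_UNQ (h_INV : FKT.T_INV) (h_FKG : FKT.T_FKG) (h_LOC : FKT.T_LOC) (h_SUR : FKT.T_SUR)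
    (h_FEN : FKT.T_FEN) (h_TAS : FKT.T_TAS) (h_QBK : FKT.T_QBK) (h_DOM : FKT.T_DOM) :
    T_UNQ := by
  intro d hd p q hp hp1 hq μ hμ hθ h
  have := hμ.prob
  obtain ⟨θ, hθd⟩ : ∃ θ : ℝ, θ = μ.real (Inf0 d) := ⟨_, rfl⟩
  rw [← hθd] at hθ ⊢
  obtain ⟨C, hC⟩ := h_QBK d hd
  have hC := hC p q hp hp1 hq μ hμ
  obtain ⟨K, hK⟩ : ∃ K : ℝ, K = ∑ P ∈ (eb (0 : Vx d) h).powerset,
    ∑ _e ∈ eb (0 : Vx d) h, (q / p) ^ P.card := ⟨_, rfl⟩
  -- the choice of `n`
  have ht : Tendsto (fun k : ℕ => K * (C * (q ^ 2 / p) *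
      Real.sqrt (Real.log ((k : ℝ) + 1) / (k : ℝ)))) atTop (nhds 0) := by
    have h1 := (log_div.const_mul (C * (q ^ 2 / p))).const_mul K
    rw [mul_zero, mul_zero] at h1
    exact h1
  have hpos : (0 : ℝ) < θ ^ 2 / 2 := by positivity
  obtain ⟨k0, hk0⟩ := eventually_atTop.1 (ht.eventually (gt_mem_nhds hpos))
  obtain ⟨k, hk1, hk2⟩ : ∃ k : ℕ, k0 ≤ k ∧ 1 ≤ k := ⟨k0 + 1, by omega, by omega⟩
  have hk := hk0 k hk1
  refine ⟨h + k, by omega, ?_⟩
  intro N hN y hy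
  obtain ⟨n, hn⟩ : ∃ n : ℕ, n = h + k := ⟨_, rfl⟩
  rw [← hn] at hN ⊢
  have hnk : n - h = k := by omega
  have hhn : h < n := by omega
  -- the two arms
  have h0 : (0 : Vx d) ∈ bx (0 : Vx d) h := by
    rw [ARM_.mem_bx]
    intro i
    simp only [Pi.zero_apply]
    omega
  have hA0 := arm_ge h_LOC h_INV hd hp hp1 hq hμ h n 0 h0 hhn.le
  have hAy := arm_ge h_LOC h_INV hd hp hp1 hq hμ h n y hy hhn.le
  rw [← hθd] at hA0 hAy
  have hfkg := fkg h_LOC h_FKG hp hp1 hq hμ (eb (0 : Vx d) n)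
    (fun T => arm n (0 : Vx d) (T : Set (Ed d))) (fun T => arm n y (T : Set (Ed d)))
    (fun a b hab ha => arm_mono n 0 (Finset.coe_subset.2 hab) ha)
    (fun a b hab ha => arm_mono n y (Finset.coe_subset.2 hab) ha)
  simp only [arm_rs] at hfkg
  have hsq : θ ^ 2 ≤ μ.real {ω | arm n (0 : Vx d) (cfg ω) ∧ arm n y (cfg ω)} := by
    refine le_trans ?_ hfkg
    rw [sq]
    exact mul_le_mul hA0 hAy hθ.le (le_trans hθ.le hA0)
  have hU := union h_SUR h_FEN h_TAS hp hp1 hq hμ h n hhn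
    (C * (q ^ 2 / p) * Real.sqrt (Real.log ((k : ℝ) + 1) / (k : ℝ)))
    (fun x i => by rw [hnk]; exact hC x i k hk2) y hy
  rw [← hK] at hU
  have hCn : θ ^ 2 / 2 ≤ μ.real {ω | Cn (cfg ω ∩ (eb (0 : Vx d) n : Set (Ed d))) 0 y} := by
    linarith
  -- the finite volume
  have hlim := lim h_LOC hμ (eb (0 : Vx d) n) (fun T => Cf T 0 y)
  have hset : {ω : Ed d → Bool | Cf (rs (eb (0 : Vx d) n) (cfg ω)) 0 y} =
      {ω | Cn (cfg ω ∩ (eb (0 : Vx d) n : Set (Ed d))) 0 y} := by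
    ext ω
    show Cn ((rs (eb (0 : Vx d) n) (cfg ω) : Finset (Ed d)) : Set (Ed d)) 0 y ↔ _
    rw [rs_coe]
    exact Iff.rfl
  rw [hset] at hlim
  refine le_trans hCn (le_of_tendsto hlim ?_)
  filter_upwards [eventually_ge_atTop N] with M hM
  have hbx : bx (0 : Vx d) N ⊆ bx (0 : Vx d) M := CRI_.bx_mono 0 hM
  have heb : eb (0 : Vx d) n ⊆ eb (0 : Vx d) N := by
    intro e he
    rw [ARM_.mem_eb] at he ⊢
    exact ⟨CRI_.bx_mono 0 hN he.1, CRI_.bx_mono 0 hN he.2⟩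
  have hdom := h_DOM d hd p q hp hp1 hq 0 0 N M hbx
    (fun ω => ind (Cf (ω ∩ eb (0 : Vx d) n) 0 y)) (fun a b hab => ind_mono fun hc =>
      ARM_.con_mono (Finset.coe_subset.2 (Finset.inter_subset_inter_right hab)) hc)
  have hfun : (fun ω : Finset (Ed d) => ind (Cf ((ω ∩ eb (0 : Vx d) N) ∩ eb (0 : Vx d) n) 0 y)) =
      fun ω => ind (Cf (ω ∩ eb (0 : Vx d) n) 0 y) := by
    funext ω
    rw [Finset.inter_assoc, Finset.inter_eq_right.2 heb]
  rw [hfun] at hdom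
  exact hdom

end Pool.Agent.FKP
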