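import Pool.Agent.FKP.Basic
import Pool.Agent.FKP.Lem

/-!
# Project FKP: isolated vertices do not matter
-/

set_option autoImplicit false

namespace Pool.Agent.FKP

open Pool.Agent.FKT

namespace VTX_

variable {V E : Type} {s t : E → V} {R : V → V → Prop} {U U' : Finset V} {G : Finset E}

theorem con_or (hR : ∀ a b, R a b → a ∈ U ∧ b ∈ U) (hG : ∀ e ∈ G, s e ∈ U ∧ t e ∈ U)
    {ω : Finset E} (hω : ω ⊆ G) {a b : V} (h : FKT.Con s t R (ω : Set E) a b) :
    a = b ∨ (a ∈ U ∧ b ∈ U) := by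
  unfold FKT.Con at h
  induction h with
  | rel x y hxy =>
    rcases hxy with h | ⟨e, he, rfl, rfl⟩
    · exact Or.inr (hR _ _ h)
    · exact Or.inr (hG e (hω he))
  | refl x => exact Or.inl rfl
  | symm x y _ ih =>
    rcases ih with h | h
    · exact Or.inl h.symm
    · exact Or.inr ⟨h.2, h.1⟩
  | trans x y z _ _ ih1 ih2 =>
    rcases ih1 with h1 | h1
    · rw [h1]
      exact ih2
    · rcases ih2 with h2 | h2
      · rw [← h2]
        exact Or.inr h1
      · exact Or.inr ⟨h1.1, h2.2⟩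

theorem clus_eq (hR : ∀ a b, R a b → a ∈ U ∧ b ∈ U) (hG : ∀ e ∈ G, s e ∈ U ∧ t e ∈ U)
    {ω : Finset E} (hω : ω ⊆ G) {v : V} (hv : v ∉ U) :
    clus s t R (ω : Set E) v = {v} := by
  ext w
  rw [Set.mem_singleton_iff]
  constructor
  · intro h
    rcases con_or hR hG hω h with h1 | h1
    · exact h1.symm
    · exact absurd h1.1 hv
  · rintro rfl
    exact Relation.EqvGen.refl _

theorem self_mem (ω : Set E) (v : V) : v ∈ clus s t R ω v := Relation.EqvGen.refl v

theorem ncl_eq (hU : U ⊆ U') (hR : ∀ a b, R a b → a ∈ U ∧ b ∈ U)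
    (hG : ∀ e ∈ G, s e ∈ U ∧ t e ∈ U) {ω : Finset E} (hω : ω ⊆ G) :
    ncl s t R U' (ω : Set E) = ncl s t R U (ω : Set E) + (U'.card - U.card) := by
  classical
  unfold ncl
  have h1 : (U' : Set V) = (U : Set V) ∪ ((U' \ U : Finset V) : Set V) := by
    ext x
    simp only [Set.mem_union, Finset.mem_coe, Finset.mem_sdiff]
    constructor
    · intro hx
      by_cases h : x ∈ U
      · exact Or.inl h
      · exact Or.inr ⟨hx, h⟩
    · rintro (h | h)
      · exact hU h
      · exact h.1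
  rw [h1, Set.image_union, Set.ncard_union_eq]
  · congr 1
    rw [Set.InjOn.ncard_image, Set.ncard_coe_finset, Finset.card_sdiff_of_subset hU]
    intro x hx y hy hxy
    have hx' : x ∉ U := (Finset.mem_sdiff.1 hx).2
    have hy' : y ∉ U := (Finset.mem_sdiff.1 hy).2
    have h2 : clus s t R (ω : Set E) x = clus s t R (ω : Set E) y := hxy
    rw [clus_eq hR hG hω hx', clus_eq hR hG hω hy'] at h2
    exact Set.singleton_injective h2
  · rw [Set.disjoint_left]
    rintro _ ⟨u, hu, rfl⟩ ⟨v, hv, hv2⟩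
    have hv' : v ∉ U := (Finset.mem_sdiff.1 hv).2
    have h3 : u ∈ clus s t R (ω : Set E) u := self_mem _ u
    rw [← hv2, clus_eq hR hG hω hv', Set.mem_singleton_iff] at h3
    rw [h3] at hu
    exact hv' hu

end VTX_

open VTX_ in
theorem p_VTX : T_VTX := by
  intro V E s t R U U' G p q hq hU hR hG f
  have h1 : ∀ ω ∈ G.powerset, wt s t R U' G p q ω =
      wt s t R U G p q ω * q ^ (U'.card - U.card) := by
    intro ω hω
    unfold wt
    rw [ncl_eq hU hR hG (Finset.mem_powerset.1 hω), pow_add, mul_assoc]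
  have h2 : q ^ (U'.card - U.card) ≠ 0 := (pow_pos hq _).ne'
  unfold Ex
  rw [Finset.sum_congr rfl h1, ← Finset.sum_mul]
  have h3 : ∑ ω ∈ G.powerset, wt s t R U' G p q ω * f ω =
      (∑ ω ∈ G.powerset, wt s t R U G p q ω * f ω) * q ^ (U'.card - U.card) := by
    rw [Finset.sum_mul]
    refine Finset.sum_congr rfl fun ω hω => ?_
    rw [h1 ω hω]
    ring
  rw [h3, mul_div_mul_right _ _ h2]

end Pool.Agent.FKP
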