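import Pool.Agent.FKP.PartC
import Pool.Agent.FKP.Lem

/-!
# XPL: exploration of `M` slabs
-/

set_option autoImplicit false

namespace Pool.Agent.FKP

open Filter MeasureTheory Pool.Agent.FKT

namespace XPL_

variable {d : ℕ}

theorem con_mem {S : Finset (Vx d)} {ω : Finset (Ed d)} (hω : ω ⊆ es S) {a b : Vx d}
    (h : Cf ω a b) : a ∈ S ↔ b ∈ S := by
  unfold Cf Cn FKT.Con at h
  induction h with
  | rel x y hxy =>
    rcases hxy with h | ⟨e, he, h1, h2⟩
    · exact h.elim
    · have h3 := mem_es.1 (hω (Finset.mem_coe.1 he))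
      rw [← h1, ← h2]
      exact ⟨fun _ => h3.2, fun _ => h3.1⟩
  | refl x => exact Iff.rfl
  | symm x y _ ih => exact ih.symm
  | trans x y z _ _ ih1 ih2 => exact ih1.trans ih2

theorem cf_mono {ω ω' : Finset (Ed d)} (h : ω ⊆ ω') {a b : Vx d} (hc : Cf ω a b) :
    Cf ω' a b := by
  unfold Cf Cn at hc ⊢
  exact Con_mono (fun _ _ h => h) (Finset.coe_subset.2 h) hc

theorem mem_slc {v : Vx d} {i : Fin d} {L : ℕ} {c : ℤ} {n : ℕ} {w : Vx d} :
    w ∈ slc v i L c n ↔ (c ≤ w i ∧ w i ≤ c + L) ∧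
      ∀ l, l ≠ i → v l - n ≤ w l ∧ w l ≤ v l + n := by
  unfold slc
  rw [Finset.mem_Icc, Pi.le_def, Pi.le_def]
  constructor
  · rintro ⟨h1, h2⟩
    refine ⟨⟨?_, ?_⟩, fun l hl => ⟨?_, ?_⟩⟩
    · simpa using h1 i
    · simpa using h2 i
    · simpa [hl] using h1 l
    · simpa [hl] using h2 l
  · rintro ⟨⟨h1, h2⟩, h3⟩
    constructor
    · intro l
      by_cases hl : l = i
      · subst hl
        simpa using h1
      · simpa [hl] using (h3 l hl).1
    · intro l
      by_cases hl : l = i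
      · subst hl
        simpa using h2
      · simpa [hl] using (h3 l hl).2

theorem mem_bx {v : Vx d} {n : ℕ} {w : Vx d} :
    w ∈ bx v n ↔ ∀ l, v l - n ≤ w l ∧ w l ≤ v l + n := by
  unfold bx
  rw [Finset.mem_Icc, Pi.le_def, Pi.le_def]
  exact ⟨fun h l => ⟨h.1 l, h.2 l⟩, fun h => ⟨fun l => (h l).1, fun l => (h l).2⟩⟩

theorem slc_sub {v : Vx d} {i : Fin d} {L : ℕ} {c : ℤ} {n : ℕ} (h1 : v i - n ≤ c)
    (h2 : c + L ≤ v i + n) : slc v i L c n ⊆ bx v n := by
  intro w hw
  rw [mem_slc] at hw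
  rw [mem_bx]
  intro l
  by_cases hl : l = i
  · subst hl
    constructor
    · linarith [hw.1.1]
    · linarith [hw.1.2]
  · exact hw.2 l hl

theorem mem_elo {v : Vx d} {n : ℕ} {i : Fin d} {c : ℤ} {e : Ed d} :
    e ∈ elo v n i c ↔ e ∈ eb v n ∧ e.1 i < c := by
  unfold elo
  rw [Finset.mem_filter]

open Classical in
/-- The chosen point of the explored cluster in the layer `c`. -/
noncomputable def pt (S : Finset (Vx d)) (i : Fin d) (c : ℤ) (u : Vx d) (ξ : Finset (Ed d)) :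
    Vx d :=
  if h : ∃ w ∈ S, w i = c ∧ Cf ξ u w then h.choose else u

theorem pt_spec {S : Finset (Vx d)} {i : Fin d} {c : ℤ} {u : Vx d} {ξ : Finset (Ed d)}
    (h : ∃ w ∈ S, w i = c ∧ Cf ξ u w) :
    pt S i c u ξ ∈ S ∧ pt S i c u ξ i = c ∧ Cf ξ u (pt S i c u ξ) := by
  unfold pt
  rw [dif_pos h]
  exact h.choose_spec

end XPL_

open XPL_ in
theorem p_XPL (h_SEQ : T_SEQ) : T_XPL := by
  intro d p q hp hp1 hq L α hS R U v n hU i c M hc1 hc2 u hu τ hτ
  obtain ⟨hα0, hα1, hSl⟩ := hS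
  have hq0 : 0 < q := lt_of_lt_of_le one_pos hq
  set S : ℕ → Finset (Vx d) := fun j => slc v i L (c + j * (L + 1)) n with hSdef
  set Lo : ℕ → Finset (Ed d) := fun j => elo v n i (c + j * (L + 1)) with hLo
  set F : ℕ → Finset (Ed d) → Finset (Ed d) → Prop := fun j ξ β =>
    (∃ w ∈ S j, w i = c + j * (L + 1) ∧ Cf ξ u w) →
      Cf β (pt (S j) i (c + j * (L + 1)) u ξ) (τ j ξ) with hF
  have hSb : ∀ j < M, S j ⊆ bx v n := by
    intro j hj
    have hj' : ((j : ℤ) + 1) ≤ M := by exact_mod_cast hj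
    have hL0 : (0 : ℤ) ≤ (L : ℤ) + 1 := by positivity
    have hj0 : (0 : ℤ) ≤ (j : ℤ) * ((L : ℤ) + 1) := by positivity
    apply slc_sub
    · linarith
    · have : ((j : ℤ) + 1) * ((L : ℤ) + 1) ≤ M * ((L : ℤ) + 1) :=
        mul_le_mul_of_nonneg_right hj' hL0
      linarith
  have hstep : ∀ j : ℕ, c + ((j : ℕ) : ℤ) * (L + 1) + L < c + ((j + 1 : ℕ) : ℤ) * (L + 1) := by
    intro j
    push_cast
    linarith
  have hstep' : ∀ j : ℕ, c + ((j : ℕ) : ℤ) * (L + 1) < c + ((j + 1 : ℕ) : ℤ) * (L + 1) := by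
    intro j
    have := hstep j
    have hL0 : (0 : ℤ) ≤ (L : ℤ) := by positivity
    linarith
  have key := h_SEQ (Vx d) (Ed d) Prod.fst tgt R U (eb v n) p q hp hp1 hq M S
    (fun j => es (S j)) Lo F α (by linarith) ?_ ?_ ?_
  · refine le_trans (Ex_mono hp hp1 hq0 ?_) key
    intro ω hω
    by_cases hev : ∀ j < M, (∃ w : Vx d, w i = c + j * (L + 1) ∧
        Cf (ω ∩ elo v n i (c + j * (L + 1))) u w) ∧
        ¬ Cf ω u (τ j (ω ∩ elo v n i (c + j * (L + 1))))
    · rw [ind_true hev]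
      rw [Finset.prod_eq_one]
      intro j hj
      rw [Finset.mem_range] at hj
      apply ind_true
      obtain ⟨⟨w, hwi, hw⟩, hn⟩ := hev j hj
      intro hFj
      apply hn
      have hsub : ω ∩ Lo j ⊆ es (bx v n) := by
        rw [es_bx]
        exact Finset.inter_subset_left.trans hω
      have hwb : w ∈ bx v n := (con_mem hsub hw).1 hu
      have hwS : w ∈ S j := by
        rw [hSdef]
        simp only
        rw [mem_slc]
        rw [mem_bx] at hwb
        refine ⟨⟨hwi.ge, ?_⟩, fun l _ => hwb l⟩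
        rw [hwi]
        have hL0 : (0 : ℤ) ≤ (L : ℤ) := by positivity
        linarith
      have hE : ∃ w ∈ S j, w i = c + j * (L + 1) ∧ Cf (ω ∩ Lo j) u w := ⟨w, hwS, hwi, hw⟩
      have h1 := hFj hE
      obtain ⟨-, -, h2⟩ := pt_spec hE
      exact Con_trans (cf_mono Finset.inter_subset_left h2)
        (cf_mono Finset.inter_subset_left h1)
    · rw [ind_false hev]
      exact Finset.prod_nonneg fun j _ => ind_nonneg _
  · intro j hj
    refine ⟨?_, (hSb j hj).trans hU, ?_, ?_, ?_, ?_⟩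
    · rw [← es_bx]
      exact es_mono (hSb j hj)
    · intro e he
      exact mem_es.1 he
    · rw [Finset.disjoint_left]
      intro e he he'
      have h1 := (mem_slc.1 (mem_es.1 he).1).1.1
      have h2 := (mem_elo.1 he').2
      linarith
    · intro e he
      rw [hLo]
      simp only
      rw [mem_elo]
      refine ⟨?_, ?_⟩
      · rw [← es_bx]
        exact es_mono (hSb j hj) he
      · have h1 := (mem_slc.1 (mem_es.1 he).1).1.2
        exact lt_of_le_of_lt h1 (hstep j)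
    · intro e he
      rw [hLo] at he ⊢
      simp only at he ⊢
      rw [mem_elo] at he ⊢
      exact ⟨he.1, he.2.trans (hstep' j)⟩
  · intro j _ ξ a b hab hFa hE
    exact cf_mono hab (hFa hE)
  · intro j hj ξ
    by_cases hE : ∃ w ∈ S j, w i = c + j * (L + 1) ∧ Cf ξ u w
    · obtain ⟨hw, -, -⟩ := pt_spec hE
      have h1 := hSl v i (c + j * (L + 1)) n _ hw _ (hτ j hj ξ)
      unfold tp fr fw at h1
      refine h1.trans (le_of_eq ?_)
      apply Ex_congr
      intro β _
      apply ind_congr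
      exact ⟨fun h _ => h, fun h => h hE⟩
    · have h1 : (fun β => ind (F j ξ β)) = fun _ : Finset (Ed d) => (1 : ℝ) := by
        funext β
        apply ind_true
        intro h
        exact (hE h).elim
      rw [h1, Ex_const hp hp1 hq0]
      linarith

end Pool.Agent.FKP
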