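import Pool.Agent.FKP.PartA
import Pool.Agent.FKP.Lem

/-! Project FKP, target ZRA: the effect of the wired boundary on the number of clusters. -/

set_option autoImplicit false

namespace Pool.Agent.FKP

open Filter MeasureTheory Pool.Agent.FKT

namespace ZRA_

theorem con_inv {V E : Type} {s t : E → V} {R : V → V → Prop} {O : Set E} (P : V → Prop)
    (h : ∀ a b, Step s t R O a b → (P a ↔ P b)) {a b : V} (hab : FKT.Con s t R O a b) :
    P a ↔ P b := by
  unfold FKT.Con at hab
  induction hab with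
  | rel x y hxy => exact h x y hxy
  | refl x => exact Iff.rfl
  | symm x y _ ih => exact ih.symm
  | trans x y z _ _ ih1 ih2 => exact ih1.trans ih2

theorem clus_eq {V E : Type} {s t : E → V} {R : V → V → Prop} {O : Set E} {v w : V}
    (h : FKT.Con s t R O v w) : clus s t R O v = clus s t R O w := by
  ext x
  exact ⟨fun h1 => Con_trans (Con_symm h) h1, fun h1 => Con_trans h h1⟩

/-- The first inequality, in general. -/
theorem ncl_mono {V E : Type} (s t : E → V) (R R' : V → V → Prop) (O : Set E) (U : Finset V)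
    (h : ∀ a b, R a b → R' a b) : ncl s t R' U O ≤ ncl s t R U O := by
  classical
  unfold ncl
  have hfin : (clus s t R O '' (U : Set V)).Finite := U.finite_toSet.image _
  have hsub : clus s t R' O '' (U : Set V) ⊆
      (fun A : Set V => {w | ∃ a ∈ A, FKT.Con s t R' O a w}) '' (clus s t R O '' (U : Set V)) := by
    rintro _ ⟨v, hv, rfl⟩
    refine ⟨clus s t R O v, ⟨v, hv, rfl⟩, ?_⟩
    ext w
    constructor
    · rintro ⟨a, ha, haw⟩
      exact Con_trans (Con_mono h (le_refl O) ha) haw
    · intro hw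
      exact ⟨v, Con_refl O v, hw⟩
  exact (Set.ncard_le_ncard hsub (hfin.image _)).trans (Set.ncard_image_le hfin)

end ZRA_

theorem p_ZRA : T_ZRA := by
  intro d n ω
  refine ⟨ZRA_.ncl_mono _ _ _ _ _ _ fun a b h => h.elim, ?_⟩
  classical
  unfold ncl
  set A : Set (Set (Vx d)) :=
    clus Prod.fst tgt (no (Vx d)) (ω : Set (Ed d)) '' ((bx (0 : Vx d) n : Finset (Vx d)) : Set _)
    with hA
  set B : Set (Set (Vx d)) :=
    clus Prod.fst tgt (Wir (0 : Vx d) n) (ω : Set (Ed d)) ''
      ((bx (0 : Vx d) n : Finset (Vx d)) : Set _) with hB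
  set C : Set (Set (Vx d)) :=
    clus Prod.fst tgt (no (Vx d)) (ω : Set (Ed d)) '' ((bd (0 : Vx d) n : Finset (Vx d)) : Set _)
    with hC
  have hBf : B.Finite := (Finset.finite_toSet _).image _
  have hCf : C.Finite := (Finset.finite_toSet _).image _
  have hsub : A ⊆ B ∪ C := by
    rintro _ ⟨v, hv, rfl⟩
    by_cases hm : ∃ w ∈ bd (0 : Vx d) n, FKT.Con Prod.fst tgt (no (Vx d)) (ω : Set (Ed d)) v w
    · obtain ⟨w, hw, hvw⟩ := hm
      exact Or.inr ⟨w, hw, (ZRA_.clus_eq hvw).symm⟩
    · left
      refine ⟨v, hv, ?_⟩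
      ext x
      constructor
      · intro hx
        refine (ZRA_.con_inv (fun x => FKT.Con Prod.fst tgt (no (Vx d)) (ω : Set (Ed d)) v x)
          ?_ hx).1 (Con_refl _ v)
        intro a b hab
        rcases hab with ⟨ha, hb⟩ | ⟨e, he, h1, h2⟩
        · exact ⟨fun h => (hm ⟨a, ha, h⟩).elim, fun h => (hm ⟨b, hb, h⟩).elim⟩
        · subst h1
          subst h2
          exact ⟨fun h => Con_trans h (Con_edge he), fun h => Con_trans h (Con_symm (Con_edge he))⟩
      · intro hx
        exact Con_mono (fun a b h => h.elim) (le_refl _) hx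
  calc A.ncard ≤ (B ∪ C).ncard := Set.ncard_le_ncard hsub (hBf.union hCf)
    _ ≤ B.ncard + C.ncard := Set.ncard_union_le B C
    _ ≤ B.ncard + (bd (0 : Vx d) n).card := by
        have h1 : C.ncard ≤ ((bd (0 : Vx d) n : Finset (Vx d)) : Set (Vx d)).ncard :=
          Set.ncard_image_le (Finset.finite_toSet _)
        rw [Set.ncard_coe_finset] at h1
        omega

end Pool.Agent.FKP
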