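import Pool.Agent.FKT.MainA
import Pool.Agent.FKT.P_SUR
import Pool.Agent.FKT.P_FEN
import Pool.Agent.FKP.P_ACN
import Pool.Agent.FKP.P_ANI
import Pool.Agent.FKP.P_ARC
import Pool.Agent.FKP.P_AUT
import Pool.Agent.FKP.P_AVY
import Pool.Agent.FKP.P_BAD
import Pool.Agent.FKP.P_BCN
import Pool.Agent.FKP.P_BDB
import Pool.Agent.FKP.P_BLM
import Pool.Agent.FKP.P_BX2
import Pool.Agent.FKP.P_CON
import Pool.Agent.FKP.P_CPA
import Pool.Agent.FKP.P_CTW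
import Pool.Agent.FKP.P_CUT
import Pool.Agent.FKP.P_DER
import Pool.Agent.FKP.P_DMC
import Pool.Agent.FKP.P_DMF
import Pool.Agent.FKP.P_DMW
import Pool.Agent.FKP.P_ENT
import Pool.Agent.FKP.P_ESC
import Pool.Agent.FKP.P_EXA
import Pool.Agent.FKP.P_FEN
import Pool.Agent.FKP.P_FIN
import Pool.Agent.FKP.P_FIP
import Pool.Agent.FKP.P_FL1
import Pool.Agent.FKP.P_FL2
import Pool.Agent.FKP.P_FLO
import Pool.Agent.FKP.P_GBE
import Pool.Agent.FKP.P_GBL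
import Pool.Agent.FKP.P_GIN
import Pool.Agent.FKP.P_GLU
import Pool.Agent.FKP.P_GPS
import Pool.Agent.FKP.P_HOL
import Pool.Agent.FKP.P_INB
import Pool.Agent.FKP.P_INC
import Pool.Agent.FKP.P_ISO
import Pool.Agent.FKP.P_KER
import Pool.Agent.FKP.P_KEY
import Pool.Agent.FKP.P_LGD
import Pool.Agent.FKP.P_LMX
import Pool.Agent.FKP.P_LMY
import Pool.Agent.FKP.P_LOW
import Pool.Agent.FKP.P_LWE
import Pool.Agent.FKP.P_LWI
import Pool.Agent.FKP.P_MAR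
import Pool.Agent.FKP.P_MEA
import Pool.Agent.FKP.P_MIX
import Pool.Agent.FKP.P_MOL
import Pool.Agent.FKP.P_MPI
import Pool.Agent.FKP.P_MVT
import Pool.Agent.FKP.P_NEA
import Pool.Agent.FKP.P_ONE
import Pool.Agent.FKP.P_PB1
import Pool.Agent.FKP.P_PB2
import Pool.Agent.FKP.P_PCH
import Pool.Agent.FKP.P_PED
import Pool.Agent.FKP.P_PEI
import Pool.Agent.FKP.P_PI0
import Pool.Agent.FKP.P_PI1
import Pool.Agent.FKP.P_PLQ
import Pool.Agent.FKP.P_PON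
import Pool.Agent.FKP.P_PRB
import Pool.Agent.FKP.P_PRM
import Pool.Agent.FKP.P_PSM
import Pool.Agent.FKP.P_PTS
import Pool.Agent.FKP.P_QLM
import Pool.Agent.FKP.P_SEP
import Pool.Agent.FKP.P_SEQ
import Pool.Agent.FKP.P_SEX
import Pool.Agent.FKP.P_SLC
import Pool.Agent.FKP.P_SLV
import Pool.Agent.FKP.P_SMK
import Pool.Agent.FKP.P_SPB
import Pool.Agent.FKP.P_SPR
import Pool.Agent.FKP.P_STP
import Pool.Agent.FKP.P_SUP
import Pool.Agent.FKP.P_TAI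
import Pool.Agent.FKP.P_THT
import Pool.Agent.FKP.P_TPX
import Pool.Agent.FKP.P_TRF
import Pool.Agent.FKP.P_TRN
import Pool.Agent.FKP.P_UNM
import Pool.Agent.FKP.P_UNQ
import Pool.Agent.FKP.P_VTX
import Pool.Agent.FKP.P_XPL
import Pool.Agent.FKP.P_ZRA

/-!
# Project FKP: assembly
-/

set_option autoImplicit false

namespace Pool.Agent.FKP

open Pool.Agent.FKT (f_FKG f_LOC f_INV f_EXI f_DOM f_TRA)

/-! ## Basic -/

theorem g_HOL : T_HOL := p_HOL FKT.p_ADD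
theorem g_DMF : T_DMF := p_DMF p_MAR g_HOL p_VTX
theorem g_DMC : T_DMC := p_DMC g_DMF
theorem g_FEN : T_FEN := p_FEN p_MAR FKT.p_ADD f_FKG
theorem g_SEQ : T_SEQ := p_SEQ g_DMF
theorem g_LGD : T_LGD := p_LGD p_DER
theorem g_DMW : T_DMW := p_DMW p_MAR g_HOL
theorem g_CUT : T_CUT := p_CUT t_pon
theorem g_PLQ : T_PLQ := p_PLQ p_ANI

/-! ## Part D -/

theorem g_GIN : T_GIN := p_GIN p_GPS p_KER
theorem g_QLM : T_QLM := p_QLM p_ESC p_PTS g_GIN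
theorem g_QLN : T_QLN := qln_of g_QLM

/-! ## Part A -/

theorem g_FENm : FKT.T_FEN := FKT.p_FEN FKT.p_ADD f_FKG f_LOC
theorem g_QBK : FKT.T_QBK :=
  FKT.p_QBK FKT.f_CTF f_LOC f_INV FKT.p_ARM FKT.p_CNT FKT.p_TAS FKT.p_NUM
theorem g_MVT : T_MVT := p_MVT p_ZRA
theorem g_INB : T_INB := p_INB f_TRA f_DOM p_AUT g_DMC
theorem g_MIX : T_MIX := p_MIX g_MVT p_AVY g_INB g_HOL FKT.p_CNT
theorem g_UNQ : T_UNQ := p_UNQ f_INV f_FKG f_LOC FKT.p_SUR g_FENm FKT.p_TAS g_QBK f_DOM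
theorem g_TPF : T_TPF := p_TPX g_UNQ g_MIX p_INC g_HOL
theorem g_SEE : T_SEE := p_SEX g_MIX p_INC g_HOL g_FEN

/-! ## Part B -/

theorem g_STP : T_STP := p_STP p_FL1
theorem g_FLO : T_FLO := p_FLO g_STP
theorem g_FL2 : T_FL2 := p_FL2 g_FLO
theorem g_SMK : T_SMK := p_SMK p_TRF g_FL2
theorem g_THT : T_THT := p_THT g_HOL
theorem g_UNM : T_UNM := p_UNM f_FKG
theorem g_KEY : T_KEY := p_KEY g_THT g_SMK g_LGD g_UNM
theorem g_SUP : T_SUP := p_SUP g_DMW f_TRA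
theorem g_BAD : T_BAD := p_BAD g_SEQ p_AUT
theorem g_PB1 : T_PB1 := p_PB1 g_BAD
theorem g_PB2 : T_PB2 := p_PB2 g_SUP p_SPR
theorem g_PRB : T_PRB := p_PRB g_PB1 g_PB2
theorem g_NEA : T_NEA := p_NEA p_ISO p_BCN
theorem g_CON : T_CON := p_CON p_SEP g_CUT g_NEA
theorem g_PEI : T_PEI := p_PEI g_BAD g_CON g_PLQ g_PRB
theorem g_CPA : T_CPA := p_CPA g_TPF g_SEE g_KEY g_DMC p_AUT
theorem g_BX2 : T_BX2 := p_BX2 g_CPA g_PEI g_HOL g_FEN p_BCN f_FKG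
theorem g_SLC : T_SLC := p_SLC p_AUT g_DMC g_FEN p_BCN f_FKG
theorem g_SLB : T_SLB := slb_of g_BX2 g_SLC

/-! ## Part C -/

theorem g_XPL : T_XPL := p_XPL g_SEQ
theorem g_LMX : T_LMX := p_LMX g_XPL p_ENT
theorem g_LMY : T_LMY := p_LMY g_XPL p_ENT
theorem g_TRN : T_TRN := p_TRN g_LMX
theorem g_GLU : T_GLU := p_GLU g_TRN g_LMY
theorem g_EXA : T_EXA := p_EXA g_SEQ p_ARC
theorem g_GBE : T_GBE := p_GBE g_EXA g_GLU
theorem g_PRM : T_PRM := p_PRM p_MAR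
theorem g_BLM : T_BLM := p_BLM f_LOC g_PRM p_GBL
theorem g_BDB : T_BDB := p_BDB p_ARC
theorem g_CTW : T_CTW := p_CTW p_SEP g_CUT p_BCN
theorem g_PED : T_PED := p_PED g_BDB p_ACN g_CTW p_LWE p_LWI p_SPB
theorem g_PSM : T_PSM := p_PSM g_PLQ
theorem g_TAI : T_TAI := p_TAI g_PED
theorem g_FIP : T_FIP := p_FIP g_DMC f_LOC
theorem g_FIN : T_FIN := p_FIN p_MEA
theorem g_SLV : T_SLV := p_SLV p_AUT
theorem g_REN : T_REN := ren_of g_SLV g_GBE g_BLM g_PSM g_TAI g_FIP g_FIN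

/-! ## The slab critical point -/

theorem g_MOL : T_MOL := p_MOL g_DMC g_FEN f_FKG
theorem g_PI1 : T_PI1 := p_PI1 p_BCN
theorem g_MPI : T_MPI := p_MPI g_HOL
theorem g_LOW : T_LOW := p_LOW g_DMC f_LOC
theorem g_PCH : T_PCH := p_PCH g_MOL g_PI1 p_PI0 g_MPI g_LOW p_ONE f_EXI

/-! ## The theorem -/

theorem g_TAL : ∀ (d : ℕ) (q p : ℝ), 3 ≤ d → 1 ≤ q → QLP q → pc d q < p → p ≤ 1 →
    Tails d p q ∧ (p < 1 → ∃ (L : ℕ) (α : ℝ), Slab d p q L α) :=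
  tails_of g_REN g_SLB p_ONE

theorem g_LIM : ∀ (d : ℕ) (q : ℝ), 3 ≤ d → 1 ≤ q → QLP q →
    Filter.Tendsto (fun L : ℕ => pch d q L) Filter.atTop (nhds (pc d q)) :=
  fun d q hd hq hQ => g_PCH d q (by omega) hq fun p hp hp1 =>
    (g_TAL d q p hd hq hQ hp hp1.le).2 hp1

end Pool.Agent.FKP
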