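import Pool.Agent.FKP.Defs

/-!
# Project FKP: basic targets, used by all parts

Every docstring contains the proof. In all proofs the following elementary facts are used without
comment (they are theorems of `FKP/Lem.lean`): `Ex` is linear and monotone in `f` (only the values
of `f` on subsets of `G` matter), `Ex 1 = 1`, the total weight is positive (`0 < p < 1`, `0 < q`).
-/

set_option autoImplicit false

namespace Pool.Agent.FKP

open Filter MeasureTheory Pool.Agent.FKT

/-! ## The random-cluster measure on finite graphs -/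

/-- HOL. Comparison of random-cluster measures (Holley): increasing in `p` and in the wiring.
Proof: by adding a constant one may assume `f ≥ 0` on the subsets of `G`. Let `μ a = wt R p a`,
`μ' a = wt R' p' a`. For `a, b ⊆ G`: `μ a * μ' b ≤ μ (a ∩ b) * μ' (a ∪ b)`. Indeed, with
`x = |a \ b| = |a| - |a ∩ b| = |a ∪ b| - |b|`, the Bernoulli factors satisfy
`bw p a * bw p' b = bw p (a ∩ b) * bw p' (a ∪ b) * (p (1 - p') / ((1 - p) p')) ^ x` and the last
factor is `≤ 1`; and `ncl R a + ncl R' b ≤ ncl R (a ∩ b) + ncl R' (a ∪ b)`, by induction on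
`|a \ b|` as in `FKT.T_ADD` (3): write `a = insert e a0`, `e ∉ b`; by `FKT.T_ADD` (1), (2) adding
`e` to a configuration decreases `ncl` by `1` if the ends of `e` are not connected and by `0`
otherwise, and if they are connected for `R`, `a0` they are connected for `R'`, `a0 ∪ b`. Then
`four_functions_theorem` (lattice `Finset E`, both finsets equal to `G.powerset`) for
`μ * f`, `μ'`, `μ`, `μ' * f` (extended by `0` outside `G.powerset`, as in the proof of
`FKT.T_FKG`): `(Σ μ f) (Σ μ') ≤ (Σ μ) (Σ μ' f)`. Hypothesis: `FKT.T_ADD`. -/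
def T_HOL : Prop := ∀ (V E : Type) [DecidableEq E] (s t : E → V) (R R' : V → V → Prop)
  (U : Finset V) (G : Finset E) (p p' q : ℝ), 0 < p → p ≤ p' → p' < 1 → 1 ≤ q →
  (∀ a b, R a b → R' a b) → (∀ e ∈ G, s e ∈ U ∧ t e ∈ U) →
  ∀ f : Finset E → ℝ, (∀ a b : Finset E, a ⊆ b → b ⊆ G → f a ≤ f b) →
    Ex s t R U G p q f ≤ Ex s t R' U G p' q f

/-- MAR. The spatial Markov property: given the edges outside `G1`, the law inside `G1` is the
random-cluster measure with the wiring `wir R (ω \ G1)`. Proof: every `ω ⊆ G` is `α ∪ β` with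
`α = ω \ G1 ⊆ G \ G1`, `β = ω ∩ G1 ⊆ G1`, uniquely (`Finset.sum_powerset` over a disjoint union,
e.g. `Finset.sum_nbij'` with the product of the powersets). `bw p G (α ∪ β) = bw p (G \ G1) α *
bw p G1 β`. `Con s t R (α ∪ β) x y ↔ Con s t (wir s t R α) β x y` (both relations are `EqvGen` of
the union of the steps), hence `ncl R U (α ∪ β) = ncl (wir R α) U β` (the clusters are the same
sets). So `Σ_β wt R U G (α ∪ β) * F α β = bw p (G \ G1) α * Z α * Ex (wir R α) U G1 (F α)`, with
`Z α = Σ_β wt (wir R α) U G1 β > 0`, and this is also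
`Σ_β wt R U G (α ∪ β) * Ex (wir R α) U G1 (F α)`. -/
def T_MAR : Prop := ∀ (V E : Type) [DecidableEq E] (s t : E → V) (R : V → V → Prop)
  (U : Finset V) (G G1 : Finset E) (p q : ℝ), 0 < p → p < 1 → 0 < q → G1 ⊆ G →
  ∀ F : Finset E → Finset E → ℝ,
    Ex s t R U G p q (fun ω => F (ω \ G1) (ω ∩ G1)) =
      Ex s t R U G p q fun ω =>
        Ex s t (wir s t R ((ω \ G1 : Finset E) : Set E)) U G1 p q (F (ω \ G1))

/-- VTX. Isolated vertices do not matter. Proof: for `ω ⊆ G` the vertices of `U' \ U` are isolated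
(no edge of `G` and no wired pair touches them), so `ncl U' ω = ncl U ω + |U' \ U|`
(the clusters of the points of `U'` are the clusters of the points of `U`, which are contained in
`U`, and the singletons `{v}`, `v ∈ U' \ U`); the factor `q ^ |U' \ U|` cancels in the
quotient. -/
def T_VTX : Prop := ∀ (V E : Type) (s t : E → V) (R : V → V → Prop)
  (U U' : Finset V) (G : Finset E) (p q : ℝ), 0 < q → U ⊆ U' →
  (∀ a b, R a b → a ∈ U ∧ b ∈ U) → (∀ e ∈ G, s e ∈ U ∧ t e ∈ U) →
  ∀ f : Finset E → ℝ, Ex s t R U' G p q f = Ex s t R U G p q f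

/-- DMF. The law inside `G1` given the edges outside dominates the free law. Proof: T_MAR, and for
each `ω` the inner expectation with the wiring `R' = wir R (ω \ G1)` is at least the one with no
wiring (T_HOL with `R := no V`), which equals `Ex (no V) U1 G1` (T_VTX); then monotonicity of
`Ex`. Hypotheses: T_MAR, T_HOL, T_VTX. -/
def T_DMF : Prop := ∀ (V E : Type) [DecidableEq E] (s t : E → V) (R : V → V → Prop)
  (U U1 : Finset V) (G G1 : Finset E) (p q : ℝ), 0 < p → p < 1 → 1 ≤ q → G1 ⊆ G → U1 ⊆ U →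
  (∀ e ∈ G1, s e ∈ U1 ∧ t e ∈ U1) →
  ∀ F : Finset E → Finset E → ℝ, (∀ α a b : Finset E, a ⊆ b → b ⊆ G1 → F α a ≤ F α b) →
    Ex s t R U G p q (fun ω => Ex s t (no V) U1 G1 p q (F (ω \ G1))) ≤
      Ex s t R U G p q fun ω => F (ω \ G1) (ω ∩ G1)

/-- DMC. Monotonicity in the domain, with free boundary, and in the wiring: special case of
T_DMF with `F α = f` for all `α`. Proof: T_DMF; the left side of T_DMF is a constant. -/
def T_DMC : Prop := ∀ (V E : Type) [DecidableEq E] (s t : E → V) (R : V → V → Prop)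
  (U U1 : Finset V) (G G1 : Finset E) (p q : ℝ), 0 < p → p < 1 → 1 ≤ q → G1 ⊆ G → U1 ⊆ U →
  (∀ e ∈ G1, s e ∈ U1 ∧ t e ∈ U1) →
  ∀ f : Finset E → ℝ, (∀ a b : Finset E, a ⊆ b → b ⊆ G1 → f a ≤ f b) →
    Ex s t (no V) U1 G1 p q f ≤ Ex s t R U G p q fun ω => f (ω ∩ G1)

/-- FEN. Finite energy. Proof: (1) for one edge: T_MAR with `G1 = {e}` and `F α β = 1_{e ∈ β}`:
the inner expectation is `wt {e} / (wt ∅ + wt {e})` for the wiring `R'`; by `FKT.T_ADD` (1), (2)
it is `p` if the ends of `e` are connected for `R'`, `∅`, and `p / (p + q (1 - p))` otherwise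
(`wt {e} = p q^(N-1)`, `wt ∅ = (1 - p) q^N`); both are `≥ p / (p + q (1 - p))` as `q ≥ 1`.
(2) the events `e ∈ ω` are increasing: `FKT.T_FKG` and induction on `F`. Hypotheses: T_MAR,
`FKT.T_ADD`, `FKT.T_FKG`. -/
def T_FEN : Prop := ∀ (V E : Type) [DecidableEq E] (s t : E → V) (R : V → V → Prop)
  (U : Finset V) (G : Finset E) (p q : ℝ), 0 < p → p < 1 → 1 ≤ q →
  (∀ e ∈ G, s e ∈ U ∧ t e ∈ U) → ∀ F : Finset E, F ⊆ G →
    (p / (p + q * (1 - p))) ^ F.card ≤ Ex s t R U G p q fun ω => ind (F ⊆ ω)

/-- SEQ. Sequential trials. `Sj j` are the edge sets of the trials, `L j` the edges explored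
before the trial `j`; given `ξ = ω ∩ L j` the trial `j` succeeds if `F j ξ (ω ∩ Sj j)`, an
increasing event of (free) probability at least `α`. Proof: induction on `M`. The function
`g ω = Π_{j < M} ind (¬ F j (ω ∩ L j) (ω ∩ Sj j))` depends only on `ω ∩ L M`, which is contained in
`ω \ Sj M` (for `j < M`, `L j ∪ Sj j ⊆ L M`, and `L M` is disjoint from `Sj M`). Apply T_DMF with
`G1 = Sj M`, `U1 = Uj M` to `F' α β = - g' α * ind (¬ F M (α ∩ L M) β)`, where `g' α` is the
product above computed from `α` (`g' ≥ 0`, so `F'` is increasing in `β`): since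
`Ex (no) Uj M, Sj M (ind (¬ F ..)) = 1 - Ex (ind F ..) ≤ 1 - α`,
`Ex (g * ind (¬ F M ..)) ≤ (1 - α) Ex g`. Hypothesis: T_DMF. -/
def T_SEQ : Prop := ∀ (V E : Type) [DecidableEq E] (s t : E → V) (R : V → V → Prop)
  (U : Finset V) (G : Finset E) (p q : ℝ), 0 < p → p < 1 → 1 ≤ q →
  ∀ (M : ℕ) (Uj : ℕ → Finset V) (Sj L : ℕ → Finset E) (F : ℕ → Finset E → Finset E → Prop)
    (α : ℝ), α ≤ 1 →
  (∀ j < M, Sj j ⊆ G ∧ Uj j ⊆ U ∧ (∀ e ∈ Sj j, s e ∈ Uj j ∧ t e ∈ Uj j) ∧
    Disjoint (Sj j) (L j) ∧ Sj j ⊆ L (j + 1) ∧ L j ⊆ L (j + 1)) →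
  (∀ j < M, ∀ ξ a b : Finset E, a ⊆ b → F j ξ a → F j ξ b) →
  (∀ j < M, ∀ ξ : Finset E, α ≤ Ex s t (no V) (Uj j) (Sj j) p q fun β => ind (F j ξ β)) →
    Ex s t R U G p q (fun ω => ∏ j ∈ Finset.range M,
      ind (¬ F j (ω ∩ L j) (ω ∩ Sj j))) ≤ (1 - α) ^ M

/-- The parameter `p` with log-odds `l`. -/
noncomputable def lg (l : ℝ) : ℝ := Real.exp l / (1 + Real.exp l)

/-- DER. The derivative in the log-odds. Proof: `bw (lg l) G ω = (exp l) ^ |ω| / (1 + exp l)^|G|`
for `ω ⊆ G` (`1 - lg l = 1 / (1 + exp l)`), so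
`Ex = (Σ exp (l |ω|) q^ncl f) / (Σ exp (l |ω|) q^ncl)`; quotient rule. -/
def T_DER : Prop := ∀ (V E : Type) (s t : E → V) (R : V → V → Prop)
  (U : Finset V) (G : Finset E) (q : ℝ), 0 < q → ∀ (f : Finset E → ℝ) (l : ℝ),
    HasDerivAt (fun l : ℝ => Ex s t R U G (lg l) q f)
      (Ex s t R U G (lg l) q (fun ω => f ω * (ω.card : ℝ)) -
        Ex s t R U G (lg l) q f * Ex s t R U G (lg l) q fun ω => (ω.card : ℝ)) l

/-- LGD. Integration of the logarithmic derivative of an event. Proof: let
`g l = Ex (lg l) (ind ∘ D) > 0`. By T_DER `g' l = Ex (ind D * |ω|) - g Ex |ω| =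
- g l * Σ_{e ∈ G} (Ex 1_e - Ex (1_D 1_e) / g l) ≤ - M g l` (`|ω| = Σ_{e ∈ G} 1_{e ∈ ω}` for
`ω ⊆ G`). So `exp (M l) * g l` has a nonpositive derivative on `[a, b]`
(`antitoneOn_of_deriv_nonpos`). Hypothesis: T_DER. -/
def T_LGD : Prop := ∀ (V E : Type) [DecidableEq E] (s t : E → V) (R : V → V → Prop)
  (U : Finset V) (G : Finset E) (q : ℝ), 0 < q → ∀ (D : Finset E → Prop) (M a b : ℝ), a ≤ b →
  (∃ ω ⊆ G, D ω) →
  (∀ l, a ≤ l → l ≤ b → M ≤ ∑ e ∈ G, (Ex s t R U G (lg l) q (fun ω => ind (e ∈ ω)) -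
    Exc s t R U G (lg l) q D fun ω => ind (e ∈ ω))) →
    Ex s t R U G (lg b) q (fun ω => ind (D ω)) ≤
      Real.exp (-(M * (b - a))) * Ex s t R U G (lg a) q fun ω => ind (D ω)

/-- AUT. Invariance of the free measures under translations and permutations of the coordinates
(and their compositions). `c` is a bijection of the vertices, `σ` a permutation of the directions,
with `c (x + e_i) = c x + e_(σ i)`. Proof: `g = (x, i) ↦ (c x, σ i)` is a bijection of the edges
which carries `es S` to `es (S.map c)` and steps to steps; so `ω ↦ ω.map g` is a bijection of the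
configurations which preserves the cards and the numbers of clusters (`FKT.T_NCM` with the map
`c`, or directly: `Con (ω.map g) (c x) (c y) ↔ Con ω x y`). The second claim is the first one for
`f = ind (Cf · (c x) (c y))`. Hypothesis: `FKT.T_NCM`. -/
def T_AUT : Prop := ∀ (d : ℕ) (c : Vx d ≃ Vx d) (σ : Equiv.Perm (Fin d)),
  (∀ (x : Vx d) (i : Fin d), c (x + Pi.single i 1) = c x + Pi.single (σ i) 1) →
  ∀ (S : Finset (Vx d)) (p q : ℝ),
    (∀ f : Finset (Ed d) → ℝ, fr (S.map c.toEmbedding) p q f =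
      fr S p q fun ω => f (ω.map (c.prodCongr σ).toEmbedding)) ∧
    ∀ x y : Vx d, tp (S.map c.toEmbedding) p q (c x) (c y) = tp S p q x y

/-- DMW. The law inside a box given the edges outside is dominated by the wired law. Proof: let
`S = bx v r`, `G1 = es S = eb v r`. T_MAR (for `R = no`, `U = Λ`, `G = es Λ`); fix
`α ⊆ es Λ \ G1` and let `R1 = wir no α`, `R2 a b = R1 a b ∨ Wir v r a b`. By T_HOL
`Ex R1 Λ G1 (F α) ≤ Ex R2 Λ G1 (F α)`. There is `N` with
`ncl R2 Λ β = ncl (Wir v r) S β + N` for all `β ⊆ G1`: an edge of `α` with an end in `S` has its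
end in `bd v r` (its other end is outside `S`), so for `x, y ∈ S`: `Con R2 β x y ↔
Con (Wir v r) β x y` (←: clear; →: walk from `x` to `y`: a part of the walk outside `S` starts
and ends in `bd v r`); and the clusters of `R2`, `β` which do not meet `S` are the clusters of
`R1`, `∅` which do not meet `S`, whose number `N` does not depend on `β`; the clusters of
`R2`, `β` meeting `Λ` and `S` correspond to the clusters of `Wir v r`, `β` meeting `S`. The factor
`q ^ N` cancels: `Ex R2 Λ G1 (F α) = phi v r p q (F α)`. Hypotheses: T_MAR, T_HOL. -/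
def T_DMW : Prop := ∀ (d : ℕ) (Λ : Finset (Vx d)) (v : Vx d) (r : ℕ) (p q : ℝ), 0 < p → p < 1 →
  1 ≤ q → bx v r ⊆ Λ → ∀ F : Finset (Ed d) → Finset (Ed d) → ℝ,
  (∀ α a b : Finset (Ed d), a ⊆ b → b ⊆ es (bx v r) → F α a ≤ F α b) →
    fr Λ p q (fun ω => F (ω \ es (bx v r)) (ω ∩ es (bx v r))) ≤
      fr Λ p q fun ω => phi v r p q (F (ω \ es (bx v r)))

/-! ## Combinatorics of edge boundaries in boxes of the lattice -/

/-- The edges of the vertex set `J` with exactly one end in `W`. -/
noncomputable def bdy {n : ℕ} (J W : Finset (Vx n)) : Finset (Ed n) :=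
  (es J).filter fun e => ¬ (e.1 ∈ W ↔ tgt e ∈ W)

/-- `e` is one of the four edges of the unit square based at `x` in the directions `i`, `j`. -/
def InSq {n : ℕ} (x : Vx n) (i j : Fin n) (e : Ed n) : Prop :=
  e = (x, i) ∨ e = (x, j) ∨ e = (x + Pi.single j 1, i) ∨ e = (x + Pi.single i 1, j)

/-- `e` and `e'` are edges of a common unit square. -/
def Sq {n : ℕ} (e e' : Ed n) : Prop :=
  ∃ (x : Vx n) (i j : Fin n), i ≠ j ∧ InSq x i j e ∧ InSq x i j e'

/-- The vertex set `W` is connected (by the edges inside `W`). -/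
def CnS {n : ℕ} (W : Finset (Vx n)) : Prop := ∀ x ∈ W, ∀ y ∈ W, Cf (es W) x y

/-- PON. The discrete Poincaré lemma modulo 2 in a box. Proof: if the box is empty take `f = 0`.
For `x` in the box define `f x` as the sum of `g` along the path from `a` to `x` which changes the
coordinates in the order `0, 1, ..., n - 1`, each one increasing from `a i` to `x i`:
`f x = Σ_i Σ_{t = 0}^{x i - a i - 1} g (y_{i,t}, i)`, where `y_{i,t}` has the coordinates `x j`
for `j < i`, `a i + t` for `j = i`, `a j` for `j > i`. Let `(x, i)` be an edge of the box. Then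
`f (x + e_i) - f x` is `g (w, i)` (`w` = the point with coordinates `x j`, `j ≤ i`, `a j`,
`j > i`: the additional step in the direction `i`) plus the sum, over the steps `(y, j)`, `j > i`,
of the path from `w` to `x`, of `g (y + e_i, j) + g (y, j)`, which by the hypothesis is
`g (y, i) + g (y + e_j, i)`; this sum telescopes to `g (w, i) + g (x, i)`. All points are in the
box, since boxes are products of intervals. (Alternatively: induction on `Σ (x i - a i)`, or on
`n`.) -/
def T_PON : Prop := ∀ (n : ℕ) (a b : Vx n) (g : Ed n → ZMod 2),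
  (∀ (x : Vx n) (i j : Fin n), i ≠ j → x ∈ Finset.Icc a b →
    x + Pi.single i 1 + Pi.single j 1 ∈ Finset.Icc a b →
      g (x, i) + g (x + Pi.single i 1, j) + g (x + Pi.single j 1, i) + g (x, j) = 0) →
  ∃ f : Vx n → ZMod 2, ∀ e ∈ es (Finset.Icc a b), g e = f e.1 + f (tgt e)

/-- CUT. The edge boundary of a connected set with connected complement in a box is connected
through unit squares. Proof: let `J = Icc a b`, `Π = bdy J W`, `e ∈ Π`, and let `P` be the set of
the elements of `Π` reachable from `e`. Put `g e' = 1` if `e' ∈ P`, else `0`. Every unit square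
of the box contains an even number of edges of `Π` (walk around the four corners), and all edges
of `Π` in one square are in `P` or none is; so the hypothesis of T_PON holds. Let `f` be given by
T_PON: for an edge `e'` of the box, `f` takes the same value at both ends iff `e' ∉ P`. Suppose
`e' ∈ Π \ P`. `e` has ends `u ∈ W`, `v ∉ W`, `e'` has ends `u' ∈ W`, `v' ∉ W`. Edges inside `W`
or inside `J \ W` are not in `Π`, so `f u = f u'` (`W` connected), `f v = f v'`. But
`f u ≠ f v` since `e ∈ P`, and `f u' = f v'` since `e' ∉ P`. Contradiction. Hypothesis: T_PON. -/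
def T_CUT : Prop := ∀ (n : ℕ) (a b : Vx n) (W : Finset (Vx n)), W ⊆ Finset.Icc a b →
  CnS W → CnS (Finset.Icc a b \ W) → ∀ e ∈ bdy (Finset.Icc a b) W,
  ∀ e' ∈ bdy (Finset.Icc a b) W,
    Relation.ReflTransGen
      (fun e1 e2 => e1 ∈ bdy (Finset.Icc a b) W ∧ e2 ∈ bdy (Finset.Icc a b) W ∧ Sq e1 e2) e e'

/-- SEP. Filling. Proof: let `J = Icc a b`, `K` the set of the points of `J \ W'` connected to
`z1` by the edges inside `J \ W'`, `W = J \ K`. `J \ W = K` is connected: a path inside `J \ W'`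
from `z1` stays in `K`. An edge between a point of `W` and a point of `K`: the point of `W` is in
`W'`, otherwise it would be in `K`. `W` is connected: it is enough to connect `x ∈ W` inside `W`
to a point of `W'` (`W' ⊆ W` is connected). Walk in the box `J` (boxes are connected: change one
coordinate after the other) from `x` to `z0 ∈ W'` until the first point of `W'`; the points before
it are in `J \ W'`, connected to `x` inside `J \ W'`, so none of them is in `K` (else `x ∈ K`),
they are in `W`. -/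
def T_SEP : Prop := ∀ (n : ℕ) (a b : Vx n) (W' : Finset (Vx n)) (z0 z1 : Vx n),
  W' ⊆ Finset.Icc a b → CnS W' → z0 ∈ W' → z1 ∈ Finset.Icc a b \ W' →
  ∃ W : Finset (Vx n), W' ⊆ W ∧ W ⊆ Finset.Icc a b ∧ z1 ∉ W ∧ CnS W ∧
    CnS (Finset.Icc a b \ W) ∧ ∀ e ∈ bdy (Finset.Icc a b) W,
      (e.1 ∈ W → e.1 ∈ W') ∧ (tgt e ∈ W → tgt e ∈ W')

/-- ANI. The number of connected sets of `k` points containing a given point, when every point
has at most `Δ` neighbours. Proof: by induction on `k ≥ 1`: for every connected `S` with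
`v ∈ S`, `|S| = k`, there is a list of length `2 k - 1` starting with `v`, in which every next
element is a neighbour (element of `N`) of the preceding one, with set of elements `S`
(adjacency is symmetric). For `k > 1` there is `w ∈ S`, `w ≠ v`, such that `S \ {w}` is connected
(a leaf of a spanning tree, or a point at maximal distance from `v`; Mathlib has
`SimpleGraph.Connected.exists_connected_induce_compl_singleton_of_finite_nontrivial` or similar);
take a list for `S \ {w}`; `w` has a neighbour `w'` in it; replace one occurrence of `w'` by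
`w', w, w'`. The number of such lists is at most `Δ ^ (2 k - 2)`. -/
def T_ANI : Prop := ∀ (A : Type) [DecidableEq A] (N : A → Finset A) (Δ : ℕ), 1 ≤ Δ →
  (∀ x, (N x).card ≤ Δ) → (∀ x y, y ∈ N x → x ∈ N y) → ∀ (v : A) (k : ℕ),
    {S : Finset A | v ∈ S ∧ S.card = k ∧
      ∀ w ∈ S, Relation.ReflTransGen (fun x y => x ∈ S ∧ y ∈ S ∧ y ∈ N x) v w}.Finite ∧
    {S : Finset A | v ∈ S ∧ S.card = k ∧
      ∀ w ∈ S, Relation.ReflTransGen (fun x y => x ∈ S ∧ y ∈ S ∧ y ∈ N x) v w}.ncard ≤
        Δ ^ (2 * k)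

/-- PLQ. The number of edge sets connected through unit squares. Proof: T_ANI with
`N e = {e' | Sq e e'}` (a finite set): for `e = (x, i)` the squares containing `e` are those based
at `x` or `x - e_j` in the directions `i, j` (in either order), `j ≠ i`; at most `2 (n - 1)`
squares (as sets), 4 edges each: at most `8 n` edges. `Sq` is symmetric. Hypothesis: T_ANI. -/
def T_PLQ : Prop := ∀ (n : ℕ), 1 ≤ n → ∀ (e : Ed n) (k : ℕ),
  {P : Finset (Ed n) | e ∈ P ∧ P.card = k ∧
    ∀ e' ∈ P, Relation.ReflTransGen (fun x y => x ∈ P ∧ y ∈ P ∧ Sq x y) e e'}.Finite ∧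
  {P : Finset (Ed n) | e ∈ P ∧ P.card = k ∧
    ∀ e' ∈ P, Relation.ReflTransGen (fun x y => x ∈ P ∧ y ∈ P ∧ Sq x y) e e'}.ncard ≤
      (8 * n) ^ (2 * k)

end Pool.Agent.FKP
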