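import Pool.Agent.FKT.Defs

/-!
# Project FKP (MP_552f07_pr): slab percolation threshold and tails of finite clusters for the
random-cluster model. Definitions.

The definitions of project FKT are used: `Con s t R O` (connection by open edges `O` and wired
pairs `R`), `ncl`, `bw`, `wt`, `Ex s t R U G p q f` (random-cluster expectation, vertices `U`,
edges `G`, wiring `R`), the lattice `Vx d`, `Ed d`, `tgt`, `bx`, `bd`, `eb`, `phi` (wired box),
`Cn`, `cfg`, `IsWired`.
-/

set_option autoImplicit false

namespace Pool.Agent.FKP

open Filter MeasureTheory Pool.Agent.FKT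

/-! ## General graphs -/

section graph

variable {V E : Type} [DecidableEq V] [DecidableEq E]

/-- The steps of the open edges `O` and of the wiring `R`, as a new wiring relation. -/
def wir (s t : E → V) (R : V → V → Prop) (O : Set E) : V → V → Prop := Step s t R O

/-- The wiring `R` with `T` and `B` identified. -/
def mrg (R : V → V → Prop) (T B : V) : V → V → Prop := fun a b => R a b ∨ (a = T ∧ b = B)

open Classical in
/-- The indicator of a proposition, as a real number. -/
noncomputable def ind (P : Prop) : ℝ := if P then 1 else 0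

/-- The expectation of `f` conditioned on the event `D`. -/
noncomputable def Exc (s t : E → V) (R : V → V → Prop) (U : Finset V) (G : Finset E) (p q : ℝ)
    (D : Finset E → Prop) (f : Finset E → ℝ) : ℝ :=
  Ex s t R U G p q (fun ω => ind (D ω) * f ω) / Ex s t R U G p q fun ω => ind (D ω)

/-- `T` and `B` are not connected (in the graph where they are not identified). -/
def Dis (s t : E → V) (R : V → V → Prop) (T B : V) (ω : Finset E) : Prop :=
  ¬ Con s t R (ω : Set E) T B

/-- `θ x`: probability that `x` is connected to the identified vertex `T ~ B`. -/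
noncomputable def tht (s t : E → V) (R : V → V → Prop) (U : Finset V) (G : Finset E) (p q : ℝ)
    (T B x : V) : ℝ :=
  Ex s t (mrg R T B) U G p q fun ω => ind (Con s t (mrg R T B) (ω : Set E) x T)

/-- `s x = a x - u b x`, where `a x` (`b x`) is the probability that `x` is connected to `T`
(to `B`), in the measure conditioned on `T` not connected to `B`. -/
noncomputable def sgn (s t : E → V) (R : V → V → Prop) (U : Finset V) (G : Finset E) (p q u : ℝ)
    (T B x : V) : ℝ :=
  Exc s t (mrg R T B) U G p q (Dis s t R T B) fun ω =>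
    ind (Con s t R (ω : Set E) x T) - u * ind (Con s t R (ω : Set E) x B)

/-- The decrease of the probability of the edge `e` by the conditioning on `T` not connected to
`B`. -/
noncomputable def dlt (s t : E → V) (R : V → V → Prop) (U : Finset V) (G : Finset E) (p q : ℝ)
    (T B : V) (e : E) : ℝ :=
  Ex s t (mrg R T B) U G p q (fun ω => ind (e ∈ ω)) -
    Exc s t (mrg R T B) U G p q (Dis s t R T B) fun ω => ind (e ∈ ω)

end graph

/-- The quadratic Lebowitz-Pfister inequality for the cluster weight `q`, with constants `κ > 0`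
and `u ≥ 0`, for finite graphs (all vertices and all edges are used). -/
def QLPc (q κ u : ℝ) : Prop :=
  ∀ (V E : Type) [DecidableEq V] [DecidableEq E] [Fintype V] [Fintype E] (s t : E → V)
    (R : V → V → Prop) (p : ℝ), 0 < p → p < 1 → ∀ T B : V,
    ¬ Con s t R ∅ T B → ∀ e : E,
      κ * p * (tht s t R Finset.univ Finset.univ p q T B (t e) *
          sgn s t R Finset.univ Finset.univ p q u T B (s e) -
        tht s t R Finset.univ Finset.univ p q T B (s e) *
          sgn s t R Finset.univ Finset.univ p q u T B (t e)) ^ 2 ≤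
      dlt s t R Finset.univ Finset.univ p q T B e

/-- The quadratic Lebowitz-Pfister inequality for the cluster weight `q`. -/
def QLP (q : ℝ) : Prop := ∃ κ u : ℝ, 0 < κ ∧ 0 ≤ u ∧ QLPc q κ u

/-! ## The lattice -/

section lattice

variable {d : ℕ}

/-- The edges with both ends in `S`. -/
noncomputable def es (S : Finset (Vx d)) : Finset (Ed d) :=
  (S ×ˢ (Finset.univ : Finset (Fin d))).filter fun e => tgt e ∈ S

/-- The random-cluster expectation on the vertex set `S` with the wiring `R`. -/
noncomputable def fw (R : Vx d → Vx d → Prop) (S : Finset (Vx d)) (p q : ℝ)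
    (f : Finset (Ed d) → ℝ) : ℝ :=
  Ex Prod.fst tgt R S (es S) p q f

/-- The free random-cluster expectation on the vertex set `S`. -/
noncomputable def fr (S : Finset (Vx d)) (p q : ℝ) (f : Finset (Ed d) → ℝ) : ℝ :=
  fw (no (Vx d)) S p q f

/-- Connection in the lattice inside a finite set of open edges. -/
def Cf (ω : Finset (Ed d)) : Vx d → Vx d → Prop := Cn (ω : Set (Ed d))

/-- The two-point function of the free measure on `S`. -/
noncomputable def tp (S : Finset (Vx d)) (p q : ℝ) (x y : Vx d) : ℝ :=
  fr S p q fun ω => ind (Cf ω x y)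

/-- The slab `[-H, H]` in all directions except the directions `i` and `j`, where it is
`[-A, A]`. -/
noncomputable def bx2 (i j : Fin d) (A H : ℕ) : Finset (Vx d) :=
  Finset.Icc (fun l => if l = i ∨ l = j then -(A : ℤ) else -(H : ℤ))
    (fun l => if l = i ∨ l = j then (A : ℤ) else (H : ℤ))

/-- The slab with `L + 1` layers in the direction `i`, based at the height `c`, and `[-n, n]` in
the other directions. -/
noncomputable def slb (i : Fin d) (L : ℕ) (c : ℤ) (n : ℕ) : Finset (Vx d) :=
  Finset.Icc (fun l => if l = i then c else -(n : ℤ))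
    (fun l => if l = i then c + L else (n : ℤ))

/-- Slab percolation: the two-point function of every slab of thickness `L + 1` is at least
`α`. -/
def Slab (d : ℕ) (p q : ℝ) (L : ℕ) (α : ℝ) : Prop :=
  0 < α ∧ ∀ (i : Fin d) (c : ℤ) (n : ℕ), ∀ x ∈ slb i L c n, ∀ y ∈ slb i L c n,
    α ≤ tp (slb i L c n) p q x y

/-- The cluster of the origin in the configuration `ω`. -/
def C0 (ω : Ed d → Bool) : Set (Vx d) := {v | Cn (cfg ω) 0 v}

/-- The cluster of the origin is infinite. -/
def Inf0 (d : ℕ) : Set (Ed d → Bool) := {ω | (C0 ω).Infinite}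

/-- The cluster of the origin is finite and reaches distance `n` (in the sup norm). -/
def Rad (d n : ℕ) : Set (Ed d → Bool) :=
  {ω | (C0 ω).Finite ∧ ∃ v ∈ C0 ω, ∃ i, (n : ℤ) ≤ |v i|}

/-- The cluster of the origin is finite and has at least `n` vertices. -/
def Vol (d n : ℕ) : Set (Ed d → Bool) := {ω | (C0 ω).Finite ∧ n ≤ (C0 ω).ncard}

/-- The critical point: the supremum of the `p` in `[0, 1]` such that the cluster of the origin is
almost surely finite for the wired measure. -/
noncomputable def pc (d : ℕ) (q : ℝ) : ℝ :=
  sSup {p : ℝ | 0 ≤ p ∧ p ≤ 1 ∧ ∀ μ : Measure (Ed d → Bool), IsWired d p q μ → μ (Inf0 d) = 0}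

/-- Both tail bounds of the question for the parameters `p`, `q`. -/
def Tails (d : ℕ) (p q : ℝ) : Prop :=
  ∀ μ : Measure (Ed d → Bool), IsWired d p q μ →
    ∃ σ γ : ℝ, 0 < σ ∧ 0 < γ ∧ ∀ n : ℕ, 1 ≤ n →
      μ.real (Rad d n) ≤ Real.exp (-(n * σ)) ∧
      μ.real (Vol d n) ≤ Real.exp (-(γ * (n : ℝ) ^ (((d : ℝ) - 1) / d)))

end lattice

end Pool.Agent.FKP
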