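import Pool.Agent.FKP.Assembly

/-!
# Project FKP: the theorems for integer cluster weights
-/

set_option autoImplicit false

namespace Pool.Agent.FKP

open Filter MeasureTheory Pool.Agent.FKT

/-- The wired measure is unique. -/
theorem wired_unique {d : ℕ} {p q : ℝ} {μ ν : Measure (Ed d → Bool)} (hμ : IsWired d p q μ)
    (hν : IsWired d p q ν) : ν = μ :=
  (FKT.p_CYL d).2 ν μ hν.prob hμ.prob fun F T hT =>
    tendsto_nhds_unique (hν.lim F T hT) (hμ.lim F T hT)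

/-- The wired measure exists, `p = 1` included. -/
theorem wired_exists (d : ℕ) (p q : ℝ) (hd : 0 < d) (hp : 0 < p) (hp1 : p ≤ 1) (hq : 1 ≤ q) :
    ∃ μ : Measure (Ed d → Bool), IsWired d p q μ := by
  rcases eq_or_lt_of_le hp1 with rfl | h
  · exact (g_PI1 d q hd (by linarith)).2
  · exact f_EXI d hd p q hp h hq

theorem pc_nonneg (d : ℕ) (q : ℝ) : 0 ≤ pc d q := Real.sSup_nonneg fun _ hx => hx.1

/-- Both tail bounds, for every cluster weight with the quadratic Lebowitz-Pfister inequality. -/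
theorem tails_QLP (d : ℕ) (q p : ℝ) (hd : 3 ≤ d) (hq : 1 ≤ q) (hQ : QLP q) (hp : pc d q < p)
    (hp1 : p ≤ 1) :
    ∃ μ : Measure (Ed d → Bool), IsWired d p q μ ∧
      (∀ ν : Measure (Ed d → Bool), IsWired d p q ν → ν = μ) ∧
      ∃ σ γ : ℝ, 0 < σ ∧ 0 < γ ∧ ∀ n : ℕ, 1 ≤ n →
        μ.real {ω | (C0 ω).Finite ∧ ∃ v ∈ C0 ω, ∃ i, (n : ℤ) ≤ |v i|} ≤
          Real.exp (-(n * σ)) ∧
        μ.real {ω | (C0 ω).Finite ∧ n ≤ (C0 ω).ncard} ≤
          Real.exp (-(γ * (n : ℝ) ^ (((d : ℝ) - 1) / d))) := by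
  obtain ⟨μ, hμ⟩ := wired_exists d p q (by omega) ((pc_nonneg d q).trans_lt hp) hp1 hq
  exact ⟨μ, hμ, fun ν hν => wired_unique hμ hν, (g_TAL d q p hd hq hQ hp hp1).1 μ hμ⟩

end Pool.Agent.FKP
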