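import Pool.Agent.FKP.Defs

/-!
# Project FKP: the interface between the four parts, and the final theorem from it
-/

set_option autoImplicit false

namespace Pool.Agent.FKP

open Filter MeasureTheory Pool.Agent.FKT

/-- TPF (part A). Lower bound of the two-point function of the free measure of a large box, uniform
in the distance of the two points. -/
def T_TPF : Prop := ∀ d : ℕ, 2 ≤ d → ∀ p0 p1 q : ℝ, 0 < p0 → p0 < p1 → p1 < 1 → 1 ≤ q →
  (∃ μ : Measure (Ed d → Bool), IsWired d p0 q μ ∧ 0 < μ.real (Inf0 d)) →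
  ∃ θ : ℝ, 0 < θ ∧ ∀ h : ℕ, ∃ N0 : ℕ, ∀ N : ℕ, N0 ≤ N → ∀ y ∈ bx (0 : Vx d) h,
    θ ≤ tp (bx 0 N) p1 q 0 y

/-- SEE (part A). In every interval of parameters there is a parameter, and a large box, where the
wired and the free probability that all edges of `F` are open differ at most by the factor 2. -/
def T_SEE : Prop := ∀ d : ℕ, 2 ≤ d → ∀ pa pb q : ℝ, 0 < pa → pa < pb → pb < 1 → 1 ≤ q →
  ∀ (F : Finset (Ed d)) (m : ℕ), ∃ r : ℕ, m ≤ r ∧ F ⊆ es (bx 0 r) ∧ ∃ p : ℝ, pa ≤ p ∧ p ≤ pb ∧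
    phi (0 : Vx d) r p q (fun ω => ind (F ⊆ ω)) ≤ 2 * fr (bx 0 r) p q fun ω => ind (F ⊆ ω)

/-- SLB (part B). Slab percolation for all parameters above a percolating one. -/
def T_SLB : Prop := ∀ (k : ℕ) (q : ℝ), 1 ≤ q → QLP q → ∀ p0 p : ℝ, 0 < p0 → p0 < p → p < 1 →
  (∃ μ : Measure (Ed (k + 3) → Bool), IsWired (k + 3) p0 q μ ∧ 0 < μ.real (Inf0 (k + 3))) →
  ∃ (L : ℕ) (α : ℝ), Slab (k + 3) p q L α

/-- REN (part C). Slab percolation implies both tail bounds. -/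
def T_REN : Prop := ∀ d : ℕ, 2 ≤ d → ∀ p q : ℝ, 0 < p → p < 1 → 1 ≤ q → ∀ (L : ℕ) (α : ℝ),
  Slab d p q L α → Tails d p q

/-- QLN (part D). The quadratic Lebowitz-Pfister inequality for integers `q ≥ 2`. -/
def T_QLN : Prop := ∀ n : ℕ, 2 ≤ n → QLP (n : ℝ)

/-- ONE. The case `p = 1`: the configuration is almost surely completely open. Proof: for
`F = {e}`, `T = ∅` the wired expectation of `1_{ω ∩ {e} = ∅}` in a box containing `e` is `0`
(`bw 1 G ω = 0` unless `ω = G`), so `μ {ω | ω e = false} = 0`; `Ed d` is countable; if all edges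
are open then the cluster of `0` is everything, and it is infinite. -/
def T_ONE : Prop := ∀ d : ℕ, 2 ≤ d → ∀ q : ℝ, 1 ≤ q → ∀ μ : Measure (Ed d → Bool),
  IsWired d 1 q μ → μ {ω | (C0 ω).Finite} = 0

theorem tails_of (hTail : T_REN) (hSlb : T_SLB) (hOne : T_ONE) :
    ∀ (d : ℕ) (q p : ℝ), 3 ≤ d → 1 ≤ q → QLP q → pc d q < p → p ≤ 1 →
      Tails d p q ∧ (p < 1 → ∃ (L : ℕ) (α : ℝ), Slab d p q L α) := by
  intro d q p hd hq hQ hp hp1
  rcases eq_or_lt_of_le hp1 with rfl | hlt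
  · refine ⟨fun μ hμ => ⟨1, 1, one_pos, one_pos, fun n hn => ?_⟩, fun h => absurd h (lt_irrefl _)⟩
    have h0 := hOne d (by omega) q hq μ hμ
    have h1 : μ.real (Rad d n) = 0 := by
      have : μ (Rad d n) = 0 := measure_mono_null (fun ω hω => hω.1) h0
      simp [Measure.real, this]
    have h2 : μ.real (Vol d n) = 0 := by
      have : μ (Vol d n) = 0 := measure_mono_null (fun ω hω => hω.1) h0
      simp [Measure.real, this]
    rw [h1, h2]
    exact ⟨(Real.exp_pos _).le, (Real.exp_pos _).le⟩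
  · obtain ⟨k, rfl⟩ : ∃ k, d = k + 3 := ⟨d - 3, by omega⟩
    have hb : BddAbove {p : ℝ | 0 ≤ p ∧ p ≤ 1 ∧ ∀ μ : Measure (Ed (k + 3) → Bool),
        IsWired (k + 3) p q μ → μ (Inf0 (k + 3)) = 0} := ⟨1, fun x hx => hx.2.1⟩
    have hpc0 : 0 ≤ pc (k + 3) q := by
      unfold pc
      exact Real.sSup_nonneg (fun x hx => hx.1)
    obtain ⟨p0, h0a, h0b⟩ := exists_between hp
    have hp0 : 0 < p0 := lt_of_le_of_lt hpc0 h0a
    have hnot : p0 ∉ {p : ℝ | 0 ≤ p ∧ p ≤ 1 ∧ ∀ μ : Measure (Ed (k + 3) → Bool),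
        IsWired (k + 3) p q μ → μ (Inf0 (k + 3)) = 0} := by
      intro hmem
      exact absurd (le_csSup hb hmem) (not_le.mpr h0a)
    have hex : ∃ μ : Measure (Ed (k + 3) → Bool),
        IsWired (k + 3) p0 q μ ∧ 0 < μ.real (Inf0 (k + 3)) := by
      by_contra hcon
      apply hnot
      refine ⟨hp0.le, (h0b.trans hlt).le, fun μ hμ => ?_⟩
      by_contra hne
      apply hcon
      have := hμ.prob
      exact ⟨μ, hμ, ENNReal.toReal_pos hne (measure_ne_top _ _)⟩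
    obtain ⟨L, α, hS⟩ := hSlb k q hq hQ p0 p hp0 h0b hlt hex
    exact ⟨hTail (k + 3) (by omega) p q (hp0.trans h0b) hlt hq L α hS, fun _ => ⟨L, α, hS⟩⟩

end Pool.Agent.FKP
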