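import Pool.Agent.FKP.PartC2
import Pool.Agent.FKP.Lem

/-!
# Project FKP: the contour (CTW)
-/

set_option autoImplicit false

namespace Pool.Agent.FKP

open Pool.Agent.FKT

namespace CTW_

variable {d : ℕ}

theorem mem_bdy {J W : Finset (Vx d)} {e : Ed d} :
    e ∈ bdy J W ↔ e ∈ es J ∧ ¬ (e.1 ∈ W ↔ tgt e ∈ W) := by
  unfold bdy
  rw [Finset.mem_filter]

/-- A set which is not crossed by the edges of `F` contains both of two connected points or none
of them. -/
theorem con_iff {F : Finset (Ed d)} {W : Finset (Vx d)}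
    (h : ∀ e ∈ F, (e.1 ∈ W ↔ tgt e ∈ W)) {x y : Vx d} (hxy : Cf F x y) : x ∈ W ↔ y ∈ W := by
  unfold Cf Cn FKT.Con at hxy
  induction hxy with
  | rel x y h1 =>
    rcases h1 with h1 | ⟨e, he, h2, h3⟩
    · exact h1.elim
    · rw [← h2, ← h3]
      exact h e he
  | refl x => exact Iff.rfl
  | symm x y _ ih => exact ih.symm
  | trans x y z _ _ ih1 ih2 => exact ih1.trans ih2

theorem bound (A : Finset (Vx d)) : ∃ N : ℕ, ∀ z ∈ A, ∀ i, |z i| ≤ (N : ℤ) := by
  refine ⟨A.sup fun z => ∑ i, (z i).natAbs, fun z hz i => ?_⟩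
  have h1 : (z i).natAbs ≤ ∑ j, (z j).natAbs :=
    Finset.single_le_sum (f := fun j => (z j).natAbs) (fun _ _ => Nat.zero_le _)
      (Finset.mem_univ i)
  have h2 : ∑ j, (z j).natAbs ≤ A.sup fun z => ∑ i, (z i).natAbs :=
    Finset.le_sup (f := fun z : Vx d => ∑ i, (z i).natAbs) hz
  rw [Int.abs_eq_natAbs]
  exact_mod_cast h1.trans h2

theorem tgt_add (z : Vx d) (i : Fin d) (t : ℕ) :
    tgt ((z + Pi.single i (t : ℤ), i) : Ed d) = z + Pi.single i ((t + 1 : ℕ) : ℤ) := by
  unfold tgt
  simp only
  rw [add_assoc, ← Pi.single_add]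
  push_cast
  rfl

end CTW_

open CTW_ in
theorem p_CTW (h_SEP : T_SEP) (h_CUT : T_CUT) (h_BCN : T_BCN) : T_CTW := by
  classical
  intro d hd A h0 hA
  obtain ⟨N, hN⟩ := bound A
  have hN0 : (0 : ℤ) ≤ N := by positivity
  set lo : Vx d := fun _ => -((N : ℤ) + 1) with hlo
  set hi : Vx d := fun _ => (N : ℤ) + 1 with hhi
  have hAJ : A ⊆ Finset.Icc lo hi := by
    intro z hz
    rw [Finset.mem_Icc]
    constructor
    · intro i
      have := abs_le.1 (hN z hz i)
      simp only [hlo]
      linarith
    · intro i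
      have := abs_le.1 (hN z hz i)
      simp only [hhi]
      linarith
  have hz1 : hi ∈ Finset.Icc lo hi \ A := by
    rw [Finset.mem_sdiff, Finset.mem_Icc]
    refine ⟨⟨?_, le_rfl⟩, ?_⟩
    · intro i
      simp only [hlo, hhi]
      linarith
    · intro h
      have := abs_le.1 (hN hi h ⟨0, by omega⟩)
      simp only [hhi] at this
      linarith [this.2]
  obtain ⟨W, hAW, hWJ, hz1W, hW, hWc, hbd⟩ := h_SEP d lo hi A 0 hi hAJ hA h0 hz1
  refine ⟨bdy (Finset.Icc lo hi) W, ?_, ?_, ?_⟩
  · exact h_CUT d lo hi W hWJ hW hWc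
  · intro e he
    have h1 := hbd e he
    have h2 := (mem_bdy.1 he).2
    by_cases h3 : e.1 ∈ W
    · have h4 : tgt e ∉ W := fun h4 => h2 ⟨fun _ => h4, fun _ => h3⟩
      exact Or.inl ⟨h1.1 h3, fun h5 => h4 (hAW h5)⟩
    · have h4 : tgt e ∈ W := by
        by_contra h4
        exact h2 ⟨fun h => absurd h h3, fun h => absurd h h4⟩
      exact Or.inr ⟨h1.2 h4, fun h5 => h3 (hAW h5)⟩
  · intro z hz i
    -- the face
    set lo' : Vx d := fun j => if j = i then (N : ℤ) + 1 else -((N : ℤ) + 1) with hlo'
    have hFa : ∀ x ∈ Finset.Icc lo' hi, x i = (N : ℤ) + 1 ∧ x ∈ Finset.Icc lo hi := by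
      intro x hx
      rw [Finset.mem_Icc] at hx
      constructor
      · have h1 := hx.1 i
        have h2 := hx.2 i
        simp only [hlo', if_pos rfl] at h1
        simp only [hhi] at h2
        exact le_antisymm h2 (by simpa using h1)
      · rw [Finset.mem_Icc]
        refine ⟨?_, hx.2⟩
        intro j
        have h1 := hx.1 j
        simp only [hlo', hlo] at h1 ⊢
        split_ifs at h1 <;> linarith
    have hcross : ∀ e ∈ es (Finset.Icc lo' hi), (e.1 ∈ W ↔ tgt e ∈ W) := by
      intro e he
      by_contra hc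
      rw [mem_es] at he
      have h1 := hFa _ he.1
      have h2 := hFa _ he.2
      have h3 : e ∈ bdy (Finset.Icc lo hi) W := mem_bdy.2 ⟨mem_es.2 ⟨h1.2, h2.2⟩, hc⟩
      have h4 := hbd e h3
      by_cases h5 : e.1 ∈ W
      · have := abs_le.1 (hN _ (h4.1 h5) i)
        linarith [this.2, h1.1]
      · have h6 : tgt e ∈ W := by
          by_contra h6
          exact hc ⟨fun h => absurd h h5, fun h => absurd h h6⟩
        have := abs_le.1 (hN _ (h4.2 h6) i)
        linarith [this.2, h2.1]
    have hhiF : hi ∈ Finset.Icc lo' hi := by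
      rw [Finset.mem_Icc]
      refine ⟨?_, le_rfl⟩
      intro j
      simp only [hlo', hhi]
      split_ifs <;> linarith
    have hFW : ∀ x ∈ Finset.Icc lo' hi, x ∉ W := by
      intro x hx hxW
      exact hz1W ((con_iff hcross (h_BCN d lo' hi x hx hi hhiF)).1 hxW)
    have hzi := abs_le.1 (hN z hz i)
    obtain ⟨T, hT⟩ : ∃ T : ℕ, (T : ℤ) = (N : ℤ) + 1 - z i :=
      ⟨((N : ℤ) + 1 - z i).toNat, Int.toNat_of_nonneg (by linarith)⟩
    have hTW : z + Pi.single i (T : ℤ) ∉ W := by
      apply hFW
      rw [Finset.mem_Icc]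
      constructor
      · intro j
        rw [Pi.add_apply]
        have hzj := abs_le.1 (hN z hz j)
        by_cases hj : j = i
        · subst hj
          rw [Pi.single_eq_same]
          simp only [hlo', if_true]
          linarith
        · rw [Pi.single_eq_of_ne hj]
          simp only [hlo', if_neg hj]
          linarith
      · intro j
        rw [Pi.add_apply]
        have hzj := abs_le.1 (hN z hz j)
        by_cases hj : j = i
        · subst hj
          rw [Pi.single_eq_same]
          simp only [hhi]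
          linarith
        · rw [Pi.single_eq_of_ne hj]
          simp only [hhi]
          linarith
    have hex : ∃ t : ℕ, z + Pi.single i (t : ℤ) ∉ W := ⟨T, hTW⟩
    have hspec := Nat.find_spec hex
    have hle : Nat.find hex ≤ T := Nat.find_min' hex hTW
    have hpos : Nat.find hex ≠ 0 := by
      intro h
      rw [h] at hspec
      apply hspec
      have h1 : z + Pi.single i ((0 : ℕ) : ℤ) = z := by simp
      rw [h1]
      exact hAW hz
    obtain ⟨t, ht⟩ := Nat.exists_eq_succ_of_ne_zero hpos
    have htW : z + Pi.single i (t : ℤ) ∈ W := by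
      by_contra hc
      have := Nat.find_min' hex hc
      omega
    refine ⟨t, mem_bdy.2 ⟨mem_es.2 ⟨hWJ htW, ?_⟩, ?_⟩⟩
    · rw [tgt_add, Finset.mem_Icc]
      have hz' := Finset.mem_Icc.1 (hAJ hz)
      have htT : ((t + 1 : ℕ) : ℤ) ≤ (N : ℤ) + 1 - z i := by
        rw [← hT]
        have : t + 1 ≤ T := by omega
        exact_mod_cast this
      constructor
      · intro j
        rw [Pi.add_apply]
        have h1 := hz'.1 j
        by_cases hj : j = i
        · subst hj
          rw [Pi.single_eq_same]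
          have : (0 : ℤ) ≤ ((t + 1 : ℕ) : ℤ) := by positivity
          linarith
        · rw [Pi.single_eq_of_ne hj, add_zero]
          exact h1
      · intro j
        rw [Pi.add_apply]
        have h1 := hz'.2 j
        by_cases hj : j = i
        · subst hj
          rw [Pi.single_eq_same]
          simp only [hhi]
          linarith
        · rw [Pi.single_eq_of_ne hj, add_zero]
          exact h1
    · intro hc
      rw [tgt_add] at hc
      have h1 := hc.1 htW
      rw [ht] at hspec
      exact hspec h1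

end Pool.Agent.FKP
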