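import Pool.Agent.FKP.PartC
import Pool.Agent.FKP.Lem

/-!
# Project FKP, job GBL: being good is a local event
-/

set_option autoImplicit false

namespace Pool.Agent.FKP

open Pool.Agent.FKT

namespace GBL_

variable {d : ℕ}

theorem mem_bx {x w : Vx d} {n : ℕ} : w ∈ bx x n ↔ ∀ i, x i - n ≤ w i ∧ w i ≤ x i + n := by
  simp only [bx, Finset.mem_Icc, Pi.le_def]
  constructor
  · intro h i; exact ⟨h.1 i, h.2 i⟩
  · intro h; exact ⟨fun i => (h i).1, fun i => (h i).2⟩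

theorem coe_rs (F : Finset (Ed d)) (O : Set (Ed d)) :
    ((rs F O : Finset (Ed d)) : Set (Ed d)) = O ∩ (F : Set (Ed d)) := by
  ext e; simp [rs, and_comm]

theorem key {F G : Finset (Ed d)} (O : Set (Ed d)) (h : G ⊆ F) :
    ((rs F O : Finset (Ed d)) : Set (Ed d)) ∩ (G : Set (Ed d)) = O ∩ (G : Set (Ed d)) := by
  rw [coe_rs, Set.inter_assoc, Set.inter_eq_right.2 (Finset.coe_subset.2 h)]

theorem sub_of_mem {v y : Vx d} {b : ℕ} (h : y ∈ bx v (3 * b + 1)) :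
    bx y b ⊆ bx v (4 * b + 2) := by
  rw [mem_bx] at h
  intro w hw
  rw [mem_bx] at hw ⊢
  intro i
  have h1 := h i
  have h2 := hw i
  push_cast at h1 h2 ⊢
  constructor <;> linarith [h1.1, h1.2, h2.1, h2.2]

theorem eb_sub {v y : Vx d} {b : ℕ} (h : y ∈ bx v (3 * b + 1)) :
    eb y b ⊆ eb v (4 * b + 2) := by
  rw [← es_bx, ← es_bx]
  exact es_mono (sub_of_mem h)

theorem blk {v y z : Vx d} {b : ℕ} (hz : z ∈ bx (0 : Vx d) 1) (hy : y ∈ bx (v + cc b z) b) :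
    y ∈ bx v (3 * b + 1) := by
  rw [mem_bx] at hz hy ⊢
  intro i
  have h1 := hz i
  have h2 := hy i
  simp only [Pi.zero_apply, Pi.add_apply, cc, zero_sub, zero_add, Nat.cast_one] at h1 h2
  have hb : (0 : ℤ) ≤ 2 * (b : ℤ) + 1 := by positivity
  have h3 : (2 * (b : ℤ) + 1) * z i ≤ (2 * (b : ℤ) + 1) * 1 := mul_le_mul_of_nonneg_left h1.2 hb
  have h4 : (2 * (b : ℤ) + 1) * (-1) ≤ (2 * (b : ℤ) + 1) * z i :=
    mul_le_mul_of_nonneg_left h1.1 hb
  push_cast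
  constructor <;> linarith [h2.1, h2.2]

theorem arm {v y : Vx d} {b : ℕ} (O : Set (Ed d)) (h : y ∈ bx v (3 * b + 1)) :
    Arm ((rs (eb v (4 * b + 2)) O : Finset (Ed d)) : Set (Ed d)) y b ↔ Arm O y b := by
  unfold Arm
  rw [key O (eb_sub h)]

end GBL_

theorem p_GBL : T_GBL := by
  intro d O v b
  unfold GB
  rw [GBL_.key O (Finset.Subset.refl (eb v (4 * b + 2)))]
  constructor
  · rintro ⟨h1, h2⟩
    refine ⟨fun z hz => ?_, fun x hx y hy hax hay => ?_⟩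
    · obtain ⟨y, hy, ha⟩ := h1 z hz
      exact ⟨y, hy, (GBL_.arm O (GBL_.blk hz hy)).2 ha⟩
    · exact h2 x hx y hy ((GBL_.arm O hx).1 hax) ((GBL_.arm O hy).1 hay)
  · rintro ⟨h1, h2⟩
    refine ⟨fun z hz => ?_, fun x hx y hy hax hay => ?_⟩
    · obtain ⟨y, hy, ha⟩ := h1 z hz
      exact ⟨y, hy, (GBL_.arm O (GBL_.blk hz hy)).1 ha⟩
    · exact h2 x hx y hy ((GBL_.arm O hx).2 hax) ((GBL_.arm O hy).2 hay)

end Pool.Agent.FKP
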