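import Pool.Agent.FKP.Basic
import Pool.Agent.FKP.Lem

/-!
# FKP, MAR: the spatial Markov property
-/

set_option autoImplicit false

namespace Pool.Agent.FKP

open Pool.Agent.FKT

namespace MAR_

variable {V E : Type} [DecidableEq E]

theorem step_eq (s t : E → V) (R : V → V → Prop) (α β : Finset E) :
    Step s t (wir s t R (α : Set E)) (β : Set E) = Step s t R ((α ∪ β : Finset E) : Set E) := by
  funext a b
  apply propext
  unfold wir Step
  constructor
  · rintro ((h | ⟨e, he, h1, h2⟩) | ⟨e, he, h1, h2⟩)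
    · exact Or.inl h
    · exact Or.inr ⟨e, Finset.mem_coe.2 (Finset.mem_union_left _ (Finset.mem_coe.1 he)), h1, h2⟩
    · exact Or.inr ⟨e, Finset.mem_coe.2 (Finset.mem_union_right _ (Finset.mem_coe.1 he)), h1, h2⟩
  · rintro (h | ⟨e, he, h1, h2⟩)
    · exact Or.inl (Or.inl h)
    · rcases Finset.mem_union.1 (Finset.mem_coe.1 he) with h | h
      · exact Or.inl (Or.inr ⟨e, Finset.mem_coe.2 h, h1, h2⟩)
      · exact Or.inr ⟨e, Finset.mem_coe.2 h, h1, h2⟩

theorem ncl_eq (s t : E → V) (R : V → V → Prop) (U : Finset V) (α β : Finset E) :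
    ncl s t (wir s t R (α : Set E)) U (β : Set E) =
      ncl s t R U ((α ∪ β : Finset E) : Set E) := by
  unfold ncl clus FKT.Con
  rw [step_eq]

theorem bw_union {p : ℝ} {G G1 α β : Finset E} (hG : G1 ⊆ G) (hα : α ⊆ G \ G1) (hβ : β ⊆ G1) :
    bw p G (α ∪ β) = bw p (G \ G1) α * bw p G1 β := by
  have hd : Disjoint α β := by
    rw [Finset.disjoint_left]
    intro e h1 h2
    exact (Finset.mem_sdiff.1 (hα h1)).2 (hβ h2)
  have c1 : (α ∪ β).card = α.card + β.card := Finset.card_union_of_disjoint hd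
  have c2 : (G \ G1).card + G1.card = G.card := Finset.card_sdiff_add_card_eq_card hG
  have c3 := Finset.card_le_card hα
  have c4 := Finset.card_le_card hβ
  have c5 : G.card - (α ∪ β).card = ((G \ G1).card - α.card) + (G1.card - β.card) := by omega
  unfold bw
  rw [c5, c1, pow_add, pow_add]
  ring

theorem wt_union (s t : E → V) (R : V → V → Prop) (U : Finset V) {p q : ℝ}
    {G G1 α β : Finset E} (hG : G1 ⊆ G) (hα : α ⊆ G \ G1) (hβ : β ⊆ G1) :
    wt s t R U G p q (α ∪ β) =
      bw p (G \ G1) α * wt s t (wir s t R (α : Set E)) U G1 p q β := by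
  unfold wt
  rw [bw_union hG hα hβ, ncl_eq]
  ring

theorem sum_split {G G1 : Finset E} (hG : G1 ⊆ G) (f : Finset E → ℝ) :
    ∑ ω ∈ G.powerset, f ω =
      ∑ α ∈ (G \ G1).powerset, ∑ β ∈ G1.powerset, f (α ∪ β) := by
  rw [← Finset.sum_product']
  symm
  refine Finset.sum_nbij' (fun x : Finset E × Finset E => x.1 ∪ x.2)
    (fun ω => (ω \ G1, ω ∩ G1)) ?_ ?_ ?_ ?_ ?_
  · rintro ⟨α, β⟩ h
    rw [Finset.mem_product, Finset.mem_powerset, Finset.mem_powerset] at h
    rw [Finset.mem_powerset]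
    exact Finset.union_subset (h.1.trans Finset.sdiff_subset) (h.2.trans hG)
  · intro ω h
    rw [Finset.mem_powerset] at h
    rw [Finset.mem_product, Finset.mem_powerset, Finset.mem_powerset]
    exact ⟨Finset.sdiff_subset_sdiff h subset_rfl, Finset.inter_subset_right⟩
  · rintro ⟨α, β⟩ h
    rw [Finset.mem_product, Finset.mem_powerset, Finset.mem_powerset] at h
    have h1 := h.1
    have h2 := h.2
    refine Prod.ext ?_ ?_
    · ext e
      simp only [Finset.mem_sdiff, Finset.mem_union]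
      constructor
      · rintro ⟨h3 | h3, h4⟩
        · exact h3
        · exact absurd (h2 h3) h4
      · intro h3
        exact ⟨Or.inl h3, (Finset.mem_sdiff.1 (h1 h3)).2⟩
    · ext e
      simp only [Finset.mem_inter, Finset.mem_union]
      constructor
      · rintro ⟨h3 | h3, h4⟩
        · exact absurd h4 (Finset.mem_sdiff.1 (h1 h3)).2
        · exact h3
      · intro h3
        exact ⟨Or.inr h3, h2 h3⟩
  · intro ω _
    exact Finset.sdiff_union_inter ω G1
  · rintro ⟨α, β⟩ _
    rfl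

end MAR_

open MAR_ in
/-- MAR: the spatial Markov property. -/
theorem p_MAR : T_MAR := by
  intro V E _ s t R U G G1 p q hp hp1 hq hG F
  unfold Ex
  congr 1
  rw [sum_split hG, sum_split hG]
  refine Finset.sum_congr rfl fun α hα => ?_
  rw [Finset.mem_powerset] at hα
  have hsplit : ∀ β ∈ G1.powerset, (α ∪ β) \ G1 = α ∧ (α ∪ β) ∩ G1 = β := by
    intro β hβ
    rw [Finset.mem_powerset] at hβ
    constructor
    · ext e
      simp only [Finset.mem_sdiff, Finset.mem_union]
      constructor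
      · rintro ⟨h3 | h3, h4⟩
        · exact h3
        · exact absurd (hβ h3) h4
      · intro h3
        exact ⟨Or.inl h3, (Finset.mem_sdiff.1 (hα h3)).2⟩
    · ext e
      simp only [Finset.mem_inter, Finset.mem_union]
      constructor
      · rintro ⟨h3 | h3, h4⟩
        · exact absurd h4 (Finset.mem_sdiff.1 (hα h3)).2
        · exact h3
      · intro h3
        exact ⟨Or.inr h3, hβ h3⟩
  have hZ : (0 : ℝ) < ∑ β ∈ G1.powerset, wt s t (wir s t R (α : Set E)) U G1 p q β :=
    Z_pos hp hp1 hq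
  have hL : ∑ β ∈ G1.powerset, wt s t R U G p q (α ∪ β) *
      F ((α ∪ β) \ G1) ((α ∪ β) ∩ G1) = bw p (G \ G1) α *
        ∑ β ∈ G1.powerset, wt s t (wir s t R (α : Set E)) U G1 p q β * F α β := by
    rw [Finset.mul_sum]
    refine Finset.sum_congr rfl fun β hβ => ?_
    rw [(hsplit β hβ).1, (hsplit β hβ).2, wt_union s t R U hG hα (Finset.mem_powerset.1 hβ)]
    ring
  rw [hL]
  set c : ℝ := (∑ β ∈ G1.powerset, wt s t (wir s t R (α : Set E)) U G1 p q β * F α β) /
    ∑ β ∈ G1.powerset, wt s t (wir s t R (α : Set E)) U G1 p q β with hc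
  have hR : ∀ β ∈ G1.powerset, wt s t R U G p q (α ∪ β) *
      ((∑ ω ∈ G1.powerset, wt s t (wir s t R (((α ∪ β) \ G1 : Finset E) : Set E)) U G1 p q ω *
        F ((α ∪ β) \ G1) ω) /
        ∑ ω ∈ G1.powerset, wt s t (wir s t R (((α ∪ β) \ G1 : Finset E) : Set E)) U G1 p q ω) =
      bw p (G \ G1) α * wt s t (wir s t R (α : Set E)) U G1 p q β * c := by
    intro β hβ
    rw [(hsplit β hβ).1, wt_union s t R U hG hα (Finset.mem_powerset.1 hβ)]
  rw [Finset.sum_congr rfl hR, ← Finset.sum_mul, ← Finset.mul_sum, hc, mul_assoc]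
  congr 1
  rw [mul_div_assoc', mul_comm, mul_div_assoc, div_self hZ.ne', mul_one]

end Pool.Agent.FKP
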