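import Pool.Agent.FKP.Basic

set_option autoImplicit false

namespace Pool.Agent.FKP

open Pool.Agent.FKT

/-- The points of a box, coordinatewise. -/
lemma pon_mem {n : ℕ} {a b x : Vx n} :
    x ∈ Finset.Icc a b ↔ ∀ l, a l ≤ x l ∧ x l ≤ b l := by
  rw [Finset.mem_Icc, Pi.le_def, Pi.le_def]
  constructor
  · rintro ⟨h1, h2⟩ l
    exact ⟨h1 l, h2 l⟩
  · intro h
    exact ⟨fun l => (h l).1, fun l => (h l).2⟩

lemma pon_zmod (u : ZMod 2) : u + u = 0 := CharTwo.add_self_eq_zero u

theorem pon_step {n : ℕ} (a b : Vx n) (g : Ed n → ZMod 2)
    (hg : ∀ (x : Vx n) (i j : Fin n), i ≠ j → x ∈ Finset.Icc a b →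
      x + Pi.single i 1 + Pi.single j 1 ∈ Finset.Icc a b →
        g (x, i) + g (x + Pi.single i 1, j) + g (x + Pi.single j 1, i) + g (x, j) = 0) :
    ∀ k : ℕ, k ≤ n → ∃ f : Vx n → ZMod 2, ∀ (x : Vx n) (i : Fin n), i.val < k →
      x ∈ Finset.Icc a b → x + Pi.single i 1 ∈ Finset.Icc a b →
        g (x, i) = f x + f (x + Pi.single i 1) := by
  intro k
  induction k with
  | zero =>
    intro _
    exact ⟨fun _ => 0, fun x i hi => absurd hi (Nat.not_lt_zero _)⟩
  | succ k ih =>
    intro hk
    obtain ⟨f, hf⟩ := ih (by omega)
    set κ : Fin n := ⟨k, by omega⟩ with hκ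
    set g' : Ed n → ZMod 2 := fun e => g e + (f e.1 + f (e.1 + Pi.single e.2 1)) with hg'
    have hcl : ∀ (x : Vx n) (i j : Fin n), i ≠ j → x ∈ Finset.Icc a b →
        x + Pi.single i 1 + Pi.single j 1 ∈ Finset.Icc a b →
        g' (x, i) + g' (x + Pi.single i 1, j) + g' (x + Pi.single j 1, i) + g' (x, j) = 0 := by
      intro x i j hij hx hxij
      have h0 := hg x i j hij hx hxij
      simp only [hg']
      have hcomm : x + Pi.single j 1 + Pi.single i 1 = x + Pi.single i 1 + Pi.single j 1 := by
        rw [add_right_comm]
      rw [hcomm]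
      have e1 := pon_zmod (f x)
      have e2 := pon_zmod (f (x + Pi.single i 1))
      have e3 := pon_zmod (f (x + Pi.single j 1))
      have e4 := pon_zmod (f (x + Pi.single i 1 + Pi.single j 1))
      linear_combination h0 + e1 + e2 + e3 + e4
    have hzero : ∀ (x : Vx n) (i : Fin n), i.val < k → x ∈ Finset.Icc a b →
        x + Pi.single i 1 ∈ Finset.Icc a b → g' (x, i) = 0 := by
      intro x i hi hx hxi
      simp only [hg']
      rw [hf x i hi hx hxi]
      exact pon_zmod _
    set y : Vx n → ℕ → Vx n := fun x t => Function.update x κ (a κ + t) with hy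
    set h : Vx n → ZMod 2 := fun x => ∑ t ∈ Finset.range (x κ - a κ).toNat, g' (y x t, κ) with hh
    have hκedge : ∀ x : Vx n, x ∈ Finset.Icc a b →
        h x + h (x + Pi.single κ 1) = g' (x, κ) := by
      intro x hx
      have hxκ := (pon_mem.mp hx κ).1
      have e1 : (x + Pi.single κ 1 : Vx n) κ = x κ + 1 := by simp
      have e2 : ((x + Pi.single κ 1 : Vx n) κ - a κ).toNat = (x κ - a κ).toNat + 1 := by
        rw [e1]
        omega
      have e3 : ∀ t, y (x + Pi.single κ 1) t = y x t := by
        intro t
        simp only [hy]
        funext l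
        by_cases hl : l = κ
        · subst hl
          simp
        · rw [Function.update_of_ne hl, Function.update_of_ne hl, Pi.add_apply,
            Pi.single_eq_of_ne hl, add_zero]
      have e4 : y x (x κ - a κ).toNat = x := by
        simp only [hy]
        have : a κ + ((x κ - a κ).toNat : ℤ) = x κ := by omega
        rw [this, Function.update_eq_self]
      simp only [hh]
      rw [e2, Finset.sum_range_succ]
      simp only [e3, e4]
      have := pon_zmod (∑ t ∈ Finset.range (x κ - a κ).toNat, g' (y x t, κ))
      linear_combination this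
    have hiedge : ∀ (x : Vx n) (i : Fin n), i.val < k → x ∈ Finset.Icc a b →
        x + Pi.single i 1 ∈ Finset.Icc a b → h x + h (x + Pi.single i 1) = 0 := by
      intro x i hi hx hxi
      have hiκ : i ≠ κ := by
        intro hc
        rw [hc] at hi
        simp [hκ] at hi
      have e1 : (x + Pi.single i 1 : Vx n) κ = x κ := by
        rw [Pi.add_apply, Pi.single_eq_of_ne (Ne.symm hiκ), add_zero]
      have e2 : ∀ t, y (x + Pi.single i 1) t = y x t + Pi.single i 1 := by
        intro t
        simp only [hy]
        funext l
        by_cases hl : l = κ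
        · subst hl
          rw [Pi.add_apply, Function.update_self, Function.update_self,
            Pi.single_eq_of_ne (Ne.symm hiκ), add_zero]
        · rw [Pi.add_apply, Function.update_of_ne hl, Function.update_of_ne hl, Pi.add_apply]
      simp only [hh]
      rw [e1, ← Finset.sum_add_distrib]
      apply Finset.sum_eq_zero
      intro t ht
      rw [e2 t]
      have htr := Finset.mem_range.mp ht
      have hx' := pon_mem.mp hx
      have hxi' := pon_mem.mp hxi
      have hyt : ∀ l, y x t l = if l = κ then a κ + t else x l := by
        intro l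
        simp only [hy]
        by_cases hl : l = κ
        · subst hl
          simp
        · rw [Function.update_of_ne hl, if_neg hl]
      have m1 : y x t ∈ Finset.Icc a b := by
        rw [pon_mem]
        intro l
        rw [hyt l]
        have := hx' l
        split_ifs with hl
        · subst hl
          omega
        · exact this
      have m2 : y x t + Pi.single i 1 + Pi.single κ 1 ∈ Finset.Icc a b := by
        rw [pon_mem]
        intro l
        rw [Pi.add_apply, Pi.add_apply, hyt l]
        have h1 := hx' l
        have h2 := hxi' l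
        rw [Pi.add_apply] at h2
        split_ifs with hl
        · subst hl
          rw [Pi.single_eq_of_ne (Ne.symm hiκ), Pi.single_eq_same]
          omega
        · rw [Pi.single_eq_of_ne (i := κ) hl]
          omega
      have m3 : y x t + Pi.single i 1 ∈ Finset.Icc a b := by
        rw [pon_mem]
        intro l
        rw [Pi.add_apply, hyt l]
        have h1 := hx' l
        have h2 := hxi' l
        rw [Pi.add_apply] at h2
        split_ifs with hl
        · subst hl
          rw [Pi.single_eq_of_ne (Ne.symm hiκ)]
          omega
        · omega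
      have m4 : y x t + Pi.single κ 1 ∈ Finset.Icc a b := by
        rw [pon_mem]
        intro l
        rw [Pi.add_apply, hyt l]
        have h1 := hx' l
        split_ifs with hl
        · subst hl
          rw [Pi.single_eq_same]
          omega
        · rw [Pi.single_eq_of_ne (i := κ) hl]
          omega
      have c0 := hcl (y x t) i κ hiκ m1 m2
      rw [hzero (y x t) i hi m1 m3, hzero (y x t + Pi.single κ 1) i hi m4
        (by rw [add_right_comm]; exact m2)] at c0
      linear_combination c0
    refine ⟨fun x => f x + h x, ?_⟩
    intro x i hi hx hxi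
    rcases Nat.lt_succ_iff_lt_or_eq.mp hi with hlt | heq
    · have h1 := hf x i hlt hx hxi
      have h2 := hiedge x i hlt hx hxi
      linear_combination h1 - h2
    · have hiκ : i = κ := Fin.ext heq
      subst hiκ
      have h1 := hκedge x hx
      have h2 : g' (x, κ) = g (x, κ) + (f x + f (x + Pi.single κ 1)) := rfl
      have e1 := pon_zmod (f x)
      have e2 := pon_zmod (f (x + Pi.single κ 1))
      rw [h2] at h1
      linear_combination -h1 - e1 - e2

theorem t_pon : T_PON := by
  intro n a b g hg
  obtain ⟨f, hf⟩ := pon_step a b g hg n le_rfl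
  refine ⟨f, ?_⟩
  rintro ⟨x, i⟩ he
  simp only [es, Finset.mem_filter, Finset.mem_product] at he
  exact hf x i i.isLt he.1.1 he.2

end Pool.Agent.FKP
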