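import Pool.Agent.FKP.PartC2
import Pool.Agent.FKP.Lem

/-!
# Project FKP: TAI, the tails for large `n`
-/

set_option autoImplicit false

namespace Pool.Agent.FKP

open MeasureTheory Pool.Agent.FKT

namespace TAI_

theorem geo (m : ℕ) : ∑' j : ℕ, ((1 : ℝ) / 2) ^ (m + 1 + j) = (1 / 2) ^ m := by
  have h : ∀ j : ℕ, ((1 : ℝ) / 2) ^ (m + 1 + j) = (1 / 2) ^ (m + 1) * (1 / 2) ^ j := by
    intro j
    rw [pow_add]
  simp_rw [h]
  rw [tsum_mul_left, tsum_geometric_two, pow_succ]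
  ring

theorem geo_sum (m : ℕ) : Summable fun j : ℕ => ((1 : ℝ) / 2) ^ (m + 1 + j) := by
  have h : ∀ j : ℕ, ((1 : ℝ) / 2) ^ (m + 1 + j) = (1 / 2) ^ (m + 1) * (1 / 2) ^ j := by
    intro j
    rw [pow_add]
  simp_rw [h]
  exact summable_geometric_two.mul_left _

/-- The union bound. -/
theorem tail {Ω : Type} [MeasurableSpace Ω] (μ : Measure Ω) [IsProbabilityMeasure μ]
    (A : ℕ → Set Ω) (h : ∀ k, μ.real (A k) ≤ (1 / 2) ^ k) (S : Set Ω) (m : ℕ)
    (hS : ∀ ω ∈ S, ∃ k, m < k ∧ ω ∈ A k) : μ.real S ≤ (1 / 2) ^ m := by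
  have h1 : S ⊆ ⋃ j : ℕ, A (m + 1 + j) := by
    intro ω hω
    obtain ⟨k, hk, hA⟩ := hS ω hω
    rw [Set.mem_iUnion]
    refine ⟨k - (m + 1), ?_⟩
    rwa [Nat.add_sub_cancel' hk]
  have h2 : μ S ≤ ∑' j : ℕ, μ (A (m + 1 + j)) :=
    (measure_mono h1).trans (measure_iUnion_le _)
  have h3 : ∑' j : ℕ, μ (A (m + 1 + j)) ≤
      ∑' j : ℕ, ENNReal.ofReal ((1 / 2) ^ (m + 1 + j)) := by
    apply ENNReal.tsum_le_tsum
    intro j
    rw [← ofReal_measureReal]
    exact ENNReal.ofReal_le_ofReal (h _)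
  have h4 : ∑' j : ℕ, ENNReal.ofReal ((1 / 2) ^ (m + 1 + j)) =
      ENNReal.ofReal ((1 / 2) ^ m) := by
    rw [← geo m]
    exact (ENNReal.ofReal_tsum_of_nonneg (fun j => by positivity) (geo_sum m)).symm
  have h5 : μ S ≤ ENNReal.ofReal ((1 / 2) ^ m) := by
    rw [← h4]
    exact h2.trans h3
  exact ENNReal.toReal_le_of_le_ofReal (by positivity) h5

theorem card_box (d c : ℕ) : (bx (0 : Vx d) c).card = (2 * c + 1) ^ d := by
  unfold bx
  rw [Pi.card_Icc]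
  have h : ∀ i : Fin d, (Finset.Icc ((0 : Vx d) i - (c : ℤ)) ((0 : Vx d) i + (c : ℤ))).card =
      2 * c + 1 := by
    intro i
    rw [Int.card_Icc, Pi.zero_apply]
    omega
  rw [Finset.prod_congr rfl fun i _ => h i, Finset.prod_const, Finset.card_univ,
    Fintype.card_fin]

theorem not_box {d c : ℕ} {v : Vx d} (h : v ∉ bx (0 : Vx d) c) : ∃ i, (c : ℤ) < |v i| := by
  by_contra hcon
  push Not at hcon
  apply h
  unfold bx
  rw [Finset.mem_Icc]
  constructor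
  · intro i
    have h1 := hcon i
    have h2 := abs_le.mp h1
    show (0 : Vx d) i - (c : ℤ) ≤ v i
    rw [Pi.zero_apply]
    linarith [h2.1]
  · intro i
    have h1 := hcon i
    have h2 := abs_le.mp h1
    show v i ≤ (0 : Vx d) i + (c : ℤ)
    rw [Pi.zero_apply]
    linarith [h2.2]

end TAI_

open TAI_ in
theorem p_TAI (h_PED : T_PED) : T_TAI := by
  intro d b hd μ hμ hE
  constructor
  · intro n m hn hm
    apply tail μ (Ev d b) hE
    intro ω hω
    obtain ⟨hfin, v, hv, i, hi⟩ := hω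
    obtain ⟨k, hk, hb, _⟩ := h_PED d b hd ω hfin ⟨v, hv, i, by
      have : (2 * b : ℤ) ≤ n := by exact_mod_cast hn
      linarith⟩
    refine ⟨k, ?_, hk⟩
    have h1 := hb v hv i
    have h2 : ((2 * b + 1) * m : ℤ) ≤ n := by exact_mod_cast hm
    have h3 : (2 * (b : ℤ) + 1) * m < (2 * (b : ℤ) + 1) * k := by linarith
    have h4 : (m : ℤ) < k := lt_of_mul_lt_mul_left h3 (by positivity)
    exact_mod_cast h4
  · intro n m hn hm
    apply tail μ (Ev d b) hE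
    intro ω hω
    obtain ⟨hfin, hc⟩ := hω
    have h1 : ∃ v ∈ C0 ω, v ∉ bx (0 : Vx d) (2 * b) := by
      by_contra hcon
      push Not at hcon
      have h2 : C0 ω ⊆ ((bx (0 : Vx d) (2 * b) : Finset (Vx d)) : Set (Vx d)) := by
        intro v hv
        exact_mod_cast hcon v hv
      have h3 : (C0 ω).ncard ≤ (bx (0 : Vx d) (2 * b)).card := by
        rw [← Set.ncard_coe_finset]
        exact Set.ncard_le_ncard h2 (Finset.finite_toSet _)
      rw [card_box] at h3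
      have h4 : 2 * (2 * b) + 1 = 4 * b + 1 := by ring
      rw [h4] at h3
      omega
    obtain ⟨v, hv, hvb⟩ := h1
    obtain ⟨i, hi⟩ := not_box hvb
    obtain ⟨k, hk, _, hb⟩ := h_PED d b hd ω hfin ⟨v, hv, i, by
      have h2 : ((2 * b : ℕ) : ℤ) = 2 * (b : ℤ) := by push_cast; ring
      rw [h2] at hi
      exact hi.le⟩
    refine ⟨k, ?_, hk⟩
    have h2 : n ^ (d - 1) ≤ (C0 ω).ncard ^ (d - 1) := Nat.pow_le_pow_left hc _
    have h3 : ((2 * b + 1) ^ d) ^ (d - 1) * m ^ d < ((2 * b + 1) ^ d) ^ (d - 1) * k ^ d :=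
      lt_of_lt_of_le hm (h2.trans hb)
    have h4 : m ^ d < k ^ d := lt_of_mul_lt_mul_left h3 (Nat.zero_le _)
    exact lt_of_pow_lt_pow_left₀ d (Nat.zero_le _) h4

end Pool.Agent.FKP
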