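import Pool.Agent.FKP.Main
import Pool.Agent.FKP.Basic
import Pool.Agent.FKT.TargetsA
import Pool.Agent.FKT.TargetsB

/-!
# Project FKP, part A: the two-point function and the seeds (mixing by convexity)

`T_TPF`, `T_SEE` are stated in `FKP/Main.lean`. Results of project FKT are used: T_QBK (two-arm
bound), T_SUR (surgery), T_FEN (finite energy for the wired measure), T_TAS, T_LOC, T_INV, T_DOM,
T_TRA, T_FKG, T_CNT (files `FKT/TargetsA.lean`, `FKT/TargetsB.lean`; all of them are proved in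
`FKT/P_*.lean`).
-/

set_option autoImplicit false

namespace Pool.Agent.FKP

open Filter MeasureTheory Pool.Agent.FKT

/-- INC. Comparison of two measures on increasing local events. Proof: the function
`g ω = Σ_{e ∈ F} ind (e ∈ ω) - ind (Q (ω ∩ F))` is increasing in `ω`: for `a ⊆ b`, if
`a ∩ F = b ∩ F` it does not change; otherwise the sum increases by at least `1` and the second
term by at most `1` (`Q` increasing, values in `{0, 1}`). By the hypothesis for `g`,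
`Ex1 g ≤ Ex2 g` (here `Ex1`, `Ex2` are linear functionals given as `Ex`). -/
def T_INC : Prop := ∀ (V E : Type) [DecidableEq E] (s t : E → V) (R R' : V → V → Prop)
  (U U' : Finset V) (G : Finset E) (p q : ℝ), 0 < p → p < 1 → 0 < q →
  (∀ f : Finset E → ℝ, (∀ a b : Finset E, a ⊆ b → f a ≤ f b) →
    Ex s t R U G p q f ≤ Ex s t R' U' G p q f) →
  ∀ (F : Finset E) (Q : Finset E → Prop), (∀ a b : Finset E, a ⊆ b → Q a → Q b) →
    Ex s t R' U' G p q (fun ω => ind (Q (ω ∩ F))) - Ex s t R U G p q (fun ω => ind (Q (ω ∩ F))) ≤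
      ∑ e ∈ F, (Ex s t R' U' G p q (fun ω => ind (e ∈ ω)) -
        Ex s t R U G p q fun ω => ind (e ∈ ω))

/-- ZRA. The effect of the wired boundary on the number of clusters. Proof: the first inequality:
more connections. The second one: the clusters of the free boundary condition which do not meet
`bd 0 n` are also clusters of the wired one; those which meet `bd 0 n` are at most `|bd 0 n|` in
number (each contains a point of `bd 0 n`). -/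
def T_ZRA : Prop := ∀ (d n : ℕ) (ω : Finset (Ed d)),
  ncl Prod.fst tgt (Wir (0 : Vx d) n) (bx 0 n) (ω : Set (Ed d)) ≤
    ncl Prod.fst tgt (no (Vx d)) (bx (0 : Vx d) n) (ω : Set (Ed d)) ∧
  ncl Prod.fst tgt (no (Vx d)) (bx (0 : Vx d) n) (ω : Set (Ed d)) ≤
    ncl Prod.fst tgt (Wir (0 : Vx d) n) (bx 0 n) (ω : Set (Ed d)) + (bd (0 : Vx d) n).card

/-- MVT. The total influence of the boundary for some parameter. Proof: for a wiring `R` let
`Z_R l = Σ_{ω ⊆ G} exp (l |ω|) q^(ncl R ω)`, `G = eb 0 n`. Then `Z_R > 0`, and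
`(log Z_R)' l = Σ exp (l |ω|) q^ncl |ω| / Z_R = Ex R (lg l) |ω| = Σ_{e ∈ G} Ex R (lg l) (1_{e ∈ ω})`
(`bw (lg l) G ω = exp (l |ω|) / (1 + exp l)^|G|` for `ω ⊆ G`). By T_ZRA
`0 ≤ log Z_no - log Z_Wir ≤ |bd 0 n| log q`. The mean value theorem (`exists_deriv_eq_slope` or
`exists_hasDerivAt_eq_slope`) for `F = log Z_Wir - log Z_no` on `[la, lb]`: there is `l` with
`F' l = (F lb - F la) / (lb - la) ≤ |bd 0 n| log q / (lb - la)`. Hypothesis: T_ZRA. -/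
def T_MVT : Prop := ∀ (d n : ℕ) (q la lb : ℝ), 1 ≤ q → la < lb → ∃ l : ℝ, la ≤ l ∧ l ≤ lb ∧
  ∑ e ∈ eb (0 : Vx d) n, (phi (0 : Vx d) n (lg l) q (fun ω => ind (e ∈ ω)) -
    fr (bx (0 : Vx d) n) (lg l) q fun ω => ind (e ∈ ω)) ≤
      (bd (0 : Vx d) n).card * Real.log q / (lb - la)

/-- AVY. A good translate. Proof: `m ≤ n`. If for all `y ∈ bx 0 (n - m)` the sum over `eb y m`
were larger than `c`, then summing over `y`: `eb y m ⊆ eb 0 n`, and every `e` is in `eb y m` for at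
most `(2 m + 1)^d` points `y` (`y ∈ bx e.1 m`), so
`(2 (n - m) + 1)^d c < (2 m + 1)^d Σ_{e ∈ eb 0 n} g e ≤ (2 m + 1)^d T`, while
`(2 (n - m) + 1)^d = |bx 0 (n - m)|`. -/
def T_AVY : Prop := ∀ (d m n : ℕ) (g : Ed d → ℝ) (T : ℝ), m ≤ n → (∀ e, 0 ≤ g e) →
  ∑ e ∈ eb (0 : Vx d) n, g e ≤ T → ∃ y ∈ bx (0 : Vx d) (n - m),
    ∑ e ∈ eb y m, g e ≤ (2 * m + 1 : ℝ) ^ d * T / (2 * ((n - m : ℕ) : ℝ) + 1) ^ d

/-- INB. The influence decreases when the box grows. Proof: let `|y i| ≤ n`, `2 n ≤ N`, so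
`bx 0 n ⊆ bx y N`. For `e ∈ eb y m ⊆ eb 0 n`, `e = e' + y` with `e' ∈ eb 0 m`:
`phi 0 N (1_{e' ∈ ω}) = phi y N (1_{e ∈ ω}) ≤ phi 0 n (1_{e ∈ ω})` (`FKT.T_TRA`, `FKT.T_DOM` for
the increasing function `1_{e ∈ ω}`), and `fr (bx 0 N) (1_{e' ∈ ω}) = fr (bx y N) (1_{e ∈ ω}) ≥
fr (bx 0 n) (1_{e ∈ ω})` (T_AUT, T_DMC). Sum over `e'`. Hypotheses: `FKT.T_TRA`, `FKT.T_DOM`, T_AUT,
T_DMC. -/
def T_INB : Prop := ∀ (d : ℕ), 0 < d → ∀ (p q : ℝ), 0 < p → p < 1 → 1 ≤ q →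
  ∀ (m n N : ℕ) (y : Vx d), m ≤ n → y ∈ bx (0 : Vx d) (n - m) → 2 * n ≤ N →
  ∑ e ∈ eb (0 : Vx d) m, (phi (0 : Vx d) N p q (fun ω => ind (e ∈ ω)) -
      fr (bx (0 : Vx d) N) p q fun ω => ind (e ∈ ω)) ≤
    ∑ e ∈ eb y m, (phi (0 : Vx d) n p q (fun ω => ind (e ∈ ω)) -
      fr (bx (0 : Vx d) n) p q fun ω => ind (e ∈ ω))

/-- MIX. Mixing for some parameter of every interval. Proof: let
`la = log (pa / (1 - pa)) < lb = log (pb / (1 - pb))` (`lg la = pa`, `lg lb = pb`, `lg` is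
increasing). Let `N ≥ 4 m + 2`, `n = N / 2` (so `2 m ≤ n`, `N ≤ 2 n + 1`). T_MVT gives `l`,
`p = lg l ∈ [pa, pb]`, with the sum over `eb 0 n` at most
`T = |bd 0 n| log q / (lb - la) ≤ 2 d (2 n + 1)^(d-1) log q / (lb - la)` (`FKT.T_CNT`). The
differences are nonnegative on `eb 0 n` (T_HOL: the wired measure is larger); apply T_AVY to
`g e = ` the difference for `e ∈ eb 0 n` and `0` otherwise. T_INB:
`Σ_{e ∈ eb 0 m} ≤ (2 m + 1)^d T / (2 (n - m) + 1)^d ≤ (2 m + 1)^d 2^d T / (2 n + 1)^d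
≤ C / (2 n + 1)` as `2 (n - m) + 1 ≥ (2 n + 1) / 2`. This is `≤ ε` for `N` large. Hypotheses:
T_MVT, T_AVY, T_INB, T_HOL, `FKT.T_CNT`. -/
def T_MIX : Prop := ∀ (d : ℕ), 0 < d → ∀ (pa pb q : ℝ), 0 < pa → pa < pb → pb < 1 → 1 ≤ q →
  ∀ (m : ℕ) (ε : ℝ), 0 < ε → ∃ N0 : ℕ, ∀ N : ℕ, N0 ≤ N → ∃ p : ℝ, pa ≤ p ∧ p ≤ pb ∧
    ∑ e ∈ eb (0 : Vx d) m, (phi (0 : Vx d) N p q (fun ω => ind (e ∈ ω)) -
      fr (bx (0 : Vx d) N) p q fun ω => ind (e ∈ ω)) ≤ ε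

/-- UNQ. The two-point function of the wired measure in a finite box. Proof: let
`θ = μ.real (Inf0 d) > 0`. Given `h`, for `n > h` and `y ∈ bx 0 h` let
`A = {0 is connected to a point of bd 0 n in cfg ω ∩ eb 0 n}`, `B_y` the same for `y`. If the
cluster of `y` is infinite then `B_y` holds (otherwise the set of the points connected to `y` in
`cfg ω ∩ eb 0 n` is contained in `bx 0 n \ bd 0 n` and closed under all steps of `cfg ω`, so the
cluster is finite). `μ {cluster of y infinite} = θ` by `FKT.T_INV`. `A`, `B_y` are increasing and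
depend only on `eb 0 n`; by `FKT.T_FKG` in the box `Λ_N` and `N → ∞` (`FKT.T_LOC`)
`μ (A ∩ B_y) ≥ θ^2`. If `A ∩ B_y` holds and `0`, `y` are not connected in `cfg ω ∩ eb 0 n`, then by
`FKT.T_SUR` (`r = h`; if `h = 0` then `y = 0` is trivial) there are `P ⊆ eb 0 h`, `e ∈ eb 0 h` with
`TwoArm (cfg ω ∪ P) e.1 e.2 (n - h)`; by `FKT.T_FEN` and `FKT.T_TAS` (1), for fixed `P`, `e` the
probability is at most `(q / p)^|P| μ (TwoArm e.1 e.2 (n - h))`, and the last probability is at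
most `C (q^2 / p) sqrt (log (n - h + 1) / (n - h))` by `FKT.T_QBK`, which tends to `0`. So for `n`
large (depending on `h`) the probability that `0` and `y` are connected in `cfg ω ∩ eb 0 n` is at
least `θ^2 / 2`, for all `y ∈ bx 0 h`. Finally `phi 0 N (ind (Cf (ω ∩ eb 0 n) 0 y))`, `N ≥ n`, is
nonincreasing in `N` (`FKT.T_DOM`) and converges to the probability for `μ` (`FKT.T_LOC`), so it is
at least `θ^2 / 2`. Hypotheses: `FKT.T_INV`, `FKT.T_FKG`, `FKT.T_LOC`, `FKT.T_SUR`, `FKT.T_FEN`,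
`FKT.T_TAS`, `FKT.T_QBK`, `FKT.T_DOM`. -/
def T_UNQ : Prop := ∀ (d : ℕ), 0 < d → ∀ (p q : ℝ), 0 < p → p < 1 → 1 ≤ q →
  ∀ μ : Measure (Ed d → Bool), IsWired d p q μ → 0 < μ.real (Inf0 d) →
  ∀ h : ℕ, ∃ n : ℕ, h < n ∧ ∀ N : ℕ, n ≤ N → ∀ y ∈ bx (0 : Vx d) h,
    (μ.real (Inf0 d)) ^ 2 / 2 ≤
      phi (0 : Vx d) N p q fun ω => ind (Cf (ω ∩ eb (0 : Vx d) n) 0 y)

/-- TPX. `T_TPF` from the preceding targets. Proof: let `θ0 = μ.real (Inf0 d)`, `θ = θ0^2 / 4`. Given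
`h`, let `n` be as in T_UNQ (for `p0`) and `N0 ≥ n` as in T_MIX for `[p0, p1]`, `m = n`,
`ε = θ0^2 / 4`. For `N ≥ N0` let `p ∈ [p0, p1]` be given by T_MIX. Let
`Q ω = Cf ω 0 y`. By T_INC (for the free and the wired measure of `bx 0 N`, the hypothesis holds by
T_HOL; `F = eb 0 n`) `fr (bx 0 N) p q (ind (Q (ω ∩ F))) ≥ phi 0 N p q (ind (Q (ω ∩ F))) - ε`, and
`phi 0 N p q (..) ≥ phi 0 N p0 q (..) ≥ θ0^2 / 2` (T_HOL, T_UNQ). And
`tp (bx 0 N) p1 q 0 y ≥ fr (bx 0 N) p1 q (ind (Q (ω ∩ F))) ≥ fr (bx 0 N) p q (..)` (T_HOL).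
Hypotheses: T_UNQ, T_MIX, T_INC, T_HOL. -/
def T_TPX : Prop := T_TPF

/-- SEX. `T_SEE` from the preceding targets. Proof: let `m' ≥ m` with `F ⊆ eb 0 m'`,
`π = pa / (pa + q (1 - pa))`, `ε = π^|F|`, `N0` as in T_MIX for `[pa, pb]`, `m'`, `ε`, and
`r = max N0 m'`, `p` the corresponding parameter. By T_INC with `Q ω = (F ⊆ ω)` (T_HOL for the
hypothesis) `phi 0 r p q (ind (F ⊆ ω)) - fr (bx 0 r) p q (ind (F ⊆ ω)) ≤ Σ_{e ∈ F} (..) ≤
Σ_{e ∈ eb 0 m'} (..) ≤ ε` (nonnegative terms, T_HOL), and by T_FEN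
`fr (bx 0 r) p q (ind (F ⊆ ω)) ≥ (p / (p + q (1 - p)))^|F| ≥ ε` (the fraction is increasing in
`p`). Hypotheses: T_MIX, T_INC, T_HOL, T_FEN. -/
def T_SEX : Prop := T_SEE

end Pool.Agent.FKP
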