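import Pool.Agent.FKP.Main
import Pool.Agent.FKP.Basic

/-!
# Project FKP, part B: slab percolation above a percolating parameter

The lattice is `Vx (k + 3)`; the directions `0`, `1` are the long directions of the slab, the
direction `2` is used by the flows. A seed is a fully open cube `cu s v`. The coarse lattice is
`Vx 2`: the cell `z` contains the `a^2` candidate positions `cand k ρ a z` of seeds.

Overview. T_FL1, T_STP, T_FLO, T_FL2: unit flows of energy `≤ 12 / s` between two cubes of side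
`s`. T_TRF, T_THT, T_SMK, T_UNM, T_KEY: the probability that `m` far apart pairs of open seeds
`v i`, `v' i` exist with no `v i` connected to a `v' j` is at most `q^(2m) exp (- c s m)` times
the probability of the seeds. T_SUP, T_BAD: probabilities of the seeds. T_PRB: a coarse contour
has probability at most `2 ε^n`. T_ISO, T_NEA, T_PEI: Peierls argument in two dimensions. T_BX2,
T_SLC, `T_SLB`: slab percolation.
-/

set_option autoImplicit false

namespace Pool.Agent.FKP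

open Filter MeasureTheory Pool.Agent.FKT

section defs

variable {k : ℕ}

/-- The point `(a, b, 0, ..., 0)`. -/
def pos (k : ℕ) (a b : ℤ) : Vx (k + 3) := fun i =>
  if i.val = 0 then a else if i.val = 1 then b else 0

/-- The seed cube: side `s` in the directions `0, 1, 2`. -/
noncomputable def cu (s : ℕ) (v : Vx (k + 3)) : Finset (Vx (k + 3)) :=
  Finset.Icc v (fun i => if i.val < 3 then v i + s else v i)

/-- The region of the flow which starts at the seed `v`. -/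
noncomputable def rg (H : ℕ) (v : Vx (k + 3)) : Finset (Vx (k + 3)) :=
  Finset.Icc (fun i => if i.val < 2 then v i - H else v i)
    (fun i => if i.val < 3 then v i + H else v i)

/-- The horizontal square of side `h` with the corner `(c0, c1)` at the height `v 2 + h`. -/
noncomputable def sqr (h : ℕ) (c0 c1 : ℤ) (v : Vx (k + 3)) : Finset (Vx (k + 3)) :=
  Finset.Icc
    (fun i => if i.val = 0 then c0 else if i.val = 1 then c1 else if i.val = 2 then v i + h
      else v i)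
    (fun i => if i.val = 0 then c0 + h else if i.val = 1 then c1 + h
      else if i.val = 2 then v i + h else v i)

/-- The average of `r` over the square. -/
noncomputable def avg (h : ℕ) (c0 c1 : ℤ) (v : Vx (k + 3)) (r : Vx (k + 3) → ℝ) : ℝ :=
  (1 / ((h : ℝ) + 1) ^ 2) * ∑ x ∈ sqr h c0 c1 v, r x

/-- The two layers of the step from the height `v 2 + h` to `v 2 + h + 1`. -/
noncomputable def lay (h : ℕ) (c0 c1 : ℤ) (v : Vx (k + 3)) : Finset (Vx (k + 3)) :=
  Finset.Icc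
    (fun i => if i.val = 0 then c0 else if i.val = 1 then c1 else if i.val = 2 then v i + h
      else v i)
    (fun i => if i.val = 0 then c0 + h + 1 else if i.val = 1 then c1 + h + 1
      else if i.val = 2 then v i + h + 1 else v i)

/-- The wiring: all the seeds `v i` are wired together, and all the seeds `v' i`. -/
def swr {m : ℕ} (s : ℕ) (v v' : Fin m → Vx (k + 3)) : Vx (k + 3) → Vx (k + 3) → Prop :=
  fun a b => (∃ i j, a ∈ cu s (v i) ∧ b ∈ cu s (v j)) ∨ ∃ i j, a ∈ cu s (v' i) ∧ b ∈ cu s (v' j)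

/-- All the seeds are open. -/
def Sop {m : ℕ} (s : ℕ) (v v' : Fin m → Vx (k + 3)) (ω : Finset (Ed (k + 3))) : Prop :=
  ∀ i, es (cu s (v i)) ⊆ ω ∧ es (cu s (v' i)) ⊆ ω

/-- No seed `v i` is connected to a seed `v' j`. -/
def Ncn {m : ℕ} (v v' : Fin m → Vx (k + 3)) (ω : Finset (Ed (k + 3))) : Prop :=
  ∀ i j, ¬ Cf ω (v i) (v' j)

/-- The geometric conditions on the pairs of seeds. -/
structure Geo (s H : ℕ) (S : Finset (Vx (k + 3))) (m : ℕ) (v v' : Fin m → Vx (k + 3)) :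
    Prop where
  hs : 1 ≤ s
  hH : s ≤ H
  pl : ∀ i l, 2 ≤ l.val → v i l = v' i l
  ds : ∀ i l, l.val < 2 → |v i l - v' i l| ≤ (H : ℤ) - s
  sb : ∀ i, rg H (v i) ⊆ S ∧ rg H (v' i) ⊆ S
  dj : ∀ i j, i ≠ j → Disjoint (rg H (v i) ∪ rg H (v' i)) (rg H (v j) ∪ rg H (v' j))
  cd : ∀ i, Disjoint (cu s (v i)) (cu s (v' i))

/-- The candidate positions of the cell `z`. -/
def cand (k ρ a : ℕ) (z : Vx 2) : Finset (Vx (k + 3)) :=
  (Finset.range a ×ˢ Finset.range a).image fun ij =>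
    pos k ((ρ : ℤ) * (a * z 0 + (ij.1 : ℤ))) ((ρ : ℤ) * (a * z 1 + (ij.2 : ℤ)))

/-- The cell `z` is good: some candidate seed is open. -/
def Gd (k ρ a s : ℕ) (ω : Finset (Ed (k + 3))) (z : Vx 2) : Prop :=
  ∃ v ∈ cand k ρ a z, es (cu s v) ⊆ ω

open Classical in
/-- The chosen open seed of the cell `z`. -/
noncomputable def Sd (k ρ a s : ℕ) (ω : Finset (Ed (k + 3))) (z : Vx 2) : Vx (k + 3) :=
  if h : Gd k ρ a s ω z then h.choose else 0

open Classical in
/-- The inner cell of the coarse edge `e` for the orientation `O`. -/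
noncomputable def inn (O : Finset (Ed 2)) (e : Ed 2) : Vx 2 := if e ∈ O then e.1 else tgt e

open Classical in
/-- The outer cell of the coarse edge `e` for the orientation `O`. -/
noncomputable def out (O : Finset (Ed 2)) (e : Ed 2) : Vx 2 := if e ∈ O then tgt e else e.1

/-- The event of the coarse contour `P` with the orientation `O`: the inner cells are good, and
the seed of an inner cell is never connected to the seed of a good outer cell. -/
def Evp (k ρ a s : ℕ) (P O : Finset (Ed 2)) (ω : Finset (Ed (k + 3))) : Prop :=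
  ∀ e ∈ P, Gd k ρ a s ω (inn O e) ∧ ∀ e' ∈ P, Gd k ρ a s ω (out O e') →
    ¬ Cf ω (Sd k ρ a s ω (inn O e)) (Sd k ρ a s ω (out O e'))

/-- The box of coarse cells `{-m, ..., m}^2`. -/
noncomputable def cbx (m : ℕ) : Finset (Vx 2) := Finset.Icc (fun _ => -(m : ℤ)) (fun _ => (m : ℤ))

/-- The data and the estimates used by the contour argument: `S` the region, `p`, `q` the
parameters, `s` the side of the seeds, `r` the radius of the boxes of the seeds, `ρ = 2 r + 1`,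
`a` the number of candidates per side, `l = a ρ` the side of a cell, `H = s + 2 l`, `N ≥ H` and
`m` the size of the coarse box, `b` the cost of a pair of seeds. -/
structure Cst (k : ℕ) (p q : ℝ) (S : Finset (Vx (k + 3))) (s r ρ a l H N m : ℕ) (b x0 x1 : ℝ) :
    Prop where
  hp : 0 < p
  hp1 : p < 1
  hq : 1 ≤ q
  hs : 1 ≤ s
  hr : s ≤ r
  hρ : ρ = 2 * r + 1
  ha : 1 ≤ a
  hl : l = a * ρ
  hH : H = s + 2 * l
  hN : H ≤ N
  hrN : r ≤ N
  hb : 0 < b
  hx0 : 0 < x0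
  fit : ∀ z ∈ cbx m, ∀ v ∈ cand k ρ a z, bx v N ⊆ S
  key : ∀ (n : ℕ) (v v' : Fin n → Vx (k + 3)), Geo s H S n v v' →
    (∀ i, bx (v i) N ⊆ S ∧ bx (v' i) N ⊆ S) →
    fr S p q (fun ω => ind (Sop s v v' ω ∧ Ncn v v' ω)) ≤
      b ^ n * fr S p q fun ω => ind (Sop s v v' ω)
  up : phi (0 : Vx (k + 3)) r p q (fun ω => ind (es (cu s 0) ⊆ ω)) ≤ x1
  low : x0 ≤ fr (bx (0 : Vx (k + 3)) r) p q fun ω => ind (es (cu s 0) ⊆ ω)
  n0 : 200 ≤ (a : ℝ) ^ 2 * x0
  n1 : (a : ℝ) ^ 2 * x1 ≤ 1600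
  nb : 1600 ^ 2 * b ≤ (1 / 2 ^ 21 : ℝ) ^ 2500

end defs

/-! ## Flows -/

/-- FL1. Averages of a function on the integers over `h + 1` and `h + 2` consecutive points.
Proof: case `a' = a`: `avg_{h+1} - avg_{h+2} = (avg_{h+1} - r (a + h + 1)) / (h + 2)
= Σ_{i=0}^{h} (r (a + i) - r (a + h + 1)) / ((h + 1) (h + 2))`, and
`r (a + i) - r (a + h + 1) = Σ_{j=i}^{h} (r (a + j) - r (a + j + 1))`; so
`w (a + j) = (j + 1) / ((h + 1) (h + 2))`, `0 ≤ j ≤ h`. Case `a' = a - 1`: symmetric,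
`w (a - 1 + j) = - (h + 1 - j) / ((h + 1) (h + 2))`, `0 ≤ j ≤ h`. -/
def T_FL1 : Prop := ∀ (h : ℕ) (a a' : ℤ), a' = a ∨ a' = a - 1 →
  ∃ w : ℤ → ℝ, (∀ j, |w j| ≤ 1 / ((h : ℝ) + 2)) ∧ ∀ r : ℤ → ℝ,
    (1 / ((h : ℝ) + 1)) * ∑ j ∈ Finset.Icc a (a + h), r j -
      (1 / ((h : ℝ) + 2)) * ∑ j ∈ Finset.Icc a' (a' + h + 1), r j =
    ∑ j ∈ Finset.Icc a' (a' + h), w j * (r j - r (j + 1))

/-- STP. One step of the flow. Proof: the flow is the sum of three parts with disjoint supports.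
(a) Vertical: `1 / (h + 1)^2` on the `(h + 1)^2` edges in the direction `2` based at the points of
`sqr h c0 c1 v`: it gives `avg_{sqr h c0 c1} r - (average of r over the square Q0 of the same
horizontal coordinates at the height v 2 + h + 1)`, energy `1 / (h + 1)^2`. (b) Direction `0`, at
the height `v 2 + h + 1`: for each `x1 ∈ [c1, c1 + h]` the weights of T_FL1 (for `c0`, `c0'`)
times `1 / (h + 1)`: it gives (average over `Q0`) minus (average over
`[c0', c0' + h + 1] × [c1, c1 + h]`); at most `(h + 1)^2` edges with flow at most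
`1 / ((h + 1) (h + 2))` in absolute value: energy `≤ 1 / (h + 2)^2`. (c) Direction `1`: for each
`x0 ∈ [c0', c0' + h + 1]` the weights of T_FL1 (for `c1`, `c1'`) times `1 / (h + 2)`: it gives
the difference to the average over `[c0', c0' + h + 1] × [c1', c1' + h + 1]`; `(h + 2) (h + 1)`
edges with flow at most `1 / (h + 2)^2`: energy `≤ 1 / (h + 2)^2`. All edges are in
`lay h c0' c1' v`, as `c0' ≤ c0`, `c0 + h ≤ c0' + h + 1`. The sums over squares are sums over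
products of two intervals (bijection `x ↦ (x 0, x 1)`). Hypothesis: T_FL1. -/
def T_STP : Prop := ∀ (k : ℕ) (v : Vx (k + 3)) (h : ℕ) (c0 c1 c0' c1' : ℤ),
  (c0' = c0 ∨ c0' = c0 - 1) → (c1' = c1 ∨ c1' = c1 - 1) →
  ∃ f : Ed (k + 3) → ℝ,
    (∀ e, f e ≠ 0 → e ∈ es (lay h c0' c1' v) ∧ (e.2 ≠ 2 → e.1 2 = v 2 + h + 1)) ∧
    ∑ e ∈ es (lay h c0' c1' v), f e ^ 2 ≤ 3 / ((h : ℝ) + 1) ^ 2 ∧
    ∀ r : Vx (k + 3) → ℝ,
      ∑ e ∈ es (lay h c0' c1' v), f e * (r e.1 - r (tgt e)) =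
        avg h c0 c1 v r - avg (h + 1) c0' c1' v r

/-- FLO. The flow from the cube to the big square. Proof: for `s ≤ h ≤ H` put
`c0 h = max c0 (v 0 - (h - s))`, `c1 h = max c1 (v 1 - (h - s))`: they start at `v 0`, `v 1`,
end at `c0`, `c1` and decrease by `0` or `1` at each step. Let `f_h` (`s ≤ h < H`) be the flow of
T_STP from `sqr h (c0 h) (c1 h) v` to `sqr (h + 1) ..` and `f = Σ_h f_h`. The supports of the
`f_h` are disjoint: an edge `e` in the direction `2` of the support of `f_h` has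
`e.1 2 = v 2 + h` (both ends are in `lay`), an edge in another direction has
`e.1 2 = v 2 + h + 1`. So `Σ f^2 = Σ_h Σ f_h^2 ≤ Σ_{h ≥ s} 3 / (h + 1)^2 ≤
Σ_{h ≥ s} 3 (1 / h - 1 / (h + 1)) ≤ 3 / s`. `lay h (c0 (h+1)) (c1 (h+1)) v ⊆ rg H v`. The
identities telescope; the first average is over `sqr s (v 0) (v 1) v ⊆ cu s v`, `(s + 1)^2`
points, where `r = r v`. If `s = H` take `f = 0`. Hypothesis: T_STP. -/
def T_FLO : Prop := ∀ (k s H : ℕ) (v : Vx (k + 3)) (c0 c1 : ℤ), 1 ≤ s → s ≤ H →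
  v 0 - ((H : ℤ) - s) ≤ c0 → c0 ≤ v 0 → v 1 - ((H : ℤ) - s) ≤ c1 → c1 ≤ v 1 →
  ∃ f : Ed (k + 3) → ℝ, (∀ e, e ∉ es (rg H v) → f e = 0) ∧
    ∑ e ∈ es (rg H v), f e ^ 2 ≤ 3 / s ∧
    ∀ r : Vx (k + 3) → ℝ, (∀ x ∈ cu s v, r x = r v) →
      ∑ e ∈ es (rg H v), f e * (r e.1 - r (tgt e)) = r v - avg H c0 c1 v r

/-- FL2. The flow between two cubes. Proof: T_FLO for `v` and for `v'` with
`c0 = min (v 0) (v' 0)`, `c1 = min (v 1) (v' 1)`; the averages `avg H c0 c1 v r` and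
`avg H c0 c1 v' r` are equal as `v` and `v'` have the same coordinates `≥ 2`. `f = f_v - f_v'`,
`(x - y)^2 ≤ 2 x^2 + 2 y^2`. Hypothesis: T_FLO. -/
def T_FL2 : Prop := ∀ (k s H : ℕ) (v v' : Vx (k + 3)), 1 ≤ s → s ≤ H →
  (∀ l : Fin (k + 3), 2 ≤ l.val → v l = v' l) →
  (∀ l : Fin (k + 3), l.val < 2 → |v l - v' l| ≤ (H : ℤ) - s) →
  ∃ f : Ed (k + 3) → ℝ, ∑ e ∈ es (rg H v) ∪ es (rg H v'), f e ^ 2 ≤ 12 / s ∧
    ∀ r : Vx (k + 3) → ℝ, (∀ x ∈ cu s v, r x = r v) → (∀ x ∈ cu s v', r x = r v') →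
      ∑ e ∈ es (rg H v) ∪ es (rg H v'), f e * (r e.1 - r (tgt e)) = r v - r v'

/-! ## The key estimate -/

/-- TRF. The inequality for subgraphs of an infinite graph. Proof: let `V' = {x // x ∈ U}`,
`E' = {e // e ∈ G}` with the restricted maps `s'`, `t'` and wiring `R'`. The map
`ω' ↦ ω'.map (subtype embedding)` is a bijection from the finsets of `E'` onto the subsets of `G`;
`Con R (ω'.map _) x y ↔ Con R' ω' x y` for `x, y ∈ U` (the points connected to a point of `U` are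
in `U`, as the steps stay in `U`), so the numbers of clusters agree (`FKT.T_NCM` or directly) and
`Ex s t R U G p q f = Ex s' t' R' univ univ p q (f ∘ map)`. The same for the wiring `mrg R T B`,
which corresponds to `mrg R' T' B'`. Hence `tht`, `sgn`, `dlt` agree. Apply `QLPc` to
`V'`, `E'`. Hypothesis (optional): `FKT.T_NCM`. -/
def T_TRF : Prop := ∀ (q κ u : ℝ), QLPc q κ u → ∀ (V E : Type) [DecidableEq V] [DecidableEq E]
  (s t : E → V) (R : V → V → Prop) (U : Finset V) (G : Finset E) (p : ℝ), 0 < p → p < 1 →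
  (∀ a b, R a b → a ∈ U ∧ b ∈ U) → (∀ e ∈ G, s e ∈ U ∧ t e ∈ U) →
  ∀ T ∈ U, ∀ B ∈ U, ¬ Con s t R ∅ T B → ∀ e ∈ G,
    κ * p * (tht s t R U G p q T B (t e) * sgn s t R U G p q u T B (s e) -
      tht s t R U G p q T B (s e) * sgn s t R U G p q u T B (t e)) ^ 2 ≤
    dlt s t R U G p q T B e

/-- THT. Lower bound of `tht`. Proof: let `R1 = mrg (swr s v v') (v i0) (v' i0)`. If
`Cf ω x (v i)` then `Con R1 ω x (v i0)` (`Con_mono`, and `v i` is wired to `v i0`; note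
`v i ∈ cu s (v i)`); so `tp S p1 q x (v i) = Ex (no) S (es S) p1 (ind (Cf · x (v i))) ≤
Ex R1 S (es S) p (ind (Cf · x (v i))) ≤ tht x` by T_HOL. The same for `v'` (`v' i` is wired to
`v' i0`, which is identified with `v i0`). Hypothesis: T_HOL. -/
def T_THT : Prop := ∀ (k : ℕ) (q p1 p θ : ℝ), 1 ≤ q → 0 < p1 → p1 ≤ p → p < 1 →
  ∀ (S : Finset (Vx (k + 3))) (s H m : ℕ) (v v' : Fin m → Vx (k + 3)) (i0 : Fin m),
  (∀ i, ∀ x ∈ rg H (v i), θ ≤ tp S p1 q x (v i)) →
  (∀ i, ∀ x ∈ rg H (v' i), θ ≤ tp S p1 q x (v' i)) →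
  ∀ i, ∀ x ∈ rg H (v i) ∪ rg H (v' i),
    θ ≤ tht Prod.fst tgt (swr s v v') S (es S) p q (v i0) (v' i0) x

/-- SMK. The sum of the influences. Proof: write `T = v i0`, `B = v' i0`, `R = swr s v v'`,
`th = tht .. x`, `sg = sgn .. x`, `D = Dis R T B`. First `¬ Con R ∅ T B`: the union of the cubes
`cu s (v i)` is closed under the steps of `R` and does not contain `B` (the cubes of different
pairs are disjoint, `cu s w ⊆ rg H w`, and `Geo.cd`). So `Ex R1 (ind D) > 0` (`R1 = mrg R T B`,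
`∅` is in `D`). By T_TRF `0 ≤ dlt e` and
`dlt e ≥ κ p (th (tgt e) sg (e.1) - th (e.1) sg (tgt e))^2` for all `e ∈ es S`. Let
`r x = sg x / th x`. For `x ∈ cu s (v i)`, `x` is wired to `T`: `th x = 1`, and on `D` `x` is
connected to `T` and not to `B`, so `sg x = 1`, `r x = 1`. For `x ∈ cu s (v' i)`: `th x = 1`,
`sg x = - u`, `r x = - u`. Let `E_i = es (rg H (v i)) ∪ es (rg H (v' i)) ⊆ es S`; these sets are
pairwise disjoint (`Geo.dj`). For `e ∈ E_i` with ends `x`, `y`: `th x, th y ≥ θ`, so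
`(th y sg x - th x sg y)^2 = th x^2 th y^2 (r x - r y)^2 ≥ θ^4 (r x - r y)^2`. With the flow `f` of
T_FL2 for `v i`, `v' i`: `1 + u = Σ_{e ∈ E_i} f e (r e.1 - r (tgt e))`, and Cauchy-Schwarz:
`1 ≤ (1 + u)^2 ≤ (12 / s) Σ_{e ∈ E_i} (r e.1 - r (tgt e))^2`. Sum over `i`. Hypotheses: T_TRF,
T_FL2. -/
def T_SMK : Prop := ∀ (k : ℕ) (q κ u p θ : ℝ), 1 ≤ q → 0 < κ → 0 ≤ u → QLPc q κ u →
  0 < p → p < 1 → 0 < θ →
  ∀ (S : Finset (Vx (k + 3))) (s H m : ℕ) (v v' : Fin m → Vx (k + 3)), Geo s H S m v v' →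
  ∀ i0 : Fin m, (∀ i, ∀ x ∈ rg H (v i) ∪ rg H (v' i),
    θ ≤ tht Prod.fst tgt (swr s v v') S (es S) p q (v i0) (v' i0) x) →
    κ * p * θ ^ 4 * (m : ℝ) * s / 12 ≤
      ∑ e ∈ es S, dlt Prod.fst tgt (swr s v v') S (es S) p q (v i0) (v' i0) e

/-- UNM. Identifying the seeds. Proof: let `T = v i0`, `B = v' i0`, `R = swr s v v'`,
`R1 = mrg R T B`, `N0 ω = ncl (no) S ω`, `N1 ω = ncl R1 S ω`. For every `ω` with `Sop ω` (all seeds
open): (1) `N1 ω ≤ N0 ω` (more connections; the cubes are in `S`); (2) `N0 ω ≤ N1 ω + 2 m`: the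
open cubes are connected (`CnS` of boxes), `Con R1 ω` is generated by `Con (no) ω` and the pairs
`(T, v i)`, `(T, v' i)` (`2 m` pairs), and one more wired pair decreases the number of clusters by
at most one (general lemma: for a wiring `R'` and a pair `(x, y)`, `x, y ∈ S`,
`ncl R' S ω ≤ ncl (R' or (x,y)) S ω + 1`). (3) if moreover `Ncn ω` then `Dis R T B ω`: the set of
the points connected in `ω` to some `v i` is closed under the steps of `ω` and of `R` and does not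
contain `B`. So with `Z = Σ_ω bw ω q^(N0 ω)`:
`Z * fr (ind (Sop ∧ Ncn)) = Σ_{Sop, Ncn} bw q^N0 ≤ q^(2m) Σ_ω bw q^N1 ind (Sop) ind (Dis)
= q^(2m) Z1 Ex R1 (ind Sop * ind Dis)`, `Z1 = Σ bw q^N1`;
`Ex R1 (ind Sop * ind Dis) ≤ Ex R1 (ind Sop) * Ex R1 (ind Dis)` by `FKT.T_FKG` (`Sop` increasing,
`Dis` decreasing: apply it to `ind Sop` and `- ind Dis`), and
`Z1 Ex R1 (ind Sop) = Σ_{Sop} bw q^N1 ≤ Σ_{Sop} bw q^N0 = Z * fr (ind Sop)`.
Hypothesis: `FKT.T_FKG`. -/
def T_UNM : Prop := ∀ (k : ℕ) (q p : ℝ), 1 ≤ q → 0 < p → p < 1 →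
  ∀ (S : Finset (Vx (k + 3))) (s H m : ℕ) (v v' : Fin m → Vx (k + 3)), Geo s H S m v v' →
  ∀ i0 : Fin m,
    fr S p q (fun ω => ind (Sop s v v' ω ∧ Ncn v v' ω)) ≤
      q ^ (2 * m) * Ex Prod.fst tgt (mrg (swr s v v') (v i0) (v' i0)) S (es S) p q
        (fun ω => ind (Dis Prod.fst tgt (swr s v v') (v i0) (v' i0) ω)) *
        fr S p q fun ω => ind (Sop s v v' ω)

/-- KEY. The key estimate. Proof: if `m = 0` both sides are `1` (`Ex 1 = 1`). Otherwise let
`i0 = 0`. Let `l1 = log (p1 / (1 - p1)) ≤ l2 = log (p / (1 - p))`; `lg l1 = p1`, `lg l2 = p`, and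
for `l1 ≤ l ≤ l2`, `p1 ≤ lg l ≤ p`. By T_THT and T_SMK, for such `l`, the sum of the influences
for the parameter `lg l` is at least `M = κ p1 θ^4 m s / 12`. T_LGD with `D = Dis ..`,
`R := mrg ..`: `Ex .. p (ind Dis) ≤ exp (- M (l2 - l1)) * 1`. T_UNM. Hypotheses: T_THT, T_SMK,
T_LGD, T_UNM. -/
def T_KEY : Prop := ∀ (k : ℕ) (q κ u p1 p θ : ℝ), 1 ≤ q → 0 < κ → 0 ≤ u → QLPc q κ u →
  0 < p1 → p1 ≤ p → p < 1 → 0 < θ →
  ∀ (S : Finset (Vx (k + 3))) (s H m : ℕ) (v v' : Fin m → Vx (k + 3)), Geo s H S m v v' →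
  (∀ i, ∀ x ∈ rg H (v i), θ ≤ tp S p1 q x (v i)) →
  (∀ i, ∀ x ∈ rg H (v' i), θ ≤ tp S p1 q x (v' i)) →
    fr S p q (fun ω => ind (Sop s v v' ω ∧ Ncn v v' ω)) ≤
      (q ^ 2 * Real.exp (-(κ * p1 * θ ^ 4 * s / 12 *
        (Real.log (p / (1 - p)) - Real.log (p1 / (1 - p1)))))) ^ m *
        fr S p q fun ω => ind (Sop s v v' ω)

/-! ## The seeds -/

/-- SUP. Upper bound for the probability of several open seeds. Proof: induction on `P`. Let
`v = pos k (ρ a) (ρ b)` be a new position. The boxes `bx v r`, `bx v' r` of different positions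
are disjoint (some coordinate differs by at least `ρ = 2 r + 1`), and `cu s v ⊆ bx v r` (`s ≤ r`);
so the event of the other positions depends only on `ω \ es (bx v r)`. T_DMW with
`F α β = g α * ind (es (cu s v) ⊆ β)`, `g` the indicator of the other positions: the probability
is at most `x * fr (g)`, `x = phi v r p q (ind (es (cu s v) ⊆ ·)) =
phi 0 r p q (ind (es (cu s 0) ⊆ ·))` by `FKT.T_TRA` (`v = 0 + v`; `es (cu s 0)` translated by `v`
is `es (cu s v)`). Hypotheses: T_DMW, `FKT.T_TRA`. -/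
def T_SUP : Prop := ∀ (k : ℕ) (q p : ℝ), 1 ≤ q → 0 < p → p < 1 →
  ∀ (s r ρ : ℕ), s ≤ r → ρ = 2 * r + 1 → ∀ (S : Finset (Vx (k + 3))) (P : Finset (ℤ × ℤ)),
  (∀ c ∈ P, bx (pos k (ρ * c.1) (ρ * c.2)) r ⊆ S) →
    fr S p q (fun ω => ind (∀ c ∈ P, es (cu s (pos k (ρ * c.1) (ρ * c.2))) ⊆ ω)) ≤
      (phi (0 : Vx (k + 3)) r p q fun ω => ind (es (cu s 0) ⊆ ω)) ^ P.card

/-- BAD. The probability that all cells of a set are bad. Proof: enumerate the `M = a^2 |Z|`
positions `w_0, ..., w_{M-1}` of the candidates of the cells of `Z` (they are distinct: the map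
`(z, i, j) ↦ (a z 0 + i, a z 1 + j)` is injective). T_SEQ with `Uj j = bx w_j r`,
`Sj j = es (bx w_j r)`, `L j = ⋃_{i < j} Sj i` (disjoint boxes, as in T_SUP),
`F j ξ β = (es (cu s w_j) ⊆ β)`, `α = x0` (T_AUT for the translation: the free probability is the
same for all positions; `x0 ≤ 1`). `es (cu s w_j) ⊆ ω ∩ Sj j ↔ es (cu s w_j) ⊆ ω`. Hypotheses:
T_SEQ, T_AUT. -/
def T_BAD : Prop := ∀ (k : ℕ) (q p : ℝ), 1 ≤ q → 0 < p → p < 1 →
  ∀ (s r ρ a : ℕ), s ≤ r → ρ = 2 * r + 1 → ∀ (S : Finset (Vx (k + 3))) (Z : Finset (Vx 2))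
  (x0 : ℝ), (∀ z ∈ Z, ∀ v ∈ cand k ρ a z, bx v r ⊆ S) →
  x0 ≤ fr (bx (0 : Vx (k + 3)) r) p q (fun ω => ind (es (cu s 0) ⊆ ω)) →
    fr S p q (fun ω => ind (∀ z ∈ Z, ¬ Gd k ρ a s ω z)) ≤ (1 - x0) ^ (a ^ 2 * Z.card)

/-- SPR. Choosing a separated subfamily. Proof: a maximal subset `Q` of `P` whose elements have
pairwise base points at sup distance at least `12`: every `e ∈ P` has its base point at distance
at most `11` from the base point of an element of `Q`; the number of the edges of `Ed 2` with the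
base point at distance at most `11` from a given point is `2 * 23^2 = 1058 ≤ 1250`. -/
def T_SPR : Prop := ∀ P : Finset (Ed 2), ∃ Q ⊆ P, P.card ≤ 1250 * Q.card ∧
  ∀ e ∈ Q, ∀ e' ∈ Q, e ≠ e' → ∃ i, 12 ≤ |e.1 i - e'.1 i|

/-- PB1. Many bad outer cells. Proof: every cell is `out O e` for at most `4` edges `e`, so the set
`Z` of the cells `out O e`, `e ∈ P1`, has `8 |Z| ≥ |P|`; all of them are bad and
`cand z` fits (`Cst.fit`, `r ≤ N`; the cells of edges of `es (cbx m)` are in `cbx m`). T_BAD: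
`(1 - x0)^(a^2 |Z|) ≤ exp (- x0 a^2 |P| / 8) ≤ exp (- 25 |P|) ≤ (1/2^21)^|P|` (`x0 ≤ 1`;
`exp 25 ≥ 2^21`). Hypothesis: T_BAD. -/
def T_PB1 : Prop := ∀ (k : ℕ) (p q : ℝ) (S : Finset (Vx (k + 3))) (s r ρ a l H N m : ℕ)
  (b x0 x1 : ℝ), Cst k p q S s r ρ a l H N m b x0 x1 →
  ∀ P O P1 : Finset (Ed 2), P ⊆ es (cbx m) → P1 ⊆ P → P.card ≤ 2 * P1.card →
    fr S p q (fun ω => ind (∀ e ∈ P1, ¬ Gd k ρ a s ω (out O e))) ≤
      (1 / 2 ^ 21 : ℝ) ^ P.card

/-- PB2. Many good outer cells. Proof: let `Q ⊆ P2` be given by T_SPR, `m' = |Q|`,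
`n ≤ 2500 m'`, `Q = {e_0, ..., e_(m'-1)}`. On the event, with
`v i = Sd (inn O e_i) ∈ cand (inn O e_i)`, `v' i = Sd (out O e_i) ∈ cand (out O e_i)`:
`Sop s v v' ω` and `Ncn v v' ω`. Sum over all possible values of `v`, `v'`: at most
`((a^2)^2)^m'` pairs of functions. For each: `Geo s H S m' v v'` holds: `pl` (coordinates `0`);
`ds`: the cells `inn`, `out` are neighbours, so the positions differ by at most `2 l` in each
coordinate (`H - s = 2 l`); `sb`: `rg H w ⊆ bx w N ⊆ S`; `dj`: for `i ≠ j` the cells of `e_i` and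
`e_j` differ by at least `11` in some coordinate, so the positions differ by at least
`10 l > 2 H` (`H = s + 2 l ≤ 3 l` since `s ≤ r ≤ ρ ≤ l`); `cd`: the cubes are in the disjoint
boxes `bx · r` (the positions in different cells are different multiples of `ρ = 2 r + 1`). By
`Cst.key` and T_SUP for the set of the `2 m'` different positions (`Cst.up`): at most
`b^m' x1^(2m')`. The sum is at most `((a^2 x1)^2 b)^m' ≤ (1600^2 b)^m' ≤ (1/2^21)^(2500 m') ≤
(1/2^21)^n`. Hypotheses: T_SUP, T_SPR. -/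
def T_PB2 : Prop := ∀ (k : ℕ) (p q : ℝ) (S : Finset (Vx (k + 3))) (s r ρ a l H N m : ℕ)
  (b x0 x1 : ℝ), Cst k p q S s r ρ a l H N m b x0 x1 →
  ∀ (O P2 : Finset (Ed 2)) (n : ℕ), P2 ⊆ es (cbx m) → n ≤ 2 * P2.card →
    fr S p q (fun ω => ind (∀ e ∈ P2, Gd k ρ a s ω (inn O e) ∧ Gd k ρ a s ω (out O e) ∧
      ∀ e' ∈ P2, ¬ Cf ω (Sd k ρ a s ω (inn O e)) (Sd k ρ a s ω (out O e')))) ≤
      (1 / 2 ^ 21 : ℝ) ^ n

/-- PRB. The probability of a coarse contour. Proof: let `n = |P|`. If `Evp ω` let `P1` be the set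
of the `e ∈ P` with `out O e` bad, `P2 = P \ P1`. Either `n ≤ 2 |P1|` and the event of T_PB1 holds
for `P1`, or `n ≤ 2 |P2|` and the event of T_PB2 holds for `P2`. Union bound over the at most `2^n`
subsets `P1` (and `P2`) of `P`: `2^n ((1/2^21)^n + (1/2^21)^n) = 2 (1/2^20)^n`. Hypotheses: T_PB1,
T_PB2. -/
def T_PRB : Prop := ∀ (k : ℕ) (p q : ℝ) (S : Finset (Vx (k + 3))) (s r ρ a l H N m : ℕ)
  (b x0 x1 : ℝ), Cst k p q S s r ρ a l H N m b x0 x1 →
  ∀ P O : Finset (Ed 2), P ⊆ es (cbx m) →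
    fr S p q (fun ω => ind (Evp k ρ a s P O ω)) ≤ 2 * (1 / 2 ^ 20 : ℝ) ^ P.card

/-! ## The Peierls argument in two dimensions -/

/-- BCN. Boxes are connected. Proof: for `x, y` in the box change the coordinates one after the
other (and each coordinate by steps of `1`); all intermediate points are in the box. Induction
on `Σ_i |x i - y i|`: if `x ≠ y` there is `i` with `x i < y i` or `x i > y i`; then `x + e_i` or
`x - e_i` is in the box and closer to `y`. -/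
def T_BCN : Prop := ∀ (n : ℕ) (a b : Vx n), CnS (Finset.Icc a b)

/-- ISO. Isoperimetry in a square. Proof: let `J = cbx m`, `n` the number of boundary edges. Rows
and columns of `J` have `2 m + 1` points. A row which meets `W` and is not contained in `W` has a
boundary edge in it; the same for columns. (a) If `W` contains no full row and no full column:
the numbers of rows and of columns meeting `W` are at most `n` each, so `|W| ≤ n^2`. (b) If `W`
contains a full row and no full column: every column meets `W` and is not full, so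
`n ≥ 2 m + 1` and `|W| ≤ (2 m + 1)^2 ≤ n^2`; the same if `W` contains a full column and no full
row. (c) If `W` contains a full row and a full column, then `J \ W` contains no full row and no
full column (every row meets the full column of `W`), and `J \ W` has the same boundary edges: by
(a) `|J \ W| ≤ n^2`. -/
def T_ISO : Prop := ∀ (m : ℕ) (W : Finset (Vx 2)), W ⊆ cbx m →
  W.card ≤ (bdy (cbx m) W).card ^ 2 ∨ (cbx m \ W).card ≤ (bdy (cbx m) W).card ^ 2

/-- NEA. A boundary edge near `z0` or `z1`. Proof: by T_ISO and symmetry (`W` and `J \ W` have the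
same boundary edges) let `z` be the point (`z0` or `z1`) on the side `A` (`W` or `J \ W`) with
`|A| ≤ n^2` and `z'` the other one, `z ∈ A`, `z' ∈ J \ A`. If `|z i - z' i| ≤ n^2` for both
coordinates: a path from `z` to `z'` in the box `Icc (min z z') (max z z')` (T_BCN) contains a
boundary edge, within distance `n^2` of `z`. Otherwise some `|z i - z' i| > n^2`, say
`z' i > z i + n^2`: the `n^2 + 1` points `z + t e_i`, `0 ≤ t ≤ n^2`, are in `J`, they are not all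
in `A`, the first `z ∈ A`: there is a boundary edge between two consecutive ones. Hypotheses:
T_ISO, T_BCN. -/
def T_NEA : Prop := ∀ (m : ℕ) (W : Finset (Vx 2)) (z0 z1 : Vx 2), W ⊆ cbx m → z0 ∈ W →
  z1 ∈ cbx m \ W → ∃ e ∈ bdy (cbx m) W, ∃ z, (z = z0 ∨ z = z1) ∧
    ∀ i, |e.1 i - z i| ≤ ((bdy (cbx m) W).card : ℤ) ^ 2 + 1

/-- CON. The deterministic part of the Peierls argument. Proof: let `J = cbx m`. Let `W'` be the
set of the `z ∈ J` for which there is a chain `z0, ..., z` in `J` of successive neighbours (ends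
of edges of `es J`), all good, such that the chosen seeds `Sd` of consecutive cells are
connected. Every `z ∈ W'` is good and its seed is connected to the seed of `z0`; `z1 ∉ W'`, since
otherwise `Sd z0 ∈ cand z0`, `Sd z1 ∈ cand z1` are connected. `W'` is connected (`CnS`: the chains
stay in `W'`). T_SEP (with `a = -m`, `b = m`) gives `W`; put `P = bdy J W`,
`O` = the set of the `e ∈ P` with `e.1 ∈ W`. So `inn O e ∈ W`, hence `inn O e ∈ W'` (T_SEP), and
`out O e ∉ W`. `Evp`: if for `e, e' ∈ P` the cell `out O e'` is good and its seed is connected to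
the seed of `inn O e`, then it is connected to the seed of `inn O e'` (all seeds of `W'` are
connected), so `out O e' ∈ W' ⊆ W`, a contradiction. `P` is connected through squares by T_CUT and
T_NEA gives the position. Hypotheses: T_SEP, T_CUT, T_NEA. -/
def T_CON : Prop := ∀ (k ρ a s m : ℕ) (ω : Finset (Ed (k + 3))) (z0 z1 : Vx 2), z0 ∈ cbx m →
  z1 ∈ cbx m → Gd k ρ a s ω z0 →
  (¬ ∃ v ∈ cand k ρ a z0, ∃ v' ∈ cand k ρ a z1, Cf ω v v') →
  ∃ P O : Finset (Ed 2), O ⊆ P ∧ P ⊆ es (cbx m) ∧ Evp k ρ a s P O ω ∧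
    (∃ e ∈ P, ∃ z, (z = z0 ∨ z = z1) ∧ ∀ i, |e.1 i - z i| ≤ (P.card : ℤ) ^ 2 + 1) ∧
    ∀ e ∈ P, ∀ e' ∈ P, Relation.ReflTransGen (fun x y => x ∈ P ∧ y ∈ P ∧ Sq x y) e e'

/-- PEI. Two cells are connected with large probability. Proof: by T_BAD for `Z = {z0}`, `z0` is
bad with probability at most `(1 - x0)^(a^2) ≤ exp (- 200) ≤ 1/8`. If `z0` is good and there is no
connection, T_CON gives `P`, `O`; `n = |P| ≥ 1`. Union bound over `n ≥ 1` (`n ≤ |es (cbx m)|`), the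
point `z ∈ {z0, z1}`, the edge `e` (`2 (2 (n^2 + 1) + 1)^2` choices), `P` (at most
`16^(2n) = 2^(8n)` choices by T_PLQ) and `O ⊆ P` (`2^n` choices): the probability is at most
`Σ_{n ≥ 1} 2 * 2 (2 n^2 + 3)^2 * 2^(9n) * 2 * 2^(-20n) = Σ_{n ≥ 1} 8 (2 n^2 + 3)^2 / 2^(11n)
≤ 1/8` (`n = 1`: `200/2048`; `(2n^2+3)^2 ≤ 25 * 8^(n-1)`, so the sum is at most
`(200/2048) / (1 - 8/2048) ≤ 1/8`). Hypotheses: T_BAD, T_CON, T_PLQ, T_PRB. -/
def T_PEI : Prop := ∀ (k : ℕ) (p q : ℝ) (S : Finset (Vx (k + 3))) (s r ρ a l H N m : ℕ)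
  (b x0 x1 : ℝ), Cst k p q S s r ρ a l H N m b x0 x1 → ∀ z0 ∈ cbx m, ∀ z1 ∈ cbx m,
    1 / 2 ≤ fr S p q fun ω => ind (∃ v ∈ cand k ρ a z0, ∃ v' ∈ cand k ρ a z1, Cf ω v v')

/-! ## Slab percolation -/

/-- CPA. Choice of the parameters. Proof: let `κ`, `u` be the constants of `QLP q`. Let
`p1 = (2 p0 + p) / 3`, `pa = (p0 + 2 p) / 3`, so `p0 < p1 < pa < p`. T_TPF for `(p0, p1)` gives
`θ > 0` and, for every `h`, a number `N0 h`. Put
`c1 = κ p1 θ^4 (log (pa / (1 - pa)) - log (p1 / (1 - p1))) / 12 > 0`; choose `s ≥ 1` with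
`1600^2 q^2 exp (- c1 s) ≤ (1/2^21)^2500`, `b = q^2 exp (- c1 s)`. T_SEE for `[pa, p]`,
`F = es (cu s 0)`, `m = s` gives `r ≥ s` and `p2 ∈ [pa, p]` with
`x1 := phi 0 r p2 q (ind (F ⊆ ·)) ≤ 2 x0`, `x0 := fr (bx 0 r) p2 q (ind (F ⊆ ·))`,
`0 < x0 ≤ 1` (`F ⊆ es (bx 0 r)`; `Ex_pos`). Let `a = ⌈sqrt (200 / x0)⌉`, so `a ≥ 1` and
`200 ≤ a^2 x0 ≤ 4 * 200` (`a ≤ sqrt (200/x0) + 1 ≤ 2 sqrt (200/x0)`) and `a^2 x1 ≤ 1600`.
`ρ = 2 r + 1`, `l = a ρ`, `H = s + 2 l`, `N = max (N0 H) H` (so `N ≥ r`). Let `l (m + 1) + N ≤ A`,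
`S = bx2 0 1 A N`. `fit`: a candidate `v` of a cell `z ∈ cbx m` has `|v 0|, |v 1| ≤ l (m + 1)` and
other coordinates `0`. `key`: T_KEY with `p1`, `p := p2` (`log (p2/(1-p2)) ≥ log (pa/(1-pa))`,
so the factor is at most `b`), where `θ ≤ tp S p1 q x w` for `w = v i` or `v' i`,
`x ∈ rg H w ⊆ bx w N ⊆ S`: by T_DMC (with `f = ind (Cf · x w)`)
`tp S p1 q x w ≥ tp (bx w N) p1 q x w = tp (bx 0 N) p1 q (x - w) 0` (T_AUT, translation by `w`)
`= tp (bx 0 N) p1 q 0 (x - w) ≥ θ` (connection is symmetric; `x - w ∈ bx 0 H`, `N ≥ N0 H`).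
Hypotheses: T_TPF, T_SEE, T_KEY, T_DMC, T_AUT. -/
def T_CPA : Prop := ∀ (k : ℕ) (q : ℝ), 1 ≤ q → QLP q → ∀ p0 p : ℝ, 0 < p0 → p0 < p → p < 1 →
  (∃ μ : Measure (Ed (k + 3) → Bool), IsWired (k + 3) p0 q μ ∧ 0 < μ.real (Inf0 (k + 3))) →
  ∃ (s r ρ a l H N : ℕ) (b x0 x1 p2 : ℝ), 0 < p2 ∧ p2 ≤ p ∧ 1 ≤ l ∧
    ∀ A m : ℕ, l * (m + 1) + N ≤ A →
      Cst k p2 q (bx2 (0 : Fin (k + 3)) 1 A N) s r ρ a l H N m b x0 x1

/-- BX2. Slabs with two long directions. Proof: take the constants of T_CPA; the slab has half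
thickness `N`, `A0 = N + 2 l`. Let `A ≥ A0`, `S = bx2 0 1 A N`, and let `m` be the largest natural
number with `l (m + 1) + N ≤ A`. By T_CPA and T_PEI, for `z0, z1 ∈ cbx m` some candidates are
connected with probability `≥ 1/2` for `p2`, hence for `p` (T_HOL). Let `x, y ∈ S`,
`R = N + 4 l`, `Q_x = Icc (x - R) (x + R) ∩ S`, a box. There is a cell `z ∈ cbx m` with
`cand z ⊆ Q_x` (`z i` = the number in `[-m, m]` closest to `⌊x i / l⌋`, `i = 0, 1`; as
`l (m + 2) + N > A`, `|l z i - x i| ≤ N + 2 l`; `cand z ⊆ S` by `Cst.fit`). `Q_x` is connected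
(T_BCN). If all edges of `es Q_x` and `es Q_y` are open and some candidates of the cells of `x`
and `y` are connected, then `x` and `y` are connected. By `FKT.T_FKG` and T_FEN the probability
is at least `α = π^(2 (k+3) (2 R + 1)^(k+3)) / 2`, `π = p / (p + q (1 - p))`. Hypotheses: T_CPA,
T_PEI, T_HOL, T_FEN, T_BCN, `FKT.T_FKG`. -/
def T_BX2 : Prop := ∀ (k : ℕ) (q : ℝ), 1 ≤ q → QLP q → ∀ p0 p : ℝ, 0 < p0 → p0 < p → p < 1 →
  (∃ μ : Measure (Ed (k + 3) → Bool), IsWired (k + 3) p0 q μ ∧ 0 < μ.real (Inf0 (k + 3))) →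
  ∃ (N A0 : ℕ) (α : ℝ), 0 < α ∧ ∀ A : ℕ, A0 ≤ A → ∀ x ∈ bx2 (0 : Fin (k + 3)) 1 A N,
    ∀ y ∈ bx2 (0 : Fin (k + 3)) 1 A N, α ≤ tp (bx2 (0 : Fin (k + 3)) 1 A N) p q x y

/-- SLC. From slabs with two long directions to slabs with one short direction, `L = 2 N`. Proof:
let `n0 = max A0 N`, `i` the short direction, `d = k + 3`. If `n < n0`: `S = slb i L c n` has at
most `(L + 1) (2 n0 + 1)^(d-1)` points, hence at most `K = d (L + 1) (2 n0 + 1)^(d-1)` edges, and it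
is connected (T_BCN), so `tp ≥ π^K`, `π = p / (p + q (1 - p))` (T_FEN). If `n ≥ n0`: let
`x, y ∈ S`. Let `j_1, ..., j_(d-1)` be the directions different from `i` and let `w_0 = x`,
`w_1, ..., w_(d-1) = y`, where `w_t` is obtained from `w_(t-1)` by replacing the coordinate `j_t`
by `y j_t` (and, for `t = 1`, also the coordinate `i` by `y i`). For each `t` choose
`j' ≠ i, j_t`; let `Q` be the box with the coordinates `j_t`, `j'` in `[-n, n]`, the coordinate
`i` in `[c, c + 2 N]` and every other coordinate in an interval of `2 N + 1` integers contained in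
`[-n, n]` which contains the coordinate of `w_(t-1)` (`n ≥ N`). `Q ⊆ S` contains `w_(t-1)`, `w_t`,
and it is the image of `bx2 0 1 n N` under a permutation of the coordinates and a translation:
`tp Q p q w_(t-1) w_t ≥ α` by T_AUT; T_DMC: `tp S p q w_(t-1) w_t ≥ α`. By `FKT.T_FKG`
`tp S p q x y ≥ α^(d-1)` (the intersection of the increasing connection events). Hypotheses:
T_AUT, T_DMC, T_FEN, T_BCN, `FKT.T_FKG`. -/
def T_SLC : Prop := ∀ (k : ℕ) (q : ℝ), 1 ≤ q → ∀ p : ℝ, 0 < p → p < 1 →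
  ∀ (N A0 : ℕ) (α : ℝ), 0 < α → (∀ A : ℕ, A0 ≤ A → ∀ x ∈ bx2 (0 : Fin (k + 3)) 1 A N,
    ∀ y ∈ bx2 (0 : Fin (k + 3)) 1 A N, α ≤ tp (bx2 (0 : Fin (k + 3)) 1 A N) p q x y) →
  ∃ (L : ℕ) (α' : ℝ), Slab (k + 3) p q L α'

theorem slb_of (h1 : T_BX2) (h2 : T_SLC) : T_SLB := by
  intro k q hq hQ p0 p h0 h01 h1' hμ
  obtain ⟨N, A0, α, hα, h⟩ := h1 k q hq hQ p0 p h0 h01 h1' hμ
  exact h2 k q hq p (h0.trans h01) h1' N A0 α hα h

end Pool.Agent.FKP
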