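import Pool.Agent.FKP.Main
import Pool.Agent.FKP.Basic
import Pool.Agent.FKT.TargetsA
import Pool.Agent.FKT.TargetsB

/-!
# Project FKP, part C, first half: good blocks have high probability for every wiring

Part C proves `T_REN`: slab percolation implies both tail bounds. In this file `l = L + 1` is the
thickness of the slabs, `K = bx v n` is a box, `Ex Prod.fst tgt R U (eb v n) p q` is the
random-cluster expectation on the edges of `K` with an arbitrary wiring `R` and an arbitrary finite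
vertex set `U` containing `K`: this is the conditional law of the edges of `K` given all other
edges (T_MAR).

Overview. T_XPL: exploration of `M` slabs, from below, by the cluster of `u`. T_LMX: a cluster
which crosses a window contains one of the prescribed points. T_LMY: two clusters which cross a
window are connected. T_TRN: a cluster which crosses a window crosses a window of another
direction. T_GLU: all large clusters are connected. T_ARC, T_EXA: existence of large clusters.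
T_GBE: good blocks. T_PRM, T_BLM: probability that all blocks of a separated family are bad.
-/

set_option autoImplicit false

namespace Pool.Agent.FKP

open Filter MeasureTheory Pool.Agent.FKT

section defs

variable {d : ℕ}

/-- The slab with `L + 1` layers in the direction `i`, at the heights `c, ..., c + L`, and
`[v l - n, v l + n]` in the other directions `l`. -/
noncomputable def slc (v : Vx d) (i : Fin d) (L : ℕ) (c : ℤ) (n : ℕ) : Finset (Vx d) :=
  Finset.Icc (fun l => if l = i then c else v l - n) (fun l => if l = i then c + L else v l + n)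

/-- The two-point function of all slabs of thickness `L + 1` is at least `α`. -/
def SlV (d : ℕ) (p q : ℝ) (L : ℕ) (α : ℝ) : Prop :=
  0 < α ∧ α ≤ 1 / 2 ∧ ∀ (v : Vx d) (i : Fin d) (c : ℤ) (n : ℕ), ∀ x ∈ slc v i L c n,
    ∀ y ∈ slc v i L c n, α ≤ tp (slc v i L c n) p q x y

/-- The edges of the box `bx v n` which start below the height `c` in the direction `i`. -/
noncomputable def elo (v : Vx d) (n : ℕ) (i : Fin d) (c : ℤ) : Finset (Ed d) :=
  (eb v n).filter fun e => e.1 i < c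

/-- The cluster of `u` crosses the window `[c, c + h)` of the direction `i`. -/
def Cr (i : Fin d) (c : ℤ) (h : ℕ) (u : Vx d) (ω : Finset (Ed d)) : Prop :=
  (∃ a, Cf ω u a ∧ a i < c) ∧ ∃ a, Cf ω u a ∧ c + h ≤ a i

/-- The point `x` is connected to the boundary of the box `bx x b` inside this box. -/
def Arm (O : Set (Ed d)) (x : Vx d) (b : ℕ) : Prop :=
  ∃ w ∈ bd x b, Cn (O ∩ (eb x b : Set (Ed d))) x w

/-- The centre of the block `z` (the blocks `bx (cc b z) b` tile the lattice). -/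
def cc (b : ℕ) (z : Vx d) : Vx d := fun i => (2 * (b : ℤ) + 1) * z i

/-- The block with centre `v` is good. -/
def GB (O : Set (Ed d)) (v : Vx d) (b : ℕ) : Prop :=
  (∀ z ∈ bx (0 : Vx d) 1, ∃ y ∈ bx (v + cc b z) b, Arm O y b) ∧
  ∀ x ∈ bx v (3 * b + 1), ∀ y ∈ bx v (3 * b + 1), Arm O x b → Arm O y b →
    Cn (O ∩ (eb v (4 * b + 2) : Set (Ed d))) x y

/-- The blocks of `D` are separated. -/
def Sp (D : Finset (Vx d)) : Prop :=
  ∀ z ∈ D, ∀ z' ∈ D, z ≠ z' → ∃ i, 5 ≤ |z i - z' i|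

end defs

/-- SLV. Translated slabs. Proof: `slc v i L c n` is the image of `slb i L (c - v i) n` by
`x ↦ x + v` (`Equiv.addRight v`); T_AUT (second claim) with `σ = 1`. Hypothesis: T_AUT. -/
def T_SLV : Prop := ∀ (d : ℕ) (p q : ℝ) (L : ℕ) (α : ℝ), Slab d p q L α →
  SlV d p q L (min α (1 / 2))

/-- XPL. Exploration. Proof: let `c j = c + j (L + 1)`, `Lo j = elo v n i (c j)`,
`S j = slc v i L (c j) n ⊆ bx v n` (`j < M`). For `ξ : Finset (Ed d)` let `E j ξ` be the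
statement `∃ w ∈ S j, w i = c j ∧ Cf ξ u w` and `w j ξ` such a point (choice, if there is one).
Let `F j ξ β` be the statement `E j ξ → Cf β (w j ξ) (τ j ξ)`: it is increasing in `β`, and
`Ex (no) (S j) (es (S j)) (ind (F j ξ ·))` is `1` if `E j ξ` fails, and it is
`tp (S j) (w j ξ) (τ j ξ) ≥ α` otherwise. T_SEQ (`Sj j = es (S j)`, `Uj j = S j`, `L j = Lo j` for
`j ≤ M`): an edge of `es (S j)` starts at a height in `[c j, c j + L]`, so `es (S j)` is disjoint
from `Lo j` and contained in `Lo (j + 1)`. Inclusion of events, for `ω ⊆ eb v n`: if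
`w i = c j` and `Cf (ω ∩ Lo j) u w` then `w ∈ bx v n` (it is connected to `u ∈ bx v n` by edges of
the box), so `w ∈ S j` and `E j (ω ∩ Lo j)` holds; the chosen point `w' = w j (ω ∩ Lo j)`
is connected to `u` in `ω`; so if `¬ Cf ω u (τ j (ω ∩ Lo j))` then `w'` is not connected to
`τ j (ω ∩ Lo j)` in `ω`, hence not in `ω ∩ es (S j)`: `¬ F j (ω ∩ Lo j) (ω ∩ es (S j))`.
Finally `ind (∀ j < M, ..) ≤ ∏ j ∈ range M, ind (¬ F ..)`. Hypothesis: T_SEQ. -/
def T_XPL : Prop := ∀ (d : ℕ) (p q : ℝ), 0 < p → p < 1 → 1 ≤ q → ∀ (L : ℕ) (α : ℝ),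
  SlV d p q L α → ∀ (R : Vx d → Vx d → Prop) (U : Finset (Vx d)) (v : Vx d) (n : ℕ),
  bx v n ⊆ U → ∀ (i : Fin d) (c : ℤ) (M : ℕ), v i - n ≤ c → c + M * (L + 1) ≤ v i + n + 1 →
  ∀ u ∈ bx v n, ∀ τ : ℕ → Finset (Ed d) → Vx d,
  (∀ j < M, ∀ ξ : Finset (Ed d), τ j ξ ∈ slc v i L (c + j * (L + 1)) n) →
    Ex Prod.fst tgt R U (eb v n) p q (fun ω => ind (∀ j < M,
      (∃ w : Vx d, w i = c + j * (L + 1) ∧ Cf (ω ∩ elo v n i (c + j * (L + 1))) u w) ∧
        ¬ Cf ω u (τ j (ω ∩ elo v n i (c + j * (L + 1)))))) ≤ (1 - α) ^ M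

/-- ENT. Entrance into a layer. Proof: let `D` be the set of the points connected to `a` in
`ω ∩ elo v n i c`. If no point of `D` has height `c` then all points of `D` have height `< c`
(`a` has, and an edge of `elo` joins two points of the same height `< c` or goes from a height
`h < c` to `h + 1 ≤ c`). Then `D` is closed under all steps of `ω ⊆ eb v n`: if an end of
`e ∈ ω` is in `D` then `e.1 i < c` (`e.1 i ≤ (tgt e) i`), so `e ∈ elo v n i c`. So `b ∈ D`,
a contradiction. -/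
def T_ENT : Prop := ∀ (d : ℕ) (v : Vx d) (n : ℕ) (i : Fin d) (c : ℤ) (ω : Finset (Ed d)),
  ω ⊆ eb v n → ∀ a b : Vx d, a i < c → c ≤ b i → Cf ω a b →
    ∃ w : Vx d, w i = c ∧ Cf (ω ∩ elo v n i c) a w

/-- LMX. A cluster which crosses a window contains one of the prescribed points. Proof: if `u` is
as in the event, let `a` with `Cf ω u a`, `a i < c`, and `b` with `Cf ω u b`,
`c + M (L + 1) ≤ b i`; `a ∈ bx v n` (connected to `u` by edges of the box). `Cf ω a b`, so for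
`j < M`, by T_ENT, there is `w` with `w i = c + j (L + 1)` and `Cf (ω ∩ elo ..) a w`; and
`¬ Cf ω a (y j)`. So the event is contained in the union over `a ∈ bx v n` of the events of T_XPL
for `u := a`, `τ j ξ = y j`; `(bx v n).card = (2 n + 1)^d`. Hypotheses: T_XPL, T_ENT. -/
def T_LMX : Prop := ∀ (d : ℕ) (p q : ℝ), 0 < p → p < 1 → 1 ≤ q → ∀ (L : ℕ) (α : ℝ),
  SlV d p q L α → ∀ (R : Vx d → Vx d → Prop) (U : Finset (Vx d)) (v : Vx d) (n : ℕ),
  bx v n ⊆ U → ∀ (i : Fin d) (c : ℤ) (M : ℕ), v i - n ≤ c → c + M * (L + 1) ≤ v i + n + 1 →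
  ∀ y : ℕ → Vx d, (∀ j < M, y j ∈ slc v i L (c + j * (L + 1)) n) →
    Ex Prod.fst tgt R U (eb v n) p q (fun ω => ind (∃ u ∈ bx v n, Cr i c (M * (L + 1)) u ω ∧
      ∀ j < M, ¬ Cf ω u (y j))) ≤ (2 * (n : ℝ) + 1) ^ d * (1 - α) ^ M

/-- LMY. Two clusters which cross a window are connected. Proof: as T_LMX, for `a, a'` in the
clusters of `u`, `u'` with `a i < c`, `a' i < c`: union over the pairs `(a, a')` of the events of
T_XPL for `u := a` and `τ j ξ` = a point `w' ∈ slc v i L (c + j (L + 1)) n` with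
`w' i = c + j (L + 1)` and `Cf ξ a' w'` if there is one, otherwise any point of the slab (it is
not empty). By T_ENT (for `a'`) there is such a point `w'` for `ξ = ω ∩ elo ..`, so the chosen one
is connected to `a'`, hence to `u'`, and `Cf ω a (τ j ξ)` would imply `Cf ω u u'`. Hypotheses:
T_XPL, T_ENT. -/
def T_LMY : Prop := ∀ (d : ℕ) (p q : ℝ), 0 < p → p < 1 → 1 ≤ q → ∀ (L : ℕ) (α : ℝ),
  SlV d p q L α → ∀ (R : Vx d → Vx d → Prop) (U : Finset (Vx d)) (v : Vx d) (n : ℕ),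
  bx v n ⊆ U → ∀ (i : Fin d) (c : ℤ) (M : ℕ), v i - n ≤ c → c + M * (L + 1) ≤ v i + n + 1 →
    Ex Prod.fst tgt R U (eb v n) p q (fun ω => ind (∃ u ∈ bx v n, ∃ u' ∈ bx v n,
      Cr i c (M * (L + 1)) u ω ∧ Cr i c (M * (L + 1)) u' ω ∧ ¬ Cf ω u u')) ≤
        (2 * (n : ℝ) + 1) ^ (2 * d) * (1 - α) ^ M

/-- TRN. Transfer to another direction. Proof: let `l = L + 1` and for `j < 3 m` let `y j` be the
point with `(y j) i = c + j l`, `(y j) i' = c' + j l` and the coordinates `v k` for `k ≠ i, i'`: it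
is in the slab `j` of the window of `i`. If `Cr i c (3 m l) u ω` then `Cr i c (m l) u ω` and
`Cr i (c + 2 m l) (m l) u ω`. T_LMX for the first window with the points `y j`, `j < m`, and for the
second window with the points `y (2 m + j)`, `j < m`: outside an event of probability at most
`2 (2 n + 1)^d (1 - α)^m` the cluster of `u` contains `y j` for some `j < m` and `y j'` for some
`2 m ≤ j' < 3 m`; `(y j) i' = c' + j l < c' + m l` and `(y j') i' ≥ c' + 2 m l`: it crosses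
the window `[c' + m l, c' + 2 m l)` of `i'`. Hypothesis: T_LMX. -/
def T_TRN : Prop := ∀ (d : ℕ) (p q : ℝ), 0 < p → p < 1 → 1 ≤ q → ∀ (L : ℕ) (α : ℝ),
  SlV d p q L α → ∀ (R : Vx d → Vx d → Prop) (U : Finset (Vx d)) (v : Vx d) (n : ℕ),
  bx v n ⊆ U → ∀ (i i' : Fin d) (c c' : ℤ) (m : ℕ), i ≠ i' →
  v i - n ≤ c → c + 3 * m * (L + 1) ≤ v i + n + 1 →
  v i' - n ≤ c' → c' + 3 * m * (L + 1) ≤ v i' + n + 1 →
    Ex Prod.fst tgt R U (eb v n) p q (fun ω => ind (∃ u ∈ bx v n,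
      Cr i c (3 * m * (L + 1)) u ω ∧ ¬ Cr i' (c' + m * (L + 1)) (m * (L + 1)) u ω)) ≤
        2 * (2 * (n : ℝ) + 1) ^ d * (1 - α) ^ m

/-- GLU. All large clusters are connected. Proof: let `l = L + 1`, `i0 = 0`, `i1 = 1` (`2 ≤ d`).
All windows below are in `[v i, v i + n]`, of the form `[v i + s, v i + s + h)`, `s + h ≤ 9 m l`.
Claim: for every `i` and `c` with `v i - n ≤ c`, `c + 9 m l ≤ v i + n`: outside an event of
probability at most `4 (2 n + 1)^d (1 - α)^m` every `u` with `Cr i c (9 m l) u ω` satisfies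
`Cr i0 (v i0 + 4 m l) (m l) u ω`. If `i ≠ i0`: T_TRN with `3 m` in place of `m`, from `(i, c)` to
`i0`, `c' = v i0`, gives `Cr i0 (v i0 + 3 m l) (3 m l) u ω`, which implies the claim (the window
`[3 m l, 6 m l)` contains `[4 m l, 5 m l)`). If `i = i0`: T_TRN with `3 m`, from `(i0, c)` to `i1`,
`c' = v i1`, gives `Cr i1 (v i1 + 3 m l) (3 m l) u ω`, and T_TRN with `m` from
`(i1, v i1 + 3 m l)` to `i0`, `c' = v i0 + 3 m l`, gives `Cr i0 (v i0 + 4 m l) (m l) u ω`. If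
`Cr i c (9 m l) u ω` for `ω ⊆ eb v n`, `u ∈ bx v n`, then `v i - n < c` and
`c + 9 m l ≤ v i + n` (the cluster is contained in the box): at most `2 n + 1` values of `c` for
each `i`. So outside an event of probability at most `4 d (2 n + 1)^(d + 1) (1 - α)^m` all the
large clusters cross the window `[v i0 + 4 m l, v i0 + 5 m l)` of `i0`, and T_LMY for this
window. `d + 1 ≤ 2 d`, `4 d + 1 ≤ 5 d`. Hypotheses: T_TRN, T_LMY. -/
def T_GLU : Prop := ∀ (d : ℕ) (p q : ℝ), 2 ≤ d → 0 < p → p < 1 → 1 ≤ q → ∀ (L : ℕ) (α : ℝ),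
  SlV d p q L α → ∀ (R : Vx d → Vx d → Prop) (U : Finset (Vx d)) (v : Vx d) (n : ℕ),
  bx v n ⊆ U → ∀ m : ℕ, 9 * m * (L + 1) ≤ n →
    Ex Prod.fst tgt R U (eb v n) p q (fun ω => ind (∃ u ∈ bx v n, ∃ u' ∈ bx v n,
      (∃ (i : Fin d) (c : ℤ), Cr i c (9 * m * (L + 1)) u ω) ∧
      (∃ (i : Fin d) (c : ℤ), Cr i c (9 * m * (L + 1)) u' ω) ∧ ¬ Cf ω u u')) ≤
        5 * d * (2 * (n : ℝ) + 1) ^ (2 * d) * (1 - α) ^ m

/-- ARC. One arm. Proof: let `D` be the set of the points connected to `x` in `O ∩ eb x b`. If no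
point of `bd x b` is in `D` then `D ⊆ bx x b \ bd x b` and `D` is closed under all steps of `O` (an
edge with an end in `bx x b \ bd x b` has both ends in `bx x b`), so `z ∈ D`, but
`z ∉ bx x b \ bd x b`. (For `b = 0`: `bd x 0 = {x}` as there is a coordinate.) -/
def T_ARC : Prop := ∀ (d : ℕ) (O : Set (Ed d)) (x z : Vx d) (b : ℕ), Cn O x z →
  (∃ i, (b : ℤ) ≤ |z i - x i|) → Arm O x b

/-- EXA. Existence of a large cluster in a box. Proof: `i0 = 0`, `i1 = 1`, `l = L + 1`. For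
`j < m` let `x j` be the point `v'` with the coordinate `i0` replaced by `v' i0 - b + j l`, and
`z j = x j + b e_i1`; both are in the slab `S j = slc v i0 L (v' i0 - b + j l) n ⊆ bx v n`, and
`x j ∈ bx v' b` (`j l ≤ (m - 1) l ≤ 2 b`). T_SEQ (`Sj j = es (S j)`, `Uj j = S j`,
`L j = elo v n i0 (v' i0 - b + j l)`) for `F j ξ β = Cf β (x j) (z j)`: the probability that
`¬ Cf (ω ∩ es (S j)) (x j) (z j)` for all `j < m` is at most `(1 - α)^m`. If
`Cf (ω ∩ es (S j)) (x j) (z j)` then `Arm ω (x j) b` by T_ARC. Hypotheses: T_SEQ, T_ARC. -/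
def T_EXA : Prop := ∀ (d : ℕ) (p q : ℝ), 2 ≤ d → 0 < p → p < 1 → 1 ≤ q → ∀ (L : ℕ) (α : ℝ),
  SlV d p q L α → ∀ (R : Vx d → Vx d → Prop) (U : Finset (Vx d)) (v v' : Vx d) (n b : ℕ),
  bx v n ⊆ U → (∀ i, |v' i - v i| + 2 * b ≤ n) → ∀ m : ℕ, m * (L + 1) ≤ 2 * b + 1 →
    Ex Prod.fst tgt R U (eb v n) p q (fun ω => ind (∀ y ∈ bx v' b,
      ¬ Arm (ω : Set (Ed d)) y b)) ≤ (1 - α) ^ m

/-- GBE. Good blocks have high probability. Proof: let `l = L + 1`, `b = 9 m l + 1`,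
`n = 4 b + 2`. If the block is not good (`ω ⊆ eb v n`), then either for some `z ∈ bx 0 1` no
`y ∈ bx (v + cc b z) b` satisfies `Arm ω y b`: probability at most `3^d (1 - α)^m`, by T_EXA
with `v' = v + cc b z` (`|v' i - v i| + 2 b ≤ (2 b + 1) + 2 b ≤ n`, `m l ≤ 2 b + 1`); or there are
`x, y ∈ bx v (3 b + 1) ⊆ bx v n` with `Arm ω x b`, `Arm ω y b`, not connected in
`ω ∩ eb v n = ω`: `Arm ω x b` gives `w` with `Cf ω x w`, `|w i - x i| = b` for some `i`, so
`Cr i c (9 m l) x ω` for `c = min (x i) (w i) + 1` (`c + 9 m l = min + b = max`); the same for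
`y`; probability at most `5 d (2 n + 1)^(2 d) (1 - α)^m` by T_GLU (`9 m l ≤ n`). Here
`2 n + 1 = 72 l m + 13`, and `(3^d + 5 d (72 l m + 13)^(2 d)) (1 - α)^m → 0` as `m → ∞` (for
instance `tendsto_pow_const_mul_const_pow_of_abs_lt_one`, `0 ≤ 1 - α < 1`, and
`72 l m + 13 ≤ (72 l + 13) m` for `m ≥ 1`). Hypotheses: T_EXA, T_GLU. -/
def T_GBE : Prop := ∀ (d : ℕ) (p q : ℝ), 2 ≤ d → 0 < p → p < 1 → 1 ≤ q → ∀ (L : ℕ) (α : ℝ),
  SlV d p q L α → ∀ ε : ℝ, 0 < ε → ∃ b : ℕ, 1 ≤ b ∧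
    ∀ (R : Vx d → Vx d → Prop) (U : Finset (Vx d)) (v : Vx d), bx v (4 * b + 2) ⊆ U →
      Ex Prod.fst tgt R U (eb v (4 * b + 2)) p q (fun ω => ind (¬ GB (ω : Set (Ed d)) v b)) ≤ ε

/-- PRM. Product bound. Proof: by induction on `J`. For `J = insert j J'`: T_MAR with `G1 = Gj j`
and `F A B = (∏ k ∈ J', ind (Q k (A ∩ Gj k))) * ind (Q j B)` (as `Gj k` is disjoint from `Gj j`,
`(ω \ Gj j) ∩ Gj k = ω ∩ Gj k`); the inner expectation is
`(∏ k ∈ J', ind (Q k (A ∩ Gj k))) * Ex R' U (Gj j) (ind (Q j ·)) ≤ (∏ ..) * ε`, and the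
induction hypothesis for `J'`. Hypothesis: T_MAR. -/
def T_PRM : Prop := ∀ (V E ι : Type) [DecidableEq E] [DecidableEq ι] (s t : E → V)
  (R : V → V → Prop) (U : Finset V) (G : Finset E) (p q ε : ℝ), 0 < p → p < 1 → 0 < q → 0 ≤ ε →
  ∀ (J : Finset ι) (Gj : ι → Finset E) (Q : ι → Finset E → Prop), (∀ j ∈ J, Gj j ⊆ G) →
  (∀ j ∈ J, ∀ k ∈ J, j ≠ k → Disjoint (Gj j) (Gj k)) →
  (∀ j ∈ J, ∀ R' : V → V → Prop, Ex s t R' U (Gj j) p q (fun ω => ind (Q j ω)) ≤ ε) →
    Ex s t R U G p q (fun ω => ∏ j ∈ J, ind (Q j (ω ∩ Gj j))) ≤ ε ^ J.card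

/-- GBL. Being good depends only on the edges of the big box. Proof: for `y ∈ bx (v + cc b z) b`,
`z ∈ bx 0 1`, and for `y ∈ bx v (3 b + 1)`, `eb y b ⊆ eb v (4 b + 2)`; so all the sets
`O ∩ eb y b` and `O ∩ eb v (4 b + 2)` are unchanged if `O` is replaced by
`rs (eb v (4 b + 2)) O`, which is `O ∩ eb v (4 b + 2)` as a set. -/
def T_GBL : Prop := ∀ (d : ℕ) (O : Set (Ed d)) (v : Vx d) (b : ℕ),
  GB O v b ↔ GB ((rs (eb v (4 * b + 2)) O : Finset (Ed d)) : Set (Ed d)) v b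

/-- BLM. Probability that all blocks of a separated family are bad. Proof: let `K z = eb (cc b z)
(4 b + 2)` and `F` the union of the `K z`, `z ∈ D`. By T_GBL the event is
`{ω | ∀ z ∈ D, ¬ GB (rs F (cfg ω) ∩ K z) (cc b z) b}`, so by T_LOC its probability is the limit
(`N → ∞`) of `phi 0 N p q (fun ω => ∏ z ∈ D, ind (¬ GB (ω ∩ F ∩ K z) (cc b z) b))`. For `N` so
large that `bx (cc b z) (4 b + 2) ⊆ bx 0 N` for all `z ∈ D`, T_PRM for `Gj z = K z` bounds it by
`ε ^ |D|`: the sets `K z` are disjoint, since for `z ≠ z'` there is `i` with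
`|cc b z i - cc b z' i| ≥ 5 (2 b + 1) > 2 (4 b + 2)`. Hypotheses: `FKT.T_LOC`, T_PRM, T_GBL. -/
def T_BLM : Prop := ∀ (d : ℕ) (p q ε : ℝ), 0 < d → 0 < p → p < 1 → 1 ≤ q → 0 ≤ ε → ∀ b : ℕ,
  (∀ (R : Vx d → Vx d → Prop) (U : Finset (Vx d)) (v : Vx d), bx v (4 * b + 2) ⊆ U →
    Ex Prod.fst tgt R U (eb v (4 * b + 2)) p q (fun ω => ind (¬ GB (ω : Set (Ed d)) v b)) ≤ ε) →
  ∀ μ : Measure (Ed d → Bool), IsWired d p q μ → ∀ D : Finset (Vx d), Sp D →
    μ.real {ω | ∀ z ∈ D, ¬ GB (cfg ω) (cc b z) b} ≤ ε ^ D.card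

end Pool.Agent.FKP
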