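import Pool.Agent.FKP.PartC
import Pool.Agent.FKP.PartB

/-!
# Project FKP, part C, second half: contours of bad blocks, the sum, and the tail bounds

The first half (`FKP/PartC.lean`) gives `b` such that the blocks of any separated finite set `D`
are all bad with probability at most `ε ^ |D|` (T_GBE, T_BLM). Here: if the cluster of the origin
is finite and large, then there is a contour (a set of edges of the coarse lattice connected
through unit squares) of edges between touched and untouched blocks; the touched ends are bad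
blocks (T_BDB, T_ACN, T_CTW); the contour is at least as long as the diameter and as the power
`(d - 1) / d` of the volume (T_LWE, T_LWI); the sum over the contours (T_SPB, T_PED, T_PSM,
T_TAI); the bounds for all `n` (T_FIP, T_MEA, T_FIN) and the target T_REN (`ren_of`).
-/

set_option autoImplicit false

namespace Pool.Agent.FKP

open Filter MeasureTheory Pool.Agent.FKT

section defs

variable {d : ℕ}

/-- The blocks touched by the vertex set `C`. -/
def Tch (b : ℕ) (C : Set (Vx d)) : Set (Vx d) := {z | ∃ x ∈ C, x ∈ bx (cc b z) b}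

/-- From every point of `A` the ray in every positive direction contains an edge of `P` of that
direction. -/
def Exi (A : Finset (Vx d)) (P : Finset (Ed d)) : Prop :=
  ∀ z ∈ A, ∀ i : Fin d, ∃ t : ℕ, (z + Pi.single i (t : ℤ), i) ∈ P

/-- The Peierls event: there is a contour `P` of `k` edges through an edge of the positive half
axis at distance less than `k`, and a separated set `D` of at least `k / (2 d 9^d)` ends of edges
of `P` such that all blocks of `D` are bad. -/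
def Ev (d b k : ℕ) : Set (Ed d → Bool) :=
  {ω | ∃ (P : Finset (Ed d)) (s : ℕ) (i : Fin d) (D : Finset (Vx d)), (i : ℕ) = 0 ∧
    P.card = k ∧ s < k ∧ ((Pi.single i (s : ℤ) : Vx d), i) ∈ P ∧
    (∀ e ∈ P, Relation.ReflTransGen (fun x y => x ∈ P ∧ y ∈ P ∧ Sq x y)
      ((Pi.single i (s : ℤ) : Vx d), i) e) ∧
    (∀ z ∈ D, ∃ e ∈ P, z = e.1 ∨ z = tgt e) ∧ Sp D ∧ k ≤ 2 * d * 9 ^ d * D.card ∧
    ∀ z ∈ D, ¬ GB (cfg ω) (cc b z) b}

end defs

/-- BDB. A touched block with an untouched neighbour is bad. Proof: let `x ∈ C0 ω` be in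
`bx (cc b z) b` and suppose that the block `z` is good. By the hypothesis and T_ARC (`0` is
connected to `x` and to a point of `C0 ω` at distance at least `b` of `x`) `Arm (cfg ω) x b`. By
the first property of GB, for `z' - z ∈ bx 0 1`, there is `y ∈ bx (cc b z + cc b (z' - z)) b =
bx (cc b z') b` with `Arm (cfg ω) y b`. Both `x` and `y` are in `bx (cc b z) (3 b + 1)`, so by the
second property they are connected in `cfg ω`: `y ∈ C0 ω`, `z'` is touched. Hypothesis: T_ARC. -/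
def T_BDB : Prop := ∀ (d b : ℕ) (ω : Ed d → Bool),
  (∀ x ∈ C0 ω, ∃ z ∈ C0 ω, ∃ i, (b : ℤ) ≤ |z i - x i|) →
  ∀ z ∈ Tch b (C0 ω), ∀ z' : Vx d, z' ∉ Tch b (C0 ω) → z' - z ∈ bx (0 : Vx d) 1 →
    ¬ GB (cfg ω) (cc b z) b

/-- ACN. The touched blocks. Proof: for `x : Vx d` let `cell x` be the point with coordinates
`(x i + b) / (2 b + 1)` (integer division, rounding down): `x ∈ bx (cc b z) b ↔ z = cell x`. So
`Tch b C` is the image of `C` by `cell`: finite, and every fibre has at most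
`(2 b + 1)^d = |bx (cc b z) b|` points; `cell 0 = 0`. Connectedness: along one open edge `cell`
does not change or changes by `± e_i`; for `v ∈ C0 ω` the set of the points of `C0 ω` with `cell`
connected to `0` inside `A` contains `0` and is closed under the steps of `cfg ω` (an open edge
with one end in `C0 ω` has both ends in `C0 ω`), so it is `C0 ω`. -/
def T_ACN : Prop := ∀ (d b : ℕ) (ω : Ed d → Bool), (C0 ω).Finite →
  ∃ A : Finset (Vx d), (A : Set (Vx d)) = Tch b (C0 ω) ∧ (0 : Vx d) ∈ A ∧ CnS A ∧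
    (C0 ω).ncard ≤ (2 * b + 1) ^ d * A.card ∧ ∀ v ∈ C0 ω, ∃ z ∈ A, v ∈ bx (cc b z) b

/-- CTW. The contour. Proof: let `A ⊆ bx 0 N`, `J = Icc (fun _ => -(N + 1)) (fun _ => N + 1)`, and
let `z1 = fun _ => N + 1` be the top corner, `z1 ∉ A`. T_SEP (`W' = A`, `z0 = 0`) gives `W`; let
`P = bdy J W`. The first claim is T_CUT. Second claim: `e ∈ P` has exactly one end in `W`; it is
in `A` by the last property of T_SEP; the other end is not in `W ⊇ A`. Third claim: for `i` let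
`Fa = {x ∈ J | x i = N + 1}`, again a box (`Icc` with lower bound `N + 1` in the coordinate `i`),
connected by T_BCN, without points of `A`, and `z1 ∈ Fa`. No point of `Fa` is in `W`: otherwise a
path inside `Fa` from it to `z1 ∉ W` would contain an edge of `bdy J W`, whose end in `W` is in
`A`. For `z ∈ A ⊆ W` the point `z + (N + 1 - z i) e_i` is in `Fa`, so there is a first `t` with
`z + (t + 1) e_i ∉ W`, and `(z + t e_i, i) ∈ bdy J W`. Hypotheses: T_SEP, T_CUT, T_BCN. -/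
def T_CTW : Prop := ∀ (d : ℕ), 2 ≤ d → ∀ A : Finset (Vx d), (0 : Vx d) ∈ A → CnS A →
  ∃ P : Finset (Ed d),
    (∀ e ∈ P, ∀ e' ∈ P, Relation.ReflTransGen (fun x y => x ∈ P ∧ y ∈ P ∧ Sq x y) e e') ∧
    (∀ e ∈ P, (e.1 ∈ A ∧ tgt e ∉ A) ∨ (tgt e ∈ A ∧ e.1 ∉ A)) ∧ Exi A P

/-- LWE. The contour is longer than the diameter. Proof: let `z i ≤ z' i` (otherwise exchange). For
every `h ∈ [z i, z' i]` there is `a ∈ A` with `a i = h`: along one edge the coordinate `i` changes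
by at most `1`; if there is none, the set of the points of `A` with coordinate `i` less than `h`
contains `z`, not `z'`, and is closed under the steps of `es A`. Let `i' ≠ i` (`2 ≤ d`); by `Exi`
there is `(a + t e_i', i') ∈ P`, whose base point has the coordinate `h` in the direction `i`. So
the image of `P` by `e ↦ e.1 i` contains `[z i, z' i]`: `|P| ≥ z' i - z i + 1`. -/
def T_LWE : Prop := ∀ (d : ℕ), 2 ≤ d → ∀ (A : Finset (Vx d)) (P : Finset (Ed d)), CnS A →
  Exi A P → ∀ z ∈ A, ∀ z' ∈ A, ∀ i, |z i - z' i| < (P.card : ℤ)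

/-- LWI. Isoperimetric inequality (from Loomis and Whitney). Proof: use Mathlib's
`MeasureTheory.lintegral_prod_lintegral_pow_le` (file
`Mathlib/Analysis/FunctionalSpaces/SobolevInequality.lean`) for `ι = Fin d`, `A i = ℤ`, `μ i` the
counting measure, the exponent `p = d / (d - 1)`, and `f x = |{i | (x, i) ∈ P}|` (in `ℝ≥0∞`):
`∫ f = |P|` (`Measure.pi` of the counting measures gives mass `1` to every point of the countable
space `Vx d`); for `x ∈ A` and every `i` the sum of `f` over the line through `x` in the direction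
`i` is at least `1` by `Exi`, so the integrand on the left side is at least the indicator of `A`:
`|A| ≤ |P| ^ (d / (d - 1))`; raise to the power `d - 1`. (Alternatively prove directly the
Loomis-Whitney inequality `|A|^(d - 1) ≤ Π_i |A_i|`, `A_i` the projection of `A` along `e_i`, by
induction on `d`; `|A_i| ≤ |P|` by `Exi`.) -/
def T_LWI : Prop := ∀ (d : ℕ), 2 ≤ d → ∀ (A : Finset (Vx d)) (P : Finset (Ed d)),
  Exi A P → A.card ^ (d - 1) ≤ P.card ^ d

/-- SPB. A separated subset. Proof: let `D'` be a subset of `D` with `Sp D'` of maximal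
cardinality. Every `z ∈ D` is in `bx z' 4` for some `z' ∈ D'` (otherwise `insert z D'` is
separated), so `D` is contained in the union of `|D'|` sets of `9^d` points. -/
def T_SPB : Prop := ∀ (d : ℕ) (D : Finset (Vx d)), ∃ D' ⊆ D, Sp D' ∧
  D.card ≤ 9 ^ d * D'.card

/-- PED. The deterministic conclusion. Proof: every `x ∈ C0 ω` has a point `z ∈ C0 ω` with
`b ≤ |z i - x i|` for some `i`: `z = 0` if `b ≤ |x i|`, and `z = v` otherwise. Let `A` be given by
T_ACN, `P` by T_CTW, `k = |P|`. Let `D0` be the set of the ends in `A` of the edges of `P`; by T_BDB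
all blocks of `D0` are bad (for `e = (x, i)` the two ends differ by `± e_i ∈ bx 0 1`). Every point
is an end of at most `2 d` edges, so `k ≤ 2 d |D0|`; let `D ⊆ D0` be given by T_SPB. `Exi` for
`0 ∈ A` and the direction `i0 = 0` gives `s` with `(s e_i0, i0) ∈ P`; one end of this edge is in
`A`: it is `s e_i0` or `(s + 1) e_i0`; by T_LWE for `0` and this point `s < k`. So `ω ∈ Ev d b k`.
For `v ∈ C0 ω`, `v ∈ bx (cc b z) b` with `z ∈ A`, `|z i| ≤ k - 1` by T_LWE, so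
`|v i| ≤ (2 b + 1) (k - 1) + b < (2 b + 1) k`. The last claim: `|C0 ω| ≤ (2 b + 1)^d |A|` and
T_LWI. Hypotheses: T_BDB, T_ACN, T_CTW, T_LWE, T_LWI, T_SPB. -/
def T_PED : Prop := ∀ (d b : ℕ), 2 ≤ d → ∀ ω : Ed d → Bool, (C0 ω).Finite →
  (∃ v ∈ C0 ω, ∃ i, 2 * (b : ℤ) ≤ |v i|) → ∃ k : ℕ, ω ∈ Ev d b k ∧
    (∀ v ∈ C0 ω, ∀ i, |v i| < (2 * (b : ℤ) + 1) * k) ∧
    (C0 ω).ncard ^ (d - 1) ≤ ((2 * b + 1) ^ d) ^ (d - 1) * k ^ d

/-- PSM. The sum over the contours. Proof: `Ev d b 0` is empty. Let `k ≥ 1`,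
`δ = 1 / (1024 d^2) ≤ 1`. `Ev d b k` is the union over `s < k`, over the sets `P` of `k` edges which
contain `(s e_i0, i0)`, `i0 = 0`, and are connected through squares (at most `(8 d)^(2 k)` by
T_PLQ), and over the subsets `D` of the set of the ends of `P` (at most `2^(2 k)`) with `Sp D` and
`k ≤ 2 d 9^d |D|`, of the events of the hypothesis, of probability at most
`δ^(2 d 9^d |D|) ≤ δ^k`. The union bound: `k (8 d)^(2 k) 4^k δ^k ≤ (2 * 64 d^2 * 4 * δ)^k =
(1 / 2)^k` as `k ≤ 2^k`. Hypothesis: T_PLQ. -/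
def T_PSM : Prop := ∀ (d b : ℕ), 1 ≤ d → ∀ μ : Measure (Ed d → Bool), IsProbabilityMeasure μ →
  (∀ D : Finset (Vx d), Sp D → μ.real {ω | ∀ z ∈ D, ¬ GB (cfg ω) (cc b z) b} ≤
    ((1 / (1024 * (d : ℝ) ^ 2)) ^ (2 * d * 9 ^ d)) ^ D.card) →
  ∀ k : ℕ, μ.real (Ev d b k) ≤ (1 / 2) ^ k

/-- TAI. The tails for large `n`. Proof: in both cases the event is contained in the union of the
`Ev d b k`, `k > m`, of measure at most `Σ_{k > m} 2^(-k) = 2^(-m)` (`measure_iUnion_le` in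
`ℝ≥0∞`, or a countable union bound for `μ.real`). (1) for `ω ∈ Rad d n` take `k` from T_PED:
`(2 b + 1) m ≤ n ≤ |v i| < (2 b + 1) k`. (2) for `ω ∈ Vol d n`: `C0 ω` has more than
`(4 b + 1)^d = |bx 0 (2 b)|` points, so it contains `v` with `2 b < |v i|` for some `i`; T_PED:
`((2 b + 1)^d)^(d - 1) m^d < n^(d - 1) ≤ |C0 ω|^(d - 1) ≤ ((2 b + 1)^d)^(d - 1) k^d`, so `m < k`.
Hypothesis: T_PED. -/
def T_TAI : Prop := ∀ (d b : ℕ), 2 ≤ d → ∀ μ : Measure (Ed d → Bool), IsProbabilityMeasure μ →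
  (∀ k : ℕ, μ.real (Ev d b k) ≤ (1 / 2) ^ k) →
  (∀ n m : ℕ, 2 * b ≤ n → (2 * b + 1) * m ≤ n → μ.real (Rad d n) ≤ (1 / 2) ^ m) ∧
  ∀ n m : ℕ, (4 * b + 1) ^ d < n → ((2 * b + 1) ^ d) ^ (d - 1) * m ^ d < n ^ (d - 1) →
    μ.real (Vol d n) ≤ (1 / 2) ^ m

/-- FIP. The cluster of the origin reaches any distance. Proof: `i0 = 0`, `i1 = 1`,
`S = slc 0 i0 L 0 n`, `y = n e_i1`; `0, y ∈ S`. For `N ≥ n + L`, `S ⊆ bx 0 N`, and T_DMC
(`G1 = es S`, `U1 = S`, `f a = ind (Cf a 0 y)`) gives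
`α ≤ tp S p q 0 y ≤ phi 0 N p q (fun ω => f (ω ∩ es S))`; by `FKT.T_LOC` the limit is
`μ.real {ω | Cf (rs (es S) (cfg ω)) 0 y}`, and on this event `y ∈ C0 ω`. Hypotheses: T_DMC,
`FKT.T_LOC`. -/
def T_FIP : Prop := ∀ (d : ℕ) (p q : ℝ), 2 ≤ d → 0 < p → p < 1 → 1 ≤ q → ∀ (L : ℕ) (α : ℝ),
  SlV d p q L α → ∀ μ : Measure (Ed d → Bool), IsWired d p q μ → ∀ n : ℕ,
    α ≤ μ.real {ω | ∃ v ∈ C0 ω, ∃ i, (n : ℤ) ≤ |v i|}

/-- MEA. Measurability. Proof: `Cn (cfg ω) 0 v` holds iff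
`Cn (cfg ω ∩ eb 0 N) 0 v` holds for some `N` (a finite path), and this event depends on finitely
many edges (`FKT.T_LOC`, last claim, or directly: a finite union of cylinders). `ω ∈ Inf0 d` iff
for every `N` there is `v ∉ bx 0 N` in `C0 ω` (a subset of `Vx d` is infinite iff it is contained
in no `bx 0 N`); countable intersections and unions. -/
def T_MEA : Prop := ∀ (d : ℕ), MeasurableSet (Inf0 d)

/-- FIN. The bounds for all `n`. Proof: let `B = 2 b + 1` and `X n` the event of the third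
hypothesis. `X n ⊆ Rad d n ∪ Inf0 d`, so `α ≤ μ.real (Rad d n) + μ.real (Inf0 d)` and, as
`μ.real (Rad d n) → 0`, `α ≤ μ.real (Inf0 d)`; hence `μ.real {ω | (C0 ω).Finite} ≤ 1 - α ≤
exp (- α)` (T_MEA), and this bounds `Rad d n` and `Vol d n` for all `n`. (1) radius, `n ≥ 4 B`:
with `m = n / B` (natural division, `m ≥ n / B - 1` in the reals)
`μ.real (Rad d n) ≤ 2 * 2^(- n / B) ≤ 2^(- n / (2 B)) = exp (- n log 2 / (2 B))`; for
`1 ≤ n < 4 B`: `exp (- α) ≤ exp (- n α / (4 B))`. `σ = α / (4 B)` (`log 2 ≥ 1 / 2 ≥ α`). (2) volume: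
let `x = n ^ ((d - 1) / d)`, so `x ^ d = n ^ (d - 1)`. If `n > (4 b + 1)^d` and
`x ≥ 4 B^(d - 1)`, let `m = ⌈x / B^(d - 1)⌉ - 1`, `x / B^(d - 1) - 1 ≤ m < x / B^(d - 1)`, so
`(B^d)^(d - 1) m^d = (B^(d - 1) m)^d < x^d` and
`μ.real (Vol d n) ≤ 2 * 2^(- x / B^(d - 1)) ≤ 2^(- x / (2 B^(d - 1)))`. Otherwise
`x ≤ X0 = max ((4 b + 1)^(d - 1)) (4 B^(d - 1))` and `exp (- α) ≤ exp (- α x / X0)`.
`γ = min (log 2 / (2 B^(d - 1))) (α / X0)`. Hypothesis: T_MEA. -/
def T_FIN : Prop := ∀ (d b : ℕ), 2 ≤ d → ∀ μ : Measure (Ed d → Bool), IsProbabilityMeasure μ →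
  ∀ α : ℝ, 0 < α → α ≤ 1 / 2 →
  (∀ n : ℕ, α ≤ μ.real {ω : Ed d → Bool | ∃ v ∈ C0 ω, ∃ i, (n : ℤ) ≤ |v i|}) →
  (∀ n m : ℕ, 2 * b ≤ n → (2 * b + 1) * m ≤ n → μ.real (Rad d n) ≤ (1 / 2) ^ m) →
  (∀ n m : ℕ, (4 * b + 1) ^ d < n → ((2 * b + 1) ^ d) ^ (d - 1) * m ^ d < n ^ (d - 1) →
    μ.real (Vol d n) ≤ (1 / 2) ^ m) →
  ∃ σ γ : ℝ, 0 < σ ∧ 0 < γ ∧ ∀ n : ℕ, 1 ≤ n →
    μ.real (Rad d n) ≤ Real.exp (-(n * σ)) ∧
    μ.real (Vol d n) ≤ Real.exp (-(γ * (n : ℝ) ^ (((d : ℝ) - 1) / d)))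

/-- `T_REN` from the targets of the two halves. -/
theorem ren_of (hSLV : T_SLV) (hGBE : T_GBE) (hBLM : T_BLM) (hPSM : T_PSM) (hTAI : T_TAI)
    (hFIP : T_FIP) (hFIN : T_FIN) : T_REN := by
  intro d hd p q hp hp1 hq L α hS μ hμ
  have hV := hSLV d p q L α hS
  have hprob := hμ.prob
  have hd0 : (0 : ℝ) < d := by exact_mod_cast (by omega : 0 < d)
  have hε : (0 : ℝ) < (1 / (1024 * (d : ℝ) ^ 2)) ^ (2 * d * 9 ^ d) := by positivity
  obtain ⟨b, -, hb⟩ := hGBE d p q hd hp hp1 hq L _ hV _ hε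
  have h1 := hBLM d p q _ (by omega) hp hp1 hq hε.le b hb μ hμ
  have h2 := hPSM d b (by omega) μ hprob h1
  obtain ⟨h3, h4⟩ := hTAI d b hd μ hprob h2
  have h5 := hFIP d p q hd hp hp1 hq L _ hV μ hμ
  exact hFIN d b hd μ hprob _ hV.1 hV.2.1 h5 h3 h4

end Pool.Agent.FKP
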