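import Pool.Agent.FKP.Main

/-!
# Project FKP, part D: the quadratic Lebowitz-Pfister inequality for integers `q = n ≥ 2`

Plan: Edwards-Sokal colourings with colours in `ZMod n` (T_ESC, T_PTS) express all quantities of
`QLPc` by Potts sums; the inequality for the Potts sums is a Cauchy-Schwarz inequality (T_GIN) for
a positive semidefinite form obtained by duplication of the spins and the change of variables
`(g, h) ↦ (g + h, g - h)` in the group `V → ZMod (2 n)` (T_GPS, T_KER).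
-/

set_option autoImplicit false

namespace Pool.Agent.FKP

open Filter MeasureTheory Pool.Agent.FKT

/-! ## Colourings -/

section colour

variable {V E : Type} [DecidableEq V]

/-- The colour `a` of `ZMod m` as the angle `2 π a / m`. -/
noncomputable def agl (m : ℕ) (a : ZMod m) : ℝ := 2 * Real.pi * (a.val : ℝ) / m

open Classical in
/-- The colourings with `n` colours, constant on the clusters, with colour `0` at `T`. -/
noncomputable def col [Fintype V] (n : ℕ) [NeZero n] (s t : E → V) (R : V → V → Prop) (O : Set E)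
    (T : V) : Finset (V → ZMod n) :=
  Finset.univ.filter fun σ => (∀ a b, Con s t R O a b → σ a = σ b) ∧ σ T = 0

/-- The Potts sum with the colour `0` at `T`. -/
noncomputable def pots [Fintype V] [Fintype E] (n : ℕ) [NeZero n] (s t : E → V)
    (R : V → V → Prop) (p : ℝ) (T : V) (g : (V → ZMod n) → ℝ) : ℝ :=
  ∑ σ : V → ZMod n, ind ((∀ a b, R a b → σ a = σ b) ∧ σ T = 0) *
    (∏ e : E, (1 - p + p * ind (σ (s e) = σ (t e)))) * g σ

end colour

/-- ESC. Sums over the colourings of the clusters. Proof: let `𝒞` be the set of the classes of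
`Con` on `V` (`Quot`/`Quotient` of the equivalence relation `Con s t R O`, or the set
`clus '' univ`), `N = |𝒞| = ncl univ O`. The colourings `σ ∈ col` are the functions
`τ : 𝒞 → ZMod n` with `τ [T] = 0`. (1) their number is `n ^ (N - 1)`. (2) if `x` is connected to
`T` every term is `cos 0 = 1`; otherwise `σ x` takes each value of `ZMod n` equally often
(`n ^ (N - 2)` times; e.g. the bijection `τ ↦ τ + 1_{[x]}` of `col` shows that the number does not
depend on the value) and `Σ_{a : ZMod n} cos (2 π a / n) = 0` for `n ≥ 2` (real part of the sum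
of the `n`-th roots of unity). (3) if `x` is connected to `y` every term is `1`; otherwise one of
`x`, `y` is not connected to `T`, say `x`; then adding the colour `1` to the class of `x` is a
bijection of `col` which adds `1` to `σ x - σ y`: this difference is uniformly distributed. (4)
same: `Σ_σ ind (σ x = σ y)` is `n ^ (N - 1)` if connected and `n ^ (N - 1) / n` otherwise. -/
def T_ESC : Prop := ∀ (V E : Type) [DecidableEq V] [Fintype V] (n : ℕ) [NeZero n], 2 ≤ n →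
  ∀ (s t : E → V) (R : V → V → Prop) (O : Set E) (T : V),
    1 ≤ ncl s t R Finset.univ O ∧
    ((col n s t R O T).card : ℝ) = (n : ℝ) ^ (ncl s t R Finset.univ O - 1) ∧
    (∀ x : V, ∑ σ ∈ col n s t R O T, Real.cos (agl n (σ x)) =
      (n : ℝ) ^ (ncl s t R Finset.univ O - 1) * ind (Con s t R O x T)) ∧
    ∀ x y : V, (∑ σ ∈ col n s t R O T, Real.cos (agl n (σ x - σ y)) =
        (n : ℝ) ^ (ncl s t R Finset.univ O - 1) * ind (Con s t R O x y)) ∧
      ∑ σ ∈ col n s t R O T, ind (σ x = σ y) =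
        (n : ℝ) ^ (ncl s t R Finset.univ O - 1) *
          (ind (Con s t R O x y) + (1 - ind (Con s t R O x y)) / n)

/-- PTS. The Edwards-Sokal expansion. Proof: (1) expand the product with `Finset.prod_add`
(`1 - p + p * ind (..)`, over the set `ω` of the edges where the second term is chosen):
`Π_e = Σ_{ω ⊆ univ} p^|ω| (1 - p)^(|E| - |ω|) Π_{e ∈ ω} ind (σ (s e) = σ (t e))`; a colouring with
`σ a = σ b` for all wired pairs, `σ (s e) = σ (t e)` for `e ∈ ω` and `σ T = 0` is an element of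
`col n s t R ω T` and conversely (induction over `Relation.EqvGen`). Exchange the sums. (2) for
`g' σ = ind (σ (s e) = σ (t e)) * g σ`: fix `σ` with `σ (s e) = σ (t e)`; the sum over the `ω`
compatible with `σ` and containing `e` of `bw p ω` is `p` times the sum over all compatible `ω`
(pair `ω` and `insert e ω`, `e ∉ ω`, with weights `1 - p : p`). -/
def T_PTS : Prop := ∀ (V E : Type) [DecidableEq V] [DecidableEq E] [Fintype V] [Fintype E]
  (n : ℕ) [NeZero n] (s t : E → V) (R : V → V → Prop) (p : ℝ) (T : V) (g : (V → ZMod n) → ℝ),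
    pots n s t R p T g = ∑ ω : Finset E, bw p Finset.univ ω *
      ∑ σ ∈ col n s t R (ω : Set E) T, g σ ∧
    ∀ e : E, p * pots n s t R p T (fun σ => ind (σ (s e) = σ (t e)) * g σ) =
      ∑ ω : Finset E, bw p Finset.univ ω * ind (e ∈ ω) *
        ∑ σ ∈ col n s t R (ω : Set E) T, g σ

/-! ## The positive semidefinite form -/

/-- GPS. Duplication. Proof: on the left substitute `g = z + h`: it is
`Σ_z Σ_h C (z + 2 h) * C' z`. For every `w` replace `z` by `z + 2 w` (bijection in `z`):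
`Σ_z Σ_h C (z + 2 w + 2 h) * C' (z + 2 w)`. Average over `w : A` and substitute `h ↦ h - w`:
`(1 / |A|) Σ_z Σ_w Σ_h C (z + 2 h) * C' (z + 2 w)`. -/
def T_GPS : Prop := ∀ (A : Type) [AddCommGroup A] [Fintype A] (C C' : A → ℝ),
  ∑ g : A, ∑ h : A, C (g + h) * C' (g - h) =
    (1 / (Fintype.card A : ℝ)) * ∑ z : A, (∑ y : A, C (z + (y + y))) * ∑ y : A, C' (z + (y + y))

/-- A positive semidefinite kernel with an explicit finite Gram representation. -/
def PDk {A : Type} (K : A → A → ℝ) : Prop :=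
  ∃ (m : ℕ) (C : Fin m → A → ℝ), ∀ a b, K a b = ∑ i, C i a * C i b

/-- KER. Positive semidefinite kernels. Proof: (1), (2), (3): sum, product (index `Fin m × Fin m'`,
`(C i C' j)(a) (C i C' j)(b)`), multiplication by a constant `c ≥ 0` (`sqrt c`); (4) finite
products by induction, the constant `1` is such a kernel; (5) composition with a map. (6)-(8), in
`ZMod (2 n)`: with `c k a = cos (agl (2 n) (k * a))`, `s k a = sin (agl (2 n) (k * a))`,
`ind (a = 0) = (1 / (2 n)) Σ_k c k a` (roots of unity), so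
`ind (a + b = 0) ± ind (a - b = 0) = (1 / (2 n)) Σ_k (c k (a + b) ± c k (a - b))` and
`c k (a + b) = c k a c k b - s k a s k b`, `c k (a - b) = c k a c k b + s k a s k b` (the angle is
additive modulo `2 π`). (8): `a + b = 0` and `a - b = 0` iff `b = a` and `a + a = 0`:
`Σ_{c, c + c = 0} ind (a = c) ind (b = c)`. -/
def T_KER : Prop := (∀ (A : Type) (K K' : A → A → ℝ), PDk K → PDk K' →
    PDk (fun a b => K a b + K' a b) ∧ PDk fun a b => K a b * K' a b) ∧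
  (∀ (A : Type) (K : A → A → ℝ) (c : ℝ), 0 ≤ c → PDk K → PDk fun a b => c * K a b) ∧
  (∀ (A ι : Type) (S : Finset ι) (K : ι → A → A → ℝ), (∀ i ∈ S, PDk (K i)) →
    PDk fun a b => ∏ i ∈ S, K i a b) ∧
  (∀ (A A' : Type) (K : A → A → ℝ) (f : A' → A), PDk K → PDk fun a b => K (f a) (f b)) ∧
  ∀ (n : ℕ) [NeZero n],
    PDk (fun a b : ZMod (2 * n) => ind (a + b = 0) + ind (a - b = 0)) ∧
    PDk (fun a b : ZMod (2 * n) => ind (a - b = 0) - ind (a + b = 0)) ∧
    PDk fun a b : ZMod (2 * n) => ind (a + b = 0) * ind (a - b = 0)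

/-- GIN. The quadratic correlation inequality for Potts sums. Write `⟨g⟩` for the Potts sum,
`f = ind (σ B = 0)`, `x`, `y` vertices. Proof: let `A = V → ZMod (2 n)`, and for `g : A` let
`W g = Π_e (1 - p + p ind (2 (g (s e) - g (t e)) = 0)) * Π_{(a, b), R a b} ind (2 (g a - g b) = 0)
* ind (2 g T = 0)` and `F g = ind (2 g B = 0)`. Every `σ : V → ZMod n` is the reduction of exactly
`2^|V|` elements of `A` (`ZMod.castHom`), and `2 (g a - g b) = 0` in `ZMod (2 n)` iff `g a = g b` in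
`ZMod n`; so `Σ_{g : A} W g H (g mod n) = 2^|V| ⟨H⟩`. Let
`S (A1, A2) = Σ_{g, h} W g W h (F h - F g) A1 (g + h) A2 (g - h)`. In the variables `a = g + h`,
`b = g - h`: `2 g i = a i + b i`, `2 h i = a i - b i`, so every factor of
`W g W h (F h - F g)` is a kernel in `(a, b)` of T_KER:
`(1 - p + p δ)(1 - p + p δ') = (1 - p)^2 + p (1 - p)(δ + δ') + p^2 δ δ'` with `δ = ind (a' + b' = 0)`,
`δ' = ind (a' - b' = 0)`, `a' = a (s e) - a (t e)`, `b' = b (s e) - b (t e)`; the pairs of `R` and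
`T` give `δ δ'`; the last factor is `δ' - δ` at `B`. So `W g W h (F h - F g) = Σ_i C i a C i b`
and by T_GPS `S (A1, A2) = (1/|A|) Σ_i Σ_z (Σ_y (C i A1)(z + 2 y)) (Σ_y (C i A2)(z + 2 y))`: a
symmetric positive semidefinite bilinear form, with the Cauchy-Schwarz inequality
`S (A1, A2)^2 ≤ S (A1, A1) S (A2, A2)` (`Finset.sum_mul_sq_le_sq_mul_sq`). Take
`A1 a = sin (agl (2 n) (a x - a y))`, `A2 a = sin (agl (2 n) (a x + a y))`. Trigonometry (angles
in `ZMod (2 n)`, `sin (u + v) sin (u - v) = (cos 2 v - cos 2 u) / 2`, and the angle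
`agl (2 n) (2 g)` is `agl n (g mod n)` modulo `2 π`):
`A1 (g + h) A1 (g - h) = (cos (h x - h y) - cos (g x - g y)) / 2` where now `cos (g x - g y)`
means `cos (agl n (σ x - σ y))`, hence `S (A1, A1) = 4^|V| (⟨f c⟩ ⟨1⟩ - ⟨f⟩ ⟨c⟩)` with
`c σ = cos (agl n (σ x - σ y))`; in the same way `S (A2, A2) = 4^|V| (⟨f c'⟩ ⟨1⟩ - ⟨f⟩ ⟨c'⟩)` with
`c' σ = cos (agl n (σ x + σ y))`. With `B1 a = sin (a x) cos (a y)`, `B2 a = cos (a x) sin (a y)`,
`A1 = B1 - B2`, `A2 = B1 + B2`, so `S (A1, A2) = S (B1, B1) - S (B2, B2)`, and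
`B1 (g + h) B1 (g - h) = (cos (h x) - cos (g x)) (cos (g y) + cos (h y)) / 4` (as
`cos (u + v) cos (u - v) = (cos 2 u + cos 2 v) / 2`), so that
`S (B1, B1) - S (B2, B2) = 4^|V| (⟨f cx⟩ ⟨cy⟩ - ⟨f cy⟩ ⟨cx⟩)` with
`cx σ = cos (agl n (σ x))`, `cy σ = cos (agl n (σ y))` (the products `cos g x cos g y` cancel).
Hypotheses: T_GPS, T_KER. -/
def T_GIN : Prop := ∀ (V E : Type) [DecidableEq V] [DecidableEq E] [Fintype V] [Fintype E]
  (n : ℕ) [NeZero n] (s t : E → V) (R : V → V → Prop) (p : ℝ), 0 < p → p < 1 →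
  ∀ T B x y : V,
    let P := pots n s t R p T
    let f := fun σ : V → ZMod n => ind (σ B = 0)
    let c := fun σ : V → ZMod n => Real.cos (agl n (σ x - σ y))
    let c' := fun σ : V → ZMod n => Real.cos (agl n (σ x + σ y))
    let cx := fun σ : V → ZMod n => Real.cos (agl n (σ x))
    let cy := fun σ : V → ZMod n => Real.cos (agl n (σ y))
    0 ≤ P (fun σ => f σ * c σ) * P (fun _ => 1) - P f * P c ∧
    0 ≤ P (fun σ => f σ * c' σ) * P (fun _ => 1) - P f * P c' ∧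
    (P (fun σ => f σ * cx σ) * P cy - P (fun σ => f σ * cy σ) * P cx) ^ 2 ≤
      (P (fun σ => f σ * c σ) * P (fun _ => 1) - P f * P c) *
        (P (fun σ => f σ * c' σ) * P (fun _ => 1) - P f * P c')

/-- QLM. The inequality with `κ = (1 - 1/n) / 2`, `u = 1 / (n - 1)`. Proof: let `R1 = mrg R T B`,
`N ω = ncl R univ ω`, `N1 ω = ncl R1 univ ω`, `D ω = ¬ Con R ω T B`. If `D ω` then
`N1 ω = N ω - 1` (`N ω ≥ 2`; the classes of `T` and `B` are merged), otherwise `Con R1 ω` and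
`Con R ω` coincide and `N1 ω = N ω`; if `D ω` then `Con R1 ω x T` iff `Con R ω x T` or
`Con R ω x B` (exactly one of them). By T_PTS and T_ESC, for the Potts sums `⟨g⟩` of `R`, and
those `⟨g⟩₁` of `R1`, `⟨g⟩₁ = ⟨f g⟩` with `f σ = ind (σ B = 0)` (a colouring constant on the pairs
of `R1` with `σ T = 0`), and with `F h = Σ_ω bw ω n^(N1 ω - 1) h ω`
(so `Ex R1 h = F h / F 1`, as `N1 ≥ 1`):
`⟨f⟩ = F 1`; `⟨1 - f⟩ = Σ_ω bw (n^(N-1) - n^(N1-1)) = (n - 1) F (ind D)`;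
`⟨f cx⟩ = F (ind (Con R1 x T))`; `⟨(1 - f) cx⟩ = Σ_ω bw (n^(N-1) ind (Con R x T) -
n^(N1-1) ind (Con R1 x T)) = F (ind D ((n - 1) ind (Con R x T) - ind (Con R x B)))`; so
`tht x = ⟨f cx⟩ / ⟨f⟩`, `sgn x = ⟨(1 - f) cx⟩ / ⟨1 - f⟩` (`u = 1/(n-1)`; `⟨1 - f⟩ > 0` since `D ∅`).
With `j σ = ind (σ (s e) = σ (t e))`: `p ⟨f j⟩ = F (1_e)` and
`p ⟨(1 - f) j⟩ = Σ_ω bw 1_e (n^(N-1) - n^(N1-1)) = (n - 1) F (ind D 1_e)`, so
`dlt e = p (⟨f j⟩ / ⟨f⟩ - ⟨(1 - f) j⟩ / ⟨1 - f⟩) = p (⟨f j⟩ ⟨1⟩ - ⟨f⟩ ⟨j⟩) / (⟨f⟩ ⟨1 - f⟩)`.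
By T_ESC (3), (4), for both `R` and `R1`, `⟨j⟩ = ⟨1⟩ / n + (1 - 1/n) ⟨c⟩` and
`⟨f j⟩ = ⟨f⟩ / n + (1 - 1/n) ⟨f c⟩`, with `x = s e`, `y = t e`. Hence
`dlt e = p (1 - 1/n) (⟨f c⟩ ⟨1⟩ - ⟨f⟩ ⟨c⟩) / (⟨f⟩ ⟨1 - f⟩)`. Since `|c'| ≤ 1`,
`⟨f c'⟩ ⟨1⟩ - ⟨f⟩ ⟨c'⟩ = ⟨f c'⟩ ⟨1 - f⟩ - ⟨f⟩ ⟨(1 - f) c'⟩ ≤ 2 ⟨f⟩ ⟨1 - f⟩`. And
`⟨f cx⟩ ⟨cy⟩ - ⟨f cy⟩ ⟨cx⟩ = ⟨f cx⟩ ⟨(1 - f) cy⟩ - ⟨f cy⟩ ⟨(1 - f) cx⟩ =
⟨f⟩ ⟨1 - f⟩ (tht x sgn y - tht y sgn x)`. T_GIN gives
`(⟨f⟩ ⟨1 - f⟩)^2 (..)^2 ≤ (⟨f c⟩ ⟨1⟩ - ⟨f⟩ ⟨c⟩) * 2 ⟨f⟩ ⟨1 - f⟩`. Hypotheses: T_ESC, T_PTS,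
T_GIN. -/
def T_QLM : Prop := ∀ n : ℕ, 2 ≤ n → QLPc (n : ℝ) ((1 - 1 / (n : ℝ)) / 2) (1 / ((n : ℝ) - 1))

theorem qln_of (h : T_QLM) : T_QLN := by
  intro n hn
  have h2 : (2 : ℝ) ≤ (n : ℝ) := by exact_mod_cast hn
  refine ⟨(1 - 1 / (n : ℝ)) / 2, 1 / ((n : ℝ) - 1), ?_, ?_, h n hn⟩
  · have : 1 / (n : ℝ) ≤ 1 / 2 := one_div_le_one_div_of_le (by norm_num) h2
    linarith
  · apply div_nonneg zero_le_one
    linarith

end Pool.Agent.FKP
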