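import Pool.Agent.FKP.PartC2

/-!
# Project FKP, part E: the slab critical point of the problem

`SLn d L n` is the slab `S(L, n)` of the problem, `PiL d p q L` is the property `Π(p, L)`,
`pch d q L` is the critical point of the slabs of thickness `L`. The target T_PCH says that
`pch d q L` tends to `pc d q` as soon as there is slab percolation for all `p > pc d q`.
-/

set_option autoImplicit false

namespace Pool.Agent.FKP

open Filter MeasureTheory Pool.Agent.FKT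

/-- The slab `S(L, n) = [0, L - 1] × [-n, n]^(d - 1)`. -/
noncomputable def SLn (d L n : ℕ) : Finset (Vx d) :=
  Finset.Icc (fun l => if (l : ℕ) = 0 then 0 else -(n : ℤ))
    (fun l => if (l : ℕ) = 0 then (L : ℤ) - 1 else (n : ℤ))

/-- The property `Π(p, L)`. -/
def PiL (d : ℕ) (p q : ℝ) (L : ℕ) : Prop :=
  ∃ α : ℝ, 0 < α ∧ ∀ n : ℕ, ∀ x ∈ SLn d L n, α < tp (SLn d L n) p q 0 x

/-- The critical point of the slabs of thickness `L`. -/
noncomputable def pch (d : ℕ) (q : ℝ) (L : ℕ) : ℝ :=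
  sInf {p : ℝ | 0 ≤ p ∧ p ≤ 1 ∧ PiL d p q L}

/-- MOL. Thicker slabs. Proof: `α' = α π^L'`, `π = p / (p + q (1 - p))`. Let
`x, y ∈ S' = slb i L' c n`. There is `c1` with `c ≤ c1`, `c1 + L ≤ c + L'`,
`c1 ≤ x i ≤ c1 + L`; let `S = slb i L c1 n ⊆ S'` and `x'` the point `y` with the coordinate `i`
replaced by `c1`, `x' ∈ S`. By T_DMC and `Slab`, `ind (Cf (ω ∩ es S) x x')` has expectation at least
`α` in the free measure of `S'`; the at most `L'` edges of the segment from `x'` to `y` in the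
direction `i` are in `es S'`, all open with probability at least `π^L'` (T_FEN; `π ≤ 1`); both
functions are increasing, FKG (`FKT.T_FKG`), and the product is at most `ind (Cf ω x y)`. -/
def T_MOL : Prop := ∀ (d : ℕ) (p q : ℝ), 0 < p → p < 1 → 1 ≤ q → ∀ (L : ℕ) (α : ℝ),
  Slab d p q L α → ∀ L' : ℕ, L ≤ L' → ∃ α' : ℝ, Slab d p q L' α'

/-- PI1. The case `p = 1`. Proof: `bw 1 G ω = 0` for `ω ⊂ G`, `bw 1 G G = 1`, so
`Ex s t R U G 1 q f = f G`. (1) `tp (SLn d L n) 1 q 0 x = ind (Cf (es (SLn d L n)) 0 x) = 1` for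
`x ∈ SLn d L n` (then `1 ≤ L`, so `0 ∈ SLn d L n`, and boxes are connected, T_BCN); take
`α = 1 / 2`. (2) `μ` = the Dirac measure at the configuration `fun _ => true`: for `T ⊆ F` and `n`
large (`F ⊆ eb 0 n`) `phi 0 n 1 q (fun ω => if ω ∩ F = T then 1 else 0)` is `1` if `T = F`
and `0` otherwise, which is `μ.real (Cyl F T)`. Hypothesis: T_BCN. -/
def T_PI1 : Prop := ∀ (d : ℕ) (q : ℝ), 1 ≤ d → 0 < q → (∀ L : ℕ, PiL d 1 q L) ∧
  ∃ μ : Measure (Ed d → Bool), IsWired d 1 q μ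

/-- PI0. The case `p = 0`. Proof: for `n = 1` and `x = e_i1`, `i1 = 1`, `x ∈ SLn d L 1`. As
`bw 0 G ω = 0` for `ω ≠ ∅`, `ω ⊆ G`, `tp (SLn d L 1) 0 q 0 x = ind (Cf ∅ 0 x) = 0`. -/
def T_PI0 : Prop := ∀ (d : ℕ) (q : ℝ) (L : ℕ), 2 ≤ d → 0 < q → 1 ≤ L → ¬ PiL d 0 q L

/-- MPI. Monotonicity in `p`. Proof: T_HOL for the increasing function `ind (Cf · 0 x)`.
Hypothesis: T_HOL. -/
def T_MPI : Prop := ∀ (d : ℕ) (p p' q : ℝ) (L : ℕ), 0 < p → p ≤ p' → p' < 1 → 1 ≤ q →
  PiL d p q L → PiL d p' q L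

/-- LOW. Slab percolation implies percolation. Proof: let `X n` be the event that `C0 ω` contains
a point `v` with `n ≤ |v i|` for some `i`. With `x = n e_i1 ∈ SLn d L n`, `i1 = 1`, T_DMC
(`G1 = es (SLn d L n)`) gives for `N ≥ n + L`
`α ≤ tp (SLn d L n) p q 0 x ≤ phi 0 N p q (fun ω => ind (Cf (ω ∩ es (SLn d L n)) 0 x))`, and
`FKT.T_LOC`: `α ≤ μ.real (X n)` for all `n`. The events `X n` are decreasing, measurable (for
every `v`, `Cn (cfg ω) 0 v` holds iff `Cn (cfg ω ∩ eb 0 N) 0 v` for some `N`, a local event), and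
their intersection is `Inf0 d`; so `α ≤ μ.real (Inf0 d)` (continuity from above,
`tendsto_measure_iInter_atTop`). Hypotheses: T_DMC, `FKT.T_LOC`. -/
def T_LOW : Prop := ∀ (d : ℕ) (p q : ℝ) (L : ℕ), 2 ≤ d → 0 < p → p < 1 → 1 ≤ q → 1 ≤ L →
  PiL d p q L → ∀ μ : Measure (Ed d → Bool), IsWired d p q μ → μ (Inf0 d) ≠ 0

/-- PCH. The slab critical points tend to the critical point. Proof: (i) for `L ≥ 1`,
`pc d q ≤ pch d q L`: the set in the definition of `pch` is not empty (`p = 1`, T_PI1); let `p` be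
in it. `p ≠ 0` (T_PI0). If `p = 1` then `pc d q ≤ 1` (`pc` is the supremum of a set of numbers
`≤ 1`, and `0` if it is empty). If `0 < p < 1`: every `p'` of the set in the definition of `pc`
is at most `p`: otherwise, if `p' < 1`, `PiL d p' q L` by T_MPI, there is a wired measure
(`FKT.T_EXI`) and T_LOW is a contradiction; if `p' = 1`, there is a wired measure by T_PI1 and
`μ (Inf0 d) ≠ 0` by T_ONE. (ii) let `ε > 0`. If `1 ≤ pc d q + ε` then `pch d q L ≤ 1` as `1` is in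
the set. Otherwise let `pc d q < p < min 1 (pc d q + ε)`; the hypothesis and T_MOL give `L` such
that `Slab d p q L' α'` for all `L' ≥ L` with some `α'` depending on `L'`; as
`slb 0 L' 0 n = SLn d (L' + 1) n` (the direction `0`) this gives `PiL d p q (L' + 1)` with
`α' / 2`, so `pch d q (L' + 1) ≤ p < pc d q + ε`. Hypotheses: T_MOL, T_PI1, T_PI0, T_MPI, T_LOW,
T_ONE, `FKT.T_EXI`. -/
def T_PCH : Prop := ∀ (d : ℕ) (q : ℝ), 2 ≤ d → 1 ≤ q →
  (∀ p : ℝ, pc d q < p → p < 1 → ∃ (L : ℕ) (α : ℝ), Slab d p q L α) →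
    Tendsto (fun L : ℕ => pch d q L) atTop (nhds (pc d q))

end Pool.Agent.FKP
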